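import Mathlib

set_option autoImplicit false

/-!
# Cycles through independent edges: paths, segments and configurations as lists
-/

namespace Pool.Agent.LW

open SimpleGraph Classical

universe w

variable {V : Type w} {G H : SimpleGraph V} {L : Finset (Sym2 V)}

/-! ## paths as lists -/

/-- `F` is a walk of `H` from `a` to `b`, written as a list -/
structure Ch (H : SimpleGraph V) (a b : V) (F : List V) : Prop where
  hd : F.head? = some a
  lt : F.getLast? = some b
  ch : F.IsChain H.Adj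

/-- `a` and `b` are consecutive on the list `F` -/
def EL (F : List V) (a b : V) : Prop := [a, b] <:+: F ∨ [b, a] <:+: F

/-- `a` comes before `b` on the list `F` -/
def Bf (F : List V) (a b : V) : Prop := [a, b].Sublist F

/-- reversal of a list of segments -/
def rv (M : List (List V)) : List (List V) := (M.map List.reverse).reverse

/-- the junction between two consecutive segments is an edge of `L` -/
def JL (L : Finset (Sym2 V)) (P Q : List V) : Prop :=
  ∃ r l, P.getLast? = some r ∧ Q.head? = some l ∧ s(r, l) ∈ L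

/-- cyclically consecutive elements of the list are related -/
def CycR {α : Type w} (R : α → α → Prop) : List α → Prop
  | [] => False
  | a :: l => (a :: (l ++ [a])).IsChain R

/-- the segments of a full cycle -/
structure Full (G : SimpleGraph V) (L : Finset (Sym2 V)) (Ps : List (List V)) : Prop where
  nd : Ps.flatten.Nodup
  ch : ∀ P ∈ Ps, P.IsChain G.Adj
  two : ∀ P ∈ Ps, 2 ≤ P.length
  jn : CycR (JL L) Ps
  card : Ps.length = L.card

/-- a cycle with segments `Ps` through all edges of `L` but `xy`, which is off the cycle -/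
structure Cfg (G : SimpleGraph V) (L : Finset (Sym2 V)) (x y : V) (Ps : List (List V)) :
    Prop where
  nd : Ps.flatten.Nodup
  ch : ∀ P ∈ Ps, P.IsChain G.Adj
  two : ∀ P ∈ Ps, 2 ≤ P.length
  jn : CycR (JL L) Ps
  xy : s(x, y) ∈ L
  hx : x ∉ Ps.flatten
  hy : y ∉ Ps.flatten
  card : Ps.length + 1 = L.card
  len : 3 ≤ Ps.flatten.length

/-- a path from `u` to `v` cut into segments by edges of `L` -/
structure LP (G : SimpleGraph V) (L : Finset (Sym2 V)) (u v : V) (Rs : List (List V)) :
    Prop where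
  nd : Rs.flatten.Nodup
  ch : ∀ P ∈ Rs, P.IsChain G.Adj
  ne : ∀ P ∈ Rs, P ≠ []
  jn : Rs.IsChain (JL L)
  hd : Rs.flatten.head? = some u
  lt : Rs.flatten.getLast? = some v

/-- the standing hypotheses: an edge-maximal `k`-connected graph without full cycle -/
structure Bs (G : SimpleGraph V) (L : Finset (Sym2 V)) (k : ℕ) : Prop where
  conn : ∀ S : Finset V, S.card < k → (G.induce ((↑S : Set V)ᶜ)).Connected
  sub : ∀ e ∈ L, e ∈ G.edgeSet
  card : L.card = k
  ind : ∀ e ∈ L, ∀ f ∈ L, e ≠ f → ∀ v, v ∈ e → v ∉ f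
  k2 : 2 ≤ k
  no : ∀ Ps, ¬ Full G L Ps
  em : ∀ u v, u ≠ v → ¬ G.Adj u v → ∃ Rs, LP G L u v Rs ∧ Rs.length = k + 1

/-! ## reachability inside a set -/

/-- `b` can be reached from `a` inside `O` -/
def Rch (G : SimpleGraph V) (O : Set V) (a b : V) : Prop :=
  ∃ F, Ch G a b F ∧ ∀ v ∈ F, v ∈ O

/-- the vertices of `O` which can be reached from `u` through `O` -/
def Att (G : SimpleGraph V) (O : Set V) (u : V) : Set V := {o | ∃ a, G.Adj u a ∧ Rch G O a o}

/-- `u` and `w` are adjacent or joined through `O` -/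
def Con (G : SimpleGraph V) (O : Set V) (u w : V) : Prop :=
  G.Adj u w ∨ ∃ o ∈ Att G O u, G.Adj o w

/-! ## gates -/

/-- any two vertices of `B` are joined inside `B` by a path through the edge `xy` -/
def Thr (G : SimpleGraph V) (x y : V) (B : Set V) : Prop :=
  ∀ g ∈ B, ∀ g' ∈ B, g ≠ g' → ∃ F, Ch G g g' F ∧ F.Nodup ∧ (∀ v ∈ F, v ∈ B) ∧ EL F x y

/-- the vertices on the segments -/
def VS (Ps : List (List V)) : Set V := {v | v ∈ Ps.flatten}

/-- `B` is the set of gates and `O` the rest, for the edge `xy` off `Z` -/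
structure Gt (G : SimpleGraph V) (x y : V) (Z B O : Set V) : Prop where
  xB : x ∈ B
  yB : y ∈ B
  BZ : ∀ b ∈ B, b ∉ Z
  OO : ∀ v, v ∈ O ↔ v ∉ Z ∧ v ∉ B
  thr : Thr G x y B
  att : ∀ g ∈ B, ∀ g' ∈ B, g ≠ g' → ∀ o ∈ Att G O g, o ∉ Att G O g'

/-- all gates are adjacent to the vertex `c` of `P`, and attached to no other vertex of `P` -/
def Common (G : SimpleGraph V) (B O : Set V) (P : List V) (c : V) : Prop :=
  c ∈ P ∧ ∀ g ∈ B, G.Adj g c ∧ ∀ v ∈ P, Con G O g v → v = c

/-- only the gate `g` is attached on `P`, and its extreme attached vertices are two neighbours -/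
def Excl (G : SimpleGraph V) (B O : Set V) (P : List V) (g : V) : Prop :=
  g ∈ B ∧ (∃ A a M a' D, P = A ++ a :: (M ++ a' :: D) ∧ G.Adj g a ∧ G.Adj g a' ∧
    ∀ v ∈ P, Con G O g v → v ∈ a :: (M ++ [a'])) ∧
  ∀ g' ∈ B, g' ≠ g → ∀ v ∈ P, ¬ Con G O g' v

/-- the structure of the attachments of an edge-maximal counterexample -/
structure Tight (G : SimpleGraph V) (x y : V) (B O : Set V) (Ps : List (List V)) : Prop where
  clq : ∀ g ∈ B, ∀ g' ∈ B, g ≠ g' → G.Adj g g'
  typ : ∀ P ∈ Ps, (∃ c, Common G B O P c) ∨ ∃ g, Excl G B O P g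
  ex : ∀ g ∈ B, ∃ P ∈ Ps, Excl G B O P g
  three : ∀ g ∈ B, g ≠ x → g ≠ y → ∀ g' ∈ B,
    (Ps.filter (fun P => Excl G B O P g')).length = 1
  two : (∀ g ∈ B, g = x ∨ g = y) → (Ps.filter (fun P => Excl G B O P x)).length =
    (Ps.filter (fun P => Excl G B O P y)).length

end Pool.Agent.LW
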