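import Pool.Agent.LW.Reach

set_option autoImplicit false

/-!
# Rerouting calculus: blocks of segments with their edges of `L`, counting, configurations
-/

namespace Pool.Agent.LW

open SimpleGraph Classical

universe w

variable {V : Type w} {G H : SimpleGraph V} {L : Finset (Sym2 V)}

/-! ## more on walks -/

theorem Ch.hd_eq {a b c d : V} {F : List V} (h : Ch H a b F) (h' : Ch G c d F) : a = c := by
  have := h.hd.symm.trans h'.hd
  simpa using this

theorem Ch.lt_eq {a b c d : V} {F : List V} (h : Ch H a b F) (h' : Ch G c d F) : b = d := by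
  have := h.lt.symm.trans h'.lt
  simpa using this

theorem Ch.ex {F : List V} (h : F.IsChain H.Adj) (hF : F ≠ []) : ∃ a b, Ch H a b F :=
  ⟨F.head hF, F.getLast hF, List.head?_eq_some_head hF, List.getLast?_eq_some_getLast hF, h⟩

/-- three walks `A .. v`, `v .. w` (through `K`) and `w .. D` -/
theorem Ch.thru {a v w b : V} {A K D : List V} (h : Ch H a v (A ++ [v]))
    (hK : Ch H v w (v :: (K ++ [w]))) (h' : Ch H w b (w :: D)) :
    Ch H a b (A ++ v :: (K ++ w :: D)) := by
  have h1 : Ch H a w ((A ++ v :: K) ++ [w]) := by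
    simpa using h.glue hK
  simpa using h1.glue h'

/-- the middle part of a walk -/
theorem Ch.mid {a v w b : V} {A M D : List V} (h : Ch H a b (A ++ v :: (M ++ w :: D))) :
    Ch H v w (v :: (M ++ [w])) := by
  have h1 : Ch H v b ((v :: M) ++ w :: D) := by simpa using h.right
  simpa using h1.left

theorem Ch.tail {a b c : V} {D : List V} (h : Ch H a b (a :: c :: D)) : Ch H c b (c :: D) := by
  have h1 : Ch H a b ([a] ++ c :: D) := by simpa using h
  exact h1.right

theorem Ch.snd {a b c d : V} {D : List V} (h : Ch H d b (a :: c :: D)) : H.Adj a c := by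
  have := h.ch
  simp only [List.isChain_cons_cons] at this
  exact this.1

theorem Ch.edge {a b : V} (h : H.Adj a b) : Ch H a b [a, b] := (Ch.single b).cons h

/-- a connection as an explicit list of vertices of `O` -/
theorem Con.list {O : Set V} {u w : V} (h : Con G O u w) :
    ∃ K, Ch G u w (u :: (K ++ [w])) ∧ K.Nodup ∧ ∀ v ∈ K, v ∈ O := by
  rcases h with h | ⟨o, ⟨a, hua, F, hF, hO⟩, how⟩
  · exact ⟨[], Ch.edge h, by simp, by simp⟩
  · obtain ⟨F', h1, h2, h3⟩ := hF.path
    refine ⟨F', ?_, h2, fun v hv => hO v (h3 v hv)⟩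
    exact (h1.concat how).cons hua

/-! ## blocks of segments -/

/-- a list of segments together with the edges of `L` at both ends: from `r` to `l` -/
def Lk (G : SimpleGraph V) (L : Finset (Sym2 V)) : V → List (List V) → V → Prop
  | r, [], l => s(r, l) ∈ L
  | r, M :: Ms, l => ∃ c d, s(r, c) ∈ L ∧ Ch G c d M ∧ Lk G L d Ms l

theorem Lk.nil {r l : V} (h : s(r, l) ∈ L) : Lk G L r [] l := h

theorem Lk.cons {r c d l : V} {P : List V} {Ms : List (List V)} (h : s(r, c) ∈ L)
    (hP : Ch G c d P) (h' : Lk G L d Ms l) : Lk G L r (P :: Ms) l := ⟨c, d, h, hP, h'⟩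

/-- block, segment, block -/
theorem Lk.append {r c d l : V} {P : List V} {Ms Ns : List (List V)} (h : Lk G L r Ms c)
    (hP : Ch G c d P) (h' : Lk G L d Ns l) : Lk G L r (Ms ++ P :: Ns) l := by
  induction Ms generalizing r with
  | nil => exact ⟨c, d, h, hP, h'⟩
  | cons M Ms ih =>
    obtain ⟨p, q, h1, h2, h3⟩ := h
    exact ⟨p, q, h1, h2, ih h3⟩

/-- cutting a block at a segment -/
theorem Lk.split {r l : V} {P : List V} {Ms Ns : List (List V)}
    (h : Lk G L r (Ms ++ P :: Ns) l) :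
    ∃ c d, Lk G L r Ms c ∧ Ch G c d P ∧ Lk G L d Ns l := by
  induction Ms generalizing r with
  | nil =>
    obtain ⟨p, q, h1, h2, h3⟩ := h
    exact ⟨p, q, h1, h2, h3⟩
  | cons M Ms ih =>
    obtain ⟨p, q, h1, h2, h3⟩ := h
    obtain ⟨c, d, h4, h5, h6⟩ := ih h3
    exact ⟨c, d, ⟨p, q, h1, h2, h4⟩, h5, h6⟩

/-- reversal of a block -/
theorem Lk.rev {r l : V} {Ms : List (List V)} (h : Lk G L r Ms l) : Lk G L l (rv Ms) r := by
  induction Ms generalizing r with
  | nil =>
    have h1 : s(r, l) ∈ L := h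
    rw [Sym2.eq_swap] at h1
    exact h1
  | cons M Ms ih =>
    obtain ⟨p, q, h1, h2, h3⟩ := h
    rw [rv_cons]
    rw [Sym2.eq_swap] at h1
    exact (ih h3).append h2.reverse (Lk.nil h1)

theorem Lk.chain {r l : V} {Ms : List (List V)} (h : Lk G L r Ms l) :
    ∀ P ∈ Ms, P.IsChain G.Adj := by
  induction Ms generalizing r with
  | nil => simp
  | cons M Ms ih =>
    obtain ⟨p, q, h1, h2, h3⟩ := h
    intro P hP
    rcases List.mem_cons.1 hP with hP | hP
    · rw [hP]; exact h2.ch
    · exact ih h3 P hP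

theorem isChain_of_lk {r l : V} {P Q : List V} {Ms : List (List V)} (h : Lk G L r Ms l)
    (hP : P.getLast? = some r) (hQ : Q.head? = some l) :
    (P :: (Ms ++ [Q])).IsChain (JL L) := by
  induction Ms generalizing r P with
  | nil =>
    simp only [List.nil_append, List.isChain_cons_cons, List.isChain_singleton, and_true]
    exact ⟨r, l, hP, hQ, h⟩
  | cons M Ms ih =>
    obtain ⟨p, q, h1, h2, h3⟩ := h
    rw [List.cons_append, List.isChain_cons_cons]
    exact ⟨⟨r, p, hP, h2.hd, h1⟩, ih h3 h2.lt⟩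

theorem lk_of_isChain {r l : V} {P Q : List V} {Ms : List (List V)}
    (h : (P :: (Ms ++ [Q])).IsChain (JL L)) (hc : ∀ R ∈ Ms, R.IsChain G.Adj)
    (hn : ∀ R ∈ Ms, R ≠ []) (hP : P.getLast? = some r) (hQ : Q.head? = some l) :
    Lk G L r Ms l := by
  induction Ms generalizing r P with
  | nil =>
    simp only [List.nil_append, List.isChain_cons_cons, List.isChain_singleton, and_true] at h
    obtain ⟨r', l', h1, h2, h3⟩ := h
    have h4 : r' = r := by have := h1.symm.trans hP; simpa using this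
    have h5 : l' = l := by have := h2.symm.trans hQ; simpa using this
    subst h4; subst h5
    exact h3
  | cons M Ms ih =>
    rw [List.cons_append, List.isChain_cons_cons] at h
    obtain ⟨⟨r', l', h1, h2, h3⟩, h'⟩ := h
    have h4 : r' = r := by have := h1.symm.trans hP; simpa using this
    subst h4
    obtain ⟨p, q, hM⟩ := Ch.ex (hc M (by simp)) (hn M (by simp))
    have h5 : l' = p := by have := h2.symm.trans hM.hd; simpa using this
    subst h5
    refine ⟨l', q, h3, hM, ih h' ?_ ?_ hM.lt⟩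
    · intro R hR; exact hc R (List.mem_cons_of_mem _ hR)
    · intro R hR; exact hn R (List.mem_cons_of_mem _ hR)

/-! ## full cycles and configurations from their first segment -/

theorem Full.mk' {l r : V} {P : List V} {Ms : List (List V)} (hP : Ch G l r P)
    (hM : Lk G L r Ms l) (hnd : (P :: Ms).flatten.Nodup) (htwo : ∀ Q ∈ P :: Ms, 2 ≤ Q.length)
    (hcard : (P :: Ms).length = L.card) : Full G L (P :: Ms) := by
  refine ⟨hnd, ?_, htwo, isChain_of_lk hM hP.lt hP.hd, hcard⟩
  intro Q hQ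
  rcases List.mem_cons.1 hQ with hQ | hQ
  · rw [hQ]; exact hP.ch
  · exact hM.chain Q hQ

theorem Full.lk {P : List V} {Ms : List (List V)} (h : Full G L (P :: Ms)) :
    ∃ l r, Ch G l r P ∧ Lk G L r Ms l := by
  have hne : ∀ Q ∈ P :: Ms, Q ≠ [] := by
    intro Q hQ h'
    have := h.two Q hQ
    rw [h'] at this
    simp at this
  obtain ⟨l, r, hP⟩ := Ch.ex (h.ch P (by simp)) (hne P (by simp))
  refine ⟨l, r, hP, lk_of_isChain h.jn ?_ ?_ hP.lt hP.hd⟩
  · intro R hR; exact h.ch R (List.mem_cons_of_mem _ hR)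
  · intro R hR; exact hne R (List.mem_cons_of_mem _ hR)

theorem Cfg.mk' {l r x y : V} {P : List V} {Ms : List (List V)} (hP : Ch G l r P)
    (hM : Lk G L r Ms l) (hxy : s(x, y) ∈ L) (hnd : (x :: y :: (P :: Ms).flatten).Nodup)
    (htwo : ∀ Q ∈ P :: Ms, 2 ≤ Q.length) (hcard : (P :: Ms).length + 1 = L.card)
    (hlen : 3 ≤ (P :: Ms).flatten.length) : Cfg G L x y (P :: Ms) := by
  have h1 := List.nodup_cons.1 hnd
  have h2 := List.nodup_cons.1 h1.2
  refine ⟨h2.2, ?_, htwo, isChain_of_lk hM hP.lt hP.hd, hxy, ?_, h2.1, hcard, hlen⟩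
  · intro Q hQ
    rcases List.mem_cons.1 hQ with hQ | hQ
    · rw [hQ]; exact hP.ch
    · exact hM.chain Q hQ
  · intro h; exact h1.1 (List.mem_cons_of_mem _ h)

theorem Cfg.ne {x y : V} {Ps : List (List V)} (h : Cfg G L x y Ps) :
    ∀ Q ∈ Ps, Q ≠ [] := by
  intro Q hQ h'
  have := h.two Q hQ
  rw [h'] at this
  simp at this

theorem Cfg.lk {x y : V} {P : List V} {Ms : List (List V)} (h : Cfg G L x y (P :: Ms)) :
    ∃ l r, Ch G l r P ∧ Lk G L r Ms l := by
  obtain ⟨l, r, hP⟩ := Ch.ex (h.ch P (by simp)) (h.ne P (by simp))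
  refine ⟨l, r, hP, lk_of_isChain h.jn ?_ ?_ hP.lt hP.hd⟩
  · intro R hR; exact h.ch R (List.mem_cons_of_mem _ hR)
  · intro R hR; exact h.ne R (List.mem_cons_of_mem _ hR)

theorem Cfg.base {x y : V} {Ps : List (List V)} (h : Cfg G L x y Ps) (hxy : x ≠ y) :
    (x :: y :: Ps.flatten).Nodup := by
  refine List.nodup_cons.2 ⟨?_, List.nodup_cons.2 ⟨h.hy, h.nd⟩⟩
  intro hx
  rcases List.mem_cons.1 hx with hx | hx
  · exact hxy hx
  · exact h.hx hx

/-! ## rotation and reversal -/

theorem flatten_append_comm_perm (A D : List (List V)) :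
    (A ++ D).flatten.Perm (D ++ A).flatten := by
  rw [List.flatten_append, List.flatten_append]
  exact List.perm_append_comm

theorem Cfg.rot {x y : V} {A D : List (List V)} (h : Cfg G L x y (A ++ D)) :
    Cfg G L x y (D ++ A) := by
  have hp := flatten_append_comm_perm A D
  refine ⟨hp.nodup_iff.1 h.nd, ?_, ?_, cycR_append_comm _ _ h.jn, h.xy, ?_, ?_, ?_, ?_⟩
  · intro P hP; exact h.ch P (by simp only [List.mem_append] at hP ⊢; tauto)
  · intro P hP; exact h.two P (by simp only [List.mem_append] at hP ⊢; tauto)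
  · intro hx; exact h.hx (hp.mem_iff.2 hx)
  · intro hy; exact h.hy (hp.mem_iff.2 hy)
  · have := h.card; simp only [List.length_append] at this ⊢; omega
  · rw [← hp.length_eq]; exact h.len

theorem Full.rot {A D : List (List V)} (h : Full G L (A ++ D)) : Full G L (D ++ A) := by
  have hp := flatten_append_comm_perm A D
  refine ⟨hp.nodup_iff.1 h.nd, ?_, ?_, cycR_append_comm _ _ h.jn, ?_⟩
  · intro P hP; exact h.ch P (by simp only [List.mem_append] at hP ⊢; tauto)
  · intro P hP; exact h.two P (by simp only [List.mem_append] at hP ⊢; tauto)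
  · have := h.card; simp only [List.length_append] at this ⊢; omega

theorem Cfg.rev {x y : V} {Ps : List (List V)} (h : Cfg G L x y Ps) : Cfg G L x y (rv Ps) := by
  refine ⟨?_, ?_, ?_, cycR_rv h.jn, h.xy, ?_, ?_, ?_, ?_⟩
  · rw [flatten_rv]; exact List.nodup_reverse.2 h.nd
  · intro P hP
    have := h.ch _ (mem_rv.1 hP)
    rw [List.isChain_reverse] at this
    exact this.imp (fun _ _ h => h.symm)
  · intro P hP
    have := h.two _ (mem_rv.1 hP)
    simpa using this
  · rw [flatten_rv]; simpa using h.hx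
  · rw [flatten_rv]; simpa using h.hy
  · rw [length_rv]; exact h.card
  · rw [flatten_rv, List.length_reverse]; exact h.len

theorem Cfg.swap {x y : V} {Ps : List (List V)} (h : Cfg G L x y Ps) : Cfg G L y x Ps :=
  ⟨h.nd, h.ch, h.two, h.jn, by rw [Sym2.eq_swap]; exact h.xy, h.hy, h.hx, h.card, h.len⟩

/-! ## counting -/

theorem nodup_of_count {B F : List V} (hB : B.Nodup) (h : ∀ v, F.count v ≤ B.count v) :
    F.Nodup := by
  rw [List.nodup_iff_count_le_one] at hB ⊢
  intro v
  exact (h v).trans (hB v)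

theorem mem_of_count {B F : List V} (h : ∀ v, F.count v ≤ B.count v) {v : V} (hv : v ∈ F) :
    v ∈ B := by
  have h1 := List.count_pos_iff.2 hv
  exact List.count_pos_iff.1 (lt_of_lt_of_le h1 (h v))


theorem two_cons {P : List V} {Ms : List (List V)} :
    (∀ Q ∈ P :: Ms, 2 ≤ Q.length) ↔ 2 ≤ P.length ∧ ∀ Q ∈ Ms, 2 ≤ Q.length :=
  List.forall_mem_cons

theorem two_append {Ms Ns : List (List V)} :
    (∀ Q ∈ Ms ++ Ns, 2 ≤ Q.length) ↔ (∀ Q ∈ Ms, 2 ≤ Q.length) ∧ ∀ Q ∈ Ns, 2 ≤ Q.length :=
  List.forall_mem_append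

theorem two_rv {Ms : List (List V)} :
    (∀ Q ∈ rv Ms, 2 ≤ Q.length) ↔ ∀ Q ∈ Ms, 2 ≤ Q.length := by
  constructor
  · intro h Q hQ
    have := h Q.reverse (by rw [mem_rv, List.reverse_reverse]; exact hQ)
    simpa using this
  · intro h Q hQ
    have := h _ (mem_rv.1 hQ)
    simpa using this

theorem two_nil : (∀ Q ∈ ([] : List (List V)), 2 ≤ Q.length) ↔ True := by simp



theorem len_of_two {Ps : List (List V)} (h : ∀ Q ∈ Ps, 2 ≤ Q.length) (h2 : 2 ≤ Ps.length) :
    3 ≤ Ps.flatten.length := by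
  match Ps, h, h2 with
  | P :: Q :: Ms, h, _ =>
    have h3 := h P (by simp)
    have h4 := h Q (by simp)
    simp only [List.flatten_cons, List.length_append]
    omega

theorem Cfg.baseK {x y : V} {Ps : List (List V)} {K : List V} (h : Cfg G L x y Ps)
    (hxy : x ≠ y) (hK : K.Nodup) (hO : ∀ u ∈ K, u ≠ x ∧ u ≠ y ∧ u ∉ Ps.flatten) :
    (K ++ x :: y :: Ps.flatten).Nodup := by
  rw [List.nodup_append']
  refine ⟨hK, h.base hxy, ?_⟩
  intro u hu hu'
  obtain ⟨h1, h2, h3⟩ := hO u hu
  simp only [List.mem_cons] at hu'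
  tauto

theorem Cfg.xy_ne {x y : V} {Ps : List (List V)} (h : Cfg G L x y Ps)
    (hL : ∀ e ∈ L, e ∈ G.edgeSet) : x ≠ y := by
  have := hL _ h.xy
  rw [mem_edgeSet] at this
  exact this.ne

/-- rotate a configuration so that a given segment comes first -/
theorem Cfg.rot_to {x y : V} {Ps : List (List V)} {P : List V} (h : Cfg G L x y Ps)
    (hP : P ∈ Ps) : ∃ Ms, Cfg G L x y (P :: Ms) ∧ (P :: Ms).Perm Ps := by
  obtain ⟨A, D, hPs⟩ := List.append_of_mem hP
  subst hPs
  refine ⟨D ++ A, ?_, ?_⟩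
  · have := h.rot
    simpa using this
  · have : (P :: D ++ A).Perm (A ++ P :: D) := List.perm_append_comm
    simpa using this

end Pool.Agent.LW
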