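import Pool.Agent.LW.Hop

set_option autoImplicit false

/-!
# Small lemmas on levels and attachments
-/

namespace Pool.Agent.LW

open SimpleGraph Classical

universe w

variable {V : Type w} {G H : SimpleGraph V} {L : Finset (Sym2 V)}

/-- (L1) the hopping lemma, in the form used here -/
theorem hopL2 {O : Set V} {Hs : List (List V)} {Ab S0 Src N : Set V} {w z : V} {F : List V}
    (hGH : G ≤ H) (hnd : Hs.flatten.Nodup) (_hch : ∀ P ∈ Hs, P.IsChain G.Adj)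
    (_hO : ∀ v ∈ Hs.flatten, v ∉ O) (_hS0 : ∀ v ∈ S0, v ∈ Hs.flatten)
    (hSrc : ∀ w ∈ Hs.flatten, (∃ v ∈ Src, v ∈ Att G O w) → w ∈ S0) (t : ℕ)
    (hN : ∀ s < t, ∀ l, Btw Hs Ab (Lvl G O Hs Ab S0 s) l → ∀ o ∈ Att G O l, o ∉ N)
    (hw : w ∈ Lvl G O Hs Ab S0 t) (hF : Ch H w z F) (hFn : F.Nodup)
    (hhull : ∀ s < t, ∀ a b, HE Hs (Lvl G O Hs Ab S0 s) a b → EL F a b)
    (hoff : ∀ v ∈ F, v ∈ O → v ∉ N ∧ v ∉ Src ∧
      ∀ s < t, ∀ l, Btw Hs Ab (Lvl G O Hs Ab S0 s) l → v ∉ Att G O l) :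
    ∃ w0 ∈ S0, ∃ F', Ch H w0 z F' ∧ F'.Nodup ∧
      (∀ v ∈ F', v ∈ F ∨ (v ∈ O ∧ v ∉ N ∧ v ∉ Src ∧
        ∃ s < t, ∃ l, Btw Hs Ab (Lvl G O Hs Ab S0 s) l ∧ v ∈ Att G O l)) ∧
      ∀ a b, EL F a b → (∀ s < t, ¬ HE Hs (Lvl G O Hs Ab S0 s) a b) →
        (∀ s < t, ¬ HE Hs (Lvl G O Hs Ab S0 s) b a) → EL F' a b :=
  hopL hGH hnd (fun w hw o ho ho' => hSrc w hw ⟨o, ho', ho⟩) t hN w hw F hF hFn hhull hoff

theorem lvl_mono {O : Set V} {Hs : List (List V)} {Ab S0 : Set V} {s t : ℕ} (h : s ≤ t) :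
    Lvl G O Hs Ab S0 s ⊆ Lvl G O Hs Ab S0 t := by
  induction h with
  | refl => exact fun _ h => h
  | step _ ih => exact fun w hw => Or.inl (ih hw)

theorem lvl_host {O : Set V} {Hs : List (List V)} {Ab S0 : Set V} (hS0 : ∀ v ∈ S0, v ∈ Hs.flatten)
    (t : ℕ) {w : V} (h : w ∈ Lvl G O Hs Ab S0 t) : w ∈ Hs.flatten := by
  induction t with
  | zero => exact hS0 w h
  | succ t ih =>
    rcases h with h | h
    · exact ih h
    · exact h.1

/-! ## attachments -/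

theorem Rch.memL {O : Set V} {a b : V} (h : Rch G O a b) : a ∈ O := by
  obtain ⟨F, hF, hO⟩ := h
  exact hO _ hF.memL

theorem Rch.memR {O : Set V} {a b : V} (h : Rch G O a b) : b ∈ O := by
  obtain ⟨F, hF, hO⟩ := h
  exact hO _ hF.memR

theorem Rch.step {O : Set V} {a b c : V} (h : Rch G O a b) (hbc : G.Adj b c) (hc : c ∈ O) :
    Rch G O a c := by
  obtain ⟨F, hF, hO⟩ := h
  refine ⟨F ++ [c], hF.concat hbc, ?_⟩
  intro v hv
  rcases List.mem_append.1 hv with h | h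
  · exact hO v h
  · rw [List.mem_singleton.1 h]; exact hc

theorem att_mem {O : Set V} {u o : V} (h : o ∈ Att G O u) : o ∈ O := by
  obtain ⟨a, _, h⟩ := h
  exact h.memR

theorem att_of_adj {O : Set V} {u o : V} (h : G.Adj u o) (ho : o ∈ O) : o ∈ Att G O u :=
  ⟨o, h, Rch.refl ho⟩

theorem att_step {O : Set V} {u o o' : V} (h : o ∈ Att G O u) (h' : G.Adj o o') (ho : o' ∈ O) :
    o' ∈ Att G O u := by
  obtain ⟨a, ha, h⟩ := h
  exact ⟨a, ha, h.step h' ho⟩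

theorem att_trans {O : Set V} {u o o' : V} (h : o ∈ Att G O u) (h' : Rch G O o o') :
    o' ∈ Att G O u := by
  obtain ⟨a, ha, h⟩ := h
  exact ⟨a, ha, h.trans h'⟩

/-- a common attached vertex links -/
theorem Con.of_att {O : Set V} {u v o : V} (h : o ∈ Att G O u) (h' : o ∈ Att G O v) :
    Con G O u v := by
  obtain ⟨a, ha, h'⟩ := h'
  exact Or.inr ⟨a, att_trans h h'.symm, ha.symm⟩

end Pool.Agent.LW
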