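import Pool.Agent.LW.HA
import Pool.Agent.LW.Calc

set_option autoImplicit false

/-!
# A closed list through all edges of `L` gives a full cycle
-/

namespace Pool.Agent.LW

open SimpleGraph Classical

universe w

variable {V : Type w} {G H : SimpleGraph V} {L : Finset (Sym2 V)}

/-- the edges of `L` between consecutive vertices of `F` -/
private noncomputable def hb1_E (L : Finset (Sym2 V)) (F : List V) : Finset (Sym2 V) :=
  L.filter fun e => ∃ c d, e = s(c, d) ∧ [c, d] <:+: F

private theorem hb1_mem {F : List V} {e : Sym2 V} :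
    e ∈ hb1_E L F ↔ e ∈ L ∧ ∃ c d, e = s(c, d) ∧ [c, d] <:+: F := by
  unfold hb1_E
  rw [Finset.mem_filter]

private theorem hb1_infix {a c : V} {D : List V} {p q : V} (h : [p, q] <:+: a :: c :: D) :
    (p = a ∧ q = c) ∨ [p, q] <:+: c :: D := by
  rw [List.infix_cons_iff] at h
  rcases h with h | h
  · left
    obtain ⟨t, ht⟩ := h
    simp only [List.cons_append, List.nil_append, List.cons.injEq] at ht
    exact ⟨ht.1, ht.2.1⟩
  · exact Or.inr h

/-- cutting a path at the edges of `L` -/
private theorem hb1_cut {a b : V} {F : List V} (hF : Ch G a b F) (hn : F.Nodup) :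
    ∃ (P : List V) (Ms : List (List V)), (P :: Ms).flatten = F ∧ P.head? = some a ∧
      (∀ Q ∈ P :: Ms, Q.IsChain G.Adj ∧ Q ≠ []) ∧ (P :: Ms).IsChain (JL L) ∧
      (P :: Ms).length = (hb1_E L F).card + 1 := by
  induction F generalizing a with
  | nil => exact absurd rfl hF.ne
  | cons c F ih =>
    have hc : c = a := by have := hF.hd; simpa using this
    subst hc
    cases F with
    | nil =>
      refine ⟨[c], [], by simp, rfl, ?_, List.isChain_singleton _, ?_⟩
      · intro Q hQ
        rw [List.mem_singleton] at hQ
        rw [hQ]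
        exact ⟨List.isChain_singleton c, by simp⟩
      · have h1 : hb1_E L [c] = ∅ := by
          rw [Finset.eq_empty_iff_forall_notMem]
          intro e he
          obtain ⟨_, p, q, _, h2⟩ := hb1_mem.1 he
          have := h2.length_le
          simp at this
        rw [h1]
        rfl
    | cons d F =>
      obtain ⟨P, Ms, h1, h2, h3, h4, h5⟩ := ih hF.tail (List.nodup_cons.1 hn).2
      by_cases he : s(c, d) ∈ L
      · refine ⟨[c], P :: Ms, ?_, rfl, ?_, ?_, ?_⟩
        · rw [List.flatten_cons, h1]
          rfl
        · intro Q hQ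
          rcases List.mem_cons.1 hQ with hQ | hQ
          · rw [hQ]
            exact ⟨List.isChain_singleton c, by simp⟩
          · exact h3 Q hQ
        · rw [List.isChain_cons_cons]
          exact ⟨⟨c, d, rfl, h2, he⟩, h4⟩
        · have h6 : hb1_E L (c :: d :: F) = insert s(c, d) (hb1_E L (d :: F)) := by
            ext e
            rw [Finset.mem_insert, hb1_mem, hb1_mem]
            constructor
            · rintro ⟨h7, p, q, h8, h9⟩
              rcases hb1_infix h9 with ⟨h10, h11⟩ | h10
              · left
                rw [h8, h10, h11]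
              · exact Or.inr ⟨h7, p, q, h8, h10⟩
            · rintro (h7 | ⟨h7, p, q, h8, h9⟩)
              · rw [h7]
                exact ⟨he, c, d, rfl, [], F, rfl⟩
              · exact ⟨h7, p, q, h8, h9.trans (List.infix_cons List.infix_rfl)⟩
          have h7 : s(c, d) ∉ hb1_E L (d :: F) := by
            intro h8
            obtain ⟨_, p, q, h9, h10⟩ := hb1_mem.1 h8
            refine (List.nodup_cons.1 hn).1 ?_
            have h11 : c ∈ s(p, q) := by rw [← h9]; exact Sym2.mem_mk_left c d
            rcases Sym2.mem_iff.1 h11 with h12 | h12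
            · rw [h12]; exact h10.subset (by simp)
            · rw [h12]; exact h10.subset (by simp)
          rw [h6, Finset.card_insert_of_notMem h7, List.length_cons, h5]
      · refine ⟨c :: P, Ms, ?_, rfl, ?_, ?_, ?_⟩
        · rw [List.flatten_cons, List.cons_append, ← List.flatten_cons, h1]
        · intro Q hQ
          rcases List.mem_cons.1 hQ with hQ | hQ
          · rw [hQ]
            refine ⟨?_, by simp⟩
            obtain ⟨P', hP'⟩ := List.head?_eq_some_iff.1 h2
            have h6 := (h3 P (by simp)).1
            rw [hP'] at h6 ⊢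
            rw [List.isChain_cons_cons]
            exact ⟨hF.snd, h6⟩
          · exact h3 Q (List.mem_cons_of_mem _ hQ)
        · cases Ms with
          | nil => exact List.isChain_singleton _
          | cons Q Ms =>
            rw [List.isChain_cons_cons] at h4 ⊢
            refine ⟨h4.1.congr ?_ rfl, h4.2⟩
            rw [List.getLast?_cons_of_ne_nil (h3 P (by simp)).2]
        · have h6 : hb1_E L (c :: d :: F) = hb1_E L (d :: F) := by
            ext e
            rw [hb1_mem, hb1_mem]
            constructor
            · rintro ⟨h7, p, q, h8, h9⟩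
              rcases hb1_infix h9 with ⟨h10, h11⟩ | h10
              · rw [h10, h11] at h8
                rw [h8] at h7
                exact absurd h7 he
              · exact ⟨h7, p, q, h8, h10⟩
            · rintro ⟨h7, p, q, h8, h9⟩
              exact ⟨h7, p, q, h8, h9.trans (List.infix_cons List.infix_rfl)⟩
          rw [h6, ← h5]
          rfl

/-- a list without repetition with equal ends has one element -/
private theorem hb1_one {F : List V} (hn : F.Nodup) {l : V} (h1 : F.head? = some l)
    (h2 : F.getLast? = some l) : F.length = 1 := by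
  obtain ⟨F', rfl⟩ := List.head?_eq_some_iff.1 h1
  cases F' with
  | nil => rfl
  | cons c F =>
    exfalso
    rw [List.getLast?_cons_of_ne_nil (by simp)] at h2
    exact (List.nodup_cons.1 hn).1 (List.mem_of_getLast? h2)

/-- no piece with only one vertex -/
private theorem hb1_two (hind : ∀ e ∈ L, ∀ f ∈ L, e ≠ f → ∀ v, v ∈ e → v ∉ f)
    {Ps : List (List V)} (hn : Ps.flatten.Nodup) (hne : ∀ Q ∈ Ps, Q ≠ [])
    (hc : CycR (JL L) Ps) (h3 : 3 ≤ Ps.flatten.length) : ∀ Q ∈ Ps, 2 ≤ Q.length := by
  intro Q hQ
  by_contra hlt
  have hQ1 : Q.length = 1 := by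
    have := List.length_pos_iff.2 (hne Q hQ)
    omega
  obtain ⟨v, rfl⟩ := List.length_eq_one_iff.1 hQ1
  obtain ⟨A, D, rfl⟩ := List.append_of_mem hQ
  have hc1 := cycR_append_comm A ([v] :: D) hc
  have hp := flatten_append_comm_perm A ([v] :: D)
  have hn1 := hp.nodup_iff.1 hn
  have h4 : 3 ≤ (([v] :: D) ++ A).flatten.length := by rw [← hp.length_eq]; exact h3
  have hne1 : ∀ R ∈ D ++ A, R ≠ [] := by
    intro R hR
    refine hne R ?_
    simp only [List.mem_append, List.mem_cons] at hR ⊢
    tauto
  rw [List.cons_append] at hc1 hn1 h4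
  generalize D ++ A = M at hc1 hn1 h4 hne1
  have h5 : ([v] :: (M ++ [[v]])).IsChain (JL L) := hc1
  rw [List.flatten_cons] at hn1 h4
  have hnM : M.flatten.Nodup := (List.nodup_append'.1 hn1).2.1
  have h6 : ∃ l, M.flatten.head? = some l ∧ s(v, l) ∈ L := by
    cases M with
    | nil => simp at h4
    | cons R M =>
      rw [List.cons_append, List.isChain_cons_cons] at h5
      obtain ⟨⟨r, l, h7, h8, h9⟩, _⟩ := h5
      have h10 : v = r := by simpa using h7
      subst h10
      refine ⟨l, ?_, h9⟩
      rw [List.flatten_cons, List.head?_append_of_ne_nil _ (hne1 R (by simp)), h8]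
  have h7 : ∃ r, M.flatten.getLast? = some r ∧ s(r, v) ∈ L := by
    rcases List.eq_nil_or_concat' M with rfl | ⟨M', R, rfl⟩
    · simp at h4
    · have h8 : ([v] :: M' ++ R :: [[v]]).IsChain (JL L) := by simpa using h5
      obtain ⟨r, l, h9, h10, h11⟩ := (List.isChain_append_cons_cons.1 h8).2.1
      have h12 : v = l := by simpa using h10
      subst h12
      refine ⟨r, ?_, h11⟩
      rw [List.flatten_append, List.flatten_singleton,
        List.getLast?_append_of_ne_nil _ (hne1 R (by simp)), h9]
  obtain ⟨l, h8, h9⟩ := h6
  obtain ⟨r, h10, h11⟩ := h7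
  have h12 : s(v, l) = s(r, v) := by
    by_contra hne2
    exact hind _ h9 _ h11 hne2 v (Sym2.mem_mk_left v l) (Sym2.mem_mk_right r v)
  have h13 : l = r := by
    rcases Sym2.eq_iff.1 h12 with ⟨h14, h15⟩ | ⟨_, h14⟩
    · rw [h15, h14]
    · exact h14
  subst h13
  have h14 := hb1_one hnM h8 h10
  rw [List.length_append, h14] at h4
  simp at h4

private theorem hb1_main {a b : V} {F : List V}
    (hind : ∀ e ∈ L, ∀ f ∈ L, e ≠ f → ∀ v, v ∈ e → v ∉ f)
    (hF : Ch G a b F) (hn : F.Nodup) (h3 : 3 ≤ F.length) (hab : s(a, b) ∈ L)
    (hL : ∀ c d, s(c, d) ∈ L → EL F c d ∨ s(c, d) = s(a, b)) : ∃ Ps, Full G L Ps := by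
  obtain ⟨P, Ms, h1, h2, h4, h5, h6⟩ := hb1_cut (L := L) hF hn
  have hcyc : CycR (JL L) (P :: Ms) := by
    show (P :: (Ms ++ [P])).IsChain (JL L)
    rw [← List.cons_append, List.isChain_append]
    refine ⟨h5, List.isChain_singleton _, ?_⟩
    intro S hS R hR
    simp only [List.head?_cons, Option.mem_def, Option.some.injEq] at hR
    rw [← hR]
    rw [Option.mem_def] at hS
    obtain ⟨A, hA⟩ := List.getLast?_eq_some_iff.1 hS
    have hSne : S ≠ [] := (h4 S (by rw [hA]; simp)).2
    refine ⟨b, a, ?_, h2, by rw [Sym2.eq_swap]; exact hab⟩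
    have h7 := hF.lt
    rw [← h1, hA, List.flatten_append, List.flatten_singleton,
      List.getLast?_append_of_ne_nil _ hSne] at h7
    exact h7
  refine ⟨P :: Ms, ?_, fun Q hQ => (h4 Q hQ).1, ?_, hcyc, ?_⟩
  · rw [h1]; exact hn
  · exact hb1_two hind (by rw [h1]; exact hn) (fun Q hQ => (h4 Q hQ).2) hcyc (by rw [h1]; exact h3)
  · rw [h6]
    have h7 : s(a, b) ∉ hb1_E L F := by
      intro h8
      obtain ⟨_, p, q, h9, h10⟩ := hb1_mem.1 h8
      obtain ⟨A, D, h11⟩ := h10
      have hhd := hF.hd
      have hlt := hF.lt
      have hF1 : F = A ++ p :: q :: D := by rw [← h11]; simp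
      rw [hF1] at hn hhd hlt h3
      have hn2 := List.nodup_append'.1 hn
      have hn3 := List.nodup_cons.1 hn2.2.1
      have hn4 := List.nodup_cons.1 hn3.2
      -- the last vertex is `b`, the first is `a`
      have hhd' : A = [] ∧ p = a ∨ a ∈ A := by
        cases A with
        | nil => left; simpa using hhd
        | cons u A => right; have : u = a := by simpa using hhd
                      rw [this]; simp
      have hlt' : D = [] ∧ q = b ∨ b ∈ D := by
        rw [List.getLast?_append_of_ne_nil _ (by simp), List.getLast?_cons_of_ne_nil (by simp)] at hlt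
        cases D with
        | nil => left; simpa using hlt
        | cons u D => right; rw [List.getLast?_cons_of_ne_nil (by simp)] at hlt
                      exact List.mem_of_getLast? hlt
      have hne : A = [] → D = [] → False := by
        rintro rfl rfl
        simp at h3
      have ha : a = p ∨ a = q := by
        have : a ∈ s(p, q) := by rw [← h9]; exact Sym2.mem_mk_left a b
        exact Sym2.mem_iff.1 this
      have hb : b = p ∨ b = q := by
        have : b ∈ s(p, q) := by rw [← h9]; exact Sym2.mem_mk_right a b
        exact Sym2.mem_iff.1 this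
      have haA : a ∉ A := by
        intro h
        rcases ha with h' | h'
        · exact hn2.2.2 h (by rw [h']; simp)
        · exact hn2.2.2 h (by rw [h']; simp)
      have hbD : b ∉ D := by
        intro h
        rcases hb with h' | h'
        · rw [h'] at h
          exact hn3.1 (List.mem_cons_of_mem _ h)
        · rw [h'] at h
          exact hn4.1 h
      rcases hhd' with h12 | h12
      · rcases hlt' with h13 | h13
        · exact hne h12.1 h13.1
        · exact hbD h13
      · exact haA h12
    have h8 : L = insert s(a, b) (hb1_E L F) := by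
      ext e
      rw [Finset.mem_insert, hb1_mem]
      constructor
      · intro he
        induction e using Sym2.inductionOn with
        | _ c d =>
          rcases hL c d he with (h9 | h9) | h9
          · exact Or.inr ⟨he, c, d, rfl, h9⟩
          · exact Or.inr ⟨he, d, c, Sym2.eq_swap, h9⟩
          · exact Or.inl h9
      · rintro (h9 | h9)
        · rw [h9]; exact hab
        · exact h9.1
    rw [← Finset.card_insert_of_notMem h7, ← h8]

/-- the rotation at an edge of `L` -/
private theorem hb1_rot {a b c d : V} {A D : List V}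
    (hind : ∀ e ∈ L, ∀ f ∈ L, e ≠ f → ∀ v, v ∈ e → v ∉ f)
    (hF : Ch G a b (A ++ c :: d :: D)) (hn : (A ++ c :: d :: D).Nodup) (hba : G.Adj b a)
    (h3 : 3 ≤ (A ++ c :: d :: D).length) (hab : s(a, b) ∉ L) (hcd : s(c, d) ∈ L)
    (hL : ∀ p q, s(p, q) ∈ L → EL (A ++ c :: d :: D) p q ∨ s(p, q) = s(a, b)) :
    ∃ Ps, Full G L Ps := by
  have h1 : Ch G a c (A ++ [c]) := hF.left
  have h2 : Ch G c b (c :: d :: D) := hF.right
  have h4 : Ch G d b (d :: D) := h2.tail
  have h5 : Ch G d c ((d :: D) ++ (A ++ [c])) := h4.append h1 hba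
  have hp : (A ++ c :: d :: D).Perm ((d :: D) ++ (A ++ [c])) := by
    have h6 : A ++ c :: d :: D = (A ++ [c]) ++ (d :: D) := by simp
    rw [h6]
    exact List.perm_append_comm
  refine hb1_main hind h5 (hp.nodup_iff.1 hn) (by rw [← hp.length_eq]; exact h3)
    (by rw [Sym2.eq_swap]; exact hcd) ?_
  intro p q hpq
  rcases hL p q hpq with h6 | h6
  · rcases h6.split with h7 | h7
    · exact Or.inl (h7.mono ⟨d :: D, [], by simp⟩)
    · have h8 : EL ([c] ++ d :: D) p q := h7
      rcases h8.split with h9 | h9
      · right
        rcases h9 with h9 | h9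
        · have h10 := List.IsInfix.eq_of_length h9 (by simp)
          simp only [List.cons_append, List.nil_append, List.cons.injEq, and_true] at h10
          rw [h10.1, h10.2, Sym2.eq_swap]
        · have h10 := List.IsInfix.eq_of_length h9 (by simp)
          simp only [List.cons_append, List.nil_append, List.cons.injEq, and_true] at h10
          rw [h10.1, h10.2]
      · exact Or.inl (h9.mono ⟨[], A ++ [c], by simp⟩)
  · rw [h6] at hpq
    exact absurd hpq hab

/-- a closed list through all edges of `L` gives a full cycle: rotate it so that the closing pair is an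
edge of `L`, and cut it at the other edges of `L` -/
theorem full_of_closed {a b : V} {F : List V}
    (hind : ∀ e ∈ L, ∀ f ∈ L, e ≠ f → ∀ v, v ∈ e → v ∉ f) (hne : L.Nonempty)
    (hF : Ch G a b F) (hn : F.Nodup) (hba : G.Adj b a) (h3 : 3 ≤ F.length)
    (hL : ∀ c d, s(c, d) ∈ L → EL F c d ∨ s(c, d) = s(a, b)) : ∃ Ps, Full G L Ps := by
  by_cases hab : s(a, b) ∈ L
  · exact hb1_main hind hF hn h3 hab hL
  · obtain ⟨e, he⟩ := hne
    induction e using Sym2.inductionOn with
    | _ c d =>
      rcases hL c d he with h1 | h1
      · rcases h1.ex with ⟨A, D, h2⟩ | ⟨A, D, h2⟩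
        · subst h2
          exact hb1_rot hind hF hn hba h3 hab he hL
        · subst h2
          exact hb1_rot hind hF hn hba h3 hab (by rw [Sym2.eq_swap]; exact he) hL
      · rw [h1] at he
        exact absurd he hab

end Pool.Agent.LW
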