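import Pool.Agent.LW.HA
import Pool.Agent.LW.Calc

set_option autoImplicit false

/-!
# The path of `Z` outside an interval; the edges of `L`
-/

namespace Pool.Agent.LW

open SimpleGraph Classical

universe w

variable {V : Type w} {G H : SimpleGraph V} {L : Finset (Sym2 V)}

/-- the walk of `Z` from `u'` to `u` outside the open interval from `u` to `u'` of a segment -/
def ZP (Pre Post : List (List V)) (A D : List V) (u u' : V) : List V :=
  (u' :: D) ++ ((Post ++ Pre).flatten ++ (A ++ [u]))

/-- the flattening of a chain of segments joined by edges of `L` is a walk -/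
theorem hb2_flat_chain (hsub : ∀ e ∈ L, e ∈ G.edgeSet) {Ms : List (List V)}
    (h : Ms.IsChain (JL L)) (hc : ∀ P ∈ Ms, P.IsChain G.Adj) (hn : ∀ P ∈ Ms, P ≠ []) :
    Ms.flatten.IsChain G.Adj := by
  induction Ms with
  | nil => simp
  | cons P Ms ih =>
    rw [List.flatten_cons, List.isChain_append]
    have h1 : Ms.IsChain (JL L) := h.tail
    refine ⟨hc P (by simp), ih h1 (fun Q hQ => hc Q (List.mem_cons_of_mem _ hQ))
      (fun Q hQ => hn Q (List.mem_cons_of_mem _ hQ)), ?_⟩
    intro p hp q hq
    cases Ms with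
    | nil => simp at hq
    | cons Q Ms =>
      rw [List.isChain_cons_cons] at h
      obtain ⟨r, l, h2, h3, h4⟩ := h.1
      have hQ : Q ≠ [] := hn Q (by simp)
      rw [List.flatten_cons, List.head?_append_of_ne_nil _ hQ, h3] at hq
      rw [h2] at hp
      simp only [Option.mem_def, Option.some.injEq] at hp hq
      rw [← hp, ← hq]
      have h5 := hsub _ h4
      rwa [mem_edgeSet] at h5

/-- the junctions of a chain of disjoint segments are pairwise different edges of `L` -/
theorem hb2_junctions {Ms : List (List V)} (hne : Ms ≠ []) (h : Ms.IsChain (JL L))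
    (hn : ∀ P ∈ Ms, P ≠ []) (hnd : Ms.flatten.Nodup) :
    ∃ Es : List (Sym2 V), Es.Nodup ∧ Es.length + 1 = Ms.length ∧
      ∀ e ∈ Es, e ∈ L ∧ ∃ c d, e = s(c, d) ∧ [c, d] <:+: Ms.flatten := by
  induction Ms with
  | nil => exact absurd rfl hne
  | cons P Ms ih =>
    cases Ms with
    | nil => exact ⟨[], by simp, by simp, by simp⟩
    | cons Q Ms =>
      rw [List.flatten_cons] at hnd
      have hnd' := List.nodup_append'.1 hnd
      have h' := h
      rw [List.isChain_cons_cons] at h'
      obtain ⟨Es, h1, h2, h3⟩ := ih (by simp) h'.2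
        (fun R hR => hn R (List.mem_cons_of_mem _ hR)) hnd'.2.1
      obtain ⟨r, l, h4, h5, h6⟩ := h'.1
      have hrP : r ∈ P := List.mem_of_getLast? h4
      refine ⟨s(r, l) :: Es, List.nodup_cons.2 ⟨?_, h1⟩, by simp [h2], ?_⟩
      · intro hmem
        obtain ⟨-, c, d, he, hcd⟩ := h3 _ hmem
        have hr : r ∈ s(c, d) := by rw [← he]; simp
        have hr' : r ∈ (Q :: Ms).flatten := by
          rcases Sym2.mem_iff.1 hr with hr | hr
          · rw [hr]; exact hcd.subset (by simp)
          · rw [hr]; exact hcd.subset (by simp)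
        exact hnd'.2.2 hrP hr'
      · intro e he
        rcases List.mem_cons.1 he with he | he
        · refine ⟨by rw [he]; exact h6, r, l, he, ?_⟩
          obtain ⟨P0, hP0⟩ : ∃ P0, P = P0 ++ [r] := by
            rwa [List.getLast?_eq_some_iff] at h4
          obtain ⟨Q0, hQ0⟩ : ∃ Q0, Q = l :: Q0 := by
            rwa [List.head?_eq_some_iff] at h5
          exact ⟨P0, Q0 ++ Ms.flatten, by rw [hP0, hQ0]; simp⟩
        · obtain ⟨h7, c, d, h8, h9⟩ := h3 e he
          refine ⟨h7, c, d, h8, ?_⟩
          rw [List.flatten_cons]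
          exact h9.trans (List.suffix_append _ _).isInfix

/-- a list of `|L|` different edges of `L` contains all edges of `L` -/
theorem hb2_all {Es : List (Sym2 V)} (h1 : Es.Nodup) (h2 : ∀ e ∈ Es, e ∈ L)
    (h3 : Es.length = L.card) {e : Sym2 V} (he : e ∈ L) : e ∈ Es := by
  have h4 : Es.toFinset = L := by
    refine Finset.eq_of_subset_of_card_le (fun f hf => h2 f (List.mem_toFinset.1 hf)) ?_
    rw [List.toFinset_card_of_nodup h1, h3]
  rw [← h4] at he
  exact List.mem_toFinset.1 he

/-- equal edges, consecutive ends -/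
theorem hb2_el {F : List V} {c d c' d' : V} (h : s(c, d) = s(c', d')) (h' : [c', d'] <:+: F) :
    EL F c d := by
  rw [Sym2.eq_iff] at h
  rcases h with ⟨h1, h2⟩ | ⟨h1, h2⟩
  · rw [h1, h2]; exact Or.inl h'
  · rw [h1, h2]; exact Or.inr h'

variable {x y : V} {Ps Pre Post : List (List V)} {A M D : List V} {u u' : V}

/-- the rotated configuration -/
theorem hb2_rot (C : Cfg G L x y Ps)
    (hPs : Ps = Pre ++ (A ++ u :: (M ++ u' :: D)) :: Post) :
    Cfg G L x y ((A ++ u :: (M ++ u' :: D)) :: (Post ++ Pre)) := by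
  rw [hPs] at C
  exact C.rot

/-- the segments of `ZP` -/
def hb2_ZS (Pre Post : List (List V)) (A D : List V) (u u' : V) : List (List V) :=
  (u' :: D) :: ((Post ++ Pre) ++ [A ++ [u]])

theorem hb2_ZS_flat : (hb2_ZS Pre Post A D u u').flatten = ZP Pre Post A D u u' := by
  unfold hb2_ZS ZP
  simp

theorem hb2_ZS_chain (C : Cfg G L x y Ps)
    (hPs : Ps = Pre ++ (A ++ u :: (M ++ u' :: D)) :: Post) :
    (hb2_ZS Pre Post A D u u').IsChain (JL L) := by
  have C' := hb2_rot C hPs
  have h1 : ((A ++ u :: (M ++ u' :: D)) :: ((Post ++ Pre) ++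
      [A ++ u :: (M ++ u' :: D)])).IsChain (JL L) := C'.jn
  refine chain_congr h1 ?_ ?_
  · rw [List.getLast?_append_of_ne_nil _ (by simp), ← List.cons_append,
      List.getLast?_append_of_ne_nil _ (by simp)]
  · cases A with
    | nil => simp
    | cons a A => simp

theorem hb2_ZS_ne (C : Cfg G L x y Ps)
    (hPs : Ps = Pre ++ (A ++ u :: (M ++ u' :: D)) :: Post) :
    ∀ Q ∈ hb2_ZS Pre Post A D u u', Q ≠ [] := by
  intro Q hQ
  unfold hb2_ZS at hQ
  rcases List.mem_cons.1 hQ with hQ | hQ
  · rw [hQ]; simp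
  · rcases List.mem_append.1 hQ with hQ | hQ
    · exact (hb2_rot C hPs).ne Q (List.mem_cons_of_mem _ hQ)
    · rw [List.mem_singleton.1 hQ]; simp

theorem zp_ch (hsub : ∀ e ∈ L, e ∈ G.edgeSet) (C : Cfg G L x y Ps)
    (hPs : Ps = Pre ++ (A ++ u :: (M ++ u' :: D)) :: Post) : Ch G u' u (ZP Pre Post A D u u') := by
  have C' := hb2_rot C hPs
  refine ⟨?_, ?_, ?_⟩
  · unfold ZP
    simp
  · unfold ZP
    rw [List.getLast?_append_of_ne_nil _ (by simp), List.getLast?_append_of_ne_nil _ (by simp),
      List.getLast?_append_of_ne_nil _ (by simp)]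
    rfl
  · rw [← hb2_ZS_flat]
    refine hb2_flat_chain hsub (hb2_ZS_chain C hPs) ?_ (hb2_ZS_ne C hPs)
    intro Q hQ
    have hP := C'.ch _ (List.mem_cons_self)
    unfold hb2_ZS at hQ
    rcases List.mem_cons.1 hQ with hQ | hQ
    · rw [hQ]
      refine chain_of_inf hP ?_
      exact ⟨A ++ u :: M, [], by simp⟩
    · rcases List.mem_append.1 hQ with hQ | hQ
      · exact C'.ch Q (List.mem_cons_of_mem _ hQ)
      · rw [List.mem_singleton.1 hQ]
        refine chain_of_inf hP ?_
        exact ⟨[], M ++ u' :: D, by simp⟩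

theorem zp_nodup (C : Cfg G L x y Ps)
    (hPs : Ps = Pre ++ (A ++ u :: (M ++ u' :: D)) :: Post) : (ZP Pre Post A D u u').Nodup := by
  have h := (hb2_rot C hPs).nd
  refine nodup_of_count h ?_
  unfold ZP
  intro v; simp only [List.flatten_cons, List.flatten_append, List.flatten_nil, flatten_rv,
      List.count_append, List.count_cons, List.count_reverse, List.count_nil, List.reverse_cons,
      List.reverse_append, List.append_nil, List.nil_append]; omega

theorem zp_sub (hPs : Ps = Pre ++ (A ++ u :: (M ++ u' :: D)) :: Post) :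
    ∀ v ∈ ZP Pre Post A D u u', v ∈ Ps.flatten := by
  intro v hv
  unfold ZP at hv
  rw [hPs]
  simp only [List.flatten_append, List.flatten_cons, List.mem_append, List.mem_cons,
    List.not_mem_nil, or_false] at hv ⊢
  tauto

/-- every edge of `L` but `xy` is an edge of the walk: its `n = |L| - 1` junctions are pairwise
different, and different from `xy` -/
theorem zp_edges (hind : ∀ e ∈ L, ∀ f ∈ L, e ≠ f → ∀ v, v ∈ e → v ∉ f) (C : Cfg G L x y Ps)
    (hPs : Ps = Pre ++ (A ++ u :: (M ++ u' :: D)) :: Post) {c d : V} (hcd : s(c, d) ∈ L)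
    (hne : s(c, d) ≠ s(x, y)) : EL (ZP Pre Post A D u u') c d := by
  have _ := hind
  have hnd := zp_nodup C hPs
  rw [← hb2_ZS_flat] at hnd
  obtain ⟨Es, h1, h2, h3⟩ := hb2_junctions (by simp [hb2_ZS]) (hb2_ZS_chain C hPs)
    (hb2_ZS_ne C hPs) hnd
  rw [hb2_ZS_flat] at h3
  have h4 : (s(x, y) :: Es).Nodup := by
    refine List.nodup_cons.2 ⟨?_, h1⟩
    intro hmem
    obtain ⟨-, c', d', he, hcd'⟩ := h3 _ hmem
    have hx : x ∈ s(c', d') := by rw [← he]; simp
    have hx' : x ∈ ZP Pre Post A D u u' := by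
      rcases Sym2.mem_iff.1 hx with hx | hx
      · rw [hx]; exact hcd'.subset (by simp)
      · rw [hx]; exact hcd'.subset (by simp)
    exact C.hx (zp_sub hPs x hx')
  have h5 : ∀ e ∈ s(x, y) :: Es, e ∈ L := by
    intro e he
    rcases List.mem_cons.1 he with he | he
    · rw [he]; exact C.xy
    · exact (h3 e he).1
  have h6 : (s(x, y) :: Es).length = L.card := by
    have h7 := C.card
    have h8 : Ps.length = Pre.length + (Post.length + 1) := by rw [hPs]; simp
    have h9 : (hb2_ZS Pre Post A D u u').length = Post.length + Pre.length + 1 + 1 := by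
      unfold hb2_ZS
      simp only [List.length_cons, List.length_append, List.length_nil]
    rw [List.length_cons]
    omega
  have h7 := hb2_all h4 h5 h6 hcd
  rcases List.mem_cons.1 h7 with h7 | h7
  · exact absurd h7 hne
  · obtain ⟨-, c', d', he, hcd'⟩ := h3 _ h7
    exact hb2_el he hcd'

/-- hull edges are on the walk, if the hulls have no two vertices on the given segment -/
theorem zp_hull (C : Cfg G L x y Ps)
    (hPs : Ps = Pre ++ (A ++ u :: (M ++ u' :: D)) :: Post) {S : Set V}
    (hS : ∀ s ∈ S, ∀ s' ∈ S, s ∈ A ++ u :: (M ++ u' :: D) → s' ∈ A ++ u :: (M ++ u' :: D) → s = s')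
    {a b : V} (hab : HE Ps S a b) : EL (ZP Pre Post A D u u') a b := by
  obtain ⟨P, hP, s, hs, s', hs', A', M', D', hPe, h1, h2, h3⟩ := hab
  have hin : [a, b] <:+: P := by
    rw [hPe]
    exact h3.trans ⟨A', D', by simp⟩
  have key : P ∈ Post ++ Pre → EL (ZP Pre Post A D u u') a b := by
    intro hP'
    obtain ⟨X, Y, hXY⟩ := List.append_of_mem hP'
    refine Or.inl (hin.trans ?_)
    unfold ZP
    rw [hXY]
    exact ⟨(u' :: D) ++ X.flatten, Y.flatten ++ (A ++ [u]), by simp⟩
  rw [hPs] at hP
  rcases List.mem_append.1 hP with hP | hP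
  · exact key (List.mem_append_right _ hP)
  rcases List.mem_cons.1 hP with hP | hP
  · exfalso
    have hsP : s ∈ P := by
      rw [hPe]
      have := List.mem_of_head? h1
      simp [this]
    have hsP' : s' ∈ P := by
      rw [hPe]
      have := List.mem_of_getLast? h2
      simp [this]
    rw [hP] at hsP hsP'
    have hss := hS s hs s' hs' hsP hsP'
    subst hss
    have hndP : P.Nodup := by
      have h4 := (hb2_rot C hPs).nd
      rw [List.flatten_cons] at h4
      rw [hP]
      exact (List.nodup_append'.1 h4).1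
    rw [hPe] at hndP
    have hndM : M'.Nodup := (List.nodup_append'.1 (List.nodup_append'.1 hndP).2.1).1
    obtain ⟨M0, hM0⟩ : ∃ M0, M' = s :: M0 := by
      rwa [List.head?_eq_some_iff] at h1
    cases M0 with
    | nil =>
      rw [hM0] at h3
      have h5 := h3.length_le
      simp at h5
    | cons q M0 =>
      rw [hM0, List.getLast?_cons_cons] at h2
      have h5 := List.mem_of_getLast? h2
      rw [hM0] at hndM
      exact (List.nodup_cons.1 hndM).1 h5
  · exact key (List.mem_append_left _ hP)

/-- an edge of `L` is not a pair of consecutive vertices of a segment -/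
theorem hb2_not_in {x y : V} {Ps : List (List V)}
    (hind : ∀ e ∈ L, ∀ f ∈ L, e ≠ f → ∀ v, v ∈ e → v ∉ f) (C : Cfg G L x y Ps) {c d : V}
    (hcd : s(c, d) ∈ L) {P : List V} (hP : P ∈ Ps) : ¬ [c, d] <:+: P := by
  rintro ⟨A, D, hAD⟩
  obtain ⟨Pre, Post, hPs⟩ := List.append_of_mem hP
  have hPe : P = A ++ c :: ([] ++ d :: D) := by rw [← hAD]; simp
  rw [hPe] at hPs
  have hc : c ∈ Ps.flatten := by
    rw [hPs]
    simp
  have hd : d ∈ Ps.flatten := by
    rw [hPs]
    simp
  have hne : s(c, d) ≠ s(x, y) := by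
    intro h
    have hx : x ∈ s(c, d) := by rw [h]; simp
    rcases Sym2.mem_iff.1 hx with hx | hx
    · exact C.hx (by rw [hx]; exact hc)
    · exact C.hx (by rw [hx]; exact hd)
  have hnd := zp_nodup C hPs
  have h1 := zp_edges hind C hPs hcd hne
  have hlen := (hb2_rot C hPs).len
  unfold ZP at h1 hnd
  rcases h1 with ⟨X, Y, hXY⟩ | ⟨X, Y, hXY⟩
  · -- c before d, but d is first
    cases X with
    | nil =>
      simp only [List.nil_append, List.cons_append, List.cons.injEq] at hXY
      have h3 : (d :: (D ++ ((Post ++ Pre).flatten ++ (A ++ [c])))).Nodup := by simpa using hnd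
      exact (List.nodup_cons.1 h3).1 (by rw [← hXY.1]; simp)
    | cons q X =>
      simp only [List.cons_append, List.cons.injEq] at hXY
      have h3 : (d :: (D ++ ((Post ++ Pre).flatten ++ (A ++ [c])))).Nodup := by simpa using hnd
      refine (List.nodup_cons.1 h3).1 ?_
      rw [← hXY.2]
      simp
  · -- d before c, c is last
    have h3 : ((d :: D) ++ ((Post ++ Pre).flatten ++ A)) ++ [c] = (X ++ [d]) ++ c :: Y := by
      simp only [List.append_assoc, List.cons_append, List.nil_append] at hXY ⊢
      exact hXY.symm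
    have h4 : (((d :: D) ++ ((Post ++ Pre).flatten ++ A)) ++ [c]).Nodup := by simpa using hnd
    have h5 : c ∉ (d :: D) ++ ((Post ++ Pre).flatten ++ A) := by
      intro h
      exact (List.nodup_append'.1 h4).2.2 h (by simp)
    have h6 : c ∉ X ++ [d] := by
      intro h
      rw [h3] at h4
      exact (List.nodup_append'.1 h4).2.2 h (by simp)
    have h7 := split_unique h3 h5 h6
    have h8 : (d :: D) ++ ((Post ++ Pre).flatten ++ A) = X ++ [d] := h7.1
    have h9 : X = [] := by
      cases X with
      | nil => rfl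
      | cons q X =>
        exfalso
        simp only [List.cons_append, List.cons.injEq] at h8
        have h10 : (d :: (D ++ ((Post ++ Pre).flatten ++ (A ++ [c])))).Nodup := by
          simpa using hnd
        refine (List.nodup_cons.1 h10).1 ?_
        have h11 : D ++ ((Post ++ Pre).flatten ++ (A ++ [c])) = (X ++ [d]) ++ [c] := by
          rw [← h8.2]
          simp
        rw [h11]
        simp
    rw [h9] at h8
    have h10 := congrArg List.length h8
    rw [List.flatten_cons] at hlen
    simp only [List.length_append, List.length_cons, List.length_nil] at h10 hlen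
    omega

/-- no edge of `L` is inside a segment -/
theorem cfg_not_el {x y : V} {Ps : List (List V)}
    (hind : ∀ e ∈ L, ∀ f ∈ L, e ≠ f → ∀ v, v ∈ e → v ∉ f) (C : Cfg G L x y Ps) {c d : V}
    (hcd : s(c, d) ∈ L) {P : List V} (hP : P ∈ Ps) : ¬ EL P c d := by
  rintro (h | h)
  · exact hb2_not_in hind C hcd hP h
  · exact hb2_not_in hind C (by rwa [Sym2.eq_swap] at hcd) hP h

/-- all edges of `L` are on an `L`-path given by `k+1` segments -/
theorem lp_edges (hind : ∀ e ∈ L, ∀ f ∈ L, e ≠ f → ∀ v, v ∈ e → v ∉ f) {u v : V}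
    {Rs : List (List V)} (h : LP G L u v Rs) (hR : Rs.length = L.card + 1) {c d : V}
    (hcd : s(c, d) ∈ L) : EL Rs.flatten c d := by
  have _ := hind
  have hne : Rs ≠ [] := by
    intro h0
    rw [h0] at hR
    simp at hR
  obtain ⟨Es, h1, h2, h3⟩ := hb2_junctions hne h.jn h.ne h.nd
  have h4 := hb2_all h1 (fun e he => (h3 e he).1) (by omega) hcd
  obtain ⟨-, c', d', he, hcd'⟩ := h3 _ h4
  exact hb2_el he hcd'

end Pool.Agent.LW
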