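import Pool.Agent.LW.HB1
import Pool.Agent.LW.HB2

set_option autoImplicit false

/-!
# Links and closing through two gates
-/

namespace Pool.Agent.LW

open SimpleGraph Classical

universe w

variable {V : Type w} {G H : SimpleGraph V} {L : Finset (Sym2 V)}

/-- the link between a vertex `g` and a vertex attached to it (`Con.list` with the vertices in the
component) -/
theorem link {O : Set V} {g v : V} (h : Con G O g v) :
    ∃ K : List V, (∀ u ∈ K, u ∈ Att G O g) ∧ K.Nodup ∧ Ch G g v (g :: (K ++ [v])) := by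
  obtain ⟨K, h1, h2, h3⟩ := h.link
  exact ⟨K, fun u hu => (h3 u hu).2.1, h2, h1⟩

/-- closing a path on the outside through two gates -/
theorem close2 {x y : V} {Z B O : Set V} {k : ℕ} (S : Bs G L k) (D : Gt G x y Z B O)
    (hxy : s(x, y) ∈ L) {g g' : V} (hg : g ∈ B) (hg' : g' ∈ B) (hne : g ≠ g')
    {w w' : V} {F : List V} (hF : Ch G w w' F) (hn : F.Nodup) (hB : ∀ v ∈ F, v ∉ B)
    (hA : ∀ v ∈ F, v ∉ Att G O g ∧ v ∉ Att G O g')
    (hL : ∀ c d, s(c, d) ∈ L → s(c, d) ≠ s(x, y) → EL F c d)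
    (hw : w ∉ O) (hw' : w' ∉ O) (hc : Con G O g w) (hc' : Con G O g' w') : False := by
  obtain ⟨K, hK, hKn, hKc⟩ := link hc
  obtain ⟨K', hK', hK'n, hK'c⟩ := link hc'
  obtain ⟨Q, hQ, hQn, hQB, hQe⟩ := D.thr g' hg' g hg hne.symm
  have hOB : ∀ v ∈ O, v ∉ B := fun v hv => ((D.OO v).1 hv).2
  -- F (w..w'), K' reversed, Q (g'..g), K
  have h1 : Ch G w' g' (w' :: (K'.reverse ++ [g'])) := by
    have := hK'c.reverse
    simpa using this
  have hQ' : ∃ Q1, Q = g' :: Q1 := List.head?_eq_some_iff.1 hQ.hd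
  obtain ⟨Q1, hQ1⟩ := hQ'
  have h2 : Ch G w' g ((w' :: K'.reverse) ++ Q) := by
    rw [hQ1]
    rw [hQ1] at hQ
    refine Ch.glue ?_ hQ
    simpa using h1
  obtain ⟨F1, hF1⟩ : ∃ F1, F = F1 ++ [w'] := List.getLast?_eq_some_iff.1 hF.lt
  have h3 : Ch G w g (F ++ (K'.reverse ++ Q)) := by
    have h4 : Ch G w g (F1 ++ w' :: (K'.reverse ++ Q)) := by
      refine Ch.glue ?_ h2
      rw [← hF1]
      exact hF
    rw [hF1]
    simpa using h4
  obtain ⟨Q2, hQ2⟩ : ∃ Q2, Q = Q2 ++ [g] := List.getLast?_eq_some_iff.1 hQ.lt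
  have h5 : Ch G w w ((F ++ (K'.reverse ++ (Q ++ K))) ++ [w]) := by
    have h6 : Ch G w w ((F ++ (K'.reverse ++ Q2)) ++ g :: (K ++ [w])) := by
      refine Ch.glue ?_ hKc
      have : F ++ (K'.reverse ++ Q2) ++ [g] = F ++ (K'.reverse ++ Q) := by rw [hQ2]; simp
      rw [this]
      exact h3
    have : F ++ (K'.reverse ++ (Q ++ K)) ++ [w] = (F ++ (K'.reverse ++ Q2)) ++ g :: (K ++ [w]) := by
      rw [hQ2]; simp
    rw [this]
    exact h6
  set W := F ++ (K'.reverse ++ (Q ++ K)) with hW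
  have hWne : W ≠ [] := by
    intro h
    have := hF.ne
    rw [hW] at h
    simp at h
    exact this h.1
  obtain ⟨W', b, hWb⟩ : ∃ W' b, W = W' ++ [b] := ⟨_, _, (List.dropLast_append_getLast hWne).symm⟩
  have h7 : Ch G w w (W' ++ b :: [w]) := by
    rw [hWb] at h5
    simpa using h5
  have h8 : Ch G w b W := by
    rw [hWb]
    exact h7.left
  have h9 : G.Adj b w := h7.adj
  have hKO : ∀ u ∈ K, u ∈ O := fun u hu => att_mem (hK u hu)
  have hK'O : ∀ u ∈ K', u ∈ O := fun u hu => att_mem (hK' u hu)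
  have hWn : W.Nodup := by
    rw [hW, List.nodup_append', List.nodup_append', List.nodup_append']
    refine ⟨hn, ⟨List.nodup_reverse.2 hK'n, ⟨hQn, hKn, ?_⟩, ?_⟩, ?_⟩
    · intro v hv hv'
      exact hOB v (hKO v hv') (hQB v hv)
    · intro v hv hv'
      rw [List.mem_reverse] at hv
      rcases List.mem_append.1 hv' with h | h
      · exact hOB v (hK'O v hv) (hQB v h)
      · exact D.att g hg g' hg' hne v (hK v h) (hK' v hv)
    · intro v hv hv'
      rcases List.mem_append.1 hv' with h | h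
      · exact (hA v hv).2 (hK' v (List.mem_reverse.1 h))
      · rcases List.mem_append.1 h with h | h
        · exact hB v hv (hQB v h)
        · exact (hA v hv).1 (hK v h)
  have hlen : 3 ≤ W.length := by
    have h10 : 1 ≤ F.length := List.length_pos_iff.2 hF.ne
    have h11 : 2 ≤ Q.length := by
      have h12 := hQe.memL
      rw [hQ1] at hQ2 ⊢
      rcases Q1 with _ | ⟨q, Q1⟩
      · have h13 := hQ.lt
        rw [hQ1] at h13
        simp at h13
        exact absurd h13.symm hne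
      · simp
    rw [hW]
    simp only [List.length_append, List.length_reverse]
    omega
  obtain ⟨Ps, hPs⟩ := full_of_closed S.ind ⟨_, hxy⟩ h8 hWn h9 hlen (by
    intro c d hcd
    left
    by_cases he : s(c, d) = s(x, y)
    · have h14 : EL Q c d := by
        rcases Sym2.eq_iff.1 he with ⟨rfl, rfl⟩ | ⟨rfl, rfl⟩
        · exact hQe
        · exact hQe.symm
      refine h14.mono ?_
      rw [hW]
      exact ⟨F ++ K'.reverse, K, by simp⟩
    · refine (hL c d hcd he).mono ?_
      rw [hW]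
      exact ⟨[], K'.reverse ++ (Q ++ K), by simp⟩)
  exact S.no Ps hPs

end Pool.Agent.LW
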