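import Pool.Agent.LW.HB3

set_option autoImplicit false

/-!
# The closures of the gates
-/

namespace Pool.Agent.LW

open SimpleGraph Classical

universe w

variable {V : Type w} {G : SimpleGraph V} {L : Finset (Sym2 V)} {k : ℕ} {x y : V}
  {Ps : List (List V)} {B O : Set V}

/-- the vertices of `Z` attached to `g` -/
def S0 (G : SimpleGraph V) (O : Set V) (Ps : List (List V)) (g : V) : Set V :=
  {v | v ∈ Ps.flatten ∧ Con G O g v}

/-- the levels of the gate `g` -/
def Lg (G : SimpleGraph V) (O : Set V) (Ps : List (List V)) (g : V) (t : ℕ) : Set V :=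
  Lvl G O Ps Set.univ (S0 G O Ps g) t

/-- the closure of the gate `g` on `Z` -/
def Xg (G : SimpleGraph V) (O : Set V) (Ps : List (List V)) (g : V) : Set V :=
  {v | ∃ t, v ∈ Lg G O Ps g t}

/-- no vertex of `Ls` other than `v'` is on a segment with ...: the induction hypothesis of (L2) -/
def IH (G : SimpleGraph V) (O : Set V) (Ps : List (List V)) (g g' : V) (n : ℕ) : Prop :=
  ∀ s s', s + s' < n → ∀ P ∈ Ps, ∀ v ∈ P, ∀ v' ∈ P, v ∈ Lg G O Ps g s → v' ∈ Lg G O Ps g' s' →
    v = v'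

theorem IH.symm {g g' : V} {n : ℕ} (h : IH G O Ps g g' n) : IH G O Ps g' g n := by
  intro s s' hs P hP v hv v' hv' h1 h2
  exact (h s' s (by omega) P hP v' hv' v hv h2 h1).symm

theorem Lg_host {g : V} {t : ℕ} {v : V} (h : v ∈ Lg G O Ps g t) : v ∈ Ps.flatten :=
  lvl_host (fun _ h => h.1) t h

theorem Xg_host {g v : V} (h : v ∈ Xg G O Ps g) : v ∈ Ps.flatten := by
  obtain ⟨t, h⟩ := h
  exact Lg_host h

theorem Xg_zero {g v : V} (h : v ∈ Ps.flatten) (h' : Con G O g v) : v ∈ Xg G O Ps g :=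
  ⟨0, h, h'⟩

end Pool.Agent.LW
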