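import Pool.Agent.LW.HC0

set_option autoImplicit false

/-!
# (L2): hulls of small level
-/

namespace Pool.Agent.LW

open SimpleGraph Classical

universe w

variable {V : Type w} {G : SimpleGraph V} {L : Finset (Sym2 V)} {k : ℕ} {x y : V}
  {Ps : List (List V)} {B O : Set V}

theorem hc1_seg {Hs : List (List V)} (hn : Hs.flatten.Nodup) {P P' : List V} (hP : P ∈ Hs)
    (hP' : P' ∈ Hs) {v : V} (h : v ∈ P) (h' : v ∈ P') : P = P' := by
  by_contra hne
  have h1 := (List.nodup_flatten.1 hn).2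
  have : Std.Symm (List.Disjoint : List V → List V → Prop) :=
    ⟨fun _ _ h => List.Disjoint.symm h⟩
  have h2 := h1.forall hP hP' hne
  exact h2 h h'

theorem hc1_nodup {Hs : List (List V)} (hn : Hs.flatten.Nodup) {P : List V} (hP : P ∈ Hs) :
    P.Nodup := (List.nodup_flatten.1 hn).1 P hP

theorem hc1_mem {Hs : List (List V)} {P : List V} (hP : P ∈ Hs) {v : V} (h : v ∈ P) :
    v ∈ Hs.flatten := List.mem_flatten.2 ⟨P, hP, h⟩

/-- a hull edge `ab` of level `s`: two different vertices of level `s` on the segment of `ab` -/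
theorem HE.two {Hs : List (List V)} {S : Set V} {a b : V} (hn : Hs.flatten.Nodup)
    (h : HE Hs S a b) : ∃ P ∈ Hs, [a, b] <:+: P ∧ ∃ s ∈ S, ∃ s' ∈ S, s ∈ P ∧ s' ∈ P ∧ s ≠ s' := by
  obtain ⟨P, hP, s, hs, s', hs', A, M, D, h1, h2, h3, h4⟩ := h
  have hMP : M <:+: P := ⟨A, D, by rw [h1, List.append_assoc]⟩
  have hMn : M.Nodup := (hc1_nodup hn hP).sublist hMP.sublist
  refine ⟨P, hP, h4.trans hMP, s, hs, s', hs', hMP.subset (List.mem_of_head? h2),
    hMP.subset (List.mem_of_getLast? h3), ?_⟩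
  rintro rfl
  have hlen : 2 ≤ M.length := by
    have := h4.length_le
    simpa using this
  cases M with
  | nil => simp at hlen
  | cons c M =>
    have hc : c = s := by simpa using h2
    subst hc
    cases M with
    | nil => simp at hlen
    | cons d M =>
      have h5 : c ∈ d :: M := by
        apply List.mem_of_getLast?
        rw [← h3, List.getLast?_cons_cons]
      exact (List.nodup_cons.1 hMn).1 h5

/-- hulls of `g` and `g'` of small level are edge-disjoint -/
theorem IH.edge (C : Cfg G L x y Ps) {g g' : V} {t t' : ℕ} (h : IH G O Ps g g' (t + t'))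
    {s s' : ℕ} (hs : s < t) (hs' : s' < t') {a b c d : V} (h1 : HE Ps (Lg G O Ps g s) a b)
    (h2 : HE Ps (Lg G O Ps g' s') c d) : s(a, b) ≠ s(c, d) := by
  intro he
  obtain ⟨P, hP, hab, u, hu, u', hu', huP, huP', hne⟩ := h1.two C.nd
  obtain ⟨P', hP', hcd, v, hv, v', hv', hvP, hvP', hne'⟩ := h2.two C.nd
  have haP : a ∈ P := hab.subset (by simp)
  have hcP : c ∈ P' := hcd.subset (by simp)
  have hdP : d ∈ P' := hcd.subset (by simp)
  have haP' : a ∈ P' := by
    have h3 : a ∈ s(c, d) := by rw [← he]; exact Sym2.mem_mk_left a b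
    rcases Sym2.mem_iff.1 h3 with h3 | h3
    · rw [h3]; exact hcP
    · rw [h3]; exact hdP
  have hPP : P = P' := hc1_seg C.nd hP hP' haP haP'
  subst hPP
  have h3 := h s s' (by omega) P hP u huP v hvP hu hv
  have h4 := h s s' (by omega) P hP u' huP' v hvP hu' hv
  exact hne (h3.trans h4.symm)

/-- the insides of hulls of `g` and `g'` of small level are not attached to the same component -/
theorem IH.inner (C : Cfg G L x y Ps) (D : Gt G x y (VS Ps) B O) {g g' : V} {t t' : ℕ}
    (h : IH G O Ps g g' (t + t')) {s s' : ℕ} (hs : s < t) (hs' : s' < t') {l l' : V}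
    (h1 : Btw Ps Set.univ (Lg G O Ps g s) l) (h2 : Btw Ps Set.univ (Lg G O Ps g' s') l') {o : V}
    (ho : o ∈ Att G O l) : o ∉ Att G O l' := by
  intro ho'
  obtain ⟨_, P, hP, u, hu, u', hu', hul, hlu⟩ := h2
  have hlP : l' ∈ P := hul.memR
  have h3 : l' ∈ Lg G O Ps g (s + 1) := Or.inr ⟨hc1_mem hP hlP, l, h1, Con.of_att ho ho'⟩
  have h4 := h (s + 1) s' (by omega) P hP l' hlP u hul.memL h3 hu
  exact hul.ne (hc1_nodup C.nd hP) h4.symm

/-- the inside of a hull of `g` of small level is not attached to a component adjacent to `g'` -/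
theorem IH.src (C : Cfg G L x y Ps) (D : Gt G x y (VS Ps) B O) {g g' : V} {t t' : ℕ}
    (h : IH G O Ps g g' (t + t')) {s : ℕ} (hs : s < t) {l : V}
    (h1 : Btw Ps Set.univ (Lg G O Ps g s) l) {o : V} (ho : o ∈ Att G O l) : o ∉ Att G O g' := by
  intro ho'
  obtain ⟨_, P, hP, u, hu, u', hu', hul, hlu⟩ := h1
  have hlP : l ∈ P := hul.memR
  have h3 : l ∈ Lg G O Ps g' 0 := ⟨hc1_mem hP hlP, Con.of_att ho' ho⟩
  have h4 := h s 0 (by omega) P hP u hul.memL l hlP hu h3
  exact hul.ne (hc1_nodup C.nd hP) h4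

end Pool.Agent.LW
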