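import Pool.Agent.LW.HC1

set_option autoImplicit false

/-!
# (L2) exclusivity
-/

namespace Pool.Agent.LW

open SimpleGraph Classical

universe w

variable {V : Type w} {G : SimpleGraph V} {L : Finset (Sym2 V)} {k : ℕ} {x y : V}
  {Ps : List (List V)} {B O : Set V}

/-- the induction step of (L2), `u` before `u'` on the segment -/
theorem excl_step (S : Bs G L k) (C : Cfg G L x y Ps) (D : Gt G x y (VS Ps) B O) {g g' : V}
    (hg : g ∈ B) (hg' : g' ∈ B) (hne : g ≠ g') {t t' : ℕ} (h : IH G O Ps g g' (t + t'))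
    {P : List V} (hP : P ∈ Ps) {u u' : V} (hb : Bf P u u') (hu : u ∈ Lg G O Ps g t)
    (hu' : u' ∈ Lg G O Ps g' t') : False := by
  obtain ⟨A, M, E, hPe⟩ := hb.split
  obtain ⟨Pre, Post, hPs⟩ := List.append_of_mem hP
  rw [hPe] at hPs
  have huP : u ∈ P := hb.memL
  have hu'P : u' ∈ P := hb.memR
  have hO : ∀ v ∈ Ps.flatten, v ∉ O := fun v hv ho => ((D.OO v).1 ho).1 hv
  have hZF : ∀ v ∈ (ZP Pre Post A E u u').reverse, v ∈ Ps.flatten := fun v hv =>
    zp_sub hPs v (List.mem_reverse.1 hv)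
  have hull1 : ∀ s < t, ∀ a b, HE Ps (Lg G O Ps g s) a b → EL (ZP Pre Post A E u u').reverse a b := by
    intro s hs a b hab
    refine (zp_hull C hPs ?_ hab).reverse
    intro v hv v' hv' hvP hv'P
    rw [← hPe] at hvP hv'P
    rw [h s t' (by omega) P hP v hvP u' hu'P hv hu', h s t' (by omega) P hP v' hv'P u' hu'P hv' hu']
  have hull2 : ∀ s < t', ∀ a b, HE Ps (Lg G O Ps g' s) a b →
      EL (ZP Pre Post A E u u').reverse a b := by
    intro s hs a b hab
    refine (zp_hull C hPs ?_ hab).reverse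
    intro v hv v' hv' hvP hv'P
    rw [← hPe] at hvP hv'P
    rw [← h t s (by omega) P hP u huP v hvP hu hv, ← h t s (by omega) P hP u huP v' hv'P hu hv']
  have h' : IH G O Ps g' g (t' + t) := by rw [add_comm]; exact h.symm
  obtain ⟨w0, hw0, F', hF', hF'n, hF'v, hF'e⟩ := hopL2 (G := G) (H := G) (O := O) (Hs := Ps)
    (Ab := Set.univ) (S0 := S0 G O Ps g) (Src := Att G O g)
    (N := {o | o ∈ Att G O g' ∨ ∃ s' < t', ∃ l', Btw Ps Set.univ (Lg G O Ps g' s') l' ∧
      o ∈ Att G O l'}) (w := u) (z := u') (F := (ZP Pre Post A E u u').reverse) le_rfl C.nd C.ch hO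
    (fun v hv => hv.1) (fun w hw hv => by
      obtain ⟨v, hv1, hv2⟩ := hv
      exact ⟨hw, Con.of_att hv1 hv2⟩) t (by
      intro s hs l hl o ho hN
      rcases hN with hN | ⟨s', hs', l', hl', ho'⟩
      · exact IH.src C D h hs hl ho hN
      · exact IH.inner C D h hs hs' hl hl' ho ho') hu (zp_ch S.sub C hPs).reverse
    (List.nodup_reverse.2 (zp_nodup C hPs)) hull1 (fun v hv ho => absurd ho (hO v (hZF v hv)))
  obtain ⟨w1, hw1, F'', hF'', hF''n, hF''v, hF''e⟩ := hopL2 (G := G) (H := G) (O := O) (Hs := Ps)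
    (Ab := Set.univ) (S0 := S0 G O Ps g') (Src := Att G O g')
    (N := Att G O g) (w := u') (z := w0) (F := F'.reverse) le_rfl C.nd C.ch hO
    (fun v hv => hv.1) (fun w hw hv => by
      obtain ⟨v, hv1, hv2⟩ := hv
      exact ⟨hw, Con.of_att hv1 hv2⟩) t' (by
      intro s hs l hl o ho hN
      exact IH.src C D h' hs hl ho hN) hu' hF'.reverse
    (List.nodup_reverse.2 hF'n) (by
      intro s' hs' a b hab
      refine (hF'e a b (hull2 s' hs' a b hab) ?_ ?_).reverse
      · intro s hs hab'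
        exact IH.edge C h hs hs' hab' hab rfl
      · intro s hs hab'
        exact IH.edge C h hs hs' hab' hab Sym2.eq_swap) (by
      intro v hv ho
      rcases hF'v v (List.mem_reverse.1 hv) with h1 | ⟨h1, h2, h3, -⟩
      · exact absurd ho (hO v (hZF v h1))
      · refine ⟨h3, fun h4 => h2 (Or.inl h4), ?_⟩
        intro s hs l hl h4
        exact h2 (Or.inr ⟨s, hs, l, hl, h4⟩))
  have hZ : ∀ v ∈ F'', v ∈ Ps.flatten ∨ (v ∈ O ∧ v ∉ Att G O g ∧ v ∉ Att G O g') := by
    intro v hv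
    rcases hF''v v hv with h1 | ⟨h1, h2, h3, -⟩
    · rcases hF'v v (List.mem_reverse.1 h1) with h1 | ⟨h1, h2, h3, -⟩
      · exact Or.inl (hZF v h1)
      · exact Or.inr ⟨h1, h3, fun h4 => h2 (Or.inl h4)⟩
    · exact Or.inr ⟨h1, h2, h3⟩
  have hnel : ∀ c d, s(c, d) ∈ L → ∀ X : Set V, ¬ HE Ps X c d := by
    intro c d hcd X hX
    obtain ⟨Q, hQ, hQ', -⟩ := HE.two C.nd hX
    exact cfg_not_el S.ind C hcd hQ (Or.inl hQ')
  refine close2 S D C.xy hg hg' hne hF''.reverse (List.nodup_reverse.2 hF''n) ?_ ?_ ?_ ?_ ?_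
    hw0.2 hw1.2
  · intro v hv hB
    rcases hZ v (List.mem_reverse.1 hv) with h1 | ⟨h1, -⟩
    · exact D.BZ v hB h1
    · exact ((D.OO v).1 h1).2 hB
  · intro v hv
    rcases hZ v (List.mem_reverse.1 hv) with h1 | ⟨h1, h2, h3⟩
    · exact ⟨fun h2 => hO v h1 (att_mem h2), fun h2 => hO v h1 (att_mem h2)⟩
    · exact ⟨h2, h3⟩
  · intro c d hcd hxy
    have e1 := (zp_edges S.ind C hPs hcd hxy).reverse
    have hdc : s(d, c) ∈ L := by rw [Sym2.eq_swap]; exact hcd
    have e2 := (hF'e c d e1 (fun s _ => hnel c d hcd _) (fun s _ => hnel d c hdc _)).reverse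
    exact (hF''e c d e2 (fun s _ => hnel c d hcd _) (fun s _ => hnel d c hdc _)).reverse
  · exact hO w0 hw0.1
  · exact hO w1 hw1.1

/-- (L2) -/
theorem excl (S : Bs G L k) (C : Cfg G L x y Ps) (D : Gt G x y (VS Ps) B O) {g g' : V}
    (hg : g ∈ B) (hg' : g' ∈ B) (hne : g ≠ g') : ∀ n, IH G O Ps g g' n := by
  intro n
  induction n with
  | zero => intro s s' hs; exact absurd hs (by omega)
  | succ n ih =>
    intro s s' hs P hP v hv v' hv' h1 h2
    by_contra hvv
    have h3 : IH G O Ps g g' (s + s') := fun a a' ha => ih a a' (by omega)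
    rcases Bf.total hv hv' hvv with h | h
    · exact excl_step S C D hg hg' hne h3 hP h h1 h2
    · exact excl_step S C D hg' hg hne.symm (by rw [add_comm]; exact h3.symm) hP h h2 h1

/-- (L2) for the closures -/
theorem exclX (S : Bs G L k) (C : Cfg G L x y Ps) (D : Gt G x y (VS Ps) B O) {g g' : V}
    (hg : g ∈ B) (hg' : g' ∈ B) (hne : g ≠ g') {P : List V} (hP : P ∈ Ps) {v v' : V}
    (hv : v ∈ P) (hv' : v' ∈ P) (h1 : v ∈ Xg G O Ps g) (h2 : v' ∈ Xg G O Ps g') : v = v' := by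
  obtain ⟨s, h1⟩ := h1
  obtain ⟨s', h2⟩ := h2
  exact excl S C D hg hg' hne (s + s' + 1) s s' (by omega) P hP v hv v' hv' h1 h2

end Pool.Agent.LW
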