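import Pool.Agent.LW.HC2

set_option autoImplicit false

/-!
# (L3) definitions
-/

namespace Pool.Agent.LW

open SimpleGraph Classical

universe w

variable {V : Type w} {G : SimpleGraph V} {L : Finset (Sym2 V)} {k : ℕ} {x y : V}
  {Ps : List (List V)} {B O : Set V}

/-- the finset of a set of vertices -/
noncomputable def fs [Fintype V] (S : Set V) : Finset V := Finset.univ.filter (· ∈ S)

theorem mem_fs [Fintype V] {S : Set V} {v : V} : v ∈ fs S ↔ v ∈ S := by simp [fs]

/-- the number (at most two) of extreme vertices of `X` on `P` -/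
noncomputable def fx (X : Set V) (P : List V) : ℕ := min 2 (P.filter (fun v => v ∈ X)).length

theorem fx_le (X : Set V) (P : List V) : fx X P ≤ 2 := min_le_left _ _

/-- the set closed off -/
def Ag (G : SimpleGraph V) (O : Set V) (Ps : List (List V)) (g : V) : Set V :=
  {v | v = g ∨ v ∈ Att G O g ∨ ∃ l, Btw Ps Set.univ (Xg G O Ps g) l ∧ (v = l ∨ v ∈ Att G O l)}

/-- its boundary -/
def Ug (G : SimpleGraph V) (B O : Set V) (Ps : List (List V)) (g : V) : Set V :=
  {v | (v ∈ B ∧ v ≠ g) ∨ (v ∈ Xg G O Ps g ∧ ¬ Btw Ps Set.univ (Xg G O Ps g) v)}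

end Pool.Agent.LW
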