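import Pool.Agent.LW.HD0

set_option autoImplicit false

/-!
# Separators and extreme vertices
-/

namespace Pool.Agent.LW

open SimpleGraph Classical

universe w

variable {V : Type w} {G : SimpleGraph V} {L : Finset (Sym2 V)} {k : ℕ} {x y : V}
  {Ps : List (List V)} {B O : Set V}

private theorem hd1_walk {A : Set V} {U : Finset V}
    (hA : ∀ a ∈ A, ∀ w, G.Adj a w → w ∈ A ∨ w ∈ U) {a z : ((↑U : Set V)ᶜ : Set V)}
    (p : (G.induce ((↑U : Set V)ᶜ)).Walk a z) (ha : (a : V) ∈ A) : (z : V) ∈ A := by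
  induction p with
  | nil => exact ha
  | @cons u v w h p ih =>
    refine ih ?_
    have h1 : G.Adj (u : V) (v : V) := by simpa using h
    rcases hA _ ha _ h1 with h2 | h2
    · exact h2
    · exact absurd (Finset.mem_coe.2 h2) v.2

/-- (K) a separator has at least `k` vertices -/
theorem sep_card [Fintype V] (S : Bs G L k) {A : Set V} {U : Finset V} {a z : V} (ha : a ∈ A)
    (haU : a ∉ U) (hA : ∀ a ∈ A, ∀ w, G.Adj a w → w ∈ A ∨ w ∈ U) (hz : z ∉ A) (hzU : z ∉ U) :
    k ≤ U.card := by
  by_contra hk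
  have hc := S.conn U (by omega)
  have hr := hc.preconnected ⟨a, by simpa using haU⟩ ⟨z, by simpa using hzU⟩
  obtain ⟨p⟩ := hr
  exact hz (hd1_walk hA p ha)

theorem fx_zero {X : Set V} {P : List V} (h : fx X P = 0) : ∀ v ∈ P, v ∉ X := by
  intro v hv hX
  have h1 : v ∈ P.filter (fun v => v ∈ X) := List.mem_filter.2 ⟨hv, by simpa using hX⟩
  have h2 := List.length_pos_of_mem h1
  unfold fx at h
  omega

theorem fx_one {X : Set V} {P : List V} (h : fx X P = 1) (hn : P.Nodup) :
    ∃ c ∈ P, c ∈ X ∧ ∀ v ∈ P, v ∈ X → v = c := by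
  have h1 : (P.filter (fun v => v ∈ X)).length = 1 := by
    unfold fx at h
    omega
  obtain ⟨c, hc⟩ := List.length_eq_one_iff.1 h1
  have h2 : c ∈ P.filter (fun v => v ∈ X) := by rw [hc]; simp
  have h3 := List.mem_filter.1 h2
  refine ⟨c, h3.1, by simpa using h3.2, fun v hv hX => ?_⟩
  have h4 : v ∈ P.filter (fun v => v ∈ X) := List.mem_filter.2 ⟨hv, by simpa using hX⟩
  rw [hc] at h4
  simpa using h4

theorem fx_two {X : Set V} {P : List V} (hn : P.Nodup) :
    fx X P = 2 ↔ ∃ v ∈ P, ∃ v' ∈ P, v ≠ v' ∧ v ∈ X ∧ v' ∈ X := by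
  have hf : (P.filter (fun v => v ∈ X)).Nodup := hn.filter _
  constructor
  · intro h
    have h1 : 2 ≤ (P.filter (fun v => v ∈ X)).length := by
      unfold fx at h
      omega
    have h2 : 1 < (P.filter (fun v => v ∈ X)).length := h1
    have m0 : (P.filter (fun v => v ∈ X))[0] ∈ P.filter (fun v => v ∈ X) := List.getElem_mem _
    have m1 : (P.filter (fun v => v ∈ X))[1] ∈ P.filter (fun v => v ∈ X) := List.getElem_mem _
    refine ⟨_, (List.mem_filter.1 m0).1, _, (List.mem_filter.1 m1).1, ?_,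
      by simpa using (List.mem_filter.1 m0).2, by simpa using (List.mem_filter.1 m1).2⟩
    intro he
    have := (hf.getElem_inj_iff).1 he
    omega
  · rintro ⟨v, hv, v', hv', hne, hX, hX'⟩
    have h1 : v ∈ P.filter (fun v => v ∈ X) := List.mem_filter.2 ⟨hv, by simpa using hX⟩
    have h2 : v' ∈ P.filter (fun v => v ∈ X) := List.mem_filter.2 ⟨hv', by simpa using hX'⟩
    have h3 : 2 ≤ (P.filter (fun v => v ∈ X)).length := by
      by_contra h4
      match hP : P.filter (fun v => v ∈ X), h1, h2, h4 with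
      | [], h1, _, _ => simp at h1
      | [c], h1, h2, _ =>
        simp only [List.mem_singleton] at h1 h2
        exact hne (h1.trans h2.symm)
      | _ :: _ :: _, _, _, h4 => simp at h4
    unfold fx
    omega

private theorem hd1_first {X : Set V} {P : List V} (h : ∃ v ∈ P, v ∈ X) :
    ∃ A a D, P = A ++ a :: D ∧ a ∈ X ∧ ∀ v ∈ A, v ∉ X := by
  induction P with
  | nil => obtain ⟨v, hv, -⟩ := h; simp at hv
  | cons p P ih =>
    by_cases hp : p ∈ X
    · exact ⟨[], p, P, rfl, hp, by simp⟩
    · obtain ⟨v, hv, hX⟩ := h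
      have hvP : v ∈ P := by
        rcases List.mem_cons.1 hv with rfl | hv
        · exact absurd hX hp
        · exact hv
      obtain ⟨A, a, D, hP, ha, hA⟩ := ih ⟨v, hvP, hX⟩
      refine ⟨p :: A, a, D, by rw [hP]; simp, ha, ?_⟩
      intro u hu
      rcases List.mem_cons.1 hu with rfl | hu
      · exact hp
      · exact hA u hu

private theorem hd1_last {X : Set V} {P : List V} (h : ∃ v ∈ P, v ∈ X) :
    ∃ A a D, P = A ++ a :: D ∧ a ∈ X ∧ ∀ v ∈ D, v ∉ X := by
  obtain ⟨v, hv, hX⟩ := h
  obtain ⟨A, a, D, hP, ha, hA⟩ := hd1_first (X := X) (P := P.reverse) ⟨v, by simpa using hv, hX⟩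
  refine ⟨D.reverse, a, A.reverse, ?_, ha, fun v hv => hA v (by simpa using hv)⟩
  have := congrArg List.reverse hP
  simpa using this

/-- the extreme vertices of `X` on `P` -/
theorem fx_ext {X : Set V} {P : List V} (hn : P.Nodup) (h : fx X P = 2) :
    ∃ A a M a' D, P = A ++ a :: (M ++ a' :: D) ∧ a ∈ X ∧ a' ∈ X ∧
      ∀ v ∈ P, v ∈ X → v ∈ a :: (M ++ [a']) := by
  obtain ⟨v, hv, v', hv', hne, hX, hX'⟩ := (fx_two hn).1 h
  obtain ⟨A, a, R, hP, ha, hA⟩ := hd1_first ⟨v, hv, hX⟩
  have h5 : ∃ u ∈ R, u ∈ X := by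
    by_contra hno
    push Not at hno
    have key : ∀ u ∈ P, u ∈ X → u = a := by
      intro u hu huX
      rw [hP] at hu
      rcases List.mem_append.1 hu with hu | hu
      · exact absurd huX (hA u hu)
      · rcases List.mem_cons.1 hu with hu | hu
        · exact hu
        · exact absurd huX (hno u hu)
    exact hne ((key v hv hX).trans (key v' hv' hX').symm)
  obtain ⟨M, a', D, hR, ha', hD⟩ := hd1_last h5
  refine ⟨A, a, M, a', D, by rw [hP, hR], ha, ha', ?_⟩
  intro u hu huX
  rw [hP, hR] at hu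
  rcases List.mem_append.1 hu with hu | hu
  · exact absurd huX (hA u hu)
  · rcases List.mem_cons.1 hu with hu | hu
    · rw [hu]; exact List.mem_cons_self
    · rcases List.mem_append.1 hu with hu | hu
      · exact List.mem_cons_of_mem _ (List.mem_append_left _ hu)
      · rcases List.mem_cons.1 hu with hu | hu
        · rw [hu]
          exact List.mem_cons_of_mem _ (List.mem_append_right _ (by simp))
        · exact absurd huX (hD u hu)

/-- a vertex of `X` which is the first or the last one on its segment: there are `fx X P` of them -/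
theorem ext_card {X : Set V} {P : List V} (hn : P.Nodup) :
    ((P.filter (fun v => v ∈ X)).filter
      (fun v => ¬ (∃ s ∈ X, ∃ s' ∈ X, Bf P s v ∧ Bf P v s'))).length ≤ fx X P := by
  have hle : ((P.filter (fun v => v ∈ X)).filter
      (fun v => ¬ (∃ s ∈ X, ∃ s' ∈ X, Bf P s v ∧ Bf P v s'))).length ≤
      (P.filter (fun v => v ∈ X)).length := List.length_filter_le _ _
  unfold fx
  refine le_min ?_ hle
  by_cases h2 : fx X P = 2
  · obtain ⟨A, a, M, a', D, hP, ha, ha', hall⟩ := fx_ext hn h2
    have hnd : ((P.filter (fun v => v ∈ X)).filter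
      (fun v => ¬ (∃ s ∈ X, ∃ s' ∈ X, Bf P s v ∧ Bf P v s'))).Nodup := (hn.filter _).filter _
    have hsub : ((P.filter (fun v => v ∈ X)).filter
      (fun v => ¬ (∃ s ∈ X, ∃ s' ∈ X, Bf P s v ∧ Bf P v s'))) ⊆ [a, a'] := by
      intro v hv
      rw [List.mem_filter, List.mem_filter] at hv
      obtain ⟨⟨hvP, hvX⟩, hv3⟩ := hv
      have hvX' : v ∈ X := by simpa using hvX
      have hv4 : ¬ (∃ s ∈ X, ∃ s' ∈ X, Bf P s v ∧ Bf P v s') := by simpa using hv3
      have hv5 := hall v hvP hvX'
      rcases List.mem_cons.1 hv5 with hv6 | hv6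
      · rw [hv6]; simp
      · rcases List.mem_append.1 hv6 with hv7 | hv7
        · exfalso
          apply hv4
          obtain ⟨M1, M2, hM⟩ := List.append_of_mem hv7
          refine ⟨a, ha, a', ha', ?_, ?_⟩
          · rw [hP, hM]
            have : Bf (A ++ a :: (M1 ++ v :: (M2 ++ a' :: D))) a v := Bf.intro
            simpa using this
          · rw [hP, hM]
            have : Bf ((A ++ a :: M1) ++ v :: (M2 ++ a' :: D)) v a' := Bf.intro
            simpa using this
        · rw [List.mem_singleton] at hv7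
          rw [hv7]; simp
    have := (hnd.subperm hsub).length_le
    simpa using this
  · have h3 : (P.filter (fun v => v ∈ X)).length ≤ 1 := by
      unfold fx at h2
      have := min_le_left 2 (P.filter (fun v => v ∈ X)).length
      omega
    omega

end Pool.Agent.LW
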