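import Pool.Agent.LW.HD0

set_option autoImplicit false

/-!
# (L3) the boundary of the closure of a gate
-/

namespace Pool.Agent.LW

open SimpleGraph Classical

universe w

variable {V : Type w} {G : SimpleGraph V} {L : Finset (Sym2 V)} {k : ℕ} {x y : V}
  {Ps : List (List V)} {B O : Set V}

theorem hd2_nodup (C : Cfg G L x y Ps) {P : List V} (hP : P ∈ Ps) : P.Nodup := by
  obtain ⟨A, D, hPs⟩ := List.append_of_mem hP
  have h := C.nd
  rw [hPs, List.flatten_append, List.flatten_cons] at h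
  exact (List.nodup_append'.1 (List.nodup_append'.1 h).2.1).1

theorem hd2_btw {X Ab : Set V} {l : V} (h : Btw Ps Ab X l) : l ∈ Ps.flatten := by
  obtain ⟨-, P, hP, s, -, s', -, h1, -⟩ := h
  exact List.mem_flatten.2 ⟨P, hP, h1.memR⟩

theorem hd2_not_zp {Pre Post : List (List V)} {A M D : List V} {u u' v : V} (hv : v ∈ M)
    (hn : (Pre ++ (A ++ u :: (M ++ u' :: D)) :: Post).flatten.Nodup) :
    v ∉ ZP Pre Post A D u u' := by
  intro h
  rw [List.nodup_iff_count_le_one] at hn
  have h1 := hn v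
  have h2 : 1 ≤ M.count v := List.count_pos_iff.2 hv
  have h3 : 1 ≤ (ZP Pre Post A D u u').count v := List.count_pos_iff.2 h
  simp only [ZP, List.flatten_cons, List.flatten_append, List.count_append, List.count_cons,
    List.count_nil] at h1 h3
  omega

/-- a terminal on `Z` is on the walk outside an interval -/
theorem hd2_zp (S : Bs G L k) (C : Cfg G L x y Ps) {e : Sym2 V} (he : e ∈ L) {v : V}
    (hve : v ∈ e) (hxy : v ∈ Ps.flatten) {Pre Post : List (List V)} {A M D : List V} {u u' : V}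
    (hPs : Ps = Pre ++ (A ++ u :: (M ++ u' :: D)) :: Post) : v ∈ ZP Pre Post A D u u' := by
  induction e using Sym2.ind with
  | _ c d =>
    have hne : s(c, d) ≠ s(x, y) := by
      intro h
      rw [h, Sym2.mem_iff] at hve
      rcases hve with h | h
      · exact C.hx (h ▸ hxy)
      · exact C.hy (h ▸ hxy)
    have h1 := zp_edges S.ind C hPs he hne
    rw [Sym2.mem_iff] at hve
    rcases hve with h | h
    · rw [h]; exact h1.memL
    · rw [h]; exact h1.memR

/-- the terminals are in `B` or on `Z` -/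
theorem hd2_ter (S : Bs G L k) (C : Cfg G L x y Ps) (D : Gt G x y (VS Ps) B O) {e : Sym2 V}
    (he : e ∈ L) {v : V} (hve : v ∈ e) (hvB : v ∉ B) : v ∈ VS Ps := by
  induction e using Sym2.ind with
  | _ c d =>
    have hne : s(c, d) ≠ s(x, y) := by
      intro h
      rw [h, Sym2.mem_iff] at hve
      rcases hve with h | h
      · exact hvB (h ▸ D.xB)
      · exact hvB (h ▸ D.yB)
    obtain ⟨P, Post, hPs⟩ : ∃ P Post, Ps = P :: Post := by
      cases hc : Ps with
      | nil => exact absurd hc C.jn.ne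
      | cons P Post => exact ⟨P, Post, rfl⟩
    have htwo := C.two P (by rw [hPs]; simp)
    obtain ⟨u, u', D', hP⟩ : ∃ u u' D', P = u :: u' :: D' := by
      match P, htwo with
      | u :: u' :: D', _ => exact ⟨u, u', D', rfl⟩
    have hPs' : Ps = [] ++ ([] ++ u :: ([] ++ u' :: D')) :: Post := by
      rw [hPs, hP]
      rfl
    have h1 := zp_edges S.ind C hPs' he hne
    rw [Sym2.mem_iff] at hve
    rcases hve with h | h
    · rw [h]; exact zp_sub hPs' _ h1.memL
    · rw [h]; exact zp_sub hPs' _ h1.memR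

/-- the closure property -/
theorem Xg_step {g l v : V} (h : Btw Ps Set.univ (Xg G O Ps g) l) (hv : v ∈ Ps.flatten)
    (h' : Con G O l v) : v ∈ Xg G O Ps g := by
  obtain ⟨hl, P, hP, s, ⟨t1, hs⟩, s', ⟨t2, hs'⟩, h1, h2⟩ := h
  refine ⟨max t1 t2 + 1, Or.inr ⟨hv, l, ⟨hl, P, hP, s, ?_, s', ?_, h1, h2⟩, h'⟩⟩
  · exact lvl_mono (le_max_left _ _) hs
  · exact lvl_mono (le_max_right _ _) hs'

/-- no other gate is attached to the inside of a hull -/
theorem inner_gate (S : Bs G L k) (C : Cfg G L x y Ps) (D : Gt G x y (VS Ps) B O) {g g' l : V}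
    (hg : g ∈ B) (hg' : g' ∈ B) (h : Btw Ps Set.univ (Xg G O Ps g) l) (h' : Con G O g' l) :
    g' = g := by
  by_contra hne
  obtain ⟨hl, P, hP, s, hs, s', hs', h1, h2⟩ := h
  have hlP : l ∈ P := h1.memR
  have hlZ : l ∈ Ps.flatten := List.mem_flatten.2 ⟨P, hP, hlP⟩
  have h3 : l ∈ Xg G O Ps g' := Xg_zero hlZ h'
  have h4 := exclX S C D hg hg' (fun h => hne h.symm) hP h1.memL hlP hs h3
  exact h1.ne (hd2_nodup C hP) h4

theorem Ag_step (S : Bs G L k) (C : Cfg G L x y Ps) (D : Gt G x y (VS Ps) B O) {g a v : V}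
    (hg : g ∈ B) (ha : a ∈ Ag G O Ps g) (h : G.Adj a v) : v ∈ Ag G O Ps g ∨ v ∈ Ug G B O Ps g := by
  have key : v ∈ Xg G O Ps g → v ∈ Ag G O Ps g ∨ v ∈ Ug G B O Ps g := by
    intro hv
    by_cases hb : Btw Ps Set.univ (Xg G O Ps g) v
    · exact Or.inl (Or.inr (Or.inr ⟨v, hb, Or.inl rfl⟩))
    · exact Or.inr (Or.inr ⟨hv, hb⟩)
  have keyB : v ∈ B → v ∈ Ag G O Ps g ∨ v ∈ Ug G B O Ps g := by
    intro hv
    by_cases hvg : v = g
    · exact Or.inl (Or.inl hvg)
    · exact Or.inr (Or.inl ⟨hv, hvg⟩)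
  by_cases hvB : v ∈ B
  · exact keyB hvB
  by_cases hvZ : v ∈ VS Ps
  · have hvZ' : v ∈ Ps.flatten := hvZ
    rcases ha with ha | ha | ⟨l, hl, ha | ha⟩
    · subst ha
      exact key (Xg_zero hvZ' (Or.inl h))
    · exact key (Xg_zero hvZ' (Or.inr ⟨a, ha, h⟩))
    · subst ha
      exact key (Xg_step hl hvZ' (Or.inl h))
    · exact key (Xg_step hl hvZ' (Or.inr ⟨a, ha, h⟩))
  · have hvO : v ∈ O := (D.OO v).2 ⟨hvZ, hvB⟩
    left
    rcases ha with ha | ha | ⟨l, hl, ha | ha⟩
    · subst ha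
      exact Or.inr (Or.inl (att_of_adj h hvO))
    · exact Or.inr (Or.inl (att_step ha h hvO))
    · subst ha
      exact Or.inr (Or.inr ⟨a, hl, Or.inr (att_of_adj h hvO)⟩)
    · exact Or.inr (Or.inr ⟨l, hl, Or.inr (att_step ha h hvO)⟩)

theorem Ag_disj (C : Cfg G L x y Ps) (D : Gt G x y (VS Ps) B O) {g v : V}
    (hg : g ∈ B) (h : v ∈ Ag G O Ps g) : v ∉ Ug G B O Ps g := by
  have hO : v ∈ O → v ∉ Ug G B O Ps g := by
    intro hv hu
    have h1 := (D.OO v).1 hv
    rcases hu with hu | hu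
    · exact h1.2 hu.1
    · exact h1.1 (Xg_host hu.1)
  rcases h with h | h | ⟨l, hl, h | h⟩
  · subst h
    rintro (hu | hu)
    · exact hu.2 rfl
    · exact D.BZ v hg (Xg_host hu.1)
  · exact hO (att_mem h)
  · subst h
    rintro (hu | hu)
    · exact D.BZ v hu.1 (hd2_btw hl)
    · exact hu.2 hl
  · exact hO (att_mem h)

/-- the terminals in the closure -/
theorem Ag_ter (S : Bs G L k) (C : Cfg G L x y Ps) (D : Gt G x y (VS Ps) B O) {g : V}
    (hg : g ∈ B) : ∀ e ∈ L, ∀ v ∈ e, v ∈ Ag G O Ps g → v = g := by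
  intro e he v hve hv
  have hO : v ∉ O := by
    intro hvO
    have h1 := (D.OO v).1 hvO
    exact h1.1 (hd2_ter S C D he hve h1.2)
  rcases hv with h | h | ⟨l, hl, h | h⟩
  · exact h
  · exact absurd (att_mem h) hO
  · exfalso
    subst h
    obtain ⟨-, P, hP, s, -, s', -, h1, h2⟩ := hl
    obtain ⟨A, M, D', hF⟩ := h1.split
    have hPn := hd2_nodup C hP
    have h3 : Bf (v :: D') v s' := by
      have h4 : P = (A ++ s :: M) ++ v :: D' := by rw [hF]; simp
      rw [h4] at h2 hPn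
      have h5 := h2.mem_right hPn
      exact Bf.of_right (A := []) h5
    have h4 : s' ∈ D' := by
      have h5 : (v :: D').Nodup := by
        have h6 : P = (A ++ s :: M) ++ v :: D' := by rw [hF]; simp
        rw [h6] at hPn
        exact (List.nodup_append'.1 hPn).2.1
      exact Bf.mem_right (A := []) h3 h5
    obtain ⟨M', D'', hD⟩ := List.append_of_mem h4
    obtain ⟨Pre, Post, hPs⟩ := List.append_of_mem hP
    have hF' : P = A ++ s :: ((M ++ v :: M') ++ s' :: D'') := by
      rw [hF, hD]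
      simp
    have hvZ : v ∈ Ps.flatten := List.mem_flatten.2 ⟨P, hP, h1.memR⟩
    have h5 := hd2_zp S C he hve hvZ (hF' ▸ hPs)
    have hn := C.nd
    rw [hPs, hF'] at hn
    exact hd2_not_zp (by simp) hn h5
  · exact absurd (att_mem h) hO

end Pool.Agent.LW
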