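import Pool.Agent.LW.HD1
import Pool.Agent.LW.HD2

set_option autoImplicit false

/-!
# (L3) counting the boundary
-/

namespace Pool.Agent.LW

open SimpleGraph Classical

universe w

variable {V : Type w} {G : SimpleGraph V} {L : Finset (Sym2 V)} {k : ℕ} {x y : V}
  {Ps : List (List V)} {B O : Set V}

theorem hd3_nodup (C : Cfg G L x y Ps) {P : List V} (hP : P ∈ Ps) : P.Nodup :=
  (List.nodup_flatten.1 C.nd).1 P hP

theorem hd3_same (C : Cfg G L x y Ps) {P P' : List V} (hP : P ∈ Ps) (hP' : P' ∈ Ps) {v : V}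
    (h : v ∈ P) (h' : v ∈ P') : P = P' := by
  by_contra hne
  have h1 := (List.nodup_flatten.1 C.nd).2
  rcases List.pairwise_iff_getElem.1 h1 with h2
  obtain ⟨i, hi, rfl⟩ := List.getElem_of_mem hP
  obtain ⟨j, hj, rfl⟩ := List.getElem_of_mem hP'
  rcases lt_trichotomy i j with hij | hij | hij
  · exact h2 i j hi hj hij h h'
  · subst hij
    exact hne rfl
  · exact h2 j i hj hi hij h' h

/-- an end of a segment is in `X` -/
theorem hd3_end (C : Cfg G L x y Ps) (D : Gt G x y (VS Ps) B O) {g : V} (hg : g ∈ B)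
    {P : List V} (hP : P ∈ Ps) {v : V} (hv : v ∈ P)
    (hend : (∀ s, ¬ Bf P s v) ∨ ∀ s, ¬ Bf P v s)
    (h : v ∈ Ag G O Ps g ∨ v ∈ Ug G B O Ps g) : v ∈ Xg G O Ps g := by
  have hZ : v ∈ VS Ps := List.mem_flatten.2 ⟨P, hP, hv⟩
  have hB : v ∉ B := fun hB => D.BZ v hB hZ
  have hO : v ∉ O := fun hO => ((D.OO v).1 hO).1 hZ
  have hbt : ¬ Btw Ps Set.univ (Xg G O Ps g) v := by
    rintro ⟨_, P', hP', s, _, s', _, h1, h2⟩
    have hPP : P' = P := hd3_same C hP' hP h1.memR hv
    subst hPP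
    rcases hend with he | he
    · exact he s h1
    · exact he s' h2
  rcases h with h | h
  · rcases h with h | h | ⟨l, hl, h | h⟩
    · exact absurd (h ▸ hg) hB
    · exact absurd (att_mem h) hO
    · exact absurd (h ▸ hl) hbt
    · exact absurd (att_mem h) hO
  · rcases h with h | h
    · exact absurd h.1 hB
    · exact h.1

/-- something is outside -/
theorem Ag_compl [Fintype V] (S : Bs G L k) (C : Cfg G L x y Ps) (D : Gt G x y (VS Ps) B O) {g : V}
    (hg : g ∈ B) : ∃ z, z ∉ Ag G O Ps g ∧ z ∉ Ug G B O Ps g := by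
  by_contra hcon
  have hall : ∀ z, z ∈ Ag G O Ps g ∨ z ∈ Ug G B O Ps g := by
    intro z
    by_contra hz
    exact hcon ⟨z, fun h => hz (Or.inl h), fun h => hz (Or.inr h)⟩
  -- no other gate is attached to `Z`
  have hno : ∀ g' ∈ B, g' ≠ g → ∀ v ∈ VS Ps, ¬ Con G O g' v := by
    intro g' hg' hne v hv hc
    obtain ⟨P, hP, hvP⟩ := List.mem_flatten.1 hv
    have hn := hd3_nodup C hP
    have h2 := C.two P hP
    obtain ⟨a, P1, rfl⟩ : ∃ a P1, P = a :: P1 := by
      cases P with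
      | nil => simp at h2
      | cons a P1 => exact ⟨a, P1, rfl⟩
    have hP1 : P1 ≠ [] := by
      rintro rfl
      simp at h2
    have hla : a ∈ Xg G O Ps g := by
      refine hd3_end C D hg hP (by simp) (Or.inl fun s hs => ?_) (hall a)
      have := Bf.mem_left (A := []) (D := P1) hs hn
      simp at this
    obtain ⟨P2, b, hb⟩ : ∃ P2 b, P1 = P2 ++ [b] := by
      rcases List.eq_nil_or_concat P1 with h | ⟨P2, b, h⟩
      · exact absurd h hP1
      · exact ⟨P2, b, by rw [h, List.concat_eq_append]⟩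
    have hlb : b ∈ Xg G O Ps g := by
      refine hd3_end C D hg hP (by rw [hb]; simp) (Or.inr fun s hs => ?_) (hall b)
      have hs' : Bf ((a :: P2) ++ b :: []) b s := by
        have e : (a :: P2) ++ b :: [] = a :: P1 := by rw [hb]; simp
        rw [e]
        exact hs
      have hn' : ((a :: P2) ++ b :: []).Nodup := by
        have e : (a :: P2) ++ b :: [] = a :: P1 := by rw [hb]; simp
        rw [e]
        exact hn
      have := Bf.mem_right hs' hn'
      simp at this
    have hvX : v ∈ Xg G O Ps g' := Xg_zero hv hc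
    have e1 := exclX S C D hg' hg hne hP hvP (by simp : a ∈ a :: P1) hvX hla
    have e2 := exclX S C D hg' hg hne hP hvP (by rw [hb]; simp : b ∈ a :: P1) hvX hlb
    have hab : a = b := e1.symm.trans e2
    rw [List.nodup_cons] at hn
    apply hn.1
    rw [hab, hb]
    simp
  have hxy : x ≠ y := by
    have := S.sub _ C.xy
    rw [SimpleGraph.mem_edgeSet] at this
    exact this.ne
  obtain ⟨a, haB, hag⟩ : ∃ a ∈ B, a ≠ g := by
    by_cases h : x = g
    · exact ⟨y, D.yB, fun h' => hxy (h.trans h'.symm)⟩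
    · exact ⟨x, D.xB, h⟩
  obtain ⟨z, hz⟩ : ∃ z, z ∈ Ps.flatten := by
    have := C.len
    exact List.exists_mem_of_length_pos (by omega)
  have hzB : z ∉ B := fun h => D.BZ z h hz
  have hzO : z ∉ O := fun h => ((D.OO z).1 h).1 hz
  have hk := sep_card S (A := {v | (v ∈ B ∧ v ≠ g) ∨ ∃ g' ∈ B, g' ≠ g ∧ v ∈ Att G O g'})
    (U := {g}) (a := a) (z := z) (Or.inl ⟨haB, hag⟩) (by simpa using hag) ?_ ?_ ?_
  · rw [Finset.card_singleton] at hk
    have := S.k2
    omega
  · intro v hv w hw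
    have hB : w ∈ B → w ∈ {v | (v ∈ B ∧ v ≠ g) ∨ ∃ g' ∈ B, g' ≠ g ∧ v ∈ Att G O g'} ∨
        w ∈ ({g} : Finset V) := by
      intro hwB
      by_cases hwg : w = g
      · exact Or.inr (by simpa using hwg)
      · exact Or.inl (Or.inl ⟨hwB, hwg⟩)
    by_cases hwZ : w ∈ VS Ps
    · exfalso
      rcases hv with ⟨hv, hvg⟩ | ⟨g', hg', hgg, hv⟩
      · exact hno v hv hvg w hwZ (Or.inl hw)
      · exact hno g' hg' hgg w hwZ (Or.inr ⟨v, hv, hw⟩)
    by_cases hwB : w ∈ B
    · exact hB hwB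
    · have hwO : w ∈ O := (D.OO w).2 ⟨hwZ, hwB⟩
      rcases hv with ⟨hv, hvg⟩ | ⟨g', hg', hgg, hv⟩
      · exact Or.inl (Or.inr ⟨v, hv, hvg, att_of_adj hw hwO⟩)
      · exact Or.inl (Or.inr ⟨g', hg', hgg, att_step hv hw hwO⟩)
  · rintro (h | ⟨g', _, _, h⟩)
    · exact hzB h.1
    · exact hzO (att_mem h)
  · intro h
    rw [Finset.mem_singleton] at h
    exact hzB (h ▸ hg)

theorem Ug_card [Fintype V] (C : Cfg G L x y Ps) {g : V} (hg : g ∈ B) :
    (fs (Ug G B O Ps g)).card + 1 ≤ (fs B).card + (Ps.map (fx (Xg G O Ps g))).sum := by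
  set X := Xg G O Ps g with hX
  set f : List V → List V := fun P => (P.filter (fun v => v ∈ X)).filter
      (fun v => ¬ (∃ s ∈ X, ∃ s' ∈ X, Bf P s v ∧ Bf P v s')) with hf
  have hsub : fs (Ug G B O Ps g) ⊆ (fs B).erase g ∪ (Ps.flatMap f).toFinset := by
    intro v hv
    rw [mem_fs] at hv
    rcases hv with ⟨h1, h2⟩ | ⟨h1, h2⟩
    · exact Finset.mem_union_left _ (Finset.mem_erase.2 ⟨h2, mem_fs.2 h1⟩)
    · refine Finset.mem_union_right _ ?_
      rw [List.mem_toFinset, List.mem_flatMap]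
      obtain ⟨P, hP, hvP⟩ := List.mem_flatten.1 (Xg_host h1)
      refine ⟨P, hP, ?_⟩
      rw [hf]
      simp only [List.mem_filter, decide_eq_true_eq]
      refine ⟨⟨hvP, h1⟩, ?_⟩
      rintro ⟨s, hs, s', hs', hb, hb'⟩
      exact h2 ⟨Set.mem_univ _, P, hP, s, hs, s', hs', hb, hb'⟩
  have h1 := Finset.card_le_card hsub
  have h2 := Finset.card_union_le ((fs B).erase g) (Ps.flatMap f).toFinset
  have h3 : ((fs B).erase g).card + 1 = (fs B).card :=
    Finset.card_erase_add_one (mem_fs.2 hg)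
  have h4 : (Ps.flatMap f).toFinset.card ≤ (Ps.map (fx X)).sum := by
    refine (List.toFinset_card_le _).trans ?_
    rw [List.length_flatMap]
    refine List.sum_le_sum fun P hP => ?_
    have h5 := ext_card (X := X) (hd3_nodup C hP)
    refine le_trans (le_of_eq ?_) h5
    show (f P).length = _
    rw [hf]
    beta_reduce
    congr!
  omega

/-- (L3) -/
theorem closure_card [Fintype V] (S : Bs G L k) (C : Cfg G L x y Ps)
    (D : Gt G x y (VS Ps) B O) {g : V} (hg : g ∈ B) :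
    k ≤ (fs (Ug G B O Ps g)).card := by
  obtain ⟨z, hz, hz'⟩ := Ag_compl S C D hg
  refine sep_card S (A := Ag G O Ps g) (a := g) (z := z) (Or.inl rfl) ?_ ?_ hz ?_
  · rw [mem_fs]; exact Ag_disj C D hg (Or.inl rfl)
  · intro a ha v hv
    rw [mem_fs]
    exact Ag_step S C D hg ha hv
  · rw [mem_fs]; exact hz'

end Pool.Agent.LW
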