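import Pool.Agent.LW.HD1
import Pool.Agent.LW.HD2

set_option autoImplicit false

/-!
# (L4)
-/

namespace Pool.Agent.LW

open SimpleGraph Classical

universe w

variable {V : Type w} {G : SimpleGraph V} {L : Finset (Sym2 V)} {k : ℕ} {x y : V}
  {Ps : List (List V)} {B O : Set V}

theorem hd4_len {Ps : List (List V)} (h : ∀ P ∈ Ps, 2 ≤ P.length) :
    2 * Ps.length ≤ Ps.flatten.length := by
  induction Ps with
  | nil => simp
  | cons P Ps ih =>
    have h1 := h P (by simp)
    have h2 := ih (fun Q hQ => h Q (List.mem_cons_of_mem _ hQ))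
    rw [List.flatten_cons, List.length_append, List.length_cons]
    omega

/-- on every segment there is a gate or a vertex which meets all connections to the segment -/
theorem hd4_choice (S : Bs G L k) (C : Cfg G L x y Ps) (D : Gt G x y (VS Ps) B O)
    {g : V} (hg : g ∈ B)
    (hno : ∀ P ∈ Ps, ∀ v ∈ P, ∀ v' ∈ P, Con G O g v → Con G O g v' → v = v') (P : List V)
    (hP : P ∈ Ps) :
    ∃ c : V, c ≠ g ∧ ∀ b ∈ B, ∀ v ∈ P, Con G O b v → b = c ∨ v = c := by
  have hZ : ∀ v ∈ P, v ∈ Ps.flatten := fun v hv => List.mem_flatten.2 ⟨P, hP, hv⟩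
  have hgP : ∀ v ∈ P, v ≠ g := fun v hv h => D.BZ g hg (by rw [← h]; exact hZ v hv)
  have hX : ∀ b v, v ∈ P → Con G O b v → v ∈ Xg G O Ps b := fun b v hv h => Xg_zero (hZ v hv) h
  by_cases h1 : ∃ w ∈ B, ∃ v ∈ P, ∃ v' ∈ P, v ≠ v' ∧ Con G O w v ∧ Con G O w v'
  · obtain ⟨w, hw, v, hv, v', hv', hne, hc, hc'⟩ := h1
    refine ⟨w, ?_, ?_⟩
    · intro h
      rw [h] at hc hc'
      exact hne (hno P hP v hv v' hv' hc hc')
    · intro b hb u hu hbu
      left
      by_contra hbw
      have e1 := exclX S C D hb hw hbw hP hu hv (hX b u hu hbu) (hX w v hv hc)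
      have e2 := exclX S C D hb hw hbw hP hu hv' (hX b u hu hbu) (hX w v' hv' hc')
      exact hne (e1.symm.trans e2)
  · by_cases h2 : ∃ b ∈ B, ∃ v ∈ P, Con G O b v
    · obtain ⟨b, hb, v, hv, hc⟩ := h2
      refine ⟨v, hgP v hv, ?_⟩
      intro b' hb' v' hv' hc'
      right
      by_contra hne
      by_cases hbb : b' = b
      · rw [hbb] at hc'
        exact h1 ⟨b, hb, v', hv', v, hv, hne, hc', hc⟩
      · exact hne (exclX S C D hb' hb hbb hP hv' hv (hX b' v' hv' hc') (hX b v hv hc))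
    · obtain ⟨a, ha⟩ := List.exists_mem_of_ne_nil P (C.ne P hP)
      exact ⟨a, hgP a ha, fun b hb v hv hc => absurd ⟨b, hb, v, hv, hc⟩ h2⟩

/-- (L4) -/
theorem double_ex [Fintype V] (S : Bs G L k) (C : Cfg G L x y Ps) (D : Gt G x y (VS Ps) B O)
    {g : V} (hg : g ∈ B) :
    ∃ P ∈ Ps, ∃ v ∈ P, ∃ v' ∈ P, v ≠ v' ∧ Con G O g v ∧ Con G O g v' := by
  by_contra hno
  have : Nonempty V := ⟨g⟩
  choose! c hcg hc using hd4_choice S C D hg (fun P hP v hv v' hv' h1 h2 => by
    by_contra hne
    exact hno ⟨P, hP, v, hv, v', hv', hne, h1, h2⟩)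
  have hUm : ∀ P ∈ Ps, c P ∈ (Ps.map c).toFinset := fun P hP => by
    rw [List.mem_toFinset]
    exact List.mem_map_of_mem hP
  have hgU : g ∉ (Ps.map c).toFinset := by
    rw [List.mem_toFinset, List.mem_map]
    rintro ⟨P, hP, h⟩
    exact hcg P hP h
  have hcardU : (Ps.map c).toFinset.card ≤ Ps.length := by
    have h1 := List.toFinset_card_le (Ps.map c)
    rwa [List.length_map] at h1
  generalize (Ps.map c).toFinset = U at hUm hgU hcardU
  have hpos : 0 < Ps.length := by
    rcases Nat.eq_zero_or_pos Ps.length with h | h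
    · have h1 := C.len
      rw [List.length_eq_zero_iff.1 h] at h1
      simp at h1
    · exact h
  obtain ⟨z, hz, hzU⟩ : ∃ z ∈ Ps.flatten, z ∉ U := by
    by_contra hz
    have h1 : Ps.flatten.toFinset ⊆ U := by
      intro z hz1
      by_contra hz2
      exact hz ⟨z, List.mem_toFinset.1 hz1, hz2⟩
    have h2 := Finset.card_le_card h1
    rw [List.toFinset_card_of_nodup C.nd] at h2
    have h3 := hd4_len C.two
    omega
  have key := sep_card S
    (A := {v | ∃ b ∈ B, b ∉ U ∧ (v = b ∨ v ∈ Att G O b)}) (U := U) (a := g) (z := z)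
    ⟨g, hg, hgU, Or.inl rfl⟩ hgU ?_ ?_ hzU
  · have h1 := C.card
    rw [S.card] at h1
    omega
  · rintro a ⟨b, hb, hbU, ha⟩ w haw
    by_cases hwZ : w ∈ Ps.flatten
    · right
      obtain ⟨P, hP, hwP⟩ := List.mem_flatten.1 hwZ
      have hcon : Con G O b w := by
        rcases ha with ha | ha
        · rw [ha] at haw
          exact Or.inl haw
        · exact Or.inr ⟨a, ha, haw⟩
      rcases hc P hP b hb w hwP hcon with h | h
      · exact absurd (by rw [h]; exact hUm P hP) hbU
      · rw [h]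
        exact hUm P hP
    · by_cases hwB : w ∈ B
      · by_cases hwU : w ∈ U
        · exact Or.inr hwU
        · exact Or.inl ⟨w, hwB, hwU, Or.inl rfl⟩
      · left
        have hwO : w ∈ O := (D.OO w).2 ⟨hwZ, hwB⟩
        refine ⟨b, hb, hbU, Or.inr ?_⟩
        rcases ha with ha | ha
        · rw [ha] at haw
          exact att_of_adj haw hwO
        · exact att_step ha haw hwO
  · rintro ⟨b, hb, hbU, ha⟩
    rcases ha with ha | ha
    · rw [ha] at hz
      exact D.BZ b hb hz
    · exact ((D.OO z).1 (att_mem ha)).1 hz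

end Pool.Agent.LW
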