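import Pool.Agent.LW.HD1

set_option autoImplicit false

/-!
# (L6) definitions
-/

namespace Pool.Agent.LW

open SimpleGraph Classical

universe w

variable {V : Type w} {G : SimpleGraph V} {L : Finset (Sym2 V)} {k : ℕ}

/-- the `L`-path from `x` to `p`, cut after its maximal initial part `X1` inside `A` -/
structure EMD (G : SimpleGraph V) (L : Finset (Sym2 V)) (A : Set V) (N : Finset V) (x p : V)
    (X1 T : List V) : Prop where
  ch : Ch G x p (X1 ++ T)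
  nd : (X1 ++ T).Nodup
  edge : ∀ c d, s(c, d) ∈ L → EL (X1 ++ T) c d
  ne : X1 ≠ []
  sub : ∀ v ∈ X1, v ∈ A
  hT : T ≠ []
  hd : ∀ v, T.head? = some v → v ∉ A
  hN : ∀ v, v ∈ N ↔ v ∉ A ∧ ∃ a ∈ A, G.Adj a v
  pN : p ∈ N
  ter : ∀ e ∈ L, ∀ v ∈ e, v ∈ A → v = x

/-- the free vertices -/
def EO (A : Set V) (X1 T : List V) : Set V := {v | v ∈ A ∧ v ∉ X1 ∧ v ∉ T}

/-- the host: `T` cut at the pairs outside `A` -/
noncomputable def EH (A : Set V) (T : List V) : List (List V) :=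
  T.splitBy (fun a b => decide (a ∈ A ∨ b ∈ A))

/-- the vertices of `T` attached to `X1` -/
def ES (G : SimpleGraph V) (A : Set V) (X1 T : List V) : Set V :=
  {w | w ∈ T ∧ ∃ v ∈ X1, Con G (EO A X1 T) v w}

/-- the closure on `T` -/
def EX (G : SimpleGraph V) (A : Set V) (X1 T : List V) : Set V :=
  {w | ∃ t, w ∈ Lvl G (EO A X1 T) (EH A T) A (ES G A X1 T) t}

/-- the set closed off -/
def EA (G : SimpleGraph V) (A : Set V) (X1 T : List V) : Set V :=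
  {v | v ∈ X1 ∨ (∃ u ∈ X1, v ∈ Att G (EO A X1 T) u) ∨
    ∃ l, Btw (EH A T) A (EX G A X1 T) l ∧ (v = l ∨ v ∈ Att G (EO A X1 T) l)}

variable {A : Set V} {N : Finset V} {x p : V} {X1 T : List V}

/-- a vertex `v` of the boundary is matched with a vertex `n` of `N`: itself; the last vertex outside
`A` before it, if it is the first vertex of the closure on its host path; the first one after it, if it
is the last one. -/
def Mt (G : SimpleGraph V) (A : Set V) (N : Finset V) (X1 T : List V) (v n : V) : Prop :=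
  (v ∉ A ∧ n = v ∧ n ∈ N) ∨
  (v ∈ A ∧ n ∉ A ∧ n ∈ N ∧ ∃ C1 M C2, C1 ++ n :: (M ++ v :: C2) ∈ EH A T ∧ (∀ u ∈ M, u ∈ A) ∧
    (∀ u ∈ C1 ++ n :: M, u ∉ EX G A X1 T)) ∨
  (v ∈ A ∧ n ∉ A ∧ n ∈ N ∧ ∃ C1 M C2, C1 ++ v :: (M ++ n :: C2) ∈ EH A T ∧ (∀ u ∈ M, u ∈ A) ∧
    (∀ u ∈ M ++ n :: C2, u ∉ EX G A X1 T) ∧ ∃ u ∈ C1, u ∈ EX G A X1 T)

end Pool.Agent.LW
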