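import Pool.Agent.LW.HE0

set_option autoImplicit false

/-!
# (L6) the `L`-path
-/

namespace Pool.Agent.LW

open SimpleGraph Classical

universe w

variable {V : Type w} {G : SimpleGraph V} {L : Finset (Sym2 V)} {k : ℕ}
  {A : Set V} {N : Finset V} {x p : V} {X1 T : List V}

theorem he1_dw (F : List V) (v : V)
    (h : (F.dropWhile (fun v => decide (v ∈ A))).head? = some v) : v ∉ A := by
  induction F with
  | nil => simp at h
  | cons a F ih =>
    by_cases ha : a ∈ A
    · rw [List.dropWhile_cons_of_pos (by simpa using ha)] at h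
      exact ih h
    · rw [List.dropWhile_cons_of_neg (by simpa using ha), List.head?_cons] at h
      have h1 : a = v := by simpa using h
      rw [← h1]
      exact ha

/-- the data exist -/
theorem em_path (S : Bs G L k) (hN : ∀ v, v ∈ N ↔ v ∉ A ∧ ∃ a ∈ A, G.Adj a v) (hx : x ∈ A)
    (ter : ∀ e ∈ L, ∀ v ∈ e, v ∈ A → v = x) (hp : p ∈ N) (hxp : ¬ G.Adj x p) :
    ∃ X1 T, EMD G L A N x p X1 T := by
  have hpA : p ∉ A := ((hN p).1 hp).1
  have hne : x ≠ p := by
    intro h
    rw [h] at hx
    exact hpA hx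
  obtain ⟨Rs, hR, hl⟩ := S.em x p hne hxp
  have hC : Ch G x p Rs.flatten := by
    refine ⟨hR.hd, hR.lt, ?_⟩
    rw [List.isChain_flatten (fun h => hR.ne _ h rfl)]
    refine ⟨hR.ch, hR.jn.imp ?_⟩
    rintro P Q ⟨r, l, h1, h2, h3⟩ a ha b hb
    rw [h1] at ha
    rw [h2] at hb
    simp only [Option.mem_def, Option.some.injEq] at ha hb
    rw [← ha, ← hb]
    exact S.sub _ h3
  have hed : ∀ c d, s(c, d) ∈ L → EL Rs.flatten c d := fun c d hcd =>
    lp_edges S.ind hR (by rw [hl, S.card]) hcd
  have hnd := hR.nd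
  generalize Rs.flatten = F at hC hed hnd
  have e : F.takeWhile (fun v => decide (v ∈ A)) ++ F.dropWhile (fun v => decide (v ∈ A)) = F :=
    List.takeWhile_append_dropWhile
  refine ⟨F.takeWhile (fun v => decide (v ∈ A)), F.dropWhile (fun v => decide (v ∈ A)), ?_⟩
  constructor
  · rw [e]; exact hC
  · rw [e]; exact hnd
  · rw [e]; exact hed
  · obtain ⟨D, hD⟩ := List.head?_eq_some_iff.1 hC.hd
    rw [hD, List.takeWhile_cons_of_pos (by simpa using hx)]
    exact List.cons_ne_nil _ _
  · intro v hv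
    simpa using List.mem_takeWhile_imp hv
  · intro h
    rw [List.dropWhile_eq_nil_iff] at h
    exact hpA (by simpa using h p hC.memR)
  · intro v hv
    exact he1_dw _ _ hv
  · exact hN
  · exact hp
  · exact ter

end Pool.Agent.LW
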