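import Pool.Agent.LW.HE0

set_option autoImplicit false

/-!
# (L6) the host and the boundary of the closed set
-/

namespace Pool.Agent.LW

open SimpleGraph Classical

universe w

variable {V : Type w} {G : SimpleGraph V} {L : Finset (Sym2 V)} {k : ℕ}
  {A : Set V} {N : Finset V} {x p : V} {X1 T : List V}

theorem eh_flatten (A : Set V) (T : List V) : (EH A T).flatten = T := by
  unfold EH
  exact List.flatten_splitBy _ _

theorem eh_pair {P : List V} (hP : P ∈ EH A T) : P.IsChain (fun a b => a ∈ A ∨ b ∈ A) := by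
  unfold EH at hP
  refine (List.isChain_of_mem_splitBy hP).imp fun a b h => ?_
  exact of_decide_eq_true h

theorem he2_junction (A : Set V) (T : List V) :
    (EH A T).IsChain fun P Q => ∃ a b, P.getLast? = some a ∧ Q.head? = some b ∧ a ∉ A ∧ b ∉ A := by
  unfold EH
  refine (List.isChain_getLast_head_splitBy _ _).imp fun P Q h => ?_
  obtain ⟨hP, hQ, h⟩ := h
  have h1 := of_decide_eq_false h
  rw [not_or] at h1
  exact ⟨_, _, List.getLast?_eq_some_getLast hP, List.head?_eq_some_head hQ, h1.1, h1.2⟩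

theorem he2_infix {P : List V} (hP : P ∈ EH A T) : P <:+: T := by
  obtain ⟨Pre, Post, hE⟩ := List.append_of_mem hP
  refine ⟨Pre.flatten, Post.flatten, ?_⟩
  have h := eh_flatten A T
  rw [hE] at h
  rw [← h]
  simp

theorem he2_last (E : EMD G L A N x p X1 T) : T.getLast? = some p := by
  have h := E.ch.lt
  rwa [List.getLast?_append_of_ne_nil _ E.hT] at h

theorem he2_chain (E : EMD G L A N x p X1 T) : T.IsChain G.Adj :=
  E.ch.ch.right_of_append

theorem he2_nodup (E : EMD G L A N x p X1 T) : T.Nodup :=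
  (List.nodup_append'.1 E.nd).2.1

/-- a vertex of `A` on `T` has a predecessor and a successor on its host path -/
theorem eh_in (E : EMD G L A N x p X1 T) {P C1 C2 : List V} {a : V}
    (hP : C1 ++ a :: C2 ∈ EH A T) (ha : a ∈ A) : C1 ≠ [] ∧ C2 ≠ [] := by
  obtain ⟨Pre, Post, hE⟩ := List.append_of_mem hP
  have hfl := eh_flatten A T
  have hj := he2_junction A T
  rw [hE] at hfl hj
  constructor
  · rintro rfl
    rcases List.eq_nil_or_concat Pre with h | ⟨Pre', P0, h⟩
    · rw [h] at hfl
      refine E.hd a ?_ ha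
      rw [← hfl]
      rfl
    · rw [h, List.concat_eq_append, List.append_assoc] at hj
      have h1 := (List.isChain_append_cons_cons.1 hj).2.1
      obtain ⟨u, v, _, hv, _, hvA⟩ := h1
      have h2 : v = a := by
        have h3 : (([] : List V) ++ a :: C2).head? = some a := rfl
        rw [h3] at hv
        exact (Option.some.inj hv).symm
      exact hvA (h2 ▸ ha)
  · rintro rfl
    cases Post with
    | nil =>
      have h1 := he2_last E
      rw [← hfl] at h1
      simp only [List.flatten_append, List.flatten_cons, List.flatten_nil, List.append_nil] at h1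
      rw [← List.append_assoc, List.getLast?_append_of_ne_nil _ (by simp)] at h1
      simp only [List.getLast?_singleton, Option.some.injEq] at h1
      exact ((E.hN p).1 E.pN).1 (h1 ▸ ha)
    | cons Q Post =>
      have h1 := (List.isChain_append_cons_cons.1 hj).2.1
      obtain ⟨u, v, hu, _, huA, _⟩ := h1
      rw [List.getLast?_append_of_ne_nil _ (by simp)] at hu
      simp only [List.getLast?_singleton, Option.some.injEq] at hu
      exact huA (hu ▸ ha)

/-- a vertex of `T` outside `A` which is not alone on its host path is in `N` -/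
theorem eh_N (E : EMD G L A N x p X1 T) {P : List V} {a b : V} (hP : P ∈ EH A T)
    (ha : a ∈ P) (hb : b ∈ P) (hab : a ≠ b) (haA : a ∉ A) : a ∈ N := by
  have hpair := eh_pair hP
  have hch : P.IsChain G.Adj := chain_of_inf (he2_chain E) (he2_infix hP)
  obtain ⟨A1, D1, rfl⟩ := List.append_of_mem ha
  have key : ∃ c ∈ A, G.Adj c a := by
    cases D1 with
    | nil =>
      have hb1 : b ∈ A1 := by
        rcases List.mem_append.1 hb with h | h
        · exact h
        · exact absurd (List.mem_singleton.1 h).symm hab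
      rcases List.eq_nil_or_concat A1 with h | ⟨A2, c, h⟩
      · rw [h] at hb1
        exact absurd hb1 List.not_mem_nil
      · rw [h, List.concat_eq_append, List.append_assoc] at hpair hch
        have h1 := (List.isChain_append_cons_cons.1 hpair).2.1
        have h2 := (List.isChain_append_cons_cons.1 hch).2.1
        exact ⟨c, h1.resolve_right haA, h2⟩
    | cons c D2 =>
      have h1 := (List.isChain_append_cons_cons.1 hpair).2.1
      have h2 := (List.isChain_append_cons_cons.1 hch).2.1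
      exact ⟨c, h1.resolve_left haA, h2.symm⟩
  exact (E.hN a).2 ⟨haA, key⟩

theorem ea_sub (E : EMD G L A N x p X1 T) : ∀ v ∈ EA G A X1 T, v ∈ A := by
  rintro v (hv | ⟨u, _, hv⟩ | ⟨l, hl, rfl | hv⟩)
  · exact E.sub v hv
  · exact (att_mem hv).1
  · exact hl.1
  · exact (att_mem hv).1

theorem he2_btw {l : V} (h : Btw (EH A T) A (EX G A X1 T) l) :
    ∃ t, Btw (EH A T) A (Lvl G (EO A X1 T) (EH A T) A (ES G A X1 T) t) l := by
  obtain ⟨hlA, P, hP, s, ⟨t, hs⟩, s', ⟨t', hs'⟩, h1, h2⟩ := h
  exact ⟨max t t', hlA, P, hP, s, lvl_mono (le_max_left _ _) hs, s', lvl_mono (le_max_right _ _) hs',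
    h1, h2⟩

/-- the boundary of the closed set -/
theorem ea_step (E : EMD G L A N x p X1 T) {a v : V} (ha : a ∈ EA G A X1 T) (h : G.Adj a v) :
    v ∈ EA G A X1 T ∨ (v ∈ EX G A X1 T ∧ ¬ Btw (EH A T) A (EX G A X1 T) v ∧ (v ∈ A ∨ v ∈ N)) ∨
      (v ∉ T ∧ v ∉ A ∧ v ∈ N) := by
  have haA := ea_sub E a ha
  have hAN : v ∈ A ∨ v ∈ N := by
    by_cases hvA : v ∈ A
    · exact Or.inl hvA
    · exact Or.inr ((E.hN v).2 ⟨hvA, a, haA, h⟩)
  by_cases hvX1 : v ∈ X1
  · exact Or.inl (Or.inl hvX1)
  by_cases hvT : v ∈ T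
  · have hvX : v ∈ EX G A X1 T := by
      rcases ha with ha | ⟨u, hu, ha⟩ | ⟨l, hl, hal⟩
      · exact ⟨0, hvT, a, ha, Or.inl h⟩
      · exact ⟨0, hvT, u, hu, Or.inr ⟨a, ha, h⟩⟩
      · obtain ⟨t, ht⟩ := he2_btw hl
        refine ⟨t + 1, Or.inr ⟨by rw [eh_flatten]; exact hvT, l, ht, ?_⟩⟩
        rcases hal with rfl | hal
        · exact Or.inl h
        · exact Or.inr ⟨a, hal, h⟩
    by_cases hb : Btw (EH A T) A (EX G A X1 T) v
    · exact Or.inl (Or.inr (Or.inr ⟨v, hb, Or.inl rfl⟩))
    · exact Or.inr (Or.inl ⟨hvX, hb, hAN⟩)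
  by_cases hvA : v ∈ A
  · have hvO : v ∈ EO A X1 T := ⟨hvA, hvX1, hvT⟩
    left
    rcases ha with ha | ⟨u, hu, ha⟩ | ⟨l, hl, hal⟩
    · exact Or.inr (Or.inl ⟨a, ha, att_of_adj h hvO⟩)
    · exact Or.inr (Or.inl ⟨u, hu, att_step ha h hvO⟩)
    · rcases hal with rfl | hal
      · exact Or.inr (Or.inr ⟨a, hl, Or.inr (att_of_adj h hvO)⟩)
      · exact Or.inr (Or.inr ⟨l, hl, Or.inr (att_step hal h hvO)⟩)
  · exact Or.inr (Or.inr ⟨hvT, hvA, hAN.resolve_left hvA⟩)

end Pool.Agent.LW
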