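import Pool.Agent.LW.HE2

set_option autoImplicit false

/-!
# (L6) matching the boundary
-/

namespace Pool.Agent.LW

open SimpleGraph Classical

universe w

variable {V : Type w} {G : SimpleGraph V} {L : Finset (Sym2 V)} {k : ℕ}
  {A : Set V} {N : Finset V} {x p : V} {X1 T : List V}

/-- the first element of `C` in `X` -/
theorem he3_first (X : Set V) {C : List V} (h : ∃ u ∈ C, u ∈ X) :
    ∃ M n D, C = M ++ n :: D ∧ n ∈ X ∧ ∀ u ∈ M, u ∉ X := by
  induction C with
  | nil =>
    obtain ⟨u, hu, _⟩ := h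
    exact absurd hu List.not_mem_nil
  | cons c C ih =>
    by_cases hc : c ∈ X
    · exact ⟨[], c, C, rfl, hc, fun u hu => absurd hu List.not_mem_nil⟩
    · obtain ⟨u, hu, huX⟩ := h
      rcases List.mem_cons.1 hu with rfl | hu
      · exact absurd huX hc
      · obtain ⟨M, n, D, h1, h2, h3⟩ := ih ⟨u, hu, huX⟩
        refine ⟨c :: M, n, D, by rw [h1]; rfl, h2, fun w hw => ?_⟩
        rcases List.mem_cons.1 hw with rfl | hw
        exacts [hc, h3 w hw]

/-- the last element of `C` in `X` -/
theorem he3_last (X : Set V) {C : List V} (h : ∃ u ∈ C, u ∈ X) :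
    ∃ D n M, C = D ++ n :: M ∧ n ∈ X ∧ ∀ u ∈ M, u ∉ X := by
  obtain ⟨u, hu, huX⟩ := h
  obtain ⟨M, n, D, h1, h2, h3⟩ := he3_first X (C := C.reverse) ⟨u, List.mem_reverse.2 hu, huX⟩
  refine ⟨D.reverse, n, M.reverse, ?_, h2, fun w hw => h3 w (List.mem_reverse.1 hw)⟩
  have h4 := congrArg List.reverse h1
  rw [List.reverse_reverse] at h4
  rw [h4]
  simp

theorem he3_first_unique (X : Set V) {M M' C C' : List V} {v v' : V}
    (h : M ++ v :: C = M' ++ v' :: C') (hv : v ∈ X) (hv' : v' ∈ X) (hM : ∀ u ∈ M, u ∉ X)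
    (hM' : ∀ u ∈ M', u ∉ X) : v = v' := by
  induction M generalizing M' with
  | nil =>
    cases M' with
    | nil =>
      simp only [List.nil_append, List.cons.injEq] at h
      exact h.1
    | cons m M' =>
      simp only [List.nil_append, List.cons_append, List.cons.injEq] at h
      exact absurd (h.1 ▸ hv) (hM' m (by simp))
  | cons m M ih =>
    cases M' with
    | nil =>
      simp only [List.nil_append, List.cons_append, List.cons.injEq] at h
      exact absurd (h.1.symm ▸ hv') (hM m (by simp))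
    | cons m' M' =>
      simp only [List.cons_append, List.cons.injEq] at h
      exact ih h.2 (fun u hu => hM u (List.mem_cons_of_mem _ hu))
        (fun u hu => hM' u (List.mem_cons_of_mem _ hu))

theorem he3_last_unique (X : Set V) {M M' C C' : List V} {v v' : V}
    (h : C ++ v :: M = C' ++ v' :: M') (hv : v ∈ X) (hv' : v' ∈ X) (hM : ∀ u ∈ M, u ∉ X)
    (hM' : ∀ u ∈ M', u ∉ X) : v = v' := by
  have h1 := congrArg List.reverse h
  simp only [List.reverse_append, List.reverse_cons, List.append_assoc, List.singleton_append] at h1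
  exact he3_first_unique X h1 hv hv' (fun u hu => hM u (List.mem_reverse.1 hu))
    (fun u hu => hM' u (List.mem_reverse.1 hu))

theorem he3_piece_nodup (E : EMD G L A N x p X1 T) {P : List V} (hP : P ∈ EH A T) : P.Nodup :=
  (he2_nodup E).sublist (he2_infix hP).sublist

theorem he3_mem_T {P : List V} (hP : P ∈ EH A T) {v : V} (hv : v ∈ P) : v ∈ T :=
  (he2_infix hP).subset hv

theorem he3_same (E : EMD G L A N x p X1 T) {P P' : List V} (hP : P ∈ EH A T) (hP' : P' ∈ EH A T)
    {n : V} (hn : n ∈ P) (hn' : n ∈ P') : P = P' := by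
  have hnd : (EH A T).flatten.Nodup := by
    rw [eh_flatten]
    exact he2_nodup E
  obtain ⟨Pre, Post, hE⟩ := List.append_of_mem hP
  rw [hE] at hnd hP'
  simp only [List.flatten_append, List.flatten_cons] at hnd
  rcases List.mem_append.1 hP' with h | h
  · exact absurd (List.mem_append_left _ hn : n ∈ P ++ Post.flatten)
      ((List.nodup_append'.1 hnd).2.2 (List.mem_flatten.2 ⟨P', h, hn'⟩))
  · rcases List.mem_cons.1 h with h | h
    · exact h.symm
    · exact absurd (List.mem_flatten.2 ⟨P', h, hn'⟩)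
        ((List.nodup_append'.1 (List.nodup_append'.1 hnd).2.1).2.2 hn)

theorem he3_mem_T_of_EX {v : V} (hv : v ∈ EX G A X1 T) : v ∈ T := by
  obtain ⟨t, ht⟩ := hv
  have h := lvl_host (fun w hw => by rw [eh_flatten]; exact hw.1) t ht
  rwa [eh_flatten] at h

theorem mt_ex (E : EMD G L A N x p X1 T) {v : V} (hv : v ∈ EX G A X1 T)
    (hb : ¬ Btw (EH A T) A (EX G A X1 T) v) (hAN : v ∈ A ∨ v ∈ N) : ∃ n ∈ N, Mt G A N X1 T v n := by
  by_cases hvA : v ∈ A
  · have hvT := he3_mem_T_of_EX hv
    rw [← eh_flatten A T, List.mem_flatten] at hvT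
    obtain ⟨P, hP, hvP⟩ := hvT
    obtain ⟨C1, C2, rfl⟩ := List.append_of_mem hvP
    obtain ⟨h1, h2⟩ := eh_in E (P := []) hP hvA
    have hnd := he3_piece_nodup E hP
    -- a vertex outside `A` before `v`
    have k1 : ∃ u ∈ C1, u ∈ Aᶜ := by
      cases C1 with
      | nil => exact absurd rfl h1
      | cons c C1 =>
        refine ⟨c, by simp, fun hc => ?_⟩
        have h3 := (eh_in E (P := []) (C1 := []) (a := c) (C2 := C1 ++ v :: C2) hP hc).1
        exact h3 rfl
    have k2 : ∃ u ∈ C2, u ∈ Aᶜ := by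
      rcases List.eq_nil_or_concat C2 with h | ⟨C2', c, h⟩
      · exact absurd h h2
      · rw [List.concat_eq_append] at h
        refine ⟨c, by rw [h]; simp, fun hc => ?_⟩
        have h4 : (C1 ++ v :: C2') ++ c :: [] ∈ EH A T := by
          rw [h] at hP
          simpa using hP
        exact (eh_in E (P := []) h4 hc).2 rfl
    obtain ⟨D1, n, M, e1, hnA, hM⟩ := he3_last Aᶜ k1
    obtain ⟨M', n', D2, e2, hnA', hM'⟩ := he3_first Aᶜ k2
    have hnN : n ∈ N := by
      refine eh_N E hP (a := n) (b := v) (by rw [e1]; simp) hvP ?_ hnA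
      rintro rfl
      exact hnA hvA
    have hnN' : n' ∈ N := by
      refine eh_N E hP (a := n') (b := v) (by rw [e2]; simp) hvP ?_ hnA'
      rintro rfl
      exact hnA' hvA
    by_cases hex : ∃ u ∈ C1, u ∈ EX G A X1 T
    · refine ⟨n', hnN', Or.inr (Or.inr ⟨hvA, hnA', hnN', C1, M', D2, ?_, ?_, ?_, hex⟩)⟩
      · rw [← e2]; exact hP
      · intro u hu
        by_contra h
        exact hM' u hu h
      · intro u hu huX
        obtain ⟨u0, hu0, hu0X⟩ := hex
        apply hb
        refine ⟨hvA, _, hP, u0, hu0X, u, huX, Bf.of_left hu0, Bf.of_right ?_⟩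
        rw [e2]; exact hu
    · refine ⟨n, hnN, Or.inr (Or.inl ⟨hvA, hnA, hnN, D1, M, C2, ?_, ?_, ?_⟩)⟩
      · have h5 : D1 ++ n :: (M ++ v :: C2) = C1 ++ v :: C2 := by rw [e1]; simp
        rw [h5]; exact hP
      · intro u hu
        by_contra h
        exact hM u hu h
      · intro u hu huX
        exact hex ⟨u, by rw [e1]; exact hu, huX⟩
  · exact ⟨v, hAN.resolve_left hvA, Or.inl ⟨hvA, rfl, hAN.resolve_left hvA⟩⟩

theorem mt_inj (E : EMD G L A N x p X1 T) {v v' n : V} (hv : v ∈ EX G A X1 T ∨ v ∉ T)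
    (hv' : v' ∈ EX G A X1 T ∨ v' ∉ T) (h : Mt G A N X1 T v n) (h' : Mt G A N X1 T v' n) :
    v = v' := by
  rcases h with ⟨_, h1, _⟩ | ⟨hvA, hnA, _, C1, M, C2, hP, hM, hX⟩ |
    ⟨hvA, hnA, _, C1, M, C2, hP, hM, hX, hX2⟩
  · rcases h' with ⟨_, h1', _⟩ | ⟨_, _, _, C1', M', C2', hP', _, hX'⟩ |
      ⟨_, _, _, C1', M', C2', hP', _, hX', _⟩
    · rw [← h1, h1']
    · subst h1
      have h3 := hv.resolve_right fun h => h (he3_mem_T hP' (by simp))
      exact absurd h3 (hX' n (by simp))
    · subst h1
      have h3 := hv.resolve_right fun h => h (he3_mem_T hP' (by simp))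
      exact absurd h3 (hX' n (by simp))
  · have hvX := hv.resolve_right fun h => h (he3_mem_T hP (by simp))
    rcases h' with ⟨_, h1', _⟩ | ⟨_, _, _, C1', M', C2', hP', _, hX'⟩ |
      ⟨_, _, _, C1', M', C2', hP', _, hX', _⟩
    · subst h1'
      have h3 := hv'.resolve_right fun h => h (he3_mem_T hP (by simp))
      exact absurd h3 (hX n (by simp))
    · have hvX' := hv'.resolve_right fun h => h (he3_mem_T hP' (by simp))
      have h4 := he3_same E hP hP' (n := n) (by simp) (by simp)
      have h5 : (C1 ++ n :: M) ++ v :: C2 = (C1' ++ n :: M') ++ v' :: C2' := by simpa using h4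
      exact he3_first_unique (EX G A X1 T) h5 hvX hvX' hX hX'
    · have h4 := he3_same E hP hP' (n := n) (by simp) (by simp)
      have h5 : C1 ++ n :: (M ++ v :: C2) = (C1' ++ v' :: M') ++ n :: C2' := by simpa using h4
      have hnd := he3_piece_nodup E hP
      have n1 : n ∉ C1 := fun hc => (List.nodup_append'.1 hnd).2.2 hc (by simp)
      have n2 : n ∉ C1' ++ v' :: M' := by
        intro hc
        rw [h5] at hnd
        exact (List.nodup_append'.1 hnd).2.2 hc (by simp)
      have h6 := (split_unique h5 n1 n2).2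
      exact absurd hvX (hX' v (by
        have : v ∈ C2' := by rw [← h6]; simp
        simp [this]))
  · have hvX := hv.resolve_right fun h => h (he3_mem_T hP (by simp))
    rcases h' with ⟨_, h1', _⟩ | ⟨_, _, _, C1', M', C2', hP', _, hX'⟩ |
      ⟨_, _, _, C1', M', C2', hP', _, hX', _⟩
    · subst h1'
      have h3 := hv'.resolve_right fun h => h (he3_mem_T hP (by simp))
      exact absurd h3 (hX n (by simp))
    · have hvX' := hv'.resolve_right fun h => h (he3_mem_T hP' (by simp))
      have h4 := he3_same E hP' hP (n := n) (by simp) (by simp)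
      have h5 : C1' ++ n :: (M' ++ v' :: C2') = (C1 ++ v :: M) ++ n :: C2 := by simpa using h4
      have hnd := he3_piece_nodup E hP'
      have n1 : n ∉ C1' := fun hc => (List.nodup_append'.1 hnd).2.2 hc (by simp)
      have n2 : n ∉ C1 ++ v :: M := by
        intro hc
        rw [h5] at hnd
        exact (List.nodup_append'.1 hnd).2.2 hc (by simp)
      have h6 := (split_unique h5 n1 n2).2
      exact absurd hvX' (hX v' (by
        have : v' ∈ C2 := by rw [← h6]; simp
        simp [this]))
    · have hvX' := hv'.resolve_right fun h => h (he3_mem_T hP' (by simp))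
      have h4 := he3_same E hP hP' (n := n) (by simp) (by simp)
      exact he3_last_unique (EX G A X1 T) h4 hvX hvX' hX hX'

end Pool.Agent.LW
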