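import Pool.Agent.LW.HE3

set_option autoImplicit false

/-!
# (L6) counting
-/

namespace Pool.Agent.LW

open SimpleGraph Classical

universe w

variable {V : Type w} {G : SimpleGraph V} {L : Finset (Sym2 V)} {k : ℕ}
  {A : Set V} {N : Finset V} {x p : V} {X1 T : List V}

/-- nothing comes after the last vertex -/
theorem he4_last {T C D : List V} {p : V} (hl : T.getLast? = some p) (hn : T.Nodup)
    (hT : T = C ++ p :: D) : D = [] := by
  by_contra hD
  rw [hT] at hl hn
  rw [List.getLast?_append_of_ne_nil _ (by simp)] at hl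
  have h1 : (p :: D).getLast? = D.getLast? := by
    have : p :: D = [p] ++ D := rfl
    rw [this, List.getLast?_append_of_ne_nil _ hD]
  rw [h1] at hl
  exact (List.nodup_cons.1 (List.nodup_append'.1 hn).2.1).1 (List.mem_of_getLast? hl)

theorem he4_nd (E : EMD G L A N x p X1 T) : T.Nodup := (List.nodup_append'.1 E.nd).2.1

theorem he4_lt (E : EMD G L A N x p X1 T) : T.getLast? = some p := by
  have := E.ch.lt
  rwa [List.getLast?_append_of_ne_nil _ E.hT] at this

/-- the counting: `p` is matched -/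
theorem mt_p [Fintype V] (S : Bs G L k) (E : EMD G L A N x p X1 T) (hcard : N.card = k)
    (hz : ∃ z, z ∉ A ∧ z ∉ N) : ∃ v ∈ EX G A X1 T, Mt G A N X1 T v p := by
  obtain ⟨z, hzA, hzN⟩ := hz
  obtain ⟨a, ha⟩ := List.exists_mem_of_ne_nil X1 E.ne
  have haE : a ∈ EA G A X1 T := Or.inl ha
  let W : Finset V := fs {v | v ∉ EA G A X1 T ∧ ∃ u ∈ EA G A X1 T, G.Adj u v}
  have hW : ∀ v, v ∈ W ↔ v ∉ EA G A X1 T ∧ ∃ u ∈ EA G A X1 T, G.Adj u v := fun v => mem_fs
  have hW2 : ∀ v ∈ W, (v ∈ EX G A X1 T ∧ ¬ Btw (EH A T) A (EX G A X1 T) v ∧ (v ∈ A ∨ v ∈ N)) ∨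
      (v ∉ T ∧ v ∉ A ∧ v ∈ N) := by
    intro v hv
    obtain ⟨h1, u, hu, h2⟩ := (hW v).1 hv
    rcases ea_step E hu h2 with h | h
    · exact absurd h h1
    · exact h
  have hW3 : ∀ v ∈ W, v ∈ EX G A X1 T ∨ v ∉ T := fun v hv =>
    (hW2 v hv).imp (fun h => h.1) (fun h => h.1)
  have hk : k ≤ W.card := by
    refine sep_card S haE (fun h => ((hW a).1 h).1 haE) ?_ (z := z)
      (fun h => hzA (ea_sub E z h)) ?_
    · intro u hu v huv
      by_cases hv : v ∈ EA G A X1 T
      · exact Or.inl hv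
      · exact Or.inr ((hW v).2 ⟨hv, u, hu, huv⟩)
    · intro h
      rcases hW2 z h with h | h
      · rcases h.2.2 with h | h
        · exact hzA h
        · exact hzN h
      · exact hzN h.2.2
  have hex : ∀ v ∈ W, ∃ n ∈ N, Mt G A N X1 T v n := by
    intro v hv
    rcases hW2 v hv with h | h
    · exact mt_ex E h.1 h.2.1 h.2.2
    · exact ⟨v, h.2.2, Or.inl ⟨h.2.1, rfl, h.2.2⟩⟩
  choose! f hfN hf using hex
  have hinj : Set.InjOn f (W : Set V) := by
    intro v hv v' hv' h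
    have h1 := hf v hv
    rw [h] at h1
    exact mt_inj E (hW3 v hv) (hW3 v' hv') h1 (hf v' hv')
  have himg : W.image f = N := by
    refine Finset.eq_of_subset_of_card_le ?_ ?_
    · intro n hn
      obtain ⟨v, hv, rfl⟩ := Finset.mem_image.1 hn
      exact hfN v hv
    · rw [Finset.card_image_of_injOn hinj, hcard]
      exact hk
  have hp : p ∈ W.image f := by rw [himg]; exact E.pN
  obtain ⟨v, hv, hvp⟩ := Finset.mem_image.1 hp
  have hM : Mt G A N X1 T v p := by
    have := hf v hv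
    rwa [hvp] at this
  rcases hW2 v hv with h | h
  · exact ⟨v, h.1, hM⟩
  · exfalso
    rcases hM with hM | hM | hM
    · rw [← hM.2.1] at h
      exact h.1 (List.mem_of_getLast? (he4_lt E))
    · exact h.2.1 hM.1
    · exact h.2.1 hM.1

/-- a host path as a part of `T` -/
theorem he4_part {P : List V} (hP : P ∈ EH A T) : ∃ C D, T = C ++ (P ++ D) := by
  obtain ⟨E1, E2, hE⟩ := List.append_of_mem hP
  have h1 := eh_flatten A T
  rw [hE] at h1
  exact ⟨E1.flatten, E2.flatten, by rw [← h1]; simp⟩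

/-- the last vertex of the closure on `T` -/
theorem em_last (E : EMD G L A N x p X1 T) {v : V} (hv : v ∈ EX G A X1 T)
    (h : Mt G A N X1 T v p) : ∃ T1 T2, T = T1 ++ v :: T2 ∧ (∀ u ∈ T2, u ∉ EX G A X1 T) ∧
      (v :: T2).IsChain (fun a b => a ∈ A ∨ b ∈ A) := by
  have hl := he4_lt E
  have hn := he4_nd E
  rcases h with ⟨h1, h2, h3⟩ | ⟨h1, h2, h3, C1, M, C2, h4, h5, h6⟩ |
    ⟨h1, h2, h3, C1, M, C2, h4, h5, h6, h7⟩
  · subst h2
    obtain ⟨T1, hT1⟩ := List.getLast?_eq_some_iff.1 hl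
    exact ⟨T1, [], hT1, by simp, List.isChain_singleton _⟩
  · exfalso
    obtain ⟨C, D, hT⟩ := he4_part h4
    have h8 : T = (C ++ C1) ++ p :: (M ++ v :: (C2 ++ D)) := by rw [hT]; simp
    have h9 := he4_last hl hn h8
    simp at h9
  · obtain ⟨C, D, hT⟩ := he4_part h4
    have h8 : T = (C ++ (C1 ++ v :: M)) ++ p :: (C2 ++ D) := by rw [hT]; simp
    have h9 := he4_last hl hn h8
    obtain ⟨hC2, hD⟩ := List.append_eq_nil_iff.1 h9
    subst hC2
    subst hD
    refine ⟨C ++ C1, M ++ [p], by rw [hT]; simp, h6, ?_⟩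
    have h10 := eh_pair h4
    exact (List.isChain_append.1 h10).2.1

/-- hull edges lie before the last vertex of the closure -/
theorem em_hull (E : EMD G L A N x p X1 T) {q : V} {T1 T2 : List V} (hT : T = T1 ++ q :: T2)
    (h2 : ∀ u ∈ T2, u ∉ EX G A X1 T) {t : ℕ} {a b : V}
    (h : HE (EH A T) (Lvl G (EO A X1 T) (EH A T) A (ES G A X1 T) t) a b) : EL (T1 ++ [q]) a b := by
  have hn := he4_nd E
  obtain ⟨P, hP, s, hs, s', hs', A', M, D, hPe, hM1, hM2, hab⟩ := h
  obtain ⟨C, C', hC⟩ := he4_part hP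
  obtain ⟨M', rfl⟩ := List.getLast?_eq_some_iff.1 hM2
  have h3 : T = (C ++ (A' ++ M')) ++ s' :: (D ++ C') := by rw [hC, hPe]; simp
  have h4 : s' ∈ T := by rw [h3]; simp
  have h5 : s' ∉ T2 := fun h => h2 s' h ⟨t, hs'⟩
  have h6 : s' ∈ T1 ++ [q] := by
    rw [hT] at h4
    rcases List.mem_append.1 h4 with h | h
    · exact List.mem_append_left _ h
    · rcases List.mem_cons.1 h with h | h
      · rw [h]; simp
      · exact absurd h h5
  obtain ⟨X, Y, hXY⟩ := List.append_of_mem h6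
  have h7 : T = X ++ s' :: (Y ++ T2) := by
    rw [hT]
    have : T1 ++ q :: T2 = (T1 ++ [q]) ++ T2 := by simp
    rw [this, hXY]
    simp
  have h8 : (C ++ (A' ++ M')) ++ s' :: (D ++ C') = X ++ s' :: (Y ++ T2) := by rw [← h3, ← h7]
  have h9 : s' ∉ C ++ (A' ++ M') := by
    intro h
    rw [h3] at hn
    exact (List.nodup_append'.1 hn).2.2 h (by simp)
  have h10 : s' ∉ X := by
    intro h
    rw [h7] at hn
    exact (List.nodup_append'.1 hn).2.2 h (by simp)
  have h11 := (split_unique h8 h9 h10).1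
  have h12 : (M' ++ [s']) <:+: T1 ++ [q] := by
    rw [hXY, ← h11]
    exact ⟨C ++ A', Y, by simp⟩
  exact Or.inl (hab.trans h12)

end Pool.Agent.LW
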