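import Pool.Agent.LW.HE4

set_option autoImplicit false

/-!
# (L6) closing
-/

namespace Pool.Agent.LW

open SimpleGraph Classical

universe w

variable {V : Type w} {G : SimpleGraph V} {L : Finset (Sym2 V)} {k : ℕ}
  {A : Set V} {N : Finset V} {x p : V} {X1 T : List V}

private theorem he5_len {V : Type w} {G : SimpleGraph V} {L : Finset (Sym2 V)} {k : ℕ}
    (S : Bs G L k) {W : List V} (hW : ∀ c d, s(c, d) ∈ L → EL W c d) : 3 ≤ W.length := by
  have h1 : 1 < L.card := by rw [S.card]; exact S.k2
  obtain ⟨e, he, f, hf, hef⟩ := Finset.one_lt_card.1 h1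
  induction e using Sym2.ind with
  | _ c d =>
    induction f using Sym2.ind with
    | _ c' d' =>
      have hcd : c ≠ d := by
        have h2 : G.Adj c d := (SimpleGraph.mem_edgeSet G).1 (S.sub _ he)
        exact h2.ne
      have hc' := S.ind _ hf _ he hef.symm c' (Sym2.mem_mk_left c' d')
      rw [Sym2.mem_iff, not_or] at hc'
      have hn : [c, d, c'].Nodup := by
        simp only [List.nodup_cons, List.mem_cons, List.not_mem_nil, or_false, not_or,
          not_false_eq_true, List.nodup_nil, and_true]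
        exact ⟨⟨hcd, fun h => hc'.1 h.symm⟩, fun h => hc'.2 h.symm⟩
      have hs : [c, d, c'] ⊆ W := by
        intro v hv
        simp only [List.mem_cons, List.not_mem_nil, or_false] at hv
        rcases hv with rfl | rfl | rfl
        · exact (hW _ _ he).memL
        · exact (hW _ _ he).memR
        · exact (hW _ _ hf).memL
      exact (List.subperm_of_subset hn hs).length_le

/-- the closing of (L6) -/
theorem em_close (S : Bs G L k) (E : EMD G L A N x p X1 T) {q : V} {T1 T2 : List V}
    (hT : T = T1 ++ q :: T2) (hq : q ∈ EX G A X1 T) (h2 : ∀ u ∈ T2, u ∉ EX G A X1 T)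
    (h3 : (q :: T2).IsChain (fun a b => a ∈ A ∨ b ∈ A)) : False := by
  have hfl : (EH A T).flatten = T := eh_flatten A T
  obtain ⟨hX1n, hTn, hdis⟩ := List.nodup_append'.1 E.nd
  obtain ⟨hXch, hTch, hjn⟩ := List.isChain_append.1 E.ch.ch
  have hch : ∀ P ∈ EH A T, P.IsChain G.Adj := by
    intro P hP
    have h1 : P <:+: T := by
      have := List.infix_of_mem_flatten hP
      rwa [hfl] at this
    exact chain_of_inf hTch h1
  have hPT : ∀ P ∈ EH A T, ∀ v ∈ P, v ∈ T := by
    intro P hP v hv
    rw [← hfl]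
    exact List.mem_flatten.2 ⟨P, hP, hv⟩
  obtain ⟨y', T', hyT⟩ : ∃ y' T', T = y' :: T' := List.exists_cons_of_ne_nil E.hT
  obtain ⟨X', z', hzX⟩ : ∃ X' z', X1 = X' ++ [z'] := ⟨_, _, (List.dropLast_append_getLast E.ne).symm⟩
  have hzy : G.Adj z' y' := by
    refine hjn z' ?_ y' ?_
    · rw [hzX]; simp
    · rw [hyT]; simp
  have hTc : Ch G y' p T := by
    refine ⟨by rw [hyT]; rfl, ?_, hTch⟩
    have := E.ch.lt
    rwa [List.getLast?_append_of_ne_nil _ E.hT] at this
  have hF0 : Ch G y' q (T1 ++ [q]) := by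
    rw [hT] at hTc
    exact hTc.left
  have hxX : x ∈ X1 := by
    have h1 := E.ch.hd
    rw [List.head?_append_of_ne_nil _ E.ne] at h1
    exact List.mem_of_head? h1
  have hxT : x ∉ T := fun h => hdis hxX h
  have hterL : ∀ c d, s(c, d) ∈ L → c ∈ T → c ∉ A := by
    intro c d hcd hc hcA
    have h1 := E.ter _ hcd c (Sym2.mem_mk_left c d) hcA
    rw [h1] at hc
    exact hxT hc
  have hterR : ∀ c d, s(c, d) ∈ L → d ∈ T → d ∉ A := by
    intro c d hcd hd hdA
    have h1 := E.ter _ hcd d (Sym2.mem_mk_right c d) hdA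
    rw [h1] at hd
    exact hxT hd
  have hsub0 : ∀ v ∈ T1 ++ [q], v ∈ T := by
    intro v hv
    rw [hT]
    simp only [List.mem_append, List.mem_cons, List.not_mem_nil, or_false] at hv ⊢
    tauto
  have hnoHE : ∀ c d, s(c, d) ∈ L → ∀ s,
      ¬ HE (EH A T) (Lvl G (EO A X1 T) (EH A T) A (ES G A X1 T) s) c d := by
    rintro c d hcd s ⟨P, hP, s1, -, s2, -, A1, M, D, hPe, -, -, hM⟩
    have h4 : [c, d] <:+: P := by
      refine hM.trans ?_
      rw [hPe]
      exact ⟨A1, D, by simp⟩
    have h5 := chain_of_inf (eh_pair hP) h4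
    simp only [List.isChain_cons_cons, List.isChain_singleton, and_true] at h5
    rcases h5 with h5 | h5
    · exact hterL c d hcd (hPT P hP c (h4.subset (by simp))) h5
    · exact hterR c d hcd (hPT P hP d (h4.subset (by simp))) h5
  obtain ⟨t, hqt⟩ := hq
  obtain ⟨q0, hq0, F', hF', hF'n, hF'm, hF'e⟩ := hopL2 (G := G) (H := G) (O := EO A X1 T)
    (Hs := EH A T) (Ab := A) (S0 := ES G A X1 T)
    (Src := {o | ∃ u ∈ X1, o ∈ Att G (EO A X1 T) u}) (N := ∅) (w := q) (z := y')
    (F := (T1 ++ [q]).reverse) le_rfl (by rw [hfl]; exact hTn) hch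
    (by
      intro v hv hvO
      rw [hfl] at hv
      exact hvO.2.2 hv)
    (by
      intro v hv
      rw [hfl]
      exact hv.1)
    (by
      rintro w hw ⟨v, ⟨u, hu, hv⟩, hvw⟩
      rw [hfl] at hw
      exact ⟨hw, u, hu, Con.of_att hv hvw⟩)
    t
    (by
      intro s _ l _ o _ ho
      exact ho)
    hqt hF0.reverse
    (by
      rw [List.nodup_reverse]
      rw [hT] at hTn
      have h5 : (T1 ++ q :: T2) = (T1 ++ [q]) ++ T2 := by simp
      rw [h5] at hTn
      exact (List.nodup_append'.1 hTn).1)
    (by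
      intro s _ a b hab
      exact (em_hull E hT h2 hab).reverse)
    (by
      intro v hv hvO
      rw [List.mem_reverse] at hv
      exact absurd (hsub0 v hv) hvO.2.2)
  obtain ⟨hq0T, v, hv, hcon⟩ := hq0
  obtain ⟨C1, C2, hX⟩ := List.append_of_mem hv
  obtain ⟨K, hK, hKn, hKc⟩ := link hcon
  -- the reversed part of `X1`
  have hzv : Ch G z' v (C2.reverse ++ [v]) := by
    have h4 : Ch G v z' (v :: C2) := by
      refine ⟨rfl, ?_, ?_⟩
      · have h5 : X1.getLast? = some z' := by rw [hzX]; simp
        rw [hX, List.getLast?_append_of_ne_nil _ (by simp)] at h5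
        exact h5
      · rw [hX] at hXch
        exact (List.isChain_append.1 hXch).2.1
    have h5 := h4.reverse
    rwa [List.reverse_cons] at h5
  have hcl : Ch G q0 q0 ((F' ++ (C2.reverse ++ v :: K)) ++ [q0]) := by
    have h4 : Ch G z' q0 (C2.reverse ++ v :: (K ++ [q0])) := hzv.glue hKc
    have h5 := hF'.append h4 hzy.symm
    simpa using h5
  have hWne : F' ++ (C2.reverse ++ v :: K) ≠ [] := by simp
  obtain ⟨W', b, hW⟩ : ∃ W' b, F' ++ (C2.reverse ++ v :: K) = W' ++ [b] :=
    ⟨_, _, (List.dropLast_append_getLast hWne).symm⟩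
  have hcl2 : Ch G q0 q0 (W' ++ b :: [q0]) := by
    rw [hW] at hcl
    simpa using hcl
  have hWc : Ch G q0 b (F' ++ (C2.reverse ++ v :: K)) := by
    rw [hW]
    exact hcl2.left
  have hbq : G.Adj b q0 := hcl2.adj
  have hKO : ∀ u ∈ K, u ∈ EO A X1 T := fun u hu => att_mem (hK u hu)
  have hX1C : ∀ u ∈ v :: C2, u ∈ X1 := by
    intro u hu
    rw [hX]
    exact List.mem_append_right _ hu
  have hWn : (F' ++ (C2.reverse ++ v :: K)).Nodup := by
    have h4 : C2.reverse ++ v :: K = (v :: C2).reverse ++ K := by simp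
    rw [h4]
    refine List.nodup_append'.2 ⟨hF'n, List.nodup_append'.2 ⟨?_, hKn, ?_⟩, ?_⟩
    · rw [List.nodup_reverse]
      rw [hX] at hX1n
      exact (List.nodup_append'.1 hX1n).2.1
    · intro u hu hu'
      rw [List.mem_reverse] at hu
      exact (hKO u hu').2.1 (hX1C u hu)
    · intro u hu hu'
      rcases hF'm u hu with h5 | ⟨h5, -, h6, -⟩
      · have h7 : u ∈ T := hsub0 u (List.mem_reverse.1 h5)
        rcases List.mem_append.1 hu' with h8 | h8
        · exact hdis (hX1C u (List.mem_reverse.1 h8)) h7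
        · exact (hKO u h8).2.2 h7
      · rcases List.mem_append.1 hu' with h8 | h8
        · exact h5.2.1 (hX1C u (List.mem_reverse.1 h8))
        · exact h6 ⟨v, hv, hK u h8⟩
  have hLW : ∀ c d, s(c, d) ∈ L → EL (F' ++ (C2.reverse ++ v :: K)) c d := by
    intro c d hcd
    have hadj : G.Adj c d := (SimpleGraph.mem_edgeSet G).1 (S.sub _ hcd)
    have h4 := E.edge c d hcd
    have h5 : X1 ++ T = X' ++ z' :: T := by rw [hzX]; simp
    rw [h5] at h4
    rcases h4.split with h6 | h6
    · rw [← hzX] at h6
      have h7 := E.ter _ hcd c (Sym2.mem_mk_left c d) (E.sub c h6.memL)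
      have h8 := E.ter _ hcd d (Sym2.mem_mk_right c d) (E.sub d h6.memR)
      exact absurd (h7.trans h8.symm) hadj.ne
    · have h7 : z' :: T = [z'] ++ y' :: T' := by rw [hyT]; rfl
      rw [h7] at h6
      rcases h6.split with h8 | h8
      · -- the junction
        obtain ⟨F1, hF1⟩ : ∃ F1, F' = F1 ++ [y'] := List.getLast?_eq_some_iff.1 hF'.lt
        obtain ⟨R1, hR1⟩ : ∃ R1, C2.reverse ++ [v] = z' :: R1 := List.head?_eq_some_iff.1 hzv.hd
        have h9 : F' ++ (C2.reverse ++ v :: K) = F1 ++ y' :: z' :: (R1 ++ K) := by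
          have h10 : C2.reverse ++ v :: K = (C2.reverse ++ [v]) ++ K := by simp
          rw [h10, hR1, hF1]
          simp
        rw [h9]
        have h11 : EL [z', y'] c d := h8
        have h12 : EL (F1 ++ y' :: z' :: (R1 ++ K)) y' z' := EL.intro
        have h13 : (c = z' ∧ d = y') ∨ (c = y' ∧ d = z') := by
          rcases h11 with h11 | h11
          · have h14 := h11.eq_of_length rfl
            simp only [List.cons.injEq, and_true] at h14
            exact Or.inl h14
          · have h14 := h11.eq_of_length rfl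
            simp only [List.cons.injEq, and_true] at h14
            exact Or.inr ⟨h14.2, h14.1⟩
        rcases h13 with ⟨rfl, rfl⟩ | ⟨rfl, rfl⟩
        · exact h12.symm
        · exact h12
      · rw [← hyT, hT] at h8
        rcases h8.split with h9 | h9
        · have h10 : EL F' c d := hF'e c d h9.reverse (fun s _ => hnoHE c d hcd s)
            (fun s _ => hnoHE d c (by rw [Sym2.eq_swap]; exact hcd) s)
          exact h10.mono (List.prefix_append _ _).isInfix
        · exfalso
          have hsub1 : ∀ u ∈ q :: T2, u ∈ T := by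
            intro u hu
            rw [hT]
            exact List.mem_append_right _ hu
          have hc := hterL c d hcd (hsub1 c h9.memL)
          have hd := hterR c d hcd (hsub1 d h9.memR)
          rcases h9 with h9 | h9
          · have h10 := chain_of_inf h3 h9
            simp only [List.isChain_cons_cons, List.isChain_singleton, and_true] at h10
            exact h10.elim hc hd
          · have h10 := chain_of_inf h3 h9
            simp only [List.isChain_cons_cons, List.isChain_singleton, and_true] at h10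
            exact h10.elim hd hc
  have hLne : L.Nonempty := by
    rw [← Finset.card_pos, S.card]
    have := S.k2
    omega
  obtain ⟨Ps, hPs⟩ := full_of_closed S.ind hLne hWc hWn hbq (he5_len S hLW)
    (fun c d hcd => Or.inl (hLW c d hcd))
  exact S.no Ps hPs

end Pool.Agent.LW
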