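import Pool.Agent.LW.HE1
import Pool.Agent.LW.HE5

set_option autoImplicit false

/-!
# (L6)
-/

namespace Pool.Agent.LW

open SimpleGraph Classical

universe w

variable {V : Type w} {G : SimpleGraph V} {L : Finset (Sym2 V)} {k : ℕ}
  {A : Set V} {N : Finset V} {x p : V} {X1 T : List V}

/-- (L6) -/
theorem em_lemma [Fintype V] (S : Bs G L k)
    (hN : ∀ v, v ∈ N ↔ v ∉ A ∧ ∃ a ∈ A, G.Adj a v) (hcard : N.card = k)
    (hz : ∃ z, z ∉ A ∧ z ∉ N) (hx : x ∈ A) (ter : ∀ e ∈ L, ∀ v ∈ e, v ∈ A → v = x)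
    (hp : p ∈ N) : G.Adj x p := by
  by_contra hxp
  obtain ⟨X1, T, E⟩ := em_path S hN hx ter hp hxp
  obtain ⟨v, hv, h⟩ := mt_p S E hcard hz
  obtain ⟨T1, T2, hT, h2, h3⟩ := em_last E hv h
  exact em_close S E hT hv h2 h3

end Pool.Agent.LW
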