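import Pool.Agent.LW.Lists

set_option autoImplicit false

/-!
# (L5) abstract counting
-/

namespace Pool.Agent.LW

open SimpleGraph Classical

universe w

/-- the abstract counting of (L5) -/
theorem count_abs {ι : Type} [Fintype ι] {β : Type w} (B : Finset β) (f : β → ι → ℕ) (k : ℕ)
    (hcard : Fintype.card ι + 1 = k) (hB : 2 ≤ B.card) (h2 : ∀ g ∈ B, ∀ i, f g i ≤ 2)
    (hex : ∀ g ∈ B, ∀ g' ∈ B, g ≠ g' → ∀ i, f g i = 2 → f g' i = 0)
    (hlow : ∀ g ∈ B, k + 1 ≤ B.card + ∑ i, f g i) (hdbl : ∀ g ∈ B, ∃ i, f g i = 2) :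
    (∀ i, (∃ g ∈ B, f g i = 2) ∨ ∀ g ∈ B, f g i = 1) ∧
    (∀ g ∈ B, B.card + ∑ i, f g i = k + 1) ∧
    (3 ≤ B.card → ∀ g ∈ B, (Finset.univ.filter (fun i => f g i = 2)).card = 1) ∧
    (∀ g ∈ B, ∀ g' ∈ B, (Finset.univ.filter (fun i => f g i = 2)).card =
      (Finset.univ.filter (fun i => f g' i = 2)).card) := by
  obtain ⟨c, hc⟩ : ∃ c, B.card = c + 2 := ⟨B.card - 2, by omega⟩
  -- columns with a double
  set I : Finset ι := B.biUnion (fun g => Finset.univ.filter (fun i => f g i = 2)) with hI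
  have memI : ∀ i, i ∈ I ↔ ∃ g ∈ B, f g i = 2 := by
    intro i
    simp [hI]
  have hIcard : I.card = ∑ g ∈ B, (Finset.univ.filter (fun i => f g i = 2)).card := by
    refine Finset.card_biUnion ?_
    intro g hg g' hg' hne
    rw [Function.onFun, Finset.disjoint_left]
    intro i hi hi'
    rw [Finset.mem_filter] at hi hi'
    have := hex g hg g' hg' hne i hi.2
    omega
  have hEpos : ∀ g ∈ B, 1 ≤ (Finset.univ.filter (fun i => f g i = 2)).card := by
    intro g hg
    obtain ⟨i, hi⟩ := hdbl g hg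
    exact Finset.card_pos.2 ⟨i, by simp [hi]⟩
  have hIB : B.card ≤ I.card := by
    rw [hIcard, Finset.card_eq_sum_ones]
    exact Finset.sum_le_sum hEpos
  have hcol2 : ∀ i ∈ I, ∑ g ∈ B, f g i = 2 := by
    intro i hi
    obtain ⟨g, hg, hgi⟩ := (memI i).1 hi
    rw [Finset.sum_eq_single g, hgi]
    · intro g' hg' hne
      exact hex g hg g' hg' hne.symm i hgi
    · intro h
      exact absurd hg h
  have hcol1 : ∀ i, i ∉ I → ∀ g ∈ B, f g i ≤ 1 := by
    intro i hi g hg
    have h := h2 g hg i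
    have h' : f g i ≠ 2 := fun h' => hi ((memI i).2 ⟨g, hg, h'⟩)
    omega
  have hcol : ∀ i ∈ (Finset.univ : Finset ι),
      ∑ g ∈ B, f g i + (if i ∈ I then c else 0) ≤ B.card := by
    intro i _
    by_cases hi : i ∈ I
    · rw [if_pos hi, hcol2 i hi]
      omega
    · rw [if_neg hi, add_zero, Finset.card_eq_sum_ones]
      exact Finset.sum_le_sum (hcol1 i hi)
  have hsum1 : ∑ i, (∑ g ∈ B, f g i + (if i ∈ I then c else 0)) ≤ ∑ _i : ι, B.card :=
    Finset.sum_le_sum hcol
  have hsum2 : ∑ i, (∑ g ∈ B, f g i + (if i ∈ I then c else 0)) =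
      ∑ g ∈ B, ∑ i, f g i + I.card * c := by
    rw [Finset.sum_add_distrib, Finset.sum_comm]
    congr 1
    rw [← Finset.sum_filter, Finset.sum_const, smul_eq_mul]
    congr 2
    ext i
    simp
  have hsum3 : ∑ _i : ι, B.card = (k - 1) * B.card := by
    rw [Finset.sum_const, Finset.card_univ, smul_eq_mul]
    congr 1
    omega
  have hlow1 : ∑ _g ∈ B, (k + 1) ≤ ∑ g ∈ B, (B.card + ∑ i, f g i) := Finset.sum_le_sum hlow
  have hlow2 : ∑ _g ∈ B, (k + 1) = B.card * (k + 1) := by
    rw [Finset.sum_const, smul_eq_mul]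
  have hlow3 : ∑ g ∈ B, (B.card + ∑ i, f g i) = B.card * B.card + ∑ g ∈ B, ∑ i, f g i := by
    rw [Finset.sum_add_distrib, Finset.sum_const, smul_eq_mul]
  have hmul : B.card * c ≤ I.card * c := Nat.mul_le_mul_right c hIB
  obtain ⟨m, hm⟩ : ∃ m, k = m + 1 := ⟨Fintype.card ι, by omega⟩
  have hk1 : k - 1 = m := by omega
  rw [hsum2, hsum3, hk1] at hsum1
  rw [hlow2, hlow3] at hlow1
  have key1 : ∑ g ∈ B, ∑ i, f g i + I.card * c = m * B.card := by
    subst hm
    rw [hc] at *
    nlinarith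
  have key2 : B.card * (k + 1) = B.card * B.card + ∑ g ∈ B, ∑ i, f g i := by
    subst hm
    rw [hc] at *
    nlinarith
  have key3 : I.card * c = B.card * c := by
    subst hm
    rw [hc] at *
    nlinarith
  -- the columns are tight
  have tcol : ∀ i, ∑ g ∈ B, f g i + (if i ∈ I then c else 0) = B.card := by
    have h := (Finset.sum_eq_sum_iff_of_le hcol).1 (by rw [hsum2, hsum3, hk1, key1])
    intro i
    exact h i (Finset.mem_univ i)
  have tlow : ∀ g ∈ B, k + 1 = B.card + ∑ i, f g i :=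
    (Finset.sum_eq_sum_iff_of_le hlow).1 (by rw [hlow2, hlow3, key2])
  have one : ∀ i, i ∉ I → ∀ g ∈ B, f g i = 1 := by
    intro i hi
    have h := tcol i
    rw [if_neg hi, add_zero, Finset.card_eq_sum_ones] at h
    exact (Finset.sum_eq_sum_iff_of_le (hcol1 i hi)).1 h
  have rowsum : ∀ g ∈ B, ∑ i, f g i =
      2 * (Finset.univ.filter (fun i => f g i = 2)).card + (Fintype.card ι - I.card) := by
    intro g hg
    have h1 : ∀ i, f g i = (if f g i = 2 then 2 else 0) + (if i ∉ I then 1 else 0) := by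
      intro i
      by_cases hi : i ∈ I
      · obtain ⟨g', hg', hgi⟩ := (memI i).1 hi
        by_cases hgg : g' = g
        · subst hgg
          simp [hgi, hi]
        · have := hex g' hg' g hg hgg i hgi
          simp [this, hi]
      · have := one i hi g hg
        simp [this, hi]
    rw [Finset.sum_congr rfl (fun i _ => h1 i), Finset.sum_add_distrib, ← Finset.sum_filter,
      ← Finset.sum_filter, Finset.sum_const, Finset.sum_const, smul_eq_mul, smul_eq_mul, mul_one,
      mul_comm]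
    congr 1
    have h3 : Finset.univ.filter (fun i => i ∉ I) = Iᶜ := by
      ext i
      simp
    rw [h3, Finset.card_compl]
  refine ⟨?_, ?_, ?_, ?_⟩
  · intro i
    by_cases hi : i ∈ I
    · exact Or.inl ((memI i).1 hi)
    · exact Or.inr (one i hi)
  · intro g hg
    exact (tlow g hg).symm
  · intro h3 g hg
    have hc0 : 0 < c := by omega
    have h4 : I.card = B.card := Nat.eq_of_mul_eq_mul_right hc0 key3
    rw [hIcard, Finset.card_eq_sum_ones] at h4
    exact ((Finset.sum_eq_sum_iff_of_le hEpos).1 h4.symm g hg).symm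
  · intro g hg g' hg'
    have h5 := tlow g hg
    have h6 := tlow g' hg'
    rw [rowsum g hg] at h5
    rw [rowsum g' hg'] at h6
    omega

end Pool.Agent.LW
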