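import Pool.Agent.LW.HF1

set_option autoImplicit false

/-!
# (L5) counting on a list
-/

namespace Pool.Agent.LW

open SimpleGraph Classical

universe w

/-- the length of a filter as a sum -/
theorem hf2_filter {α : Type w} (Qs : List α) (p : α → Prop) [DecidablePred p] :
    (Qs.filter (fun P => p P)).length =
      (Finset.univ.filter (fun i : Fin Qs.length => p (Qs.get i))).card := by
  rw [Finset.card_filter]
  have h := Fin.sum_univ_fun_getElem Qs (fun P => if p P then 1 else 0)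
  have h2 : ∑ i : Fin Qs.length, (if p (Qs.get i) then 1 else 0) =
      (Qs.map fun P => if p P then 1 else 0).sum := h
  rw [h2]
  clear h h2
  induction Qs with
  | nil => rfl
  | cons a Qs ih =>
    rw [List.map_cons, List.sum_cons, ← ih, List.filter_cons]
    by_cases ha : p a
    · rw [if_pos (by simpa using ha), if_pos ha, List.length_cons, add_comm]
    · rw [if_neg (by simpa using ha), if_neg ha, zero_add]

/-- the same on a list -/
theorem count_list {α : Type w} {β : Type w} (Qs : List α) (B : Finset β) (f : β → α → ℕ) (k : ℕ)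
    (hcard : Qs.length + 1 = k) (hB : 2 ≤ B.card) (h2 : ∀ g ∈ B, ∀ P ∈ Qs, f g P ≤ 2)
    (hex : ∀ g ∈ B, ∀ g' ∈ B, g ≠ g' → ∀ P ∈ Qs, f g P = 2 → f g' P = 0)
    (hlow : ∀ g ∈ B, k + 1 ≤ B.card + (Qs.map (f g)).sum) (hdbl : ∀ g ∈ B, ∃ P ∈ Qs, f g P = 2) :
    (∀ P ∈ Qs, (∃ g ∈ B, f g P = 2) ∨ ∀ g ∈ B, f g P = 1) ∧
    (∀ g ∈ B, B.card + (Qs.map (f g)).sum = k + 1) ∧
    (3 ≤ B.card → ∀ g ∈ B, (Qs.filter (fun P => f g P = 2)).length = 1) ∧
    (∀ g ∈ B, ∀ g' ∈ B, (Qs.filter (fun P => f g P = 2)).length =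
      (Qs.filter (fun P => f g' P = 2)).length) := by
  have hs : ∀ g, ∑ i : Fin Qs.length, f g (Qs.get i) = (Qs.map (f g)).sum :=
    fun g => Fin.sum_univ_fun_getElem Qs (f g)
  obtain ⟨h1, h2', h3, h4⟩ := count_abs (ι := Fin Qs.length) B (fun g i => f g (Qs.get i)) k
    (by rw [Fintype.card_fin]; exact hcard) hB
    (fun g hg i => h2 g hg _ (List.get_mem Qs i))
    (fun g hg g' hg' hne i hi => hex g hg g' hg' hne _ (List.get_mem Qs i) hi)
    (fun g hg => by rw [hs]; exact hlow g hg)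
    (fun g hg => by
      obtain ⟨P, hP, hfP⟩ := hdbl g hg
      obtain ⟨i, rfl⟩ := List.mem_iff_get.1 hP
      exact ⟨i, hfP⟩)
  refine ⟨?_, ?_, ?_, ?_⟩
  · intro P hP
    obtain ⟨i, rfl⟩ := List.mem_iff_get.1 hP
    exact h1 i
  · intro g hg
    rw [← hs]
    exact h2' g hg
  · intro hB3 g hg
    rw [hf2_filter Qs (fun P => f g P = 2)]
    exact h3 hB3 g hg
  · intro g hg g' hg'
    rw [hf2_filter Qs (fun P => f g P = 2), hf2_filter Qs (fun P => f g' P = 2)]
    exact h4 g hg g' hg'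

end Pool.Agent.LW
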