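import Pool.Agent.LW.HD3
import Pool.Agent.LW.HD4
import Pool.Agent.LW.HE6
import Pool.Agent.LW.HF2

set_option autoImplicit false

/-!
# (L5)
-/

namespace Pool.Agent.LW

open SimpleGraph Classical

universe w

variable {V : Type w} {G : SimpleGraph V} {L : Finset (Sym2 V)} {k : ℕ} {x y : V}
  {Ps : List (List V)} {B O : Set V}

/-- (L5) for the closures of the gates -/
theorem count_gates [Fintype V] (S : Bs G L k) (C : Cfg G L x y Ps) (D : Gt G x y (VS Ps) B O) :
    (∀ P ∈ Ps, (∃ g ∈ B, fx (Xg G O Ps g) P = 2) ∨ ∀ g ∈ B, fx (Xg G O Ps g) P = 1) ∧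
    (∀ g ∈ B, (fs B).card + (Ps.map (fx (Xg G O Ps g))).sum = k + 1) ∧
    (3 ≤ (fs B).card → ∀ g ∈ B,
      (Ps.filter (fun P => fx (Xg G O Ps g) P = 2)).length = 1) ∧
    (∀ g ∈ B, ∀ g' ∈ B, (Ps.filter (fun P => fx (Xg G O Ps g) P = 2)).length =
      (Ps.filter (fun P => fx (Xg G O Ps g') P = 2)).length) := by
  have hxy : x ≠ y := C.xy_ne S.sub
  have h := count_list Ps (fs B) (fun g P => fx (Xg G O Ps g) P) k
    (by rw [C.card, S.card])
    (by
      have h1 : ({x, y} : Finset V) ⊆ fs B := by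
        intro v hv
        rw [mem_fs]
        simp only [Finset.mem_insert, Finset.mem_singleton] at hv
        rcases hv with rfl | rfl
        · exact D.xB
        · exact D.yB
      have h2 := Finset.card_le_card h1
      rwa [Finset.card_pair hxy] at h2)
    (fun g _ P _ => fx_le _ P)
    (by
      intro g hg g' hg' hne P hP h2
      rw [mem_fs] at hg hg'
      have hPn : P.Nodup := flat_nodup C.nd hP
      obtain ⟨v, hv, v', hv', hvv, h3, h4⟩ := (fx_two hPn).1 h2
      have h5 : ∀ u ∈ P, u ∉ Xg G O Ps g' := by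
        intro u hu hu'
        exact hvv ((exclX S C D hg hg' hne hP hv hu h3 hu').trans
          (exclX S C D hg hg' hne hP hv' hu h4 hu').symm)
      have h6 : (P.filter (fun v => v ∈ Xg G O Ps g')) = [] := by
        rw [List.filter_eq_nil_iff]
        intro u hu
        simpa using h5 u hu
      unfold fx
      rw [h6]
      simp)
    (by
      intro g hg
      rw [mem_fs] at hg
      have h1 := closure_card S C D hg
      have h2 := Ug_card (B := B) (O := O) C hg
      have h3 : (Ps.map (fun P => fx (Xg G O Ps g) P)).sum =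
        (Ps.map (fx (Xg G O Ps g))).sum := rfl
      rw [h3]
      omega)
    (by
      intro g hg
      rw [mem_fs] at hg
      obtain ⟨P, hP, v, hv, v', hv', hvv, h1, h2⟩ := double_ex S C D hg
      refine ⟨P, hP, ?_⟩
      have hPn : P.Nodup := flat_nodup C.nd hP
      exact (fx_two hPn).2 ⟨v, hv, v', hv', hvv, Xg_zero (List.mem_flatten.2 ⟨P, hP, hv⟩) h1,
        Xg_zero (List.mem_flatten.2 ⟨P, hP, hv'⟩) h2⟩)
  obtain ⟨c1, c2, c3, c4⟩ := h
  refine ⟨?_, ?_, ?_, ?_⟩
  · intro P hP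
    rcases c1 P hP with ⟨g, hg, h⟩ | h
    · exact Or.inl ⟨g, mem_fs.1 hg, h⟩
    · exact Or.inr fun g hg => h g (mem_fs.2 hg)
  · exact fun g hg => c2 g (mem_fs.2 hg)
  · exact fun h3 g hg => c3 h3 g (mem_fs.2 hg)
  · exact fun g hg g' hg' => c4 g (mem_fs.2 hg) g' (mem_fs.2 hg')

/-- every gate is adjacent to the whole boundary of its closure -/
theorem Ug_adj [Fintype V] (S : Bs G L k) (C : Cfg G L x y Ps) (D : Gt G x y (VS Ps) B O) {g : V}
    (hg : g ∈ B) : ∀ v ∈ Ug G B O Ps g, G.Adj g v := by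
  obtain ⟨z, hz, hz'⟩ := Ag_compl S C D hg
  set N : Finset V := fs {v | v ∉ Ag G O Ps g ∧ ∃ a ∈ Ag G O Ps g, G.Adj a v} with hN
  have hmem : ∀ v, v ∈ N ↔ v ∉ Ag G O Ps g ∧ ∃ a ∈ Ag G O Ps g, G.Adj a v := fun v => mem_fs
  have hsub : N ⊆ fs (Ug G B O Ps g) := by
    intro v hv
    obtain ⟨h1, a, ha, h2⟩ := (hmem v).1 hv
    rw [mem_fs]
    exact (Ag_step S C D hg ha h2).resolve_left h1
  have hzN : z ∉ N := fun h => hz' (mem_fs.1 (hsub h))
  have hk : k ≤ N.card := by
    refine sep_card S (A := Ag G O Ps g) (a := g) (z := z) (Or.inl rfl) ?_ ?_ hz hzN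
    · intro h
      exact ((hmem g).1 h).1 (Or.inl rfl)
    · intro a ha v hv
      by_cases h : v ∈ Ag G O Ps g
      · exact Or.inl h
      · exact Or.inr ((hmem v).2 ⟨h, a, ha, hv⟩)
  have hU : (fs (Ug G B O Ps g)).card ≤ k := by
    have h1 := Ug_card (B := B) (O := O) C hg
    have h2 := (count_gates S C D).2.1 g hg
    omega
  have hle := Finset.card_le_card hsub
  have hNU : N = fs (Ug G B O Ps g) := Finset.eq_of_subset_of_card_le hsub (by omega)
  intro v hv
  exact em_lemma S hmem (by omega) ⟨z, hz, hzN⟩ (Or.inl rfl) (Ag_ter S C D hg)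
    (by rw [hNU, mem_fs]; exact hv)

end Pool.Agent.LW
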