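import Pool.Agent.LW.HF3

set_option autoImplicit false

/-!
# Exclusive and common segments
-/

namespace Pool.Agent.LW

open SimpleGraph Classical

universe w

variable {V : Type w} {G : SimpleGraph V} {L : Finset (Sym2 V)} {k : ℕ} {x y : V}
  {Ps : List (List V)} {B O : Set V}

/-- a vertex lies on one segment only -/
theorem hf4_seg {P P' : List V} {v : V} (hn : Ps.flatten.Nodup) (hP : P ∈ Ps) (hP' : P' ∈ Ps)
    (hv : v ∈ P) (hv' : v ∈ P') : P' = P := by
  by_contra hne
  have h := (List.nodup_flatten.1 hn).2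
  have : Std.Symm (List.Disjoint (α := V)) := ⟨fun _ _ h => List.Disjoint.symm h⟩
  exact (h.forall hP' hP hne) hv' hv

/-- a vertex of the closure which is not strictly between two others is a neighbour of the gate -/
theorem hf4_adj [Fintype V] (S : Bs G L k) (C : Cfg G L x y Ps) (D : Gt G x y (VS Ps) B O)
    {P : List V} (hP : P ∈ Ps) {g : V} (hg : g ∈ B) {c : V} (hc : c ∈ P) (hX : c ∈ Xg G O Ps g)
    (h : ∀ s ∈ P, s ∈ Xg G O Ps g → ∀ s' ∈ P, s' ∈ Xg G O Ps g → Bf P s c → Bf P c s' → False) :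
    G.Adj g c := by
  refine Ug_adj S C D hg c (Or.inr ⟨hX, ?_⟩)
  rintro ⟨-, P', hP', s, hs, s', hs', h1, h2⟩
  obtain rfl := hf4_seg C.nd hP hP' hc h1.memR
  exact h s h1.memL hs s' h2.memR hs' h1 h2

/-- exclusive segments are the double ones -/
theorem excl_iff [Fintype V] (S : Bs G L k) (C : Cfg G L x y Ps) (D : Gt G x y (VS Ps) B O)
    {P : List V} (hP : P ∈ Ps) {g : V} (hg : g ∈ B) :
    Excl G B O P g ↔ fx (Xg G O Ps g) P = 2 := by
  have hn : P.Nodup := (List.nodup_flatten.1 C.nd).1 P hP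
  have hfl : ∀ v ∈ P, v ∈ Ps.flatten := fun v hv => List.mem_flatten.2 ⟨P, hP, hv⟩
  constructor
  · rintro ⟨-, ⟨A, a, M, a', D', hPe, h1, h2, -⟩, -⟩
    have ha : a ∈ P := by rw [hPe]; simp
    have ha' : a' ∈ P := by rw [hPe]; simp
    refine (fx_two hn).2 ⟨a, ha, a', ha', ?_, Xg_zero (hfl a ha) (Or.inl h1),
      Xg_zero (hfl a' ha') (Or.inl h2)⟩
    rintro rfl
    rw [hPe] at hn
    simp [List.nodup_append] at hn
  · intro h
    obtain ⟨A, a, M, a', D', hPe, h1, h2, h3⟩ := fx_ext hn h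
    have ha : a ∈ P := by rw [hPe]; simp
    have ha' : a' ∈ P := by rw [hPe]; simp
    have hne : a ≠ a' := by
      rintro rfl
      rw [hPe] at hn
      simp [List.nodup_append] at hn
    have hbf : Bf P a a' := by rw [hPe]; exact Bf.intro
    have key : ∀ s ∈ P, s ∈ Xg G O Ps g → (s = a ∨ Bf P a s) ∧ (s = a' ∨ Bf P s a') := by
      intro s hs hsX
      have h4 := h3 s hs hsX
      rw [List.mem_cons, List.mem_append, List.mem_singleton] at h4
      rcases h4 with rfl | h4 | rfl
      · exact ⟨Or.inl rfl, Or.inr hbf⟩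
      · constructor
        · right
          rw [hPe]
          exact Bf.of_right (by simp [h4])
        · right
          rw [hPe]
          have : A ++ a :: (M ++ a' :: D') = (A ++ a :: M) ++ a' :: D' := by simp
          rw [this]
          exact Bf.of_left (by simp [h4])
      · exact ⟨Or.inr hbf, Or.inl rfl⟩
    refine ⟨hg, ⟨A, a, M, a', D', hPe, ?_, ?_, fun v hv hc => h3 v hv (Xg_zero (hfl v hv) hc)⟩, ?_⟩
    · refine hf4_adj S C D hP hg ha h1 fun s hs hsX s' hs' hsX' hb1 hb2 => ?_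
      rcases (key s hs hsX).1 with rfl | h5
      · exact hb1.ne hn rfl
      · exact h5.asymm hn hb1
    · refine hf4_adj S C D hP hg ha' h2 fun s hs hsX s' hs' hsX' hb1 hb2 => ?_
      rcases (key s' hs' hsX').2 with rfl | h5
      · exact hb2.ne hn rfl
      · exact h5.asymm hn hb2
    · intro g' hg' hgg v hv hc
      have hvX := Xg_zero (hfl v hv) hc
      have e1 := exclX S C D hg' hg hgg hP hv ha hvX h1
      have e2 := exclX S C D hg' hg hgg hP hv ha' hvX h2
      exact hne (e1.symm.trans e2)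

/-- the other ones are common -/
theorem common_of [Fintype V] (S : Bs G L k) (C : Cfg G L x y Ps) (D : Gt G x y (VS Ps) B O)
    {P : List V} (hP : P ∈ Ps) (h : ∀ g ∈ B, fx (Xg G O Ps g) P = 1) :
    ∃ c, Common G B O P c := by
  have hn : P.Nodup := (List.nodup_flatten.1 C.nd).1 P hP
  have hfl : ∀ v ∈ P, v ∈ Ps.flatten := fun v hv => List.mem_flatten.2 ⟨P, hP, hv⟩
  obtain ⟨c, hc, hcX, -⟩ := fx_one (h x D.xB) hn
  refine ⟨c, hc, fun g hg => ?_⟩
  obtain ⟨c', hc', hcX', huniq⟩ := fx_one (h g hg) hn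
  have e : c' = c := by
    by_cases hgx : g = x
    · subst hgx
      exact (huniq c hc hcX).symm
    · exact exclX S C D hg D.xB hgx hP hc' hc hcX' hcX
  subst e
  refine ⟨hf4_adj S C D hP hg hc hcX' fun s hs hsX s' hs' hsX' hb1 hb2 => ?_,
    fun v hv hcv => huniq v hv (Xg_zero (hfl v hv) hcv)⟩
  exact hb1.ne hn (huniq s hs hsX)

end Pool.Agent.LW
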