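import Pool.Agent.LW.HF4

set_option autoImplicit false

/-!
# The structure theorem
-/

namespace Pool.Agent.LW

open SimpleGraph Classical

universe w

variable {V : Type w} {G : SimpleGraph V} {L : Finset (Sym2 V)} {k : ℕ} {x y : V}
  {Ps : List (List V)} {B O : Set V}

/-- the structure theorem (block H) -/
theorem tight [Fintype V] (S : Bs G L k) (C : Cfg G L x y Ps) (D : Gt G x y (VS Ps) B O) :
    Tight G x y B O Ps := by
  obtain ⟨c1, c2, c3, c4⟩ := count_gates S C D
  have hf : ∀ g ∈ B, Ps.filter (fun P => Excl G B O P g) =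
      Ps.filter (fun P => fx (Xg G O Ps g) P = 2) := by
    intro g hg
    refine List.filter_congr ?_
    intro P hP
    simp only [decide_eq_decide]
    exact excl_iff S C D hP hg
  have h3 : 3 ≤ (fs B).card ∨ ∀ g ∈ B, g = x ∨ g = y := by
    by_cases h : ∀ g ∈ B, g = x ∨ g = y
    · exact Or.inr h
    · left
      push Not at h
      obtain ⟨g, hg, h1, h2⟩ := h
      have hxy : x ≠ y := C.xy_ne S.sub
      have : ({x, y, g} : Finset V) ⊆ fs B := by
        intro v hv
        rw [mem_fs]
        simp only [Finset.mem_insert, Finset.mem_singleton] at hv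
        rcases hv with rfl | rfl | rfl
        · exact D.xB
        · exact D.yB
        · exact hg
      have h4 := Finset.card_le_card this
      have h5 : ({x, y, g} : Finset V).card = 3 := by
        rw [Finset.card_eq_three]
        exact ⟨x, y, g, hxy, h1.symm, h2.symm, rfl⟩
      omega
  refine ⟨?_, ?_, ?_, ?_, ?_⟩
  · intro g hg g' hg' hne
    exact Ug_adj S C D hg g' (Or.inl ⟨hg', hne.symm⟩)
  · intro P hP
    rcases c1 P hP with ⟨g, hg, h⟩ | h
    · exact Or.inr ⟨g, (excl_iff S C D hP hg).2 h⟩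
    · exact Or.inl (common_of S C D hP h)
  · intro g hg
    obtain ⟨P, hP, v, hv, v', hv', hvv, h1, h2⟩ := double_ex S C D hg
    refine ⟨P, hP, (excl_iff S C D hP hg).2 ?_⟩
    have hPn : P.Nodup := (List.nodup_flatten.1 C.nd).1 P hP
    rw [fx_two hPn]
    exact ⟨v, hv, v', hv', hvv, Xg_zero (List.mem_flatten.2 ⟨P, hP, hv⟩) h1,
      Xg_zero (List.mem_flatten.2 ⟨P, hP, hv'⟩) h2⟩
  · intro g hg h1 h2 g' hg'
    rw [hf g' hg']
    rcases h3 with h3 | h3
    · exact c3 h3 g' hg'
    · exact absurd (h3 g hg) (by tauto)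
  · intro _
    rw [hf x D.xB, hf y D.yB]
    exact c4 x D.xB y D.yB

end Pool.Agent.LW
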