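import Pool.Agent.LW.HB1

set_option autoImplicit false

/-!
# Existence of gates (ear lemma)
-/

namespace Pool.Agent.LW

open SimpleGraph Classical

universe w

variable {V : Type w} {G : SimpleGraph V} {L : Finset (Sym2 V)} {x y : V}

theorem hg1_symm {B : Set V} {a b : V}
    (h : ∃ F, Ch G a b F ∧ F.Nodup ∧ (∀ v ∈ F, v ∈ B) ∧ EL F x y) :
    ∃ F, Ch G b a F ∧ F.Nodup ∧ (∀ v ∈ F, v ∈ B) ∧ EL F x y := by
  obtain ⟨F, h1, h2, h3, h4⟩ := h
  exact ⟨F.reverse, h1.reverse, List.nodup_reverse.2 h2,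
    fun v hv => h3 v (List.mem_reverse.1 hv), h4.reverse⟩

/-- an edge alone -/
theorem thr_pair (h : G.Adj x y) : Thr G x y {x, y} := by
  have key : ∃ F, Ch G x y F ∧ F.Nodup ∧ (∀ v ∈ F, v ∈ ({x, y} : Set V)) ∧ EL F x y :=
    ⟨[x, y], Ch.edge h, by simpa using h.ne, by simp, Or.inl List.infix_rfl⟩
  intro g hg g' hg' hne
  rcases hg with rfl | hg
  · rcases hg' with rfl | hg'
    · exact absurd rfl hne
    · rw [Set.mem_singleton_iff.1 hg']
      exact key
  · rw [Set.mem_singleton_iff.1 hg] at hne ⊢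
    rcases hg' with rfl | hg'
    · exact hg1_symm key
    · exact absurd (Set.mem_singleton_iff.1 hg').symm hne

/-- from a new vertex `u` along `M` to `g`, then through `xy` -/
theorem hg1_ext {B : Set V} (h : Thr G x y B) {g u u' : V} (hg : g ∈ B) (hu' : u' ∈ B)
    (hne : g ≠ u') {M : List V} (hM : Ch G u g (u :: (M ++ [g]))) (hn : (u :: M).Nodup)
    (hd : ∀ v ∈ u :: M, v ∉ B) :
    ∃ F, Ch G u u' F ∧ F.Nodup ∧ (∀ v ∈ F, v ∈ B ∨ v ∈ u :: M) ∧ EL F x y := by
  obtain ⟨Q, h1, h2, h3, h4⟩ := h g hg u' hu' hne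
  obtain ⟨Q', rfl⟩ : ∃ Q', Q = g :: Q' := by
    have := h1.hd
    rw [List.head?_eq_some_iff] at this
    exact this
  have hM' : Ch G u g ((u :: M) ++ [g]) := hM
  refine ⟨(u :: M) ++ g :: Q', hM'.glue h1, ?_, ?_, ?_⟩
  · rw [List.nodup_append']
    refine ⟨hn, h2, ?_⟩
    intro v hv hv'
    exact hd v hv (h3 v hv')
  · intro v hv
    rcases List.mem_append.1 hv with hv | hv
    · exact Or.inr hv
    · exact Or.inl (h3 v hv)
  · exact h4.mono (List.suffix_append _ _).isInfix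

/-- two new vertices -/
theorem hg1_two {B : Set V} (h : Thr G x y B) {g g' : V} (hg : g ∈ B) (hg' : g' ∈ B)
    (hne : g ≠ g') {K : List V} (hK : Ch G g g' (g :: (K ++ [g']))) (hn : K.Nodup)
    (hKB : ∀ v ∈ K, v ∉ B) {u u' : V} (hb : Bf K u u') :
    ∃ F, Ch G u u' F ∧ F.Nodup ∧ (∀ v ∈ F, v ∈ B ∪ {v | v ∈ K}) ∧ EL F x y := by
  obtain ⟨K1, K2, K3, rfl⟩ := hb.split
  have hM : Ch G u g (u :: (K1.reverse ++ [g])) := by
    have h1 : Ch G g g' ([] ++ g :: (K1 ++ u :: (K2 ++ u' :: (K3 ++ [g'])))) := by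
      simpa using hK
    have h2 := h1.mid.reverse
    simpa using h2
  have hR : Ch G g' u' (g' :: (K3.reverse ++ [u'])) := by
    have h1 : Ch G g g' ((g :: (K1 ++ u :: K2)) ++ u' :: (K3 ++ g' :: [])) := by
      simpa using hK
    have h2 := h1.mid.reverse
    simpa using h2
  have hn1 := List.nodup_append'.1 hn
  have hn2 := List.nodup_cons.1 hn1.2.1
  have hn3 := List.nodup_append'.1 hn2.2
  have hn4 := List.nodup_cons.1 hn3.2.1
  have hnM : (u :: K1.reverse).Nodup := by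
    rw [List.nodup_cons]
    refine ⟨?_, List.nodup_reverse.2 hn1.1⟩
    intro hu
    exact hn1.2.2 (List.mem_reverse.1 hu) (by simp)
  obtain ⟨F, h1, h2, h3, h4⟩ := hg1_ext h hg hg' hne hM hnM (by
    intro v hv
    apply hKB
    rcases List.mem_cons.1 hv with hv | hv
    · rw [hv]; simp
    · simp [List.mem_reverse.1 hv])
  obtain ⟨F', rfl⟩ : ∃ F', F = F' ++ [g'] := by
    have := h1.lt
    rw [List.getLast?_eq_some_iff] at this
    exact this
  have hdis : ∀ v ∈ K3.reverse ++ [u'], v ∉ B ∧ v ∉ u :: K1.reverse := by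
    intro v hv
    have hv' : v ∈ u' :: K3 := by
      rcases List.mem_append.1 hv with hv | hv
      · simp [List.mem_reverse.1 hv]
      · rw [List.mem_singleton.1 hv]; simp
    refine ⟨hKB v (List.mem_append_right _ (List.mem_cons_of_mem _ (List.mem_append_right _ hv'))), ?_⟩
    intro hv2
    rcases List.mem_cons.1 hv2 with hv2 | hv2
    · subst hv2
      exact hn2.1 (List.mem_append_right _ hv')
    · exact hn1.2.2 (List.mem_reverse.1 hv2)
        (List.mem_cons_of_mem _ (List.mem_append_right _ hv'))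
  have hnR : (K3.reverse ++ [u']).Nodup := by
    rw [List.nodup_append']
    refine ⟨List.nodup_reverse.2 hn4.2, by simp, ?_⟩
    intro v hv hv'
    rw [List.mem_singleton.1 hv'] at hv
    exact hn4.1 (List.mem_reverse.1 hv)
  refine ⟨F' ++ g' :: (K3.reverse ++ [u']), h1.glue hR, ?_, ?_, ?_⟩
  · have e : F' ++ g' :: (K3.reverse ++ [u']) = (F' ++ [g']) ++ (K3.reverse ++ [u']) := by simp
    rw [e, List.nodup_append']
    refine ⟨h2, hnR, ?_⟩
    intro v hv hv'
    rcases h3 v hv with hv | hv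
    · exact (hdis v hv').1 hv
    · exact (hdis v hv').2 hv
  · intro v hv
    have e : F' ++ g' :: (K3.reverse ++ [u']) = (F' ++ [g']) ++ (K3.reverse ++ [u']) := by simp
    rw [e] at hv
    rcases List.mem_append.1 hv with hv | hv
    · rcases h3 v hv with hv | hv
      · exact Or.inl hv
      · refine Or.inr ?_
        rcases List.mem_cons.1 hv with hv | hv
        · rw [hv]; simp
        · simp [List.mem_reverse.1 hv]
    · refine Or.inr ?_
      rcases List.mem_append.1 hv with hv | hv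
      · simp [List.mem_reverse.1 hv]
      · rw [List.mem_singleton.1 hv]; simp
  · have e : F' ++ g' :: (K3.reverse ++ [u']) = (F' ++ [g']) ++ (K3.reverse ++ [u']) := by simp
    rw [e]
    exact h4.mono (List.prefix_append _ _).isInfix

/-- one new vertex -/
theorem hg1_one {B : Set V} (h : Thr G x y B) {g g' : V} (hg : g ∈ B) (hg' : g' ∈ B)
    (hne : g ≠ g') {K : List V} (hK : Ch G g g' (g :: (K ++ [g']))) (hn : K.Nodup)
    (hKB : ∀ v ∈ K, v ∉ B) {u u' : V} (hu : u ∈ K) (hu' : u' ∈ B) :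
    ∃ F, Ch G u u' F ∧ F.Nodup ∧ (∀ v ∈ F, v ∈ B ∪ {v | v ∈ K}) ∧ EL F x y := by
  obtain ⟨K1, K2, rfl⟩ := List.append_of_mem hu
  have hn1 := List.nodup_append'.1 hn
  have hn2 := List.nodup_cons.1 hn1.2.1
  by_cases hgu : g = u'
  · subst hgu
    have hM : Ch G u g' (u :: (K2 ++ [g'])) := by
      have h1 : Ch G g g' ((g :: K1) ++ u :: (K2 ++ g' :: [])) := by simpa using hK
      exact h1.mid
    obtain ⟨F, h1, h2, h3, h4⟩ := hg1_ext h hg' hu' hne.symm hM hn1.2.1 (by
      intro v hv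
      exact hKB v (List.mem_append_right _ hv))
    refine ⟨F, h1, h2, ?_, h4⟩
    intro v hv
    rcases h3 v hv with hv | hv
    · exact Or.inl hv
    · exact Or.inr (List.mem_append_right _ hv)
  · have hM : Ch G u g (u :: (K1.reverse ++ [g])) := by
      have h1 : Ch G g g' ([] ++ g :: (K1 ++ u :: (K2 ++ [g']))) := by simpa using hK
      have h2 := h1.mid.reverse
      simpa using h2
    have hmem : ∀ v ∈ u :: K1.reverse, v ∈ K1 ++ u :: K2 := by
      intro v hv
      rcases List.mem_cons.1 hv with hv | hv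
      · rw [hv]; simp
      · simp [List.mem_reverse.1 hv]
    obtain ⟨F, h1, h2, h3, h4⟩ := hg1_ext h hg hu' hgu hM (by
      rw [List.nodup_cons]
      refine ⟨?_, List.nodup_reverse.2 hn1.1⟩
      intro hu2
      exact hn1.2.2 (List.mem_reverse.1 hu2) (by simp)) (fun v hv => hKB v (hmem v hv))
    refine ⟨F, h1, h2, ?_, h4⟩
    intro v hv
    rcases h3 v hv with hv | hv
    · exact Or.inl hv
    · exact Or.inr (hmem v hv)

/-- adding an ear `K` from `g` to `g'` -/
theorem thr_ear {B : Set V} (h : Thr G x y B) {g g' : V} (hg : g ∈ B) (hg' : g' ∈ B) (hne : g ≠ g')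
    {K : List V} (hK : Ch G g g' (g :: (K ++ [g']))) (hn : K.Nodup) (hKB : ∀ v ∈ K, v ∉ B) :
    Thr G x y (B ∪ {v | v ∈ K}) := by
  intro u hu u' hu' huu
  rcases hu with hu | hu
  · rcases hu' with hu' | hu'
    · obtain ⟨F, h1, h2, h3, h4⟩ := h u hu u' hu' huu
      exact ⟨F, h1, h2, fun v hv => Or.inl (h3 v hv), h4⟩
    · exact hg1_symm (hg1_one h hg hg' hne hK hn hKB hu' hu)
  · rcases hu' with hu' | hu'
    · exact hg1_one h hg hg' hne hK hn hKB hu hu'
    · rcases Bf.total hu hu' huu with hb | hb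
      · exact hg1_two h hg hg' hne hK hn hKB hb
      · exact hg1_symm (hg1_two h hg hg' hne hK hn hKB hb)

/-- a maximal set of gates -/
theorem exists_gt [Fintype V] {Z B0 : Set V} (hx : x ∈ B0) (hy : y ∈ B0) (h : Thr G x y B0)
    (hZ : ∀ v ∈ B0, v ∉ Z) : ∃ B O, B0 ⊆ B ∧ Gt G x y Z B O := by
  have hfin : {B : Set V | B0 ⊆ B ∧ Thr G x y B ∧ ∀ v ∈ B, v ∉ Z}.Finite := Set.toFinite _
  obtain ⟨B, hB, hmax⟩ := hfin.exists_maximal ⟨B0, subset_rfl, h, hZ⟩
  obtain ⟨hB0, hB1, hB2⟩ := hB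
  refine ⟨B, {v | v ∉ Z ∧ v ∉ B}, hB0, hB0 hx, hB0 hy, hB2, fun v => Iff.rfl, hB1, ?_⟩
  intro g hg g' hg' hne o ho ho'
  obtain ⟨a, ha, hao⟩ := ho
  obtain ⟨a', ha', hao'⟩ := ho'
  obtain ⟨F, hF, hFO⟩ := hao.trans hao'.symm
  obtain ⟨F', h1, h2, h3⟩ := hF.path
  have hFO' : ∀ v ∈ F', v ∉ Z ∧ v ∉ B := fun v hv => hFO v (h3 v hv)
  have hK : Ch G g g' (g :: (F' ++ [g'])) := (h1.concat ha'.symm).cons ha
  have hT := thr_ear hB1 hg hg' hne hK h2 (fun v hv => (hFO' v hv).2)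
  have hle := hmax (y := B ∪ {v | v ∈ F'}) ⟨hB0.trans Set.subset_union_left, hT, by
    intro v hv
    rcases hv with hv | hv
    · exact hB2 v hv
    · exact (hFO' v hv).1⟩ Set.subset_union_left
  exact (hFO' a h1.memL).2 (hle (Or.inr h1.memL))

end Pool.Agent.LW
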