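import Pool.Agent.LW.HD3

set_option autoImplicit false

/-!
# The closure of a vertex for a general host
-/

namespace Pool.Agent.LW

open SimpleGraph Classical

universe w

variable {V : Type w} {G : SimpleGraph V} {Hs : List (List V)} {O : Set V}

/-- the extreme vertices of the closure -/
def Ex (G : SimpleGraph V) (O : Set V) (Hs : List (List V)) (g : V) : Set V :=
  {v | v ∈ Xg G O Hs g ∧ ¬ Btw Hs Set.univ (Xg G O Hs g) v}

/-- (C1) the boundary of the closed set, for any host -/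
theorem gen_step {g a v : V} (ha : a ∈ Ag G O Hs g) (h : G.Adj a v) :
    v ∈ Ag G O Hs g ∨ v ∈ Ex G O Hs g ∨ (v ∉ Hs.flatten ∧ v ∉ O ∧ v ≠ g) := by
  by_cases hg : v = g
  · exact Or.inl (Or.inl hg)
  by_cases hZ : v ∈ Hs.flatten
  · have key : v ∈ Xg G O Hs g → v ∈ Ag G O Hs g ∨ v ∈ Ex G O Hs g ∨
        (v ∉ Hs.flatten ∧ v ∉ O ∧ v ≠ g) := by
      intro hX
      by_cases hb : Btw Hs Set.univ (Xg G O Hs g) v
      · exact Or.inl (Or.inr (Or.inr ⟨v, hb, Or.inl rfl⟩))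
      · exact Or.inr (Or.inl ⟨hX, hb⟩)
    apply key
    rcases ha with rfl | ha | ⟨l, hl, rfl | ha⟩
    · exact Xg_zero hZ (Or.inl h)
    · exact Xg_zero hZ (Or.inr ⟨a, ha, h⟩)
    · exact Xg_step hl hZ (Or.inl h)
    · exact Xg_step hl hZ (Or.inr ⟨a, ha, h⟩)
  · by_cases hO : v ∈ O
    · left
      rcases ha with rfl | ha | ⟨l, hl, rfl | ha⟩
      · exact Or.inr (Or.inl (att_of_adj h hO))
      · exact Or.inr (Or.inl (att_step ha h hO))
      · exact Or.inr (Or.inr ⟨a, hl, Or.inr (att_of_adj h hO)⟩)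
      · exact Or.inr (Or.inr ⟨l, hl, Or.inr (att_step ha h hO)⟩)
    · exact Or.inr (Or.inr ⟨hZ, hO, hg⟩)

/-- the closed set and its boundary on the host are disjoint -/
theorem gen_disj {g v : V} (hg : g ∉ Hs.flatten) (hO : ∀ u ∈ Hs.flatten, u ∉ O)
    (h : v ∈ Ag G O Hs g) : v ∉ Ex G O Hs g := by
  rintro ⟨hX, hb⟩
  have hZ := Xg_host hX
  rcases h with rfl | h | ⟨l, hl, rfl | h⟩
  · exact hg hZ
  · exact hO v hZ (att_mem h)
  · exact hb hl
  · exact hO v hZ (att_mem h)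

/-- (C3) -/
theorem gen_card [Fintype V] (hnd : Hs.flatten.Nodup) {g : V} :
    (fs (Ex G O Hs g)).card ≤ (Hs.map (fx (Xg G O Hs g))).sum := by
  set X := Xg G O Hs g with hX
  set f : List V → List V := fun P => (P.filter (fun v => v ∈ X)).filter
      (fun v => ¬ (∃ s ∈ X, ∃ s' ∈ X, Bf P s v ∧ Bf P v s')) with hf
  have hsub : fs (Ex G O Hs g) ⊆ (Hs.flatMap f).toFinset := by
    intro v hv
    rw [mem_fs] at hv
    obtain ⟨h1, h2⟩ := hv
    rw [List.mem_toFinset, List.mem_flatMap]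
    obtain ⟨P, hP, hvP⟩ := List.mem_flatten.1 (Xg_host h1)
    refine ⟨P, hP, ?_⟩
    rw [hf]
    simp only [List.mem_filter, decide_eq_true_eq]
    refine ⟨⟨hvP, h1⟩, ?_⟩
    rintro ⟨s, hs, s', hs', hb, hb'⟩
    exact h2 ⟨Set.mem_univ _, P, hP, s, hs, s', hs', hb, hb'⟩
  refine (Finset.card_le_card hsub).trans ((List.toFinset_card_le _).trans ?_)
  rw [List.length_flatMap]
  refine List.sum_le_sum fun P hP => ?_
  have h5 := ext_card (X := X) (flat_nodup hnd hP)
  refine le_trans (le_of_eq ?_) h5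
  show (f P).length = _
  rw [hf]
  beta_reduce
  congr!

end Pool.Agent.LW
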