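import Pool.Agent.LW.Reach

set_option autoImplicit false

/-!
# The hopping lemma, in lists
-/

namespace Pool.Agent.LW

open SimpleGraph Classical

universe w

variable {V : Type w} {G H : SimpleGraph V} {L : Finset (Sym2 V)}

/-- a vertex of `Ab` strictly between two vertices of `S` on one path of the host -/
def Btw (Hs : List (List V)) (Ab S : Set V) (l : V) : Prop :=
  l ∈ Ab ∧ ∃ P ∈ Hs, ∃ s ∈ S, ∃ s' ∈ S, Bf P s l ∧ Bf P l s'

/-- consecutive vertices of the hull of `S` on one path of the host -/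
def HE (Hs : List (List V)) (S : Set V) (a b : V) : Prop :=
  ∃ P ∈ Hs, ∃ s ∈ S, ∃ s' ∈ S, ∃ A M D, P = A ++ (M ++ D) ∧ M.head? = some s ∧
    M.getLast? = some s' ∧ [a, b] <:+: M

/-- the vertices attached at level `t` -/
def Lvl (G : SimpleGraph V) (O : Set V) (Hs : List (List V)) (Ab S0 : Set V) : ℕ → Set V
  | 0 => S0
  | t + 1 => {w | w ∈ Lvl G O Hs Ab S0 t ∨
      (w ∈ Hs.flatten ∧ ∃ l, Btw Hs Ab (Lvl G O Hs Ab S0 t) l ∧ Con G O l w)}

theorem Lvl.mono {O : Set V} {Hs : List (List V)} {Ab S0 : Set V} {t t' : ℕ} (h : t ≤ t') {v : V}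
    (hv : v ∈ Lvl G O Hs Ab S0 t) : v ∈ Lvl G O Hs Ab S0 t' := by
  induction h with
  | refl => exact hv
  | step _ ih => exact Or.inl ih

theorem Btw.mono {Hs : List (List V)} {Ab S S' : Set V} (h : S ⊆ S') {l : V}
    (hl : Btw Hs Ab S l) : Btw Hs Ab S' l := by
  obtain ⟨hA, P, hP, s, hs, s', hs', h1, h2⟩ := hl
  exact ⟨hA, P, hP, s, h hs, s', h hs', h1, h2⟩

theorem HE.mono {Hs : List (List V)} {S S' : Set V} (h : S ⊆ S') {a b : V} (hl : HE Hs S a b) :
    HE Hs S' a b := by
  obtain ⟨P, hP, s, hs, s', hs', r⟩ := hl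
  exact ⟨P, hP, s, h hs, s', h hs', r⟩

theorem Lvl.mem {O : Set V} {Hs : List (List V)} {Ab S0 : Set V}
    (hS0 : ∀ v ∈ S0, v ∈ Hs.flatten) {t : ℕ} {v : V} (hv : v ∈ Lvl G O Hs Ab S0 t) :
    v ∈ Hs.flatten := by
  induction t generalizing v with
  | zero => exact hS0 v hv
  | succ t ih => exact hv.elim ih (fun h => h.1)

section

variable {O Ab S0 N Src : Set V} {Hs : List (List V)}

/-- the piece of the host at which a new vertex of level `t + 1` is rerouted -/
theorem Lvl.piece (hnd : Hs.flatten.Nodup) {t : ℕ} {w : V} (hw : w ∈ Lvl G O Hs Ab S0 (t + 1))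
    (hwt : w ∉ Lvl G O Hs Ab S0 t) : ∃ (l0 sL sR : V) (M1 M2 : List V) (tL tR : ℕ),
    w ∈ Hs.flatten ∧ Btw Hs Ab (Lvl G O Hs Ab S0 t) l0 ∧ Con G O l0 w ∧
    sL ∈ Lvl G O Hs Ab S0 tL ∧ tL ≤ t ∧ sR ∈ Lvl G O Hs Ab S0 tR ∧ tR ≤ t ∧
    (sL :: (M1 ++ l0 :: (M2 ++ [sR]))).Nodup ∧
    (∀ a b, [a, b] <:+: sL :: (M1 ++ l0 :: (M2 ++ [sR])) → HE Hs (Lvl G O Hs Ab S0 t) a b) ∧
    (∀ a b, EL (sL :: (M1 ++ [l0])) a b → ∀ τ < tL, ¬ HE Hs (Lvl G O Hs Ab S0 τ) a b) ∧
    (∀ a b, EL (l0 :: (M2 ++ [sR])) a b → ∀ τ < tR, ¬ HE Hs (Lvl G O Hs Ab S0 τ) a b) := by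
  rcases hw with hw | ⟨hwh, l0, hl0, hcon⟩
  · exact absurd hw hwt
  · have hl0' := hl0
    obtain ⟨-, P, hP, s, hs, s', hs', b1, b2⟩ := hl0
    have hPn : P.Nodup := flat_nodup hnd hP
    have hsame : ∀ Q ∈ Hs, ∀ v ∈ Q, v ∈ P → Q = P :=
      fun Q hQ v hv hv' => flat_same hnd hQ hP hv hv'
    -- minimal levels on both sides
    have exL : ∃ τ, ∃ s ∈ Lvl G O Hs Ab S0 τ, Bf P s l0 := ⟨t, s, hs, b1⟩
    have exR : ∃ τ, ∃ s ∈ Lvl G O Hs Ab S0 τ, Bf P l0 s := ⟨t, s', hs', b2⟩
    obtain ⟨sL, hsL, hsL1⟩ := Nat.find_spec exL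
    obtain ⟨sR, hsR, hsR1⟩ := Nat.find_spec exR
    have htL : Nat.find exL ≤ t := Nat.find_min' exL ⟨s, hs, b1⟩
    have htR : Nat.find exR ≤ t := Nat.find_min' exR ⟨s', hs', b2⟩
    have hminL : ∀ τ < Nat.find exL, ∀ s ∈ Lvl G O Hs Ab S0 τ, ¬ Bf P s l0 :=
      fun τ hτ s hs h => Nat.find_min exL hτ ⟨s, hs, h⟩
    have hminR : ∀ τ < Nat.find exR, ∀ s ∈ Lvl G O Hs Ab S0 τ, ¬ Bf P l0 s :=
      fun τ hτ s hs h => Nat.find_min exR hτ ⟨s, hs, h⟩
    generalize Nat.find exL = tL at hsL htL hminL
    generalize Nat.find exR = tR at hsR htR hminR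
    obtain ⟨A, M2, D, hP2⟩ := hsR1.split
    have hsLA : sL ∈ A := by
      refine Bf.mem_left (A := A) (c := l0) (D := M2 ++ sR :: D) ?_ ?_
      · rw [← hP2]; exact hsL1
      · rw [← hP2]; exact hPn
    obtain ⟨A1, M1, hA⟩ := List.append_of_mem hsLA
    have hP3 : P = A1 ++ ((sL :: (M1 ++ l0 :: (M2 ++ [sR]))) ++ D) := by
      rw [hP2, hA]; simp
    have hIn : (sL :: (M1 ++ l0 :: (M2 ++ [sR]))).Nodup := by
      rw [hP3] at hPn
      exact (List.nodup_append'.1 (List.nodup_append'.1 hPn).2.1).1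
    -- a hull edge of level below the minimum is not on the piece
    have hnoL : ∀ a b, [a, b] <:+: sL :: (M1 ++ [l0]) ∨ [b, a] <:+: sL :: (M1 ++ [l0]) →
        ∀ τ' < tL, ¬ HE Hs (Lvl G O Hs Ab S0 τ') a b := by
      intro a b hab τ' hτ' hHE
      obtain ⟨Q, hQ, q, hq, q', hq', X, M, Y, hQe, m1, m2, m3⟩ := hHE
      have hbP : b ∈ P ∧ a ∈ P ∧ (a ≠ l0 → Bf P a l0) := by
        have hsub : ∀ v ∈ sL :: (M1 ++ [l0]), v ∈ P ∧ (v ≠ l0 → Bf P v l0) := by
          intro v hv
          rw [hP2, hA]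
          simp only [List.mem_cons, List.mem_append, List.not_mem_nil, or_false] at hv
          refine ⟨by simp only [List.mem_cons, List.mem_append]; tauto, ?_⟩
          intro hne
          refine Bf.of_left ?_
          simp only [List.mem_cons, List.mem_append]
          tauto
        rcases hab with h | h
        · exact ⟨(hsub b (h.subset (by simp))).1, (hsub a (h.subset (by simp))).1,
            (hsub a (h.subset (by simp))).2⟩
        · exact ⟨(hsub b (h.subset (by simp))).1, (hsub a (h.subset (by simp))).1,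
            (hsub a (h.subset (by simp))).2⟩
      have hQP : Q = P := hsame Q hQ a (by
        rw [hQe]
        exact List.mem_append_right _ (List.mem_append_left _ (m3.subset (by simp)))) hbP.2.1
      subst hQP
      -- `q` is the first vertex of `M`, `a` is in `M`
      obtain ⟨M', hM'⟩ : ∃ M', M = q :: M' := by
        cases M with
        | nil => simp at m1
        | cons p M => exact ⟨M, by simp only [List.head?_cons, Option.some.injEq] at m1; rw [m1]⟩
      have hqa : q = a ∨ Bf Q q a := by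
        have haM : a ∈ M := m3.subset (by simp)
        rw [hM'] at haM
        rcases List.mem_cons.1 haM with h | h
        · exact Or.inl h.symm
        · right
          rw [hQe, hM']
          obtain ⟨U, W, hUW⟩ := List.append_of_mem h
          rw [hUW]
          have : Bf (X ++ q :: (U ++ a :: (W ++ Y))) q a := Bf.intro
          simpa using this
      have hal : a ≠ l0 := by
        intro h
        subst h
        -- then `[a, b]` is not on the piece, as `a` is its last vertex; and `[b, a]` not by order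
        rcases hab with h | h
        · obtain ⟨U, W, hUW⟩ := h
          have h1 : (sL :: M1) ++ [a] = U ++ a :: (b :: W) := by
            rw [← List.cons_append] at hUW
            rw [← hUW]; simp
          have h2 : ((sL :: M1) ++ [a]).Nodup := by
            refine hIn.sublist ?_
            refine List.Sublist.cons_cons _ (List.Sublist.append (List.Sublist.refl _) ?_)
            simp
          have h3 : a ∉ sL :: M1 := fun h => (List.nodup_append'.1 h2).2.2 h (by simp)
          have h4 : a ∉ U := by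
            intro h
            rw [h1] at h2
            exact (List.nodup_append'.1 h2).2.2 h (by simp)
          have := (split_unique h1 h3 h4).2
          simp at this
        · -- `b` before `a` on the piece, but `[a, b]` on `M`
          have h1 : Bf Q b a := by
            rw [hP3]
            obtain ⟨U, W, hUW⟩ := h
            have h2 : sL :: (M1 ++ a :: (M2 ++ [sR])) = (sL :: (M1 ++ [a])) ++ (M2 ++ [sR]) := by
              simp
            rw [h2, ← hUW]
            have : Bf ((A1 ++ U) ++ b :: ([] ++ a :: (W ++ ((M2 ++ [sR]) ++ D)))) b a := Bf.intro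
            simpa using this
          have h3 : Bf Q a b := by
            obtain ⟨U, W, hUW⟩ := m3
            rw [hQe, ← hUW]
            have : Bf ((X ++ U) ++ a :: ([] ++ b :: (W ++ Y))) a b := Bf.intro
            simpa using this
          exact h1.asymm hPn h3
      have h5 := hbP.2.2 hal
      rcases hqa with h | h
      · rw [← h] at h5
        exact hminL τ' hτ' q hq h5
      · exact hminL τ' hτ' q hq (h.trans h5 hPn)
    have hnoR : ∀ a b, [a, b] <:+: l0 :: (M2 ++ [sR]) ∨ [b, a] <:+: l0 :: (M2 ++ [sR]) →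
        ∀ τ' < tR, ¬ HE Hs (Lvl G O Hs Ab S0 τ') a b := by
      intro a b hab τ' hτ' hHE
      obtain ⟨Q, hQ, q, hq, q', hq', X, M, Y, hQe, m1, m2, m3⟩ := hHE
      have hbP : b ∈ P ∧ a ∈ P ∧ (b ≠ l0 → Bf P l0 b) := by
        have hsub : ∀ v ∈ l0 :: (M2 ++ [sR]), v ∈ P ∧ (v ≠ l0 → Bf P l0 v) := by
          intro v hv
          rw [hP2]
          simp only [List.mem_cons, List.mem_append, List.not_mem_nil, or_false] at hv
          refine ⟨by simp only [List.mem_cons, List.mem_append]; tauto, ?_⟩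
          intro hne
          refine Bf.of_right ?_
          simp only [List.mem_cons, List.mem_append]
          tauto
        rcases hab with h | h
        · exact ⟨(hsub b (h.subset (by simp))).1, (hsub a (h.subset (by simp))).1,
            (hsub b (h.subset (by simp))).2⟩
        · exact ⟨(hsub b (h.subset (by simp))).1, (hsub a (h.subset (by simp))).1,
            (hsub b (h.subset (by simp))).2⟩
      have hQP : Q = P := hsame Q hQ a (by
        rw [hQe]
        exact List.mem_append_right _ (List.mem_append_left _ (m3.subset (by simp)))) hbP.2.1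
      subst hQP
      obtain ⟨M', hM'⟩ : ∃ M', M = M' ++ [q'] := by
        rcases List.eq_nil_or_concat M with h | ⟨M', p, h⟩
        · rw [h] at m2; simp at m2
        · refine ⟨M', ?_⟩
          rw [h] at m2 ⊢
          simp only [List.concat_eq_append, List.getLast?_append, List.getLast?_singleton,
            Option.some_or, Option.some.injEq] at m2 ⊢
          rw [m2]
      have hqb : q' = b ∨ Bf Q b q' := by
        have hbM : b ∈ M := m3.subset (by simp)
        rw [hM'] at hbM
        rcases List.mem_append.1 hbM with h | h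
        · right
          rw [hQe, hM']
          obtain ⟨U, W, hUW⟩ := List.append_of_mem h
          rw [hUW]
          have : Bf ((X ++ U) ++ b :: (W ++ q' :: Y)) b q' := Bf.intro
          simpa using this
        · exact Or.inl (List.mem_singleton.1 h).symm
      have hbl : b ≠ l0 := by
        intro h
        subst h
        rcases hab with h | h
        · -- `[a, b]` on `b :: ..`: `b` is the first vertex
          obtain ⟨U, W, hUW⟩ := h
          have h1 : [] ++ b :: (M2 ++ [sR]) = (U ++ [a]) ++ b :: W := by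
            rw [List.nil_append, ← hUW]; simp
          have h2 : (b :: (M2 ++ [sR])).Nodup := by
            refine hIn.sublist ?_
            refine List.Sublist.cons _ (List.sublist_append_right _ _)
          have h4 : b ∉ U ++ [a] := by
            intro h
            rw [List.nil_append] at h1
            rw [h1] at h2
            exact (List.nodup_append'.1 h2).2.2 h (by simp)
          have := (split_unique h1 (by simp) h4).1
          simp at this
        · have h1 : Bf Q b a := by
            rw [hP2]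
            obtain ⟨U, W, hUW⟩ := h
            have h2 : b :: (M2 ++ sR :: D) = (b :: (M2 ++ [sR])) ++ D := by simp
            rw [h2, ← hUW]
            have : Bf ((A ++ U) ++ b :: ([] ++ a :: (W ++ D))) b a := Bf.intro
            simpa using this
          have h3 : Bf Q a b := by
            obtain ⟨U, W, hUW⟩ := m3
            rw [hQe, ← hUW]
            have : Bf ((X ++ U) ++ a :: ([] ++ b :: (W ++ Y))) a b := Bf.intro
            simpa using this
          exact h1.asymm hPn h3
      have h5 := hbP.2.2 hbl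
      rcases hqb with h | h
      · rw [← h] at h5
        exact hminR τ' hτ' q' hq' h5
      · exact hminR τ' hτ' q' hq' (h5.trans h hPn)
    have hheI : ∀ a b, [a, b] <:+: sL :: (M1 ++ l0 :: (M2 ++ [sR])) →
        HE Hs (Lvl G O Hs Ab S0 t) a b := by
      intro a b hab
      refine ⟨P, hP, sL, Lvl.mono htL hsL, sR, Lvl.mono htR hsR, A1, _, D, hP3, rfl, ?_, hab⟩
      have : sL :: (M1 ++ l0 :: (M2 ++ [sR])) = (sL :: (M1 ++ l0 :: M2)) ++ [sR] := by simp
      rw [this, List.getLast?_append]
      simp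
    exact ⟨l0, sL, sR, M1, M2, tL, tR, hwh, hl0', hcon, hsL, htL, hsR, htR, hIn, hheI,
      hnoL, hnoR⟩

/-- reroute a path at a hull vertex -/
theorem hopStep (hGH : G ≤ H) {w z s l0 : V} {A M C : List V}
    (hc : Ch H w z (A ++ s :: (M ++ l0 :: C))) (hn : (A ++ s :: (M ++ l0 :: C)).Nodup)
    (hsw : s ≠ w) (hcon : Con G O l0 w)
    (hK : ∀ v ∈ A ++ s :: (M ++ l0 :: C), v ∈ O → v ∉ Att G O l0) :
    ∃ K : List V, (∀ v ∈ K, v ∈ O ∧ v ∈ Att G O l0 ∧ v ∈ Att G O w) ∧
      Ch H s z (s :: (A.reverse ++ (K ++ l0 :: C))) ∧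
      (s :: (A.reverse ++ (K ++ l0 :: C))).Nodup ∧
      ∀ a b, EL (A ++ s :: (M ++ l0 :: C)) a b →
        EL (s :: (M ++ [l0])) a b ∨ EL (s :: (A.reverse ++ (K ++ l0 :: C))) a b := by
  obtain ⟨K, k1, k2, k3⟩ := hcon.symm.link
  have hA : A ≠ [] := by
    intro h
    rw [h] at hc
    have := hc.hd
    simp only [List.nil_append, List.head?_cons, Option.some.injEq] at this
    exact hsw this
  obtain ⟨A', hA'⟩ : ∃ A', A = w :: A' := by
    cases A with
    | nil => exact absurd rfl hA
    | cons p A =>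
      have := hc.hd
      simp only [List.cons_append, List.head?_cons, Option.some.injEq] at this
      exact ⟨A, by rw [this]⟩
  subst hA'
  have e1 : s :: ((w :: A').reverse ++ (K ++ l0 :: C)) =
      (s :: A'.reverse) ++ w :: (K ++ l0 :: C) := by simp
  have c1 : Ch H s w ((s :: A'.reverse) ++ [w]) := by
    have := hc.left.reverse
    simpa using this
  have c2 : Ch H l0 z (l0 :: C) := by
    have : Ch H w z ((w :: A' ++ s :: M) ++ l0 :: C) := by simpa using hc
    exact this.right
  have c3 : Ch H w z ((w :: K) ++ l0 :: C) := by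
    refine Ch.glue ?_ c2
    simpa using k1.mono hGH
  refine ⟨K, fun v hv => ⟨(k3 v hv).1, (k3 v hv).2.2, (k3 v hv).2.1⟩, ?_, ?_, ?_⟩
  · rw [e1]
    exact c1.glue c3
  · -- nodup
    have hKd : ∀ v ∈ K, v ∉ w :: A' ++ s :: (M ++ l0 :: C) :=
      fun v hv hv' => hK v hv' (k3 v hv).1 (k3 v hv).2.2
    simp only [List.nodup_append', List.nodup_cons, List.mem_append, List.mem_cons,
      List.disjoint_left, List.mem_reverse, List.nodup_reverse, not_or, List.cons_append,
      List.reverse_cons, List.append_assoc, List.nil_append] at hn hKd ⊢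
    grind
  · intro a b hab
    rcases hab.split with h | h
    · right
      have h1 := h.reverse
      refine h1.mono ⟨[], K ++ l0 :: C, ?_⟩
      simp
    · have h' : EL ((s :: M) ++ l0 :: C) a b := h
      rcases h'.split with h | h
      · left
        exact h
      · right
        refine h.mono ⟨s :: ((w :: A').reverse ++ K), [], ?_⟩
        simp

/-- the vertices of a list with at least two vertices are on its edges -/
theorem mem_of_pairs {I : List V} {p q : V} {S : V → Prop} (hI : [p, q].Sublist I)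
    (h : ∀ a b, [a, b] <:+: I → S a ∧ S b) : ∀ v ∈ I, S v := by
  intro v hv
  obtain ⟨X, Y, hXY⟩ := List.append_of_mem hv
  cases Y with
  | nil =>
    rcases List.eq_nil_or_concat X with h1 | ⟨X', q, h1⟩
    · rw [hXY, h1] at hI
      have := hI.length_le
      simp at this
    · exact (h q v ⟨X', [], by rw [hXY, h1]; simp⟩).2
  | cons q Y => exact (h v q ⟨X, Y, by rw [hXY]; simp⟩).1

/-- the hopping lemma: a path ending at a vertex of level `t` can be rerouted to end at a vertex
of level `0`, keeping all its edges except hull edges of level less than `t` -/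
theorem hopL (hGH : G ≤ H) (hnd : Hs.flatten.Nodup)
    (hSrc : ∀ w ∈ Hs.flatten, ∀ o ∈ Att G O w, o ∈ Src → w ∈ S0) {z : V} : ∀ t : ℕ,
    (∀ t' < t, ∀ l, Btw Hs Ab (Lvl G O Hs Ab S0 t') l → ∀ o ∈ Att G O l, o ∉ N) →
    ∀ w ∈ Lvl G O Hs Ab S0 t, ∀ F, Ch H w z F → F.Nodup →
    (∀ t' < t, ∀ a b, HE Hs (Lvl G O Hs Ab S0 t') a b → EL F a b) →
    (∀ v ∈ F, v ∈ O → v ∉ N ∧ v ∉ Src ∧
      ∀ t' < t, ∀ l, Btw Hs Ab (Lvl G O Hs Ab S0 t') l → v ∉ Att G O l) →
    ∃ w0 ∈ S0, ∃ F', Ch H w0 z F' ∧ F'.Nodup ∧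
      (∀ v ∈ F', v ∈ F ∨ (v ∈ O ∧ v ∉ N ∧ v ∉ Src ∧
        ∃ t' < t, ∃ l, Btw Hs Ab (Lvl G O Hs Ab S0 t') l ∧ v ∈ Att G O l)) ∧
      ∀ a b, EL F a b → (∀ t' < t, ¬ HE Hs (Lvl G O Hs Ab S0 t') a b) →
        (∀ t' < t, ¬ HE Hs (Lvl G O Hs Ab S0 t') b a) → EL F' a b := by
  intro t
  induction t using Nat.strong_induction_on with
  | _ t ih =>
    intro hN w hw F hF hFn i1 i2
    rcases t with _ | t
    · exact ⟨w, hw, F, hF, hFn, fun v hv => Or.inl hv, fun a b h _ _ => h⟩
    by_cases hwt : w ∈ Lvl G O Hs Ab S0 t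
    · obtain ⟨w0, h0, F', h1, h2, h3, h4⟩ := ih t (by omega) (fun t' ht' => hN t' (by omega)) w hwt
        F hF hFn (fun t' ht' => i1 t' (by omega))
        (fun v hv hvO => ⟨(i2 v hv hvO).1, (i2 v hv hvO).2.1,
          fun t' ht' => (i2 v hv hvO).2.2 t' (by omega)⟩)
      refine ⟨w0, h0, F', h1, h2, ?_, ?_⟩
      · intro v hv
        rcases h3 v hv with h | ⟨g1, g2, g3, t', g4, g5⟩
        · exact Or.inl h
        · exact Or.inr ⟨g1, g2, g3, t', by omega, g5⟩
      · intro a b hab n1 n2
        exact h4 a b hab (fun t' ht' => n1 t' (by omega)) (fun t' ht' => n2 t' (by omega))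
    obtain ⟨l0, sL, sR, M1, M2, tL, tR, hwh, hl0, hcon, hsL, htL, hsR, htR, hIn, hheI, hnoL,
      hnoR⟩ := Lvl.piece hnd hw hwt
    have hIE : ∀ a b, [a, b] <:+: sL :: (M1 ++ l0 :: (M2 ++ [sR])) → EL F a b :=
      fun a b hab => i1 t (by omega) a b (hheI a b hab)
    have hIF : ∀ v ∈ sL :: (M1 ++ l0 :: (M2 ++ [sR])), v ∈ F := by
      refine mem_of_pairs (p := sL) (q := l0) ?_ (fun a b hab =>
        ⟨(hIE a b hab).memL, (hIE a b hab).memR⟩)
      have : Bf ([] ++ sL :: (M1 ++ l0 :: (M2 ++ [sR]))) sL l0 := Bf.intro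
      exact this
    -- the general step
    have step : ∀ (τ : ℕ) (sg : V) (X M C : List V), sg ∈ Lvl G O Hs Ab S0 τ → τ ≤ t →
        F = X ++ sg :: (M ++ l0 :: C) →
        (∀ a b, EL (sg :: (M ++ [l0])) a b → ∀ τ' < τ, ¬ HE Hs (Lvl G O Hs Ab S0 τ') a b) →
        (∀ a b, EL (sg :: (M ++ [l0])) a b → HE Hs (Lvl G O Hs Ab S0 t) a b ∨
          HE Hs (Lvl G O Hs Ab S0 t) b a) →
        ∃ w0 ∈ S0, ∃ F', Ch H w0 z F' ∧ F'.Nodup ∧
          (∀ v ∈ F', v ∈ F ∨ (v ∈ O ∧ v ∉ N ∧ v ∉ Src ∧
            ∃ t' < t + 1, ∃ l, Btw Hs Ab (Lvl G O Hs Ab S0 t') l ∧ v ∈ Att G O l)) ∧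
          ∀ a b, EL F a b → (∀ t' < t + 1, ¬ HE Hs (Lvl G O Hs Ab S0 t') a b) →
            (∀ t' < t + 1, ¬ HE Hs (Lvl G O Hs Ab S0 t') b a) → EL F' a b := by
      intro τ sg X M C hsg hτ hFe hmin hhe
      have hsw : sg ≠ w := fun h => hwt (h ▸ Lvl.mono hτ hsg)
      rw [hFe] at hF hFn
      obtain ⟨K, k1, k2, k3, k4⟩ := hopStep hGH hF hFn hsw hcon (by
        intro v hv hvO
        rw [← hFe] at hv
        exact (i2 v hv hvO).2.2 t (by omega) l0 hl0)
      have hKO : ∀ v ∈ K, v ∈ O ∧ v ∉ N ∧ v ∉ Src ∧ v ∈ Att G O l0 := by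
        intro v hv
        obtain ⟨g1, g2, g3⟩ := k1 v hv
        refine ⟨g1, hN t (by omega) l0 hl0 v g2, ?_, g2⟩
        intro h
        exact hwt (Lvl.mono (Nat.zero_le _) (hSrc w hwh v g3 h))
      have hmem : ∀ v ∈ sg :: (X.reverse ++ (K ++ l0 :: C)), v ∈ F ∨ v ∈ K := by
        intro v hv
        rw [hFe]
        simp only [List.mem_cons, List.mem_append, List.mem_reverse] at hv ⊢
        tauto
      obtain ⟨w0, h0, F', h1, h2, h3, h4⟩ := ih τ (by omega) (fun t' ht' => hN t' (by omega)) sg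
        hsg _ k2 k3 (by
          intro τ' hτ' a b hab
          have h5 := i1 τ' (by omega) a b hab
          rw [hFe] at h5
          rcases k4 a b h5 with h | h
          · exact absurd hab (hmin a b h τ' hτ')
          · exact h) (by
          intro v hv hvO
          rcases hmem v hv with h | h
          · obtain ⟨g1, g2, g3⟩ := i2 v h hvO
            exact ⟨g1, g2, fun t' ht' => g3 t' (by omega)⟩
          · obtain ⟨g1, g2, g3, g4⟩ := hKO v h
            refine ⟨g2, g3, ?_⟩
            intro t' ht' l hl hva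
            apply hwt
            have h5 : w ∈ Lvl G O Hs Ab S0 (t' + 1) :=
              Or.inr ⟨hwh, l, hl, con_of_att hva (k1 v h).2.2⟩
            exact Lvl.mono (by omega) h5)
      refine ⟨w0, h0, F', h1, h2, ?_, ?_⟩
      · intro v hv
        rcases h3 v hv with h | ⟨g1, g2, g3, t', g4, g5⟩
        · rcases hmem v h with h | h
          · exact Or.inl h
          · obtain ⟨g1, g2, g3, g4⟩ := hKO v h
            exact Or.inr ⟨g1, g2, g3, t, by omega, l0, hl0, g4⟩
        · exact Or.inr ⟨g1, g2, g3, t', by omega, g5⟩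
      · intro a b hab n1 n2
        rw [hFe] at hab
        rcases k4 a b hab with h | h
        · rcases hhe a b h with h | h
          · exact absurd h (n1 t (by omega))
          · exact absurd h (n2 t (by omega))
        · exact h4 a b h (fun t' ht' => n1 t' (by omega)) (fun t' ht' => n2 t' (by omega))
    have piL : sL :: (M1 ++ [l0]) <:+: sL :: (M1 ++ l0 :: (M2 ++ [sR])) :=
      ⟨[], M2 ++ [sR], by simp⟩
    have piR : l0 :: (M2 ++ [sR]) <:+: sL :: (M1 ++ l0 :: (M2 ++ [sR])) :=
      ⟨sL :: M1, [], by simp⟩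
    rcases infix_of_EL hFn hIn (by simp) hIF hIE with ⟨X, Y, hXY⟩ | ⟨X, Y, hXY⟩
    · refine step tL sL X M1 (M2 ++ sR :: Y) hsL htL (by rw [← hXY]; simp) ?_ ?_
      · intro a b hab
        exact hnoL a b hab
      · intro a b hab
        rcases hab with h | h
        · exact Or.inl (hheI a b (h.trans piL))
        · exact Or.inr (hheI b a (h.trans piL))
    · refine step tR sR X M2.reverse (M1.reverse ++ sL :: Y) hsR htR (by rw [← hXY]; simp) ?_ ?_
      · intro a b hab
        have hab' := hab.reverse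
        have e : (sR :: (M2.reverse ++ [l0])).reverse = l0 :: (M2 ++ [sR]) := by simp
        rw [e] at hab'
        exact hnoR a b hab'
      · intro a b hab
        have hab' := hab.reverse
        have e : (sR :: (M2.reverse ++ [l0])).reverse = l0 :: (M2 ++ [sR]) := by simp
        rw [e] at hab'
        rcases hab' with h | h
        · exact Or.inl (hheI a b (h.trans piR))
        · exact Or.inr (hheI b a (h.trans piR))

end

end Pool.Agent.LW
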