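import Pool.Agent.LW.Hop

set_option autoImplicit false

/-!
# The hopping lemma with an extra cycle
-/

namespace Pool.Agent.LW

open SimpleGraph Classical

universe w

variable {V : Type w} {G H : SimpleGraph V} {L : Finset (Sym2 V)}

section

variable {O Ab S0 N Src : Set V} {Hs : List (List V)}

/-- a list all whose consecutive pairs lie on one of two disjoint lists lies on one of them -/
theorem one_of_two {I F C : List V} (hFC : ∀ v ∈ F, v ∉ C)
    (h : ∀ a b, [a, b] <:+: I → EL F a b ∨ EL C a b) :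
    (∀ a b, [a, b] <:+: I → EL F a b) ∨ (∀ a b, [a, b] <:+: I → EL C a b) := by
  induction I with
  | nil =>
    left
    intro a b hab
    have := hab.length_le
    simp at this
  | cons p I ih =>
    have h1 := ih (fun a b hab => h a b (hab.trans (List.infix_cons List.infix_rfl)))
    cases I with
    | nil =>
      left
      intro a b hab
      have := hab.length_le
      simp at this
    | cons q I =>
      have hpq := h p q ⟨[], I, by simp⟩
      cases I with
      | nil =>
        have key : ∀ a b, [a, b] <:+: [p, q] → a = p ∧ b = q := by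
          intro a b hab
          have := List.IsInfix.eq_of_length hab rfl
          simpa using this
        rcases hpq with h2 | h2
        · left
          intro a b hab
          obtain ⟨h3, h4⟩ := key a b hab
          rw [h3, h4]; exact h2
        · right
          intro a b hab
          obtain ⟨h3, h4⟩ := key a b hab
          rw [h3, h4]; exact h2
      | cons r I =>
        have hqr : [q, r] <:+: q :: r :: I := ⟨[], I, by simp⟩
        have split : ∀ a b, [a, b] <:+: p :: q :: r :: I →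
            (a = p ∧ b = q) ∨ [a, b] <:+: q :: r :: I := by
          intro a b hab
          rcases List.infix_cons_iff.1 hab with h2 | h2
          · left
            obtain ⟨t, ht⟩ := h2
            simp only [List.cons_append, List.nil_append, List.cons.injEq] at ht
            exact ⟨ht.1, ht.2.1⟩
          · exact Or.inr h2
        rcases h1 with h1 | h1
        · left
          intro a b hab
          rcases split a b hab with ⟨h3, h4⟩ | h3
          · rcases hpq with h2 | h2
            · rw [h3, h4]; exact h2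
            · exact absurd h2.memR (hFC q (h1 q r hqr).memL)
          · exact h1 a b h3
        · right
          intro a b hab
          rcases split a b hab with ⟨h3, h4⟩ | h3
          · rcases hpq with h2 | h2
            · exact absurd (h1 q r hqr).memL (hFC q h2.memR)
            · rw [h3, h4]; exact h2
          · exact h1 a b h3

theorem nd_absorb {X M Y K F0 : List V} {sg l0 w : V}
    (hn : (X ++ sg :: (M ++ l0 :: Y)).Nodup) (hFn : (w :: F0).Nodup)
    (hFC : ∀ v ∈ w :: F0, v ∉ X ++ sg :: (M ++ l0 :: Y)) (hK : K.Nodup)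
    (hKl : ∀ v ∈ K, v ∉ w :: F0 ∧ v ∉ X ++ sg :: (M ++ l0 :: Y)) :
    ((sg :: X.reverse) ++ (Y.reverse ++ l0 :: (K.reverse ++ w :: F0))).Nodup := by
  simp only [List.nodup_append', List.nodup_cons, List.mem_append, List.mem_cons,
    List.disjoint_left, List.mem_reverse, List.nodup_reverse, not_or, List.cons_append,
    forall_eq_or_imp] at hn hFn hFC hKl ⊢
  grind

/-- the hopping lemma with an extra cycle `C`, closed by an edge `c2 c1` -/
theorem hopC (hGH : G ≤ H) (hnd : Hs.flatten.Nodup)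
    (hSrc : ∀ w ∈ Hs.flatten, ∀ o ∈ Att G O w, o ∈ Src → w ∈ S0) {z c1 c2 : V} {C : List V}
    (hC : Ch H c1 c2 C) (hCn : C.Nodup) (hcl : H.Adj c2 c1) : ∀ t : ℕ,
    (∀ t' < t, ∀ l, Btw Hs Ab (Lvl G O Hs Ab S0 t') l → ∀ o ∈ Att G O l, o ∉ N) →
    ∀ w ∈ Lvl G O Hs Ab S0 t, ∀ F, Ch H w z F → F.Nodup → (∀ v ∈ F, v ∉ C) →
    (∀ t' < t, ∀ a b, HE Hs (Lvl G O Hs Ab S0 t') a b → EL F a b ∨ EL C a b) →
    (∀ v, v ∈ F ∨ v ∈ C → v ∈ O → v ∉ N ∧ v ∉ Src ∧
      ∀ t' < t, ∀ l, Btw Hs Ab (Lvl G O Hs Ab S0 t') l → v ∉ Att G O l) →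
    ∃ w0 ∈ S0, ∃ F', Ch H w0 z F' ∧ F'.Nodup ∧
      (∀ a b, EL F a b → (∀ t' < t, ¬ HE Hs (Lvl G O Hs Ab S0 t') a b) →
        (∀ t' < t, ¬ HE Hs (Lvl G O Hs Ab S0 t') b a) → EL F' a b) ∧
      (((∀ v ∈ F', v ∉ C) ∧ ∀ v ∈ F', v ∈ F ∨ (v ∈ O ∧ v ∉ N ∧ v ∉ Src ∧
          ∃ t' < t, ∃ l, Btw Hs Ab (Lvl G O Hs Ab S0 t') l ∧ v ∈ Att G O l)) ∨
        ((∀ v ∈ F', v ∈ F ∨ v ∈ C ∨ (v ∈ O ∧ v ∉ N ∧ v ∉ Src ∧
          ∃ t' < t, ∃ l, Btw Hs Ab (Lvl G O Hs Ab S0 t') l ∧ v ∈ Att G O l)) ∧
        (EL F' c2 c1 ∨ (∃ t' < t, HE Hs (Lvl G O Hs Ab S0 t') c1 c2) ∨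
          ∃ t' < t, HE Hs (Lvl G O Hs Ab S0 t') c2 c1) ∧
        ∀ a b, EL C a b → (∀ t' < t, ¬ HE Hs (Lvl G O Hs Ab S0 t') a b) →
          (∀ t' < t, ¬ HE Hs (Lvl G O Hs Ab S0 t') b a) → EL F' a b)) := by
  intro t
  induction t using Nat.strong_induction_on with
  | _ t ih =>
    intro hN w hw F hF hFn hFC i1 i2
    rcases t with _ | t
    · exact ⟨w, hw, F, hF, hFn, fun a b h _ _ => h, Or.inl ⟨hFC, fun v hv => Or.inl hv⟩⟩
    by_cases hwt : w ∈ Lvl G O Hs Ab S0 t
    · obtain ⟨w0, h0, F', h1, h2, h3, h4⟩ := ih t (by omega) (fun t' ht' => hN t' (by omega)) w hwt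
        F hF hFn hFC (fun t' ht' => i1 t' (by omega))
        (fun v hv hvO => ⟨(i2 v hv hvO).1, (i2 v hv hvO).2.1,
          fun t' ht' => (i2 v hv hvO).2.2 t' (by omega)⟩)
      have up : ∀ v, (v ∈ O ∧ v ∉ N ∧ v ∉ Src ∧
          ∃ t' < t, ∃ l, Btw Hs Ab (Lvl G O Hs Ab S0 t') l ∧ v ∈ Att G O l) →
          (v ∈ O ∧ v ∉ N ∧ v ∉ Src ∧
          ∃ t' < t + 1, ∃ l, Btw Hs Ab (Lvl G O Hs Ab S0 t') l ∧ v ∈ Att G O l) := by
        rintro v ⟨g1, g2, g3, t', g4, g5⟩
        exact ⟨g1, g2, g3, t', by omega, g5⟩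
      refine ⟨w0, h0, F', h1, h2, ?_, ?_⟩
      · intro a b hab n1 n2
        exact h3 a b hab (fun t' ht' => n1 t' (by omega)) (fun t' ht' => n2 t' (by omega))
      · rcases h4 with ⟨g1, g2⟩ | ⟨g1, g2, g3⟩
        · left
          exact ⟨g1, fun v hv => (g2 v hv).imp id (up v)⟩
        · right
          refine ⟨fun v hv => (g1 v hv).imp id (Or.imp id (up v)), ?_, ?_⟩
          · rcases g2 with g2 | ⟨t', g2, g4⟩ | ⟨t', g2, g4⟩
            · exact Or.inl g2
            · exact Or.inr (Or.inl ⟨t', by omega, g4⟩)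
            · exact Or.inr (Or.inr ⟨t', by omega, g4⟩)
          · intro a b hab n1 n2
            exact g3 a b hab (fun t' ht' => n1 t' (by omega)) (fun t' ht' => n2 t' (by omega))
    obtain ⟨l0, sL, sR, M1, M2, tL, tR, hwh, hl0, hcon, hsL, htL, hsR, htR, hIn, hheI, hnoL,
      hnoR⟩ := Lvl.piece hnd hw hwt
    have hIE : ∀ a b, [a, b] <:+: sL :: (M1 ++ l0 :: (M2 ++ [sR])) → EL F a b ∨ EL C a b :=
      fun a b hab => i1 t (by omega) a b (hheI a b hab)
    have hsub : [sL, l0].Sublist (sL :: (M1 ++ l0 :: (M2 ++ [sR]))) := by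
      have : Bf ([] ++ sL :: (M1 ++ l0 :: (M2 ++ [sR]))) sL l0 := Bf.intro
      exact this
    -- facts on the link
    have hlink : ∀ v, v ∈ O → v ∈ Att G O l0 → v ∈ Att G O w →
        v ∉ N ∧ v ∉ Src ∧ (∀ t' < t, ∀ l, Btw Hs Ab (Lvl G O Hs Ab S0 t') l → v ∉ Att G O l) := by
      intro v hvO h1 h2
      refine ⟨hN t (by omega) l0 hl0 v h1, ?_, ?_⟩
      · intro h
        exact hwt (Lvl.mono (Nat.zero_le _) (hSrc w hwh v h2 h))
      · intro t' ht' l hl hva
        apply hwt
        have h5 : w ∈ Lvl G O Hs Ab S0 (t' + 1) :=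
          Or.inr ⟨hwh, l, hl, con_of_att hva h2⟩
        exact Lvl.mono (by omega) h5
    have piL : sL :: (M1 ++ [l0]) <:+: sL :: (M1 ++ l0 :: (M2 ++ [sR])) :=
      ⟨[], M2 ++ [sR], by simp⟩
    have piR : l0 :: (M2 ++ [sR]) <:+: sL :: (M1 ++ l0 :: (M2 ++ [sR])) :=
      ⟨sL :: M1, [], by simp⟩
    rcases one_of_two hFC hIE with hIE | hIE
    · -- the piece is on `F`
      have hIF := mem_of_pairs hsub (fun a b hab => ⟨(hIE a b hab).memL, (hIE a b hab).memR⟩)
      have step : ∀ (τ : ℕ) (sg : V) (X M Y : List V), sg ∈ Lvl G O Hs Ab S0 τ → τ ≤ t →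
          F = X ++ sg :: (M ++ l0 :: Y) →
          (∀ a b, EL (sg :: (M ++ [l0])) a b → ∀ τ' < τ, ¬ HE Hs (Lvl G O Hs Ab S0 τ') a b) →
          (∀ a b, EL (sg :: (M ++ [l0])) a b → HE Hs (Lvl G O Hs Ab S0 t) a b ∨
            HE Hs (Lvl G O Hs Ab S0 t) b a) →
          ∃ w0 ∈ S0, ∃ F', Ch H w0 z F' ∧ F'.Nodup ∧
            (∀ a b, EL F a b → (∀ t' < t + 1, ¬ HE Hs (Lvl G O Hs Ab S0 t') a b) →
              (∀ t' < t + 1, ¬ HE Hs (Lvl G O Hs Ab S0 t') b a) → EL F' a b) ∧
            (((∀ v ∈ F', v ∉ C) ∧ ∀ v ∈ F', v ∈ F ∨ (v ∈ O ∧ v ∉ N ∧ v ∉ Src ∧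
                ∃ t' < t + 1, ∃ l, Btw Hs Ab (Lvl G O Hs Ab S0 t') l ∧ v ∈ Att G O l)) ∨
              ((∀ v ∈ F', v ∈ F ∨ v ∈ C ∨ (v ∈ O ∧ v ∉ N ∧ v ∉ Src ∧
                ∃ t' < t + 1, ∃ l, Btw Hs Ab (Lvl G O Hs Ab S0 t') l ∧ v ∈ Att G O l)) ∧
              (EL F' c2 c1 ∨ (∃ t' < t + 1, HE Hs (Lvl G O Hs Ab S0 t') c1 c2) ∨
                ∃ t' < t + 1, HE Hs (Lvl G O Hs Ab S0 t') c2 c1) ∧
              ∀ a b, EL C a b → (∀ t' < t + 1, ¬ HE Hs (Lvl G O Hs Ab S0 t') a b) →
                (∀ t' < t + 1, ¬ HE Hs (Lvl G O Hs Ab S0 t') b a) → EL F' a b)) := by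
        intro τ sg X M Y hsg hτ hFe hmin hhe
        have hsw : sg ≠ w := fun h => hwt (h ▸ Lvl.mono hτ hsg)
        rw [hFe] at hF hFn
        obtain ⟨K, k1, k2, k3, k4⟩ := hopStep hGH hF hFn hsw hcon (by
          intro v hv hvO
          rw [← hFe] at hv
          exact (i2 v (Or.inl hv) hvO).2.2 t (by omega) l0 hl0)
        have hKC : ∀ v ∈ K, v ∉ C := by
          intro v hv hvC
          exact (i2 v (Or.inr hvC) (k1 v hv).1).2.2 t (by omega) l0 hl0 (k1 v hv).2.1
        have hmem : ∀ v ∈ sg :: (X.reverse ++ (K ++ l0 :: Y)), v ∈ F ∨ v ∈ K := by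
          intro v hv
          rw [hFe]
          simp only [List.mem_cons, List.mem_append, List.mem_reverse] at hv ⊢
          tauto
        obtain ⟨w0, h0, F', h1, h2, h3, h4⟩ := ih τ (by omega) (fun t' ht' => hN t' (by omega))
          sg hsg _ k2 k3 (by
            intro v hv
            rcases hmem v hv with h | h
            · exact hFC v h
            · exact hKC v h) (by
            intro τ' hτ' a b hab
            rcases i1 τ' (by omega) a b hab with h5 | h5
            · left
              rw [hFe] at h5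
              rcases k4 a b h5 with h | h
              · exact absurd hab (hmin a b h τ' hτ')
              · exact h
            · exact Or.inr h5) (by
            intro v hv hvO
            rcases hv with hv | hv
            · rcases hmem v hv with h | h
              · obtain ⟨g1, g2, g3⟩ := i2 v (Or.inl h) hvO
                exact ⟨g1, g2, fun t' ht' => g3 t' (by omega)⟩
              · obtain ⟨g1, g2, g3⟩ := hlink v hvO (k1 v h).2.1 (k1 v h).2.2
                exact ⟨g1, g2, fun t' ht' => g3 t' (by omega)⟩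
            · obtain ⟨g1, g2, g3⟩ := i2 v (Or.inr hv) hvO
              exact ⟨g1, g2, fun t' ht' => g3 t' (by omega)⟩)
        have hup : ∀ v, (v ∈ O ∧ v ∉ N ∧ v ∉ Src ∧
            ∃ t' < τ, ∃ l, Btw Hs Ab (Lvl G O Hs Ab S0 t') l ∧ v ∈ Att G O l) →
            (v ∈ O ∧ v ∉ N ∧ v ∉ Src ∧
            ∃ t' < t + 1, ∃ l, Btw Hs Ab (Lvl G O Hs Ab S0 t') l ∧ v ∈ Att G O l) := by
          rintro v ⟨g1, g2, g3, t', g4, g5⟩
          exact ⟨g1, g2, g3, t', by omega, g5⟩
        have hKup : ∀ v ∈ K, (v ∈ O ∧ v ∉ N ∧ v ∉ Src ∧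
            ∃ t' < t + 1, ∃ l, Btw Hs Ab (Lvl G O Hs Ab S0 t') l ∧ v ∈ Att G O l) := by
          intro v hv
          obtain ⟨g0, g4, g5⟩ := k1 v hv
          obtain ⟨g1, g2, g3⟩ := hlink v g0 g4 g5
          exact ⟨g0, g1, g2, t, by omega, l0, hl0, g4⟩
        refine ⟨w0, h0, F', h1, h2, ?_, ?_⟩
        · intro a b hab n1 n2
          rw [hFe] at hab
          rcases k4 a b hab with h | h
          · rcases hhe a b h with h | h
            · exact absurd h (n1 t (by omega))
            · exact absurd h (n2 t (by omega))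
          · exact h3 a b h (fun t' ht' => n1 t' (by omega)) (fun t' ht' => n2 t' (by omega))
        · rcases h4 with ⟨g1, g2⟩ | ⟨g1, g2, g3⟩
          · left
            refine ⟨g1, ?_⟩
            intro v hv
            rcases g2 v hv with h | h
            · rcases hmem v h with h | h
              · exact Or.inl h
              · exact Or.inr (hKup v h)
            · exact Or.inr (hup v h)
          · right
            refine ⟨?_, ?_, ?_⟩
            · intro v hv
              rcases g1 v hv with h | h | h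
              · rcases hmem v h with h | h
                · exact Or.inl h
                · exact Or.inr (Or.inr (hKup v h))
              · exact Or.inr (Or.inl h)
              · exact Or.inr (Or.inr (hup v h))
            · rcases g2 with g2 | ⟨t', g2, g4⟩ | ⟨t', g2, g4⟩
              · exact Or.inl g2
              · exact Or.inr (Or.inl ⟨t', by omega, g4⟩)
              · exact Or.inr (Or.inr ⟨t', by omega, g4⟩)
            · intro a b hab n1 n2
              exact g3 a b hab (fun t' ht' => n1 t' (by omega)) (fun t' ht' => n2 t' (by omega))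
      rcases infix_of_EL hFn hIn (by simp) hIF hIE with ⟨X, Y, hXY⟩ | ⟨X, Y, hXY⟩
      · refine step tL sL X M1 (M2 ++ sR :: Y) hsL htL (by rw [← hXY]; simp) ?_ ?_
        · intro a b hab
          exact hnoL a b hab
        · intro a b hab
          rcases hab with h | h
          · exact Or.inl (hheI a b (h.trans piL))
          · exact Or.inr (hheI b a (h.trans piL))
      · refine step tR sR X M2.reverse (M1.reverse ++ sL :: Y) hsR htR (by rw [← hXY]; simp) ?_ ?_
        · intro a b hab
          have hab' := hab.reverse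
          have e : (sR :: (M2.reverse ++ [l0])).reverse = l0 :: (M2 ++ [sR]) := by simp
          rw [e] at hab'
          exact hnoR a b hab'
        · intro a b hab
          have hab' := hab.reverse
          have e : (sR :: (M2.reverse ++ [l0])).reverse = l0 :: (M2 ++ [sR]) := by simp
          rw [e] at hab'
          rcases hab' with h | h
          · exact Or.inl (hheI a b (h.trans piR))
          · exact Or.inr (hheI b a (h.trans piR))
    · -- the piece is on `C`
      have hIC := mem_of_pairs hsub (fun a b hab => ⟨(hIE a b hab).memL, (hIE a b hab).memR⟩)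
      have step : ∀ (τ : ℕ) (sg d1 d2 : V) (X M Y : List V), sg ∈ Lvl G O Hs Ab S0 τ → τ ≤ t →
          Ch H d1 d2 (X ++ sg :: (M ++ l0 :: Y)) → (X ++ sg :: (M ++ l0 :: Y)).Nodup →
          H.Adj d2 d1 → (∀ v, v ∈ X ++ sg :: (M ++ l0 :: Y) ↔ v ∈ C) →
          (∀ a b, EL C a b ↔ EL (X ++ sg :: (M ++ l0 :: Y)) a b) →
          (d1 = c1 ∧ d2 = c2 ∨ d1 = c2 ∧ d2 = c1) →
          (∀ a b, EL (sg :: (M ++ [l0])) a b → ∀ τ' < τ, ¬ HE Hs (Lvl G O Hs Ab S0 τ') a b) →
          (∀ a b, EL (sg :: (M ++ [l0])) a b → HE Hs (Lvl G O Hs Ab S0 t) a b ∨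
            HE Hs (Lvl G O Hs Ab S0 t) b a) →
          ∃ w0 ∈ S0, ∃ F', Ch H w0 z F' ∧ F'.Nodup ∧
            (∀ a b, EL F a b → (∀ t' < t + 1, ¬ HE Hs (Lvl G O Hs Ab S0 t') a b) →
              (∀ t' < t + 1, ¬ HE Hs (Lvl G O Hs Ab S0 t') b a) → EL F' a b) ∧
            ((∀ v ∈ F', v ∈ F ∨ v ∈ C ∨ (v ∈ O ∧ v ∉ N ∧ v ∉ Src ∧
                ∃ t' < t + 1, ∃ l, Btw Hs Ab (Lvl G O Hs Ab S0 t') l ∧ v ∈ Att G O l)) ∧
              (EL F' c2 c1 ∨ (∃ t' < t + 1, HE Hs (Lvl G O Hs Ab S0 t') c1 c2) ∨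
                ∃ t' < t + 1, HE Hs (Lvl G O Hs Ab S0 t') c2 c1) ∧
              ∀ a b, EL C a b → (∀ t' < t + 1, ¬ HE Hs (Lvl G O Hs Ab S0 t') a b) →
                (∀ t' < t + 1, ¬ HE Hs (Lvl G O Hs Ab S0 t') b a) → EL F' a b) := by
        intro τ sg d1 d2 X M Y hsg hτ hc hn hcl' hm hEC hd hmin hhe
        obtain ⟨K, k1, k2, k3⟩ := hcon.symm.link
        obtain ⟨F0, hF0⟩ : ∃ F0, F = w :: F0 := by
          cases F with
          | nil => exact absurd rfl hF.ne
          | cons p F =>
            have := hF.hd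
            simp only [List.head?_cons, Option.some.injEq] at this
            exact ⟨F, by rw [this]⟩
        subst hF0
        have hKl : ∀ v ∈ K, v ∉ w :: F0 ∧ v ∉ C := by
          intro v hv
          have h1 := k3 v hv
          exact ⟨fun h => (i2 v (Or.inl h) h1.1).2.2 t (by omega) l0 hl0 h1.2.2,
            fun h => (i2 v (Or.inr h) h1.1).2.2 t (by omega) l0 hl0 h1.2.2⟩
        -- the new path
        have c1' : Ch H sg d1 (sg :: X.reverse) := by
          have := hc.left.reverse
          simpa using this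
        have c2' : Ch H d2 l0 (Y.reverse ++ [l0]) := by
          have h1 : Ch H d1 d2 ((X ++ sg :: M) ++ l0 :: Y) := by simpa using hc
          have := h1.right.reverse
          simpa using this
        have c3' : Ch H l0 w ((l0 :: K.reverse) ++ [w]) := by
          have := k1.reverse.mono hGH
          simpa using this
        have c4' : Ch H l0 z (l0 :: (K.reverse ++ w :: F0)) := by
          have := c3'.glue hF
          simpa using this
        have c5' : Ch H sg z ((sg :: X.reverse) ++ (Y.reverse ++ l0 :: (K.reverse ++ w :: F0))) :=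
          c1'.append (c2'.glue c4') hcl'.symm
        have hnew : (((sg :: X.reverse) ++ (Y.reverse ++ l0 :: (K.reverse ++ w :: F0)))).Nodup := by
          have hFC' : ∀ v ∈ w :: F0, v ∉ X ++ sg :: (M ++ l0 :: Y) :=
            fun v hv hv' => hFC v hv ((hm v).1 hv')
          have hKl' : ∀ v ∈ K, v ∉ w :: F0 ∧ v ∉ X ++ sg :: (M ++ l0 :: Y) :=
            fun v hv => ⟨(hKl v hv).1, fun hv' => (hKl v hv).2 ((hm v).1 hv')⟩
          exact nd_absorb hn hFn hFC' k2 hKl'
        have hKO : ∀ v ∈ K, v ∈ O ∧ v ∉ N ∧ v ∉ Src ∧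
            ∃ t' < t + 1, ∃ l, Btw Hs Ab (Lvl G O Hs Ab S0 t') l ∧ v ∈ Att G O l := by
          intro v hv
          obtain ⟨g0, g4, g5⟩ := k3 v hv
          obtain ⟨g1, g2, g3⟩ := hlink v g0 g5 g4
          exact ⟨g0, g1, g2, t, by omega, l0, hl0, g5⟩
        have hmem : ∀ v ∈ (sg :: X.reverse) ++ (Y.reverse ++ l0 :: (K.reverse ++ w :: F0)),
            v ∈ w :: F0 ∨ v ∈ C ∨ v ∈ K := by
          intro v hv
          rw [← hm]
          simp only [List.mem_cons, List.mem_append, List.mem_reverse] at hv ⊢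
          tauto
        have hedF : ∀ a b, EL (w :: F0) a b →
            EL ((sg :: X.reverse) ++ (Y.reverse ++ l0 :: (K.reverse ++ w :: F0))) a b := by
          intro a b hab
          exact hab.mono ⟨(sg :: X.reverse) ++ (Y.reverse ++ l0 :: K.reverse), [], by simp⟩
        have hedC : ∀ a b, EL C a b → EL (sg :: (M ++ [l0])) a b ∨
            EL ((sg :: X.reverse) ++ (Y.reverse ++ l0 :: (K.reverse ++ w :: F0))) a b := by
          intro a b hab
          rcases ((hEC a b).1 hab).split with h | h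
          · right
            have h1 := h.reverse
            have e : (X ++ [sg]).reverse = sg :: X.reverse := by simp
            rw [e] at h1
            exact h1.mono ⟨[], _, rfl⟩
          · have h' : EL ((sg :: M) ++ l0 :: Y) a b := h
            rcases h'.split with h | h
            · exact Or.inl h
            · right
              have h1 := h.reverse
              have e : (l0 :: Y).reverse = Y.reverse ++ [l0] := by simp
              rw [e] at h1
              exact h1.mono ⟨sg :: X.reverse, K.reverse ++ w :: F0, by simp⟩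
        have hcle : EL ((sg :: X.reverse) ++ (Y.reverse ++ l0 :: (K.reverse ++ w :: F0))) d1 d2 := by
          have h1 := c1'.lt
          have h2 := c2'.hd
          obtain ⟨U, hU⟩ : ∃ U, sg :: X.reverse = U ++ [d1] := by
            rcases List.eq_nil_or_concat (sg :: X.reverse) with h | ⟨U, q, h⟩
            · simp at h
            · refine ⟨U, ?_⟩
              rw [h] at h1 ⊢
              simp only [List.concat_eq_append, List.getLast?_append, List.getLast?_singleton,
                Option.some_or, Option.some.injEq] at h1 ⊢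
              rw [h1]
          obtain ⟨W, hW⟩ : ∃ W, Y.reverse ++ [l0] = d2 :: W := by
            cases hY : Y.reverse ++ [l0] with
            | nil => simp at hY
            | cons q W =>
              rw [hY] at h2
              simp only [List.head?_cons, Option.some.injEq] at h2
              exact ⟨W, by rw [h2]⟩
          have e : (sg :: X.reverse) ++ (Y.reverse ++ l0 :: (K.reverse ++ w :: F0)) =
              (sg :: X.reverse) ++ ((Y.reverse ++ [l0]) ++ (K.reverse ++ w :: F0)) := by simp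
          rw [e, hU, hW]
          exact Or.inl ⟨U, W ++ (K.reverse ++ w :: F0), by simp⟩
        obtain ⟨w0, h0, F', h1, h2, h3, h4⟩ := hopL hGH hnd hSrc τ
          (fun t' ht' => hN t' (by omega)) sg hsg _ c5' hnew (by
            intro τ' hτ' a b hab
            rcases i1 τ' (by omega) a b hab with h5 | h5
            · exact hedF a b h5
            · rcases hedC a b h5 with h | h
              · exact absurd hab (hmin a b h τ' hτ')
              · exact h) (by
            intro v hv hvO
            rcases hmem v hv with h | h | h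
            · obtain ⟨g1, g2, g3⟩ := i2 v (Or.inl h) hvO
              exact ⟨g1, g2, fun t' ht' => g3 t' (by omega)⟩
            · obtain ⟨g1, g2, g3⟩ := i2 v (Or.inr h) hvO
              exact ⟨g1, g2, fun t' ht' => g3 t' (by omega)⟩
            · obtain ⟨g1, g2, g3⟩ := hlink v hvO (k3 v h).2.2 (k3 v h).2.1
              exact ⟨g1, g2, fun t' ht' => g3 t' (by omega)⟩)
        refine ⟨w0, h0, F', h1, h2, ?_, ?_, ?_, ?_⟩
        · intro a b hab n1 n2
          exact h4 a b (hedF a b hab) (fun t' ht' => n1 t' (by omega))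
            (fun t' ht' => n2 t' (by omega))
        · intro v hv
          rcases h3 v hv with h | ⟨g1, g2, g3, t', g4, g5⟩
          · rcases hmem v h with h | h | h
            · exact Or.inl h
            · exact Or.inr (Or.inl h)
            · exact Or.inr (Or.inr (hKO v h))
          · exact Or.inr (Or.inr ⟨g1, g2, g3, t', by omega, g5⟩)
        · have hcle' : EL ((sg :: X.reverse) ++ (Y.reverse ++ l0 :: (K.reverse ++ w :: F0)))
              c2 c1 := by
            rcases hd with ⟨e1, e2⟩ | ⟨e1, e2⟩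
            · rw [← e1, ← e2]; exact hcle.symm
            · rw [← e1, ← e2]; exact hcle
          by_cases n1 : ∃ t' < t + 1, HE Hs (Lvl G O Hs Ab S0 t') c1 c2
          · exact Or.inr (Or.inl n1)
          by_cases n2 : ∃ t' < t + 1, HE Hs (Lvl G O Hs Ab S0 t') c2 c1
          · exact Or.inr (Or.inr n2)
          left
          exact h4 _ _ hcle' (fun t' ht' h => n2 ⟨t', by omega, h⟩)
            (fun t' ht' h => n1 ⟨t', by omega, h⟩)
        · intro a b hab n1 n2
          rcases hedC a b hab with h | h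
          · rcases hhe a b h with h | h
            · exact absurd h (n1 t (by omega))
            · exact absurd h (n2 t (by omega))
          · exact h4 a b h (fun t' ht' => n1 t' (by omega)) (fun t' ht' => n2 t' (by omega))
      have fin : ∀ {P : Prop}, (∃ w0 ∈ S0, ∃ F', Ch H w0 z F' ∧ F'.Nodup ∧
            (∀ a b, EL F a b → (∀ t' < t + 1, ¬ HE Hs (Lvl G O Hs Ab S0 t') a b) →
              (∀ t' < t + 1, ¬ HE Hs (Lvl G O Hs Ab S0 t') b a) → EL F' a b) ∧
            ((∀ v ∈ F', v ∈ F ∨ v ∈ C ∨ (v ∈ O ∧ v ∉ N ∧ v ∉ Src ∧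
                ∃ t' < t + 1, ∃ l, Btw Hs Ab (Lvl G O Hs Ab S0 t') l ∧ v ∈ Att G O l)) ∧
              (EL F' c2 c1 ∨ (∃ t' < t + 1, HE Hs (Lvl G O Hs Ab S0 t') c1 c2) ∨
                ∃ t' < t + 1, HE Hs (Lvl G O Hs Ab S0 t') c2 c1) ∧
              ∀ a b, EL C a b → (∀ t' < t + 1, ¬ HE Hs (Lvl G O Hs Ab S0 t') a b) →
                (∀ t' < t + 1, ¬ HE Hs (Lvl G O Hs Ab S0 t') b a) → EL F' a b)) →
          ((∃ w0 ∈ S0, ∃ F', Ch H w0 z F' ∧ F'.Nodup ∧
            (∀ a b, EL F a b → (∀ t' < t + 1, ¬ HE Hs (Lvl G O Hs Ab S0 t') a b) →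
              (∀ t' < t + 1, ¬ HE Hs (Lvl G O Hs Ab S0 t') b a) → EL F' a b) ∧
            (((∀ v ∈ F', v ∉ C) ∧ ∀ v ∈ F', v ∈ F ∨ (v ∈ O ∧ v ∉ N ∧ v ∉ Src ∧
                ∃ t' < t + 1, ∃ l, Btw Hs Ab (Lvl G O Hs Ab S0 t') l ∧ v ∈ Att G O l)) ∨
              ((∀ v ∈ F', v ∈ F ∨ v ∈ C ∨ (v ∈ O ∧ v ∉ N ∧ v ∉ Src ∧
                ∃ t' < t + 1, ∃ l, Btw Hs Ab (Lvl G O Hs Ab S0 t') l ∧ v ∈ Att G O l)) ∧
              (EL F' c2 c1 ∨ (∃ t' < t + 1, HE Hs (Lvl G O Hs Ab S0 t') c1 c2) ∨
                ∃ t' < t + 1, HE Hs (Lvl G O Hs Ab S0 t') c2 c1) ∧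
              ∀ a b, EL C a b → (∀ t' < t + 1, ¬ HE Hs (Lvl G O Hs Ab S0 t') a b) →
                (∀ t' < t + 1, ¬ HE Hs (Lvl G O Hs Ab S0 t') b a) → EL F' a b))) → P) → P := by
        intro P h1 h2
        obtain ⟨w0, g0, F', g1, g2, g3, g4⟩ := h1
        exact h2 ⟨w0, g0, F', g1, g2, g3, Or.inr g4⟩
      rcases infix_of_EL hCn hIn (by simp) hIC hIE with ⟨X, Y, hXY⟩ | ⟨X, Y, hXY⟩
      · have e : C = X ++ sL :: (M1 ++ l0 :: (M2 ++ sR :: Y)) := by rw [← hXY]; simp
        refine fin (step tL sL c1 c2 X M1 (M2 ++ sR :: Y) hsL htL (e ▸ hC) (e ▸ hCn) hcl ?_ ?_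
          (Or.inl ⟨rfl, rfl⟩) ?_ ?_) id
        · intro v; rw [← e]
        · intro a b; rw [← e]
        · intro a b hab
          exact hnoL a b hab
        · intro a b hab
          rcases hab with h | h
          · exact Or.inl (hheI a b (h.trans piL))
          · exact Or.inr (hheI b a (h.trans piL))
      · have e : C = X ++ sR :: (M2.reverse ++ l0 :: (M1.reverse ++ sL :: Y)) := by
          rw [← hXY]; simp
        refine fin (step tR sR c1 c2 X M2.reverse (M1.reverse ++ sL :: Y) hsR htR (e ▸ hC)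
          (e ▸ hCn) hcl ?_ ?_ (Or.inl ⟨rfl, rfl⟩) ?_ ?_) id
        · intro v; rw [← e]
        · intro a b; rw [← e]
        · intro a b hab
          have hab' := hab.reverse
          have e : (sR :: (M2.reverse ++ [l0])).reverse = l0 :: (M2 ++ [sR]) := by simp
          rw [e] at hab'
          exact hnoR a b hab'
        · intro a b hab
          have hab' := hab.reverse
          have e : (sR :: (M2.reverse ++ [l0])).reverse = l0 :: (M2 ++ [sR]) := by simp
          rw [e] at hab'
          rcases hab' with h | h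
          · exact Or.inl (hheI a b (h.trans piR))
          · exact Or.inr (hheI b a (h.trans piR))

end

end Pool.Agent.LW
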