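import Pool.Agent.LW.Base

set_option autoImplicit false

/-!
# List calculus: walks, order on a segment, segments and their reversal
-/

namespace Pool.Agent.LW

open SimpleGraph Classical

universe w

variable {V : Type w} {G H : SimpleGraph V} {L : Finset (Sym2 V)}

/-! ## walks as lists -/

theorem Ch.single (a : V) : Ch H a a [a] := ⟨rfl, rfl, List.isChain_singleton a⟩

theorem Ch.ne {a b : V} {F : List V} (h : Ch H a b F) : F ≠ [] := by
  intro h'; have := h.hd; rw [h'] at this; simp at this

theorem Ch.memL {a b : V} {F : List V} (h : Ch H a b F) : a ∈ F := List.mem_of_head? h.hd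

theorem Ch.memR {a b : V} {F : List V} (h : Ch H a b F) : b ∈ F := List.mem_of_getLast? h.lt

theorem Ch.mono {a b : V} {F : List V} (h : Ch G a b F) (hGH : G ≤ H) : Ch H a b F :=
  ⟨h.hd, h.lt, h.ch.imp (fun _ _ hab => hGH hab)⟩

theorem Ch.append {a b c d : V} {F F' : List V} (h : Ch H a b F) (h' : Ch H c d F')
    (hbc : H.Adj b c) : Ch H a d (F ++ F') := by
  refine ⟨?_, ?_, ?_⟩
  · rw [List.head?_append_of_ne_nil _ h.ne, h.hd]
  · rw [List.getLast?_append_of_ne_nil _ h'.ne, h'.lt]
  · refine h.ch.append h'.ch ?_
    intro p hp q hq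
    rw [h.lt] at hp
    rw [h'.hd] at hq
    simp only [Option.mem_def, Option.some.injEq] at hp hq
    rw [← hp, ← hq]
    exact hbc

theorem Ch.cons {a b c : V} {F : List V} (hab : H.Adj a b) (h : Ch H b c F) :
    Ch H a c (a :: F) := (Ch.single a).append h hab

theorem Ch.concat {a b c : V} {F : List V} (h : Ch H a b F) (hbc : H.Adj b c) :
    Ch H a c (F ++ [c]) := h.append (Ch.single c) hbc

theorem Ch.reverse {a b : V} {F : List V} (h : Ch H a b F) : Ch H b a F.reverse := by
  refine ⟨?_, ?_, ?_⟩
  · rw [List.head?_reverse, h.lt]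
  · rw [List.getLast?_reverse, h.hd]
  · rw [List.isChain_reverse]
    exact h.ch.imp (fun _ _ hab => hab.symm)

/-- joining two walks at a common vertex -/
theorem Ch.glue {a b c : V} {A D : List V} (h : Ch H a b (A ++ [b])) (h' : Ch H b c (b :: D)) :
    Ch H a c (A ++ b :: D) := by
  refine ⟨?_, ?_, ?_⟩
  · have := h.hd
    cases A with
    | nil => simpa using this
    | cons p A => simpa using this
  · rw [List.getLast?_append_of_ne_nil _ (by simp), h'.lt]
  · exact List.isChain_split.2 ⟨h.ch, h'.ch⟩

theorem Ch.left {a b c : V} {A D : List V} (h : Ch H a c (A ++ b :: D)) :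
    Ch H a b (A ++ [b]) := by
  refine ⟨?_, by simp, (List.isChain_split.1 h.ch).1⟩
  have := h.hd
  cases A with
  | nil => simpa using this
  | cons p A => simpa using this

theorem Ch.right {a b c : V} {A D : List V} (h : Ch H a c (A ++ b :: D)) :
    Ch H b c (b :: D) := by
  refine ⟨rfl, ?_, (List.isChain_split.1 h.ch).2⟩
  have := h.lt
  rwa [List.getLast?_append_of_ne_nil _ (by simp)] at this

theorem Ch.adj {a b c d : V} {A D : List V} (h : Ch H a d (A ++ b :: c :: D)) :
    H.Adj b c := by
  have := (List.isChain_append_cons_cons.1 h.ch).2.1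
  exact this

/-! ## consecutive vertices -/

theorem EL.symm {F : List V} {a b : V} (h : EL F a b) : EL F b a := h.elim Or.inr Or.inl

theorem infix_pair_reverse {F : List V} {a b : V} (h : [a, b] <:+: F) : [b, a] <:+: F.reverse := by
  have := List.reverse_infix.2 h
  simpa using this

theorem EL.reverse {F : List V} {a b : V} (h : EL F a b) : EL F.reverse a b := by
  rcases h with h | h
  · exact Or.inr (infix_pair_reverse h)
  · exact Or.inl (infix_pair_reverse h)

theorem EL.mono {F F' : List V} {a b : V} (h : EL F a b) (hF : F <:+: F') : EL F' a b :=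
  h.elim (fun h => Or.inl (h.trans hF)) (fun h => Or.inr (h.trans hF))

theorem EL.memL {F : List V} {a b : V} (h : EL F a b) : a ∈ F := by
  rcases h with h | h
  · exact h.subset (by simp)
  · exact h.subset (by simp)

theorem EL.memR {F : List V} {a b : V} (h : EL F a b) : b ∈ F := h.symm.memL

theorem infix_pair_split {A D : List V} {v a b : V} (h : [a, b] <:+: A ++ v :: D) :
    [a, b] <:+: A ++ [v] ∨ [a, b] <:+: v :: D := by
  induction A with
  | nil => exact Or.inr h
  | cons p A ih =>
    rw [List.cons_append, List.infix_cons_iff] at h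
    rcases h with h | h
    · left
      cases A with
      | nil =>
        obtain ⟨t, ht⟩ := h
        simp only [List.cons_append, List.nil_append, List.cons.injEq] at ht
        obtain ⟨h1, h2, -⟩ := ht
        rw [h1, h2]
        exact List.infix_rfl
      | cons q A =>
        obtain ⟨t, ht⟩ := h
        simp only [List.cons_append, List.nil_append, List.cons.injEq] at ht
        obtain ⟨h1, h2, -⟩ := ht
        rw [h1, h2]
        exact ⟨[], A ++ [v], by simp⟩
    · rcases ih h with h | h
      · left
        exact h.trans (List.infix_cons List.infix_rfl)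
      · exact Or.inr h

theorem EL.split {A D : List V} {v a b : V} (h : EL (A ++ v :: D) a b) :
    EL (A ++ [v]) a b ∨ EL (v :: D) a b := by
  rcases h with h | h
  · exact (infix_pair_split h).imp Or.inl Or.inl
  · exact (infix_pair_split h).imp Or.inr Or.inr

/-- a piece of a chain is a chain -/
theorem chain_of_inf {α : Type w} {R : α → α → Prop} {l l' : List α} (h : l.IsChain R)
    (h' : l' <:+: l) : l'.IsChain R := by
  obtain ⟨s, t, rfl⟩ := h'
  exact (List.isChain_append.1 (List.isChain_append.1 h).1).2.1

theorem EL.adj {F : List V} {a b : V} (h : EL F a b) (hc : F.IsChain H.Adj) : H.Adj a b := by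
  rcases h with h | h
  · have := chain_of_inf hc h
    simpa using this
  · have := chain_of_inf hc h
    exact (by simpa using this : H.Adj b a).symm

theorem EL.ex {F : List V} {a b : V} (h : EL F a b) :
    (∃ A D, F = A ++ a :: b :: D) ∨ ∃ A D, F = A ++ b :: a :: D := by
  rcases h with ⟨A, D, h⟩ | ⟨A, D, h⟩
  · exact Or.inl ⟨A, D, by rw [← h]; simp⟩
  · exact Or.inr ⟨A, D, by rw [← h]; simp⟩

theorem EL.intro {A D : List V} {a b : V} : EL (A ++ a :: b :: D) a b :=
  Or.inl ⟨A, D, by simp⟩

/-! ## order on a segment -/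

theorem Bf.split {F : List V} {a b : V} (h : Bf F a b) :
    ∃ A M D, F = A ++ a :: (M ++ b :: D) := by
  induction F with
  | nil => simp [Bf] at h
  | cons p F ih =>
    rcases List.sublist_cons_iff.1 h with h | ⟨r, hr, h⟩
    · obtain ⟨A, M, D, hF⟩ := ih h
      exact ⟨p :: A, M, D, by rw [hF]; simp⟩
    · simp only [List.cons.injEq] at hr
      obtain ⟨h1, h2⟩ := hr
      rw [← h2, List.singleton_sublist] at h
      obtain ⟨M, D, hF⟩ := List.append_of_mem h
      exact ⟨[], M, D, by rw [hF, h1]; simp⟩

theorem Bf.intro {A M D : List V} {a b : V} : Bf (A ++ a :: (M ++ b :: D)) a b := by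
  unfold Bf
  refine List.Sublist.trans ?_ (List.sublist_append_right A _)
  refine List.Sublist.cons_cons a ?_
  refine List.Sublist.trans ?_ (List.sublist_append_right M _)
  simp

theorem Bf.memL {F : List V} {a b : V} (h : Bf F a b) : a ∈ F := h.subset (by simp)

theorem Bf.memR {F : List V} {a b : V} (h : Bf F a b) : b ∈ F := h.subset (by simp)

theorem Bf.ne {F : List V} {a b : V} (h : Bf F a b) (hn : F.Nodup) : a ≠ b := by
  have := hn.sublist h
  simpa using this

theorem Bf.reverse {F : List V} {a b : V} (h : Bf F a b) : Bf F.reverse b a := by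
  have := List.Sublist.reverse h
  simpa [Bf] using this

theorem Bf.reverse' {F : List V} {a b : V} (h : Bf F.reverse a b) : Bf F b a := by
  have := h.reverse
  rwa [List.reverse_reverse] at this

theorem Bf.mono {F F' : List V} {a b : V} (h : Bf F a b) (hF : F.Sublist F') : Bf F' a b :=
  List.Sublist.trans h hF

theorem Bf.total {F : List V} {a b : V} (ha : a ∈ F) (hb : b ∈ F) (hab : a ≠ b) :
    Bf F a b ∨ Bf F b a := by
  obtain ⟨A, D, hF⟩ := List.append_of_mem ha
  rw [hF] at hb
  rw [hF]
  rcases List.mem_append.1 hb with hb | hb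
  · right
    obtain ⟨A1, A2, hA⟩ := List.append_of_mem hb
    rw [hA]
    have : Bf (A1 ++ b :: (A2 ++ a :: D)) b a := Bf.intro
    simpa using this
  · rcases List.mem_cons.1 hb with hb | hb
    · exact absurd hb.symm hab
    · left
      obtain ⟨D1, D2, hD⟩ := List.append_of_mem hb
      rw [hD]
      exact Bf.intro

theorem split_unique {A A' D D' : List V} {c : V} (h : A ++ c :: D = A' ++ c :: D')
    (h1 : c ∉ A) (h2 : c ∉ A') : A = A' ∧ D = D' := by
  induction A generalizing A' with
  | nil =>
    cases A' with
    | nil => simpa using h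
    | cons a A' =>
      simp only [List.nil_append, List.cons_append, List.cons.injEq] at h
      exact absurd (by rw [h.1]; simp) h2
  | cons a A ih =>
    cases A' with
    | nil =>
      simp only [List.nil_append, List.cons_append, List.cons.injEq] at h
      exact absurd (by rw [h.1]; simp) h1
    | cons a' A' =>
      simp only [List.cons_append, List.cons.injEq] at h
      have h3 := ih h.2 (fun hh => h1 (List.mem_cons_of_mem _ hh))
        (fun hh => h2 (List.mem_cons_of_mem _ hh))
      exact ⟨by rw [h.1, h3.1], h3.2⟩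

/-- a vertex before `c` lies in the part before `c` -/
theorem Bf.mem_left {A D : List V} {v c : V} (h : Bf (A ++ c :: D) v c)
    (hn : (A ++ c :: D).Nodup) : v ∈ A := by
  obtain ⟨A', M, D', hF⟩ := h.split
  have h1 : A ++ c :: D = (A' ++ v :: M) ++ c :: D' := by rw [hF]; simp
  have h2 : c ∉ A := by
    intro hc
    have := List.nodup_append'.1 hn
    exact this.2.2 hc (by simp)
  have h3 : c ∉ A' ++ v :: M := by
    intro hc
    rw [h1] at hn
    have := List.nodup_append'.1 hn
    exact this.2.2 hc (by simp)
  rw [(split_unique h1 h2 h3).1]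
  simp

/-- a vertex after `c` lies in the part after `c` -/
theorem Bf.mem_right {A D : List V} {v c : V} (h : Bf (A ++ c :: D) c v)
    (hn : (A ++ c :: D).Nodup) : v ∈ D := by
  have h1 : (A ++ c :: D).reverse = D.reverse ++ c :: A.reverse := by simp
  have h2 := h.reverse
  rw [h1] at h2
  have h3 := h2.mem_left (by rw [← h1]; exact List.nodup_reverse.2 hn)
  simpa using h3

theorem Bf.of_left {A D : List V} {v c : V} (h : v ∈ A) : Bf (A ++ c :: D) v c := by
  obtain ⟨A1, A2, hA⟩ := List.append_of_mem h
  rw [hA]
  have : Bf (A1 ++ v :: (A2 ++ c :: D)) v c := Bf.intro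
  simpa using this

theorem Bf.of_right {A D : List V} {v c : V} (h : v ∈ D) : Bf (A ++ c :: D) c v := by
  obtain ⟨A1, A2, hA⟩ := List.append_of_mem h
  rw [hA]
  exact Bf.intro

theorem Bf.trans {F : List V} {a b c : V} (h : Bf F a b) (h' : Bf F b c) (hn : F.Nodup) :
    Bf F a c := by
  obtain ⟨A, M, D, hF⟩ := h.split
  have h1 : F = (A ++ a :: M) ++ b :: D := by rw [hF]; simp
  rw [h1] at h' hn
  have h2 := h'.mem_right hn
  rw [hF]
  have : Bf (A ++ a :: (M ++ b :: D)) a c := Bf.of_right (by simp [h2])
  exact this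

theorem Bf.asymm {F : List V} {a b : V} (h : Bf F a b) (hn : F.Nodup) : ¬ Bf F b a :=
  fun h' => (h.trans h' hn).ne hn rfl

/-- two segments with a common vertex are equal -/
theorem flat_same {Hs : List (List V)} (hnd : Hs.flatten.Nodup) {P Q : List V} (hP : P ∈ Hs)
    (hQ : Q ∈ Hs) {v : V} (h1 : v ∈ P) (h2 : v ∈ Q) : P = Q := by
  induction Hs with
  | nil => simp at hP
  | cons R Hs ih =>
    rw [List.flatten_cons, List.nodup_append'] at hnd
    rcases List.mem_cons.1 hP with hP | hP
    · rcases List.mem_cons.1 hQ with hQ | hQ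
      · rw [hP, hQ]
      · exact absurd (List.mem_flatten.2 ⟨Q, hQ, h2⟩) (hnd.2.2 (hP ▸ h1))
    · rcases List.mem_cons.1 hQ with hQ | hQ
      · exact absurd (List.mem_flatten.2 ⟨P, hP, h1⟩) (hnd.2.2 (hQ ▸ h2))
      · exact ih hnd.2.1 hP hQ

theorem flat_nodup {Hs : List (List V)} (hnd : Hs.flatten.Nodup) {P : List V} (hP : P ∈ Hs) :
    P.Nodup := (List.nodup_flatten.1 hnd).1 P hP

/-! ## reversal of lists of segments -/

@[simp] theorem rv_nil : rv ([] : List (List V)) = [] := rfl

@[simp] theorem rv_cons (P : List V) (M : List (List V)) : rv (P :: M) = rv M ++ [P.reverse] := by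
  simp [rv]

@[simp] theorem rv_append (M N : List (List V)) : rv (M ++ N) = rv N ++ rv M := by
  simp [rv]

@[simp] theorem rv_rv (M : List (List V)) : rv (rv M) = M := by
  simp [rv, List.map_reverse]

@[simp] theorem length_rv (M : List (List V)) : (rv M).length = M.length := by
  simp [rv]

theorem mem_rv {M : List (List V)} {P : List V} : P ∈ rv M ↔ P.reverse ∈ M := by
  unfold rv
  rw [List.mem_reverse, List.mem_map]
  constructor
  · rintro ⟨Q, hQ, h⟩
    rw [← h, List.reverse_reverse]
    exact hQ
  · intro h
    exact ⟨_, h, List.reverse_reverse _⟩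

theorem flatten_rv (M : List (List V)) : (rv M).flatten = M.flatten.reverse := by
  induction M with
  | nil => rfl
  | cons P M ih => simp [ih]

/-! ## junctions -/

theorem JL.congr {P P' Q Q' : List V} (h : JL L P Q) (h1 : P'.getLast? = P.getLast?)
    (h2 : Q'.head? = Q.head?) : JL L P' Q' := by
  obtain ⟨r, l, a, b, c⟩ := h
  exact ⟨r, l, h1.trans a, h2.trans b, c⟩

theorem JL.rev {P Q P' Q' : List V} (h : JL L P Q) (h1 : P'.getLast? = Q.head?)
    (h2 : Q'.head? = P.getLast?) : JL L P' Q' := by
  obtain ⟨r, l, a, b, c⟩ := h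
  exact ⟨l, r, h1.trans b, h2.trans a, by rw [Sym2.eq_swap]; exact c⟩

theorem chain_congr {P P' Q Q' : List V} {M : List (List V)}
    (h : (P :: (M ++ [Q])).IsChain (JL L)) (h1 : P'.getLast? = P.getLast?)
    (h2 : Q'.head? = Q.head?) : (P' :: (M ++ [Q'])).IsChain (JL L) := by
  cases M with
  | nil =>
    simp only [List.nil_append, List.isChain_cons_cons, List.isChain_singleton, and_true] at h ⊢
    exact h.congr h1 h2
  | cons R M =>
    rw [List.cons_append, List.isChain_cons_cons] at h ⊢
    refine ⟨h.1.congr h1 rfl, ?_⟩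
    have h3 := h.2
    rw [← List.cons_append, List.isChain_append] at h3 ⊢
    refine ⟨h3.1, List.isChain_singleton _, ?_⟩
    intro S hS T hT
    simp only [List.head?_cons, Option.mem_def, Option.some.injEq] at hT
    rw [← hT]
    exact (h3.2.2 S hS Q (by simp)).congr rfl h2

theorem chain_rv {P P' Q Q' : List V} {M : List (List V)}
    (h : (P :: (M ++ [Q])).IsChain (JL L)) (h1 : P'.head? = P.getLast?)
    (h2 : Q'.getLast? = Q.head?) : (Q' :: (rv M ++ [P'])).IsChain (JL L) := by
  have h3 : (Q.reverse :: (rv M ++ [P.reverse])).IsChain (JL L) := by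
    have h4 : Q.reverse :: (rv M ++ [P.reverse]) = rv (P :: (M ++ [Q])) := by simp
    rw [h4]
    unfold rv
    rw [List.isChain_reverse, List.isChain_map]
    refine h.imp ?_
    intro A B hAB
    exact hAB.rev (by simp) (by simp)
  exact chain_congr h3 (by simp [h2]) (by simp [h1])

/-! ## cyclic lists -/

theorem cycR_append_comm {α : Type w} {R : α → α → Prop} (A D : List α) (h : CycR R (A ++ D)) :
    CycR R (D ++ A) := by
  cases A with
  | nil => simpa using h
  | cons a A =>
    cases D with
    | nil => simpa using h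
    | cons d D =>
      have h1 : (a :: (A ++ d :: D) ++ [a]).IsChain R := by
        simpa [CycR] using h
      have h2 : ((a :: A) ++ d :: (D ++ [a])).IsChain R := by simpa using h1
      have h3 := List.isChain_split.1 h2
      have h4 : ((d :: D) ++ a :: (A ++ [d])).IsChain R :=
        List.isChain_split.2 ⟨by simpa using h3.2, by simpa using h3.1⟩
      simpa [CycR] using h4

theorem CycR.ne {α : Type w} {R : α → α → Prop} {l : List α} (h : CycR R l) : l ≠ [] := by
  intro h'; rw [h'] at h; exact h

theorem cycR_rv {Ps : List (List V)} (h : CycR (JL L) Ps) : CycR (JL L) (rv Ps) := by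
  cases Ps with
  | nil => exact h
  | cons P M =>
    have h1 : (P :: (M ++ [P])).IsChain (JL L) := h
    have h2 := chain_rv h1 (P' := P.reverse) (Q' := P.reverse) (by simp) (by simp)
    rw [rv_cons]
    have h3 : CycR (JL L) ([P.reverse] ++ rv M) := h2
    exact cycR_append_comm _ _ h3

end Pool.Agent.LW
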