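import Pool.Agent.LW.Types

set_option autoImplicit false

/-!
# Odd case, part A: definitions and the list calculus for reroutings
-/

namespace Pool.Agent.LW

open SimpleGraph Classical

universe w

variable {V : Type w} {G : SimpleGraph V} {L : Finset (Sym2 V)}

/-! ## definitions -/

/-- `g` has two neighbours on `P` -/
def Two (G : SimpleGraph V) (g : V) (P : List V) : Prop :=
  ∃ A a M b D, P = A ++ a :: (M ++ b :: D) ∧ G.Adj g a ∧ G.Adj g b

/-- the standing hypotheses of the odd case -/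
structure Od (G : SimpleGraph V) (L : Finset (Sym2 V)) : Prop where
  sub : ∀ e ∈ L, e ∈ G.edgeSet
  ind : ∀ e ∈ L, ∀ f ∈ L, e ≠ f → ∀ v, v ∈ e → v ∉ f
  no : ∀ Ps, ¬ Full G L Ps
  three : 3 ≤ L.card
  F : ∀ x y Ps, Cfg G L x y Ps → F0 G x y Ps

/-- `v, q, w` is a path with the interior `q` in `O` -/
structure Lnk (G : SimpleGraph V) (O : Set V) (v w : V) (q : List V) : Prop where
  ch : (v :: (q ++ [w])).IsChain G.Adj
  nd : q.Nodup
  mem : ∀ z ∈ q, z ∈ O

/-- `v` is the first neighbour of `x` on `P` or comes before it -/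
def LeAll (G : SimpleGraph V) (x : V) (P : List V) (v : V) : Prop :=
  ∀ a ∈ P, G.Adj x a → v = a ∨ Bf P v a

/-- `v` is the last neighbour of `x` on `P` or comes after it -/
def GeAll (G : SimpleGraph V) (x : V) (P : List V) (v : V) : Prop :=
  ∀ a ∈ P, G.Adj x a → v = a ∨ Bf P a v

/-! ## lists -/

theorem nodup_new {old ext new : List V} (ho : old.Nodup) (he : ext.Nodup)
    (hd : ∀ z ∈ ext, z ∉ old) (hc : ∀ z, new.count z ≤ old.count z + ext.count z) :
    new.Nodup := by
  have h : (old ++ ext).Nodup := by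
    rw [List.nodup_append']
    exact ⟨ho, he, fun z hz hz' => hd z hz' hz⟩
  rw [List.nodup_iff_count_le_one] at h ⊢
  intro z
  have h1 := h z
  rw [List.count_append] at h1
  exact (hc z).trans h1

theorem chain_rev {P : List V} (h : P.IsChain G.Adj) : P.reverse.IsChain G.Adj := by
  rw [List.isChain_reverse]
  exact h.imp (fun _ _ hab => hab.symm)

theorem chain_revS {A : List V} {a : V} (h : (A ++ [a]).IsChain G.Adj) :
    (a :: A.reverse).IsChain G.Adj := by
  have := chain_rev h
  simpa using this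

theorem chain_revC {A : List V} {a : V} (h : (a :: A).IsChain G.Adj) :
    (A.reverse ++ [a]).IsChain G.Adj := by
  have := chain_rev h
  simpa using this

theorem chain_revM {M : List V} {a b : V} (h : (a :: (M ++ [b])).IsChain G.Adj) :
    (b :: (M.reverse ++ [a])).IsChain G.Adj := by
  have := chain_rev h
  simpa using this

/-- a chain cut at one vertex -/
theorem ch1 {A B : List V} {a : V} (h : (A ++ a :: B).IsChain G.Adj) :
    (A ++ [a]).IsChain G.Adj ∧ (a :: B).IsChain G.Adj := List.isChain_split.1 h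

/-- a chain cut at two vertices -/
theorem ch2 {A B D : List V} {a b : V} (h : (A ++ a :: (B ++ b :: D)).IsChain G.Adj) :
    (A ++ [a]).IsChain G.Adj ∧ (a :: (B ++ [b])).IsChain G.Adj ∧ (b :: D).IsChain G.Adj := by
  obtain ⟨h1, h2⟩ := List.isChain_split.1 h
  have h3 : ((a :: B) ++ b :: D).IsChain G.Adj := by simpa using h2
  obtain ⟨h4, h5⟩ := List.isChain_split.1 h3
  exact ⟨h1, by simpa using h4, h5⟩

theorem glue1 {A B : List V} {a : V} (h : (A ++ [a]).IsChain G.Adj)
    (h' : (a :: B).IsChain G.Adj) : (A ++ a :: B).IsChain G.Adj := List.isChain_split.2 ⟨h, h'⟩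

theorem glueM {A B : List V} {a b : V} (h : (a :: (A ++ [b])).IsChain G.Adj)
    (h' : (b :: B).IsChain G.Adj) : (a :: (A ++ b :: B)).IsChain G.Adj := by
  have : ((a :: A) ++ b :: B).IsChain G.Adj := glue1 (by simpa using h) h'
  simpa using this

theorem join1 {A B : List V} {a b : V} (h : (A ++ [a]).IsChain G.Adj) (hab : G.Adj a b)
    (h' : (b :: B).IsChain G.Adj) : (A ++ a :: b :: B).IsChain G.Adj :=
  List.isChain_append_cons_cons.2 ⟨h, hab, h'⟩

theorem join0 {B : List V} {a b : V} (hab : G.Adj a b)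
    (h' : (b :: B).IsChain G.Adj) : (a :: b :: B).IsChain G.Adj :=
  List.isChain_cons_cons.2 ⟨hab, h'⟩

/-! ## cyclic lists cut at several elements -/

theorem cyc1 {α : Type w} {R : α → α → Prop} {P : α} {M : List α} :
    CycR R (P :: M) ↔ (P :: (M ++ [P])).IsChain R := Iff.rfl

theorem cut1 {α : Type w} {R : α → α → Prop} {P Q : α} {M N : List α} :
    (P :: (M ++ Q :: N)).IsChain R ↔ (P :: (M ++ [Q])).IsChain R ∧ (Q :: N).IsChain R := by
  have h : P :: (M ++ Q :: N) = (P :: M) ++ Q :: N := by simp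
  rw [h, List.isChain_split]
  simp

theorem cyc2 {α : Type w} {R : α → α → Prop} {P Q : α} {M N : List α} :
    CycR R (P :: (M ++ Q :: N)) ↔
      (P :: (M ++ [Q])).IsChain R ∧ (Q :: (N ++ [P])).IsChain R := by
  rw [cyc1, List.append_assoc, List.cons_append, cut1]

theorem cyc3 {α : Type w} {R : α → α → Prop} {P Q S : α} {M N T : List α} :
    CycR R (P :: (M ++ Q :: (N ++ S :: T))) ↔
      (P :: (M ++ [Q])).IsChain R ∧ (Q :: (N ++ [S])).IsChain R ∧
        (S :: (T ++ [P])).IsChain R := by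
  rw [cyc2, List.append_assoc, List.cons_append, cut1 (P := Q) (Q := S)]

theorem cyc4 {α : Type w} {R : α → α → Prop} {P Q S U : α} {M N T W : List α} :
    CycR R (P :: (M ++ Q :: (N ++ S :: (T ++ U :: W)))) ↔
      (P :: (M ++ [Q])).IsChain R ∧ (Q :: (N ++ [S])).IsChain R ∧
        (S :: (T ++ [U])).IsChain R ∧ (U :: (W ++ [P])).IsChain R := by
  rw [cyc3, List.append_assoc, List.cons_append, cut1 (P := S) (Q := U)]

/-! ## configurations: rotation, reversal, exchange of the gates -/

theorem Cfg.oRot {x y : V} {A D : List (List V)} (C : Cfg G L x y (A ++ D)) :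
    Cfg G L x y (D ++ A) := by
  have hp : (D ++ A).flatten.Perm (A ++ D).flatten := by
    simp only [List.flatten_append]
    exact List.perm_append_comm
  have hm : ∀ P, P ∈ D ++ A → P ∈ A ++ D := by
    intro P h
    rcases List.mem_append.1 h with h | h
    · exact List.mem_append.2 (Or.inr h)
    · exact List.mem_append.2 (Or.inl h)
  exact ⟨hp.nodup_iff.2 C.nd, fun P h => C.ch P (hm P h), fun P h => C.two P (hm P h),
    cycR_append_comm _ _ C.jn, C.xy, fun h => C.hx (hp.mem_iff.1 h),
    fun h => C.hy (hp.mem_iff.1 h), by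
      have := C.card
      simp only [List.length_append] at this ⊢
      omega, by
      rw [hp.length_eq]; exact C.len⟩

theorem Cfg.oSwap {x y : V} {Ps : List (List V)} (C : Cfg G L x y Ps) : Cfg G L y x Ps :=
  ⟨C.nd, C.ch, C.two, C.jn, by rw [Sym2.eq_swap]; exact C.xy, C.hy, C.hx, C.card, C.len⟩

theorem Cfg.oRev {x y : V} {Ps : List (List V)} (C : Cfg G L x y Ps) : Cfg G L x y (rv Ps) := by
  refine ⟨?_, ?_, ?_, cycR_rv C.jn, C.xy, ?_, ?_, ?_, ?_⟩
  · rw [flatten_rv, List.nodup_reverse]; exact C.nd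
  · intro P h
    have := chain_rev (C.ch _ (mem_rv.1 h))
    rwa [List.reverse_reverse] at this
  · intro P h
    have := C.two _ (mem_rv.1 h)
    rwa [List.length_reverse] at this
  · rw [flatten_rv, List.mem_reverse]; exact C.hx
  · rw [flatten_rv, List.mem_reverse]; exact C.hy
  · rw [length_rv]; exact C.card
  · rw [flatten_rv, List.length_reverse]; exact C.len

theorem Cfg.oNd {x y : V} {Ps : List (List V)} (C : Cfg G L x y Ps) {P : List V} (h : P ∈ Ps) :
    P.Nodup := (List.nodup_flatten.1 C.nd).1 P h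

theorem Cfg.oAdj (S : ∀ e ∈ L, e ∈ G.edgeSet) {x y : V} {Ps : List (List V)}
    (C : Cfg G L x y Ps) : G.Adj x y := S _ C.xy

theorem OV_rot {x y : V} {A D : List (List V)} : OV x y (D ++ A) = OV x y (A ++ D) := by
  ext v
  simp only [OV, Set.mem_ofPred_eq, List.flatten_append, List.mem_append]
  tauto

theorem OV_osw {x y : V} {Ps : List (List V)} : OV y x Ps = OV x y Ps := by
  ext v
  simp only [OV, Set.mem_ofPred_eq]
  tauto

theorem OV_rev {x y : V} {Ps : List (List V)} : OV x y (rv Ps) = OV x y Ps := by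
  ext v
  simp only [OV, Set.mem_ofPred_eq, flatten_rv, List.mem_reverse]

theorem Ty.rot {x y : V} {A D : List (List V)} {P : List V} (h : Ty G x y (A ++ D) P) :
    Ty G x y (D ++ A) P := ⟨by rw [OV_rot]; exact h.nb, by rw [OV_rot]; exact h.no⟩

theorem Ty.ocg {x y : V} {Ps Qs : List (List V)} {P : List V} (h : Ty G x y Ps P)
    (hO : OV x y Qs = OV x y Ps) : Ty G x y Qs P :=
  ⟨by rw [hO]; exact h.nb, by rw [hO]; exact h.no⟩

theorem Ty.orev {x y : V} {Ps : List (List V)} {P : List V} (h : Ty G x y Ps P) :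
    Ty G x y (rv Ps) P.reverse := by
  obtain ⟨A, a, M, b, D, h1, h2, h3, h4⟩ := h.nb
  refine ⟨⟨D.reverse, b, M.reverse, a, A.reverse, by rw [h1]; simp, h3, h2, ?_⟩, ?_⟩
  · intro v hv hc
    rw [OV_rev] at hc
    have := h4 v (List.mem_reverse.1 hv) hc
    simp only [List.mem_cons, List.mem_append, List.mem_reverse, List.not_mem_nil,
      or_false] at this ⊢
    tauto
  · intro v hv
    rw [OV_rev]
    exact h.no v (List.mem_reverse.1 hv)

theorem Ty.two {x y : V} {Ps : List (List V)} {P : List V} (h : Ty G x y Ps P) : Two G x P := by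
  obtain ⟨A, a, M, b, D, h1, h2, h3, -⟩ := h.nb
  exact ⟨A, a, M, b, D, h1, h2, h3⟩

theorem Two.reverse {g : V} {P : List V} (h : Two G g P) : Two G g P.reverse := by
  obtain ⟨A, a, M, b, D, h1, h2, h3⟩ := h
  exact ⟨D.reverse, b, M.reverse, a, A.reverse, by rw [h1]; simp, h3, h2⟩

theorem Ty.disj {x y : V} {Ps : List (List V)} {P : List V} (h : Ty G x y Ps P)
    (h' : Ty G y x Ps P) : False := by
  obtain ⟨A, a, M, b, D, h1, h2, -, -⟩ := h'.nb
  exact h.no a (by rw [h1]; simp) (Or.inl h2)

/-! ## links -/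

theorem Lnk.edge {O : Set V} {v w : V} (h : G.Adj v w) : Lnk G O v w [] :=
  ⟨by simpa using h, List.nodup_nil, by simp⟩

theorem Lnk.symm {O : Set V} {v w : V} {q : List V} (h : Lnk G O v w q) :
    Lnk G O w v q.reverse :=
  ⟨chain_revM h.ch, List.nodup_reverse.2 h.nd, fun z hz => h.mem z (List.mem_reverse.1 hz)⟩

theorem Lnk.ocg {O O' : Set V} {v w : V} {q : List V} (h : Lnk G O v w q) (hO : O' = O) :
    Lnk G O' v w q := by rw [hO]; exact h

theorem Rch.oNodup {O : Set V} {a b : V} (h : Rch G O a b) :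
    ∃ F, Ch G a b F ∧ F.Nodup ∧ ∀ v ∈ F, v ∈ O := by
  obtain ⟨F, h1, h2⟩ := h
  induction hn : F.length using Nat.strong_induction_on generalizing a F with
  | _ n ih =>
    rcases F with _ | ⟨c, F⟩
    · exact absurd rfl h1.ne
    have hc : c = a := by simpa using h1.hd
    subst hc
    by_cases hmem : c ∈ F
    · obtain ⟨A, D, hF⟩ := List.append_of_mem hmem
      rw [hF] at h1 h2 hn
      have h3 : Ch G c b (c :: D) := (show Ch G c b ((c :: A) ++ c :: D) from by
        simpa using h1).right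
      refine ih (c :: D).length ?_ (c :: D) h3 (fun v hv => h2 v (by simp at hv ⊢; tauto)) rfl
      rw [← hn]
      simp
    · rcases F with _ | ⟨d, F⟩
      · exact ⟨[c], h1, by simp, h2⟩
      · have h3 : Ch G d b (d :: F) := (show Ch G c b ([c] ++ d :: F) from by
          simpa using h1).right
        obtain ⟨F', g1, g2, g3⟩ := ih (d :: F).length (by rw [← hn]; simp) (d :: F) h3
          (fun v hv => h2 v (by simp at hv ⊢; tauto)) rfl
        have hcd : G.Adj c d := (show Ch G c b ([] ++ c :: d :: F) from by simpa using h1).adj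
        by_cases hc' : c ∈ F'
        · obtain ⟨A, D, hF⟩ := List.append_of_mem hc'
          rw [hF] at g1 g2 g3
          refine ⟨c :: D, g1.right, ?_, fun v hv => g3 v (by simp at hv ⊢; tauto)⟩
          exact (List.nodup_append'.1 g2).2.1
        · exact ⟨c :: F', Ch.cons hcd g1, List.nodup_cons.2 ⟨hc', g2⟩, by
            intro v hv
            rcases List.mem_cons.1 hv with hv | hv
            · rw [hv]; exact h2 _ (by simp)
            · exact g3 v hv⟩

theorem Con.lnk {O : Set V} {v w : V} (h : Con G O v w) : ∃ q, Lnk G O v w q := by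
  rcases h with h | ⟨o, ⟨a, h1, h2⟩, h3⟩
  · exact ⟨[], Lnk.edge h⟩
  · obtain ⟨F, g1, g2, g3⟩ := Rch.oNodup h2
    have h4 : Ch G v w (v :: (F ++ [w])) := by
      have := (Ch.cons h1 g1).concat h3
      simpa using this
    exact ⟨F, h4.ch, g2, g3⟩

theorem Lnk.con {O : Set V} {v w : V} {q : List V} (h : Lnk G O v w q) : Con G O v w := by
  rcases q with _ | ⟨a, q⟩
  · exact Or.inl (by simpa using h.ch)
  · right
    have h1 : G.Adj v a ∧ (a :: (q ++ [w])).IsChain G.Adj := by
      simpa [List.isChain_cons_cons] using h.ch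
    have hne : (a :: q) ≠ [] := by simp
    obtain ⟨o, ho⟩ : ∃ o, (a :: q).getLast? = some o := ⟨_, List.getLast?_eq_getLast_of_ne_nil hne⟩
    have h2 : ((a :: q) ++ [w]).IsChain G.Adj := by simpa using h1.2
    obtain ⟨h3, -, h4⟩ := List.isChain_append.1 h2
    refine ⟨o, ⟨a, h1.1, a :: q, ⟨rfl, ho, h3⟩, fun z hz => h.mem z hz⟩, ?_⟩
    exact h4 o ho w (by simp)

theorem Con.oSymm {O : Set V} {v w : V} (h : Con G O v w) : Con G O w v := by
  obtain ⟨q, h⟩ := h.lnk
  exact h.symm.con

end Pool.Agent.LW
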