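import Pool.Agent.LW.OA

set_option autoImplicit false

/-!
# Odd case, part B: the two types of connections
-/

namespace Pool.Agent.LW

open SimpleGraph Classical

universe w

variable {V : Type w} {G : SimpleGraph V} {L : Finset (Sym2 V)}

/-- the extra vertices `x, y, q` of a link are new -/
theorem ext_nodup {x y v w : V} {Ps : List (List V)} {q : List V} (S : Od G L)
    (C : Cfg G L x y Ps) (hq : Lnk G (OV x y Ps) v w q) : (x :: y :: q).Nodup := by
  rw [List.nodup_cons, List.nodup_cons]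
  refine ⟨?_, fun h => (hq.mem y h).2.2 rfl, hq.nd⟩
  intro h
  rcases List.mem_cons.1 h with h | h
  · exact (C.oAdj S.sub).ne h
  · exact (hq.mem x h).2.1 rfl

theorem ext_new {x y v w : V} {Ps : List (List V)} {q : List V}
    (C : Cfg G L x y Ps) (hq : Lnk G (OV x y Ps) v w q) :
    ∀ z ∈ x :: y :: q, z ∉ Ps.flatten := by
  intro z hz
  rcases List.mem_cons.1 hz with hz | hz
  · rw [hz]; exact C.hx
  · rcases List.mem_cons.1 hz with hz | hz
    · rw [hz]; exact C.hy
    · exact (hq.mem z hz).1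

theorem oPp (S : Od G L) {x y a v b w : V} {A B D E F K q : List V} {Ms Ns : List (List V)}
    (C : Cfg G L x y ((A ++ a :: (B ++ v :: K)) :: (Ms ++ (D ++ b :: (E ++ w :: F)) :: Ns)))
    (hxa : G.Adj x a) (hyb : G.Adj y b)
    (hq : Lnk G (OV x y ((A ++ a :: (B ++ v :: K)) :: (Ms ++ (D ++ b :: (E ++ w :: F)) :: Ns)))
      v w q) : False := by
  apply S.no ((x :: a :: A.reverse) :: (rv Ns ++ (F.reverse ++ w :: (q.reverse ++ v :: K)) ::
    (Ms ++ [D ++ b :: [y]])))
  obtain ⟨c1, c2, c3⟩ := ch2 (C.ch (A ++ a :: (B ++ v :: K)) (by simp))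
  obtain ⟨d1, d2, d3⟩ := ch2 (C.ch (D ++ b :: (E ++ w :: F)) (by simp))
  refine ⟨?_, ?_, ?_, ?_, ?_⟩
  · refine nodup_new C.nd (ext_nodup S C hq) (ext_new C hq) ?_
    intro z
    simp only [List.flatten_cons, List.flatten_append, List.flatten_nil, List.count_append,
      List.count_cons, List.count_nil, flatten_rv, List.count_reverse, List.append_assoc,
      List.nil_append, List.cons_append]
    omega
  · intro P hP
    simp only [List.mem_cons, List.mem_append, List.not_mem_nil, or_false] at hP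
    rcases hP with hP | hP | hP | hP | hP
    · rw [hP]; exact join0 hxa (chain_revS c1)
    · have := chain_rev (C.ch P.reverse (by simp [mem_rv.1 hP]))
      rwa [List.reverse_reverse] at this
    · rw [hP]; exact glue1 (chain_revC d3) (glueM (chain_revM hq.ch) c3)
    · exact C.ch _ (by simp [hP])
    · rw [hP]; exact join1 d1 hyb.symm (List.isChain_singleton y)
  · intro P hP
    simp only [List.mem_cons, List.mem_append, List.not_mem_nil, or_false] at hP
    rcases hP with hP | hP | hP | hP | hP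
    · rw [hP]; simp
    · have := C.two _ (show P.reverse ∈ _ by simp [mem_rv.1 hP])
      rwa [List.length_reverse] at this
    · rw [hP]; simp; omega
    · exact C.two _ (by simp [hP])
    · rw [hP]; simp
  · have h := C.jn
    rw [cyc2] at h
    rw [cyc3]
    refine ⟨chain_rv h.2 (by simp [List.getLast?_cons]) (by simp [List.getLast?_cons]), chain_congr h.1 (by simp [List.getLast?_cons]) (by simp [List.getLast?_cons]), ?_⟩
    have hxy := C.xy
    refine List.isChain_cons_cons.2 ⟨⟨y, x, by simp [List.getLast?_cons], by simp [List.getLast?_cons], ?_⟩, List.isChain_singleton _⟩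
    rw [Sym2.eq_swap]; exact hxy
  · have := C.card
    simp at this ⊢
    omega

theorem Lnk.con_congr {O O' : Set V} {v w : V} (h : Con G O v w) (hO : O' = O) :
    Con G O' v w := by rw [hO]; exact h

theorem Cfg.oRev2 {x y : V} {P Q : List V} {Ms Ns : List (List V)}
    (C : Cfg G L x y (P :: (Ms ++ Q :: Ns))) :
    Cfg G L x y (P.reverse :: (rv Ns ++ Q.reverse :: rv Ms)) := by
  have h := C.oRev
  have h1 : rv (P :: (Ms ++ Q :: Ns)) = (rv Ns ++ Q.reverse :: rv Ms) ++ [P.reverse] := by simp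
  rw [h1] at h
  exact h.oRot

theorem OV_rev2 {x y : V} {P Q : List V} {Ms Ns : List (List V)} :
    OV x y (P.reverse :: (rv Ns ++ Q.reverse :: rv Ms)) = OV x y (P :: (Ms ++ Q :: Ns)) := by
  rw [← OV_rev (Ps := P :: (Ms ++ Q :: Ns))]
  have h1 : rv (P :: (Ms ++ Q :: Ns)) = (rv Ns ++ Q.reverse :: rv Ms) ++ [P.reverse] := by simp
  rw [h1, OV_rot]
  rfl

theorem Cfg.oRot2 {x y : V} {P Q : List V} {Ms Ns : List (List V)}
    (C : Cfg G L x y (P :: (Ms ++ Q :: Ns))) :
    Cfg G L x y (Q :: (Ns ++ P :: Ms)) := by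
  have h : Cfg G L x y ((P :: Ms) ++ Q :: Ns) := C
  exact h.oRot

theorem OV_rot2 {x y : V} {P Q : List V} {Ms Ns : List (List V)} :
    OV x y (Q :: (Ns ++ P :: Ms)) = OV x y (P :: (Ms ++ Q :: Ns)) :=
  OV_rot (A := P :: Ms) (D := Q :: Ns)

/-- `oPp` with the order on the segments -/
theorem oPp' (S : Od G L) {x y a v b w : V} {P Q q : List V} {Ms Ns : List (List V)}
    (C : Cfg G L x y (P :: (Ms ++ Q :: Ns))) (hav : Bf P a v) (hbw : Bf Q b w)
    (hxa : G.Adj x a) (hyb : G.Adj y b) (hq : Lnk G (OV x y (P :: (Ms ++ Q :: Ns))) v w q) :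
    False := by
  obtain ⟨A, B, K, rfl⟩ := hav.split
  obtain ⟨D, E, F, rfl⟩ := hbw.split
  exact oPp S C hxa hyb hq

theorem oMm' (S : Od G L) {x y a v b w : V} {P Q q : List V} {Ms Ns : List (List V)}
    (C : Cfg G L x y (P :: (Ms ++ Q :: Ns))) (hav : Bf P v a) (hbw : Bf Q w b)
    (hxa : G.Adj x a) (hyb : G.Adj y b) (hq : Lnk G (OV x y (P :: (Ms ++ Q :: Ns))) v w q) :
    False :=
  oPp' S C.oRev2 hav.reverse hbw.reverse hxa hyb (hq.ocg OV_rev2)

/-- the two types of connections -/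
theorem oTypes (S : Od G L) {x y v w : V} {P Q q : List V} {Ms Ns : List (List V)}
    (C : Cfg G L x y (P :: (Ms ++ Q :: Ns))) (hP : Two G x P) (hQ : Two G y Q)
    (hv : v ∈ P) (hw : w ∈ Q) (hq : Lnk G (OV x y (P :: (Ms ++ Q :: Ns))) v w q) :
    (LeAll G x P v ∧ GeAll G y Q w) ∨ (GeAll G x P v ∧ LeAll G y Q w) := by
  have nP : P.Nodup := C.oNd (by simp)
  have nQ : Q.Nodup := C.oNd (by simp)
  have h1 : ∀ a ∈ P, G.Adj x a → ∀ b ∈ Q, G.Adj y b → ¬ (Bf P a v ∧ Bf Q b w) :=
    fun a _ hxa b _ hyb h => oPp' S C h.1 h.2 hxa hyb hq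
  have h2 : ∀ a ∈ P, G.Adj x a → ∀ b ∈ Q, G.Adj y b → ¬ (Bf P v a ∧ Bf Q w b) :=
    fun a _ hxa b _ hyb h => oMm' S C h.1 h.2 hxa hyb hq
  obtain ⟨A, a, M, a', D, hPe, ha, ha'⟩ := hP
  obtain ⟨A1, b, M1, b', D1, hQe, hb, hb'⟩ := hQ
  have haP : a ∈ P := by rw [hPe]; simp
  have haP' : a' ∈ P := by rw [hPe]; simp
  have hbQ : b ∈ Q := by rw [hQe]; simp
  have hbQ' : b' ∈ Q := by rw [hQe]; simp
  have haa : Bf P a a' := by rw [hPe]; exact Bf.intro
  have hbb : Bf Q b b' := by rw [hQe]; exact Bf.intro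
  by_cases h : ∃ c ∈ P, G.Adj x c ∧ Bf P c v
  · right
    obtain ⟨c, hc, hxc, hcv⟩ := h
    have h3 : LeAll G y Q w := by
      intro d hd hyd
      by_contra hcon
      push Not at hcon
      rcases Bf.total hw hd hcon.1 with h4 | h4
      · exact hcon.2 h4
      · exact h1 c hc hxc d hd hyd ⟨hcv, h4⟩
    have h4 : Bf Q w b' := by
      rcases h3 b hbQ hb with h5 | h5
      · rw [h5]; exact hbb
      · exact h5.trans hbb nQ
    refine ⟨?_, h3⟩
    intro c' hc' hxc'
    by_contra hcon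
    push Not at hcon
    rcases Bf.total hv hc' hcon.1 with h5 | h5
    · exact h2 c' hc' hxc' b' hbQ' hb' ⟨h5, h4⟩
    · exact hcon.2 h5
  · left
    push Not at h
    have h3 : LeAll G x P v := by
      intro c hc hxc
      by_contra hcon
      push Not at hcon
      rcases Bf.total hv hc hcon.1 with h4 | h4
      · exact hcon.2 h4
      · exact h c hc hxc h4
    have h4 : Bf P v a' := by
      rcases h3 a haP ha with h5 | h5
      · rw [h5]; exact haa
      · exact h5.trans haa nP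
    refine ⟨h3, ?_⟩
    intro d hd hyd
    by_contra hcon
    push Not at hcon
    rcases Bf.total hw hd hcon.1 with h5 | h5
    · exact h2 a' haP' ha' d hd hyd ⟨h4, h5⟩
    · exact hcon.2 h5

end Pool.Agent.LW
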