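import Pool.Agent.LW.OB

set_option autoImplicit false

/-!
# Odd case, part C: taking off an edge between segments of different types, chords
-/

namespace Pool.Agent.LW

open SimpleGraph Classical

universe w

variable {V : Type w} {G : SimpleGraph V} {L : Finset (Sym2 V)}

theorem notMem_new {old ext new gone : List V} {r : V} (ho : old.Nodup) (hr : r ∈ gone)
    (hx : r ∉ ext) (hc : ∀ z, new.count z + gone.count z ≤ old.count z + ext.count z) :
    r ∉ new := by
  intro h
  have h1 := hc r
  have h2 : ext.count r = 0 := List.count_eq_zero.2 hx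
  have h3 : 0 < new.count r := List.count_pos_iff.2 h
  have h4 : 0 < gone.count r := List.count_pos_iff.2 hr
  have h5 := List.nodup_iff_count_le_one.1 ho r
  omega

theorem Cfg.oNdx (S : Od G L) {x y : V} {Ps : List (List V)} (C : Cfg G L x y Ps) :
    [x, y].Nodup := by
  have := (C.oAdj S.sub).ne
  simpa using this

theorem Cfg.oNx {x y : V} {Ps : List (List V)} (C : Cfg G L x y Ps) :
    ∀ z ∈ [x, y], z ∉ Ps.flatten := by
  intro z hz
  simp only [List.mem_cons, List.not_mem_nil, or_false] at hz
  rcases hz with hz | hz
  · rw [hz]; exact C.hx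
  · rw [hz]; exact C.hy

/-- the edge `r l` between two consecutive segments is taken off, `y x` comes on -/
theorem off (S : Od G L) {x y a b r l : V} {A D E F : List V} {Ms : List (List V)}
    (C : Cfg G L x y ((D ++ b :: E) :: (A ++ a :: F) :: Ms)) (hr : E.getLast? = some r)
    (hl : A.head? = some l) (hyb : G.Adj y b) (hxa : G.Adj x a) :
    Cfg G L r l ((x :: a :: F) :: (Ms ++ [D ++ b :: [y]])) := by
  obtain ⟨c1, c2⟩ := ch1 (C.ch (A ++ a :: F) (by simp))
  obtain ⟨d1, d2⟩ := ch1 (C.ch (D ++ b :: E) (by simp))
  have hrE : r ∈ E := List.mem_of_getLast? hr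
  have hlA : l ∈ A := List.mem_of_head? hl
  have hj := C.jn
  rw [show (D ++ b :: E) :: (A ++ a :: F) :: Ms = (D ++ b :: E) :: ([] ++ (A ++ a :: F) :: Ms)
    from rfl, cyc2] at hj
  refine ⟨?_, ?_, ?_, ?_, ?_, ?_, ?_, ?_, ?_⟩
  · refine nodup_new C.nd (C.oNdx S) C.oNx ?_
    intro z
    simp only [List.flatten_cons, List.flatten_append, List.flatten_nil, List.count_append,
      List.count_cons, List.count_nil, flatten_rv, List.count_reverse, List.append_assoc,
      List.nil_append, List.cons_append]
    omega
  · intro P hP
    simp only [List.mem_cons, List.mem_append, List.not_mem_nil, or_false] at hP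
    rcases hP with hP | hP | hP
    · rw [hP]; exact join0 hxa c2
    · exact C.ch _ (by simp [hP])
    · rw [hP]; exact join1 d1 hyb.symm (List.isChain_singleton y)
  · intro P hP
    simp only [List.mem_cons, List.mem_append, List.not_mem_nil, or_false] at hP
    rcases hP with hP | hP | hP
    · rw [hP]; simp
    · exact C.two _ (by simp [hP])
    · rw [hP]; simp
  · rw [cyc2]
    refine ⟨chain_congr hj.2 (by simp [List.getLast?_cons]) (by simp [List.getLast?_cons]), ?_⟩
    refine List.isChain_cons_cons.2 ⟨⟨y, x, by simp [List.getLast?_cons], by simp [List.getLast?_cons], ?_⟩, List.isChain_singleton _⟩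
    rw [Sym2.eq_swap]; exact C.xy
  · obtain ⟨r', l', h1, h2, h3⟩ := (List.isChain_cons_cons.1 hj.1).1
    have h4 : r' = r := by simpa [List.getLast?_cons, hr] using h1.symm
    have h5 : l' = l := by simpa [hl] using h2.symm
    rw [← h4, ← h5]; exact h3
  · refine notMem_new C.nd hrE (ext := [x, y]) ?_ ?_
    · intro h
      exact C.oNx r h (by simp [hrE])
    · intro z
      simp only [List.flatten_cons, List.flatten_append, List.flatten_nil, List.count_append,
        List.count_cons, List.count_nil, flatten_rv, List.count_reverse, List.append_assoc,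
        List.nil_append, List.cons_append]
      omega
  · refine notMem_new C.nd hlA (ext := [x, y]) ?_ ?_
    · intro h
      exact C.oNx l h (by simp [hlA])
    · intro z
      simp only [List.flatten_cons, List.flatten_append, List.flatten_nil, List.count_append,
        List.count_cons, List.count_nil, flatten_rv, List.count_reverse, List.append_assoc,
        List.nil_append, List.cons_append]
      omega
  · have := C.card
    simp at this ⊢
    omega
  · simp
    omega

theorem nodup_head {A D : List V} {x : V} (h : (A ++ D).head? = some x) (hx : x ∈ D)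
    (hn : (A ++ D).Nodup) : A = [] := by
  cases A with
  | nil => rfl
  | cons c A =>
    exfalso
    have h1 : c = x := by simpa using h
    rw [h1] at hn
    have := (List.nodup_append'.1 hn).2.2
    exact this (by simp) hx

theorem Ty.head {g g' x : V} {Ps : List (List V)} {P : List V} (h : Ty G g g' Ps P)
    (hn : P.Nodup) (hx : P.head? = some x) (hc : Con G (OV g g' Ps) g x) : G.Adj g x := by
  obtain ⟨A, a, M, b, D, h1, h2, h3, h4⟩ := h.nb
  have h5 := h4 x (List.mem_of_head? hx) hc
  rw [h1] at hx hn
  have h6 : A = [] := nodup_head hx (by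
    simp only [List.mem_cons, List.mem_append, List.not_mem_nil, or_false] at h5 ⊢
    tauto) hn
  rw [h6] at hx
  have h7 : a = x := by simpa using hx
  rw [← h7]; exact h2

theorem Cfg.oRevS {x y : V} {P P' : List V} {Ms : List (List V)}
    (C : Cfg G L x y (P :: P' :: Ms)) : Cfg G L y x (P'.reverse :: P.reverse :: rv Ms) := by
  have h := C.oRev.oSwap
  have h1 : rv (P :: P' :: Ms) = rv Ms ++ [P'.reverse, P.reverse] := by simp
  rw [h1] at h
  exact h.oRot

theorem OV_revS {x y : V} {P P' : List V} {Ms : List (List V)} :
    OV y x (P'.reverse :: P.reverse :: rv Ms) = OV x y (P :: P' :: Ms) := by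
  have h1 : P'.reverse :: P.reverse :: rv Ms = [P'.reverse, P.reverse] ++ rv Ms := by simp
  rw [OV_osw, h1, OV_rot, ← OV_rev (Ps := P :: P' :: Ms)]
  simp

theorem Ty.revS {x y : V} {P P' Q : List V} {Ms : List (List V)}
    (h : Ty G x y (P :: P' :: Ms) Q) : Ty G x y (P'.reverse :: P.reverse :: rv Ms) Q.reverse := by
  have h1 := h.orev
  refine h1.ocg ?_
  rw [← OV_osw, OV_revS, OV_rev]

/-- at a transition the first vertex of the second segment is a neighbour of its gate -/
theorem transL (S : Od G L) {x y l : V} {P P' : List V} {Ms : List (List V)}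
    (C : Cfg G L x y (P :: P' :: Ms)) (hP : Ty G y x (P :: P' :: Ms) P)
    (hP' : Ty G x y (P :: P' :: Ms) P') (hl : P'.head? = some l) : G.Adj x l := by
  obtain ⟨D, b, M, b', D', e1, h1, h2, -⟩ := hP.nb
  obtain ⟨A', a, M', a', F, e2, h3, h4, -⟩ := hP'.nb
  have e1' : P = D ++ b :: (M ++ b' :: D') := e1
  have e2' : P' = (A' ++ a :: M') ++ a' :: F := by rw [e2]; simp
  rcases A' with _ | ⟨l', A''⟩
  · have : a = l := by simpa [e2] using hl
    rw [← this]; exact h3
  have hl' : l' = l := by simpa [e2] using hl
  subst hl'
  obtain ⟨r, hr⟩ : ∃ r, (M ++ b' :: D').getLast? = some r :=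
    ⟨_, List.getLast?_eq_getLast_of_ne_nil (by simp)⟩
  subst e1'
  rw [e2'] at C
  have C1 := off S (l := l') C hr (by simp) h1 h4
  have hQ := (S.F _ _ _ C1).typ (x :: a' :: F) (by simp)
  have hcon : Con G (OV r l' ((x :: a' :: F) :: (Ms ++ [D ++ b :: [y]]))) l' x := by
    apply Lnk.con (q := A'' ++ [a])
    refine ⟨?_, ?_, ?_⟩
    · have c := C.ch (((l' :: A'') ++ a :: M') ++ a' :: F) (by simp)
      have c' : ((l' :: A'') ++ a :: (M' ++ a' :: F)).IsChain G.Adj := by simpa using c
      have c2 := (ch1 c').1
      have : (l' :: (A'' ++ a :: [x])).IsChain G.Adj :=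
        glueM (by simpa using c2) (join0 h3.symm (List.isChain_singleton x))
      simpa using this
    · have := C.oNd (show ((l' :: A'') ++ a :: M') ++ a' :: F ∈ _ by simp)
      refine this.sublist ?_
      simp
    · intro z hz
      have hzm : z ∈ (((l' :: A'') ++ a :: M') ++ a' :: F) := by
        simp at hz ⊢; tauto
      refine ⟨notMem_new C.nd (gone := A'' ++ [a]) hz (ext := [x, y]) ?_ ?_, ?_, ?_⟩
      · intro h
        exact C.oNx z h (by simp at hz ⊢; tauto)
      · intro z
        simp only [List.flatten_cons, List.flatten_append, List.flatten_nil, List.count_append,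
          List.count_cons, List.count_nil, flatten_rv, List.count_reverse, List.append_assoc,
          List.nil_append, List.cons_append]
        omega
      · intro h
        have hn := C.nd
        rw [h] at hz
        have h5 := List.nodup_iff_count_le_one.1 hn r
        have h6 : 0 < (A'' ++ [a]).count r := List.count_pos_iff.2 hz
        have h7 : 0 < (M ++ b' :: D').count r := List.count_pos_iff.2 (List.mem_of_getLast? hr)
        simp only [List.flatten_cons, List.count_append, List.count_cons, List.count_nil,
          List.cons_append] at h5 h6 h7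
        omega
      · intro h
        have hn := C.nd
        rw [h] at hz
        have h5 := List.nodup_iff_count_le_one.1 hn l'
        have h6 : 0 < (A'' ++ [a]).count l' := List.count_pos_iff.2 hz
        simp only [List.flatten_cons, List.count_append, List.count_cons, List.count_nil,
          List.cons_append, beq_self_eq_true, if_true] at h5 h6
        omega
  rcases hQ with hQ | hQ
  · exact absurd hcon (hQ.no x (by simp))
  · refine (hQ.head (C1.oNd (by simp)) (by simp) ?_).symm
    rw [OV_osw]; exact hcon

/-- at a transition the last vertex of the first segment is a neighbour of its gate -/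
theorem transR (S : Od G L) {x y r : V} {P P' : List V} {Ms : List (List V)}
    (C : Cfg G L x y (P :: P' :: Ms)) (hP : Ty G y x (P :: P' :: Ms) P)
    (hP' : Ty G x y (P :: P' :: Ms) P') (hr : P.getLast? = some r) : G.Adj y r :=
  transL S C.oRevS hP'.revS hP.revS (by simpa using hr)

/-- no chord over the first neighbour of `x` -/
theorem lemQ (S : Od G L) {x y z w a : V} {A B D q : List V} {Ms : List (List V)}
    (C : Cfg G L x y ((A ++ z :: (B ++ w :: D)) :: Ms))
    (hq : Lnk G (OV x y ((A ++ z :: (B ++ w :: D)) :: Ms)) z w q) (ha : a ∈ B)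
    (hxa : G.Adj x a) (hno : ∀ c ∈ A ++ [z], ¬ G.Adj x c) : False := by
  obtain ⟨c1, c2, c3⟩ := ch2 (C.ch (A ++ z :: (B ++ w :: D)) (by simp))
  have hMs : 1 ≤ Ms.length := by
    have h1 := C.card
    have h2 := S.three
    simp only [List.length_cons] at h1
    omega
  have hMs2 : 1 ≤ Ms.flatten.length := by
    rcases Ms with _ | ⟨Q, Ms⟩
    · simp at hMs
    · have := C.two Q (by simp)
      simp only [List.flatten_cons, List.length_append]
      omega
  have C1 : Cfg G L x y ((A ++ z :: (q ++ w :: D)) :: Ms) := by
    refine ⟨?_, ?_, ?_, ?_, C.xy, ?_, ?_, ?_, ?_⟩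
    · refine nodup_new C.nd hq.nd (fun z hz => (hq.mem z hz).1) ?_
      intro z
      simp only [List.flatten_cons, List.flatten_append, List.flatten_nil, List.count_append,
        List.count_cons, List.count_nil, flatten_rv, List.count_reverse, List.append_assoc,
        List.nil_append, List.cons_append]
      omega
    · intro P hP
      rcases List.mem_cons.1 hP with hP | hP
      · rw [hP]; exact glue1 c1 (glueM hq.ch c3)
      · exact C.ch _ (by simp [hP])
    · intro P hP
      rcases List.mem_cons.1 hP with hP | hP
      · rw [hP]; simp; omega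
      · exact C.two _ (by simp [hP])
    · exact chain_congr C.jn (by simp [List.getLast?_cons]) (by simp [List.getLast?_cons])
    · intro h
      rcases List.mem_append.1 (show x ∈ q ++ (A ++ z :: (w :: D) ++ Ms.flatten) by
        simp only [List.flatten_cons, List.mem_append, List.mem_cons] at h ⊢; tauto) with h | h
      · exact (hq.mem x h).2.1 rfl
      · apply C.hx
        simp only [List.flatten_cons, List.mem_append, List.mem_cons] at h ⊢; tauto
    · intro h
      rcases List.mem_append.1 (show y ∈ q ++ (A ++ z :: (w :: D) ++ Ms.flatten) by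
        simp only [List.flatten_cons, List.mem_append, List.mem_cons] at h ⊢; tauto) with h | h
      · exact (hq.mem y h).2.2 rfl
      · apply C.hy
        simp only [List.flatten_cons, List.mem_append, List.mem_cons] at h ⊢; tauto
    · have := C.card
      simp only [List.length_cons] at this ⊢
      omega
    · simp only [List.flatten_cons, List.length_append, List.length_cons]
      omega
  obtain ⟨B1, B2, hB⟩ := List.append_of_mem ha
  have hcon : Con G (OV x y ((A ++ z :: (q ++ w :: D)) :: Ms)) x z := by
    apply Lnk.con (q := a :: B1.reverse)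
    refine ⟨?_, ?_, ?_⟩
    · rw [hB] at c2
      have h1 : ((z :: B1) ++ a :: (B2 ++ [w])).IsChain G.Adj := by simpa using c2
      have h2 := chain_rev (ch1 h1).1
      have h3 : (a :: (B1.reverse ++ [z])).IsChain G.Adj := by simpa using h2
      exact join0 hxa (by simpa using h3)
    · have h1 := C.oNd (show A ++ z :: (B ++ w :: D) ∈ _ by simp)
      rw [hB] at h1
      have h2 : (B1 ++ [a]).Nodup := h1.sublist (by
        refine List.Sublist.trans ?_ (List.sublist_append_right A _)
        refine List.Sublist.cons z ?_
        simp)
      have h3 := List.nodup_reverse.2 h2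
      simpa using h3
    · intro v hv
      have hvB : v ∈ B := by
        rw [hB]; simp at hv ⊢; tauto
      refine ⟨notMem_new C.nd hvB (ext := q) ?_ ?_, ?_, ?_⟩
      · intro h
        exact (hq.mem v h).1 (by simp [hvB])
      · intro z
        simp only [List.flatten_cons, List.flatten_append, List.flatten_nil, List.count_append,
          List.count_cons, List.count_nil, flatten_rv, List.count_reverse, List.append_assoc,
          List.nil_append, List.cons_append]
        omega
      · intro h
        apply C.hx
        rw [← h]; simp [hvB]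
      · intro h
        apply C.hy
        rw [← h]; simp [hvB]
  rcases (S.F _ _ _ C1).typ (A ++ z :: (q ++ w :: D)) (by simp) with hT | hT
  · obtain ⟨A1, a1, M1, b1, D1, e1, h1, h2, h3⟩ := hT.nb
    have h4 := h3 z (by simp) hcon
    have h5 : a1 = z ∨ Bf (A ++ z :: (q ++ w :: D)) a1 z := by
      rcases List.mem_cons.1 h4 with h5 | h5
      · exact Or.inl h5.symm
      · right
        rw [e1]
        apply Bf.of_right
        simp only [List.mem_append, List.mem_cons, List.not_mem_nil, or_false] at h5 ⊢
        tauto
    have h6 : a1 ∈ A ++ [z] := by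
      rcases h5 with h5 | h5
      · rw [h5]; simp
      · have := h5.mem_left (C1.oNd (by simp))
        simp [this]
    exact hno a1 h6 h1
  · exact hT.no z (by simp) (by rw [OV_osw]; exact hcon)

end Pool.Agent.LW
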