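import Pool.Agent.LW.OC

set_option autoImplicit false

/-!
# Odd case, part D: the full cycles ALPHA and BETA
-/

namespace Pool.Agent.LW

open SimpleGraph Classical

universe w

variable {V : Type w} {G : SimpleGraph V} {L : Finset (Sym2 V)}

theorem alpha1 (S : Od G L) {x y b w p1 p2 v r : V} {D E F U T U' A B q : List V}
    {M1 M2 : List (List V)}
    (C : Cfg G L x y ((D ++ b :: (E ++ w :: F)) :: (M1 ++ (U ++ p1 :: (T ++ p2 :: U')) ::
      ([] ++ (A ++ v :: (B ++ [r])) :: M2))))
    (hyb : G.Adj y b) (hx : G.Adj x p1) (hr : G.Adj r p2)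
    (hq : Lnk G (OV x y ((D ++ b :: (E ++ w :: F)) :: (M1 ++ (U ++ p1 :: (T ++ p2 :: U')) ::
      ([] ++ (A ++ v :: (B ++ [r])) :: M2)))) v w q) : False := by
  apply S.no ((x :: p1 :: U.reverse) :: (rv M1 ++ (F.reverse ++ w :: (q.reverse ++ v :: A.reverse)) ::
    ([] ++ (U'.reverse ++ p2 :: [r]) :: (M2 ++ [D ++ b :: [y]]))))
  obtain ⟨d1, d2, d3⟩ := ch2 (C.ch (D ++ b :: (E ++ w :: F)) (by simp))
  obtain ⟨u1, u2, u3⟩ := ch2 (C.ch (U ++ p1 :: (T ++ p2 :: U')) (by simp))
  obtain ⟨a1, a2, a3⟩ := ch2 (C.ch (A ++ v :: (B ++ [r])) (by simp))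
  refine ⟨?_, ?_, ?_, ?_, ?_⟩
  · refine nodup_new C.nd (ext_nodup S C hq) (ext_new C hq) ?_
    intro z
    simp only [List.flatten_cons, List.flatten_append, List.flatten_nil, List.count_append,
      List.count_cons, List.count_nil, flatten_rv, List.count_reverse, List.append_assoc,
      List.nil_append, List.cons_append]
    omega
  · intro P hP
    simp only [List.mem_cons, List.mem_append, List.not_mem_nil, or_false, false_or] at hP
    rcases hP with hP | hP | hP | hP | hP | hP
    · rw [hP]; exact join0 hx (chain_revS u1)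
    · have := chain_rev (C.ch P.reverse (by simp [mem_rv.1 hP]))
      rwa [List.reverse_reverse] at this
    · rw [hP]; exact glue1 (chain_revC d3) (glueM (chain_revM hq.ch) (chain_revS a1))
    · rw [hP]; exact join1 (chain_revC u3) hr.symm (List.isChain_singleton r)
    · exact C.ch _ (by simp [hP])
    · rw [hP]; exact join1 d1 hyb.symm (List.isChain_singleton y)
  · intro P hP
    simp only [List.mem_cons, List.mem_append, List.not_mem_nil, or_false, false_or] at hP
    rcases hP with hP | hP | hP | hP | hP | hP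
    · rw [hP]; simp
    · have := C.two P.reverse (by simp [mem_rv.1 hP])
      rwa [List.length_reverse] at this
    · rw [hP]; simp; omega
    · rw [hP]; simp
    · exact C.two _ (by simp [hP])
    · rw [hP]; simp
  · have h := C.jn
    rw [cyc3] at h
    rw [cyc4]
    refine ⟨chain_rv h.1 (by simp [List.getLast?_cons]) (by simp [List.getLast?_cons]), ?_, chain_congr h.2.2 (by simp [List.getLast?_cons]) (by simp [List.getLast?_cons]), ?_⟩
    · exact chain_rv h.2.1 (by simp [List.getLast?_cons]) (by simp [List.getLast?_cons])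
    · refine List.isChain_cons_cons.2 ⟨⟨y, x, by simp [List.getLast?_cons], by simp [List.getLast?_cons], ?_⟩, List.isChain_singleton _⟩
      rw [Sym2.eq_swap]; exact C.xy
  · have := C.card
    simp at this ⊢
    omega

theorem alpha2 (S : Od G L) {x y b w p1 p2 v r : V} {D E F U T U' A B q : List V}
    {M1 M2 : List (List V)}
    (C : Cfg G L x y ((D ++ b :: (E ++ w :: F)) :: (M1 ++ (U ++ p2 :: (T ++ p1 :: U')) ::
      ([] ++ (A ++ v :: (B ++ [r])) :: M2))))
    (hyb : G.Adj y b) (hx : G.Adj x p1) (hr : G.Adj r p2)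
    (hq : Lnk G (OV x y ((D ++ b :: (E ++ w :: F)) :: (M1 ++ (U ++ p2 :: (T ++ p1 :: U')) ::
      ([] ++ (A ++ v :: (B ++ [r])) :: M2)))) v w q) : False := by
  apply S.no ((x :: p1 :: U') :: ([] ++ (A ++ v :: (q ++ w :: F)) ::
    (M1 ++ (U ++ p2 :: [r]) :: (M2 ++ [D ++ b :: [y]]))))
  obtain ⟨d1, d2, d3⟩ := ch2 (C.ch (D ++ b :: (E ++ w :: F)) (by simp))
  obtain ⟨u1, u2, u3⟩ := ch2 (C.ch (U ++ p2 :: (T ++ p1 :: U')) (by simp))
  obtain ⟨a1, a2, a3⟩ := ch2 (C.ch (A ++ v :: (B ++ [r])) (by simp))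
  refine ⟨?_, ?_, ?_, ?_, ?_⟩
  · refine nodup_new C.nd (ext_nodup S C hq) (ext_new C hq) ?_
    intro z
    simp only [List.flatten_cons, List.flatten_append, List.flatten_nil, List.count_append,
      List.count_cons, List.count_nil, flatten_rv, List.count_reverse, List.append_assoc,
      List.nil_append, List.cons_append]
    omega
  · intro P hP
    simp only [List.mem_cons, List.mem_append, List.not_mem_nil, or_false, false_or] at hP
    rcases hP with hP | hP | hP | hP | hP | hP
    · rw [hP]; exact join0 hx u3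
    · rw [hP]; exact glue1 a1 (glueM hq.ch d3)
    · exact C.ch _ (by simp [hP])
    · rw [hP]; exact join1 u1 hr.symm (List.isChain_singleton r)
    · exact C.ch _ (by simp [hP])
    · rw [hP]; exact join1 d1 hyb.symm (List.isChain_singleton y)
  · intro P hP
    simp only [List.mem_cons, List.mem_append, List.not_mem_nil, or_false, false_or] at hP
    rcases hP with hP | hP | hP | hP | hP | hP
    · rw [hP]; simp
    · rw [hP]; simp; omega
    · exact C.two _ (by simp [hP])
    · rw [hP]; simp
    · exact C.two _ (by simp [hP])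
    · rw [hP]; simp
  · have h := C.jn
    rw [cyc3] at h
    rw [cyc4]
    refine ⟨chain_congr h.2.1 (by simp [List.getLast?_cons]) (by simp [List.getLast?_cons]), chain_congr h.1 (by simp [List.getLast?_cons]) (by simp [List.getLast?_cons]),
      chain_congr h.2.2 (by simp [List.getLast?_cons]) (by simp [List.getLast?_cons]), ?_⟩
    refine List.isChain_cons_cons.2 ⟨⟨y, x, by simp [List.getLast?_cons], by simp [List.getLast?_cons], ?_⟩, List.isChain_singleton _⟩
    rw [Sym2.eq_swap]; exact C.xy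
  · have := C.card
    simp at this ⊢
    omega

/-- ALPHA -/
theorem alpha (S : Od G L) {x y b w v r : V} {D E F A B q P : List V}
    {M1 M2 : List (List V)}
    (C : Cfg G L x y ((D ++ b :: (E ++ w :: F)) :: (M1 ++ P ::
      ([] ++ (A ++ v :: (B ++ [r])) :: M2))))
    (hyb : G.Adj y b) (hx : Two G x P) (hr : Two G r P)
    (hq : Lnk G (OV x y ((D ++ b :: (E ++ w :: F)) :: (M1 ++ P ::
      ([] ++ (A ++ v :: (B ++ [r])) :: M2)))) v w q) : False := by
  have nP : P.Nodup := C.oNd (by simp)
  obtain ⟨U, p1, T, p1', U', e1, h1, h1'⟩ := hx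
  obtain ⟨U2, p2, T2, p2', U2', e2, h2, h2'⟩ := hr
  have hp1 : p1 ∈ P := by rw [e1]; simp
  have hp2 : p2 ∈ P := by rw [e2]; simp
  have hp2' : p2' ∈ P := by rw [e2]; simp
  have hne : p2 ≠ p2' := by
    have : Bf P p2 p2' := by rw [e2]; exact Bf.intro
    exact this.ne nP
  have key : ∀ p ∈ P, p ≠ p1 → G.Adj r p → False := by
    intro p hp hpp hrp
    rcases Bf.total hp1 hp (fun h => hpp h.symm) with h | h
    · obtain ⟨A1, M, D1, e⟩ := h.split
      subst e
      exact alpha1 S C hyb h1 hrp hq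
    · obtain ⟨A1, M, D1, e⟩ := h.split
      subst e
      exact alpha2 S C hyb h1 hrp hq
  by_cases h : p2 = p1
  · exact key p2' hp2' (fun h' => hne (h.trans h'.symm)) h2'
  · exact key p2 hp2 h h2

/-- BETA -/
theorem beta (S : Od G L) {x y b w l a v u : V} {D E F A B S' T U q : List V}
    {M1 M2 M3 : List (List V)}
    (C : Cfg G L x y ((D ++ b :: (E ++ w :: F)) :: (M1 ++ (l :: (A ++ a :: B)) ::
      (M2 ++ (S' ++ v :: (T ++ u :: U)) :: M3))))
    (hyb : G.Adj y b) (hx : G.Adj x a) (hl : G.Adj l u)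
    (hq : Lnk G (OV x y ((D ++ b :: (E ++ w :: F)) :: (M1 ++ (l :: (A ++ a :: B)) ::
      (M2 ++ (S' ++ v :: (T ++ u :: U)) :: M3)))) v w q) : False := by
  apply S.no ((l :: u :: U) :: (M3 ++ (D ++ b :: [y]) ::
    ([] ++ (x :: a :: B) :: (M2 ++ (S' ++ v :: (q ++ w :: F)) :: M1))))
  obtain ⟨d1, d2, d3⟩ := ch2 (C.ch (D ++ b :: (E ++ w :: F)) (by simp))
  obtain ⟨a1, a2⟩ := ch1 (show ((l :: A) ++ a :: B).IsChain G.Adj by
    simpa using C.ch (l :: (A ++ a :: B)) (by simp))
  obtain ⟨u1, u2, u3⟩ := ch2 (C.ch (S' ++ v :: (T ++ u :: U)) (by simp))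
  refine ⟨?_, ?_, ?_, ?_, ?_⟩
  · refine nodup_new C.nd (ext_nodup S C hq) (ext_new C hq) ?_
    intro z
    simp only [List.flatten_cons, List.flatten_append, List.flatten_nil, List.count_append,
      List.count_cons, List.count_nil, flatten_rv, List.count_reverse, List.append_assoc,
      List.nil_append, List.cons_append]
    omega
  · intro P hP
    simp only [List.mem_cons, List.mem_append, List.not_mem_nil, or_false, false_or] at hP
    rcases hP with hP | hP | hP | hP | hP | hP | hP
    · rw [hP]; exact join0 hl u3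
    · exact C.ch _ (by simp [hP])
    · rw [hP]; exact join1 d1 hyb.symm (List.isChain_singleton y)
    · rw [hP]; exact join0 hx a2
    · exact C.ch _ (by simp [hP])
    · rw [hP]; exact glue1 u1 (glueM hq.ch d3)
    · exact C.ch _ (by simp [hP])
  · intro P hP
    simp only [List.mem_cons, List.mem_append, List.not_mem_nil, or_false, false_or] at hP
    rcases hP with hP | hP | hP | hP | hP | hP | hP
    · rw [hP]; simp
    · exact C.two _ (by simp [hP])
    · rw [hP]; simp
    · rw [hP]; simp
    · exact C.two _ (by simp [hP])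
    · rw [hP]; simp; omega
    · exact C.two _ (by simp [hP])
  · have h := C.jn
    rw [cyc3] at h
    rw [cyc4]
    refine ⟨chain_congr h.2.2 (by simp [List.getLast?_cons]) (by simp [List.getLast?_cons]), ?_, chain_congr h.2.1 (by simp [List.getLast?_cons]) (by simp [List.getLast?_cons]),
      chain_congr h.1 (by simp [List.getLast?_cons]) (by simp [List.getLast?_cons])⟩
    refine List.isChain_cons_cons.2 ⟨⟨y, x, by simp [List.getLast?_cons], by simp [List.getLast?_cons], ?_⟩, List.isChain_singleton _⟩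
    rw [Sym2.eq_swap]; exact C.xy
  · have := C.card
    simp at this ⊢
    omega

/-- BETA with the order on the segments -/
theorem beta' (S : Od G L) {x y b w l v u : V} {P Q R q : List V} {M1 M2 M3 : List (List V)}
    (C : Cfg G L x y (P :: (M1 ++ Q :: (M2 ++ R :: M3))))
    (hbw : Bf P b w) (hvu : Bf R v u) (hQ : Two G x Q) (hlQ : Q.head? = some l)
    (hyb : G.Adj y b) (hl : G.Adj l u)
    (hq : Lnk G (OV x y (P :: (M1 ++ Q :: (M2 ++ R :: M3)))) v w q) : False := by
  obtain ⟨D, E, F, rfl⟩ := hbw.split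
  obtain ⟨S', T, U, rfl⟩ := hvu.split
  obtain ⟨A, a0, A', a, B, e, -, hxa⟩ := hQ
  have e1 : Q = (A ++ a0 :: A') ++ a :: B := by rw [e]; simp
  obtain ⟨c, A2, hA2⟩ : ∃ c A2, A ++ a0 :: A' = c :: A2 := by
    rcases A with _ | ⟨c, A⟩
    · exact ⟨a0, A', rfl⟩
    · exact ⟨c, A ++ a0 :: A', rfl⟩
  rw [hA2] at e1
  have hc : c = l := by simpa [e1] using hlQ
  subst hc
  subst e1
  exact beta S C hyb hxa hl hq

end Pool.Agent.LW
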