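import Pool.Agent.LW.OD

set_option autoImplicit false

/-!
# Odd case, part E: normality inside a block
-/

namespace Pool.Agent.LW

open SimpleGraph Classical

universe w

variable {V : Type w} {G : SimpleGraph V} {L : Finset (Sym2 V)}

/-- the last element with a property -/
theorem exists_last_bad {α : Type w} {p : α → Prop} {l : List α} (h : ∃ a ∈ l, ¬ p a) :
    ∃ A a D, l = A ++ a :: D ∧ ¬ p a ∧ ∀ b ∈ D, p b := by
  induction l with
  | nil => obtain ⟨a, ha, -⟩ := h; simp at ha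
  | cons c l ih =>
    by_cases h' : ∃ a ∈ l, ¬ p a
    · obtain ⟨A, a, D, h1, h2, h3⟩ := ih h'
      exact ⟨c :: A, a, D, by rw [h1]; simp, h2, h3⟩
    · push Not at h'
      obtain ⟨a, ha, hpa⟩ := h
      rcases List.mem_cons.1 ha with ha | ha
      · exact ⟨[], a, l, by rw [ha]; simp, hpa, h'⟩
      · exact absurd (h' a ha) hpa

theorem snoc_of_ne {α : Type w} {l : List α} (h : l ≠ []) : ∃ A a, l = A ++ [a] :=
  ⟨l.dropLast, l.getLast h, (List.dropLast_append_getLast h).symm⟩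

/-- the first neighbour: the data of a typed segment in the form used below -/
theorem Ty.first {x y : V} {Ps : List (List V)} {P : List V} (h : Ty G x y Ps P)
    (hn : P.Nodup) : ∃ A a E, P = A ++ a :: E ∧ E ≠ [] ∧ G.Adj x a ∧ (∀ c ∈ A, ¬ G.Adj x c) ∧
      ∃ b ∈ E, G.Adj x b := by
  obtain ⟨A, a, M, b, D, h1, h2, h3, h4⟩ := h.nb
  refine ⟨A, a, M ++ b :: D, h1, by simp, h2, ?_, b, by simp, h3⟩
  intro c hc hxc
  have h5 := h4 c (by rw [h1]; simp [hc]) (Or.inl hxc)
  rw [h1] at hn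
  have := (List.nodup_append'.1 hn).2.2
  refine this hc ?_
  simp only [List.mem_cons, List.mem_append, List.not_mem_nil, or_false] at h5 ⊢
  tauto

theorem norm (S : Od G L) {x y l : V} {P1 : List V} {Xs T : List (List V)}
    (C : Cfg G L x y (P1 :: (Xs ++ T))) (h1 : Ty G x y (P1 :: (Xs ++ T)) P1)
    (hX : ∀ P ∈ Xs, Ty G x y (P1 :: (Xs ++ T)) P) (hT : T ≠ [])
    (hT0 : ∀ Q, T.head? = some Q → Ty G y x (P1 :: (Xs ++ T)) Q)
    (hT1 : ∀ Q, T.getLast? = some Q → Ty G y x (P1 :: (Xs ++ T)) Q)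
    (hl : P1.head? = some l) : ∀ P ∈ Xs, Two G l P := by
  by_contra hcon
  push Not at hcon
  obtain ⟨T', Pj, hTe⟩ := snoc_of_ne hT
  have hPj : Ty G y x (P1 :: (Xs ++ T)) Pj := hT1 Pj (by rw [hTe]; simp)
  -- rotate to start with `Pj`
  have hC' : Cfg G L x y (Pj :: P1 :: (Xs ++ T')) := by
    have h : Cfg G L x y ((P1 :: (Xs ++ T')) ++ [Pj]) := by
      rw [hTe] at C; simpa using C
    exact h.oRot
  have hOV : OV x y (Pj :: P1 :: (Xs ++ T')) = OV x y (P1 :: (Xs ++ T)) := by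
    rw [show Pj :: P1 :: (Xs ++ T') = [Pj] ++ (P1 :: (Xs ++ T')) from rfl, OV_rot, hTe]
    simp
  have hx_y : ∀ P, Ty G x y (P1 :: (Xs ++ T)) P → Ty G x y (Pj :: P1 :: (Xs ++ T')) P :=
    fun P h => h.ocg hOV
  have hy_x : ∀ P, Ty G y x (P1 :: (Xs ++ T)) P → Ty G y x (Pj :: P1 :: (Xs ++ T')) P :=
    fun P h => h.ocg (by rw [OV_osw, hOV, OV_osw])
  obtain ⟨r, hr⟩ : ∃ r, Pj.getLast? = some r := by
    have := hC'.two Pj (by simp)
    refine ⟨_, List.getLast?_eq_getLast_of_ne_nil ?_⟩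
    intro h; rw [h] at this; simp at this
  have hyr : G.Adj y r := transR S hC' (hy_x _ hPj) (hx_y _ h1) hr
  have hxl : G.Adj x l := transL S hC' (hy_x _ hPj) (hx_y _ h1) hl
  -- the derived configuration
  obtain ⟨D, b, E, e1, hE, hyb, -, -⟩ := (hy_x _ hPj).first (hC'.oNd (by simp))
  obtain ⟨A, a0, A', a, F, e2, -, hxa⟩ := h1.two
  have hrE : E.getLast? = some r := by
    rw [e1, List.getLast?_append_of_ne_nil _ (by simp)] at hr
    rwa [List.getLast?_cons_of_ne_nil hE] at hr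
  have hbr : Bf Pj b r := by
    rw [e1]; exact Bf.of_right (List.mem_of_getLast? hrE)
  have hlA : (A ++ a0 :: A').head? = some l := by
    rw [e2] at hl
    rcases A with _ | ⟨c, A⟩
    · simpa using hl
    · simpa using hl
  have hC1 : Cfg G L r l ((x :: a :: F) :: ((Xs ++ T') ++ [D ++ b :: [y]])) := by
    have h := hC'
    rw [e1, show P1 = (A ++ a0 :: A') ++ a :: F by rw [e2]; simp] at h
    exact off S h hrE hlA hyb hxa
  obtain ⟨Xs1, P, Xs2, hXs, hbad, hgood⟩ := exists_last_bad (p := Two G l) hcon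
  have hF1 := S.F _ _ _ hC1
  have hPX : P ∈ Xs := by rw [hXs]; simp
  have tyr : Ty G r l ((x :: a :: F) :: ((Xs ++ T') ++ [D ++ b :: [y]])) P := by
    rcases hF1.typ P (by simp [hPX]) with h | h
    · exact h
    · exact absurd h.two hbad
  have tyl : ∀ Q ∈ Xs2, Ty G l r ((x :: a :: F) :: ((Xs ++ T') ++ [D ++ b :: [y]])) Q := by
    intro Q hQ
    rcases hF1.typ Q (by simp [hXs, hQ]) with h | h
    · exfalso
      obtain ⟨B1, c, B2, d, B3, e, hc, -⟩ := hgood Q hQ
      exact h.no c (by rw [e]; simp) (Or.inl hc)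
    · exact h
  obtain ⟨A3, u, M3, u', D3, e3, hru, hru'⟩ := tyr.two
  have huu' : Bf P u u' := by rw [e3]; exact Bf.intro
  have hnP : P.Nodup := C.oNd (by simp [hPX])
  -- the configuration starting with `P`
  have hCP : Cfg G L x y (P :: ((Xs2 ++ T') ++ Pj :: (P1 :: Xs1))) := by
    have h : Cfg G L x y (Pj :: ((P1 :: Xs1) ++ P :: (Xs2 ++ T'))) := by
      have := hC'
      rw [hXs] at this
      simpa using this
    exact h.oRot2
  have hle : ∀ v ∈ P, G.Adj r v → ∀ c ∈ P, G.Adj x c → ¬ Bf P c v := by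
    intro v _ hrv c _ hxc hcv
    exact oPp' S hCP hcv hbr hxc hyb (Lnk.edge hrv.symm)
  obtain ⟨A4, a4, E4, e4, hE4, hxa4, hno4, b4, hb4, hxb4⟩ := (hX P hPX).first hnP
  obtain ⟨rP, hrP⟩ : ∃ rP, E4.getLast? = some rP := ⟨_, List.getLast?_eq_getLast_of_ne_nil hE4⟩
  have hrPP : P.getLast? = some rP := by
    rw [e4, List.getLast?_append_of_ne_nil _ (by simp), List.getLast?_cons_of_ne_nil hE4]
    exact hrP
  have ha4r : Bf P a4 rP := by
    rw [e4]; exact Bf.of_right (List.mem_of_getLast? hrP)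
  rcases Xs2 with _ | ⟨Q, Xs2⟩
  · -- `P` is the last segment of the block
    have hu'P : u' ∈ P := huu'.memR
    have hu'le : u' = a4 ∨ Bf P u' a4 := by
      by_contra hh
      push Not at hh
      rcases Bf.total hu'P (show a4 ∈ P by rw [e4]; simp) hh.1 with h | h
      · exact hh.2 h
      · exact hle u' hu'P hru' a4 (by rw [e4]; simp) hxa4 h
    have hu'r : Bf P u' rP := by
      rcases hu'le with h | h
      · rw [h]; exact ha4r
      · exact h.trans ha4r hnP
    obtain ⟨Ys, P0, hYs⟩ := snoc_of_ne (show P1 :: Xs1 ≠ [] by simp)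
    obtain ⟨T0, T'', hT''⟩ := List.exists_cons_of_ne_nil hT
    have hP0X : Ty G x y (P1 :: (Xs ++ T)) P0 := by
      have : P0 ∈ P1 :: Xs1 := by rw [hYs]; simp
      rcases List.mem_cons.1 this with h | h
      · rw [h]; exact h1
      · exact hX P0 (by rw [hXs]; simp [h])
    have hC3 : Cfg G L x y (P :: T0 :: (T'' ++ (Ys ++ [P0]))) := by
      have h := hCP
      rw [hYs] at h
      have e : P :: (([] ++ T') ++ Pj :: (Ys ++ [P0])) = P :: ((T' ++ [Pj]) ++ (Ys ++ [P0])) := by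
        simp
      rw [e, ← hTe, hT''] at h
      simpa using h
    have hO3 : OV x y (P :: T0 :: (T'' ++ (Ys ++ [P0]))) = OV x y (P1 :: (Xs ++ T)) := by
      have e : P :: T0 :: (T'' ++ (Ys ++ [P0])) = (P :: T) ++ (P1 :: Xs1) := by
        rw [hT'', hYs]; simp
      rw [e, OV_rot, hXs]
      simp
    have hO3' : OV y x (P :: T0 :: (T'' ++ (Ys ++ [P0]))) = OV y x (P1 :: (Xs ++ T)) := by
      rw [OV_osw, hO3, OV_osw]
    have tyT0 : Ty G y x (P1 :: (Xs ++ T)) T0 := hT0 T0 (by rw [hT'']; rfl)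
    have hxrP : G.Adj x rP :=
      transR S hC3.oSwap ((hX P hPX).ocg hO3) (tyT0.ocg hO3') hrPP
    obtain ⟨D5, b0, M5, b5, F5, e5, -, hyb5⟩ := tyT0.two
    obtain ⟨l', hl'⟩ : ∃ l', (D5 ++ b0 :: M5).head? = some l' := by
      rcases D5 with _ | ⟨c, D5⟩
      · exact ⟨b0, rfl⟩
      · exact ⟨c, rfl⟩
    have hC4 : Cfg G L rP l' ((y :: b5 :: F5) ::
        ((T'' ++ (Ys ++ [P0])) ++ [A4 ++ a4 :: [x]])) := by
      have h := hC3.oSwap
      rw [e4, show T0 = (D5 ++ b0 :: M5) ++ b5 :: F5 by rw [e5]; simp] at h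
      exact off S h hrP hl' hxa4 hyb5
    have hF4 := S.F _ _ _ hC4
    rcases hF4.typ P0 (by simp) with h | h
    · -- ALPHA
      obtain ⟨P', hP'⟩ : ∃ P', P = P' ++ [rP] := by
        obtain ⟨P', c, hP'⟩ := snoc_of_ne (show P ≠ [] by rw [e4]; simp)
        refine ⟨P', ?_⟩
        rw [hP'] at hrPP ⊢
        have : c = rP := by simpa using hrPP
        rw [this]
      have hu'P' : u' ∈ P' := by
        rw [hP'] at hu'P
        rcases List.mem_append.1 hu'P with h5 | h5
        · exact h5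
        · exact absurd (by simpa using h5) (hu'r.ne hnP)
      obtain ⟨A6, B6, e6⟩ := List.append_of_mem hu'P'
      obtain ⟨D7, E7, F7, e7⟩ := hbr.split
      have hC5 : Cfg G L x y ((D7 ++ b :: (E7 ++ r :: F7)) :: (Ys ++ P0 ::
          ([] ++ (A6 ++ u' :: (B6 ++ [rP])) :: T'))) := by
        have h5 := hC'
        rw [hXs, e7, hP', e6] at h5
        have e : P1 :: (Xs1 ++ [(A6 ++ u' :: B6) ++ [rP]] ++ T') =
          (P1 :: Xs1) ++ ((A6 ++ u' :: B6) ++ [rP]) :: T' := by simp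
        rw [e, hYs] at h5
        simpa using h5
      exact alpha S hC5 hyb hP0X.two h.two (Lnk.edge hru'.symm)
    · have tyQ : Ty G rP l' ((y :: b5 :: F5) :: ((T'' ++ (Ys ++ [P0])) ++ [A4 ++ a4 :: [x]]))
          (A4 ++ a4 :: [x]) := by
        rcases hF4.typ (A4 ++ a4 :: [x]) (by simp) with h' | h'
        · exact h'
        · exact absurd (Or.inl hxrP.symm) (h'.no x (by simp))
      have hC5 : Cfg G L rP l' ((P0 :: (A4 ++ a4 :: [x]) :: []) ++
          ((y :: b5 :: F5) :: (T'' ++ Ys))) := by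
        have h5 : Cfg G L rP l' (((y :: b5 :: F5) :: (T'' ++ Ys)) ++
          (P0 :: (A4 ++ a4 :: [x]) :: [])) := by simpa using hC4
        exact h5.oRot
      have hO5 : OV rP l' ((P0 :: (A4 ++ a4 :: [x]) :: []) ++
          ((y :: b5 :: F5) :: (T'' ++ Ys))) = OV rP l' ((y :: b5 :: F5) ::
        ((T'' ++ (Ys ++ [P0])) ++ [A4 ++ a4 :: [x]])) := by
        rw [OV_rot]; simp
      rcases A4 with _ | ⟨h0, A4⟩
      · have e4' : P = a4 :: E4 := by rw [e4]; rfl
        have hno : ∀ c, ¬ Bf P c a4 := by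
          intro c hc
          have h5 := hc
          rw [e4'] at h5
          have := (show Bf ([] ++ a4 :: E4) c a4 from h5).mem_left (by
            rw [e4'] at hnP; exact hnP)
          simp at this
        rcases hu'le with h5 | h5
        · rw [h5] at huu'; exact hno _ huu'
        · exact hno _ h5
      · have hadj : G.Adj rP h0 := transL S (P := P0) (P' := (h0 :: A4) ++ a4 :: [x])
          (Ms := (y :: b5 :: F5) :: (T'' ++ Ys)) hC5 (h.ocg (by
            rw [OV_osw (x := rP) (y := l'), OV_osw (x := rP) (y := l')]; exact hO5))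
          (tyQ.ocg hO5) (by simp)
        obtain ⟨E6, c6, e6⟩ := snoc_of_ne hE4
        have hc6 : c6 = rP := by rw [e6] at hrP; simpa using hrP
        rw [hc6] at e6
        have e8 : P = [] ++ h0 :: ((A4 ++ a4 :: E6) ++ rP :: []) := by rw [e4, e6]; simp
        have hC6 : Cfg G L x y (([] ++ h0 :: ((A4 ++ a4 :: E6) ++ rP :: [])) ::
            (T0 :: (T'' ++ (Ys ++ [P0])))) := by
          rw [← e8]; exact hC3
        refine lemQ S hC6 (Lnk.edge hadj.symm) (a := a4) (by simp) hxa4 ?_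
        intro c hc
        have : c = h0 := by simpa using hc
        rw [this]
        exact hno4 h0 (by simp)
  · -- a transition inside the block
    have hC2 : Cfg G L l r ((P :: Q :: (Xs2 ++ T' ++ [D ++ b :: [y]])) ++
        ((x :: a :: F) :: Xs1)) := by
      have h := hC1.oSwap
      rw [hXs] at h
      have h' : Cfg G L l r (((x :: a :: F) :: Xs1) ++
        (P :: Q :: (Xs2 ++ T' ++ [D ++ b :: [y]]))) := by simpa using h
      exact h'.oRot
    have hO2 : OV l r ((P :: Q :: (Xs2 ++ T' ++ [D ++ b :: [y]])) ++ ((x :: a :: F) :: Xs1)) =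
        OV l r ((x :: a :: F) :: ((Xs ++ T') ++ [D ++ b :: [y]])) := by
      rw [OV_rot, hXs]
      simp
    have h := transR S (r := rP) hC2 (tyr.ocg (by
      rw [OV_osw (x := l) (y := r), OV_osw (x := l) (y := r)]; exact hO2))
      ((tyl Q (by simp)).ocg hO2) hrPP
    exact hle rP (List.mem_of_getLast? hrPP) h a4 (by rw [e4]; simp) hxa4 ha4r

end Pool.Agent.LW
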