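import Pool.Agent.LW.OE

set_option autoImplicit false

/-!
# Odd case, part F: no connections from the ends of an inner edge of a block
-/

namespace Pool.Agent.LW

open SimpleGraph Classical

universe w

variable {V : Type w} {G : SimpleGraph V} {L : Finset (Sym2 V)}

/-- mirror image of `norm` -/
theorem norm' (S : Od G L) {x y r : V} {Pt : List V} {Xs T : List (List V)}
    (C : Cfg G L x y (T ++ (Xs ++ [Pt]))) (h1 : Ty G x y (T ++ (Xs ++ [Pt])) Pt)
    (hX : ∀ P ∈ Xs, Ty G x y (T ++ (Xs ++ [Pt])) P) (hT : T ≠ [])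
    (hT0 : ∀ Q, T.head? = some Q → Ty G y x (T ++ (Xs ++ [Pt])) Q)
    (hT1 : ∀ Q, T.getLast? = some Q → Ty G y x (T ++ (Xs ++ [Pt])) Q)
    (hr : Pt.getLast? = some r) : ∀ P ∈ Xs, Two G r P := by
  have e : rv (T ++ (Xs ++ [Pt])) = Pt.reverse :: (rv Xs ++ rv T) := by simp
  have hC := C.oRev
  rw [e] at hC
  have hrv : ∀ (g g' : V) (P : List V), Ty G g g' (T ++ (Xs ++ [Pt])) P →
      Ty G g g' (Pt.reverse :: (rv Xs ++ rv T)) P.reverse := by
    intro g g' P h
    have := h.orev
    rwa [e] at this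
  have h := norm S hC (hrv _ _ _ h1) (l := r) ?_ ?_ ?_ ?_ (by simpa using hr)
  · intro P hP
    have h2 := h P.reverse (mem_rv.2 (by simpa using hP))
    simpa using h2.reverse
  · intro P hP
    have := hrv _ _ _ (hX _ (mem_rv.1 hP))
    simpa using this
  · intro h2
    apply hT
    have := congrArg List.length h2
    simpa using this
  · intro Q hQ
    have h2 : T.getLast? = some Q.reverse := by
      unfold rv at hQ
      rw [List.head?_reverse, List.getLast?_map] at hQ
      cases h3 : T.getLast? with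
      | none => rw [h3] at hQ; simp at hQ
      | some R =>
        rw [h3] at hQ
        simp only [Option.map_some, Option.some.injEq] at hQ
        rw [← hQ, List.reverse_reverse]
    have := hrv _ _ _ (hT1 _ h2)
    simpa using this
  · intro Q hQ
    have h2 : T.head? = some Q.reverse := by
      unfold rv at hQ
      rw [List.getLast?_reverse, List.head?_map] at hQ
      cases h3 : T.head? with
      | none => rw [h3] at hQ; simp at hQ
      | some R =>
        rw [h3] at hQ
        simp only [Option.map_some, Option.some.injEq] at hQ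
        rw [← hQ, List.reverse_reverse]
    have := hrv _ _ _ (hT0 _ h2)
    simpa using this

theorem split_block {α : Type w} (p : α → Prop) (l : List α) :
    ∃ X R, l = X ++ R ∧ (∀ a ∈ X, p a) ∧ ∀ a, R.head? = some a → ¬ p a := by
  induction l with
  | nil => exact ⟨[], [], rfl, by simp, by simp⟩
  | cons c l ih =>
    by_cases hc : p c
    · obtain ⟨X, R, h1, h2, h3⟩ := ih
      refine ⟨c :: X, R, by rw [h1]; rfl, ?_, h3⟩
      intro a ha
      rcases List.mem_cons.1 ha with ha | ha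
      · rw [ha]; exact hc
      · exact h2 a ha
    · refine ⟨[], c :: l, rfl, by simp, ?_⟩
      intro a ha
      have : c = a := by simpa using ha
      rw [← this]; exact hc

theorem Ty.of_not {x y : V} {Ps : List (List V)} {P : List V} (h : F0 G x y Ps) (hP : P ∈ Ps)
    (hn : ¬ Ty G x y Ps P) : Ty G y x Ps P := (h.typ P hP).resolve_left hn

/-- `GeAll` at the head is impossible -/
theorem not_geAll_head {x l : V} {P : List V} (hn : P.Nodup) (hP : Two G x P)
    (hl : P.head? = some l) : ¬ GeAll G x P l := by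
  intro h
  obtain ⟨A, a, M, b, D, e, h1, h2⟩ := hP
  obtain ⟨P', hP'⟩ : ∃ P', P = l :: P' := by
    rcases P with _ | ⟨c, P'⟩
    · simp at hl
    · exact ⟨P', by rw [show c = l by simpa using hl]⟩
  have hno : ∀ c, ¬ Bf P c l := by
    intro c hc
    rw [hP'] at hc hn
    have := (show Bf ([] ++ l :: P') c l from hc).mem_left hn
    simp at this
  have hab : Bf P a b := by rw [e]; exact Bf.intro
  rcases h b (by rw [e]; simp) h2 with h3 | h3
  · rw [← h3] at hab; exact hno _ hab
  · exact hno _ h3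

theorem GeAll.after {y z : V} {P : List V} (h : GeAll G y P z) (hP : Two G y P)
    (hn : P.Nodup) : ∃ b, G.Adj y b ∧ Bf P b z := by
  obtain ⟨A, a, M, b, D, e, h1, h2⟩ := hP
  have hab : Bf P a b := by rw [e]; exact Bf.intro
  refine ⟨a, h1, ?_⟩
  rcases h b (by rw [e]; simp) h2 with h3 | h3
  · rw [h3]; exact hab
  · exact hab.trans h3 hn

/-- the block decomposition around consecutive segments of the type of `x` -/
theorem sevenA (S : Od G L) {x y l z : V} {Pc Pi Pi1 q : List V} {Mid Rest : List (List V)}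
    (C : Cfg G L x y (Pc :: (Mid ++ Pi :: Pi1 :: Rest)))
    (hc : Ty G y x (Pc :: (Mid ++ Pi :: Pi1 :: Rest)) Pc)
    (hi : Ty G x y (Pc :: (Mid ++ Pi :: Pi1 :: Rest)) Pi)
    (hi1 : Ty G x y (Pc :: (Mid ++ Pi :: Pi1 :: Rest)) Pi1)
    (hl : Pi1.head? = some l) (hz : z ∈ Pc)
    (hq : Lnk G (OV x y (Pc :: (Mid ++ Pi :: Pi1 :: Rest))) l z q) : False := by
  have hF := S.F _ _ _ C
  have nc : Pc.Nodup := C.oNd (by simp)
  have n1 : Pi1.Nodup := C.oNd (by simp)
  -- the type of the connection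
  have hge : GeAll G y Pc z := by
    have h : Cfg G L x y (Pc :: ((Mid ++ [Pi]) ++ Pi1 :: Rest)) := by simpa using C
    have hO := OV_rot2 (x := x) (y := y) (P := Pc) (Q := Pi1) (Ms := Mid ++ [Pi]) (Ns := Rest)
    rcases oTypes S h.oRot2 hi1.two hc.two (List.mem_of_head? hl) hz (hq.ocg (by
      rw [hO]; simp)) with h' | h'
    · exact h'.2
    · exact absurd h'.1 (not_geAll_head n1 hi1.two hl)
  obtain ⟨b, hyb, hbz⟩ := hge.after hc.two nc
  -- the last segment of the type of `y` before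
  obtain ⟨T1, Py, Xs', e1, hPy, hXs'⟩ := exists_last_bad
    (p := Ty G x y (Pc :: (Mid ++ Pi :: Pi1 :: Rest))) (l := Pc :: Mid)
    ⟨Pc, by simp, fun h => h.disj hc⟩
  have hPym : Py ∈ Pc :: Mid := by rw [e1]; simp
  have hPy' : Ty G y x (Pc :: (Mid ++ Pi :: Pi1 :: Rest)) Py := Ty.of_not hF (by
    rcases List.mem_cons.1 hPym with h | h
    · simp [h]
    · simp [h]) hPy
  obtain ⟨Xs2, R, e2, hXs2, hR⟩ := split_block (Ty G x y (Pc :: (Mid ++ Pi :: Pi1 :: Rest))) Rest
  obtain ⟨Pp, Xs'', e3⟩ := List.exists_cons_of_ne_nil (show Xs' ++ [Pi] ≠ [] by simp)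
  have hXp : ∀ P ∈ Pp :: Xs'', Ty G x y (Pc :: (Mid ++ Pi :: Pi1 :: Rest)) P := by
    intro P hP
    rw [← e3] at hP
    rcases List.mem_append.1 hP with hP | hP
    · exact hXs' P hP
    · rw [List.mem_singleton.1 hP]; exact hi
  have e4 : Pc :: (Mid ++ [Pi]) = (T1 ++ [Py]) ++ Pp :: Xs'' := by
    rw [← e3]
    have : Pc :: (Mid ++ [Pi]) = (Pc :: Mid) ++ [Pi] := by simp
    rw [this, e1]
    simp
  have e5 : Pc :: (Mid ++ Pi :: Pi1 :: Rest) =
      (T1 ++ [Py]) ++ (Pp :: (Xs'' ++ Pi1 :: Xs2) ++ R) := by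
    have : Pc :: (Mid ++ Pi :: Pi1 :: Rest) = (Pc :: (Mid ++ [Pi])) ++ Pi1 :: Rest := by simp
    rw [this, e4, e2]
    simp
  obtain ⟨lp, hlp⟩ : ∃ lp, Pp.head? = some lp := by
    have h2 := C.two Pp (by rw [e5]; simp)
    rcases Pp with _ | ⟨c, Pp⟩
    · simp at h2
    · exact ⟨c, rfl⟩
  have hTwo : Two G lp Pi1 := by
    have h : Cfg G L x y (Pp :: ((Xs'' ++ Pi1 :: Xs2) ++ (R ++ (T1 ++ [Py])))) := by
      have h := C
      rw [e5] at h
      have := h.oRot
      simpa using this
    have hO : ∀ g g', OV g g' (Pp :: ((Xs'' ++ Pi1 :: Xs2) ++ (R ++ (T1 ++ [Py])))) =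
        OV g g' (Pc :: (Mid ++ Pi :: Pi1 :: Rest)) := by
      intro g g'
      rw [e5, OV_rot]
      simp
    refine norm S h ((hXp Pp (by simp)).ocg (hO _ _)) ?_ (by simp) ?_ ?_ hlp Pi1 (by simp)
    · intro P hP
      refine Ty.ocg ?_ (hO _ _)
      simp only [List.mem_append, List.mem_cons] at hP
      rcases hP with hP | hP | hP
      · exact hXp P (by simp [hP])
      · rw [hP]; exact hi1
      · exact hXs2 P hP
    · intro Q hQ
      refine Ty.ocg ?_ (hO _ _)
      rcases R with _ | ⟨R0, R⟩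
      · have : Q = Pc := by
          have h2 : (Pc :: Mid).head? = (T1 ++ [Py]).head? := by
            rw [e1]
            cases T1 <;> simp
          have h3 : (T1 ++ [Py]).head? = some Q := by simpa using hQ
          rw [← h2] at h3
          simpa using h3.symm
        rw [this]; exact hc
      · have : R0 = Q := by simpa using hQ
        rw [← this]
        exact Ty.of_not hF (by rw [e2]; simp) (hR R0 (by simp))
    · intro Q hQ
      refine Ty.ocg ?_ (hO _ _)
      have : Py = Q := by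
        rw [← List.append_assoc] at hQ
        simpa using hQ
      rw [← this]; exact hPy'
  obtain ⟨A, u1, M, u2, D, e6, -, hu2⟩ := hTwo
  have hlu : Bf Pi1 l u2 := by
    have hne : l ≠ u2 := by
      intro h
      rw [e6] at hl n1
      rcases A with _ | ⟨c, A⟩
      · have : u1 = l := by simpa using hl
        rw [this, h] at n1
        simp at n1
      · have : c = l := by simpa using hl
        rw [this, h] at n1
        simp at n1
    rcases Bf.total (List.mem_of_head? hl) (show u2 ∈ Pi1 by rw [e6]; simp) hne with h | h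
    · exact h
    · exfalso
      obtain ⟨P', hP'⟩ : ∃ P', Pi1 = l :: P' := by
        rcases Pi1 with _ | ⟨c, P'⟩
        · simp at hl
        · exact ⟨P', by rw [show c = l by simpa using hl]⟩
      rw [hP'] at h n1
      have := (show Bf ([] ++ l :: P') u2 l from h).mem_left n1
      simp at this
  obtain ⟨M1, e7⟩ : ∃ M1, T1 ++ [Py] = Pc :: M1 := by
    rcases T1 with _ | ⟨t, T1⟩
    · have h := e1
      simp only [List.nil_append, List.cons.injEq] at h
      exact ⟨[], by rw [h.1]; rfl⟩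
    · have h := e1
      simp only [List.cons_append, List.cons.injEq] at h
      exact ⟨T1 ++ [Py], by rw [h.1]; rfl⟩
  have e8 : Pc :: (Mid ++ Pi :: Pi1 :: Rest) = Pc :: (M1 ++ Pp :: (Xs'' ++ Pi1 :: Rest)) := by
    have : Pc :: (Mid ++ Pi :: Pi1 :: Rest) = (Pc :: (Mid ++ [Pi])) ++ Pi1 :: Rest := by simp
    rw [this, e4, e7]
    simp
  have C8 := C
  rw [e8] at C8
  exact beta' S C8 hbz hlu (hXp Pp (by simp)).two hlp hyb hu2 (hq.ocg (by rw [e8]))

/-- mirror image of `sevenA` -/
theorem sevenB (S : Od G L) {x y r z : V} {Pc Pi Pi1 q : List V} {Mid Rest : List (List V)}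
    (C : Cfg G L x y (Pc :: (Mid ++ Pi :: Pi1 :: Rest)))
    (hc : Ty G y x (Pc :: (Mid ++ Pi :: Pi1 :: Rest)) Pc)
    (hi : Ty G x y (Pc :: (Mid ++ Pi :: Pi1 :: Rest)) Pi)
    (hi1 : Ty G x y (Pc :: (Mid ++ Pi :: Pi1 :: Rest)) Pi1)
    (hr : Pi.getLast? = some r) (hz : z ∈ Pc)
    (hq : Lnk G (OV x y (Pc :: (Mid ++ Pi :: Pi1 :: Rest))) r z q) : False := by
  have e : rv (Pc :: (Mid ++ Pi :: Pi1 :: Rest)) =
      (rv Rest ++ Pi1.reverse :: Pi.reverse :: rv Mid) ++ [Pc.reverse] := by simp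
  have hC : Cfg G L x y (Pc.reverse :: (rv Rest ++ Pi1.reverse :: Pi.reverse :: rv Mid)) := by
    have h := C.oRev
    rw [e] at h
    exact h.oRot
  have hO : ∀ g g', OV g g' (Pc.reverse :: (rv Rest ++ Pi1.reverse :: Pi.reverse :: rv Mid)) =
      OV g g' (Pc :: (Mid ++ Pi :: Pi1 :: Rest)) := by
    intro g g'
    rw [← OV_rev (Ps := Pc :: (Mid ++ Pi :: Pi1 :: Rest)), e, OV_rot]
    rfl
  have hrv : ∀ (g g' : V) (P : List V), Ty G g g' (Pc :: (Mid ++ Pi :: Pi1 :: Rest)) P →
      Ty G g g' (Pc.reverse :: (rv Rest ++ Pi1.reverse :: Pi.reverse :: rv Mid)) P.reverse := by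
    intro g g' P h
    refine h.orev.ocg ?_
    rw [hO, OV_rev]
  exact sevenA S hC (hrv _ _ _ hc) (hrv _ _ _ hi1) (hrv _ _ _ hi) (by simpa using hr)
    (by simpa using hz) (hq.ocg (hO _ _))

end Pool.Agent.LW
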