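import Pool.Agent.LW.OF

set_option autoImplicit false

/-!
# Odd case, part G: no connection between segments of different types
-/

namespace Pool.Agent.LW

open SimpleGraph Classical

universe w

variable {V : Type w} {G : SimpleGraph V} {L : Finset (Sym2 V)}

theorem head_split {P : List V} {l : V} (h : P.head? = some l) : ∃ P', P = l :: P' := by
  rcases P with _ | ⟨c, P'⟩
  · simp at h
  · exact ⟨P', by rw [show c = l by simpa using h]⟩

theorem last_split {P : List V} {r : V} (h : P.getLast? = some r) : ∃ P', P = P' ++ [r] := by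
  obtain ⟨P', hP'⟩ := head_split (P := P.reverse) (l := r) (by simpa using h)
  refine ⟨P'.reverse, ?_⟩
  have := congrArg List.reverse hP'
  simpa using this

theorem no_before_head {P : List V} {l c : V} (hn : P.Nodup) (h : P.head? = some l) :
    ¬ Bf P c l := by
  intro hc
  obtain ⟨P', rfl⟩ := head_split h
  have := (show Bf ([] ++ l :: P') c l from hc).mem_left hn
  simp at this

theorem no_after_last {P : List V} {r c : V} (hn : P.Nodup) (h : P.getLast? = some r) :
    ¬ Bf P r c := by
  intro hc
  exact no_before_head (List.nodup_reverse.2 hn) (by simpa using h) hc.reverse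

theorem LeAll.before {x v : V} {P : List V} (h : LeAll G x P v) (hP : Two G x P)
    (hn : P.Nodup) : ∃ b, G.Adj x b ∧ Bf P v b := by
  obtain ⟨A, a, M, b, D, e, h1, h2⟩ := hP
  have hab : Bf P a b := by rw [e]; exact Bf.intro
  refine ⟨b, h2, ?_⟩
  rcases h a (by rw [e]; simp) h1 with h3 | h3
  · rw [h3]; exact hab
  · exact h3.trans hab hn

theorem LeAll.reverse {x v : V} {P : List V} (h : LeAll G x P v) : GeAll G x P.reverse v := by
  intro a ha hxa
  rcases h a (List.mem_reverse.1 ha) hxa with h1 | h1
  · exact Or.inl h1
  · exact Or.inr h1.reverse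

theorem GeAll.reverse {x v : V} {P : List V} (h : GeAll G x P v) : LeAll G x P.reverse v := by
  intro a ha hxa
  rcases h a (List.mem_reverse.1 ha) hxa with h1 | h1
  · exact Or.inl h1
  · exact Or.inr h1.reverse

/-- `Z*` -/
theorem zstar (S : Od G L) {x y b w lp a v u r l : V} {D E F A B S' T R' U q : List V}
    {M1 M2 M3 : List (List V)}
    (C : Cfg G L x y ((D ++ b :: (E ++ w :: F)) :: (M1 ++ (lp :: (A ++ a :: B)) ::
      (M2 ++ (S' ++ v :: T) :: ([] ++ (R' ++ u :: U) :: M3)))))
    (hyb : G.Adj y b) (hx : G.Adj x a) (hlu : G.Adj lp u) (hr : T.getLast? = some r)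
    (hl : R'.head? = some l)
    (hq : Lnk G (OV x y ((D ++ b :: (E ++ w :: F)) :: (M1 ++ (lp :: (A ++ a :: B)) ::
      (M2 ++ (S' ++ v :: T) :: ([] ++ (R' ++ u :: U) :: M3))))) v w q) :
    Cfg G L r l ((lp :: u :: U) :: (M3 ++ (D ++ b :: [y]) :: ([] ++ (x :: a :: B) ::
      (M2 ++ (S' ++ v :: (q ++ w :: F)) :: M1)))) := by
  obtain ⟨d1, d2, d3⟩ := ch2 (C.ch (D ++ b :: (E ++ w :: F)) (by simp))
  obtain ⟨a1, a2⟩ := ch1 (show ((lp :: A) ++ a :: B).IsChain G.Adj by
    simpa using C.ch (lp :: (A ++ a :: B)) (by simp))
  obtain ⟨s1, s2⟩ := ch1 (C.ch (S' ++ v :: T) (by simp))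
  obtain ⟨u1, u2⟩ := ch1 (C.ch (R' ++ u :: U) (by simp))
  have hj := C.jn
  rw [cyc4] at hj
  have hrT : r ∈ T := List.mem_of_getLast? hr
  have hlR : l ∈ R' := List.mem_of_head? hl
  refine ⟨?_, ?_, ?_, ?_, ?_, ?_, ?_, ?_, ?_⟩
  · refine nodup_new C.nd (ext_nodup S C hq) (ext_new C hq) ?_
    intro z
    simp only [List.flatten_cons, List.flatten_append, List.flatten_nil, List.count_append,
      List.count_cons, List.count_nil, flatten_rv, List.count_reverse, List.append_assoc,
      List.nil_append, List.cons_append]
    omega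
  · intro P hP
    simp only [List.mem_cons, List.mem_append, List.not_mem_nil, or_false, false_or] at hP
    rcases hP with hP | hP | hP | hP | hP | hP | hP
    · rw [hP]; exact join0 hlu u2
    · exact C.ch _ (by simp [hP])
    · rw [hP]; exact join1 d1 hyb.symm (List.isChain_singleton y)
    · rw [hP]; exact join0 hx a2
    · exact C.ch _ (by simp [hP])
    · rw [hP]; exact glue1 s1 (glueM hq.ch d3)
    · exact C.ch _ (by simp [hP])
  · intro P hP
    simp only [List.mem_cons, List.mem_append, List.not_mem_nil, or_false, false_or] at hP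
    rcases hP with hP | hP | hP | hP | hP | hP | hP
    · rw [hP]; simp
    · exact C.two _ (by simp [hP])
    · rw [hP]; simp
    · rw [hP]; simp
    · exact C.two _ (by simp [hP])
    · rw [hP]; simp; omega
    · exact C.two _ (by simp [hP])
  · rw [cyc4]
    refine ⟨chain_congr hj.2.2.2 (by simp [List.getLast?_cons]) (by simp [List.getLast?_cons]), ?_, ?_, ?_⟩
    · refine List.isChain_cons_cons.2 ⟨⟨y, x, by simp [List.getLast?_cons], by simp [List.getLast?_cons], ?_⟩, List.isChain_singleton _⟩
      rw [Sym2.eq_swap]; exact C.xy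
    · exact chain_congr hj.2.1 (by simp [List.getLast?_cons]) (by simp [List.getLast?_cons])
    · exact chain_congr hj.1 (by simp [List.getLast?_cons]) (by simp [List.getLast?_cons])
  · obtain ⟨r', l', h1, h2, h3⟩ := (List.isChain_cons_cons.1 hj.2.2.1).1
    have h4 : r' = r := by simpa [List.getLast?_cons, hr] using h1.symm
    have h5 : l' = l := by simpa [hl] using h2.symm
    rw [← h4, ← h5]; exact h3
  · refine notMem_new C.nd hrT (ext := x :: y :: q) ?_ ?_
    · intro h
      exact ext_new C hq r h (by simp [hrT])
    · intro z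
      simp only [List.flatten_cons, List.flatten_append, List.flatten_nil, List.count_append,
        List.count_cons, List.count_nil, flatten_rv, List.count_reverse, List.append_assoc,
        List.nil_append, List.cons_append]
      omega
  · refine notMem_new C.nd hlR (ext := x :: y :: q) ?_ ?_
    · intro h
      exact ext_new C hq l h (by simp [hlR])
    · intro z
      simp only [List.flatten_cons, List.flatten_append, List.flatten_nil, List.count_append,
        List.count_cons, List.count_nil, flatten_rv, List.count_reverse, List.append_assoc,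
        List.nil_append, List.cons_append]
      omega
  · have := C.card
    simp at this ⊢
    omega
  · simp
    omega

end Pool.Agent.LW
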