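import Pool.Agent.LW.OG

set_option autoImplicit false

/-!
# Odd case, part H: cases 0 and 2
-/

namespace Pool.Agent.LW

open SimpleGraph Classical

universe w

variable {V : Type w} {G : SimpleGraph V} {L : Finset (Sym2 V)}

theorem Lnk.att {O : Set V} {v w o : V} {q : List V} (h : Lnk G O v w q) (ho : o ∈ q) :
    o ∈ Att G O v := by
  obtain ⟨A, D, e⟩ := List.append_of_mem ho
  have hc := h.ch
  rw [e] at hc
  have h1 : ((v :: A) ++ o :: (D ++ [w])).IsChain G.Adj := by simpa using hc
  have h2 := (ch1 h1).1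
  obtain ⟨a, A', hA⟩ : ∃ a A', A ++ [o] = a :: A' := by
    rcases A with _ | ⟨a, A⟩
    · exact ⟨o, [], rfl⟩
    · exact ⟨a, A ++ [o], rfl⟩
  have h3 : (v :: (a :: A')).IsChain G.Adj := by
    rw [← hA]; simpa using h2
  obtain ⟨h4, h5⟩ := List.isChain_cons_cons.1 h3
  refine ⟨a, h4, a :: A', ⟨rfl, ?_, h5⟩, ?_⟩
  · rw [← hA]; simp
  · intro z hz
    rw [← hA] at hz
    apply h.mem
    rw [e]
    simp only [List.mem_append, List.mem_cons, List.not_mem_nil, or_false] at hz ⊢
    tauto

/-- case 0 of (8) -/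
theorem case0 (S : Od G L) {x y v w : V} {Pm Pi q : List V} {Rest : List (List V)}
    (C : Cfg G L x y (Pm :: Pi :: Rest))
    (hm : Ty G y x (Pm :: Pi :: Rest) Pm) (hi : Ty G x y (Pm :: Pi :: Rest) Pi)
    (hv : v ∈ Pi) (hw : w ∈ Pm) (hle : LeAll G x Pi v) (hge : GeAll G y Pm w)
    (hq : Lnk G (OV x y (Pm :: Pi :: Rest)) v w q) (hqL : q = [] → s(v, w) ∉ L) : False := by
  obtain ⟨b, hyb, hbw⟩ := hge.after hm.two (C.oNd (by simp))
  obtain ⟨a, hxa, hva⟩ := hle.before hi.two (C.oNd (by simp))
  obtain ⟨D, E, F, e1⟩ := hbw.split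
  obtain ⟨A, M, B, e2⟩ := hva.split
  subst e1
  subst e2
  obtain ⟨d1, d2, d3⟩ := ch2 (C.ch (D ++ b :: (E ++ w :: F)) (by simp))
  obtain ⟨a1, a2, a3⟩ := ch2 (C.ch (A ++ v :: (M ++ a :: B)) (by simp))
  obtain ⟨r, hr⟩ : ∃ r, (E ++ w :: F).getLast? = some r :=
    ⟨_, List.getLast?_eq_getLast_of_ne_nil (by simp)⟩
  obtain ⟨l, hl⟩ : ∃ l, (A ++ v :: M).head? = some l := by
    rcases A with _ | ⟨c, A⟩
    · exact ⟨v, rfl⟩
    · exact ⟨c, rfl⟩
  have C1 : Cfg G L r l ((x :: a :: B) :: (Rest ++ [D ++ b :: [y]])) := by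
    have h := C
    rw [show A ++ v :: (M ++ a :: B) = (A ++ v :: M) ++ a :: B by simp] at h
    exact off S h hr hl hyb hxa
  -- the path from `r` to `l`
  have hW : (F.reverse ++ w :: (q.reverse ++ v :: A.reverse)).IsChain G.Adj :=
    glue1 (chain_revC d3) (glueM (chain_revM hq.ch) (chain_revS a1))
  have hWr : (F.reverse ++ w :: (q.reverse ++ v :: A.reverse)).head? = some r := by
    rw [← hr]; simp [List.getLast?_cons]
  have hWl : (F.reverse ++ w :: (q.reverse ++ v :: A.reverse)).getLast? = some l := by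
    rw [← hl]; simp [List.getLast?_cons]
  have hWn : (F.reverse ++ w :: (q.reverse ++ v :: A.reverse)).Nodup := by
    refine nodup_new C.nd hq.nd (fun z hz => (hq.mem z hz).1) ?_
    intro z
    simp only [List.flatten_cons, List.flatten_append, List.flatten_nil, List.count_append,
      List.count_cons, List.count_nil, flatten_rv, List.count_reverse, List.append_assoc,
      List.nil_append, List.cons_append]
    omega
  obtain ⟨W1, hW1⟩ := head_split hWr
  have hW1ne : W1 ≠ [] := by
    intro h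
    rw [h] at hW1
    have := congrArg List.length hW1
    simp at this
    omega
  obtain ⟨W2, hW2⟩ : ∃ W2, W1 = W2 ++ [l] := by
    apply last_split
    rw [hW1, List.getLast?_cons_of_ne_nil hW1ne] at hWl
    exact hWl
  rw [hW2] at hW1
  have hW2ne : W2 ≠ [] := by
    intro h
    rw [h] at hW1
    have h1 := congrArg List.length hW1
    simp at h1
    have hF : F = [] := List.length_eq_zero_iff.1 (by omega)
    have hA : A = [] := List.length_eq_zero_iff.1 (by omega)
    have hqq : q = [] := List.length_eq_zero_iff.1 (by omega)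
    subst hF hA hqq
    simp at hW1
    refine hqL rfl ?_
    rw [hW1.1, hW1.2, Sym2.eq_swap]
    exact C1.xy
  rw [hW1] at hW hWn
  -- the interior
  have hmem : ∀ z ∈ W2, z ∈ OV r l ((x :: a :: B) :: (Rest ++ [D ++ b :: [y]])) := by
    intro z hz
    have hz' : z ∈ F.reverse ++ w :: (q.reverse ++ v :: A.reverse) := by
      rw [hW1]; simp [hz]
    refine ⟨?_, ?_, ?_⟩
    · by_cases hzq : z ∈ q
      · intro h
        have h1 := hq.mem z hzq
        obtain ⟨h2, h3, h4⟩ := h1
        simp only [List.flatten_cons, List.flatten_append, List.flatten_nil, List.mem_append,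
          List.mem_cons, List.not_mem_nil, or_false] at h h2
        tauto
      · refine notMem_new C.nd (gone := F ++ w :: (v :: A)) ?_ (ext := [x, y]) ?_ ?_
        · simp only [List.mem_append, List.mem_cons, List.mem_reverse] at hz' ⊢
          tauto
        · intro h
          refine C.oNx z h ?_
          simp only [List.mem_append, List.mem_cons, List.mem_reverse, List.flatten_cons] at hz' ⊢
          tauto
        · intro z
          simp only [List.flatten_cons, List.flatten_append, List.flatten_nil, List.count_append,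
            List.count_cons, List.count_nil, flatten_rv, List.count_reverse, List.append_assoc,
            List.nil_append, List.cons_append]
          omega
    · intro h
      rw [h] at hz
      have := (List.nodup_cons.1 hWn).1
      exact this (by simp [hz])
    · intro h
      rw [h] at hz
      have := (List.nodup_append'.1 (List.nodup_cons.1 hWn).2).2.2
      exact this hz (by simp)
  have hlnk : Lnk G (OV r l ((x :: a :: B) :: (Rest ++ [D ++ b :: [y]]))) r l W2 := by
    refine ⟨hW, ?_, hmem⟩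
    exact (List.nodup_append'.1 (List.nodup_cons.1 hWn).2).1
  obtain ⟨o, W3, hW3⟩ := List.exists_cons_of_ne_nil hW2ne
  have ho : o ∈ W2 := by rw [hW3]; simp
  exact (S.F _ _ _ C1).sep o (hlnk.att ho) (hlnk.symm.att (by simpa using ho))

/-- case 2 of (8) -/
theorem case2 (S : Od G L) {x y v w : V} {Pm Ph Pl Pi q : List V} {Mid Rest : List (List V)}
    (C : Cfg G L x y (Pm :: Ph :: (Mid ++ Pi :: Rest)))
    (hm : Ty G y x (Pm :: Ph :: (Mid ++ Pi :: Rest)) Pm)
    (hh : Ty G x y (Pm :: Ph :: (Mid ++ Pi :: Rest)) Ph)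
    (hlast : Mid.getLast? = some Pl)
    (hPl : Ty G y x (Pm :: Ph :: (Mid ++ Pi :: Rest)) Pl)
    (hi : Ty G x y (Pm :: Ph :: (Mid ++ Pi :: Rest)) Pi)
    (hv : v ∈ Pi) (hw : w ∈ Pm) (hle : LeAll G x Pi v) (hge : GeAll G y Pm w)
    (hq : Lnk G (OV x y (Pm :: Ph :: (Mid ++ Pi :: Rest))) v w q) : False := by
  have nm : Pm.Nodup := C.oNd (by simp)
  have ni : Pi.Nodup := C.oNd (by simp)
  obtain ⟨l, hl⟩ : ∃ l, Pi.head? = some l := by
    rcases Pi with _ | ⟨c, Pi⟩
    · simp at hv
    · exact ⟨c, rfl⟩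
  obtain ⟨r, hr⟩ : ∃ r, Pm.getLast? = some r :=
    ⟨_, List.getLast?_eq_getLast_of_ne_nil (by intro h; rw [h] at hw; simp at hw)⟩
  have hyr : G.Adj y r := transR S C hm hh hr
  obtain ⟨Mid', hMid⟩ := last_split (P := Mid) hlast
  have hxl : G.Adj x l := by
    have h : Cfg G L x y ((Pl :: Pi :: Rest) ++ (Pm :: Ph :: Mid')) := by
      have h := C
      rw [hMid] at h
      have h' : Cfg G L x y ((Pm :: Ph :: Mid') ++ (Pl :: Pi :: Rest)) := by simpa using h
      exact h'.oRot
    have hO : ∀ g g', OV g g' ((Pl :: Pi :: Rest) ++ (Pm :: Ph :: Mid')) =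
        OV g g' (Pm :: Ph :: (Mid ++ Pi :: Rest)) := by
      intro g g'
      rw [OV_rot, hMid]
      simp
    exact transL S (P := Pl) (P' := Pi) (Ms := Rest ++ (Pm :: Ph :: Mid')) h
      (hPl.ocg (hO _ _)) (hi.ocg (hO _ _)) hl
  have hvl : v = l := by
    rcases hle l (List.mem_of_head? hl) hxl with h | h
    · exact h
    · exact absurd h (no_before_head ni hl)
  have hwr : w = r := by
    rcases hge r (List.mem_of_getLast? hr) hyr with h | h
    · exact h
    · exact absurd h (no_after_last nm hr)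
  subst hvl
  subst hwr
  obtain ⟨b, hyb, hbw⟩ := hge.after hm.two nm
  obtain ⟨D, E, F, e1⟩ := hbw.split
  obtain ⟨A, a0, A', a, B, e2, -, hxa⟩ := hh.two
  obtain ⟨l', hl'⟩ : ∃ l', (A ++ a0 :: A').head? = some l' := by
    rcases A with _ | ⟨c, A⟩
    · exact ⟨a0, rfl⟩
    · exact ⟨c, rfl⟩
  have hrE : (E ++ w :: F).getLast? = some w := by
    rw [e1, List.getLast?_append_of_ne_nil _ (by simp),
      List.getLast?_cons_of_ne_nil (by simp)] at hr
    exact hr
  have C1 : Cfg G L w l' ((x :: a :: B) :: ((Mid ++ Pi :: Rest) ++ [D ++ b :: [y]])) := by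
    have h := C
    rw [e1, show Ph = (A ++ a0 :: A') ++ a :: B by rw [e2]; simp] at h
    exact off S h hrE hl' hyb hxa
  have hl'P : l' ∈ Ph := by
    rw [e2]
    have := List.mem_of_head? hl'
    simp only [List.mem_append, List.mem_cons] at this ⊢
    tauto
  have hcon : Con G (OV w l' ((x :: a :: B) :: ((Mid ++ Pi :: Rest) ++ [D ++ b :: [y]]))) w v := by
    apply Lnk.con (q := q.reverse)
    refine ⟨hq.symm.ch, hq.symm.nd, ?_⟩
    intro z hz
    obtain ⟨h1, h2, h3⟩ := hq.mem z (List.mem_reverse.1 hz)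
    refine ⟨?_, ?_, ?_⟩
    · intro h
      rw [e1, e2] at h1
      simp only [List.flatten_cons, List.flatten_append, List.flatten_nil, List.mem_append,
          List.mem_cons, List.not_mem_nil, or_false] at h h1
      tauto
    · intro h
      rw [h] at h1
      exact h1 (by simp [hw])
    · intro h
      rw [h] at h1
      exact h1 (by simp [hl'P])
  rcases (S.F _ _ _ C1).typ Pi (by simp) with h | h
  · obtain ⟨A5, u1, M5, u2, D5, e5, -, hu2⟩ := h.two
    have hu2P : u2 ∈ Pi := by rw [e5]; simp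
    have hne : v ≠ u2 := by
      intro h'
      have : Bf Pi u1 u2 := by rw [e5]; exact Bf.intro
      rw [← h'] at this
      exact no_before_head ni hl this
    have hlu : Bf Pi v u2 := by
      rcases Bf.total hv hu2P hne with h' | h'
      · exact h'
      · exact absurd h' (no_before_head ni hl)
    have h3 : Cfg G L x y (Pm :: ((Ph :: Mid) ++ Pi :: Rest)) := by simpa using C
    exact oPp' S h3.oRot2 hlu hbw hxl hyb (Lnk.edge hu2.symm)
  · exact h.no v hv (by rw [OV_osw]; exact hcon)

end Pool.Agent.LW
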