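import Pool.Agent.LW.OH

set_option autoImplicit false

/-!
# Odd case, part I: case 1 and the theorem on connections
-/

namespace Pool.Agent.LW

open SimpleGraph Classical

universe w

variable {V : Type w} {G : SimpleGraph V} {L : Finset (Sym2 V)}

/-- case 1b of (8) -/
theorem case1b (S : Od G L) {x y v w : V} {Pm P0 Pi q : List V} {Mid Rest : List (List V)}
    (C : Cfg G L x y (Pm :: (Mid ++ P0 :: Pi :: Rest)))
    (hm : Ty G y x (Pm :: (Mid ++ P0 :: Pi :: Rest)) Pm)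
    (h0 : Ty G x y (Pm :: (Mid ++ P0 :: Pi :: Rest)) P0)
    (hi : Ty G x y (Pm :: (Mid ++ P0 :: Pi :: Rest)) Pi)
    (hR : ∀ Q, Rest.head? = some Q → Ty G y x (Pm :: (Mid ++ P0 :: Pi :: Rest)) Q)
    (hv : v ∈ Pi) (hw : w ∈ Pm) (hle : LeAll G x Pi v) (hge : GeAll G y Pm w)
    (hq : Lnk G (OV x y (Pm :: (Mid ++ P0 :: Pi :: Rest))) v w q) : False := by
  have hF := S.F _ _ _ C
  have nm : Pm.Nodup := C.oNd (by simp)
  have ni : Pi.Nodup := C.oNd (by simp)
  obtain ⟨b, hyb, hbw⟩ := hge.after hm.two nm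
  obtain ⟨a, hxa, hva⟩ := hle.before hi.two ni
  obtain ⟨T1, Py, Xs', e1, hPy, hXs'⟩ := exists_last_bad
    (p := Ty G x y (Pm :: (Mid ++ P0 :: Pi :: Rest))) (l := Pm :: (Mid ++ [P0]))
    ⟨Pm, by simp, fun h => h.disj hm⟩
  have hPym : Py ∈ Pm :: (Mid ++ [P0]) := by rw [e1]; simp
  have hPy' : Ty G y x (Pm :: (Mid ++ P0 :: Pi :: Rest)) Py := Ty.of_not hF (by
    simp only [List.mem_cons, List.mem_append, List.not_mem_nil, or_false] at hPym ⊢
    tauto) hPy
  have hP0 : P0 ∈ Xs' := by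
    rcases Xs'.eq_nil_or_concat with h | ⟨X1, Q, h⟩
    · exfalso
      rw [h] at e1
      have h2 : (Pm :: Mid) ++ [P0] = T1 ++ [Py] := by simpa using e1
      have h3 := (List.append_inj' h2 rfl).2
      have h4 : P0 = Py := by simpa using h3
      exact hPy (h4 ▸ h0)
    · rw [h] at e1 ⊢
      have h2 : (Pm :: Mid) ++ [P0] = (T1 ++ Py :: X1) ++ [Q] := by simpa using e1
      have h3 := (List.append_inj' h2 rfl).2
      have h4 : P0 = Q := by simpa using h3
      rw [h4]; simp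
  obtain ⟨r, hr⟩ : ∃ r, Pi.getLast? = some r :=
    ⟨_, List.getLast?_eq_getLast_of_ne_nil (by intro h; rw [h] at hv; simp at hv)⟩
  have e2 : Pm :: (Mid ++ P0 :: Pi :: Rest) = ((T1 ++ [Py]) ++ (Xs' ++ [Pi])) ++ Rest := by
    have : Pm :: (Mid ++ P0 :: Pi :: Rest) = (Pm :: (Mid ++ [P0])) ++ Pi :: Rest := by simp
    rw [this, e1]
    simp
  have hTwo : Two G r P0 := by
    have h : Cfg G L x y ((Rest ++ (T1 ++ [Py])) ++ (Xs' ++ [Pi])) := by
      have h := C
      rw [e2] at h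
      have := h.oRot
      simpa using this
    have hO : ∀ g g', OV g g' ((Rest ++ (T1 ++ [Py])) ++ (Xs' ++ [Pi])) =
        OV g g' (Pm :: (Mid ++ P0 :: Pi :: Rest)) := by
      intro g g'
      have e : (Rest ++ (T1 ++ [Py])) ++ (Xs' ++ [Pi]) =
        Rest ++ ((T1 ++ [Py]) ++ (Xs' ++ [Pi])) := List.append_assoc _ _ _
      rw [e, OV_rot, ← e2]
    refine norm' S h (hi.ocg (hO _ _)) (fun P hP => (hXs' P hP).ocg (hO _ _)) (by simp)
      ?_ ?_ hr P0 hP0
    · intro Q hQ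
      refine Ty.ocg ?_ (hO _ _)
      rcases Rest with _ | ⟨R0, R⟩
      · have : Q = Pm := by
          have h2 : (Pm :: (Mid ++ [P0])).head? = (T1 ++ [Py]).head? := by
            rw [e1]
            cases T1 <;> simp
          have h3 : (T1 ++ [Py]).head? = some Q := by simpa using hQ
          rw [← h2] at h3
          simpa using h3.symm
        rw [this]; exact hm
      · exact hR Q (by simpa using hQ)
    · intro Q hQ
      refine Ty.ocg ?_ (hO _ _)
      have : Py = Q := by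
        rw [← List.append_assoc] at hQ
        simpa using hQ
      rw [← this]; exact hPy'
  obtain ⟨D, E, F, e3⟩ := hbw.split
  obtain ⟨P', hP'⟩ := last_split hr
  have hvP' : v ∈ P' := by
    have hv' := hv
    rw [hP'] at hv'
    rcases List.mem_append.1 hv' with h | h
    · exact h
    · have : v = r := by simpa using h
      rw [this] at hva
      exact absurd hva (no_after_last ni hr)
  obtain ⟨A, B, e4⟩ := List.append_of_mem hvP'
  have e5 : Pm :: (Mid ++ P0 :: Pi :: Rest) = (D ++ b :: (E ++ w :: F)) :: (Mid ++ P0 ::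
      ([] ++ (A ++ v :: (B ++ [r])) :: Rest)) := by
    rw [e3, hP', e4]; simp
  have C5 := C
  rw [e5] at C5
  exact alpha S C5 hyb h0.two hTwo (hq.ocg (by rw [e5]))

/-- case 1a of (8) -/
theorem case1a (S : Od G L) {x y v w : V} {Pm P0 Pi Pi1 q : List V} {Mid Rest : List (List V)}
    (C : Cfg G L x y (Pm :: (Mid ++ P0 :: Pi :: Pi1 :: Rest)))
    (hm : Ty G y x (Pm :: (Mid ++ P0 :: Pi :: Pi1 :: Rest)) Pm)
    (h0 : Ty G x y (Pm :: (Mid ++ P0 :: Pi :: Pi1 :: Rest)) P0)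
    (hi : Ty G x y (Pm :: (Mid ++ P0 :: Pi :: Pi1 :: Rest)) Pi)
    (hi1 : Ty G x y (Pm :: (Mid ++ P0 :: Pi :: Pi1 :: Rest)) Pi1)
    (hv : v ∈ Pi) (hw : w ∈ Pm) (hle : LeAll G x Pi v) (hge : GeAll G y Pm w)
    (hq : Lnk G (OV x y (Pm :: (Mid ++ P0 :: Pi :: Pi1 :: Rest))) v w q) : False := by
  generalize hN : Pm :: (Mid ++ P0 :: Pi :: Pi1 :: Rest) = N at *
  have hF := S.F _ _ _ C
  have nm : Pm.Nodup := C.oNd (by rw [← hN]; simp)
  have ni : Pi.Nodup := C.oNd (by rw [← hN]; simp)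
  have n1 : Pi1.Nodup := C.oNd (by rw [← hN]; simp)
  obtain ⟨b, hyb, hbw⟩ := hge.after hm.two nm
  obtain ⟨a, hxa, hva⟩ := hle.before hi.two ni
  obtain ⟨T1, Py, Xs', e1, hPy, hXs'⟩ := exists_last_bad
    (p := Ty G x y N) (l := Pm :: (Mid ++ [P0]))
    ⟨Pm, by simp, fun h => h.disj hm⟩
  have hPym : Py ∈ Pm :: (Mid ++ [P0]) := by rw [e1]; simp
  have hPy' : Ty G y x N Py := Ty.of_not hF (by
    rw [← hN]
    simp only [List.mem_cons, List.mem_append, List.not_mem_nil, or_false] at hPym ⊢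
    tauto) hPy
  have hP0 : P0 ∈ Xs' := by
    rcases Xs'.eq_nil_or_concat with h | ⟨X1, Q, h⟩
    · exfalso
      rw [h] at e1
      have h2 : (Pm :: Mid) ++ [P0] = T1 ++ [Py] := by simpa using e1
      have h3 := (List.append_inj' h2 rfl).2
      have h4 : P0 = Py := by simpa using h3
      exact hPy (h4 ▸ h0)
    · rw [h] at e1 ⊢
      have h2 : (Pm :: Mid) ++ [P0] = (T1 ++ Py :: X1) ++ [Q] := by simpa using e1
      have h3 := (List.append_inj' h2 rfl).2
      have h4 : P0 = Q := by simpa using h3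
      rw [h4]; simp
  obtain ⟨Xs2, R, e2, hXs2, hR⟩ := split_block (Ty G x y N) Rest
  obtain ⟨Pp, Xs'', e3⟩ := List.exists_cons_of_ne_nil (show Xs' ≠ [] by
    intro h; rw [h] at hP0; simp at hP0)
  have hXp : ∀ P ∈ Pp :: Xs'', Ty G x y N P := by
    intro P hP
    rw [← e3] at hP
    exact hXs' P hP
  have e5 : N = (T1 ++ [Py]) ++ (Pp :: (Xs'' ++ Pi :: Pi1 :: Xs2) ++ R) := by
    have : N = (Pm :: (Mid ++ [P0])) ++ Pi :: Pi1 :: Rest := by rw [← hN]; simp
    rw [this, e1, e2, e3]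
    simp
  obtain ⟨lp, hlp⟩ : ∃ lp, Pp.head? = some lp := by
    have h2 := C.two Pp (by rw [e5]; simp)
    rcases Pp with _ | ⟨c, Pp⟩
    · simp at h2
    · exact ⟨c, rfl⟩
  have hTwo : Two G lp Pi1 := by
    have h : Cfg G L x y (Pp :: ((Xs'' ++ Pi :: Pi1 :: Xs2) ++ (R ++ (T1 ++ [Py])))) := by
      have h := C
      rw [e5] at h
      have := h.oRot
      simpa using this
    have hO : ∀ g g', OV g g' (Pp :: ((Xs'' ++ Pi :: Pi1 :: Xs2) ++ (R ++ (T1 ++ [Py])))) =
        OV g g' N := by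
      intro g g'
      rw [e5, OV_rot]
      simp
    refine norm S h ((hXp Pp (by simp)).ocg (hO _ _)) ?_ (by simp) ?_ ?_ hlp Pi1 (by simp)
    · intro P hP
      refine Ty.ocg ?_ (hO _ _)
      simp only [List.mem_append, List.mem_cons] at hP
      rcases hP with hP | hP | hP | hP
      · exact hXp P (by simp [hP])
      · rw [hP]; exact hi
      · rw [hP]; exact hi1
      · exact hXs2 P hP
    · intro Q hQ
      refine Ty.ocg ?_ (hO _ _)
      rcases R with _ | ⟨R0, R⟩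
      · have : Q = Pm := by
          have h2 : (Pm :: (Mid ++ [P0])).head? = (T1 ++ [Py]).head? := by
            rw [e1]
            cases T1 <;> simp
          have h3 : (T1 ++ [Py]).head? = some Q := by simpa using hQ
          rw [← h2] at h3
          simpa using h3.symm
        rw [this]; exact hm
      · have : R0 = Q := by simpa using hQ
        rw [← this]
        exact Ty.of_not hF (by rw [e5]; simp) (hR R0 (by simp))
    · intro Q hQ
      refine Ty.ocg ?_ (hO _ _)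
      have : Py = Q := by
        rw [← List.append_assoc] at hQ
        simpa using hQ
      rw [← this]; exact hPy'
  obtain ⟨R', u1, M, u, U, e6, -, hu⟩ := hTwo
  obtain ⟨l, hl⟩ : ∃ l, (R' ++ u1 :: M).head? = some l := by
    rcases R' with _ | ⟨c, R'⟩
    · exact ⟨u1, rfl⟩
    · exact ⟨c, rfl⟩
  have hl1 : Pi1.head? = some l := by
    rw [e6, ← hl]; simp [List.getLast?_cons]
  obtain ⟨M1, e7⟩ : ∃ M1, T1 ++ [Py] = Pm :: M1 := by
    rcases T1 with _ | ⟨t, T1⟩
    · have h := e1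
      simp only [List.nil_append, List.cons.injEq] at h
      exact ⟨[], by rw [h.1]; rfl⟩
    · have h := e1
      simp only [List.cons_append, List.cons.injEq] at h
      exact ⟨T1 ++ [Py], by rw [h.1]; rfl⟩
  have e8 : N = Pm :: (M1 ++ Pp :: (Xs'' ++ Pi :: Pi1 :: Rest)) := by
    rw [e5, e7, e2]
    simp
  obtain ⟨D, E, F, e9⟩ := hbw.split
  obtain ⟨A, a0, A', a', B, e10, -, hxa'⟩ := (hXp Pp (by simp)).two
  obtain ⟨c, A2, hA2⟩ : ∃ c A2, A ++ a0 :: A' = c :: A2 := by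
    rcases A with _ | ⟨c, A⟩
    · exact ⟨a0, A', rfl⟩
    · exact ⟨c, A ++ a0 :: A', rfl⟩
  have e11 : Pp = lp :: (A2 ++ a' :: B) := by
    have h : Pp = (A ++ a0 :: A') ++ a' :: B := by rw [e10]; simp
    rw [hA2] at h
    have : c = lp := by simpa [h] using hlp
    rw [h, this]; rfl
  obtain ⟨S', T, e12⟩ := List.append_of_mem hv
  have hT : T ≠ [] := by
    intro h
    rw [h] at e12
    exact no_after_last ni (show Pi.getLast? = some v by rw [e12]; simp) hva
  obtain ⟨r, hr⟩ : ∃ r, T.getLast? = some r := ⟨_, List.getLast?_eq_getLast_of_ne_nil hT⟩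
  have hr1 : Pi.getLast? = some r := by
    rw [e12, List.getLast?_append_of_ne_nil _ (by simp), List.getLast?_cons_of_ne_nil hT]
    exact hr
  have e13 : N = (D ++ b :: (E ++ w :: F)) :: (M1 ++ (lp :: (A2 ++ a' :: B)) ::
      (Xs'' ++ (S' ++ v :: T) :: ([] ++ ((R' ++ u1 :: M) ++ u :: U) :: Rest))) := by
    rw [e8, ← e9, ← e11, ← e12, show (R' ++ u1 :: M) ++ u :: U = Pi1 by rw [e6]; simp]
    simp
  have C13 := C
  rw [e13] at C13
  have CZ := zstar S C13 hyb hxa' hu hr hl (hq.ocg (by rw [e13]))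
  -- another segment of the type of `y`
  obtain ⟨Pc, hPc, hPcT⟩ : ∃ Pc, (Pc ∈ M1 ∨ Pc ∈ Rest) ∧ Ty G y x N Pc := by
    have hcnt := hF.cnt
    have h1 : 2 ≤ (N.filter (fun P => Ty G x y N P)).length := by
      have e : N = (Pm :: (M1 ++ Pp :: Xs'')) ++ (Pi :: Pi1 :: Rest) := by rw [e8]; simp
      rw [show N.filter (fun P => Ty G x y N P) =
        ((Pm :: (M1 ++ Pp :: Xs'')) ++ (Pi :: Pi1 :: Rest)).filter (fun P => Ty G x y N P) by
          rw [← e]]
      rw [List.filter_append, List.filter_cons_of_pos (l := Pi1 :: Rest) (by simpa using hi),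
        List.filter_cons_of_pos (l := Rest) (by simpa using hi1)]
      simp
      omega
    rw [hcnt] at h1
    have h2 : N.filter (fun P => Ty G y x N P) =
        Pm :: (M1 ++ Pp :: (Xs'' ++ Pi :: Pi1 :: Rest)).filter (fun P => Ty G y x N P) := by
      rw [← List.filter_cons_of_pos (l := M1 ++ Pp :: (Xs'' ++ Pi :: Pi1 :: Rest))
        (by simpa using hm), ← e8]
    rw [h2] at h1
    have h3 : (M1 ++ Pp :: (Xs'' ++ Pi :: Pi1 :: Rest)).filter (fun P => Ty G y x N P) ≠ [] := by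
      intro h
      rw [h] at h1
      simp at h1
    obtain ⟨Pc, hPc⟩ := List.exists_mem_of_ne_nil _ h3
    rw [List.mem_filter] at hPc
    obtain ⟨h4, h5⟩ := hPc
    have h5' : Ty G y x N Pc := by simpa using h5
    refine ⟨Pc, ?_, h5'⟩
    simp only [List.mem_append, List.mem_cons] at h4
    rcases h4 with h | h | h | h | h | h
    · exact Or.inl h
    · exact absurd h5' (fun h' => (hXp Pc (by simp [h])).disj h')
    · exact absurd h5' (fun h' => (hXp Pc (by simp [h])).disj h')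
    · exact absurd h5' (fun h' => (h ▸ hi).disj h')
    · exact absurd h5' (fun h' => (h ▸ hi1).disj h')
    · exact Or.inr h
  -- the configuration starting with `Pc`
  have e14 : N = (Pm :: (M1 ++ Pp :: Xs'')) ++ (Pi :: Pi1 :: Rest) := by rw [e8]; simp
  have hPcW : Pc ∈ Rest ++ (Pm :: (M1 ++ Pp :: Xs'')) := by
    simp only [List.mem_append, List.mem_cons]
    tauto
  obtain ⟨Wa, Wb, eW⟩ := List.append_of_mem hPcW
  have C15 : Cfg G L x y (Pc :: (Wb ++ Pi :: Pi1 :: Wa)) := by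
    have h := C
    rw [e14] at h
    have h1 := h.oRot
    have h2 : Cfg G L x y ((Pi :: Pi1 :: Wa) ++ (Pc :: Wb)) := by
      have e : (Pi :: Pi1 :: Rest) ++ (Pm :: (M1 ++ Pp :: Xs'')) =
        Pi :: Pi1 :: (Rest ++ (Pm :: (M1 ++ Pp :: Xs''))) := by simp
      rw [e, eW] at h1
      simpa using h1
    have h3 := h2.oRot
    simpa using h3
  have hO : ∀ g g', OV g g' (Pc :: (Wb ++ Pi :: Pi1 :: Wa)) = OV g g' N := by
    intro g g'
    have e : Pc :: (Wb ++ Pi :: Pi1 :: Wa) = (Pc :: Wb) ++ (Pi :: Pi1 :: Wa) := by simp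
    rw [e, OV_rot, e14, OV_rot (A := Pi :: Pi1 :: Rest)]
    have e' : (Pi :: Pi1 :: Rest) ++ (Pm :: (M1 ++ Pp :: Xs'')) =
        Pi :: Pi1 :: (Rest ++ (Pm :: (M1 ++ Pp :: Xs''))) := by simp
    rw [e', eW]
    simp
  have hcZ : Pc ∈ ((lp :: u :: U) :: (Rest ++ (D ++ b :: [y]) :: ([] ++ (x :: a' :: B) ::
      (Xs'' ++ (S' ++ v :: (q ++ w :: F)) :: M1)))) := by
    simp only [List.mem_append, List.mem_cons]
    tauto
  rcases (S.F _ _ _ CZ).typ Pc hcZ with h | h
  · obtain ⟨B1, z, B2, z', B3, e, hz, -⟩ := h.two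
    exact sevenB S C15 (hPcT.ocg (hO _ _)) (hi.ocg (hO _ _)) (hi1.ocg (hO _ _)) hr1
      (show z ∈ Pc by rw [e]; simp) (Lnk.edge hz)
  · obtain ⟨B1, z, B2, z', B3, e, hz, -⟩ := h.two
    exact sevenA S C15 (hPcT.ocg (hO _ _)) (hi.ocg (hO _ _)) (hi1.ocg (hO _ _)) hl1
      (show z ∈ Pc by rw [e]; simp) (Lnk.edge hz)

/-- case 1 of (8) -/
theorem case1 (S : Od G L) {x y v w : V} {Pm P0 Pi q : List V} {Mid Rest : List (List V)}
    (C : Cfg G L x y (Pm :: (Mid ++ P0 :: Pi :: Rest)))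
    (hm : Ty G y x (Pm :: (Mid ++ P0 :: Pi :: Rest)) Pm)
    (h0 : Ty G x y (Pm :: (Mid ++ P0 :: Pi :: Rest)) P0)
    (hi : Ty G x y (Pm :: (Mid ++ P0 :: Pi :: Rest)) Pi)
    (hv : v ∈ Pi) (hw : w ∈ Pm) (hle : LeAll G x Pi v) (hge : GeAll G y Pm w)
    (hq : Lnk G (OV x y (Pm :: (Mid ++ P0 :: Pi :: Rest))) v w q) : False := by
  rcases Rest with _ | ⟨Pi1, Rest⟩
  · exact case1b S C hm h0 hi (by simp) hv hw hle hge hq
  · by_cases h : Ty G x y (Pm :: (Mid ++ P0 :: Pi :: Pi1 :: Rest)) Pi1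
    · exact case1a S C hm h0 hi h hv hw hle hge hq
    · refine case1b S C hm h0 hi ?_ hv hw hle hge hq
      intro Q hQ
      have : Pi1 = Q := by simpa using hQ
      rw [← this]
      exact Ty.of_not (S.F _ _ _ C) (by simp) h

/-- (8) for connections of type I -/
theorem eightI (S : Od G L) {x y v w : V} {Pm Pi q : List V} {Mid Rest : List (List V)}
    (C : Cfg G L x y (Pm :: (Mid ++ Pi :: Rest)))
    (hm : Ty G y x (Pm :: (Mid ++ Pi :: Rest)) Pm)
    (hi : Ty G x y (Pm :: (Mid ++ Pi :: Rest)) Pi)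
    (hv : v ∈ Pi) (hw : w ∈ Pm) (hle : LeAll G x Pi v) (hge : GeAll G y Pm w)
    (hq : Lnk G (OV x y (Pm :: (Mid ++ Pi :: Rest))) v w q) (hqL : q = [] → s(v, w) ∉ L) :
    False := by
  have hF := S.F _ _ _ C
  rcases Mid with _ | ⟨Ph, Mid⟩
  · exact case0 S C hm hi hv hw hle hge hq hqL
  by_cases hh : Ty G x y (Pm :: ((Ph :: Mid) ++ Pi :: Rest)) Ph
  · -- the first segment in between has the type of `x`
    obtain ⟨Pl, hPl⟩ : ∃ Pl, (Ph :: Mid).getLast? = some Pl :=
      ⟨_, List.getLast?_eq_getLast_of_ne_nil (by simp)⟩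
    obtain ⟨M', hM'⟩ := last_split (P := Ph :: Mid) hPl
    by_cases hl : Ty G x y (Pm :: ((Ph :: Mid) ++ Pi :: Rest)) Pl
    · rw [hM'] at C hm hl hi hq
      have e : Pm :: ((M' ++ [Pl]) ++ Pi :: Rest) = Pm :: (M' ++ Pl :: Pi :: Rest) := by simp
      rw [e] at C hm hl hi hq
      exact case1 S C hm hl hi hv hw hle hge hq
    · have hl' : Ty G y x (Pm :: ((Ph :: Mid) ++ Pi :: Rest)) Pl := Ty.of_not hF (by
        rw [hM']; simp) hl
      rcases Mid with _ | ⟨P2, Mid⟩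
      · have : Ph = Pl := by simpa using hPl
        exact absurd (this ▸ hh) hl
      · exact case2 S (Mid := P2 :: Mid) C hm hh (by simpa using hPl) hl' hi hv hw hle hge hq
  · -- reversal and exchange
    have hh' : Ty G y x (Pm :: ((Ph :: Mid) ++ Pi :: Rest)) Ph := Ty.of_not hF (by simp) hh
    have e : rv (Pm :: ((Ph :: Mid) ++ Pi :: Rest)) =
        (rv Rest) ++ (Pi.reverse :: (rv Mid ++ Ph.reverse :: [Pm.reverse])) := by simp
    have C2 : Cfg G L y x (Pi.reverse :: (rv Mid ++ Ph.reverse :: Pm.reverse :: rv Rest)) := by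
      have h := C.oRev.oSwap
      rw [e] at h
      have h1 := h.oRot
      simpa using h1
    have hO : ∀ g g', OV g g' (Pi.reverse :: (rv Mid ++ Ph.reverse :: Pm.reverse :: rv Rest)) =
        OV g g' (Pm :: ((Ph :: Mid) ++ Pi :: Rest)) := by
      intro g g'
      rw [← OV_rev (Ps := Pm :: ((Ph :: Mid) ++ Pi :: Rest)), e, OV_rot]
      simp
    have hty : ∀ (g g' : V) (P : List V), Ty G g g' (Pm :: ((Ph :: Mid) ++ Pi :: Rest)) P →
        Ty G g g' (Pi.reverse :: (rv Mid ++ Ph.reverse :: Pm.reverse :: rv Rest)) P.reverse := by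
      intro g g' P h
      refine h.orev.ocg ?_
      rw [hO, OV_rev]
    refine case1 S C2 (hty _ _ _ hi) (hty _ _ _ hh') (hty _ _ _ hm) (v := w) (w := v)
      (by simpa using hw) (by simpa using hv) hge.reverse hle.reverse
      (hq.symm.ocg ?_)
    rw [OV_osw, hO]

/-- (8) -/
theorem eight (S : Od G L) {x y v w : V} {Pm Pi q : List V} {Mid Rest : List (List V)}
    (C : Cfg G L x y (Pm :: (Mid ++ Pi :: Rest)))
    (hm : Ty G y x (Pm :: (Mid ++ Pi :: Rest)) Pm)
    (hi : Ty G x y (Pm :: (Mid ++ Pi :: Rest)) Pi)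
    (hv : v ∈ Pi) (hw : w ∈ Pm)
    (hq : Lnk G (OV x y (Pm :: (Mid ++ Pi :: Rest))) v w q) (hqL : q = [] → s(v, w) ∉ L) :
    False := by
  have hO := OV_rot2 (x := x) (y := y) (P := Pm) (Q := Pi) (Ms := Mid) (Ns := Rest)
  rcases oTypes S C.oRot2 hi.two hm.two hv hw (hq.ocg hO) with h | h
  · exact eightI S C hm hi hv hw h.1 h.2 hq hqL
  · have hO' : ∀ g g', OV g g' (Pi :: (Rest ++ Pm :: Mid)) =
        OV g g' (Pm :: (Mid ++ Pi :: Rest)) := fun g g' => OV_rot2
    refine eightI S C.oRot2.oSwap (hi.ocg (hO' _ _)) (hm.ocg (hO' _ _)) (v := w) (w := v)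
      hw hv h.2 h.1 (hq.symm.ocg ?_) ?_
    · rw [OV_osw, hO]
    · intro h1
      rw [Sym2.eq_swap]
      exact hqL (by simpa using h1)

end Pool.Agent.LW
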