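import Pool.Agent.LW.OI

set_option autoImplicit false

/-!
# Odd case, part J: the edges of `L` form a cut
-/

namespace Pool.Agent.LW

open SimpleGraph Classical

universe w

variable {V : Type w} {G : SimpleGraph V} {L : Finset (Sym2 V)}

theorem Att.step {O : Set V} {u a b : V} (h : a ∈ Att G O u) (hab : G.Adj a b) (hb : b ∈ O) :
    b ∈ Att G O u := by
  obtain ⟨c, h1, F, h2, h3⟩ := h
  refine ⟨c, h1, F ++ [b], h2.concat hab, ?_⟩
  intro v hv
  rcases List.mem_append.1 hv with hv | hv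
  · exact h3 v hv
  · rw [List.mem_singleton.1 hv]; exact hb

theorem Att.one {O : Set V} {u b : V} (hab : G.Adj u b) (hb : b ∈ O) : b ∈ Att G O u :=
  ⟨b, hab, [b], Ch.single b, by simpa using hb⟩

/-- a link through `O` -/
theorem Att.lnk {O : Set V} {u a b : V} (h : a ∈ Att G O u) (hab : G.Adj a b) :
    ∃ q, q ≠ [] ∧ Lnk G O u b q := by
  obtain ⟨c, h1, h2⟩ := h
  obtain ⟨F, g1, g2, g3⟩ := Rch.oNodup h2
  have h4 : Ch G u b (u :: (F ++ [b])) := by
    have := (Ch.cons h1 g1).concat hab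
    simpa using this
  exact ⟨F, g1.ne, h4.ch, g2, g3⟩

/-- (8) for two segments of the list -/
theorem eight' (S : Od G L) {x y v w : V} {Ps : List (List V)} {P Q q : List V}
    (C : Cfg G L x y Ps) (hP : P ∈ Ps) (hQ : Q ∈ Ps) (hPT : Ty G x y Ps P) (hQT : Ty G y x Ps Q)
    (hv : v ∈ P) (hw : w ∈ Q) (hq : Lnk G (OV x y Ps) v w q) (hqL : q = [] → s(v, w) ∉ L) :
    False := by
  obtain ⟨A, D, e⟩ := List.append_of_mem hQ
  have h1 : Cfg G L x y ((Q :: D) ++ A) := by
    rw [e] at C; exact C.oRot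
  have hO1 : ∀ g g', OV g g' (Q :: (D ++ A)) = OV g g' Ps := by
    intro g g'
    rw [show Q :: (D ++ A) = (Q :: D) ++ A from rfl, OV_rot, e]
  have hPm : P ∈ D ++ A := by
    rw [e] at hP
    simp only [List.mem_append, List.mem_cons] at hP ⊢
    rcases hP with h | h | h
    · exact Or.inr h
    · exact absurd hQT (fun h' => (h ▸ hPT).disj h')
    · exact Or.inl h
  obtain ⟨Mid, Rest, e2⟩ := List.append_of_mem hPm
  have C2 : Cfg G L x y (Q :: (Mid ++ P :: Rest)) := by
    rw [← e2]; exact h1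
  have hO2 : ∀ g g', OV g g' (Q :: (Mid ++ P :: Rest)) = OV g g' Ps := by
    intro g g'
    rw [← e2]; exact hO1 g g'
  exact eight S C2 (hQT.ocg (hO2 _ _)) (hPT.ocg (hO2 _ _)) hv hw (hq.ocg (hO2 _ _)) hqL

/-- the edges of `L` form a cut -/
theorem disconnected (S : Od G L) {x y : V} {Ps : List (List V)} (C : Cfg G L x y Ps) :
    ¬ (G.deleteEdges (↑L : Set (Sym2 V))).Connected := by
  intro hconn
  have hF := S.F _ _ _ C
  -- the side of `x`
  let U : Set V := {u | u = x ∨ ∃ P ∈ Ps, Ty G x y Ps P ∧ u ∈ P}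
  let W : Set V := {v | v ∈ U ∨ (v ∈ OV x y Ps ∧ ∃ u ∈ U, v ∈ Att G (OV x y Ps) u)}
  have hcl : ∀ a ∈ W, ∀ b, G.Adj a b → s(a, b) ∉ L → b ∈ W := by
    intro a ha b hab habL
    -- a source
    obtain ⟨u, hu, hua⟩ : ∃ u ∈ U, a = u ∨ a ∈ Att G (OV x y Ps) u := by
      rcases ha with h | ⟨-, u, hu, h⟩
      · exact ⟨a, h, Or.inl rfl⟩
      · exact ⟨u, hu, Or.inr h⟩
    by_cases hbO : b ∈ OV x y Ps
    · right
      refine ⟨hbO, u, hu, ?_⟩
      rcases hua with h | h
      · rw [h] at hab; exact Att.one hab hbO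
      · exact Att.step h hab hbO
    left
    have hcases : b = x ∨ b = y ∨ b ∈ Ps.flatten := by
      by_contra hcon
      push Not at hcon
      exact hbO ⟨hcon.2.2, hcon.1, hcon.2.1⟩
    rcases hcases with h | h | h
    · exact Or.inl h
    · exfalso
      subst h
      have hcon : Con G (OV x b Ps) u b := by
        rcases hua with h | h
        · rw [h] at hab; exact Or.inl hab
        · exact Or.inr ⟨a, h, hab⟩
      rcases hu with hu | ⟨P, hP, hPT, hu⟩
      · subst hu
        rcases hua with h | h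
        · rw [h] at habL; exact habL C.xy
        · exact hF.sep a h (Att.one hab.symm (by
            obtain ⟨c, -, F, h2, h3⟩ := h
            exact h3 a h2.memR))
      · exact hPT.no u hu hcon.oSymm
    · rw [List.mem_flatten] at h
      obtain ⟨Q, hQ, hbQ⟩ := h
      rcases hF.typ Q hQ with hQT | hQT
      · exact Or.inr ⟨Q, hQ, hQT, hbQ⟩
      · exfalso
        rcases hu with hu | ⟨P, hP, hPT, hu⟩
        · have hcon : Con G (OV x y Ps) u b := by
            rcases hua with h | h
            · rw [h] at hab; exact Or.inl hab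
            · exact Or.inr ⟨a, h, hab⟩
          rw [hu, ← OV_osw] at hcon
          exact hQT.no b hbQ hcon
        · rcases hua with h | h
          · rw [h] at hab habL
            exact eight' S C hP hQ hPT hQT hu hbQ (Lnk.edge hab) (fun _ => habL)
          · obtain ⟨q, hq1, hq2⟩ := Att.lnk h hab
            exact eight' S C hP hQ hPT hQT hu hbQ hq2 (fun h' => absurd h' hq1)
  have hyW : y ∉ W := by
    have hxy : x ≠ y := (C.oAdj S.sub).ne
    rintro (h | ⟨h, -⟩)
    · rcases h with h | ⟨P, hP, -, h⟩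
      · exact hxy h.symm
      · exact C.hy (List.mem_flatten.2 ⟨P, hP, h⟩)
    · exact h.2.2 rfl
  have hxW : x ∈ W := Or.inl (Or.inl rfl)
  obtain ⟨p⟩ := hconn.preconnected x y
  obtain ⟨d, -, hd1, hd2⟩ := p.exists_boundary_dart W hxW hyW
  have hadj := d.adj
  rw [SimpleGraph.deleteEdges_adj] at hadj
  exact hd2 (hcl _ hd1 _ hadj.1 (by simpa using hadj.2))

end Pool.Agent.LW
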