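import Pool.Agent.LW.HX
import Pool.Agent.LW.HB1
import Pool.Agent.LW.HopC

set_option autoImplicit false

/-!
# Part 2: definitions
-/

namespace Pool.Agent.LW

open SimpleGraph Classical

universe w

variable {V : Type w} {G H : SimpleGraph V} {L : Finset (Sym2 V)}

/-- a cycle of `G`, as a list from `a` to `b` closed by the edge `ba` -/
structure Cl (G : SimpleGraph V) (a b : V) (C : List V) : Prop where
  ch : Ch G a b C
  nd : C.Nodup
  cl : G.Adj b a
  len : 3 ≤ C.length

/-- `c` and `d` are consecutive on the closed list `C` from `a` to `b` -/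
def EC (a b : V) (C : List V) (c d : V) : Prop := EL C c d ∨ s(c, d) = s(a, b)

/-- the path `x | Qs | y` as a list -/
def RL (x y : V) (Qs : List (List V)) : List V := x :: (Qs.flatten ++ [y])

/-- a path cut into segments, beginning and ending with an edge of `L` -/
structure RP (G : SimpleGraph V) (L : Finset (Sym2 V)) (x y : V) (Qs : List (List V)) : Prop where
  nd : (RL x y Qs).Nodup
  two : ∀ Q ∈ Qs, 2 ≤ Q.length
  lk : Lk G L x Qs y

/-- a cycle with segments `Ps` and a disjoint path `x | Qs | y`, together through all edges of `L` -/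
structure LC (G : SimpleGraph V) (L : Finset (Sym2 V)) (x y : V) (Ps Qs : List (List V)) :
    Prop where
  nd : (Ps.flatten ++ RL x y Qs).Nodup
  ch : ∀ P ∈ Ps, P.IsChain G.Adj
  twoP : ∀ P ∈ Ps, 2 ≤ P.length
  jn : CycR (JL L) Ps
  twoQ : ∀ Q ∈ Qs, 2 ≤ Q.length
  lk : Lk G L x Qs y
  card : Ps.length + (Qs.length + 1) = L.card
  len : 3 ≤ Ps.flatten.length

/-- the vertices off the cycle and the path -/
def OL (Ps : List (List V)) (x y : V) (Qs : List (List V)) : Set V :=
  {v | v ∉ Ps.flatten ∧ v ∉ RL x y Qs}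

/-- the end `y` of the path is attached to the cycle -/
def Lkd (G : SimpleGraph V) (x y : V) (Ps Qs : List (List V)) : Prop :=
  ∃ u ∈ Ps.flatten, Con G (OL Ps x y Qs) y u

/-- `c` is a lower bound for the number of edges of `L` on the path of a linked configuration -/
def MinC (G : SimpleGraph V) (L : Finset (Sym2 V)) (c : ℕ) : Prop :=
  ∀ x y Ps Qs, LC G L x y Ps Qs → Lkd G x y Ps Qs → c ≤ Qs.length + 1

/-- a path `x | Qs | y` through all edges of `L`, beginning and ending with an edge of `L` -/
structure TP (G : SimpleGraph V) (L : Finset (Sym2 V)) (x y : V) (Qs : List (List V)) :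
    Prop where
  nd : (RL x y Qs).Nodup
  two : ∀ Q ∈ Qs, 2 ≤ Q.length
  lk : Lk G L x Qs y
  card : Qs.length + 1 = L.card

/-- the vertices off the path -/
def OT (x y : V) (Qs : List (List V)) : Set V := {v | v ∉ RL x y Qs}

/-- the pair `a, b` is no edge of a hull of `x` of level less than `t` -/
def NH (G : SimpleGraph V) (O : Set V) (Hs : List (List V)) (x : V) (t : ℕ) (a b : V) : Prop :=
  ∀ τ < t, ¬ HE Hs (Lg G O Hs x τ) a b ∧ ¬ HE Hs (Lg G O Hs x τ) b a

/-- `o` is attached to `x` or to the inside of a hull of `x` of level less than `t` -/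
def AH (G : SimpleGraph V) (O : Set V) (Hs : List (List V)) (x : V) (t : ℕ) (o : V) : Prop :=
  o ∈ Att G O x ∨ ∃ τ < t, ∃ l, Btw Hs Set.univ (Lg G O Hs x τ) l ∧ o ∈ Att G O l

/-- the path `F` and the extra cycle `C` are good for hopping towards `x` from level `t` -/
structure HS (G : SimpleGraph V) (O : Set V) (Hs : List (List V)) (x : V) (t : ℕ)
    (F C : List V) : Prop where
  hull : ∀ τ < t, ∀ a b, HE Hs (Lg G O Hs x τ) a b → EL F a b ∨ EL C a b
  off : ∀ v, v ∈ F ∨ v ∈ C → v ∈ O → ¬ AH G O Hs x t v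

/-- an extra cycle from `c1` to `c2`, or nothing -/
def XC (G : SimpleGraph V) (c1 c2 : V) (C : List V) : Prop :=
  C = [] ∨ (Ch G c1 c2 C ∧ G.Adj c2 c1 ∧ C.Nodup)

end Pool.Agent.LW
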