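import Pool.Agent.LW.PB1

set_option autoImplicit false

/-!
# Linked configurations from closed lists
-/

namespace Pool.Agent.LW

open SimpleGraph Classical

universe w

variable {V : Type w} {G H : SimpleGraph V} {L : Finset (Sym2 V)} {k : ℕ}


private theorem pb2_pair {a b c d : V} (h : EL [a, b] c d) : s(c, d) = s(a, b) := by
  rcases h with h | h
  · have h1 := h.eq_of_length (by simp)
    simp only [List.cons.injEq, and_true] at h1
    rw [h1.1, h1.2]
  · have h1 := h.eq_of_length (by simp)
    simp only [List.cons.injEq, and_true] at h1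
    rw [h1.1, h1.2, Sym2.eq_swap]

/-- the number of edges of `L` on a path of segments -/
theorem rp_card (hind : ∀ e ∈ L, ∀ f ∈ L, e ≠ f → ∀ v, v ∈ e → v ∉ f) {x y : V}
    {M : List (List V)} (hR : RP G L x y M) (hM : ∀ Q ∈ M, ∀ c d, s(c, d) ∈ L → ¬ EL Q c d) :
    (L.filter (fun e => ∃ c d, e = s(c, d) ∧ EL (RL x y M) c d)).card = M.length + 1 := by
  clear hind
  induction M generalizing x with
  | nil =>
    have h1 : s(x, y) ∈ L := hR.lk
    have h2 : L.filter (fun e => ∃ c d, e = s(c, d) ∧ EL (RL x y []) c d) = {s(x, y)} := by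
      ext e
      rw [Finset.mem_filter, Finset.mem_singleton]
      constructor
      · rintro ⟨-, c, d, h3, h4⟩
        rw [h3]
        exact pb2_pair h4
      · intro h3
        rw [h3]
        exact ⟨h1, x, y, rfl, Or.inl List.infix_rfl⟩
    rw [h2]
    simp
  | cons Q M ih =>
    obtain ⟨c0, d0, h1, h2, h3⟩ := hR.lk
    obtain ⟨Q1, hQ1⟩ : ∃ Q1, Q = Q1 ++ [d0] := List.getLast?_eq_some_iff.1 h2.lt
    obtain ⟨Q2, hQ2⟩ : ∃ Q2, Q = c0 :: Q2 := List.head?_eq_some_iff.1 h2.hd
    have e1 : RL x y (Q :: M) = (x :: Q1) ++ RL d0 y M := by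
      unfold RL
      rw [hQ1]
      simp
    have e2 : x :: Q = [x] ++ c0 :: Q2 := by
      rw [hQ2]
      rfl
    have hnd := hR.nd
    rw [e1] at hnd
    have hnd' := List.nodup_append'.1 hnd
    have hR' : RP G L d0 y M :=
      ⟨hnd'.2.1, fun P hP => hR.two P (List.mem_cons_of_mem _ hP), h3⟩
    have ih' := ih hR' (fun P hP => hM P (List.mem_cons_of_mem _ hP))
    have hx : x ∉ RL d0 y M := hnd'.2.2 (List.mem_cons_self)
    have h4 : L.filter (fun e => ∃ c d, e = s(c, d) ∧ EL (RL x y (Q :: M)) c d) =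
        insert s(x, c0) (L.filter (fun e => ∃ c d, e = s(c, d) ∧ EL (RL d0 y M) c d)) := by
      ext e
      rw [Finset.mem_insert, Finset.mem_filter, Finset.mem_filter]
      constructor
      · rintro ⟨heL, c, d, h5, h6⟩
        rw [e1] at h6
        have h7 : EL ((x :: Q1) ++ [d0]) c d ∨ EL (RL d0 y M) c d := EL.split h6
        rcases h7 with h7 | h7
        · have h8 : (x :: Q1) ++ [d0] = [x] ++ c0 :: Q2 := by
            rw [← e2, hQ1]
            rfl
          rw [h8] at h7
          rcases EL.split h7 with h9 | h9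
          · left
            rw [h5]
            exact pb2_pair h9
          · exfalso
            rw [← hQ2] at h9
            rw [h5] at heL
            exact hM Q (List.mem_cons_self) c d heL h9
        · exact Or.inr ⟨heL, c, d, h5, h7⟩
      · rintro (h5 | ⟨h5, c, d, h6, h7⟩)
        · rw [h5]
          refine ⟨h1, x, c0, rfl, ?_⟩
          have h6 : RL x y (Q :: M) = [] ++ x :: c0 :: (Q2 ++ (M.flatten ++ [y])) := by
            unfold RL
            rw [hQ2]
            simp
          rw [h6]
          exact EL.intro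
        · refine ⟨h5, c, d, h6, ?_⟩
          rw [e1]
          exact h7.mono (List.suffix_append _ _).isInfix
    have h5 : s(x, c0) ∉ L.filter (fun e => ∃ c d, e = s(c, d) ∧ EL (RL d0 y M) c d) := by
      rw [Finset.mem_filter]
      rintro ⟨-, c, d, h6, h7⟩
      have h8 : x ∈ s(c, d) := by
        rw [← h6]
        exact Sym2.mem_mk_left _ _
      rcases Sym2.mem_iff.1 h8 with h9 | h9
      · exact hx (h9 ▸ h7.memL)
      · exact hx (h9 ▸ h7.memR)
    rw [h4, Finset.card_insert_of_notMem h5, ih']
    simp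

/-- a closed list and a disjoint path of segments, together through all edges of `L` -/
theorem lc_of_closed (hind : ∀ e ∈ L, ∀ f ∈ L, e ≠ f → ∀ v, v ∈ e → v ∉ f) {a b : V}
    {C : List V} (hC : Cl G a b C) {x y : V} {M : List (List V)} (hR : RP G L x y M)
    (hM : ∀ Q ∈ M, ∀ c d, s(c, d) ∈ L → ¬ EL Q c d) (hd : ∀ v ∈ C, v ∉ RL x y M) {c d : V}
    (hcd : s(c, d) ∈ L) (h : EC a b C c d)
    (cov : ∀ c d, s(c, d) ∈ L → EC a b C c d ∨ EL (RL x y M) c d) :
    ∃ Ps, Ps.flatten.Perm C ∧ LC G L x y Ps M := by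
  obtain ⟨Ps, h1, h2, h3, h4, h5⟩ := cut_closed hind hC hcd h
  refine ⟨Ps, h1, ⟨?_, h2, h3, h4, hR.two, hR.lk, ?_, ?_⟩⟩
  · rw [List.nodup_append']
    refine ⟨h1.nodup_iff.2 hC.nd, hR.nd, ?_⟩
    intro v hv hv'
    exact hd v (h1.mem_iff.1 hv) hv'
  · rw [h5, ← rp_card hind hR hM, ← Finset.card_union_of_disjoint]
    · congr 1
      ext e
      rw [Finset.mem_union, Finset.mem_filter, Finset.mem_filter]
      constructor
      · rintro (h6 | h6)
        · exact h6.1
        · exact h6.1
      · intro he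
        obtain ⟨⟨p, q⟩, hpq⟩ := Sym2.mk_surjective e
        have hpq' : s(p, q) = e := hpq
        rw [← hpq'] at he ⊢
        rcases cov p q he with h6 | h6
        · exact Or.inl ⟨he, p, q, rfl, h6⟩
        · exact Or.inr ⟨he, p, q, rfl, h6⟩
    · rw [Finset.disjoint_left]
      intro e he he'
      obtain ⟨-, p, q, h6, h7⟩ := Finset.mem_filter.1 he
      obtain ⟨-, p', q', h8, h9⟩ := Finset.mem_filter.1 he'
      have hp : p ∈ C := by
        rcases h7 with h7 | h7
        · exact h7.memL
        · have h10 : p ∈ s(a, b) := by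
            rw [← h7]
            exact Sym2.mem_mk_left _ _
          rcases Sym2.mem_iff.1 h10 with h11 | h11
          · rw [h11]
            exact hC.ch.memL
          · rw [h11]
            exact hC.ch.memR
      have hp' : p ∈ s(p', q') := by
        rw [← h8, h6]
        exact Sym2.mem_mk_left _ _
      rcases Sym2.mem_iff.1 hp' with h11 | h11
      · exact hd p hp (h11 ▸ h9.memL)
      · exact hd p hp (h11 ▸ h9.memR)
  · rw [h1.length_eq]
    exact hC.len

end Pool.Agent.LW
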