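import Pool.Agent.LW.PA

set_option autoImplicit false

/-!
# Linked configurations: basic facts
-/

namespace Pool.Agent.LW

open SimpleGraph Classical

universe w

variable {V : Type w} {G H : SimpleGraph V} {L : Finset (Sym2 V)} {k : ℕ}
  {x y : V} {Ps Qs : List (List V)}

theorem mem_RL {v : V} : v ∈ RL x y Qs ↔ v = x ∨ v ∈ Qs.flatten ∨ v = y := by
  simp [RL]

theorem RL_rv : RL y x (rv Qs) = (RL x y Qs).reverse := by
  simp [RL, flatten_rv]

private theorem pb3_glue {c d y' : V} {Q T : List V} (h : Ch G c d Q)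
    (h' : Ch G d y' (d :: T)) : Ch G c y' (Q ++ T) := by
  have h1 : ∃ Q0, Q = Q0 ++ [d] := by
    have := h.lt
    rw [List.getLast?_eq_some_iff] at this
    exact this
  obtain ⟨Q0, rfl⟩ := h1
  have h2 := h.glue h'
  simpa using h2

private theorem pb3_left (hsub : ∀ e ∈ L, e ∈ G.edgeSet) {x' c v : V} {Q1 : List (List V)}
    {R : List V} (h : Lk G L x' Q1 c) (h' : Ch G c v R) :
    Ch G x' v (x' :: (Q1.flatten ++ R)) := by
  induction Q1 generalizing x' with
  | nil =>
    have h1 : s(x', c) ∈ L := h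
    have h2 := hsub _ h1
    rw [mem_edgeSet] at h2
    exact h'.cons h2
  | cons Q Q1 ih =>
    obtain ⟨c', d', h1, h2, h3⟩ := h
    have h4 := hsub _ h1
    rw [mem_edgeSet] at h4
    have h5 := (pb3_glue h2 (ih h3)).cons h4
    simpa using h5

private theorem pb3_two_rv {Ms : List (List V)} (h : ∀ Q ∈ Ms, 2 ≤ Q.length) :
    ∀ Q ∈ rv Ms, 2 ≤ Q.length := by
  intro Q hQ
  have h1 := h _ (mem_rv.1 hQ)
  simpa using h1

/-- the path as a walk -/
theorem lk_ch (hsub : ∀ e ∈ L, e ∈ G.edgeSet) (h : Lk G L x Qs y) : Ch G x y (RL x y Qs) := by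
  exact pb3_left hsub h (Ch.single y)

/-- the last part of the path -/
theorem lk_ch_right (hsub : ∀ e ∈ L, e ∈ G.edgeSet) {Q1 Q2 : List (List V)} {A D : List V} {v : V}
    (h : Lk G L x (Q1 ++ (A ++ v :: D) :: Q2) y) : Ch G v y ((v :: D) ++ (Q2.flatten ++ [y])) := by
  obtain ⟨c, d, -, h2, h3⟩ := h.split
  exact pb3_glue h2.right (lk_ch hsub h3)

theorem lk_ch_left (hsub : ∀ e ∈ L, e ∈ G.edgeSet) {Q1 Q2 : List (List V)} {A D : List V} {v : V}
    (h : Lk G L x (Q1 ++ (A ++ v :: D) :: Q2) y) : Ch G x v (x :: (Q1.flatten ++ (A ++ [v]))) := by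
  obtain ⟨c, d, h1, h2, -⟩ := h.split
  exact pb3_left hsub h1 h2.left

/-- a chain of segments as a walk -/
theorem flat_ch (hsub : ∀ e ∈ L, e ∈ G.edgeSet) {Ss : List (List V)} (h : Ss.IsChain (JL L))
    (hc : ∀ P ∈ Ss, P.IsChain G.Adj) (hn : ∀ P ∈ Ss, P ≠ []) {a b : V}
    (ha : Ss.flatten.head? = some a) (hb : Ss.flatten.getLast? = some b) :
    Ch G a b Ss.flatten := by
  induction Ss generalizing a with
  | nil => simp at ha
  | cons P Ss ih =>
    cases Ss with
    | nil =>
      simp only [List.flatten_cons, List.flatten_nil, List.append_nil] at ha hb ⊢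
      exact ⟨ha, hb, hc P (by simp)⟩
    | cons Q Ss =>
      rw [List.isChain_cons_cons] at h
      obtain ⟨⟨r, l, h1, h2, h3⟩, h4⟩ := h
      have hQ : Q ≠ [] := hn Q (by simp)
      have hP : P ≠ [] := hn P (by simp)
      have hf : (Q :: Ss).flatten ≠ [] := by
        rw [List.flatten_cons]
        simp [hQ]
      have h5 : (Q :: Ss).flatten.head? = some l := by
        rw [List.flatten_cons, List.head?_append_of_ne_nil _ hQ]
        exact h2
      have h6 : (Q :: Ss).flatten.getLast? = some b := by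
        rw [List.flatten_cons, List.getLast?_append_of_ne_nil _ hf] at hb
        exact hb
      have h7 := ih h4 (fun P hP => hc P (List.mem_cons_of_mem _ hP))
        (fun P hP => hn P (List.mem_cons_of_mem _ hP)) h5 h6
      have h8 : Ch G a r P := by
        refine ⟨?_, h1, hc P (by simp)⟩
        rw [List.flatten_cons, List.head?_append_of_ne_nil _ hP] at ha
        exact ha
      have h9 := hsub _ h3
      rw [mem_edgeSet] at h9
      rw [List.flatten_cons]
      exact h8.append h7 h9

/-! ## reversal and rotation -/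

theorem LC.revR (C : LC G L x y Ps Qs) : LC G L y x Ps (rv Qs) := by
  refine ⟨?_, C.ch, C.twoP, C.jn, pb3_two_rv C.twoQ, C.lk.rev, ?_, C.len⟩
  · rw [RL_rv]
    have h := C.nd
    rw [List.nodup_append'] at h ⊢
    refine ⟨h.1, List.nodup_reverse.2 h.2.1, ?_⟩
    intro v hv hv'
    exact h.2.2 hv (List.mem_reverse.1 hv')
  · rw [length_rv]; exact C.card

theorem LC.revZ (C : LC G L x y Ps Qs) : LC G L x y (rv Ps) Qs := by
  refine ⟨?_, ?_, pb3_two_rv C.twoP, cycR_rv C.jn, C.twoQ, C.lk, ?_, ?_⟩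
  · rw [flatten_rv]
    have h := C.nd
    rw [List.nodup_append'] at h ⊢
    refine ⟨List.nodup_reverse.2 h.1, h.2.1, ?_⟩
    intro v hv hv'
    exact h.2.2 (List.mem_reverse.1 hv) hv'
  · intro P hP
    have h1 := C.ch _ (mem_rv.1 hP)
    rw [List.isChain_reverse] at h1
    exact h1.imp (fun _ _ h => h.symm)
  · rw [length_rv]; exact C.card
  · rw [flatten_rv, List.length_reverse]; exact C.len

theorem LC.rot {A D : List (List V)} (C : LC G L x y (A ++ D) Qs) : LC G L x y (D ++ A) Qs := by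
  have hp := flatten_append_comm_perm A D
  refine ⟨?_, ?_, ?_, cycR_append_comm _ _ C.jn, C.twoQ, C.lk, ?_, ?_⟩
  · exact (hp.append_right _).nodup_iff.1 C.nd
  · intro P hP; exact C.ch P (by simp only [List.mem_append] at hP ⊢; tauto)
  · intro P hP; exact C.twoP P (by simp only [List.mem_append] at hP ⊢; tauto)
  · have := C.card; simp only [List.length_append] at this ⊢; omega
  · rw [← hp.length_eq]; exact C.len

theorem OL_revR : OL Ps y x (rv Qs) = OL Ps x y Qs := by
  ext v
  simp only [OL, Set.mem_setOf_eq, RL_rv, List.mem_reverse]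

theorem OL_revZ : OL (rv Ps) x y Qs = OL Ps x y Qs := by
  ext v
  simp only [OL, Set.mem_setOf_eq, flatten_rv, List.mem_reverse]

theorem OL_rot {A D : List (List V)} : OL (A ++ D) x y Qs = OL (D ++ A) x y Qs := by
  ext v
  simp only [OL, Set.mem_setOf_eq, List.flatten_append, List.mem_append]
  tauto

theorem TP.rev (T : TP G L x y Qs) : TP G L y x (rv Qs) := by
  refine ⟨?_, pb3_two_rv T.two, T.lk.rev, ?_⟩
  · rw [RL_rv]; exact List.nodup_reverse.2 T.nd
  · rw [length_rv]; exact T.card

theorem OT_rev : OT y x (rv Qs) = OT x y Qs := by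
  ext v
  simp only [OT, Set.mem_setOf_eq, RL_rv, List.mem_reverse]

end Pool.Agent.LW
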