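import Pool.Agent.LW.PA

set_option autoImplicit false

/-!
# Levels do not depend on the order and orientation of the host
-/

namespace Pool.Agent.LW

open SimpleGraph Classical

universe w

variable {V : Type w} {G H : SimpleGraph V} {L : Finset (Sym2 V)} {k : ℕ}


/-- the same paths up to order and orientation -/
def Eqv (Hs Hs' : List (List V)) : Prop :=
  (∀ P ∈ Hs, P ∈ Hs' ∨ P.reverse ∈ Hs') ∧ ∀ P ∈ Hs', P ∈ Hs ∨ P.reverse ∈ Hs

theorem Eqv.symm {Hs Hs' : List (List V)} (h : Eqv Hs Hs') : Eqv Hs' Hs := ⟨h.2, h.1⟩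

private theorem pb4_mem {Hs Hs' : List (List V)} (h : Eqv Hs Hs') {v : V}
    (hv : v ∈ Hs.flatten) : v ∈ Hs'.flatten := by
  obtain ⟨P, hP, hvP⟩ := List.mem_flatten.1 hv
  rcases h.1 P hP with h1 | h1
  · exact List.mem_flatten.2 ⟨P, h1, hvP⟩
  · exact List.mem_flatten.2 ⟨P.reverse, h1, List.mem_reverse.2 hvP⟩

theorem Eqv.mem {Hs Hs' : List (List V)} (h : Eqv Hs Hs') {v : V} :
    v ∈ Hs.flatten ↔ v ∈ Hs'.flatten :=
  ⟨pb4_mem h, pb4_mem h.symm⟩

theorem Eqv.btw {Hs Hs' : List (List V)} (h : Eqv Hs Hs') {Ab S : Set V} {l : V}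
    (hl : Btw Hs Ab S l) : Btw Hs' Ab S l := by
  obtain ⟨h0, P, hP, s, hs, s', hs', h1, h2⟩ := hl
  rcases h.1 P hP with h3 | h3
  · exact ⟨h0, P, h3, s, hs, s', hs', h1, h2⟩
  · exact ⟨h0, P.reverse, h3, s', hs', s, hs, h2.reverse, h1.reverse⟩

theorem Eqv.he {Hs Hs' : List (List V)} (h : Eqv Hs Hs') {S : Set V} {a b : V}
    (hl : HE Hs S a b) : HE Hs' S a b ∨ HE Hs' S b a := by
  obtain ⟨P, hP, s, hs, s', hs', A, M, D, h1, h2, h3, h4⟩ := hl
  rcases h.1 P hP with h5 | h5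
  · exact Or.inl ⟨P, h5, s, hs, s', hs', A, M, D, h1, h2, h3, h4⟩
  · refine Or.inr ⟨P.reverse, h5, s', hs', s, hs, D.reverse, M.reverse, A.reverse, ?_, ?_, ?_,
      infix_pair_reverse h4⟩
    · rw [h1, List.reverse_append, List.reverse_append, List.append_assoc]
    · rw [List.head?_reverse, h3]
    · rw [List.getLast?_reverse, h2]

theorem Eqv.lg {O : Set V} {Hs Hs' : List (List V)} (h : Eqv Hs Hs') {g : V} (t : ℕ) :
    Lg G O Hs g t = Lg G O Hs' g t := by
  unfold Lg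
  induction t with
  | zero =>
    show S0 G O Hs g = S0 G O Hs' g
    ext v
    simp only [S0, Set.mem_setOf_eq, h.mem]
  | succ t ih =>
    ext w
    show (w ∈ Lvl G O Hs Set.univ (S0 G O Hs g) t ∨ (w ∈ Hs.flatten ∧
        ∃ l, Btw Hs Set.univ (Lvl G O Hs Set.univ (S0 G O Hs g) t) l ∧ Con G O l w)) ↔
      (w ∈ Lvl G O Hs' Set.univ (S0 G O Hs' g) t ∨ (w ∈ Hs'.flatten ∧
        ∃ l, Btw Hs' Set.univ (Lvl G O Hs' Set.univ (S0 G O Hs' g) t) l ∧ Con G O l w))
    rw [ih, h.mem]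
    constructor
    · rintro (h1 | ⟨h1, l, h2, h3⟩)
      · exact Or.inl h1
      · exact Or.inr ⟨h1, l, h.btw h2, h3⟩
    · rintro (h1 | ⟨h1, l, h2, h3⟩)
      · exact Or.inl h1
      · exact Or.inr ⟨h1, l, h.symm.btw h2, h3⟩

theorem Eqv.xg {O : Set V} {Hs Hs' : List (List V)} (h : Eqv Hs Hs') {g : V} :
    Xg G O Hs g = Xg G O Hs' g := by
  ext v
  simp only [Xg, Set.mem_setOf_eq, h.lg]

theorem Eqv.nh {O : Set V} {Hs Hs' : List (List V)} (h : Eqv Hs Hs') {g : V} {t : ℕ} {a b : V}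
    (hn : NH G O Hs g t a b) : NH G O Hs' g t a b := by
  intro τ hτ
  obtain ⟨h1, h2⟩ := hn τ hτ
  rw [h.lg] at h1 h2
  refine ⟨fun h3 => ?_, fun h3 => ?_⟩
  · rcases h.symm.he h3 with h4 | h4
    · exact h1 h4
    · exact h2 h4
  · rcases h.symm.he h3 with h4 | h4
    · exact h2 h4
    · exact h1 h4

theorem fx_reverse (X : Set V) (P : List V) : fx X P.reverse = fx X P := by
  unfold fx
  rw [List.filter_reverse, List.length_reverse]

theorem fx_rv (X : Set V) (Ps : List (List V)) :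
    ((rv Ps).map (fx X)).sum = (Ps.map (fx X)).sum := by
  induction Ps with
  | nil => rfl
  | cons P Ps ih =>
    rw [rv_cons, List.map_append, List.sum_append, ih, List.map_cons, List.map_nil,
      List.sum_cons, List.sum_nil, fx_reverse, List.map_cons, List.sum_cons, add_zero, add_comm]

end Pool.Agent.LW
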