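import Pool.Agent.LW.PB3

set_option autoImplicit false

/-!
# Linked configurations and L-paths: edges of `L`
-/

namespace Pool.Agent.LW

open SimpleGraph Classical

universe w

variable {V : Type w} {G H : SimpleGraph V} {L : Finset (Sym2 V)} {k : ℕ}
  {x y : V} {Ps Qs : List (List V)}

private theorem pb5_tail {α : Type w} {a b c : α} {F : List α} (h : [a, b] <:+: c :: F) :
    b ∈ F := by
  obtain ⟨X, Y, hXY⟩ := h
  cases X with
  | nil =>
    simp only [List.nil_append, List.cons_append, List.cons.injEq] at hXY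
    rw [← hXY.2]
    simp
  | cons q X =>
    simp only [List.cons_append, List.cons.injEq] at hXY
    rw [← hXY.2]
    simp

private theorem pb5_seg {Hs : List (List V)} (hn : Hs.flatten.Nodup) {P P' : List V} (hP : P ∈ Hs)
    (hP' : P' ∈ Hs) {v : V} (h : v ∈ P) (h' : v ∈ P') : P = P' := by
  by_contra hne
  have h1 := (List.nodup_flatten.1 hn).2
  have : Std.Symm (List.Disjoint : List V → List V → Prop) :=
    ⟨fun _ _ h => List.Disjoint.symm h⟩
  have h2 := h1.forall hP hP' hne
  exact h2 h h'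

/-- no segment occurs twice in a row -/
private theorem pb5_twice {Ms : List (List V)} (hn : Ms.flatten.Nodup) {Q : List V} (hQ : Q ≠ [])
    (h : [Q, Q].Sublist Ms) : False := by
  have h1 : ([Q, Q].flatten).Sublist Ms.flatten := by
    clear hn
    have : ∀ (As Bs : List (List V)), As.Sublist Bs → As.flatten.Sublist Bs.flatten := by
      intro As Bs hAB
      induction hAB with
      | slnil => simp
      | cons a _ ih =>
        rw [List.flatten_cons]
        exact ih.trans (List.sublist_append_right _ _)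
      | cons_cons a _ ih =>
        rw [List.flatten_cons, List.flatten_cons]
        exact (List.Sublist.refl a).append ih
    exact this _ _ h
  have h2 := hn.sublist h1
  simp only [List.flatten_cons, List.flatten_nil, List.append_nil] at h2
  obtain ⟨q, Q', rfl⟩ := List.exists_cons_of_ne_nil hQ
  exact (List.nodup_append'.1 h2).2.2 (List.mem_cons_self) (List.mem_cons_self)

/-- a list of `|L|` different edges of `L` contains all edges of `L` -/
private theorem pb5_all {Es : List (Sym2 V)} (h1 : Es.Nodup) (h2 : ∀ e ∈ Es, e ∈ L)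
    (h3 : Es.length = L.card) {e : Sym2 V} (he : e ∈ L) : e ∈ Es := by
  have h4 : Es.toFinset = L := by
    refine Finset.eq_of_subset_of_card_le (fun f hf => h2 f (List.mem_toFinset.1 hf)) ?_
    rw [List.toFinset_card_of_nodup h1, h3]
  rw [← h4] at he
  exact List.mem_toFinset.1 he

/-- `e` is a junction of the list of segments -/
private def pb5_J (Ms : List (List V)) (e : Sym2 V) : Prop :=
  ∃ A B c d, [A, B] <:+: Ms ∧ A.getLast? = some c ∧ B.head? = some d ∧ e = s(c, d)

private theorem pb5_J_mem {Ms : List (List V)} {e : Sym2 V} (h : pb5_J Ms e) {v : V}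
    (hv : v ∈ e) : v ∈ Ms.flatten := by
  obtain ⟨A, B, c, d, h1, h2, h3, rfl⟩ := h
  rcases Sym2.mem_iff.1 hv with hv | hv
  · rw [hv]
    exact List.mem_flatten.2 ⟨A, h1.subset (by simp), List.mem_of_getLast? h2⟩
  · rw [hv]
    exact List.mem_flatten.2 ⟨B, h1.subset (by simp), List.mem_of_head? h3⟩

private theorem pb5_J_mono {Ms Ns : List (List V)} {e : Sym2 V} (h : pb5_J Ms e)
    (hs : Ms <:+: Ns) : pb5_J Ns e := by
  obtain ⟨A, B, c, d, h1, h2, h3, h4⟩ := h
  exact ⟨A, B, c, d, h1.trans hs, h2, h3, h4⟩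

/-- a junction is a consecutive pair -/
private theorem pb5_J_el {Ms : List (List V)} {a b : V} (h : pb5_J Ms s(a, b)) :
    EL Ms.flatten a b := by
  obtain ⟨A, B, c, d, ⟨X, Y, h1⟩, h2, h3, h4⟩ := h
  obtain ⟨A0, hA0⟩ : ∃ A0, A = A0 ++ [c] := by
    rwa [List.getLast?_eq_some_iff] at h2
  obtain ⟨B0, hB0⟩ : ∃ B0, B = d :: B0 := by
    rwa [List.head?_eq_some_iff] at h3
  have h5 : [c, d] <:+: Ms.flatten := by
    refine ⟨X.flatten ++ A0, B0 ++ Y.flatten, ?_⟩
    rw [← h1, hA0, hB0]
    simp
  rw [Sym2.eq_iff] at h4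
  rcases h4 with ⟨h6, h7⟩ | ⟨h6, h7⟩
  · rw [h6, h7]; exact Or.inl h5
  · rw [h6, h7]; exact Or.inr h5

/-- the junctions of a chain of disjoint segments are pairwise different edges of `L` -/
private theorem pb5_junc {Ms : List (List V)} (hne : Ms ≠ []) (h : Ms.IsChain (JL L))
    (hnd : Ms.flatten.Nodup) :
    ∃ Es : List (Sym2 V), Es.Nodup ∧ Es.length + 1 = Ms.length ∧
      ∀ e ∈ Es, e ∈ L ∧ pb5_J Ms e := by
  induction Ms with
  | nil => exact absurd rfl hne
  | cons P Ms ih =>
    cases Ms with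
    | nil => exact ⟨[], by simp, by simp, by simp⟩
    | cons Q Ms =>
      rw [List.flatten_cons] at hnd
      have hnd' := List.nodup_append'.1 hnd
      have h' := h
      rw [List.isChain_cons_cons] at h'
      obtain ⟨Es, h1, h2, h3⟩ := ih (by simp) h'.2 hnd'.2.1
      obtain ⟨r, l, h4, h5, h6⟩ := h'.1
      have hrP : r ∈ P := List.mem_of_getLast? h4
      refine ⟨s(r, l) :: Es, List.nodup_cons.2 ⟨?_, h1⟩, by simp [h2], ?_⟩
      · intro hmem
        exact hnd'.2.2 hrP (pb5_J_mem (h3 _ hmem).2 (by simp))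
      · intro e he
        rcases List.mem_cons.1 he with he | he
        · exact ⟨by rw [he]; exact h6, P, Q, r, l, ⟨[], Ms, by simp⟩, h4, h5, he⟩
        · exact ⟨(h3 e he).1, pb5_J_mono (h3 e he).2 (List.suffix_cons _ _).isInfix⟩

/-- the junctions of a cycle of disjoint segments -/
private theorem pb5_cyc {Ps : List (List V)} (jn : CycR (JL L) Ps)
    (two : ∀ P ∈ Ps, 2 ≤ P.length) (hnd : Ps.flatten.Nodup) :
    ∃ Es : List (Sym2 V), Es.Nodup ∧ Es.length = Ps.length ∧
      ∀ e ∈ Es, e ∈ L ∧ pb5_J (Ps ++ Ps.head?.toList) e := by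
  cases Ps with
  | nil => exact absurd jn (by simp [CycR])
  | cons P Ps =>
    have hj : (P :: (Ps ++ [P])).IsChain (JL L) := jn
    have hpre : (P :: Ps) <:+: (P :: (Ps ++ [P])) := ⟨[], [P], by simp⟩
    have hj1 : (P :: Ps).IsChain (JL L) := by
      have hj2 := hj
      rw [← List.cons_append, List.isChain_append] at hj2
      exact hj2.1
    obtain ⟨Es, h1, h2, h3⟩ := pb5_junc (by simp) hj1 hnd
    obtain ⟨Z, W, hZW⟩ : ∃ Z W, P :: Ps = Z ++ [W] :=
      ⟨_, _, (List.dropLast_append_getLast (List.cons_ne_nil P Ps)).symm⟩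
    have hW : (P :: (Ps ++ [P])) = Z ++ [W, P] := by
      rw [← List.cons_append, hZW]
      simp
    have hJ : JL L W P := by
      rw [hW, List.isChain_append] at hj
      have := hj.2.1
      rw [List.isChain_cons_cons] at this
      exact this.1
    obtain ⟨r, l, h4, h5, h6⟩ := hJ
    have hlP : l ∈ P := List.mem_of_head? h5
    rw [List.flatten_cons] at hnd
    have hnd' := List.nodup_append'.1 hnd
    refine ⟨s(r, l) :: Es, List.nodup_cons.2 ⟨?_, h1⟩, by simp [h2], ?_⟩
    · intro hmem
      obtain ⟨A, B, c, d, h7, h8, h9, h10⟩ := (h3 _ hmem).2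
      have hB : B ∈ Ps := pb5_tail h7
      have hl : l ∈ s(c, d) := by rw [← h10]; simp
      rcases Sym2.mem_iff.1 hl with hl | hl
      · -- `l` is the last vertex of `A`
        have hA : A ∈ P :: Ps := h7.subset (by simp)
        have hlA : l ∈ A := by rw [hl]; exact List.mem_of_getLast? h8
        have hAP : A = P := by
          refine pb5_seg (Hs := P :: Ps) (by rw [List.flatten_cons]; exact hnd) hA (by simp) hlA hlP
        rw [hAP, ← hl] at h8
        have htwo := two P (by simp)
        obtain ⟨P1, hP1⟩ : ∃ P1, P = l :: P1 := by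
          rwa [List.head?_eq_some_iff] at h5
        cases P1 with
        | nil => rw [hP1] at htwo; simp at htwo
        | cons q P1 =>
          rw [hP1, List.getLast?_cons_cons] at h8
          have h11 := hnd'.1
          rw [hP1] at h11
          exact (List.nodup_cons.1 h11).1 (List.mem_of_getLast? h8)
      · have hlB : l ∈ B := by rw [hl]; exact List.mem_of_head? h9
        exact hnd'.2.2 hlP (List.mem_flatten.2 ⟨B, hB, hlB⟩)
    · intro e he
      have hcl : (P :: Ps) ++ (P :: Ps).head?.toList = P :: (Ps ++ [P]) := by simp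
      rw [hcl]
      rcases List.mem_cons.1 he with he | he
      · refine ⟨by rw [he]; exact h6, W, P, r, l, ?_, h4, h5, he⟩
        rw [hW]
        exact ⟨Z, [], by simp⟩
      · exact ⟨(h3 e he).1, pb5_J_mono (h3 e he).2 hpre⟩

/-- the segments of the path -/
private def pb5_S (x y : V) (Qs : List (List V)) : List (List V) := [x] :: (Qs ++ [[y]])

private theorem pb5_S_flat : (pb5_S x y Qs).flatten = RL x y Qs := by
  unfold pb5_S RL
  simp

private theorem pb5_S_chain (h : Lk G L x Qs y) : (pb5_S x y Qs).IsChain (JL L) :=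
  isChain_of_lk h rfl rfl

private theorem pb5_path (h : Lk G L x Qs y) (hnd : (RL x y Qs).Nodup) :
    ∃ Es : List (Sym2 V), Es.Nodup ∧ Es.length = Qs.length + 1 ∧
      ∀ e ∈ Es, e ∈ L ∧ pb5_J (pb5_S x y Qs) e := by
  obtain ⟨Es, h1, h2, h3⟩ := pb5_junc (Ms := pb5_S x y Qs) (by simp [pb5_S]) (pb5_S_chain h)
    (by rw [pb5_S_flat]; exact hnd)
  refine ⟨Es, h1, ?_, h3⟩
  have h4 : (pb5_S x y Qs).length = Qs.length + 1 + 1 := by simp [pb5_S]
  omega

private theorem pb5_tp (T : TP G L x y Qs) {e : Sym2 V} (he : e ∈ L) :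
    pb5_J (pb5_S x y Qs) e := by
  obtain ⟨Es, h1, h2, h3⟩ := pb5_path T.lk T.nd
  exact (h3 e (pb5_all h1 (fun e he => (h3 e he).1) (by rw [h2, T.card]) he)).2

private theorem pb5_nd (C : LC G L x y Ps Qs) : Ps.flatten.Nodup ∧ (RL x y Qs).Nodup ∧
    List.Disjoint Ps.flatten (RL x y Qs) := List.nodup_append'.1 C.nd

private theorem pb5_head {v : V} (h : v ∈ (Ps ++ Ps.head?.toList).flatten) : v ∈ Ps.flatten := by
  cases Ps with
  | nil => simp at h
  | cons P Ps =>
    simp only [List.head?_cons, Option.toList_some, List.cons_append, List.flatten_cons,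
      List.flatten_append, List.flatten_nil, List.append_nil, List.mem_append] at h ⊢
    tauto

private theorem pb5_lc (C : LC G L x y Ps Qs) {e : Sym2 V} (he : e ∈ L) :
    pb5_J (Ps ++ Ps.head?.toList) e ∨ pb5_J (pb5_S x y Qs) e := by
  obtain ⟨n1, n2, n3⟩ := pb5_nd C
  obtain ⟨Es, h1, h2, h3⟩ := pb5_path C.lk n2
  obtain ⟨Fs, h4, h5, h6⟩ := pb5_cyc C.jn C.twoP n1
  have h7 : (Fs ++ Es).Nodup := by
    refine List.nodup_append'.2 ⟨h4, h1, ?_⟩
    intro f hf hf'
    obtain ⟨A, B, c, d, k1, k2, k3, k4⟩ := (h6 f hf).2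
    have hc : c ∈ f := by rw [k4]; simp
    have hc1 := pb5_head (pb5_J_mem (h6 f hf).2 hc)
    have hc2 := pb5_J_mem (h3 f hf').2 hc
    rw [pb5_S_flat] at hc2
    exact n3 hc1 hc2
  have h8 := pb5_all h7 (fun f hf => by
    rcases List.mem_append.1 hf with hf | hf
    · exact (h6 f hf).1
    · exact (h3 f hf).1) (by rw [List.length_append, h5, h2, C.card]) he
  rcases List.mem_append.1 h8 with h8 | h8
  · exact Or.inl (h6 e h8).2
  · exact Or.inr (h3 e h8).2

private theorem pb5_ends {P : List V} (hn : P.Nodup) (h3 : 3 ≤ P.length) {r l : V}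
    (hr : P.getLast? = some r) (hl : P.head? = some l) : ¬ EL P r l := by
  obtain ⟨P1, rfl⟩ : ∃ P1, P = l :: P1 := by
    rwa [List.head?_eq_some_iff] at hl
  have hn' := List.nodup_cons.1 hn
  rintro (h | h)
  · exact hn'.1 (pb5_tail h)
  · obtain ⟨X, Y, hXY⟩ := h
    cases X with
    | nil =>
      simp only [List.nil_append, List.cons_append, List.cons.injEq, true_and] at hXY
      subst hXY
      cases Y with
      | nil => simp at h3
      | cons q Y =>
        rw [List.getLast?_cons_cons, List.getLast?_cons_cons] at hr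
        exact (List.nodup_cons.1 hn'.2).1 (List.mem_of_getLast? hr)
    | cons q X =>
      simp only [List.cons_append, List.cons.injEq] at hXY
      refine hn'.1 ?_
      rw [← hXY.2]
      simp

/-- the two ends of a junction in one segment -/
private theorem pb5_same {Ms : List (List V)} {e : Sym2 V} (h : pb5_J Ms e) {Q : List V}
    (hQ : ∀ v ∈ e, v ∈ Q) (hseg : ∀ P ∈ Ms, ∀ v ∈ P, v ∈ Q → P = Q) :
    ∃ c d, [Q, Q] <:+: Ms ∧ Q.getLast? = some c ∧ Q.head? = some d ∧ e = s(c, d) := by
  obtain ⟨A, B, c, d, h1, h2, h3, rfl⟩ := h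
  have hA : A = Q := hseg A (h1.subset (by simp)) c (List.mem_of_getLast? h2) (hQ c (by simp))
  have hB : B = Q := hseg B (h1.subset (by simp)) d (List.mem_of_head? h3) (hQ d (by simp))
  subst hA
  subst hB
  exact ⟨c, d, h1, h2, h3, rfl⟩

theorem LC.noP (hind : ∀ e ∈ L, ∀ f ∈ L, e ≠ f → ∀ v, v ∈ e → v ∉ f) (C : LC G L x y Ps Qs)
    {P : List V} (hP : P ∈ Ps) {c d : V} (hcd : s(c, d) ∈ L) : ¬ EL P c d := by
  intro hel
  have _ := hind
  obtain ⟨n1, n2, n3⟩ := pb5_nd C
  have hmem : ∀ v ∈ s(c, d), v ∈ P := by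
    intro v hv
    rcases Sym2.mem_iff.1 hv with hv | hv
    · rw [hv]; exact hel.memL
    · rw [hv]; exact hel.memR
  have hPn : P ≠ [] := List.ne_nil_of_mem hel.memL
  rcases pb5_lc C hcd with h | h
  · obtain ⟨r, l, h1, h2, h3, h4⟩ := pb5_same h hmem (by
      intro P' hP' v hv hv'
      refine pb5_seg n1 ?_ hP hv hv'
      cases Ps with
      | nil => simp at hP
      | cons P0 Ps =>
        simp only [List.head?_cons, Option.toList_some, List.cons_append, List.mem_cons,
          List.mem_append, List.not_mem_nil, or_false] at hP' ⊢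
        tauto)
    have hPs : Ps = [P] := by
      cases Ps with
      | nil => simp at hP
      | cons P0 Ps =>
        have hcl : (P0 :: Ps) ++ (P0 :: Ps).head?.toList = (P0 :: Ps) ++ [P0] := by simp
        rw [hcl] at h1
        obtain ⟨X, Y, hXY⟩ := h1
        rcases List.eq_nil_or_concat Y with rfl | ⟨Y', q, rfl⟩
        · rw [List.append_nil] at hXY
          have h5 : (X ++ [P]) ++ [P] = (P0 :: Ps) ++ [P0] := by rw [← hXY]; simp
          obtain ⟨h6, h7⟩ := List.append_inj' h5 rfl
          have h8 : P = P0 := by simpa using h7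
          subst h8
          cases X with
          | nil => simpa using h6.symm
          | cons q X =>
            simp only [List.cons_append, List.cons.injEq] at h6
            exfalso
            refine pb5_twice n1 hPn ?_
            rw [← h6.2]
            exact List.Sublist.cons_cons _ (List.sublist_append_right _ _)
        · exfalso
          rw [List.concat_eq_append, ← List.append_assoc] at hXY
          obtain ⟨h6, -⟩ := List.append_inj' hXY rfl
          refine pb5_twice n1 hPn ?_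
          rw [← h6]
          exact (List.sublist_append_right _ _).trans (List.sublist_append_left _ _)
    have hlen := C.len
    rw [hPs] at hlen n1
    simp only [List.flatten_cons, List.flatten_nil, List.append_nil] at hlen n1
    refine pb5_ends n1 hlen h2 h3 ?_
    rw [Sym2.eq_iff] at h4
    rcases h4 with ⟨h6, h7⟩ | ⟨h6, h7⟩
    · rw [← h6, ← h7]; exact hel
    · rw [← h6, ← h7]; exact hel.symm
  · have hc := pb5_J_mem h (v := c) (by simp)
    rw [pb5_S_flat] at hc
    exact n3 (List.mem_flatten.2 ⟨P, hP, hel.memL⟩) hc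

/-- on the path no edge of `L` is inside a segment -/
private theorem pb5_noQ (hnd : (RL x y Qs).Nodup) {Q : List V} (hQ : Q ∈ Qs) {c d : V}
    (hel : EL Q c d) (h : pb5_J (pb5_S x y Qs) s(c, d)) : False := by
  have hmem : ∀ v ∈ s(c, d), v ∈ Q := by
    intro v hv
    rcases Sym2.mem_iff.1 hv with hv | hv
    · rw [hv]; exact hel.memL
    · rw [hv]; exact hel.memR
  rw [← pb5_S_flat] at hnd
  obtain ⟨r, l, h1, h2, h3, h4⟩ := pb5_same h hmem (by
    intro P' hP' v hv hv'
    refine pb5_seg hnd hP' ?_ hv hv'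
    unfold pb5_S
    simp [hQ])
  exact pb5_twice hnd (List.ne_nil_of_mem hel.memL) h1.sublist

theorem LC.noQ (hind : ∀ e ∈ L, ∀ f ∈ L, e ≠ f → ∀ v, v ∈ e → v ∉ f) (C : LC G L x y Ps Qs)
    {Q : List V} (hQ : Q ∈ Qs) {c d : V} (hcd : s(c, d) ∈ L) : ¬ EL Q c d := by
  intro hel
  have _ := hind
  obtain ⟨n1, n2, n3⟩ := pb5_nd C
  rcases pb5_lc C hcd with h | h
  · have hc := pb5_head (pb5_J_mem h (v := c) (by simp))
    refine n3 hc ?_
    rw [mem_RL]
    exact Or.inr (Or.inl (List.mem_flatten.2 ⟨Q, hQ, hel.memL⟩))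
  · exact pb5_noQ n2 hQ hel h

/-- every edge of `L` is on the path or a junction of the cycle -/
theorem LC.cov (hind : ∀ e ∈ L, ∀ f ∈ L, e ≠ f → ∀ v, v ∈ e → v ∉ f) (C : LC G L x y Ps Qs)
    {c d : V} (hcd : s(c, d) ∈ L) : EL (RL x y Qs) c d ∨
      ∃ A B : List V, [A, B] <:+: Ps ++ Ps.head?.toList ∧
        (A.getLast? = some c ∧ B.head? = some d ∨ A.getLast? = some d ∧ B.head? = some c) := by
  have _ := hind
  rcases pb5_lc C hcd with h | h
  · right
    obtain ⟨A, B, r, l, h1, h2, h3, h4⟩ := h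
    refine ⟨A, B, h1, ?_⟩
    rw [Sym2.eq_iff] at h4
    rcases h4 with ⟨h6, h7⟩ | ⟨h6, h7⟩
    · left
      rw [h6, h7]
      exact ⟨h2, h3⟩
    · right
      rw [h6, h7]
      exact ⟨h2, h3⟩
  · left
    have := pb5_J_el h
    rwa [pb5_S_flat] at this

theorem TP.noQ (hind : ∀ e ∈ L, ∀ f ∈ L, e ≠ f → ∀ v, v ∈ e → v ∉ f) (T : TP G L x y Qs)
    {Q : List V} (hQ : Q ∈ Qs) {c d : V} (hcd : s(c, d) ∈ L) : ¬ EL Q c d := by
  intro hel
  have _ := hind
  exact pb5_noQ T.nd hQ hel (pb5_tp T hcd)

theorem TP.cov (hind : ∀ e ∈ L, ∀ f ∈ L, e ≠ f → ∀ v, v ∈ e → v ∉ f) (T : TP G L x y Qs)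
    {c d : V} (hcd : s(c, d) ∈ L) : EL (RL x y Qs) c d := by
  have _ := hind
  have := pb5_J_el (pb5_tp T hcd)
  rwa [pb5_S_flat] at this

end Pool.Agent.LW
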