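import Pool.Agent.LW.PA

set_option autoImplicit false

/-!
# Single hop
-/

namespace Pool.Agent.LW

open SimpleGraph Classical

universe w

variable {V : Type w} {G H : SimpleGraph V} {L : Finset (Sym2 V)} {k : ℕ}


theorem HE.el {Hs : List (List V)} {S : Set V} {a b : V} (h : HE Hs S a b) :
    ∃ P ∈ Hs, [a, b] <:+: P ∧ ∃ s ∈ S, ∃ s' ∈ S, s ∈ P ∧ s' ∈ P := by
  obtain ⟨P, hP, s, hs, s', hs', A, M, D, h1, h2, h3, h4⟩ := h
  have h5 : M <:+: P := ⟨A, D, by rw [h1, List.append_assoc]⟩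
  exact ⟨P, hP, h4.trans h5, s, hs, s', hs', h5.subset (List.mem_of_head? h2),
    h5.subset (List.mem_of_getLast? h3)⟩

/-- `hopL` and `hopC` in one statement: `C` is an extra cycle or empty -/
theorem hopX (hGH : G ≤ H) {O : Set V} {Hs : List (List V)} (hnd : Hs.flatten.Nodup) {x z u : V}
    {t : ℕ} (hu : u ∈ Lg G O Hs x t) {F C : List V} {c1 c2 : V} (hF : Ch H u z F)
    (hFn : F.Nodup) (hC : XC G c1 c2 C) (hFC : ∀ v ∈ F, v ∉ C) (hs : HS G O Hs x t F C) :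
    ∃ w0 ∈ Hs.flatten, Con G O x w0 ∧ ∃ F', Ch H w0 z F' ∧ F'.Nodup ∧
      (∀ v ∈ F', v ∈ F ∨ v ∈ C ∨ (v ∈ O ∧ v ∉ Att G O x ∧ AH G O Hs x t v)) ∧
      (∀ a b, EL F a b → NH G O Hs x t a b → EL F' a b) ∧
      ((∀ v ∈ F', v ∉ C) ∨
        ∀ a b, EL C a b ∨ s(a, b) = s(c1, c2) → NH G O Hs x t a b → EL F' a b) := by
  have hSrc : ∀ w ∈ Hs.flatten, ∀ o ∈ Att G O w, o ∈ Att G O x → w ∈ S0 G O Hs x :=
    fun w hw o ho ho' => ⟨hw, Con.of_att ho' ho⟩
  have hoff : ∀ v, v ∈ F ∨ v ∈ C → v ∈ O → v ∉ (∅ : Set V) ∧ v ∉ Att G O x ∧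
      ∀ t' < t, ∀ l, Btw Hs Set.univ (Lvl G O Hs Set.univ (S0 G O Hs x) t') l →
        v ∉ Att G O l := by
    intro v hv hvO
    have h1 := hs.off v hv hvO
    exact ⟨fun h => h, fun h => h1 (Or.inl h), fun t' ht' l hl h => h1 (Or.inr ⟨t', ht', l, hl, h⟩)⟩
  rcases hC with hC | ⟨hCc, hcl, hCn⟩
  · obtain ⟨w0, h0, F', h1, h2, h3, h4⟩ := hopL (Ab := Set.univ) (N := ∅) hGH hnd hSrc t
      (fun _ _ _ _ _ _ h => h) u hu F hF hFn
      (fun τ hτ a b hab => by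
        rcases hs.hull τ hτ a b hab with h | h
        · exact h
        · rw [hC] at h
          exact absurd h.memL (List.not_mem_nil))
      (fun v hv => hoff v (Or.inl hv))
    refine ⟨w0, h0.1, h0.2, F', h1, h2, ?_, ?_, Or.inl ?_⟩
    · intro v hv
      rcases h3 v hv with h | ⟨g1, _, g3, g4⟩
      · exact Or.inl h
      · exact Or.inr (Or.inr ⟨g1, g3, Or.inr g4⟩)
    · intro a b hab hn
      exact h4 a b hab (fun τ hτ => (hn τ hτ).1) (fun τ hτ => (hn τ hτ).2)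
    · intro v _
      rw [hC]
      exact List.not_mem_nil
  · obtain ⟨w0, h0, F', h1, h2, h3, h4⟩ := hopC (Ab := Set.univ) (N := ∅) hGH hnd hSrc
      (hCc.mono hGH) hCn (hGH hcl) t (fun _ _ _ _ _ _ h => h) u hu F hF hFn hFC hs.hull hoff
    refine ⟨w0, h0.1, h0.2, F', h1, h2, ?_, ?_, ?_⟩
    · intro v hv
      rcases h4 with ⟨_, g2⟩ | ⟨g1, _, _⟩
      · rcases g2 v hv with h | ⟨g1, _, g3, g4⟩
        · exact Or.inl h
        · exact Or.inr (Or.inr ⟨g1, g3, Or.inr g4⟩)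
      · rcases g1 v hv with h | h | ⟨g1, _, g3, g4⟩
        · exact Or.inl h
        · exact Or.inr (Or.inl h)
        · exact Or.inr (Or.inr ⟨g1, g3, Or.inr g4⟩)
    · intro a b hab hn
      exact h3 a b hab (fun τ hτ => (hn τ hτ).1) (fun τ hτ => (hn τ hτ).2)
    · rcases h4 with ⟨g1, _⟩ | ⟨_, g2, g3⟩
      · exact Or.inl g1
      · right
        intro a b hab hn
        rcases hab with hab | hab
        · exact g3 a b hab (fun τ hτ => (hn τ hτ).1) (fun τ hτ => (hn τ hτ).2)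
        · rcases Sym2.eq_iff.1 hab with ⟨e1, e2⟩ | ⟨e1, e2⟩
          · rw [e1, e2] at hn ⊢
            rcases g2 with h | ⟨τ, hτ, h⟩ | ⟨τ, hτ, h⟩
            · exact h.symm
            · exact absurd h (hn τ hτ).1
            · exact absurd h (hn τ hτ).2
          · rw [e1, e2] at hn ⊢
            rcases g2 with h | ⟨τ, hτ, h⟩ | ⟨τ, hτ, h⟩
            · exact h
            · exact absurd h (hn τ hτ).2
            · exact absurd h (hn τ hτ).1

end Pool.Agent.LW
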