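import Pool.Agent.LW.PC1

set_option autoImplicit false

/-!
# Double hop
-/

namespace Pool.Agent.LW

open SimpleGraph Classical

universe w

variable {V : Type w} {G H : SimpleGraph V} {L : Finset (Sym2 V)} {k : ℕ}

private theorem pc2_pair {p q c d : V} (h : EL [p, q] c d) : s(c, d) = s(p, q) := by
  rcases h with h | h
  · have h1 := h.eq_of_length (by simp)
    simp only [List.cons.injEq, and_true] at h1
    rw [h1.1, h1.2]
  · have h1 := h.eq_of_length (by simp)
    simp only [List.cons.injEq, and_true] at h1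
    rw [h1.1, h1.2, Sym2.eq_swap]

private theorem pc2_len {F : List V} {a b c d : V} (h : EL F a b) (h' : EL F c d)
    (hne : s(a, b) ≠ s(c, d)) : 3 ≤ F.length := by
  match F, h, h' with
  | [], h, _ => exact absurd h.memL (by simp)
  | [p], h, _ => rcases h with h | h <;> exact absurd h.length_le (by simp)
  | [p, q], h, h' => exact absurd ((pc2_pair h).trans (pc2_pair h').symm) hne
  | _ :: _ :: _ :: _, _, _ => simp

private theorem pc2_close (hGH : G ≤ H) {w0 x : V} {F K : List V} (hF : Ch H w0 x F)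
    (hK : Ch G x w0 (x :: (K ++ [w0]))) : ∃ b, Ch H w0 b (F ++ K) ∧ H.Adj b w0 := by
  cases K with
  | nil =>
    refine ⟨x, by simpa using hF, ?_⟩
    have h1 : Ch G x w0 (x :: w0 :: []) := by simpa using hK
    exact hGH h1.snd
  | cons k0 K1 =>
    have h1 : Ch G x w0 (x :: k0 :: (K1 ++ [w0])) := by simpa using hK
    have h2 := h1.snd
    have h3 := h1.tail
    rcases List.eq_nil_or_concat (k0 :: K1) with h4 | ⟨K0, b, h4⟩
    · simp at h4
    · rw [List.concat_eq_append] at h4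
      have h5 : Ch G k0 w0 (K0 ++ b :: w0 :: []) := by
        have h6 : (k0 :: (K1 ++ [w0]) : List V) = K0 ++ b :: w0 :: [] := by
          rw [← List.cons_append, h4]; simp
        rw [← h6]; exact h3
      refine ⟨b, ?_, hGH h5.adj⟩
      have h6 := h5.left
      rw [← h4] at h6
      exact hF.append (h6.mono hGH) (hGH h2)

private theorem pc2_open {w0 b v y : V} {D : List V} (hD : Ch H w0 b D) (hDn : D.Nodup)
    (hb : H.Adj b w0) (hvy : EL D v y) :
    ∃ F, Ch H v y F ∧ F.Nodup ∧ (∀ w, w ∈ F ↔ w ∈ D) ∧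
      ∀ c d, EL D c d → s(c, d) ≠ s(v, y) → EL F c d := by
  rcases hvy.ex with ⟨A, B, h⟩ | ⟨A, B, h⟩
  · subst h
    have e1 : A ++ v :: y :: B = (A ++ [v]) ++ y :: B := by simp
    have h1 : Ch H v w0 (A ++ [v]).reverse := hD.left.reverse
    have h2 : Ch H b y (y :: B).reverse := by
      have h3 := hD
      rw [e1] at h3
      exact h3.right.reverse
    have hp : ((A ++ [v]).reverse ++ (y :: B).reverse).Perm (A ++ v :: y :: B) := by
      rw [e1]
      exact (List.reverse_perm _).append (List.reverse_perm _)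
    refine ⟨(A ++ [v]).reverse ++ (y :: B).reverse, h1.append h2 hb.symm, hp.nodup_iff.2 hDn,
      fun w => hp.mem_iff, ?_⟩
    intro c d hcd hne
    rcases hcd.split with h | h
    · exact h.reverse.mono (List.prefix_append _ _).isInfix
    · have h' : EL ([v] ++ y :: B) c d := h
      rcases h'.split with h | h
      · exact absurd (pc2_pair h) hne
      · exact h.reverse.mono (List.suffix_append _ _).isInfix
  · subst h
    have e1 : A ++ y :: v :: B = (A ++ [y]) ++ v :: B := by simp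
    have h1 : Ch H w0 y (A ++ [y]) := hD.left
    have h2 : Ch H v b (v :: B) := by
      have h3 := hD
      rw [e1] at h3
      exact h3.right
    have hp : ((v :: B) ++ (A ++ [y])).Perm (A ++ y :: v :: B) := by
      rw [e1]
      exact List.perm_append_comm
    refine ⟨(v :: B) ++ (A ++ [y]), h2.append h1 hb, hp.nodup_iff.2 hDn,
      fun w => hp.mem_iff, ?_⟩
    intro c d hcd hne
    rcases hcd.split with h | h
    · exact h.mono (List.suffix_append _ _).isInfix
    · have h' : EL ([y] ++ v :: B) c d := h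
      rcases h'.split with h | h
      · exact absurd ((pc2_pair h).trans Sym2.eq_swap) hne
      · exact h.mono (List.prefix_append _ _).isInfix

private theorem pc2_off {v y : V} : ∀ {l : List V}, l.IsChain (G ⊔ SimpleGraph.edge v y).Adj →
    v ∉ l → l.IsChain G.Adj := by
  intro l
  induction l with
  | nil => intro _ _; exact List.isChain_nil
  | cons p l ih =>
    cases l with
    | nil => intro _ _; exact List.isChain_singleton p
    | cons q l =>
      intro h hv
      rw [List.isChain_cons_cons] at h ⊢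
      refine ⟨?_, ih h.2 (fun h' => hv (List.mem_cons_of_mem _ h'))⟩
      rcases h.1 with h1 | h1
      · exact h1
      · rw [SimpleGraph.edge_adj] at h1
        rcases h1.1 with ⟨h2, -⟩ | ⟨-, h2⟩
        · exact absurd (by rw [h2]; simp) hv
        · exact absurd (by rw [h2]; simp) hv

private theorem pc2_drop {v y : V} {F : List V} (h : Ch (G ⊔ SimpleGraph.edge v y) v y F)
    (hn : F.Nodup) (h3 : 3 ≤ F.length) : Ch G v y F := by
  match F, h, hn, h3 with
  | [], _, _, h3 => simp at h3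
  | [_], _, _, h3 => simp at h3
  | [_, _], _, _, h3 => simp at h3
  | p :: q :: r :: R, h, hn, _ =>
    have hp : p = v := by simpa using h.hd
    subst hp
    have hc := h.ch
    rw [List.isChain_cons_cons] at hc
    refine ⟨h.hd, h.lt, ?_⟩
    rw [List.isChain_cons_cons]
    have hn' := List.nodup_cons.1 hn
    refine ⟨?_, pc2_off hc.2 hn'.1⟩
    rcases hc.1 with h1 | h1
    · exact h1
    · rw [SimpleGraph.edge_adj] at h1
      exfalso
      have hy : y ∈ r :: R := by
        have h4 := h.lt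
        rw [List.getLast?_cons_cons, List.getLast?_cons_cons] at h4
        exact List.mem_of_getLast? h4
      rcases h1.1 with ⟨-, h2⟩ | ⟨h2, -⟩
      · exact (List.nodup_cons.1 hn'.2).1 (by rw [h2]; exact hy)
      · exact hn'.1 (by rw [h2]; exact List.mem_cons_of_mem _ hy)

private theorem pc2_he {Hs : List (List V)} {S : Set V} {a b : V} (h : HE Hs S a b) :
    a ∈ Hs.flatten ∧ b ∈ Hs.flatten := by
  obtain ⟨P, hP, hab, -⟩ := h.el
  exact ⟨List.mem_flatten.2 ⟨P, hP, hab.subset (by simp)⟩,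
    List.mem_flatten.2 ⟨P, hP, hab.subset (by simp)⟩⟩

/-- a double hop: a closed walk through the two virtual edges `xu` (closing) and `vy` (on `F`) -/
theorem hop2 {O O' : Set V} {Hs Hs' : List (List V)} (hnd : Hs.flatten.Nodup)
    (hnd' : Hs'.flatten.Nodup) {x y u v : V} {t t' : ℕ}
    (hx : x ∉ Hs.flatten) (hxO : x ∉ O) (hO : ∀ w ∈ Hs.flatten, w ∉ O)
    (hy : y ∉ Hs'.flatten) (hyO : y ∉ O') (hO' : ∀ w ∈ Hs'.flatten, w ∉ O')
    (hu : u ∈ Lg G O Hs x t) (hv : v ∈ Lg G O' Hs' y t') (hvy : v ≠ y) {F C : List V} {c1 c2 : V}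
    (hF : Ch (G ⊔ SimpleGraph.edge v y) u x F) (hFn : F.Nodup) (hFvy : EL F v y)
    (hC : XC G c1 c2 C) (hFC : ∀ w ∈ F, w ∉ C)
    (hs : HS G O Hs x t F C) (hs' : HS G O' Hs' y t' F C)
    (cross : ∀ o ∈ O, AH G O Hs x t o → o ∈ O' → ¬ AH G O' Hs' y t' o)
    (edge : ∀ a b, ¬ NH G O Hs x t a b → NH G O' Hs' y t' a b)
    (virt : NH G O Hs x t v y)
    (h2 : ∃ a b c d, EL F a b ∧ EL F c d ∧ s(a, b) ≠ s(c, d) ∧ s(a, b) ≠ s(v, y) ∧
      s(c, d) ≠ s(v, y) ∧ NH G O Hs x t a b ∧ NH G O Hs x t c d ∧ NH G O' Hs' y t' a b ∧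
      NH G O' Hs' y t' c d) :
    ∃ a b D, Cl G a b D ∧ (∀ w ∈ D, w ∈ F ∨ w ∈ C ∨ w ∈ O ∨ w ∈ O') ∧
      (∀ c d, EL F c d → s(c, d) ≠ s(v, y) → NH G O Hs x t c d → NH G O' Hs' y t' c d →
        EC a b D c d) ∧
      ((∀ w ∈ D, w ∉ C) ∨
        ∀ c d, EL C c d ∨ s(c, d) = s(c1, c2) → NH G O Hs x t c d → NH G O' Hs' y t' c d →
          EC a b D c d) := by
  have hle : G ≤ G ⊔ SimpleGraph.edge v y := le_sup_left
  obtain ⟨w0, hw0, hcon, F', hF', hF'n, m1, e1, k1⟩ := hopX hle hnd hu hF hFn hC hFC hs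
  obtain ⟨K, hK, hKn, hKm⟩ := hcon.link
  have dKF : ∀ w ∈ F', w ∉ K := by
    intro w hw hwK
    obtain ⟨k1, k2, -⟩ := hKm w hwK
    rcases m1 w hw with h | h | ⟨-, h, -⟩
    · exact hs.off w (Or.inl h) k1 (Or.inl k2)
    · exact hs.off w (Or.inr h) k1 (Or.inl k2)
    · exact h k2
  have dKC : ∀ w ∈ K, w ∉ C := fun w hwK hw =>
    hs.off w (Or.inr hw) (hKm w hwK).1 (Or.inl (hKm w hwK).2.1)
  obtain ⟨b, hD, hb⟩ := pc2_close hle hF' hK
  have hDn : (F' ++ K).Nodup := List.nodup_append'.2 ⟨hF'n, hKn, fun w h1 h2 => dKF w h1 h2⟩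
  have hvyF : EL F' v y := e1 v y hFvy virt
  have hin : F' <:+: F' ++ K := (List.prefix_append _ _).isInfix
  obtain ⟨F2, g1, g2, g3, g4⟩ := pc2_open hD hDn hb (hvyF.mono hin)
  have e2 : ∀ c d, EL F' c d → s(c, d) ≠ s(v, y) → EL F2 c d :=
    fun c d h hne => g4 c d (h.mono hin) hne
  obtain ⟨p1, p2, p3, p4, q1, q2, q3, q4, q5, q6, q7, q8, q9⟩ := h2
  have r1 : EL F2 p1 p2 := e2 _ _ (e1 _ _ q1 q6) q4
  have r2 : EL F2 p3 p4 := e2 _ _ (e1 _ _ q2 q7) q5
  have g5 : Ch G v y F2 := pc2_drop g1 g2 (pc2_len r1 r2 q3)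
  have mF2 : ∀ w ∈ F2, w ∈ F' ∨ w ∈ K := fun w hw => List.mem_append.1 ((g3 w).1 hw)
  -- a hull edge of `y` is no virtual edge
  have hne : ∀ τ < t', ∀ a b, HE Hs' (Lg G O' Hs' y τ) a b → s(a, b) ≠ s(v, y) := by
    intro τ _ a b h heq
    obtain ⟨h1, h2⟩ := pc2_he h
    rw [Sym2.eq_iff] at heq
    rcases heq with ⟨-, h3⟩ | ⟨h3, -⟩
    · exact hy (h3 ▸ h2)
    · exact hy (h3 ▸ h1)
  have hnx : ∀ τ < t', ∀ a b, HE Hs' (Lg G O' Hs' y τ) a b → NH G O Hs x t a b := by
    intro τ hτ a b h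
    by_contra hcon
    exact (edge a b hcon τ hτ).1 h
  have hoff : ∀ w, w ∈ F2 → w ∈ O' → ¬ AH G O' Hs' y t' w := by
    intro w hw hwO
    rcases mF2 w hw with h | h
    · rcases m1 w h with h | h | ⟨h4, -, h5⟩
      · exact hs'.off w (Or.inl h) hwO
      · exact hs'.off w (Or.inr h) hwO
      · exact cross w h4 h5 hwO
    · exact cross w (hKm w h).1 (Or.inl (hKm w h).2.1) hwO
  have mem1 : ∀ w ∈ F2, w ∈ F ∨ w ∈ C ∨ w ∈ O ∨ w ∈ O' := by
    intro w hw
    rcases mF2 w hw with h | h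
    · rcases m1 w h with h | h | ⟨h4, -⟩
      · exact Or.inl h
      · exact Or.inr (Or.inl h)
      · exact Or.inr (Or.inr (Or.inl h4))
    · exact Or.inr (Or.inr (Or.inl (hKm w h).1))
  -- the second hop, with the extra cycle `C2`
  have main : ∀ C2 : List V, XC G c1 c2 C2 → (∀ w ∈ F2, w ∉ C2) → (∀ w ∈ C2, w ∈ C) →
      (∀ a b, EL C a b → NH G O Hs x t a b → s(a, b) ≠ s(v, y) → EL F2 a b ∨ EL C2 a b) →
      ∃ a b D, Cl G a b D ∧ (∀ w ∈ D, w ∈ F ∨ w ∈ C ∨ w ∈ O ∨ w ∈ O') ∧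
      (∀ c d, EL F2 c d → NH G O' Hs' y t' c d → EC a b D c d) ∧
      ((∀ w ∈ D, w ∉ C2) ∨
        ∀ c d, EL C2 c d ∨ s(c, d) = s(c1, c2) → NH G O' Hs' y t' c d → EC a b D c d) := by
    intro C2 hC2 hFC2 hCC hEC
    have hs2 : HS G O' Hs' y t' F2 C2 := by
      refine ⟨?_, ?_⟩
      · intro τ hτ a b h
        rcases hs'.hull τ hτ a b h with h1 | h1
        · exact Or.inl (e2 a b (e1 a b h1 (hnx τ hτ a b h)) (hne τ hτ a b h))
        · exact hEC a b h1 (hnx τ hτ a b h) (hne τ hτ a b h)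
      · intro w hw hwO
        rcases hw with hw | hw
        · exact hoff w hw hwO
        · exact hs'.off w (Or.inr (hCC w hw)) hwO
    obtain ⟨w1, hw1, hcon', F3, hF3, hF3n, m3, e3, k3⟩ :=
      hopX le_rfl hnd' hv g5 g2 hC2 hFC2 hs2
    obtain ⟨K', hK', hKn', hKm'⟩ := hcon'.link
    have dKF' : ∀ w ∈ F3, w ∉ K' := by
      intro w hw hwK
      obtain ⟨k1, k2, -⟩ := hKm' w hwK
      rcases m3 w hw with h | h | ⟨-, h, -⟩
      · exact hs2.off w (Or.inl h) k1 (Or.inl k2)
      · exact hs2.off w (Or.inr h) k1 (Or.inl k2)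
      · exact h k2
    have dKC' : ∀ w ∈ K', w ∉ C2 := fun w hwK hw =>
      hs2.off w (Or.inr hw) (hKm' w hwK).1 (Or.inl (hKm' w hwK).2.1)
    obtain ⟨b', hD', hb'⟩ := pc2_close le_rfl hF3 hK'
    have hDn' : (F3 ++ K').Nodup :=
      List.nodup_append'.2 ⟨hF3n, hKn', fun w h1 h2 => dKF' w h1 h2⟩
    have hin' : F3 <:+: F3 ++ K' := (List.prefix_append _ _).isInfix
    refine ⟨w1, b', F3 ++ K', ⟨hD', hDn', hb', ?_⟩, ?_, ?_, ?_⟩
    · have h5 := pc2_len (e3 _ _ r1 q8) (e3 _ _ r2 q9) q3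
      rw [List.length_append]
      omega
    · intro w hw
      rcases List.mem_append.1 hw with h | h
      · rcases m3 w h with h | h | ⟨h, -⟩
        · exact mem1 w h
        · exact Or.inr (Or.inl (hCC w h))
        · exact Or.inr (Or.inr (Or.inr h))
      · exact Or.inr (Or.inr (Or.inr (hKm' w h).1))
    · intro c d h h'
      exact Or.inl ((e3 c d h h').mono hin')
    · rcases k3 with h | h
      · left
        intro w hw
        rcases List.mem_append.1 hw with h' | h'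
        · exact h w h'
        · exact dKC' w h'
      · right
        intro c d h1 h4
        exact Or.inl ((h c d h1 h4).mono hin')
  by_cases hCe : C = []
  · obtain ⟨a, b', D, d1, d2, d3, -⟩ := main [] (Or.inl rfl) (by simp) (by simp) (by
      intro a b h _ _
      rw [hCe] at h
      exact Or.inr h)
    refine ⟨a, b', D, d1, d2, ?_, Or.inl (by rw [hCe]; simp)⟩
    intro c d h1 h3 h4 h5
    exact d3 c d (e2 c d (e1 c d h1 h4) h3) h5
  · -- pairs of `C` are no virtual edges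
    have hCvy : ∀ c d, c ∈ C → s(c, d) ≠ s(v, y) := by
      intro c d hc heq
      rw [Sym2.eq_iff] at heq
      rcases heq with ⟨h3, -⟩ | ⟨h3, -⟩
      · exact hFC c (h3 ▸ hFvy.memL) hc
      · exact hFC c (h3 ▸ hFvy.memR) hc
    have hc1 : c1 ∈ C := by
      rcases hC with h | ⟨h, -⟩
      · exact absurd h hCe
      · exact h.memL
    have hCvy' : ∀ c d, EL C c d ∨ s(c, d) = s(c1, c2) → s(c, d) ≠ s(v, y) := by
      intro c d h
      rcases h with h | h
      · exact hCvy c d h.memL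
      · rw [h]
        exact hCvy c1 c2 hc1
    rcases k1 with h | h
    · -- `C` untouched by the first hop
      obtain ⟨a, b', D, d1, d2, d3, d4⟩ := main C hC (by
        intro w hw
        rcases mF2 w hw with h' | h'
        · exact h w h'
        · exact dKC w h') (fun w hw => hw) (fun a b h _ _ => Or.inr h)
      refine ⟨a, b', D, d1, d2, ?_, ?_⟩
      · intro c d h1 h3 h4 h5
        exact d3 c d (e2 c d (e1 c d h1 h4) h3) h5
      · rcases d4 with d4 | d4
        · exact Or.inl d4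
        · exact Or.inr (fun c d h1 _ h5 => d4 c d h1 h5)
    · -- `C` absorbed by the first hop
      obtain ⟨a, b', D, d1, d2, d3, -⟩ := main [] (Or.inl rfl) (by simp) (by simp) (by
        intro a b h1 h4 h5
        exact Or.inl (e2 a b (h a b (Or.inl h1) h4) h5))
      refine ⟨a, b', D, d1, d2, ?_, Or.inr ?_⟩
      · intro c d h1 h3 h4 h5
        exact d3 c d (e2 c d (e1 c d h1 h4) h3) h5
      · intro c d h1 h4 h5
        exact d3 c d (e2 c d (h c d h1 h4) (hCvy' c d h1)) h5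

end Pool.Agent.LW
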