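import Pool.Agent.LW.PC1

set_option autoImplicit false

/-!
# Single hop, closed
-/

namespace Pool.Agent.LW

open SimpleGraph Classical

universe w

variable {V : Type w} {G H : SimpleGraph V} {L : Finset (Sym2 V)} {k : ℕ}


/-- a list with at most two elements has at most one pair -/
private theorem pc3_two {F : List V} {a b c d : V} (h1 : EL F a b) (h2 : EL F c d)
    (hne : s(a, b) ≠ s(c, d)) : 3 ≤ F.length := by
  by_contra hlen
  have key : ∀ a b : V, EL F a b → F = [a, b] ∨ F = [b, a] := by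
    intro a b h
    rcases h with h | h
    · have h3 := h.length_le
      simp only [List.length_cons, List.length_nil] at h3
      exact Or.inl (h.eq_of_length (by simp only [List.length_cons, List.length_nil]; omega)).symm
    · have h3 := h.length_le
      simp only [List.length_cons, List.length_nil] at h3
      exact Or.inr (h.eq_of_length (by simp only [List.length_cons, List.length_nil]; omega)).symm
  apply hne
  rw [Sym2.eq_iff]
  rcases key a b h1 with h3 | h3 <;> rcases key c d h2 with h4 | h4 <;> rw [h3] at h4 <;>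
    simp only [List.cons.injEq, and_true] at h4
  · exact Or.inl h4
  · exact Or.inr ⟨h4.1, h4.2⟩
  · exact Or.inr ⟨h4.2, h4.1⟩
  · exact Or.inl ⟨h4.2, h4.1⟩

/-- cutting off the last vertex of a walk -/
private theorem pc3_cut {x w0 : V} {K : List V} (h : Ch G x w0 (x :: (K ++ [w0]))) :
    ∃ e, Ch G x e (x :: K) ∧ G.Adj e w0 := by
  have h1 : ((x :: K) ++ [w0]).IsChain G.Adj := by simpa using h.ch
  obtain ⟨h2, -, h3⟩ := List.isChain_append.1 h1
  refine ⟨(x :: K).getLast (by simp), ⟨rfl, List.getLast?_eq_some_getLast (by simp), h2⟩, ?_⟩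
  exact h3 _ (by rw [List.getLast?_eq_some_getLast (by simp)]; rfl) w0 (by simp)

/-- a single hop, closed to a cycle -/
theorem hop1 {O : Set V} {Hs : List (List V)} (hnd : Hs.flatten.Nodup) {x u : V} {t : ℕ}
    (hx : x ∉ Hs.flatten) (hxO : x ∉ O) (hO : ∀ v ∈ Hs.flatten, v ∉ O)
    (hu : u ∈ Lg G O Hs x t) {F C : List V} {c1 c2 : V} (hF : Ch G u x F) (hFn : F.Nodup)
    (hC : XC G c1 c2 C) (hFC : ∀ v ∈ F, v ∉ C) (hs : HS G O Hs x t F C)
    (h2 : ∃ a b c d, EL F a b ∧ EL F c d ∧ s(a, b) ≠ s(c, d) ∧ NH G O Hs x t a b ∧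
      NH G O Hs x t c d) :
    ∃ a b D, Cl G a b D ∧ (∀ v ∈ D, v ∈ F ∨ v ∈ C ∨ v ∈ O) ∧
      (∀ c d, EL F c d → NH G O Hs x t c d → EC a b D c d) ∧
      ((∀ v ∈ D, v ∉ C) ∨
        ∀ c d, EL C c d ∨ s(c, d) = s(c1, c2) → NH G O Hs x t c d → EC a b D c d) := by
  obtain ⟨w0, hw0, hcon, F', hF', hFn', hmem, hF1, hF2⟩ :=
    hopX (le_refl G) hnd hu hF hFn hC hFC hs
  obtain ⟨K, hK, hKn, hKO⟩ := hcon.link
  obtain ⟨e, he, hew⟩ := pc3_cut hK
  obtain ⟨F0, hF0⟩ : ∃ F0, F' = F0 ++ [x] := by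
    have h3 := hF'.lt
    exact ⟨F'.dropLast, (List.dropLast_append_getLast? x h3).symm⟩
  have hKF : ∀ v ∈ K, v ∉ F' ∧ v ∉ C := by
    intro v hv
    obtain ⟨hvO, hvx, -⟩ := hKO v hv
    have hAH : AH G O Hs x t v := Or.inl hvx
    refine ⟨fun hvF => ?_, fun hvC => hs.off v (Or.inr hvC) hvO hAH⟩
    rcases hmem v hvF with h3 | h3 | h3
    · exact hs.off v (Or.inl h3) hvO hAH
    · exact hs.off v (Or.inr h3) hvO hAH
    · exact h3.2.1 hvx
  have hinf : F' <:+: F' ++ K := (List.prefix_append F' K).isInfix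
  refine ⟨w0, e, F' ++ K, ⟨?_, ?_, hew, ?_⟩, ?_, ?_, ?_⟩
  · rw [hF0] at hF' ⊢
    have h3 := hF'.glue he
    simpa using h3
  · rw [List.nodup_append']
    exact ⟨hFn', hKn, fun v hv hvK => (hKF v hvK).1 hv⟩
  · obtain ⟨a, b, c, d, h3, h4, h5, h6, h7⟩ := h2
    have h8 := pc3_two (hF1 a b h3 h6) (hF1 c d h4 h7) h5
    rw [List.length_append]
    omega
  · intro v hv
    rcases List.mem_append.1 hv with h3 | h3
    · rcases hmem v h3 with h4 | h4 | h4
      · exact Or.inl h4
      · exact Or.inr (Or.inl h4)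
      · exact Or.inr (Or.inr h4.1)
    · exact Or.inr (Or.inr (hKO v h3).1)
  · intro c d h3 h4
    exact Or.inl ((hF1 c d h3 h4).mono hinf)
  · rcases hF2 with h3 | h3
    · left
      intro v hv
      rcases List.mem_append.1 hv with h4 | h4
      · exact h3 v h4
      · exact (hKF v h4).2
    · right
      intro c d h4 h5
      exact Or.inl ((h3 c d h4 h5).mono hinf)

end Pool.Agent.LW
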