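import Pool.Agent.LW.PC3
import Pool.Agent.LW.PB5
import Pool.Agent.LW.PB4

set_option autoImplicit false

/-!
# L-paths: the ends are not in each other closure
-/

namespace Pool.Agent.LW

open SimpleGraph Classical

universe w

variable {V : Type w} {G H : SimpleGraph V} {L : Finset (Sym2 V)} {k : ℕ}
  {x y : V} {Ps Qs : List (List V)}

/-- a pair of an `L`-edge is no hull edge for the hosts of an `L`-path -/
private theorem pd1_nh (S : Bs G L k) (T : TP G L x y Qs) {z g : V} {O : Set V} {t : ℕ} {a b : V}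
    (hab : s(a, b) ∈ L) : NH G O (Qs ++ [[z]]) g t a b := by
  have key : ∀ c d : V, s(c, d) ∈ L → ∀ X : Set V, ¬ HE (Qs ++ [[z]]) X c d := by
    intro c d hcd X h
    obtain ⟨P, hP, hi, -⟩ := h.el
    rcases List.mem_append.1 hP with hP | hP
    · exact T.noQ S.ind hP hcd (Or.inl hi)
    · rw [List.mem_singleton.1 hP] at hi
      have := hi.length_le
      simp at this
  intro τ _
  exact ⟨key a b hab _, key b a (by rw [Sym2.eq_swap]; exact hab) _⟩

/-- a segment is a part of the path -/
private theorem pd1_sub {Q : List V} (hQ : Q ∈ Qs) : Q <:+: RL x y Qs := by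
  obtain ⟨Q1, Q2, rfl⟩ := List.append_of_mem hQ
  refine ⟨x :: Q1.flatten, Q2.flatten ++ [y], ?_⟩
  simp [RL]

/-- two different edges of `L` -/
private theorem pd1_two (S : Bs G L k) : ∃ a b c d : V, s(a, b) ∈ L ∧ s(c, d) ∈ L ∧
    s(a, b) ≠ s(c, d) := by
  have h1 : 1 < L.card := by
    have := S.card
    have := S.k2
    omega
  obtain ⟨e, he, f, hf, hef⟩ := Finset.one_lt_card.1 h1
  induction e using Sym2.inductionOn with
  | _ a b =>
    induction f using Sym2.inductionOn with
    | _ c d => exact ⟨a, b, c, d, he, hf, hef⟩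

/-- (T0) -/
theorem tp_K0 (S : Bs G L k) (T : TP G L x y Qs) :
    y ∉ Xg G (OT x y Qs) (Qs ++ [[y]]) x := by
  rintro ⟨t, hy⟩
  have hnd : (x :: (Qs.flatten ++ [y])).Nodup := T.nd
  have hnd' := List.nodup_cons.1 hnd
  have hfl : (Qs ++ [[y]]).flatten = Qs.flatten ++ [y] := by simp
  have hCh : Ch G y x (RL x y Qs).reverse := (lk_ch S.sub T.lk).reverse
  obtain ⟨a, b, c, d, hab, hcd, hne⟩ := pd1_two S
  have hel : ∀ c d, s(c, d) ∈ L → EL (RL x y Qs).reverse c d := fun c d h =>
    (T.cov S.ind h).reverse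
  obtain ⟨p, q, D, hD, -, h3, -⟩ := hop1 (G := G) (O := OT x y Qs) (Hs := Qs ++ [[y]]) (x := x)
    (u := y) (t := t) (F := (RL x y Qs).reverse) (C := []) (c1 := x) (c2 := x)
    (by rw [hfl]; exact hnd'.2) (by rw [hfl]; exact hnd'.1)
    (by intro h; exact h (by simp [RL]))
    (by
      intro v hv h
      rw [hfl] at hv
      exact h (List.mem_cons_of_mem _ hv))
    hy hCh (List.nodup_reverse.2 T.nd) (Or.inl rfl) (by simp)
    ⟨by
      intro τ _ a b h
      obtain ⟨P, hP, hi, -⟩ := h.el
      left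
      rcases List.mem_append.1 hP with hP | hP
      · exact (EL.mono (Or.inl hi) (pd1_sub hP)).reverse
      · rw [List.mem_singleton.1 hP] at hi
        have := hi.length_le
        simp at this, by
      intro v hv hO
      rcases hv with hv | hv
      · exact absurd (List.mem_reverse.1 hv) hO
      · simp at hv⟩
    ⟨a, b, c, d, hel a b hab, hel c d hcd, hne, pd1_nh S T hab, pd1_nh S T hcd⟩
  obtain ⟨Ps, hPs⟩ := full_of_closed S.ind ⟨_, hab⟩ hD.ch hD.nd hD.cl hD.len
    (fun c d h => h3 c d (hel c d h) (pd1_nh S T h))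
  exact S.no Ps hPs

theorem tp_K0' (S : Bs G L k) (T : TP G L x y Qs) :
    x ∉ Xg G (OT x y Qs) (Qs ++ [[x]]) y := by
  have h := tp_K0 S T.rev
  rw [OT_rev] at h
  have he : Eqv (rv Qs ++ [[x]]) (Qs ++ [[x]]) := by
    constructor
    · intro P hP
      rcases List.mem_append.1 hP with hP | hP
      · exact Or.inr (List.mem_append_left _ (mem_rv.1 hP))
      · exact Or.inl (List.mem_append_right _ hP)
    · intro P hP
      rcases List.mem_append.1 hP with hP | hP
      · refine Or.inr (List.mem_append_left _ (mem_rv.2 ?_))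
        rw [List.reverse_reverse]
        exact hP
      · exact Or.inl (List.mem_append_right _ hP)
  rw [he.xg] at h
  exact h

end Pool.Agent.LW
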