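import Pool.Agent.LW.PD1
import Pool.Agent.LW.PB2

set_option autoImplicit false

/-!
# L-paths: minimality
-/

namespace Pool.Agent.LW

open SimpleGraph Classical

universe w

variable {V : Type w} {G H : SimpleGraph V} {L : Finset (Sym2 V)} {k : ℕ}
  {x y : V} {Ps Qs : List (List V)}

private theorem pd2_con {O : Set V} {h v : V} {A : List V}
    (hch : (h :: (A ++ [v])).IsChain G.Adj) (hA : ∀ u ∈ A, u ∈ O) : Con G O h v := by
  cases A with
  | nil =>
    left
    simpa using hch
  | cons p A =>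
    right
    obtain ⟨a, b, hab⟩ := Ch.ex (H := G) (F := p :: A)
      (chain_of_inf hch ⟨[h], [v], by simp⟩) (by simp)
    have hap : a = p := by
      have := hab.hd
      simpa using this.symm
    subst hap
    have h1 : G.Adj h a := by
      simp only [List.cons_append, List.isChain_cons_cons] at hch
      exact hch.1
    have h2 : G.Adj b v := by
      have h3 : (h :: ((a :: A) ++ [v])) = (h :: (a :: A)) ++ [v] := by simp
      rw [h3, List.isChain_append] at hch
      refine hch.2.2 b ?_ v (by simp)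
      have h4 := hab.lt
      rw [Option.mem_def, List.getLast?_cons_cons]
      exact h4
    exact ⟨b, ⟨a, h1, a :: A, hab, hA⟩, h2⟩

/-- the claim for level `t` -/
private theorem pd2_main (S : Bs G L k) {c : ℕ} (hmin : MinC G L c) (T : TP G L x y Qs) (t : ℕ) :
    ∀ (Q1 Q2 : List (List V)) (Q : List V), Qs = Q1 ++ Q :: Q2 → Q1.length + 1 < c → Q2 ≠ [] →
      ∀ v ∈ Lg G (OT x y Qs) (Qs ++ [[x]]) y t, v ∈ Q → Q.head? = some v := by
  induction t using Nat.strong_induction_on with
  | _ t IH =>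
  intro Q1 Q2 Q hQs hc hQ2 v hv hvQ
  by_contra hhd
  -- basic facts
  have hRLn : (RL x y Qs).Nodup := T.nd
  have hfl : (Qs ++ [[x]]).flatten = Qs.flatten ++ [x] := by simp
  have hnd : (Qs ++ [[x]]).flatten.Nodup := by
    have hp : (RL x y Qs).Perm (y :: (Qs.flatten ++ [x])) := by
      unfold RL
      rw [List.perm_iff_count]
      intro a
      simp only [List.count_cons, List.count_append, List.count_nil]
      omega
    rw [hfl]
    exact (List.nodup_cons.1 (hp.nodup hRLn)).2
  have hy : y ∉ (Qs ++ [[x]]).flatten := by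
    have hp : (RL x y Qs).Perm (y :: (Qs.flatten ++ [x])) := by
      unfold RL
      rw [List.perm_iff_count]
      intro a
      simp only [List.count_cons, List.count_append, List.count_nil]
      omega
    rw [hfl]
    exact (List.nodup_cons.1 (hp.nodup hRLn)).1
  have hOT : ∀ v, v ∈ RL x y Qs → v ∉ OT x y Qs := fun v h h' => h' h
  have hyO : y ∉ OT x y Qs := hOT y (mem_RL.2 (Or.inr (Or.inr rfl)))
  have hOO : ∀ v ∈ (Qs ++ [[x]]).flatten, v ∉ OT x y Qs := by
    intro u hu
    rw [hfl] at hu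
    apply hOT
    rw [mem_RL]
    rcases List.mem_append.1 hu with h | h
    · exact Or.inr (Or.inl h)
    · left; simpa using h
  -- the position of `v`
  obtain ⟨A, D, hQ⟩ := List.append_of_mem hvQ
  have hA : A ≠ [] := by
    rintro rfl
    rw [hQ] at hhd
    simp at hhd
  obtain ⟨h, A', rfl⟩ : ∃ h A', A = h :: A' := by
    cases A with
    | nil => exact absurd rfl hA
    | cons h A' => exact ⟨h, A', rfl⟩
  have hlk := T.lk
  rw [hQs, hQ] at hlk
  have hF := lk_ch_right S.sub hlk
  set F : List V := (v :: D) ++ (Q2.flatten ++ [y]) with hFdef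
  have hRL : RL x y Qs = (x :: Q1.flatten) ++ h :: (A' ++ F) := by
    rw [hQs, hQ, hFdef]
    simp [RL]
  have hRLh : (x :: Q1.flatten) ++ [h] = RL x h Q1 := by simp [RL]
  have hRL2 : RL x y Qs = RL x h Q1 ++ (A' ++ F) := by
    rw [hRL, ← hRLh]
    simp
  have hQmem : Q ∈ Qs := by rw [hQs]; simp
  -- no hull of lower level on the first segments
  have noHE : ∀ τ < t, ∀ (R1 R2 : List (List V)) (R : List V), Qs = R1 ++ R :: R2 →
      R1.length + 1 < c → R2 ≠ [] → ∀ a ∈ R, ∀ b, ¬ HE (Qs ++ [[x]])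
        (Lg G (OT x y Qs) (Qs ++ [[x]]) y τ) a b := by
    intro τ hτ R1 R2 R hR hR1 hR2 a ha b hHE
    obtain ⟨P, hP, hab, s, hs, s', hs', hsP, hs'P, hne⟩ := hHE.two hnd
    have hRQ : R ∈ Qs ++ [[x]] := by rw [hR]; simp
    have hPR : P = R := flat_same hnd hP hRQ (hab.subset (by simp)) ha
    subst hPR
    have h1 := IH τ hτ R1 R2 P hR hR1 hR2 s hs hsP
    have h2 := IH τ hτ R1 R2 P hR hR1 hR2 s' hs' hs'P
    exact hne (by simpa using h1.symm.trans h2)
  have noHE' : ∀ τ < t, ∀ (R1 R2 : List (List V)) (R : List V), Qs = R1 ++ R :: R2 →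
      R1.length + 1 < c → R2 ≠ [] → ∀ b ∈ R, ∀ a, ¬ HE (Qs ++ [[x]])
        (Lg G (OT x y Qs) (Qs ++ [[x]]) y τ) a b := by
    intro τ hτ R1 R2 R hR hR1 hR2 b hb a hHE
    obtain ⟨P, hP, hab, s, hs, s', hs', hsP, hs'P, hne⟩ := hHE.two hnd
    have hRQ : R ∈ Qs ++ [[x]] := by rw [hR]; simp
    have hPR : P = R := flat_same hnd hP hRQ (hab.subset (by simp)) hb
    subst hPR
    have h1 := IH τ hτ R1 R2 P hR hR1 hR2 s hs hsP
    have h2 := IH τ hτ R1 R2 P hR hR1 hR2 s' hs' hs'P
    exact hne (by simpa using h1.symm.trans h2)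
  -- edges of `L` are no hull edges
  have noL : ∀ a b, s(a, b) ∈ L → NH G (OT x y Qs) (Qs ++ [[x]]) y t a b := by
    have key : ∀ a b, s(a, b) ∈ L → ∀ τ, ¬ HE (Qs ++ [[x]])
        (Lg G (OT x y Qs) (Qs ++ [[x]]) y τ) a b := by
      intro a b hab τ hHE
      obtain ⟨P, hP, hin, -⟩ := hHE.two hnd
      rcases List.mem_append.1 hP with hP | hP
      · exact T.noQ S.ind hP hab (Or.inl hin)
      · have hP' : P = [x] := by simpa using hP
        rw [hP'] at hin
        have := hin.length_le
        simp at this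
    intro a b hab τ _
    exact ⟨key a b hab τ, key b a (by rw [Sym2.eq_swap]; exact hab) τ⟩
  -- the first pair of `F`
  obtain ⟨w, F1, hF1⟩ : ∃ w F1, F = v :: w :: F1 := by
    rw [hFdef]
    cases D with
    | cons w D => exact ⟨w, D ++ (Q2.flatten ++ [y]), by simp⟩
    | nil =>
      cases hq : Q2.flatten ++ [y] with
      | nil => simp at hq
      | cons w F1 => exact ⟨w, F1, by simp⟩
  have hvw : EL F v w := by
    rw [hF1]
    exact EL.intro (A := [])
  have nhvw : NH G (OT x y Qs) (Qs ++ [[x]]) y t v w := by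
    intro τ hτ
    exact ⟨noHE τ hτ Q1 Q2 Q hQs hc hQ2 v hvQ w, noHE' τ hτ Q1 Q2 Q hQs hc hQ2 v hvQ w⟩
  have hFsub : ∀ u ∈ F, u ∈ RL x y Qs := by
    intro u hu
    rw [hRL2]
    simp only [List.mem_append]
    exact Or.inr (Or.inr hu)
  -- two edges of `L` on `F`
  obtain ⟨c0, d0, l1, ch0, l2⟩ := hlk.split
  have hhc : h = c0 := by
    have := ch0.hd
    simpa using this
  subst hhc
  obtain ⟨R, Q2', hQ2'⟩ : ∃ R Q2', Q2 = R :: Q2' := by
    cases Q2 with
    | nil => exact absurd rfl hQ2
    | cons R Q2' => exact ⟨R, Q2', rfl⟩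
  have e1 : ∃ a b, s(a, b) ∈ L ∧ EL F a b ∧ a ≠ y ∧ b ≠ y := by
    rw [hQ2'] at l2
    obtain ⟨c', d', l3, ch1, l4⟩ := l2
    have hc'R : c' ∈ R := ch1.memL
    have hd0 : d0 ∈ v :: D := by
      have h1 := ch0.lt
      rw [List.getLast?_append_of_ne_nil _ (by simp)] at h1
      exact List.mem_of_getLast? h1
    refine ⟨d0, c', l3, ?_, ?_, ?_⟩
    · obtain ⟨D', hD'⟩ : ∃ D', v :: D = D' ++ [d0] := by
        have h1 := ch0.lt
        rw [List.getLast?_append_of_ne_nil _ (by simp)] at h1
        exact ⟨(v :: D).dropLast, (List.dropLast_append_getLast? d0 h1).symm⟩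
      obtain ⟨R', hR'⟩ : ∃ R', R = c' :: R' := by
        have h1 := ch1.hd
        cases R with
        | nil => simp at h1
        | cons p R' =>
          simp only [List.head?_cons, Option.some.injEq] at h1
          exact ⟨R', by rw [h1]⟩
      rw [hFdef, hD', hQ2', hR']
      have : EL (D' ++ d0 :: c' :: (R' ++ Q2'.flatten ++ [y])) d0 c' := EL.intro
      simpa using this
    · rintro rfl
      apply hy
      rw [hfl]
      apply List.mem_append_left
      refine List.mem_flatten.2 ⟨Q, hQmem, ?_⟩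
      rw [hQ]
      exact List.mem_append_right _ hd0
    · rintro rfl
      apply hy
      rw [hfl]
      apply List.mem_append_left
      refine List.mem_flatten.2 ⟨R, ?_, hc'R⟩
      rw [hQs, hQ2']
      simp
  have e2 : ∃ a, s(a, y) ∈ L ∧ EL F a y := by
    obtain ⟨R3, R, hR3⟩ : ∃ R3 R, Q2 = R3 ++ [R] := by
      refine ⟨Q2.dropLast, Q2.getLast hQ2, (List.dropLast_append_getLast hQ2).symm⟩
    have l5 := l2
    rw [hR3] at l5
    obtain ⟨c', d', l6, ch1, l7⟩ := l5.split
    obtain ⟨R', hR'⟩ : ∃ R', R = R' ++ [d'] :=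
      ⟨R.dropLast, (List.dropLast_append_getLast? d' ch1.lt).symm⟩
    refine ⟨d', l7, ?_⟩
    rw [hFdef, hR3, hR']
    have : EL ((v :: D ++ R3.flatten ++ R') ++ d' :: y :: []) d' y := EL.intro
    simpa using this
  obtain ⟨a1, b1, hL1, hE1, ha1, hb1⟩ := e1
  obtain ⟨a2, hL2, hE2⟩ := e2
  -- the hop
  have hs : HS G (OT x y Qs) (Qs ++ [[x]]) y t F [] := by
    refine ⟨?_, ?_⟩
    · intro τ hτ a b hHE
      left
      obtain ⟨P, hP, hin, -⟩ := hHE.two hnd
      rcases List.mem_append.1 hP with hP | hP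
      · rw [hQs] at hP
        rcases List.mem_append.1 hP with hP | hP
        · exfalso
          obtain ⟨R1, R2, hR⟩ := List.append_of_mem hP
          refine noHE τ hτ R1 (R2 ++ Q :: Q2) P ?_ ?_ (by simp) a (hin.subset (by simp)) b hHE
          · rw [hQs, hR]; simp
          · rw [hR] at hc
            simp only [List.length_append, List.length_cons] at hc
            omega
        · rcases List.mem_cons.1 hP with hP | hP
          · exfalso
            subst hP
            exact noHE τ hτ Q1 Q2 P hQs hc hQ2 a (hin.subset (by simp)) b hHE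
          · obtain ⟨R1, R2, hR⟩ := List.append_of_mem hP
            left
            refine hin.trans ?_
            rw [hFdef, hR]
            exact ⟨v :: D ++ R1.flatten, R2.flatten ++ [y], by simp⟩
      · exfalso
        have hP' : P = [x] := by simpa using hP
        rw [hP'] at hin
        have := hin.length_le
        simp at this
    · intro u hu huO
      rcases hu with hu | hu
      · exact absurd huO (hOT u (hFsub u hu))
      · simp at hu
  have hFn : F.Nodup := by
    rw [hRL2] at hRLn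
    exact (List.nodup_append'.1 (List.nodup_append'.1 hRLn).2.1).2.1
  obtain ⟨a, b, D', hCl, hD1, hD2, -⟩ := hop1 hnd hy hyO hOO hv hF hFn
    (C := []) (c1 := v) (c2 := v) (Or.inl rfl) (by simp) hs
    ⟨a1, b1, a2, y, hE1, hE2, by
      intro he
      rcases Sym2.eq_iff.1 he with ⟨_, h1⟩ | ⟨h1, _⟩
      · exact hb1 h1
      · exact ha1 h1, noL _ _ hL1, noL _ _ hL2⟩
  have hD1' : ∀ u ∈ D', u ∈ F ∨ u ∈ OT x y Qs := by
    intro u hu
    rcases hD1 u hu with h1 | h1 | h1
    · exact Or.inl h1
    · simp at h1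
    · exact Or.inr h1
  -- the rest of the path
  have hRP : RP G L x h Q1 := by
    refine ⟨?_, ?_, l1⟩
    · rw [hRL2] at hRLn
      exact (List.nodup_append'.1 hRLn).1
    · intro R hR
      apply T.two
      rw [hQs]
      exact List.mem_append_left _ hR
  have hdis : ∀ u ∈ F, u ∉ RL x h Q1 ∧ u ∉ A' := by
    rw [hRL2] at hRLn
    intro u hu
    refine ⟨fun h1 => ?_, fun h1 => ?_⟩
    · exact (List.nodup_append'.1 hRLn).2.2 h1 (List.mem_append_right _ hu)
    · exact (List.nodup_append'.1 (List.nodup_append'.1 hRLn).2.1).2.2 h1 hu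
  have hdA : ∀ u ∈ A', u ∉ RL x h Q1 := by
    rw [hRL2] at hRLn
    intro u hu h1
    exact (List.nodup_append'.1 hRLn).2.2 h1 (List.mem_append_left _ hu)
  have hM : ∀ R ∈ Q1, ∀ c d, s(c, d) ∈ L → ¬ EL R c d := by
    intro R hR c d hcd
    refine T.noQ S.ind ?_ hcd
    rw [hQs]
    exact List.mem_append_left _ hR
  have hd : ∀ u ∈ D', u ∉ RL x h Q1 := by
    intro u hu h1
    rcases hD1' u hu with h2 | h2
    · exact (hdis u h2).1 h1
    · apply h2
      rw [hRL2]
      exact List.mem_append_left _ h1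
  have cov : ∀ c d, s(c, d) ∈ L → EC a b D' c d ∨ EL (RL x h Q1) c d := by
    intro c d hcd
    have h1 := T.cov S.ind hcd
    rw [hRL] at h1
    rcases h1.split with h1 | h1
    · right
      rw [← hRLh]
      exact h1
    · left
      have h2 : h :: (A' ++ F) = (h :: A') ++ v :: (w :: F1) := by
        rw [hF1]; simp
      rw [h2] at h1
      rcases h1.split with h1 | h1
      · exfalso
        refine T.noQ S.ind hQmem hcd (h1.mono ?_)
        rw [hQ]
        exact ⟨[], D, by simp⟩
      · rw [← hF1] at h1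
        exact hD2 c d h1 (noL c d hcd)
  obtain ⟨Ps, hPs, hLC⟩ := lc_of_closed S.ind hCl hRP hM hd hL1 (hD2 a1 b1 hE1 (noL _ _ hL1)) cov
  have hvD : v ∈ D' := by
    rcases hD2 v w hvw nhvw with h1 | h1
    · exact h1.memL
    · rcases Sym2.eq_iff.1 h1 with ⟨h2, -⟩ | ⟨h2, -⟩
      · rw [h2]; exact hCl.ch.memL
      · rw [h2]; exact hCl.ch.memR
  have hLkd : Lkd G x h Ps Q1 := by
    refine ⟨v, hPs.mem_iff.2 hvD, ?_⟩
    refine pd2_con (A := A') ?_ ?_
    · have h1 := T.lk.chain Q hQmem
      refine chain_of_inf h1 ⟨[], D, ?_⟩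
      rw [hQ]
      simp
    · intro u hu
      refine ⟨?_, hdA u hu⟩
      rw [hPs.mem_iff]
      intro h1
      rcases hD1' u h1 with h2 | h2
      · exact (hdis u h2).2 hu
      · apply h2
        rw [hRL2]
        exact List.mem_append_right _ (List.mem_append_left _ hu)
  have := hmin x h Ps Q1 hLC hLkd
  omega

/-- (T2): the closure of `y` meets each of the first `c - 1` segments at most in its first vertex -/
theorem tp_K2 (S : Bs G L k) {c : ℕ} (hmin : MinC G L c) {Q1 Q2 : List (List V)} {Q : List V}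
    (T : TP G L x y (Q1 ++ Q :: Q2)) (hc : Q1.length + 1 < c) (hQ2 : Q2 ≠ []) {v : V}
    (hv : v ∈ Xg G (OT x y (Q1 ++ Q :: Q2)) ((Q1 ++ Q :: Q2) ++ [[x]]) y) (hvQ : v ∈ Q) :
    Q.head? = some v := by
  obtain ⟨t, hv⟩ := hv
  exact pd2_main S hmin T t Q1 Q2 Q rfl hc hQ2 v hv hvQ

/-- (T2) mirrored -/
theorem tp_K2' (S : Bs G L k) {c : ℕ} (hmin : MinC G L c) {Q1 Q2 : List (List V)} {Q : List V}
    (T : TP G L x y (Q1 ++ Q :: Q2)) (hc : Q2.length + 1 < c) (hQ1 : Q1 ≠ []) {v : V}
    (hv : v ∈ Xg G (OT x y (Q1 ++ Q :: Q2)) ((Q1 ++ Q :: Q2) ++ [[y]]) x) (hvQ : v ∈ Q) :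
    Q.getLast? = some v := by
  have hrv : rv (Q1 ++ Q :: Q2) = rv Q2 ++ Q.reverse :: rv Q1 := by simp
  have T' := T.rev
  rw [hrv] at T'
  have hE : Eqv ((Q1 ++ Q :: Q2) ++ [[y]]) ((rv Q2 ++ Q.reverse :: rv Q1) ++ [[y]]) := by
    rw [← hrv]
    constructor
    · intro P hP
      rcases List.mem_append.1 hP with hP | hP
      · right
        apply List.mem_append_left
        rw [mem_rv, List.reverse_reverse]
        exact hP
      · left
        exact List.mem_append_right _ hP
    · intro P hP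
      rcases List.mem_append.1 hP with hP | hP
      · right
        apply List.mem_append_left
        exact mem_rv.1 hP
      · left
        exact List.mem_append_right _ hP
  have hv' : v ∈ Xg G (OT y x (rv Q2 ++ Q.reverse :: rv Q1))
      ((rv Q2 ++ Q.reverse :: rv Q1) ++ [[y]]) x := by
    rw [← hE.xg, ← hrv, OT_rev]
    exact hv
  have h1 := tp_K2 S hmin T' (by rw [length_rv]; exact hc) (by
    intro h
    apply hQ1
    have := congrArg List.length h
    rw [length_rv] at this
    exact List.length_eq_zero_iff.1 (by simpa using this)) hv' (by simpa using hvQ)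
  rwa [List.head?_reverse] at h1

end Pool.Agent.LW
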