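import Pool.Agent.LW.PD1

set_option autoImplicit false

/-!
# L-paths: counting
-/

namespace Pool.Agent.LW

open SimpleGraph Classical

universe w

variable {V : Type w} {G H : SimpleGraph V} {L : Finset (Sym2 V)} {k : ℕ}
  {x y : V} {Ps Qs : List (List V)}

private theorem pd3_gen [Fintype V] (S : Bs G L k) {O : Set V} {u z : V}
    (hO : ∀ v, v ∉ O ↔ v = u ∨ v ∈ Qs.flatten ∨ v = z) (hnd : (u :: (Qs.flatten ++ [z])).Nodup)
    (hz : z ∉ Xg G O (Qs ++ [[z]]) u) :
    k ≤ (Qs.map (fx (Xg G O (Qs ++ [[z]]) u))).sum := by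
  have hfl : (Qs ++ [[z]]).flatten = Qs.flatten ++ [z] := by simp
  have hnd' : (Qs ++ [[z]]).flatten.Nodup := by rw [hfl]; exact (List.nodup_cons.1 hnd).2
  have hu : u ∉ (Qs ++ [[z]]).flatten := by rw [hfl]; exact (List.nodup_cons.1 hnd).1
  have hOO : ∀ v ∈ (Qs ++ [[z]]).flatten, v ∉ O := by
    intro v hv
    rw [hfl] at hv
    rw [hO]
    right
    simpa using hv
  have hzm : z ∈ (Qs ++ [[z]]).flatten := by rw [hfl]; simp
  have hzO : z ∉ O := hOO z hzm
  have hzu : z ≠ u := by
    rintro rfl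
    exact hu hzm
  have huA : u ∈ Ag G O (Qs ++ [[z]]) u := Or.inl rfl
  have hzA : z ∉ Ag G O (Qs ++ [[z]]) u := by
    rintro (h | h | ⟨l, hl, h | h⟩)
    · exact hzu h
    · exact hzO (att_mem h)
    · subst h
      obtain ⟨-, P, hP, s, hs, s', hs', h1, h2⟩ := hl
      have hP' : P = [z] := flat_same hnd' hP (by simp) h2.memL (by simp)
      subst hP'
      have hsz : s = z := by simpa using h1.memL
      exact h1.ne (by simp) hsz
    · exact hzO (att_mem h)
  have hzE : z ∉ fs (Ex G O (Qs ++ [[z]]) u) := by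
    rw [mem_fs]
    exact fun h => hz h.1
  have huE : u ∉ fs (Ex G O (Qs ++ [[z]]) u) := by
    rw [mem_fs]
    exact gen_disj hu hOO huA
  have h1 : k ≤ (fs (Ex G O (Qs ++ [[z]]) u)).card := by
    refine sep_card S huA huE ?_ hzA hzE
    intro a ha w haw
    rcases gen_step ha haw with h | h | ⟨h2, h3, h4⟩
    · exact Or.inl h
    · right
      rw [mem_fs]
      exact h
    · exfalso
      apply h2
      rw [hfl]
      rcases (hO w).1 h3 with h | h | h
      · exact absurd h h4
      · simp [h]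
      · simp [h]
  refine h1.trans ((gen_card hnd').trans ?_)
  rw [List.map_append, List.sum_append]
  have h2 : fx (Xg G O (Qs ++ [[z]]) u) [z] = 0 := by
    unfold fx
    rw [List.filter_cons_of_neg (by simpa using hz)]
    simp
  simp [h2]

/-- the boundary of the closure of `x` -/
theorem tp_count [Fintype V] (S : Bs G L k) (T : TP G L x y Qs) :
    k ≤ (Qs.map (fx (Xg G (OT x y Qs) (Qs ++ [[y]]) x))).sum := by
  refine pd3_gen S ?_ T.nd (tp_K0 S T)
  intro v
  simp only [OT, Set.mem_setOf_eq, not_not]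
  exact mem_RL

theorem tp_count' [Fintype V] (S : Bs G L k) (T : TP G L x y Qs) :
    k ≤ (Qs.map (fx (Xg G (OT x y Qs) (Qs ++ [[x]]) y))).sum := by
  refine pd3_gen S ?_ ?_ (tp_K0' S T)
  · intro v
    simp only [OT, Set.mem_setOf_eq, not_not]
    rw [mem_RL]
    tauto
  · have h := T.nd
    have hp : (RL x y Qs).Perm (y :: (Qs.flatten ++ [x])) := by
      unfold RL
      rw [List.perm_iff_count]
      intro a
      simp only [List.count_cons, List.count_append, List.count_nil]
      omega
    exact hp.nodup h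

end Pool.Agent.LW
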