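import Pool.Agent.LW.PD1
import Pool.Agent.LW.PC2

set_option autoImplicit false

/-!
# L-paths: (T1)
-/

namespace Pool.Agent.LW

open SimpleGraph Classical

universe w

variable {V : Type w} {G H : SimpleGraph V} {L : Finset (Sym2 V)} {k : ℕ}
  {x y : V} {Ps Qs : List (List V)}

/-- the ends of the hull of a hull edge -/
private theorem pd6_he {Hs : List (List V)} {X : Set V} {a b : V} (h : HE Hs X a b) :
    ∃ P ∈ Hs, [a, b] <:+: P ∧ (∃ s ∈ X, s = a ∨ Bf P s a) ∧ ∃ s' ∈ X, b = s' ∨ Bf P b s' := by
  obtain ⟨P, hP, s, hs, s', hs', A, M, D, hPe, h1, h2, h3⟩ := h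
  have hMP : M <:+: P := ⟨A, D, by rw [hPe]; simp⟩
  refine ⟨P, hP, h3.trans hMP, ⟨s, hs, ?_⟩, ⟨s', hs', ?_⟩⟩
  · obtain ⟨X, Y, hXY⟩ := h3
    cases X with
    | nil =>
      left
      rw [← hXY] at h1
      simpa using h1.symm
    | cons z X =>
      right
      rw [← hXY] at h1
      have hz : z = s := by simpa using h1
      subst hz
      refine Bf.mono ?_ hMP.sublist
      rw [← hXY]
      show [z, a].Sublist _
      simp only [List.cons_append, List.append_assoc, List.nil_append]
      refine List.Sublist.cons_cons _ ?_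
      exact List.singleton_sublist.2 (by simp)
  · obtain ⟨X, Y, hXY⟩ := h3
    rcases List.eq_nil_or_concat Y with hY | ⟨Y', z, hY⟩
    · left
      rw [← hXY, hY] at h2
      simpa using h2
    · right
      rw [← hXY, hY] at h2
      have hz : z = s' := by
        have h4 : X ++ [a, b] ++ (Y'.concat z) = (X ++ [a, b] ++ Y') ++ [z] := by simp
        rw [h4, List.getLast?_concat] at h2
        simpa using h2
      subst hz
      refine Bf.mono ?_ hMP.sublist
      rw [← hXY, hY]
      show [b, z].Sublist _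
      have h4 : X ++ [a, b] ++ (Y'.concat z) = (X ++ [a]) ++ (b :: (Y' ++ [z])) := by simp
      rw [h4]
      refine List.Sublist.trans ?_ (List.sublist_append_right _ _)
      refine List.Sublist.cons_cons _ ?_
      exact List.singleton_sublist.2 (by simp)

/-- a pair is not in both orders on a list without repetitions -/
private theorem pd6_pair {P : List V} (hn : P.Nodup) {a b : V} (h : [a, b] <:+: P)
    (h' : [b, a] <:+: P) : False :=
  Bf.asymm (F := P) (a := a) (b := b) h.sublist hn h'.sublist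

/-- a pair of an `L`-edge is no hull edge for the hosts of an `L`-path -/
private theorem pd6_nh (S : Bs G L k) (T : TP G L x y Qs) {z g : V} {O : Set V} {t : ℕ} {a b : V}
    (hab : s(a, b) ∈ L) : NH G O (Qs ++ [[z]]) g t a b := by
  have key : ∀ c d : V, s(c, d) ∈ L → ∀ X : Set V, ¬ HE (Qs ++ [[z]]) X c d := by
    intro c d hcd X h
    obtain ⟨P, hP, hi, -⟩ := h.el
    rcases List.mem_append.1 hP with hP | hP
    · exact T.noQ S.ind hP hcd (Or.inl hi)
    · rw [List.mem_singleton.1 hP] at hi
      have := hi.length_le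
      simp at this
  intro τ _
  exact ⟨key a b hab _, key b a (by rw [Sym2.eq_swap]; exact hab) _⟩

/-- two different edges of `L` -/
private theorem pd6_two (S : Bs G L k) : ∃ a b c d : V, s(a, b) ∈ L ∧ s(c, d) ∈ L ∧
    s(a, b) ≠ s(c, d) := by
  have h1 : 1 < L.card := by
    have := S.card
    have := S.k2
    omega
  obtain ⟨e, he, f, hf, hef⟩ := Finset.one_lt_card.1 h1
  induction e using Sym2.inductionOn with
  | _ a b =>
    induction f using Sym2.inductionOn with
    | _ c d => exact ⟨a, b, c, d, he, hf, hef⟩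

/-- on a host of an `L`-path, a list with two entries is a segment -/
private theorem pd6_seg {z : V} {P : List V} (hP : P ∈ Qs ++ [[z]]) {a b : V}
    (h : [a, b].Sublist P) : P ∈ Qs := by
  rcases List.mem_append.1 hP with hP | hP
  · exact hP
  · rw [List.mem_singleton.1 hP] at h
    have := h.length_le
    simp at this

/-- (T1), induction step -/
theorem tp_K1_step (S : Bs G L k) (T : TP G L x y Qs) {t t' : ℕ}
    (IH : ∀ s s', s + s' < t + t' → ∀ Q ∈ Qs, ∀ u ∈ Lg G (OT x y Qs) (Qs ++ [[y]]) x s,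
      ∀ v ∈ Lg G (OT x y Qs) (Qs ++ [[x]]) y s', ¬ Bf Q v u) {Q : List V} (hQ : Q ∈ Qs) {u v : V}
    (hu : u ∈ Lg G (OT x y Qs) (Qs ++ [[y]]) x t) (hv : v ∈ Lg G (OT x y Qs) (Qs ++ [[x]]) y t') :
    ¬ Bf Q v u := by
  intro hB
  obtain ⟨O, hO⟩ : ∃ O, OT x y Qs = O := ⟨_, rfl⟩
  have hnd : (x :: (Qs.flatten ++ [y])).Nodup := T.nd
  have hnd1 := List.nodup_cons.1 hnd
  have hfy : (Qs ++ [[y]]).flatten = Qs.flatten ++ [y] := by simp
  have hfx : (Qs ++ [[x]]).flatten = Qs.flatten ++ [x] := by simp
  have hflat : Qs.flatten.Nodup := (List.nodup_append'.1 hnd1.2).1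
  have hxQ : x ∉ Qs.flatten := fun h => hnd1.1 (List.mem_append_left _ h)
  have hyQ : y ∉ Qs.flatten := fun h =>
    (List.nodup_append'.1 hnd1.2).2.2 h (List.mem_singleton.2 rfl)
  have hxy : x ≠ y := fun h => hnd1.1 (List.mem_append_right _ (List.mem_singleton.2 h))
  have hmem : ∀ P ∈ Qs, ∀ w ∈ P, w ∈ Qs.flatten := fun P hP w hw =>
    List.mem_flatten.2 ⟨P, hP, hw⟩
  have hPn : ∀ P ∈ Qs, P.Nodup := fun P hP => flat_nodup hflat hP
  obtain ⟨A, M, D, hQe⟩ := hB.split
  have hQn : Q.Nodup := hPn Q hQ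
  have hvQ : v ∈ Q := hB.memL
  have huQ : u ∈ Q := hB.memR
  have hvy : v ≠ y := fun h => hyQ (h ▸ hmem Q hQ v hvQ)
  have hOm : ∀ w, w ∈ O ↔ ¬ (w = x ∨ w ∈ Qs.flatten ∨ w = y) := by
    intro w
    rw [← hO, ← mem_RL]
    exact Iff.rfl
  obtain ⟨Q1, Q2, hQs⟩ := List.append_of_mem hQ
  -- the path
  have hQe' : Q = (A ++ v :: M) ++ u :: D := by rw [hQe]; simp
  have c1 : Ch G u y ((u :: D) ++ (Q2.flatten ++ [y])) := by
    have h := T.lk
    rw [hQs, hQe'] at h
    exact lk_ch_right S.sub h
  have c2 : Ch G x v (x :: (Q1.flatten ++ (A ++ [v]))) := by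
    have h := T.lk
    rw [hQs, hQe] at h
    exact lk_ch_left S.sub h
  obtain ⟨F, hFe⟩ : ∃ F, ((u :: D) ++ (Q2.flatten ++ [y])) ++
    ((v :: A.reverse) ++ (Q1.flatten.reverse ++ [x])) = F := ⟨_, rfl⟩
  have hrev : (x :: (Q1.flatten ++ (A ++ [v]))).reverse =
      (v :: A.reverse) ++ (Q1.flatten.reverse ++ [x]) := by simp
  have hF : Ch (G ⊔ SimpleGraph.edge v y) u x F := by
    rw [← hFe]
    have h2 : Ch G v x ((v :: A.reverse) ++ (Q1.flatten.reverse ++ [x])) := by
      rw [← hrev]
      exact c2.reverse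
    refine (c1.mono le_sup_left).append (h2.mono le_sup_left) ?_
    right
    rw [SimpleGraph.edge_adj]
    exact ⟨Or.inr ⟨rfl, rfl⟩, hvy.symm⟩
  have hperm : (F ++ M).Perm (RL x y Qs) := by
    rw [List.perm_iff_count]
    intro w
    rw [← hFe, hQs, hQe]
    simp only [RL, List.count_append, List.count_cons, List.count_nil, List.flatten_append,
      List.flatten_cons, List.count_reverse]
    omega
  have hFM : (F ++ M).Nodup := hperm.nodup_iff.2 T.nd
  have hFn : F.Nodup := (List.nodup_append'.1 hFM).1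
  have hFm : ∀ w ∈ F, w ∈ RL x y Qs := fun w hw =>
    hperm.mem_iff.1 (List.mem_append_left _ hw)
  have hFO : ∀ w ∈ F, w ∉ O := by
    intro w hw h
    exact (hOm w).1 h (mem_RL.1 (hFm w hw))
  have hFvy : EL F v y := by
    right
    rw [← hFe]
    exact ⟨(u :: D) ++ Q2.flatten, A.reverse ++ (Q1.flatten.reverse ++ [x]), by simp⟩
  -- the parts of the path
  have iL : ∀ a b, EL (x :: (Q1.flatten ++ (A ++ [v]))) a b → EL F a b := by
    intro a b h
    have h := h.reverse
    rw [hrev] at h
    exact h.mono ⟨(u :: D) ++ (Q2.flatten ++ [y]), [], by rw [← hFe]; simp⟩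
  have iR : ∀ a b, EL ((u :: D) ++ (Q2.flatten ++ [y])) a b → EL F a b := by
    intro a b h
    exact h.mono ⟨[], (v :: A.reverse) ++ (Q1.flatten.reverse ++ [x]), by rw [← hFe]; simp⟩
  -- a pair of a segment is on the path or between v and u
  have part : ∀ P ∈ Qs, ∀ a b, [a, b] <:+: P → EL F a b ∨ (P = Q ∧ a ∈ v :: M ∧ b ∈ M ++ [u]) := by
    intro P hP a b h
    rw [hQs] at hP
    rcases List.mem_append.1 hP with hP | hP
    · left
      obtain ⟨X, Y, hXY⟩ := List.append_of_mem hP
      refine iL a b (EL.mono (Or.inl h) ⟨x :: X.flatten, Y.flatten ++ (A ++ [v]), ?_⟩)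
      rw [hXY]; simp
    · rcases List.mem_cons.1 hP with hP | hP
      · rw [hP] at h ⊢
        rw [hQe] at h
        rcases infix_pair_split h with h | h
        · left
          exact iL a b (EL.mono (Or.inl h) ⟨x :: Q1.flatten, [], by simp⟩)
        · have h' : [a, b] <:+: (v :: M) ++ u :: D := h
          rcases infix_pair_split h' with h | h
          · right
            refine ⟨rfl, ?_, ?_⟩
            · obtain ⟨X, Y, hXY⟩ := h
              rcases List.eq_nil_or_concat Y with hY | ⟨Y', z, hY⟩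
              · have h4 : X ++ [a, b] ++ Y = (X ++ [a]) ++ [b] := by rw [hY]; simp
                rw [h4] at hXY
                have h5 := List.append_inj_left' hXY (by simp)
                rw [← h5]; simp
              · have h4 : X ++ [a, b] ++ Y = (X ++ [a, b] ++ Y') ++ [z] := by rw [hY]; simp
                rw [h4] at hXY
                have h5 := List.append_inj_left' hXY (by simp)
                rw [← h5]; simp
            · obtain ⟨X, Y, hXY⟩ := h
              cases X with
              | nil =>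
                simp only [List.nil_append, List.cons_append, List.cons.injEq] at hXY
                rw [← hXY.2]; simp
              | cons z X =>
                simp only [List.nil_append, List.cons_append, List.cons.injEq] at hXY
                rw [← hXY.2]; simp
          · left
            exact iR a b (EL.mono (Or.inl h) ⟨[], Q2.flatten ++ [y], by simp⟩)
      · left
        obtain ⟨X, Y, hXY⟩ := List.append_of_mem hP
        refine iR a b (EL.mono (Or.inl h) ⟨(u :: D) ++ X.flatten, Y.flatten ++ [y], ?_⟩)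
        rw [hXY]; simp
  have hvM : ∀ b ∈ M ++ [u], Bf Q v b := by
    intro b hb
    rw [hQe]
    refine Bf.of_right ?_
    rcases List.mem_append.1 hb with hb | hb
    · exact List.mem_append_left _ hb
    · rw [List.mem_singleton.1 hb]; simp
  have hMu : ∀ a ∈ v :: M, Bf Q a u := by
    intro a ha
    rw [hQe']
    refine Bf.of_left ?_
    exact List.mem_append_right _ ha
  -- the edges of L
  have hLF : ∀ c d, s(c, d) ∈ L → EL F c d := by
    intro c d hcd
    have h := T.cov S.ind hcd
    have e1 : RL x y Qs = (x :: (Q1.flatten ++ A)) ++ v :: ((M ++ u :: D) ++ (Q2.flatten ++ [y])) := by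
      rw [hQs, hQe]; simp [RL]
    rw [e1] at h
    rcases h.split with h | h
    · refine iL c d ?_
      have e2 : x :: (Q1.flatten ++ A) ++ [v] = x :: (Q1.flatten ++ (A ++ [v])) := by simp
      rw [← e2]; exact h
    · have e3 : v :: ((M ++ u :: D) ++ (Q2.flatten ++ [y])) =
          (v :: M) ++ u :: (D ++ (Q2.flatten ++ [y])) := by simp
      rw [e3] at h
      rcases h.split with h | h
      · exfalso
        refine T.noQ S.ind hQ hcd (h.mono ⟨A, D, ?_⟩)
        rw [hQe]; simp
      · exact iR c d h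
  have hLne : ∀ c d, s(c, d) ∈ L → s(c, d) ≠ s(v, y) := by
    intro c d hcd he
    rw [he] at hcd
    have h := T.cov S.ind hcd
    have hn := T.nd
    have e1 : RL x y Qs = (x :: (Q1.flatten ++ A)) ++ v :: ((M ++ u :: D) ++ (Q2.flatten ++ [y])) := by
      rw [hQs, hQe]; simp [RL]
    rw [e1] at h hn
    have n1 := List.nodup_append'.1 hn
    have hy1 : y ∈ v :: ((M ++ u :: D) ++ (Q2.flatten ++ [y])) := by simp
    rcases h.split with h | h
    · have h1 : y ∈ x :: (Q1.flatten ++ A) ++ [v] := h.memR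
      rcases List.mem_append.1 h1 with h1 | h1
      · exact n1.2.2 h1 hy1
      · exact hvy (List.mem_singleton.1 h1).symm
    · have e3 : v :: ((M ++ u :: D) ++ (Q2.flatten ++ [y])) =
          (v :: M) ++ u :: (D ++ (Q2.flatten ++ [y])) := by simp
      rw [e3] at h n1
      have n2 := List.nodup_append'.1 n1.2.1
      rcases h.split with h | h
      · have h1 : y ∈ (v :: M) ++ [u] := h.memR
        have hyQ' : y ∈ Q := by
          rw [hQe']
          rcases List.mem_append.1 h1 with h1 | h1
          · exact List.mem_append_left _ (List.mem_append_right _ h1)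
          · rw [List.mem_singleton.1 h1]; simp
        exact hyQ (hmem Q hQ y hyQ')
      · exact n2.2.2 (List.mem_cons_self ..) h.memL
  rw [hO] at hu hv IH
  -- the double hop
  have hs : HS G O (Qs ++ [[y]]) x t F [] := by
    refine ⟨?_, ?_⟩
    · intro τ hτ a b h
      obtain ⟨P, hP, hi, -, s', hs', hr⟩ := pd6_he h
      have hPQ := pd6_seg hP hi.sublist
      rcases part P hPQ a b hi with h1 | ⟨h1, h2, h3⟩
      · exact Or.inl h1
      · exfalso
        subst h1
        have h4 := hvM b h3
        have h5 : Bf P v s' := by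
          rcases hr with hr | hr
          · rw [← hr]; exact h4
          · exact h4.trans hr hQn
        exact IH τ t' (by omega) P hPQ s' hs' v hv h5
    · intro w hw hwO
      rcases hw with hw | hw
      · exact absurd hwO (hFO w hw)
      · simp at hw
  have hs' : HS G O (Qs ++ [[x]]) y t' F [] := by
    refine ⟨?_, ?_⟩
    · intro τ hτ a b h
      obtain ⟨P, hP, hi, ⟨s, hs, hl⟩, -⟩ := pd6_he h
      have hPQ := pd6_seg hP hi.sublist
      rcases part P hPQ a b hi with h1 | ⟨h1, h2, h3⟩
      · exact Or.inl h1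
      · exfalso
        subst h1
        have h4 := hMu a h2
        have h5 : Bf P s u := by
          rcases hl with hl | hl
          · rw [hl]; exact h4
          · exact hl.trans h4 hQn
        exact IH t τ (by omega) P hPQ u hu s hs h5
    · intro w hw hwO
      rcases hw with hw | hw
      · exact absurd hwO (hFO w hw)
      · simp at hw
  have cross : ∀ o ∈ O, AH G O (Qs ++ [[y]]) x t o → o ∈ O → ¬ AH G O (Qs ++ [[x]]) y t' o := by
    intro o _ h _ h'
    have zx : ∀ P ∈ Qs, ∀ l ∈ P, Con G O x l → l ∈ Lg G O (Qs ++ [[y]]) x 0 := by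
      intro P hP l hl hc
      exact ⟨by rw [hfy]; exact List.mem_append_left _ (hmem P hP l hl), hc⟩
    have zy : ∀ P ∈ Qs, ∀ l ∈ P, Con G O y l → l ∈ Lg G O (Qs ++ [[x]]) y 0 := by
      intro P hP l hl hc
      exact ⟨by rw [hfx]; exact List.mem_append_left _ (hmem P hP l hl), hc⟩
    rcases h with h | ⟨τ, hτ, l, hl, h⟩
    · rcases h' with h' | ⟨τ', hτ', l', hl', h'⟩
      · have hc := con_of_att h h'
        have h0 := tp_K0 S T
        rw [hO] at h0
        exact h0 ⟨0, by rw [hfy]; simp, hc⟩
      · obtain ⟨-, P, hP, s, hs, s', hs', b1, b2⟩ := hl'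
        have hPQ := pd6_seg hP b1
        exact IH 0 τ' (by omega) P hPQ l' (zx P hPQ l' b1.memR (con_of_att h h')) s hs b1
    · obtain ⟨-, P, hP, s, hs, s', hs', b1, b2⟩ := id hl
      have hPQ := pd6_seg hP b1
      rcases h' with h' | ⟨τ', hτ', l', hl', h'⟩
      · exact IH τ 0 (by omega) P hPQ s' hs' l (zy P hPQ l b2.memL (con_of_att h' h)) b2
      · obtain ⟨-, P', hP', r, hr, r', hr', d1, d2⟩ := hl'
        have hPQ' := pd6_seg hP' d1
        have h6 : l' ∈ Lg G O (Qs ++ [[y]]) x (τ + 1) := by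
          right
          exact ⟨by rw [hfy]; exact List.mem_append_left _ (hmem P' hPQ' l' d1.memR), l, hl,
            con_of_att h h'⟩
        exact IH (τ + 1) τ' (by omega) P' hPQ' l' h6 r hr d1
  have edge1 : ∀ a b, ∀ τ < t, ∀ τ' < t', HE (Qs ++ [[y]]) (Lg G O (Qs ++ [[y]]) x τ) a b →
      ¬ HE (Qs ++ [[x]]) (Lg G O (Qs ++ [[x]]) y τ') a b ∧
      ¬ HE (Qs ++ [[x]]) (Lg G O (Qs ++ [[x]]) y τ') b a := by
    intro a b τ hτ τ' hτ' h
    obtain ⟨P, hP, hi, -, s', hs', hr⟩ := pd6_he h
    have hPQ := pd6_seg hP hi.sublist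
    constructor
    · intro h'
      obtain ⟨P', hP', hi', ⟨s, hs, hl⟩, -⟩ := pd6_he h'
      have hPQ' := pd6_seg hP' hi'.sublist
      have hPP : P' = P := flat_same hflat (v := a) hPQ' hPQ (hi'.subset (by simp))
        (hi.subset (by simp))
      subst hPP
      have hab : Bf P' a b := hi.sublist
      have h1 : Bf P' s b := by
        rcases hl with hl | hl
        · rw [hl]; exact hab
        · exact hl.trans hab (hPn P' hPQ)
      have h2 : Bf P' s s' := by
        rcases hr with hr | hr
        · rw [← hr]; exact h1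
        · exact h1.trans hr (hPn P' hPQ)
      exact IH τ τ' (by omega) P' hPQ s' hs' s hs h2
    · intro h'
      obtain ⟨P', hP', hi', -⟩ := pd6_he h'
      have hPQ' := pd6_seg hP' hi'.sublist
      have hPP : P' = P := flat_same hflat (v := a) hPQ' hPQ (hi'.subset (by simp))
        (hi.subset (by simp))
      subst hPP
      exact pd6_pair (hPn P' hPQ) hi hi'
  have edge : ∀ a b, ¬ NH G O (Qs ++ [[y]]) x t a b → NH G O (Qs ++ [[x]]) y t' a b := by
    intro a b h
    by_contra hc
    apply h
    intro τ hτ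
    constructor
    · intro h1
      exact hc fun τ' hτ' => edge1 a b τ hτ τ' hτ' h1
    · intro h1
      exact hc fun τ' hτ' => (edge1 b a τ hτ τ' hτ' h1).symm
  have virt : NH G O (Qs ++ [[y]]) x t v y := by
    intro τ _
    constructor
    · intro h
      obtain ⟨P, hP, hi, -⟩ := pd6_he h
      exact hyQ (hmem P (pd6_seg hP hi.sublist) y (hi.subset (by simp)))
    · intro h
      obtain ⟨P, hP, hi, -⟩ := pd6_he h
      exact hyQ (hmem P (pd6_seg hP hi.sublist) y (hi.subset (by simp)))
  obtain ⟨a, b, c, d, hab, hcd, hne⟩ := pd6_two S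
  obtain ⟨p, q, D', hD, -, h3, -⟩ := hop2 (G := G) (O := O) (O' := O) (Hs := Qs ++ [[y]])
    (Hs' := Qs ++ [[x]]) (x := x) (y := y) (u := u) (v := v) (t := t) (t' := t') (F := F)
    (C := []) (c1 := x) (c2 := x)
    (by rw [hfy]; exact hnd1.2)
    (by
      rw [hfx]
      exact List.nodup_append'.2 ⟨hflat, by simp, by
        intro w hw hw'
        rw [List.mem_singleton.1 hw'] at hw
        exact hxQ hw⟩)
    (by rw [hfy]; exact hnd1.1) (by rw [hOm]; simp)
    (by
      intro w hw h
      rw [hfy] at hw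
      rw [hOm] at h
      rcases List.mem_append.1 hw with hw | hw
      · exact h (Or.inr (Or.inl hw))
      · exact h (Or.inr (Or.inr (List.mem_singleton.1 hw))))
    (by
      rw [hfx]
      intro h
      rcases List.mem_append.1 h with h | h
      · exact hyQ h
      · exact hxy (List.mem_singleton.1 h).symm)
    (by rw [hOm]; simp)
    (by
      intro w hw h
      rw [hfx] at hw
      rw [hOm] at h
      rcases List.mem_append.1 hw with hw | hw
      · exact h (Or.inr (Or.inl hw))
      · exact h (Or.inl (List.mem_singleton.1 hw)))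
    hu hv hvy hF hFn hFvy (Or.inl rfl) (by simp) hs hs' cross edge virt
    ⟨a, b, c, d, hLF a b hab, hLF c d hcd, hne, hLne a b hab, hLne c d hcd, pd6_nh S T hab,
      pd6_nh S T hcd, pd6_nh S T hab, pd6_nh S T hcd⟩
  obtain ⟨Ps, hPs⟩ := full_of_closed S.ind ⟨_, hab⟩ hD.ch hD.nd hD.cl hD.len
    (fun c d h => h3 c d (hLF c d h) (hLne c d h) (pd6_nh S T h) (pd6_nh S T h))
  exact S.no Ps hPs

/-- (T1) -/
theorem tp_K1 (S : Bs G L k) (T : TP G L x y Qs) {Q : List V} (hQ : Q ∈ Qs) {u v : V}
    (hu : u ∈ Xg G (OT x y Qs) (Qs ++ [[y]]) x) (hv : v ∈ Xg G (OT x y Qs) (Qs ++ [[x]]) y) :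
    ¬ Bf Q v u := by
  obtain ⟨t, hu⟩ := hu
  obtain ⟨t', hv⟩ := hv
  have key : ∀ n, ∀ s s', s + s' < n → ∀ Q ∈ Qs, ∀ u ∈ Lg G (OT x y Qs) (Qs ++ [[y]]) x s,
      ∀ v ∈ Lg G (OT x y Qs) (Qs ++ [[x]]) y s', ¬ Bf Q v u := by
    intro n
    induction n with
    | zero => intro s s' h; exact absurd h (by omega)
    | succ n ih =>
      intro s s' h Q hQ u hu v hv
      exact tp_K1_step S T (fun a a' ha => ih a a' (by omega)) hQ hu hv
  exact key _ t t' (Nat.lt_succ_self _) Q hQ u hu v hv

end Pool.Agent.LW
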