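import Pool.Agent.LW.PD2
import Pool.Agent.LW.PD3
import Pool.Agent.LW.PD6

set_option autoImplicit false

/-!
# The minimal number is at most half
-/

namespace Pool.Agent.LW

open SimpleGraph Classical

universe w

variable {V : Type w} {G H : SimpleGraph V} {L : Finset (Sym2 V)} {k : ℕ}
  {x y : V} {Ps Qs : List (List V)}

private theorem pd4_zero {X : Set V} {P : List V} (h : ∀ v ∈ P, v ∉ X) : fx X P = 0 := by
  unfold fx
  have : P.filter (fun v => v ∈ X) = [] := by
    rw [List.filter_eq_nil_iff]
    intro v hv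
    simpa using h v hv
  rw [this]
  simp

private theorem pd4_one {X : Set V} {P : List V} (hn : P.Nodup) {c : V}
    (h : ∀ v ∈ P, v ∈ X → v = c) : fx X P ≤ 1 := by
  by_contra hcon
  have h2 : fx X P = 2 := by
    have := fx_le X P
    omega
  obtain ⟨v, hv, v', hv', hne, hX, hX'⟩ := (fx_two hn).1 h2
  exact hne ((h v hv hX).trans (h v' hv' hX').symm)

/-- if the first set meets `P` in at most one vertex `h` and, when it does, the other one too -/
private theorem pd4_pair {X Y : Set V} {P : List V} (hn : P.Nodup)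
    (h1 : ∀ v ∈ P, v ∈ Y → ∀ v' ∈ P, v' ∈ Y → v = v')
    (h2 : ∀ v ∈ P, v ∈ Y → ∀ u ∈ P, u ∈ X → u = v) : fx X P + fx Y P ≤ 2 := by
  by_cases h : ∃ v ∈ P, v ∈ Y
  · obtain ⟨v, hv, hvY⟩ := h
    have a := pd4_one (X := X) hn (c := v) (fun u hu huX => h2 v hv hvY u hu huX)
    have b := pd4_one (X := Y) hn (c := v) (fun u hu huX => h1 u hu huX v hv hvY)
    omega
  · push Not at h
    have a := pd4_zero h
    have b := fx_le X P
    omega

private theorem pd4_sum {α : Type w} {f g : α → ℕ} {l : List α}
    (h : ∀ Q ∈ l, f Q + g Q ≤ 2) : (l.map f).sum + (l.map g).sum ≤ 2 * l.length := by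
  induction l with
  | nil => simp
  | cons a l ih =>
    have h1 := h a (by simp)
    have h2 := ih (fun Q hQ => h Q (List.mem_cons_of_mem _ hQ))
    simp only [List.map_cons, List.sum_cons, List.length_cons]
    omega

/-- `n ≥ c` -/
theorem tp_half [Fintype V] (S : Bs G L k) {c : ℕ} (hmin : MinC G L c) (hc : c + 1 ≤ k)
    (T : TP G L x y Qs) : 2 * c ≤ k := by
  by_contra hcon
  have hlen : Qs.length + 1 = k := by
    rw [← S.card]
    exact T.card
  have a1 := tp_count S T
  have a2 := tp_count' S T
  have key : ∀ Q ∈ Qs, fx (Xg G (OT x y Qs) (Qs ++ [[y]]) x) Q +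
      fx (Xg G (OT x y Qs) (Qs ++ [[x]]) y) Q ≤ 2 := by
    intro Q hQ
    have hnd : Q.Nodup := by
      have h1 := T.nd
      unfold RL at h1
      have h2 := (List.nodup_append'.1 (List.nodup_cons.1 h1).2).1
      exact flat_nodup h2 hQ
    have hK1 : ∀ u ∈ Xg G (OT x y Qs) (Qs ++ [[y]]) x,
        ∀ v ∈ Xg G (OT x y Qs) (Qs ++ [[x]]) y, ¬ Bf Q v u :=
      fun u hu v hv => tp_K1 S T hQ hu hv
    obtain ⟨Q1, Q2, hQs⟩ := List.append_of_mem hQ
    subst hQs
    have hl : Q1.length + (Q2.length + 1) + 1 = k := by
      simpa using hlen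
    by_cases hj : Q1.length + 1 < c
    · have hQ2 : Q2 ≠ [] := by
        rintro rfl
        simp at hl
        omega
      have hh : ∀ v ∈ Q, v ∈ Xg G (OT x y (Q1 ++ Q :: Q2)) ((Q1 ++ Q :: Q2) ++ [[x]]) y →
          Q.head? = some v := fun v hv hvX => tp_K2 S hmin T hj hQ2 hvX hv
      refine pd4_pair hnd ?_ ?_
      · intro v hv hvY v' hv' hvY'
        have h1 := (hh v hv hvY).symm.trans (hh v' hv' hvY')
        simpa using h1
      · intro v hv hvY u hu huX
        by_contra hne
        have h1 := hh v hv hvY
        obtain ⟨Q', hQ'⟩ : ∃ Q', Q = v :: Q' := by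
          cases Q with
          | nil => simp at hv
          | cons p Q' =>
            refine ⟨Q', ?_⟩
            simp only [List.head?_cons, Option.some.injEq] at h1
            rw [h1]
        have h2 : u ∈ Q' := by
          rw [hQ'] at hu
          rcases List.mem_cons.1 hu with h | h
          · exact absurd h hne
          · exact h
        refine hK1 u huX v hvY ?_
        rw [hQ']
        exact Bf.of_right (A := []) h2
    · have hj' : Q2.length + 1 < c := by omega
      have hQ1 : Q1 ≠ [] := by
        rintro rfl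
        simp at hl
        omega
      have hh : ∀ v ∈ Q, v ∈ Xg G (OT x y (Q1 ++ Q :: Q2)) ((Q1 ++ Q :: Q2) ++ [[y]]) x →
          Q.getLast? = some v := fun v hv hvX => tp_K2' S hmin T hj' hQ1 hvX hv
      rw [add_comm]
      refine pd4_pair hnd ?_ ?_
      · intro v hv hvY v' hv' hvY'
        have h1 := (hh v hv hvY).symm.trans (hh v' hv' hvY')
        simpa using h1
      · intro v hv hvY u hu huX
        by_contra hne
        have h1 := hh v hv hvY
        obtain ⟨Q', hQ'⟩ : ∃ Q', Q = Q' ++ [v] := by
          refine ⟨Q.dropLast, ?_⟩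
          exact (List.dropLast_append_getLast? v h1).symm
        have h2 : u ∈ Q' := by
          rw [hQ'] at hu
          rcases List.mem_append.1 hu with h | h
          · exact h
          · exact absurd (by simpa using h) hne
        refine hK1 v hvY u huX ?_
        rw [hQ']
        exact Bf.of_left (D := []) h2
  have a3 := pd4_sum key
  omega

end Pool.Agent.LW
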