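import Pool.Agent.LW.PB2
import Pool.Agent.LW.PB3

set_option autoImplicit false

/-!
# A linked configuration exists
-/

namespace Pool.Agent.LW

open SimpleGraph Classical

universe w

variable {V : Type w} {G H : SimpleGraph V} {L : Finset (Sym2 V)} {k : ℕ}
  {x y : V} {Ps Qs : List (List V)}

private theorem pd5_last {x c : V} {Ms : List (List V)} (h : Lk G L x Ms c) :
    ∃ r ∈ x :: Ms.flatten, s(r, c) ∈ L := by
  induction Ms generalizing x with
  | nil => exact ⟨x, by simp, h⟩
  | cons M Ms ih =>
    obtain ⟨p, q, h1, h2, h3⟩ := h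
    obtain ⟨r, hr, hrc⟩ := ih h3
    refine ⟨r, ?_, hrc⟩
    rw [List.flatten_cons]
    rcases List.mem_cons.1 hr with hr | hr
    · refine List.mem_cons_of_mem _ (List.mem_append_left _ ?_)
      rw [hr]
      exact h2.memR
    · exact List.mem_cons_of_mem _ (List.mem_append_right _ hr)

private theorem pd5_first {d y : V} {Ms : List (List V)} (h : Lk G L d Ms y) :
    ∃ l ∈ Ms.flatten ++ [y], s(d, l) ∈ L := by
  cases Ms with
  | nil => exact ⟨y, by simp, h⟩
  | cons M Ms =>
    obtain ⟨p, q, h1, h2, h3⟩ := h
    refine ⟨p, ?_, h1⟩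
    rw [List.flatten_cons]
    exact List.mem_append_left _ (List.mem_append_left _ h2.memL)

private theorem pd5_two (hind : ∀ e ∈ L, ∀ f ∈ L, e ≠ f → ∀ v, v ∈ e → v ∉ f) {x y : V}
    {Qs : List (List V)} (hn : (RL x y Qs).Nodup) (hne : ∀ Q ∈ Qs, Q ≠ [])
    (h : Lk G L x Qs y) : ∀ Q ∈ Qs, 2 ≤ Q.length := by
  intro Q hQ
  by_contra hlt
  obtain ⟨v, rfl⟩ : ∃ v, Q = [v] := by
    have h1 := hne Q hQ
    cases Q with
    | nil => exact absurd rfl h1
    | cons v Q' =>
      cases Q' with
      | nil => exact ⟨v, rfl⟩
      | cons v' Q'' =>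
        exfalso
        apply hlt
        simp only [List.length_cons]
        omega
  obtain ⟨Q1, Q2, rfl⟩ := List.append_of_mem hQ
  obtain ⟨c, d, h1, h2, h3⟩ := h.split
  have hc : c = v := by
    have := h2.memL
    simpa using this
  have hd : d = v := by
    have := h2.memR
    simpa using this
  rw [hc] at h1
  rw [hd] at h3
  obtain ⟨r, hr, hrv⟩ := pd5_last h1
  obtain ⟨l, hl, hvl⟩ := pd5_first h3
  have hrl : r ≠ l := by
    have e : RL x y (Q1 ++ [v] :: Q2) = (x :: Q1.flatten) ++ ([v] ++ (Q2.flatten ++ [y])) := by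
      unfold RL
      simp
    rw [e] at hn
    intro hrl
    exact List.disjoint_of_nodup_append hn hr (List.mem_append_right _ (hrl ▸ hl))
  refine hind _ hrv _ hvl ?_ v (by simp) (by simp)
  intro he
  rw [Sym2.eq_iff] at he
  rcases he with ⟨h4, h5⟩ | ⟨h4, _⟩
  · exact hrl (h4.trans h5)
  · exact hrl h4

/-- the complete graph -/
private theorem pd5_complete (hG : ∀ u v : V, u ≠ v → G.Adj u v) :
    ∀ l : List (V × V), l ≠ [] → (∀ p ∈ l, s(p.1, p.2) ∈ L) →
      (l.flatMap fun p => [p.1, p.2]).Nodup →
      ∃ x y Qs, Lk G L x Qs y ∧ RL x y Qs = l.flatMap (fun p => [p.1, p.2]) ∧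
        (∀ Q ∈ Qs, 2 ≤ Q.length) ∧ Qs.length + 1 = l.length := by
  intro l
  induction l with
  | nil => intro h; exact absurd rfl h
  | cons p l ih =>
    intro _ hL hn
    by_cases hl : l = []
    · subst hl
      refine ⟨p.1, p.2, [], hL p (by simp), ?_, by simp, rfl⟩
      unfold RL
      simp
    · rw [List.flatMap_cons] at hn
      obtain ⟨x', y', Qs', h1, h2, h3, h4⟩ := ih hl
        (fun q hq => hL q (List.mem_cons_of_mem _ hq)) (List.Nodup.of_append_right hn)
      have hx : x' ∈ l.flatMap (fun p => [p.1, p.2]) := by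
        rw [← h2]
        unfold RL
        simp
      have hne : p.2 ≠ x' := by
        intro he
        exact List.disjoint_of_nodup_append hn (a := p.2) (by simp) (by rw [he]; exact hx)
      have hch : Ch G p.2 x' [p.2, x'] := by
        refine ⟨rfl, rfl, ?_⟩
        rw [List.isChain_cons_cons]
        exact ⟨hG _ _ hne, List.isChain_singleton _⟩
      refine ⟨p.1, y', [p.2, x'] :: Qs', ⟨p.2, x', hL p (by simp), hch, h1⟩, ?_, ?_, ?_⟩
      · rw [List.flatMap_cons, ← h2]
        unfold RL
        simp
      · intro Q hQ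
        rcases List.mem_cons.1 hQ with rfl | hQ
        · simp
        · exact h3 Q hQ
      · simp only [List.length_cons]
        omega

/-- an `L`-path exists -/
theorem exists_tp (S : Bs G L k) : ∃ x y Qs, TP G L x y Qs := by
  by_cases hG : ∀ u v : V, u ≠ v → G.Adj u v
  · have hf : ∀ e : Sym2 V, ∃ p : V × V, s(p.1, p.2) = e := by
      intro e
      induction e using Sym2.ind with
      | _ a b => exact ⟨(a, b), rfl⟩
    choose f hf using hf
    have hlen : (L.toList.map f).length = k := by
      rw [List.length_map, Finset.length_toList, S.card]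
    obtain ⟨x, y, Qs, h1, h2, h3, h4⟩ := pd5_complete (L := L) hG (L.toList.map f)
      (by
        intro h
        rw [h] at hlen
        have := S.k2
        simp at hlen
        omega)
      (by
        intro p hp
        obtain ⟨e, he, rfl⟩ := List.mem_map.1 hp
        rw [hf]
        exact Finset.mem_toList.1 he)
      (by
        rw [List.nodup_flatMap]
        constructor
        · intro p hp
          obtain ⟨e, he, rfl⟩ := List.mem_map.1 hp
          have h1 := S.sub e (Finset.mem_toList.1 he)
          rw [← hf e, SimpleGraph.mem_edgeSet] at h1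
          have := h1.ne
          simpa using this
        · rw [List.pairwise_map]
          have hnd : L.toList.Nodup := Finset.nodup_toList L
          refine List.Pairwise.imp_of_mem ?_ hnd
          intro e e' he he' hne
          intro v hv hv'
          have h1 : v ∈ e := by
            rw [← hf e, Sym2.mem_iff]
            simpa using hv
          have h2 : v ∈ e' := by
            rw [← hf e', Sym2.mem_iff]
            simpa using hv'
          exact S.ind e (Finset.mem_toList.1 he) e' (Finset.mem_toList.1 he') hne v h1 h2)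
    refine ⟨x, y, Qs, ?_, h3, h1, ?_⟩
    · rw [h2, List.nodup_flatMap]
      constructor
      · intro p hp
        obtain ⟨e, he, rfl⟩ := List.mem_map.1 hp
        have h1 := S.sub e (Finset.mem_toList.1 he)
        rw [← hf e, SimpleGraph.mem_edgeSet] at h1
        have := h1.ne
        simpa using this
      · rw [List.pairwise_map]
        have hnd : L.toList.Nodup := Finset.nodup_toList L
        refine List.Pairwise.imp_of_mem ?_ hnd
        intro e e' he he' hne
        intro v hv hv'
        have h1 : v ∈ e := by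
          rw [← hf e, Sym2.mem_iff]
          simpa using hv
        have h2 : v ∈ e' := by
          rw [← hf e', Sym2.mem_iff]
          simpa using hv'
        exact S.ind e (Finset.mem_toList.1 he) e' (Finset.mem_toList.1 he') hne v h1 h2
    · rw [h4, hlen, S.card]
  · push Not at hG
    obtain ⟨u, v, huv, hadj⟩ := hG
    obtain ⟨Rs, hR, hlen⟩ := S.em u v huv hadj
    have hk := S.k2
    obtain ⟨R0, Rs1, rfl⟩ : ∃ R0 Rs1, Rs = R0 :: Rs1 := by
      cases Rs with
      | nil => simp at hlen
      | cons a b => exact ⟨a, b, rfl⟩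
    have hlen1 : Rs1.length = k := by simpa using hlen
    obtain ⟨Qs, Rk, rfl⟩ : ∃ Qs Rk, Rs1 = Qs ++ [Rk] := by
      rcases List.eq_nil_or_concat Rs1 with h | ⟨Q, R, h⟩
      · rw [h] at hlen1
        simp at hlen1
        omega
      · exact ⟨Q, R, by rw [h, List.concat_eq_append]⟩
    have hQlen : Qs.length + 1 = k := by simpa using hlen1
    obtain ⟨R0', x, rfl⟩ : ∃ R0' x, R0 = R0' ++ [x] := by
      rcases List.eq_nil_or_concat R0 with h | ⟨Q, R, h⟩
      · exact absurd h (hR.ne R0 (by simp))
      · exact ⟨Q, R, by rw [h, List.concat_eq_append]⟩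
    obtain ⟨y, Rk', rfl⟩ : ∃ y Rk', Rk = y :: Rk' := by
      cases Rk with
      | nil => exact absurd rfl (hR.ne [] (by simp))
      | cons a b => exact ⟨a, b, rfl⟩
    have hlk : Lk G L x Qs y := lk_of_isChain hR.jn
      (fun R hR' => hR.ch R (by simp [hR'])) (fun R hR' => hR.ne R (by simp [hR']))
      (by simp) (by simp)
    have hnd : (RL x y Qs).Nodup := by
      have e : ((R0' ++ [x]) :: (Qs ++ [y :: Rk'])).flatten = R0' ++ (RL x y Qs ++ Rk') := by
        unfold RL
        simp
      have h1 := hR.nd
      rw [e] at h1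
      exact List.Nodup.of_append_left (List.Nodup.of_append_right h1)
    exact ⟨x, y, Qs, hnd, pd5_two S.ind hnd (fun Q hQ => hR.ne Q (by simp [hQ])) hlk, hlk,
      by rw [hQlen, S.card]⟩

end Pool.Agent.LW
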