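import Pool.Agent.LW.PB2
import Pool.Agent.LW.PB5

set_option autoImplicit false

/-!
# A linked configuration exists
-/

namespace Pool.Agent.LW

open SimpleGraph Classical

universe w

variable {V : Type w} {G H : SimpleGraph V} {L : Finset (Sym2 V)} {k : ℕ}
  {x y : V} {Ps Qs : List (List V)}

/-- closing a path by a link -/
private theorem pd7_cl {x w : V} {F K : List V} (hF : Ch G x w F)
    (hK : Ch G x w (x :: (K ++ [w]))) :
    ∃ a, Ch G a x (K ++ F.reverse) ∧ G.Adj x a := by
  cases K with
  | nil => exact ⟨w, by simpa using hF.reverse, hK.snd⟩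
  | cons k0 K =>
    have h1 : G.Adj x k0 := Ch.snd hK
    have h2 : Ch G k0 w ((k0 :: K) ++ [w]) := Ch.tail hK
    obtain ⟨R, hR⟩ := List.head?_eq_some_iff.1 hF.reverse.hd
    have h3 := hF.reverse
    rw [hR] at h3 ⊢
    exact ⟨k0, h2.glue h3, h1⟩

private theorem pd7_nodup {F K : List V} (hFn : F.Nodup) (hKn : K.Nodup)
    (hKF : ∀ v ∈ K, v ∉ F) : (K ++ F.reverse).Nodup := by
  rw [List.nodup_append']
  exact ⟨hKn, List.nodup_reverse.2 hFn, fun v hv hv' => hKF v hv (List.mem_reverse.1 hv')⟩

/-- a path through all edges of `L` cannot be closed by a link -/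
private theorem pd7_full (S : Bs G L k) {x w : V} {F K : List V} (hF : Ch G x w F)
    (hFn : F.Nodup) (h3 : 3 ≤ F.length) (hK : Ch G x w (x :: (K ++ [w]))) (hKn : K.Nodup)
    (hKF : ∀ v ∈ K, v ∉ F) (hL : ∀ c d, s(c, d) ∈ L → EL F c d) : False := by
  obtain ⟨a, h1, h2⟩ := pd7_cl hF hK
  have hne : L.Nonempty := Finset.card_pos.1 (by rw [S.card]; have := S.k2; omega)
  obtain ⟨Ps, hPs⟩ := full_of_closed S.ind hne h1 (pd7_nodup hFn hKn hKF) h2
    (by rw [List.length_append, List.length_reverse]; omega)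
    (fun c d hcd => Or.inl ((hL c d hcd).reverse.mono (List.suffix_append _ _).isInfix))
  exact S.no Ps hPs

/-- a path with interior in `O` is a connection -/
private theorem pd7_con {O : Set V} {w r : V} {D : List V} (h : Ch G w r (w :: (D ++ [r])))
    (hD : ∀ v ∈ D, v ∈ O) : Con G O w r := by
  rcases List.eq_nil_or_concat' D with rfl | ⟨E, o, rfl⟩
  · exact Or.inl h.snd
  · have h1 : Ch G w r ((w :: E) ++ o :: r :: []) := by simpa using h
    have h2 : Ch G w o ((w :: E) ++ [o]) := h1.left
    refine Or.inr ⟨o, ?_, h1.adj⟩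
    cases E with
    | nil => exact ⟨o, h2.snd, Rch.refl (hD o (by simp))⟩
    | cons e E =>
      exact ⟨e, Ch.snd h2, (e :: E) ++ [o], Ch.tail h2, hD⟩

private theorem pd7_ne (S : Bs G L k) (T : TP G L x y Qs) : Qs ≠ [] := by
  intro h
  have h1 := T.card
  have h2 := S.card
  have h3 := S.k2
  rw [h] at h1
  simp only [List.length_nil] at h1
  omega

/-- the two ends of the path are not connected -/
private theorem pd7_xy (S : Bs G L k) (T : TP G L x y Qs) : ¬ Con G (OT x y Qs) x y := by
  intro hc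
  obtain ⟨K, h1, h2, h3⟩ := hc.link
  refine pd7_full S (lk_ch S.sub T.lk) T.nd ?_ h1 h2 (fun v hv => (h3 v hv).1)
    (fun c d hcd => T.cov S.ind hcd)
  have hne := pd7_ne S T
  cases Qs with
  | nil => exact absurd rfl hne
  | cons Q Qs =>
    have h4 := T.two Q (by simp)
    simp only [RL, List.flatten_cons, List.length_cons, List.length_append]
    omega

/-- (M1) an inner attachment of the first end gives a linked configuration -/
private theorem pd7_int (S : Bs G L k) (T : TP G L x y Qs)
    (hno : ¬ ∃ x y Ps Qs, LC G L x y Ps Qs ∧ Lkd G x y Ps Qs) {Q1 Q2 : List (List V)}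
    {A D : List V} {w : V} (hQ : Qs = Q1 ++ (A ++ w :: D) :: Q2)
    (hc : Con G (OT x y Qs) x w) (hD : D ≠ []) : Q1 = [] ∧ A = [] := by
  by_contra hQA
  apply hno
  obtain ⟨K, hK1, hK2, hK3⟩ := hc.link
  obtain ⟨D', r, hDr⟩ : ∃ D' r, D = D' ++ [r] :=
    ⟨_, _, (List.dropLast_append_getLast hD).symm⟩
  subst hDr
  subst hQ
  have hF : Ch G x w (x :: (Q1.flatten ++ (A ++ [w]))) := lk_ch_left S.sub T.lk
  obtain ⟨a, h1, h2⟩ := pd7_cl hF hK1
  have hRL : RL x y (Q1 ++ (A ++ w :: (D' ++ [r])) :: Q2) =
      (x :: (Q1.flatten ++ (A ++ [w]))) ++ (D' ++ RL r y Q2) := by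
    simp [RL]
  have hnd := T.nd
  have hK4 : ∀ v ∈ K, v ∉ RL x y (Q1 ++ (A ++ w :: (D' ++ [r])) :: Q2) := fun v hv => (hK3 v hv).1
  rw [hRL] at hnd
  simp only [hRL] at hK4
  obtain ⟨hn1, hn2, hn3⟩ := List.nodup_append'.1 hnd
  obtain ⟨hn4, hn5, hn6⟩ := List.nodup_append'.1 hn2
  have hKF : ∀ v ∈ K, v ∉ x :: (Q1.flatten ++ (A ++ [w])) :=
    fun v hv hv' => hK4 v hv (List.mem_append_left _ hv')
  obtain ⟨p, q, g1, g2, g3⟩ := T.lk.split
  have hq : q = r := by
    have h := g2.lt
    rw [List.getLast?_append_of_ne_nil _ (by simp), List.getLast?_cons_of_ne_nil (by simp),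
      List.getLast?_append_of_ne_nil _ (by simp)] at h
    have : r = q := by simpa using h
    exact this.symm
  subst hq
  -- the path of segments
  have hR : RP G L q y Q2 := ⟨hn5, fun Q hQ => T.two Q (by simp [hQ]), g3⟩
  -- the closed list
  have hlen : 3 ≤ (x :: (Q1.flatten ++ (A ++ [w]))).length := by
    simp only [List.length_cons, List.length_append, List.length_nil]
    cases Q1 with
    | nil =>
      cases A with
      | nil => exact absurd ⟨rfl, rfl⟩ hQA
      | cons a0 A =>
        simp only [List.length_cons]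
        omega
    | cons Q Q1 =>
      have h4 := T.two Q (by simp)
      simp only [List.flatten_cons, List.length_append]
      omega
  have hC : Cl G a x (K ++ (x :: (Q1.flatten ++ (A ++ [w]))).reverse) :=
    ⟨h1, pd7_nodup hn1 hK2 hKF, h2, by rw [List.length_append, List.length_reverse]; omega⟩
  -- the first edge of `L`
  have hfirst : ∃ c, s(x, c) ∈ L ∧ EL (x :: (Q1.flatten ++ (A ++ [w]))) x c := by
    cases Q1 with
    | nil =>
      cases A with
      | nil => exact absurd ⟨rfl, rfl⟩ hQA
      | cons a0 A =>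
        obtain ⟨c, d, e1, e2, e3⟩ := T.lk
        have : a0 = c := by have := e2.hd; simpa using this
        subst this
        exact ⟨a0, e1, Or.inl ⟨[], A ++ [w], by simp⟩⟩
    | cons Q Q1 =>
      obtain ⟨c, d, e1, e2, e3⟩ := T.lk
      obtain ⟨Q', hQ'⟩ := List.head?_eq_some_iff.1 e2.hd
      refine ⟨c, e1, Or.inl ⟨[], Q' ++ (Q1.flatten ++ (A ++ [w])), ?_⟩⟩
      rw [hQ']
      simp
  obtain ⟨c0, hc0, hc1⟩ := hfirst
  have hmono : ∀ {c d : V}, EL (x :: (Q1.flatten ++ (A ++ [w]))) c d →
      EL (K ++ (x :: (Q1.flatten ++ (A ++ [w]))).reverse) c d :=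
    fun h => h.reverse.mono (List.suffix_append _ _).isInfix
  have hmem : ∀ v, v ∈ K ++ (x :: (Q1.flatten ++ (A ++ [w]))).reverse →
      v ∈ K ∨ v ∈ x :: (Q1.flatten ++ (A ++ [w])) := by
    intro v hv
    rcases List.mem_append.1 hv with hv | hv
    · exact Or.inl hv
    · exact Or.inr (List.mem_reverse.1 hv)
  obtain ⟨Ps, hP, hLC⟩ := lc_of_closed S.ind hC hR
    (fun Q hQ c d hcd => T.noQ S.ind (by simp [hQ]) hcd) (by
      intro v hv hv'
      rcases hmem v hv with hv | hv
      · exact hK4 v hv (List.mem_append_right _ (List.mem_append_right _ hv'))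
      · exact hn3 hv (List.mem_append_right _ hv')) hc0 (Or.inl (hmono hc1)) (by
      intro c d hcd
      have h4 := T.cov S.ind hcd
      have h5 : RL x y (Q1 ++ (A ++ w :: (D' ++ [q])) :: Q2) =
          (x :: (Q1.flatten ++ A)) ++ w :: (D' ++ q :: (Q2.flatten ++ [y])) := by
        simp [RL]
      rw [h5] at h4
      rcases h4.split with h4 | h4
      · left
        left
        apply hmono
        simpa using h4
      · have h6 : EL ((w :: D') ++ q :: (Q2.flatten ++ [y])) c d := by simpa using h4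
        rcases h6.split with h6 | h6
        · exfalso
          refine T.noQ S.ind (Q := A ++ w :: (D' ++ [q])) (by simp) hcd ?_
          exact h6.mono ⟨A, [], by simp⟩
        · exact Or.inr h6)
  refine ⟨y, q, Ps, rv Q2, hLC.revR, w, hP.mem_iff.2 ?_, ?_⟩
  · simp
  · rw [OL_revR]
    refine (pd7_con (D := D') ?_ ?_).symm
    · have h7 : Ch G w q (w :: (D' ++ [q])) := g2.right
      exact h7
    · intro v hv
      refine ⟨?_, ?_⟩
      · intro hv'
        rcases hmem v (hP.mem_iff.1 hv') with hv' | hv'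
        · exact hK4 v hv' (List.mem_append_right _ (List.mem_append_left _ hv))
        · exact hn3 hv' (List.mem_append_left _ hv)
      · intro hv'
        exact hn6 hv hv'

/-- the first end is attached to all last vertices -/
private theorem pd7_att [Fintype V] (S : Bs G L k) (T : TP G L x y Qs)
    (hno : ¬ ∃ x y Ps Qs, LC G L x y Ps Qs ∧ Lkd G x y Ps Qs) {Q : List V} (hQ : Q ∈ Qs) {r : V}
    (hr : Q.getLast? = some r) : Con G (OT x y Qs) x r := by
  by_contra hcon
  have hxy := pd7_xy S T
  have hnd := T.nd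
  have hnd1 := List.nodup_cons.1 hnd
  have hxney : x ≠ y := by
    intro h
    apply hnd1.1
    rw [← h]
    simp
  have hxO : x ∉ OT x y Qs := fun h => h (by simp [RL])
  have hyO : y ∉ OT x y Qs := fun h => h (by simp [RL])
  set U : Finset V := Finset.univ.filter
    (fun w => w ≠ x ∧ w ∈ RL x y Qs ∧ Con G (OT x y Qs) x w) with hU
  have hk : k ≤ U.card := by
    refine sep_card S (A := {v | v = x ∨ v ∈ Att G (OT x y Qs) x}) (a := x) (z := y)
      (Or.inl rfl) ?_ ?_ ?_ ?_
    · rw [hU]
      simp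
    · intro a ha w haw
      by_cases hwx : w = x
      · exact Or.inl (Or.inl hwx)
      by_cases hwR : w ∈ RL x y Qs
      · right
        rw [hU, Finset.mem_filter]
        refine ⟨Finset.mem_univ _, hwx, hwR, ?_⟩
        rcases ha with rfl | ha
        · exact Or.inl haw
        · exact Or.inr ⟨a, ha, haw⟩
      · left
        right
        rcases ha with rfl | ha
        · exact att_of_adj haw hwR
        · exact att_step ha haw hwR
    · rintro (h | h)
      · exact hxney h.symm
      · exact hyO (att_mem h)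
    · rw [hU, Finset.mem_filter]
      rintro ⟨-, -, -, h⟩
      exact hxy h
  set B : List V := (Qs.flatten.head?.getD x) :: Qs.map (fun P => P.getLast?.getD x) with hB
  have hsub : U ⊆ B.toFinset.erase r := by
    intro w hw
    rw [hU, Finset.mem_filter] at hw
    obtain ⟨-, h1, h2, h3⟩ := hw
    rw [Finset.mem_erase, List.mem_toFinset]
    refine ⟨?_, ?_⟩
    · rintro rfl
      exact hcon h3
    · rcases mem_RL.1 h2 with h4 | h4 | h4
      · exact absurd h4 h1
      · obtain ⟨P, hP, hwP⟩ := List.mem_flatten.1 h4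
        obtain ⟨Q1, Q2, hQs⟩ := List.append_of_mem hP
        obtain ⟨A, D, hPe⟩ := List.append_of_mem hwP
        by_cases hD : D = []
        · rw [hB]
          refine List.mem_cons_of_mem _ (List.mem_map.2 ⟨P, hP, ?_⟩)
          rw [hPe, hD]
          simp
        · rw [hPe] at hQs
          obtain ⟨h5, h6⟩ := pd7_int S T hno hQs h3 hD
          rw [hB, hQs, h5, h6]
          simp
      · rw [h4] at h3
        exact absurd h3 hxy
  have hrB : r ∈ B.toFinset := by
    rw [List.mem_toFinset, hB]
    refine List.mem_cons_of_mem _ (List.mem_map.2 ⟨Q, hQ, ?_⟩)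
    rw [hr]
    rfl
  have h7 := Finset.card_le_card hsub
  have h8 := Finset.card_erase_of_mem hrB
  have h9 := List.toFinset_card_le B
  have h10 : B.length = Qs.length + 1 := by
    rw [hB]
    simp
  have h11 := T.card
  have h12 := S.card
  have h13 := S.k2
  omega

/-- (M1) -/
theorem exists_lc [Fintype V] (S : Bs G L k) (T : TP G L x y Qs) :
    ∃ x y Ps Qs, LC G L x y Ps Qs ∧ Lkd G x y Ps Qs := by
  by_contra hno
  have hxy := pd7_xy S T
  have hne := pd7_ne S T
  obtain ⟨Q1, Q, hQs⟩ : ∃ Q1 Q, Qs = Q1 ++ [Q] :=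
    ⟨_, _, (List.dropLast_append_getLast hne).symm⟩
  have hQm : Q ∈ Qs := by rw [hQs]; simp
  have hQ2 := T.two Q hQm
  obtain ⟨h, M, r, hQ⟩ : ∃ h M r, Q = h :: (M ++ [r]) := by
    match Q, hQ2 with
    | a :: b :: Q, _ =>
      exact ⟨a, _, _, by rw [List.dropLast_append_getLast (l := b :: Q) (by simp)]⟩
  have hr : Con G (OT x y Qs) x r := by
    refine pd7_att S T hno hQm ?_
    rw [hQ, List.getLast?_cons_of_ne_nil (by simp), List.getLast?_append_of_ne_nil _ (by simp)]
    rfl
  have hh : Con G (OT x y Qs) y h := by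
    have h1 := pd7_att S T.rev hno (Q := Q.reverse) (r := h)
      (by rw [mem_rv, List.reverse_reverse]; exact hQm) (by rw [List.getLast?_reverse, hQ]; rfl)
    rwa [OT_rev] at h1
  obtain ⟨K1, a1, a2, a3⟩ := hh.link
  obtain ⟨K2, b1, b2, b3⟩ := hr.link
  subst hQ
  have hlk : Lk G L x (Q1 ++ ([] ++ h :: (M ++ [r])) :: []) y := by
    have := T.lk
    rw [hQs] at this
    exact this
  have hF1 : Ch G x h (x :: (Q1.flatten ++ ([] ++ [h]))) := lk_ch_left S.sub hlk
  have hK1 : Ch G h y (h :: (K1.reverse ++ [y])) := by simpa using a1.reverse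
  have hF2 : Ch G x y ((x :: Q1.flatten) ++ h :: (K1.reverse ++ [y])) :=
    Ch.glue (by simpa using hF1) hK1
  obtain ⟨p, q, g1, g2, g3⟩ := hlk.split
  have hq : q = r := by
    have h := g2.lt
    rw [List.nil_append, List.getLast?_cons_of_ne_nil (by simp),
      List.getLast?_append_of_ne_nil _ (by simp)] at h
    have : r = q := by simpa using h
    exact this.symm
  subst hq
  have hry : s(q, y) ∈ L := g3
  have hadj : G.Adj y q := by
    have := S.sub _ hry
    rw [mem_edgeSet] at this
    exact this.symm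
  have hRL : RL x y Qs = (x :: Q1.flatten) ++ h :: (M ++ q :: [y]) := by
    rw [hQs]
    simp [RL]
  have hnd := T.nd
  have ha3 : ∀ v ∈ K1, v ∉ RL x y Qs := fun v hv => (a3 v hv).1
  have hb3 : ∀ v ∈ K2, v ∉ RL x y Qs := fun v hv => (b3 v hv).1
  have hK12 : ∀ v ∈ K2, v ∉ K1 := by
    intro v hv hv'
    exact hxy (con_of_att (b3 v hv).2.1 (a3 v hv').2.1)
  rw [hRL] at hnd
  simp only [hRL] at ha3 hb3
  refine pd7_full S (hF2.concat hadj) ?_ ?_ b1 b2 ?_ ?_
  · have hbig : (K1 ++ ((x :: Q1.flatten) ++ h :: (M ++ q :: [y]))).Nodup := by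
      rw [List.nodup_append']
      exact ⟨a2, hnd, fun v hv hv' => ha3 v hv hv'⟩
    refine nodup_of_count hbig ?_
    intro v
    simp only [List.count_append, List.count_cons, List.count_reverse, List.count_nil]
    omega
  · simp only [List.length_append, List.length_cons, List.length_nil]
    omega
  · intro v hv hv'
    have h1 := hb3 v hv
    have h2 := hK12 v hv
    simp only [List.mem_append, List.mem_cons, List.mem_reverse, List.not_mem_nil, or_false,
      not_or] at h1 hv'
    tauto
  · intro c d hcd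
    have h4 := T.cov S.ind hcd
    rw [hRL] at h4
    rcases h4.split with h4 | h4
    · exact h4.mono ⟨[], K1.reverse ++ [y] ++ [q], by simp⟩
    · have h6 : EL ((h :: M) ++ q :: [y]) c d := by simpa using h4
      rcases h6.split with h6 | h6
      · exact absurd h6 (T.noQ S.ind hQm hcd)
      · have h7 : EL [y, q] c d := by simpa using h6.reverse
        exact h7.mono ⟨(x :: Q1.flatten) ++ h :: K1.reverse, [], by simp⟩

end Pool.Agent.LW
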