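import Pool.Agent.LW.PB5
import Pool.Agent.LW.PB4

set_option autoImplicit false

/-!
# Case II and Case I: definitions
-/

namespace Pool.Agent.LW

open SimpleGraph Classical

universe w

variable {V : Type w} {G H : SimpleGraph V} {L : Finset (Sym2 V)} {k : ℕ}
  {x y : V} {Ps Qs Ex Ey : List (List V)}

/-- a rotation of a cyclic list -/
def Rot {α : Type w} (Ps Rs : List α) : Prop := ∃ A D, Ps = A ++ D ∧ Rs = D ++ A

theorem Rot.symm {α : Type w} {Ps Rs : List α} (h : Rot Ps Rs) : Rot Rs Ps := by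
  obtain ⟨A, D, h1, h2⟩ := h
  exact ⟨D, A, h2, h1⟩

theorem Rot.mem {α : Type w} {Ps Rs : List α} (h : Rot Ps Rs) {P : α} : P ∈ Ps ↔ P ∈ Rs := by
  obtain ⟨A, D, h1, h2⟩ := h
  rw [h1, h2, List.mem_append, List.mem_append]
  tauto

theorem LC.rotR (C : LC G L x y Ps Qs) {Rs : List (List V)} (h : Rot Ps Rs) :
    LC G L x y Rs Qs := by
  obtain ⟨A, D, h1, h2⟩ := h
  rw [h2]
  exact LC.rot (h1 ▸ C)

theorem OL_rotR {Rs : List (List V)} (h : Rot Ps Rs) : OL Ps x y Qs = OL Rs x y Qs := by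
  obtain ⟨A, D, h1, h2⟩ := h
  rw [h1, h2]
  exact OL_rot

/-- the hosts `Ps ++ Ex` of `x` and `Ps ++ Ey` of `y` -/
structure HD (G : SimpleGraph V) (x y : V) (Ps Qs Ex Ey : List (List V)) : Prop where
  nx : (Ps ++ Ex).flatten.Nodup
  ny : (Ps ++ Ey).flatten.Nodup
  ex : ∀ Q ∈ Ex, Q ∈ Qs ∨ Q = [y]
  ey : ∀ Q ∈ Ey, Q ∈ Qs ∨ Q = [x]
  xy : ∀ Q ∈ Qs, Q ∈ Ex ↔ Q ∈ Ey
  kap : ∀ o ∈ Att G (OL Ps x y Qs) x, o ∉ Att G (OL Ps x y Qs) y

private theorem pe0_mem (D : HD G x y Ps Qs Ex Ey) {v : V} (hv : v ∈ (Ps ++ Ex).flatten) :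
    v ∈ Ps.flatten ∨ v ∈ Qs.flatten ∨ v = y := by
  rw [List.flatten_append, List.mem_append] at hv
  rcases hv with hv | hv
  · exact Or.inl hv
  · obtain ⟨Q, hQ, hvQ⟩ := List.mem_flatten.1 hv
    rcases D.ex Q hQ with h | h
    · exact Or.inr (Or.inl (List.mem_flatten.2 ⟨Q, h, hvQ⟩))
    · rw [h, List.mem_singleton] at hvQ
      exact Or.inr (Or.inr hvQ)

private theorem pe0_mem' (D : HD G x y Ps Qs Ex Ey) {v : V} (hv : v ∈ (Ps ++ Ey).flatten) :
    v ∈ Ps.flatten ∨ v ∈ Qs.flatten ∨ v = x := by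
  rw [List.flatten_append, List.mem_append] at hv
  rcases hv with hv | hv
  · exact Or.inl hv
  · obtain ⟨Q, hQ, hvQ⟩ := List.mem_flatten.1 hv
    rcases D.ey Q hQ with h | h
    · exact Or.inr (Or.inl (List.mem_flatten.2 ⟨Q, h, hvQ⟩))
    · rw [h, List.mem_singleton] at hvQ
      exact Or.inr (Or.inr hvQ)

private theorem pe0_flatten (M : List (List V)) : (M.map List.reverse).flatten.Perm M.flatten := by
  induction M with
  | nil => exact List.Perm.refl _
  | cons a M ih =>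
    rw [List.map_cons, List.flatten_cons, List.flatten_cons]
    exact (List.reverse_perm a).append ih

private theorem pe0_mem_rv (M : List (List V)) (Q : List V) : Q ∈ rv M ↔ Q.reverse ∈ M := by
  unfold rv
  rw [List.mem_reverse, List.mem_map]
  constructor
  · rintro ⟨R, hR, rfl⟩
    rwa [List.reverse_reverse]
  · intro h
    exact ⟨Q.reverse, h, List.reverse_reverse Q⟩

private theorem pe0_mem_map (M : List (List V)) (Q : List V) :
    Q ∈ M.map List.reverse ↔ Q.reverse ∈ M := by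
  rw [List.mem_map]
  constructor
  · rintro ⟨R, hR, rfl⟩
    rwa [List.reverse_reverse]
  · intro h
    exact ⟨Q.reverse, h, List.reverse_reverse Q⟩

private theorem pe0_nd (C : LC G L x y Ps Qs) : x ∉ Ps.flatten ∧ x ∉ Qs.flatten ∧ x ≠ y ∧
    y ∉ Ps.flatten ∧ y ∉ Qs.flatten := by
  have h := C.nd
  unfold RL at h
  rw [List.nodup_append] at h
  obtain ⟨_, h2, h3⟩ := h
  rw [List.nodup_cons, List.nodup_append] at h2
  obtain ⟨h4, _, _, h5⟩ := h2
  refine ⟨fun hx => h3 x hx x List.mem_cons_self rfl, fun hx => h4 (List.mem_append_left _ hx),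
    fun hx => h4 (List.mem_append_right _ (by rw [hx]; exact List.mem_singleton_self y)),
    fun hy => h3 y hy y (List.mem_cons_of_mem _
      (List.mem_append_right _ (List.mem_singleton_self y))) rfl,
    fun hy => h5 y hy y (List.mem_singleton_self y) rfl⟩

theorem HD.hx (C : LC G L x y Ps Qs) (D : HD G x y Ps Qs Ex Ey) :
    x ∉ (Ps ++ Ex).flatten ∧ ∀ v ∈ (Ps ++ Ex).flatten, v ∉ OL Ps x y Qs := by
  obtain ⟨h1, h2, h3, _, _⟩ := pe0_nd C
  refine ⟨fun hx => ?_, fun v hv hO => ?_⟩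
  · rcases pe0_mem D hx with h | h | h
    · exact h1 h
    · exact h2 h
    · exact h3 h
  · rcases pe0_mem D hv with h | h | h
    · exact hO.1 h
    · exact hO.2 (List.mem_cons_of_mem _ (List.mem_append_left _ h))
    · exact hO.2 (by
        rw [h]
        exact List.mem_cons_of_mem _ (List.mem_append_right _ (List.mem_singleton_self y)))

theorem HD.hy (C : LC G L x y Ps Qs) (D : HD G x y Ps Qs Ex Ey) :
    y ∉ (Ps ++ Ey).flatten ∧ ∀ v ∈ (Ps ++ Ey).flatten, v ∉ OL Ps x y Qs := by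
  obtain ⟨_, _, h3, h1, h2⟩ := pe0_nd C
  refine ⟨fun hx => ?_, fun v hv hO => ?_⟩
  · rcases pe0_mem' D hx with h | h | h
    · exact h1 h
    · exact h2 h
    · exact h3 h.symm
  · rcases pe0_mem' D hv with h | h | h
    · exact hO.1 h
    · exact hO.2 (List.mem_cons_of_mem _ (List.mem_append_left _ h))
    · exact hO.2 (by
        rw [h]
        exact List.mem_cons_self)

/-- exchanging `x` and `y` -/
theorem HD.swap (D : HD G x y Ps Qs Ex Ey) :
    HD G y x Ps (rv Qs) (Ey.map List.reverse) (Ex.map List.reverse) := by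
  refine ⟨?_, ?_, ?_, ?_, ?_, ?_⟩
  · have h := D.ny
    rw [List.flatten_append] at h ⊢
    exact (((List.Perm.refl Ps.flatten).append (pe0_flatten Ey)).nodup_iff).2 h
  · have h := D.nx
    rw [List.flatten_append] at h ⊢
    exact (((List.Perm.refl Ps.flatten).append (pe0_flatten Ex)).nodup_iff).2 h
  · intro Q hQ
    rw [pe0_mem_map] at hQ
    rcases D.ey _ hQ with h | h
    · exact Or.inl ((pe0_mem_rv Qs Q).2 h)
    · right
      have := congrArg List.reverse h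
      rwa [List.reverse_reverse] at this
  · intro Q hQ
    rw [pe0_mem_map] at hQ
    rcases D.ex _ hQ with h | h
    · exact Or.inl ((pe0_mem_rv Qs Q).2 h)
    · right
      have := congrArg List.reverse h
      rwa [List.reverse_reverse] at this
  · intro Q hQ
    rw [pe0_mem_map, pe0_mem_map]
    exact (D.xy _ ((pe0_mem_rv Qs Q).1 hQ)).symm
  · intro o ho ho'
    rw [OL_revR] at ho ho'
    exact D.kap o ho' ho

/-- reversing `Z` -/
theorem HD.revZ (D : HD G x y Ps Qs Ex Ey) : HD G x y (rv Ps) Qs Ex Ey := by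
  have key : ∀ E : List (List V), (Ps ++ E).flatten.Nodup → (rv Ps ++ E).flatten.Nodup := by
    intro E h
    rw [List.flatten_append] at h ⊢
    rw [flatten_rv]
    exact (((List.reverse_perm Ps.flatten).append (List.Perm.refl E.flatten)).nodup_iff).2 h
  refine ⟨key Ex D.nx, key Ey D.ny, D.ex, D.ey, D.xy, ?_⟩
  intro o ho ho'
  rw [OL_revZ] at ho ho'
  exact D.kap o ho ho'

/-- (K1), (K2), (K3) for levels with sum less than `n`; `LX`, `LY` are the levels of `x`, `y` -/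
structure KH (Ps Qs : List (List V)) (c n : ℕ) (LX LY : ℕ → Set V) : Prop where
  k1 : ∀ t t', t + t' < n → ∀ P ∈ Ps, ∀ u ∈ P, ∀ v ∈ P, u ∈ LX t → v ∈ LY t' → u = v
  k3 : ∀ t t', t + t' < n → ∀ Q ∈ Qs, ∀ u ∈ LX t, ∀ v ∈ LY t', ¬ Bf Q v u
  k2 : ∀ t t', t + t' < n → ∀ P M P' N, Rot Ps (P :: (M ++ P' :: N)) → M.length + 1 < c →
    ∀ u ∈ P, u ∈ LX t → P.getLast? ≠ some u → ∀ v ∈ P', v ∈ LY t' → P'.head? = some v
  k2' : ∀ t t', t + t' < n → ∀ P M P' N, Rot Ps (P :: (M ++ P' :: N)) → M.length + 1 < c →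
    ∀ v ∈ P, v ∈ LY t' → P.getLast? ≠ some v → ∀ u ∈ P', u ∈ LX t → P'.head? = some u

/-- (K1) and (K2) for the closures -/
structure SL (Ps : List (List V)) (c : ℕ) (X Y : Set V) : Prop where
  nd : Ps.flatten.Nodup
  two : ∀ P ∈ Ps, 2 ≤ P.length
  hc1 : 1 ≤ c
  hc : c ≤ Ps.length
  k1 : ∀ P ∈ Ps, ∀ u ∈ P, ∀ v ∈ P, u ∈ X → v ∈ Y → u = v
  k2 : ∀ P M P' N, Rot Ps (P :: (M ++ P' :: N)) → M.length + 1 < c →
    ∀ u ∈ P, u ∈ X → P.getLast? ≠ some u → ∀ v ∈ P', v ∈ Y → P'.head? = some v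
  k2' : ∀ P M P' N, Rot Ps (P :: (M ++ P' :: N)) → M.length + 1 < c →
    ∀ v ∈ P, v ∈ Y → P.getLast? ≠ some v → ∀ u ∈ P', u ∈ X → P'.head? = some u

/-- no cycle off `Z` contains all edges of `L` of the path -/
def NoCyc (G : SimpleGraph V) (L : Finset (Sym2 V)) (x y : V) (Ps Qs : List (List V)) : Prop :=
  ∀ a b D, Cl G a b D → (∀ v ∈ D, v ∉ Ps.flatten) →
    ∃ c d, s(c, d) ∈ L ∧ EL (RL x y Qs) c d ∧ ¬ EC a b D c d

end Pool.Agent.LW
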