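import Pool.Agent.LW.PE0

set_option autoImplicit false

/-!
# Slots
-/

namespace Pool.Agent.LW

open SimpleGraph Classical

universe w

variable {V : Type w} {G H : SimpleGraph V} {L : Finset (Sym2 V)} {k : ℕ}
  {x y : V} {Ps Qs Ex Ey : List (List V)}

private theorem pe1_perm {α : Type w} {Ps Rs : List α} (h : Rot Ps Rs) : Ps.Perm Rs := by
  obtain ⟨A, D, h1, h2⟩ := h
  rw [h1, h2]
  exact List.perm_append_comm

private theorem pe1_rot {α : Type w} {Ps A D : List α} (h : Rot Ps (A ++ D)) :
    Rot Ps (D ++ A) := by
  obtain ⟨A', D', h1, h2⟩ := h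
  rcases List.append_eq_append_iff.1 h2 with ⟨a, h3, h4⟩ | ⟨a, h3, h4⟩
  · -- `D' = A ++ a`, `D = a ++ A'`
    refine ⟨A' ++ A, a, ?_, ?_⟩
    · rw [h1, h3]; simp
    · rw [h4]; simp
  · -- `A = D' ++ a`, `A' = a ++ D`
    refine ⟨a, D ++ D', ?_, ?_⟩
    · rw [h1, h4]; simp
    · rw [h3]; simp

private theorem pe1_count {α : Type w} (p q : α → Prop) (l : List α) :
    (l.filter (fun P => p P)).length + (l.filter (fun P => q P)).length =
      (l.filter (fun P => p P ∨ q P)).length + (l.filter (fun P => p P ∧ q P)).length := by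
  induction l with
  | nil => simp
  | cons a l ih =>
    by_cases hp : p a <;> by_cases hq : q a <;>
      simp only [List.filter_cons, hp, hq, decide_true, decide_false, or_true, true_or,
        or_self, and_true, and_false, and_self, if_true, if_false,
        List.length_cons, Bool.false_eq_true] <;> omega

/-- the gap from `p` to `q` -/
theorem slot_sum {α : Type w} (p q : α → Prop) {Ps : List α} {c : ℕ} (hc : c ≤ Ps.length)
    (hrot : ∀ P M P' N, Rot Ps (P :: (M ++ P' :: N)) → p P → q P' → c ≤ M.length + 1)
    (h1 : ∃ P ∈ Ps, p P) (h2 : ∃ P ∈ Ps, q P) :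
    (Ps.filter (fun P => p P)).length + (Ps.filter (fun P => q P)).length + c ≤
      Ps.length + 1 + (Ps.filter (fun P => p P ∧ q P)).length := by
  rw [pe1_count]
  suffices h : (Ps.filter (fun P => p P ∨ q P)).length + c ≤ Ps.length + 1 by omega
  by_cases hex : ∃ m, ∃ P M P' N, M.length = m ∧ Rot Ps (P :: (M ++ P' :: N)) ∧ p P ∧ q P'
  · obtain ⟨P, M, P', N, hm, hR, hp, hq⟩ := Nat.find_spec hex
    have hmin : ∀ P M P' N, Rot Ps (P :: (M ++ P' :: N)) → p P → q P' →
        Nat.find hex ≤ M.length := fun P M P' N hR hp hq =>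
      Nat.find_min' hex ⟨P, M, P', N, rfl, hR, hp, hq⟩
    have hM : ∀ R ∈ M, ¬ (p R ∨ q R) := by
      intro R hRM
      obtain ⟨M1, M2, hM12⟩ := List.append_of_mem hRM
      rintro (hpR | hqR)
      · have h3 : Rot Ps ((P :: M1) ++ (R :: (M2 ++ P' :: N))) := by
          rw [hM12] at hR
          simpa using hR
        have h4 := pe1_rot h3
        have h5 : Rot Ps (R :: (M2 ++ P' :: (N ++ P :: M1))) := by simpa using h4
        have h6 := hmin _ _ _ _ h5 hpR hq
        rw [← hm, hM12] at h6
        simp only [List.length_append, List.length_cons] at h6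
        omega
      · have h3 : Rot Ps (P :: (M1 ++ R :: (M2 ++ P' :: N))) := by
          rw [hM12] at hR
          simpa using hR
        have h6 := hmin _ _ _ _ h3 hp hqR
        rw [← hm, hM12] at h6
        simp only [List.length_append, List.length_cons] at h6
        omega
    have h3 := hrot P M P' N hR hp hq
    have h4 := ((pe1_perm hR).filter (fun P => decide (p P ∨ q P))).length_eq
    have h5 := (pe1_perm hR).length_eq
    have h6 : M.filter (fun P => decide (p P ∨ q P)) = [] := by
      rw [List.filter_eq_nil_iff]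
      intro R hR
      simpa using hM R hR
    rw [h4, h5, List.filter_cons, List.filter_append, h6, List.filter_cons]
    have h7 := List.length_filter_le (fun P => decide (p P ∨ q P)) N
    simp only [hp, hq, true_or, or_true, decide_true, if_true, List.nil_append,
      List.length_cons, List.length_append]
    omega
  · push Not at hex
    obtain ⟨P, hP, hp⟩ := h1
    obtain ⟨A, D, hPs⟩ := List.append_of_mem hP
    have hR : Rot Ps (P :: (D ++ A)) := ⟨A, P :: D, hPs, by simp⟩
    have hnq : ∀ P' ∈ D ++ A, ¬ q P' := by
      intro P' hP' hq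
      obtain ⟨M, N, hMN⟩ := List.append_of_mem hP'
      rw [hMN] at hR
      exact hex M.length P M P' N rfl hR hp hq
    have hq : q P := by
      obtain ⟨P', hP', hq⟩ := h2
      have h3 := (hR.mem).1 hP'
      rcases List.mem_cons.1 h3 with h3 | h3
      · rw [← h3]; exact hq
      · exact absurd hq (hnq P' h3)
    have hnp : ∀ P' ∈ D ++ A, ¬ p P' := by
      intro P' hP' hp'
      obtain ⟨M, N, hMN⟩ := List.append_of_mem hP'
      rw [hMN] at hR
      have h3 : Rot Ps ((P :: M) ++ (P' :: N)) := by simpa using hR
      have h4 := pe1_rot h3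
      have h5 : Rot Ps (P' :: (N ++ P :: M)) := by simpa using h4
      exact hex N.length P' N P M rfl h5 hp' hq
    have h4 := ((pe1_perm hR).filter (fun P => decide (p P ∨ q P))).length_eq
    have h6 : (D ++ A).filter (fun P => decide (p P ∨ q P)) = [] := by
      rw [List.filter_eq_nil_iff]
      intro R hR
      have := hnp R hR
      have := hnq R hR
      simp_all
    rw [h4, List.filter_cons, h6]
    simp only [hp, true_or, decide_true, if_true, List.length_cons, List.length_nil]
    omega

end Pool.Agent.LW
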