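import Pool.Agent.LW.PE4
import Pool.Agent.LW.PB2

set_option autoImplicit false

/-!
# (K2)
-/

namespace Pool.Agent.LW

open SimpleGraph Classical

universe w

variable {V : Type w} {G H : SimpleGraph V} {L : Finset (Sym2 V)} {k : ℕ}
  {x y : V} {Ps Qs Ex Ey : List (List V)}

private theorem pe6_app {F X Y : List V} {a b : V} (h : [a, b] <:+: F) :
    [a, b] <:+: X ++ (F ++ Y) := by
  obtain ⟨s, t, hst⟩ := h
  exact ⟨X ++ s, t ++ Y, by rw [← hst]; simp⟩

private theorem pe6_junc {P0 P1 Q0 Q1 A B : List V} {N : List (List V)} {c d : V}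
    (h0 : Q0.getLast? = P0.getLast?) (h1 : Q1.head? = P1.head?)
    (h : [A, B] <:+: P0 :: (N ++ [P1])) (hc : A.getLast? = some c) (hd : B.head? = some d) :
    [c, d] <:+: Q0 ++ (N.flatten ++ Q1) := by
  have key : ∀ {X Y : List V}, X.getLast? = some c → Y.head? = some d → [c, d] <:+: X ++ Y := by
    intro X Y hX hY
    rcases List.eq_nil_or_concat X with h2 | ⟨X', p, h2⟩
    · rw [h2] at hX; simp at hX
    · cases Y with
      | nil => simp at hY
      | cons q Y =>
        rw [h2] at hX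
        simp only [List.concat_eq_append, List.getLast?_append, List.getLast?_singleton,
          Option.some_or, Option.some.injEq] at hX
        simp only [List.head?_cons, Option.some.injEq] at hY
        exact ⟨X', Y, by rw [h2, hX, hY]; simp⟩
  induction N generalizing P0 Q0 with
  | nil =>
    obtain ⟨s, t, hst⟩ := h
    have hl := congrArg List.length hst
    simp only [List.length_append, List.length_cons, List.length_nil] at hl
    have hs : s = [] := List.length_eq_zero_iff.1 (by omega)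
    have ht : t = [] := List.length_eq_zero_iff.1 (by omega)
    subst hs; subst ht
    simp only [List.nil_append, List.append_nil, List.cons.injEq, and_true] at hst
    obtain ⟨e1, e2⟩ := hst
    subst e1; subst e2
    simpa using key (h0.trans hc) (h1.trans hd)
  | cons R N ih =>
    obtain ⟨s, t, hst⟩ := h
    cases s with
    | nil =>
      simp only [List.nil_append, List.cons_append, List.cons.injEq] at hst
      obtain ⟨e1, e2, -⟩ := hst
      subst e1; subst e2
      have h2 := key (h0.trans hc) hd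
      have h3 := pe6_app (X := []) (Y := N.flatten ++ Q1) h2
      simpa using h3
    | cons S s =>
      simp only [List.cons_append, List.cons.injEq] at hst
      have h2 : [A, B] <:+: R :: (N ++ [P1]) := ⟨s, t, by simpa using hst.2⟩
      have h3 := pe6_app (X := Q0) (Y := []) (ih (Q0 := R) rfl h2)
      simpa using h3

private theorem pe6_pair1 {z a b : V} : ¬ [a, b] <:+: [z] := by
  intro hh
  obtain ⟨U, W, hUW⟩ := hh
  have := congrArg List.length hUW
  simp only [List.length_append, List.length_cons, List.length_nil] at this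
  omega

private theorem pe6_bf {Q : List V} {s s' : V} (h : Bf Q s s') (hn : Q.Nodup) :
    Q.getLast? ≠ some s ∧ Q.head? ≠ some s' := by
  obtain ⟨A, M, D, hQ⟩ := h.split
  subst hQ
  have hn1 := hn
  rw [List.nodup_append', List.nodup_cons] at hn1
  constructor
  · intro h1
    have h2 : s ∈ M ++ s' :: D := by
      rw [show A ++ s :: (M ++ s' :: D) = (A ++ s :: M) ++ s' :: D by simp,
        List.getLast?_append_of_ne_nil _ (by simp)] at h1
      exact List.mem_append_right _ (List.mem_of_getLast? h1)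
    exact hn1.2.1.1 h2
  · intro h1
    cases A with
    | nil =>
      simp only [List.nil_append, List.head?_cons, Option.some.injEq] at h1
      exact hn1.2.1.1 (by rw [h1]; simp)
    | cons p A =>
      simp only [List.cons_append, List.head?_cons, Option.some.injEq] at h1
      exact hn1.2.2 (show p ∈ p :: A by simp) (by rw [h1]; simp)

private theorem pe6_rot {α : Type w} {a b c : List α} (h : Rot a b) (h' : Rot b c) : Rot a c := by
  obtain ⟨A, D, h1, h2⟩ := h
  obtain ⟨B, E, h3, h4⟩ := h'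
  have h5 := h2.symm.trans h3
  rcases List.append_eq_append_iff.1 h5 with ⟨as, g1, g2⟩ | ⟨bs, g1, g2⟩
  · exact ⟨as, E ++ D, by rw [h1, g2]; simp, by rw [h4, g1]; simp⟩
  · exact ⟨A ++ B, bs, by rw [h1, g1]; simp, by rw [h4, g2]; simp⟩

/-- the ends of a hull with an edge -/
private theorem pe6_he {Hs : List (List V)} {S : Set V} {a b : V} (hn : Hs.flatten.Nodup)
    (h : HE Hs S a b) : ∃ Q ∈ Hs, [a, b] <:+: Q ∧ ∃ s ∈ S, ∃ s' ∈ S, s ∈ Q ∧ s' ∈ Q ∧ s ≠ s' ∧
      Q.getLast? ≠ some s ∧ Q.head? ≠ some s' := by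
  obtain ⟨Q, hQ, s, hs, s', hs', X, M, Y, e1, e2, e3, e4⟩ := h
  have hQn := flat_nodup hn hQ
  have hb : Bf Q s s' := by
    cases M with
    | nil => simp at e2
    | cons p M =>
      simp only [List.head?_cons, Option.some.injEq] at e2
      subst e2
      rcases List.eq_nil_or_concat M with h5 | ⟨M', q, h5⟩
      · rw [h5] at e4
        exact absurd e4 pe6_pair1
      · rw [h5, show p :: M'.concat q = (p :: M') ++ [q] by simp,
          List.getLast?_append_of_ne_nil _ (by simp)] at e3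
        simp only [List.getLast?_singleton, Option.some.injEq] at e3
        subst e3
        rw [e1, h5]
        have : Bf (X ++ p :: (M' ++ q :: Y)) p q := Bf.intro
        simpa using this
  obtain ⟨g1, g2⟩ := pe6_bf hb hQn
  refine ⟨Q, hQ, ?_, s, hs, s', hs', hb.memL, hb.memR, hb.ne hQn, g1, g2⟩
  rw [e1]
  exact pe6_app (X := X) (Y := Y) e4

private theorem pe6_con {O : Set V} {l v : V} {E : List V}
    (h : (l :: (E ++ [v])).IsChain G.Adj) (hE : ∀ w ∈ E, w ∈ O) : Con G O l v := by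
  cases E with
  | nil =>
    left
    simpa using h
  | cons a E =>
    right
    have h1 : Ch G l v (l :: ((a :: E) ++ [v])) := by
      refine ⟨rfl, ?_, h⟩
      rw [show l :: ((a :: E) ++ [v]) = (l :: a :: E) ++ [v] by simp,
        List.getLast?_append_of_ne_nil _ (by simp)]
      rfl
    rcases List.eq_nil_or_concat (a :: E) with h2 | ⟨E', o, h2⟩
    · simp at h2
    · have h3 : (a :: E).IsChain G.Adj := by
        refine chain_of_inf h ⟨[l], [v], by simp⟩
      refine ⟨o, ⟨a, ?_, a :: E, ⟨rfl, ?_, h3⟩, hE⟩, ?_⟩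
      · have h4 := h1.ch
        rw [List.cons_append, List.isChain_cons_cons] at h4
        exact h4.1
      · rw [h2, List.concat_eq_append, List.getLast?_append_of_ne_nil _ (by simp)]
        rfl
      · rw [h2] at h
        have h5 : [o, v] <:+: l :: (E'.concat o ++ [v]) := ⟨l :: E', [], by simp⟩
        have h6 := chain_of_inf h h5
        simpa using h6

/-- (K2), induction step -/
theorem kh_k2 [Fintype V] (S : Bs G L k) (hmin : MinC G L (Qs.length + 1))
    (C : LC G L x y Ps Qs) (D : HD G x y Ps Qs Ex Ey) {t t' : ℕ}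
    (h : KH Ps Qs (Qs.length + 1) (t + t') (LvX G x y Ps Qs Ex) (LvY G x y Ps Qs Ey))
    {P P' : List V} {M N : List (List V)} (hr : Rot Ps (P :: (M ++ P' :: N)))
    (hm : M.length + 1 < Qs.length + 1) {u v : V} (huP : u ∈ P)
    (hu : u ∈ LvX G x y Ps Qs Ex t) (hul : P.getLast? ≠ some u) (hvP : v ∈ P')
    (hv : v ∈ LvY G x y Ps Qs Ey t') : P'.head? = some v := by
  by_contra hvh
  have C' := C.rotR hr
  have hPs : P ∈ Ps := hr.mem.2 (by simp)
  have hPs' : P' ∈ Ps := hr.mem.2 (by simp)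
  have hMs : ∀ R ∈ M, R ∈ Ps := fun R hR => hr.mem.2 (by simp [hR])
  have hNs : ∀ R ∈ N, R ∈ Ps := fun R hR => hr.mem.2 (by simp [hR])
  have hZ : Ps.flatten.Nodup := (List.nodup_append'.1 C.nd).1
  -- the two segments
  obtain ⟨A, E, hPe⟩ := List.append_of_mem huP
  obtain ⟨E', D2, hPe'⟩ := List.append_of_mem hvP
  obtain ⟨E0, r, hE⟩ : ∃ E0 r, E = E0 ++ [r] := by
    rcases List.eq_nil_or_concat E with h1 | ⟨E0, r, h1⟩
    · exfalso
      apply hul
      rw [hPe, h1, List.getLast?_append_of_ne_nil _ (by simp)]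
      rfl
    · exact ⟨E0, r, by rw [h1]; simp⟩
  obtain ⟨l, E1, hE'⟩ : ∃ l E1, E' = l :: E1 := by
    cases E' with
    | nil =>
      exfalso
      apply hvh
      rw [hPe']
      rfl
    | cons l E1 => exact ⟨l, E1, rfl⟩
  subst hE hE'
  have hnd := C'.nd
  rw [hPe, hPe'] at hnd
  have hyP : y ∉ Ps.flatten := by
    intro hy
    exact (List.nodup_append'.1 C.nd).2.2 hy (mem_RL.2 (Or.inr (Or.inr rfl)))
  have hPm : ∀ w ∈ P, w ∈ Ps.flatten := fun w hw => List.mem_flatten.2 ⟨P, hPs, hw⟩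
  have hPm' : ∀ w ∈ P', w ∈ Ps.flatten := fun w hw => List.mem_flatten.2 ⟨P', hPs', hw⟩
  have hvR : v ∉ RL x y Qs := fun hv' => (List.nodup_append'.1 C.nd).2.2 (hPm' v hvP) hv'
  have hvy : v ≠ y := fun e => hyP (e ▸ hPm' v hvP)
  have hlast : P.getLast? = some r := by
    rw [hPe, show A ++ u :: (E0 ++ [r]) = (A ++ u :: E0) ++ [r] by simp,
      List.getLast?_append_of_ne_nil _ (by simp)]
    rfl
  have hhead : P'.head? = some l := by rw [hPe']; rfl
  have hne : ∀ R ∈ Ps, R ≠ [] := by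
    intro R hR h1
    have := C.twoP R hR
    rw [h1] at this; simp at this
  -- chains of segments
  have hjn : (P :: ((M ++ P' :: N) ++ [P])).IsChain (JL L) := C'.jn
  have hj1 : (P :: (M ++ [P'])).IsChain (JL L) := by
    refine chain_of_inf hjn ⟨[], N ++ [P], ?_⟩
    simp
  have hj2 : (P' :: (N ++ [P])).IsChain (JL L) := by
    refine chain_of_inf hjn ⟨P :: M, [], ?_⟩
    simp
  have hP1 : (v :: D2).getLast? = P'.getLast? := by
    rw [hPe', List.getLast?_append_of_ne_nil _ (by simp)]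
  have hP2 : (A ++ [u]).head? = P.head? := by
    rw [hPe]
    cases A with
    | nil => simp
    | cons p A => simp
  -- the walk
  set W := (v :: D2) ++ (N.flatten ++ (A ++ [u])) with hW
  have hArc : Ch G v u W := by
    have h3 := chain_congr hj2 hP1 hP2
    have h4 := flat_ch (G := G) S.sub h3 (a := v) (b := u) ?_ ?_ ?_ ?_
    · rw [hW]; simpa using h4
    · intro Q hQ
      rcases List.mem_cons.1 hQ with hQ | hQ
      · rw [hQ]
        refine chain_of_inf (C.ch P' hPs') ⟨l :: E1, [], ?_⟩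
        rw [hPe']; simp
      · rcases List.mem_append.1 hQ with hQ | hQ
        · exact C.ch Q (hNs Q hQ)
        · rw [List.mem_singleton.1 hQ]
          refine chain_of_inf (C.ch P hPs) ⟨[], E0 ++ [r], ?_⟩
          rw [hPe]; simp
    · intro Q hQ
      rcases List.mem_cons.1 hQ with hQ | hQ
      · rw [hQ]; simp
      · rcases List.mem_append.1 hQ with hQ | hQ
        · exact hne Q (hNs Q hQ)
        · rw [List.mem_singleton.1 hQ]; simp
    · simp
    · rw [show ((v :: D2) :: (N ++ [A ++ [u]])).flatten =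
          ((v :: D2) ++ (N.flatten ++ A)) ++ [u] by simp,
        List.getLast?_append_of_ne_nil _ (by simp)]
      rfl
  have hRL : Ch G x y (RL x y Qs) := lk_ch S.sub C.lk
  set F := W.reverse ++ (RL x y Qs).reverse with hFdef
  have hle : G ≤ G ⊔ SimpleGraph.edge v y := le_sup_left
  have hadj : (G ⊔ SimpleGraph.edge v y).Adj v y := by
    rw [SimpleGraph.sup_adj]
    right
    rw [SimpleGraph.edge_adj]
    exact ⟨Or.inl ⟨rfl, rfl⟩, hvy⟩
  have hF : Ch (G ⊔ SimpleGraph.edge v y) u x F :=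
    (hArc.reverse.mono hle).append (hRL.reverse.mono hle) hadj
  -- everything is disjoint
  have hbig : (F ++ (RL r l M ++ E1)).Nodup := by
    refine nodup_of_count hnd ?_
    intro w
    rw [hFdef, hW]
    simp only [RL, List.count_append, List.count_reverse, List.flatten_cons, List.flatten_append,
      List.count_cons, List.count_nil]
    omega
  have hFn : F.Nodup := (List.nodup_append'.1 hbig).1
  have hRn : (RL r l M).Nodup := (List.nodup_append'.1 (List.nodup_append'.1 hbig).2.1).1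
  have hFR' : ∀ w ∈ F, w ∉ RL r l M := fun w hw hw' =>
    (List.nodup_append'.1 hbig).2.2 hw (List.mem_append_left _ hw')
  have hFE' : ∀ w ∈ F, w ∉ E1 := fun w hw hw' =>
    (List.nodup_append'.1 hbig).2.2 hw (List.mem_append_right _ hw')
  have hRE' : ∀ w ∈ RL r l M, w ∉ E1 := fun w hw hw' =>
    (List.nodup_append'.1 (List.nodup_append'.1 hbig).2.1).2.2 hw hw'
  have hWm : ∀ w ∈ W, w ∈ Ps.flatten := by
    intro w hw
    rw [hW] at hw
    rcases List.mem_append.1 hw with hw | hw
    · apply hPm'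
      rw [hPe']
      exact List.mem_append_right _ hw
    · rcases List.mem_append.1 hw with hw | hw
      · obtain ⟨Q, hQ, hwQ⟩ := List.mem_flatten.1 hw
        exact List.mem_flatten.2 ⟨Q, hNs Q hQ, hwQ⟩
      · apply hPm
        rw [hPe]
        simp only [List.mem_append, List.mem_cons, List.not_mem_nil, or_false] at hw ⊢
        tauto
  have hFm : ∀ w ∈ F, w ∈ Ps.flatten ∨ w ∈ RL x y Qs := by
    intro w hw
    rw [hFdef, List.mem_append, List.mem_reverse, List.mem_reverse] at hw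
    exact hw.imp (hWm w) id
  have hFvy : EL F v y := by
    have e : F = (W.tail.reverse) ++ v :: y :: (RL x y Qs).reverse.tail := by
      rw [hFdef, hW]
      simp [RL]
    rw [e]
    exact EL.intro
  have hWF : ∀ a b, EL W a b → EL F a b := by
    intro a b hab
    refine hab.reverse.mono ⟨[], (RL x y Qs).reverse, ?_⟩
    rw [hFdef]; simp
  have hFN : ∀ Q ∈ N, ∀ a b, [a, b] <:+: Q → EL F a b := by
    intro Q hQ a b hab
    obtain ⟨N1, N2, hN⟩ := List.append_of_mem hQ
    apply hWF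
    left
    have h4 := pe6_app (X := (v :: D2) ++ N1.flatten) (Y := N2.flatten ++ (A ++ [u])) hab
    rw [hW, hN]
    simpa using h4
  have hFR : ∀ a b, EL (RL x y Qs) a b → EL F a b := by
    intro a b hab
    refine hab.reverse.mono ⟨W.reverse, [], ?_⟩
    rw [hFdef]; simp
  have hFQ : ∀ Q ∈ Qs, ∀ a b, [a, b] <:+: Q → EL F a b := by
    intro Q hQ a b hab
    obtain ⟨Q1, Q2, hQe⟩ := List.append_of_mem hQ
    apply hFR
    left
    have h4 := pe6_app (X := x :: Q1.flatten) (Y := Q2.flatten ++ [y]) hab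
    rw [RL, hQe]
    simpa using h4
  -- hulls
  have hnx : ∀ τ < t, ∀ a b, HE (Ps ++ Ex) (Lg G (OL Ps x y Qs) (Ps ++ Ex) x τ) a b →
      ∃ Q ∈ Ps ++ Ex, [a, b] <:+: Q ∧ Q ≠ P ∧ Q ≠ P' ∧ Q ∉ M := by
    intro τ hτ a b hab
    obtain ⟨Q, hQ, hin, s, hs, s', hs', m1, m2, hss, g1, g2⟩ := pe6_he D.nx hab
    refine ⟨Q, hQ, hin, ?_, ?_, ?_⟩
    · rintro rfl
      exact hvh (h.k2 τ t' (by omega) _ _ _ _ hr hm s m1 hs g1 v hvP hv)
    · rintro rfl
      have f1 := h.k1 τ t' (by omega) Q hPs' s m1 v hvP hs hv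
      have f2 := h.k1 τ t' (by omega) Q hPs' s' m2 v hvP hs' hv
      exact hss (f1.trans f2.symm)
    · intro hQM
      obtain ⟨M1, M2, hM⟩ := List.append_of_mem hQM
      have hr2 : Rot Ps (Q :: (M2 ++ P' :: (N ++ P :: M1))) := by
        refine pe6_rot hr ⟨P :: M1, Q :: (M2 ++ P' :: N), by rw [hM]; simp, by simp⟩
      have hl : M2.length + 1 < Qs.length + 1 := by
        rw [hM] at hm
        simp only [List.length_append, List.length_cons] at hm
        omega
      exact hvh (h.k2 τ t' (by omega) _ _ _ _ hr2 hl s m1 hs g1 v hvP hv)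
  have hny : ∀ τ < t', ∀ a b, HE (Ps ++ Ey) (Lg G (OL Ps x y Qs) (Ps ++ Ey) y τ) a b →
      ∃ Q ∈ Ps ++ Ey, [a, b] <:+: Q ∧ Q ≠ P ∧ Q ≠ P' ∧ Q ∉ M := by
    intro τ hτ a b hab
    obtain ⟨Q, hQ, hin, s, hs, s', hs', m1, m2, hss, g1, g2⟩ := pe6_he D.ny hab
    refine ⟨Q, hQ, hin, ?_, ?_, ?_⟩
    · rintro rfl
      have f1 := h.k1 t τ (by omega) Q hPs u huP s m1 hu hs
      have f2 := h.k1 t τ (by omega) Q hPs u huP s' m2 hu hs'
      exact hss (f1.symm.trans f2)
    · rintro rfl
      exact g2 (h.k2 t τ (by omega) _ _ _ _ hr hm u huP hu hul s' m2 hs')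
    · intro hQM
      obtain ⟨M1, M2, hM⟩ := List.append_of_mem hQM
      have hr2 : Rot Ps (P :: (M1 ++ Q :: (M2 ++ P' :: N))) := by
        rw [hM] at hr
        simpa using hr
      have hl : M1.length + 1 < Qs.length + 1 := by
        rw [hM] at hm
        simp only [List.length_append, List.length_cons] at hm
        omega
      exact g2 (h.k2 t τ (by omega) _ _ _ _ hr2 hl u huP hu hul s' m2 hs')
  have hcase : ∀ Q ∈ Ps, Q ≠ P → Q ≠ P' → Q ∉ M → Q ∈ N := by
    intro Q hQ h1 h2 h3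
    have h4 := hr.mem.1 hQ
    simp only [List.mem_cons, List.mem_append] at h4
    tauto
  have hhx : ∀ τ < t, ∀ a b, HE (Ps ++ Ex) (Lg G (OL Ps x y Qs) (Ps ++ Ex) x τ) a b →
      EL F a b := by
    intro τ hτ a b hab
    obtain ⟨Q, hQ, hin, n1, n2, n3⟩ := hnx τ hτ a b hab
    rcases List.mem_append.1 hQ with hQ | hQ
    · exact hFN Q (hcase Q hQ n1 n2 n3) a b hin
    · rcases D.ex Q hQ with hQ | hQ
      · exact hFQ Q hQ a b hin
      · rw [hQ] at hin; exact absurd hin pe6_pair1
  have hhy : ∀ τ < t', ∀ a b, HE (Ps ++ Ey) (Lg G (OL Ps x y Qs) (Ps ++ Ey) y τ) a b →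
      EL F a b := by
    intro τ hτ a b hab
    obtain ⟨Q, hQ, hin, n1, n2, n3⟩ := hny τ hτ a b hab
    rcases List.mem_append.1 hQ with hQ | hQ
    · exact hFN Q (hcase Q hQ n1 n2 n3) a b hin
    · rcases D.ey Q hQ with hQ | hQ
      · exact hFQ Q hQ a b hin
      · rw [hQ] at hin; exact absurd hin pe6_pair1
  have hoff : ∀ w, w ∈ F ∨ w ∈ ([] : List V) → w ∉ OL Ps x y Qs := by
    intro w hw hO
    rcases hw with hw | hw
    · rcases hFm w hw with h3 | h3
      · exact hO.1 h3
      · exact hO.2 h3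
    · simp at hw
  -- edges of `L`
  have hLH : ∀ a b, s(a, b) ∈ L → ∀ Hs : List (List V), (∀ Q ∈ Hs, Q ∈ Ps ∨ Q ∈ Qs ∨ ∃ z, Q = [z]) →
      ∀ T : Set V, ¬ HE Hs T a b := by
    intro a b hab Hs hHs T hh
    obtain ⟨Q, hQ, s, -, s', -, X, M', Y, e1, -, -, e4⟩ := hh
    have hin : EL Q a b := Or.inl (by rw [e1]; exact pe6_app (X := X) (Y := Y) e4)
    rcases hHs Q hQ with hQ | hQ | ⟨z, hQ⟩
    · exact C.noP S.ind hQ hab hin
    · exact C.noQ S.ind hQ hab hin
    · rw [hQ] at hin
      rcases hin with hin | hin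
      · exact pe6_pair1 hin
      · exact pe6_pair1 hin
  have hHx : ∀ Q ∈ Ps ++ Ex, Q ∈ Ps ∨ Q ∈ Qs ∨ ∃ z, Q = [z] := by
    intro Q hQ
    rcases List.mem_append.1 hQ with hQ | hQ
    · exact Or.inl hQ
    · rcases D.ex Q hQ with hQ | hQ
      · exact Or.inr (Or.inl hQ)
      · exact Or.inr (Or.inr ⟨y, hQ⟩)
  have hHy : ∀ Q ∈ Ps ++ Ey, Q ∈ Ps ∨ Q ∈ Qs ∨ ∃ z, Q = [z] := by
    intro Q hQ
    rcases List.mem_append.1 hQ with hQ | hQ
    · exact Or.inl hQ
    · rcases D.ey Q hQ with hQ | hQ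
      · exact Or.inr (Or.inl hQ)
      · exact Or.inr (Or.inr ⟨x, hQ⟩)
  have hLx : ∀ a b, s(a, b) ∈ L → NH G (OL Ps x y Qs) (Ps ++ Ex) x t a b := by
    intro a b hab τ _
    exact ⟨hLH a b hab _ hHx _, hLH b a (by rw [Sym2.eq_swap]; exact hab) _ hHx _⟩
  have hLy : ∀ a b, s(a, b) ∈ L → NH G (OL Ps x y Qs) (Ps ++ Ey) y t' a b := by
    intro a b hab τ _
    exact ⟨hLH a b hab _ hHy _, hLH b a (by rw [Sym2.eq_swap]; exact hab) _ hHy _⟩
  have hLF : ∀ a b, s(a, b) ∈ L → EL F a b ∨ EL (RL r l M) a b := by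
    intro a b hab
    rcases C'.cov S.ind hab with h3 | ⟨X, Y, hXY, hor⟩
    · exact Or.inl (hFR a b h3)
    · have hXY' : [X, Y] <:+: (P :: M) ++ P' :: (N ++ [P]) := by simpa using hXY
      rcases infix_pair_split hXY' with h4 | h4
      · right
        have h5 : [X, Y] <:+: P :: (M ++ [P']) := by simpa using h4
        have q1 : ([r] : List V).getLast? = P.getLast? := by rw [hlast]; rfl
        have q2 : ([l] : List V).head? = P'.head? := by rw [hhead]; rfl
        rcases hor with ⟨g1, g2⟩ | ⟨g1, g2⟩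
        · left
          have := pe6_junc q1 q2 h5 g1 g2
          simpa [RL] using this
        · right
          have := pe6_junc q1 q2 h5 g1 g2
          simpa [RL] using this
      · left
        apply hWF
        rcases hor with ⟨g1, g2⟩ | ⟨g1, g2⟩
        · exact Or.inl (pe6_junc hP1 hP2 h4 g1 g2)
        · exact Or.inr (pe6_junc hP1 hP2 h4 g1 g2)
  have hvyL : s(v, y) ∉ L := by
    intro hvL
    rcases C.cov S.ind hvL with h3 | ⟨X, Y, hXY, hor⟩
    · exact hvR h3.memL
    · have hXm : X ∈ Ps := by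
        have := hXY.subset (show X ∈ [X, Y] by simp)
        rcases List.mem_append.1 this with h4 | h4
        · exact h4
        · rw [Option.mem_toList] at h4
          exact List.mem_of_head? h4
      have hYm : Y ∈ Ps := by
        have := hXY.subset (show Y ∈ [X, Y] by simp)
        rcases List.mem_append.1 this with h4 | h4
        · exact h4
        · rw [Option.mem_toList] at h4
          exact List.mem_of_head? h4
      rcases hor with ⟨g1, g2⟩ | ⟨g1, g2⟩
      · exact hyP (List.mem_flatten.2 ⟨Y, hYm, List.mem_of_head? g2⟩)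
      · exact hyP (List.mem_flatten.2 ⟨X, hXm, List.mem_of_getLast? g1⟩)
  -- two edges of `L` on the path
  have hL2 : ∃ a b c d, s(a, b) ∈ L ∧ s(c, d) ∈ L ∧ s(a, b) ≠ s(c, d) ∧ EL F a b ∧ EL F c d := by
    have h3 := rp_card S.ind (⟨(List.nodup_append'.1 C.nd).2.1, C.twoQ, C.lk⟩ : RP G L x y Qs)
      (fun Q hQ c d hcd => C.noQ S.ind hQ hcd)
    have h4 := lt_of_lt_of_eq (show 1 < Qs.length + 1 by omega) h3.symm
    rw [Finset.one_lt_card] at h4
    obtain ⟨e, he, f, hf, hef⟩ := h4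
    simp only [Finset.mem_filter] at he hf
    obtain ⟨he, a, b, rfl, hab⟩ := he
    obtain ⟨hf, c, d, rfl, hcd⟩ := hf
    exact ⟨a, b, c, d, he, hf, hef, hFR _ _ hab, hFR _ _ hcd⟩
  obtain ⟨hx1, hx2⟩ := HD.hx C D
  obtain ⟨hy1, hy2⟩ := HD.hy C D
  have hxO : x ∉ OL Ps x y Qs := fun hh => hh.2 (mem_RL.2 (Or.inl rfl))
  have hyO : y ∉ OL Ps x y Qs := fun hh => hh.2 (mem_RL.2 (Or.inr (Or.inr rfl)))
  obtain ⟨a, b, D', hCl, hDm, hED, -⟩ := hop2 (C := []) (c1 := x) (c2 := x) D.nx D.ny hx1 hxO hx2 hy1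
    hyO hy2 hu hv hvy hF hFn hFvy (Or.inl rfl) (by simp)
    ⟨fun τ hτ a b hab => Or.inl (hhx τ hτ a b hab), fun w hw hO => absurd hO (hoff w hw)⟩
    ⟨fun τ hτ a b hab => Or.inl (hhy τ hτ a b hab), fun w hw hO => absurd hO (hoff w hw)⟩
    (kh_cross D h) (kh_edge D h) (by
      intro τ _
      have key : ∀ Q ∈ Ps ++ Ex, y ∈ Q → Q = [y] := by
        intro Q hQ hyQ
        rcases List.mem_append.1 hQ with hQ | hQ
        · exact absurd (List.mem_flatten.2 ⟨Q, hQ, hyQ⟩) hyP
        · rcases D.ex Q hQ with hQ | hQ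
          · exfalso
            have h3 := (List.nodup_append'.1 C.nd).2.1
            rw [RL, List.nodup_cons, List.nodup_append'] at h3
            exact h3.2.2.2 (List.mem_flatten.2 ⟨Q, hQ, hyQ⟩) (by simp)
          · exact hQ
      refine ⟨?_, ?_⟩
      · intro hh
        obtain ⟨Q, hQ, hin, -⟩ := pe6_he D.nx hh
        have h3 := key Q hQ (hin.subset (by simp))
        rw [h3] at hin
        exact pe6_pair1 hin
      · intro hh
        obtain ⟨Q, hQ, hin, -⟩ := pe6_he D.nx hh
        have h3 := key Q hQ (hin.subset (by simp))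
        rw [h3] at hin
        exact pe6_pair1 hin)
    (by
      obtain ⟨a, b, c', d, h3, h4, h5, h6, h7⟩ := hL2
      exact ⟨a, b, c', d, h6, h7, h5, fun e => hvyL (e ▸ h3),
        fun e => hvyL (e ▸ h4), hLx a b h3, hLx c' d h4, hLy a b h3, hLy c' d h4⟩)
  have hEL : ∀ c d, s(c, d) ∈ L → EL F c d → EC a b D' c d := fun c d hcd h3 =>
    hED c d h3 (fun e => hvyL (e ▸ hcd)) (hLx c d hcd) (hLy c d hcd)
  have hRZ : ∀ w ∈ RL r l M, w ∈ Ps.flatten := by
    intro w hw
    rcases mem_RL.1 hw with rfl | hw | rfl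
    · exact hPm _ (List.mem_of_getLast? hlast)
    · obtain ⟨Q, hQ, hwQ⟩ := List.mem_flatten.1 hw
      exact List.mem_flatten.2 ⟨Q, hMs Q hQ, hwQ⟩
    · exact hPm' _ (List.mem_of_head? hhead)
  have hDR : ∀ w ∈ D', w ∉ RL r l M := by
    intro w hw hwR
    rcases hDm w hw with h3 | h3 | h3 | h3
    · exact hFR' w h3 hwR
    · simp at h3
    · exact h3.1 (hRZ w hwR)
    · exact h3.1 (hRZ w hwR)
  have hDE : ∀ w ∈ D', w ∉ E1 := by
    intro w hw hwR
    have hwZ : w ∈ Ps.flatten := hPm' w (by rw [hPe']; simp [hwR])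
    rcases hDm w hw with h3 | h3 | h3 | h3
    · exact hFE' w h3 hwR
    · simp at h3
    · exact h3.1 hwZ
    · exact h3.1 hwZ
  have hRP : RP G L r l M := by
    refine ⟨hRn, fun Q hQ => C.twoP Q (hMs Q hQ), ?_⟩
    exact lk_of_isChain hj1 (fun Q hQ => C.ch Q (hMs Q hQ)) (fun Q hQ => hne Q (hMs Q hQ)) hlast hhead
  obtain ⟨e1, e2, -, -, hl1, -, -, hl2, -⟩ := hL2
  obtain ⟨Ps', hperm, hLC⟩ := lc_of_closed S.ind hCl hRP
    (fun Q hQ c d hcd => C.noP S.ind (hMs Q hQ) hcd) hDR hl1 (hEL e1 e2 hl1 hl2) (by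
      intro c d hcd
      rcases hLF c d hcd with h3 | h3
      · exact Or.inl (hEL c d hcd h3)
      · exact Or.inr h3)
  -- `v` is on the new cycle
  have hvD : v ∈ D' := by
    obtain ⟨w2, W2, hW2⟩ : ∃ w2 W2, W = v :: w2 :: W2 := by
      rw [hW]
      cases D2 with
      | nil =>
        cases hN : N.flatten ++ (A ++ [u]) with
        | nil => simp at hN
        | cons w2 W2 => exact ⟨w2, W2, by simp⟩
      | cons w2 D2 => exact ⟨w2, D2 ++ (N.flatten ++ (A ++ [u])), by simp⟩
    have hel : EL F v w2 := by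
      apply hWF
      rw [hW2]
      exact EL.intro (A := [])
    have hw2 : w2 ∈ Ps.flatten := hWm w2 (by rw [hW2]; simp)
    have hn1 : s(v, w2) ≠ s(v, y) := by
      intro e
      rw [Sym2.congr_right] at e
      exact hyP (e ▸ hw2)
    have q1 : NH G (OL Ps x y Qs) (Ps ++ Ex) x t v w2 := by
      intro τ hτ
      refine ⟨?_, ?_⟩
      · intro hh
        obtain ⟨Q, hQ, hin, -, n2, -⟩ := hnx τ hτ _ _ hh
        exact n2 (flat_same D.nx hQ (List.mem_append_left _ hPs') (hin.subset (by simp)) hvP)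
      · intro hh
        obtain ⟨Q, hQ, hin, -, n2, -⟩ := hnx τ hτ _ _ hh
        exact n2 (flat_same D.nx hQ (List.mem_append_left _ hPs') (hin.subset (by simp)) hvP)
    have q2 : NH G (OL Ps x y Qs) (Ps ++ Ey) y t' v w2 := by
      intro τ hτ
      refine ⟨?_, ?_⟩
      · intro hh
        obtain ⟨Q, hQ, hin, -, n2, -⟩ := hny τ hτ _ _ hh
        exact n2 (flat_same D.ny hQ (List.mem_append_left _ hPs') (hin.subset (by simp)) hvP)
      · intro hh
        obtain ⟨Q, hQ, hin, -, n2, -⟩ := hny τ hτ _ _ hh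
        exact n2 (flat_same D.ny hQ (List.mem_append_left _ hPs') (hin.subset (by simp)) hvP)
    rcases hED v w2 hel hn1 q1 q2 with h3 | h3
    · exact h3.memL
    · have h4 : v ∈ s(a, b) := by rw [← h3]; simp
      rcases Sym2.mem_iff.1 h4 with h5 | h5
      · rw [h5]; exact hCl.ch.memL
      · rw [h5]; exact hCl.ch.memR
  have hlk : Lkd G r l Ps' M := by
    refine ⟨v, hperm.mem_iff.2 hvD, pe6_con (E := E1) ?_ ?_⟩
    · refine chain_of_inf (C.ch P' hPs') ⟨[], D2, ?_⟩
      rw [hPe']; simp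
    · intro w hw
      refine ⟨fun h3 => hDE w (hperm.mem_iff.1 h3) hw, fun h3 => hRE' w h3 hw⟩
  have := hmin r l Ps' M hLC hlk
  omega

end Pool.Agent.LW
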