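import Pool.Agent.LW.PE5
import Pool.Agent.LW.PE6

set_option autoImplicit false

/-!
# (K1), (K2) for all levels
-/

namespace Pool.Agent.LW

open SimpleGraph Classical

universe w

variable {V : Type w} {G H : SimpleGraph V} {L : Finset (Sym2 V)} {k : ℕ}
  {x y : V} {Ps Qs Ex Ey : List (List V)}

private theorem pe10_rot {α : Type w} {Ps Rs : List α} : Rot Ps Rs ↔ Ps.IsRotated Rs := by
  constructor
  · rintro ⟨A, D, rfl, rfl⟩
    exact List.isRotated_append
  · rintro ⟨n, rfl⟩
    exact ⟨Ps.take (n % Ps.length), Ps.drop (n % Ps.length), (List.take_append_drop _ _).symm,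
      List.rotate_eq_drop_append_take_mod⟩

private theorem pe10_trans {α : Type w} {Ps Rs Ss : List α} (h : Rot Ps Rs) (h' : Rot Rs Ss) :
    Rot Ps Ss := pe10_rot.2 ((pe10_rot.1 h).trans (pe10_rot.1 h'))

private theorem pe10_rv {α : Type w} (A D : List (List α)) :
    ((A ++ D).map List.reverse).reverse =
      (D.map List.reverse).reverse ++ (A.map List.reverse).reverse := by
  rw [List.map_append, List.reverse_append]

private theorem pe10_rvrot {P P' : List V} {M N : List (List V)}
    (h : Rot (rv Ps) (P :: (M ++ P' :: N))) :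
    Rot Ps (P'.reverse :: (rv M ++ P.reverse :: rv N)) := by
  obtain ⟨A, D, h1, h2⟩ := h
  have e1 : Ps = rv D ++ rv A := by
    have h3 : rv (rv Ps) = rv (A ++ D) := by rw [h1]
    unfold rv at h3 ⊢
    rw [pe10_rv] at h3
    rw [← h3]
    simp
  have e2 : rv N ++ (P'.reverse :: (rv M ++ [P.reverse])) = rv A ++ rv D := by
    have h3 : rv (P :: (M ++ P' :: N)) = rv (D ++ A) := by rw [h2]
    unfold rv at h3 ⊢
    rw [pe10_rv] at h3
    rw [← h3]
    simp
  have r1 : Rot Ps (rv N ++ (P'.reverse :: (rv M ++ [P.reverse]))) := ⟨rv D, rv A, e1, e2⟩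
  have r2 : Rot (rv N ++ (P'.reverse :: (rv M ++ [P.reverse])))
      ((P'.reverse :: (rv M ++ [P.reverse])) ++ rv N) := ⟨_, _, rfl, rfl⟩
  have r3 := pe10_trans r1 r2
  have e3 : (P'.reverse :: (rv M ++ [P.reverse])) ++ rv N =
      P'.reverse :: (rv M ++ P.reverse :: rv N) := by simp
  rwa [e3] at r3

private theorem pe10_len (M : List (List V)) : (rv M).length = M.length := by
  unfold rv
  simp

private theorem pe10_eqvZ (Ex : List (List V)) : Eqv (rv Ps ++ Ex) (Ps ++ Ex) := by
  constructor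
  · intro P hP
    rcases List.mem_append.1 hP with h | h
    · exact Or.inr (List.mem_append_left _ (mem_rv.1 h))
    · exact Or.inl (List.mem_append_right _ h)
  · intro P hP
    rcases List.mem_append.1 hP with h | h
    · exact Or.inr (List.mem_append_left _ (mem_rv.2 (by rwa [List.reverse_reverse])))
    · exact Or.inl (List.mem_append_right _ h)

private theorem pe10_eqvR (Ex : List (List V)) : Eqv (Ps ++ Ex.map List.reverse) (Ps ++ Ex) := by
  constructor
  · intro P hP
    rcases List.mem_append.1 hP with h | h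
    · exact Or.inl (List.mem_append_left _ h)
    · obtain ⟨Q, hQ, rfl⟩ := List.mem_map.1 h
      exact Or.inr (List.mem_append_right _ (by rwa [List.reverse_reverse]))
  · intro P hP
    rcases List.mem_append.1 hP with h | h
    · exact Or.inl (List.mem_append_left _ h)
    · exact Or.inr (List.mem_append_right _ (List.mem_map_of_mem h))

private theorem pe10_XZ : LvX G x y (rv Ps) Qs Ex = LvX G x y Ps Qs Ex := by
  funext t
  unfold LvX
  rw [OL_revZ, (pe10_eqvZ Ex).lg]

private theorem pe10_YZ : LvY G x y (rv Ps) Qs Ey = LvY G x y Ps Qs Ey := by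
  funext t
  unfold LvY
  rw [OL_revZ, (pe10_eqvZ Ey).lg]

private theorem pe10_XR : LvX G y x Ps (rv Qs) (Ey.map List.reverse) = LvY G x y Ps Qs Ey := by
  funext t
  unfold LvX LvY
  rw [OL_revR, (pe10_eqvR Ey).lg]

private theorem pe10_YR : LvY G y x Ps (rv Qs) (Ex.map List.reverse) = LvX G x y Ps Qs Ex := by
  funext t
  unfold LvX LvY
  rw [OL_revR, (pe10_eqvR Ex).lg]

theorem KH.zero {c : ℕ} {LX LY : ℕ → Set V} : KH Ps Qs c 0 LX LY := by
  refine ⟨?_, ?_, ?_, ?_⟩
  all_goals intro t t' h; exact absurd h (by omega)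

/-- exchanging `x` and `y` -/
theorem KH.swap {c n : ℕ} {LX LY : ℕ → Set V} (h : KH Ps Qs c n LX LY) :
    KH Ps (rv Qs) c n LY LX := by
  refine ⟨?_, ?_, ?_, ?_⟩
  · intro t t' ht P hP u hu v hv h1 h2
    exact (h.k1 t' t (by omega) P hP v hv u hu h2 h1).symm
  · intro t t' ht Q hQ u hu v hv hb
    exact h.k3 t' t (by omega) Q.reverse (mem_rv.1 hQ) v hv u hu hb.reverse
  · intro t t' ht P M P' N hr hm u hu h1 h2 v hv h3
    exact h.k2' t' t (by omega) P M P' N hr hm u hu h1 h2 v hv h3
  · intro t t' ht P M P' N hr hm u hu h1 h2 v hv h3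
    exact h.k2 t' t (by omega) P M P' N hr hm u hu h1 h2 v hv h3

/-- reversing `Z` -/
theorem KH.rev {c n : ℕ} {LX LY : ℕ → Set V} (h : KH Ps Qs c n LX LY) :
    KH (rv Ps) Qs c n LX LY := by
  refine ⟨?_, h.k3, ?_, ?_⟩
  · intro t t' ht P hP u hu v hv h1 h2
    exact h.k1 t t' ht P.reverse (mem_rv.1 hP) u (List.mem_reverse.2 hu) v
      (List.mem_reverse.2 hv) h1 h2
  · intro t t' ht P M P' N hr hm u hu h1 h2 v hv h3
    by_contra hcon
    apply h2
    rw [← List.head?_reverse]
    refine h.k2' t t' ht P'.reverse (rv M) P.reverse (rv N) (pe10_rvrot hr)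
      (by rw [pe10_len]; exact hm) v (List.mem_reverse.2 hv) h3 ?_ u (List.mem_reverse.2 hu) h1
    rw [List.getLast?_reverse]
    exact hcon
  · intro t t' ht P M P' N hr hm v hv h1 h2 u hu h3
    by_contra hcon
    apply h2
    rw [← List.head?_reverse]
    refine h.k2 t t' ht P'.reverse (rv M) P.reverse (rv N) (pe10_rvrot hr)
      (by rw [pe10_len]; exact hm) u (List.mem_reverse.2 hu) h3 ?_ v (List.mem_reverse.2 hv) h1
    rw [List.getLast?_reverse]
    exact hcon

/-- all levels, given (K3) -/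
theorem kh_all [Fintype V] (S : Bs G L k) (hmin : MinC G L (Qs.length + 1))
    (C : LC G L x y Ps Qs) (D : HD G x y Ps Qs Ex Ey)
    (hk3 : ∀ t t', KH Ps Qs (Qs.length + 1) (t + t') (LvX G x y Ps Qs Ex)
      (LvY G x y Ps Qs Ey) → ∀ Q ∈ Qs, ∀ u ∈ LvX G x y Ps Qs Ex t,
      ∀ v ∈ LvY G x y Ps Qs Ey t', ¬ Bf Q v u) (n : ℕ) :
    KH Ps Qs (Qs.length + 1) n (LvX G x y Ps Qs Ex) (LvY G x y Ps Qs Ey) := by
  induction n with
  | zero => exact KH.zero
  | succ n ih =>
    refine ⟨?_, ?_, ?_, ?_⟩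
    · intro t t' ht P hP u hu v hv h1 h2
      rcases Nat.lt_or_ge (t + t') n with hn | hn
      · exact ih.k1 t t' hn P hP u hu v hv h1 h2
      · have hn' : n = t + t' := by omega
        subst hn'
        by_contra huv
        rcases Bf.total hu hv huv with hb | hb
        · exact kh_k1 S C D ih hP hb h1 h2
        · have ih' := ih.rev
          rw [← pe10_XZ, ← pe10_YZ] at ih'
          rw [← pe10_XZ] at h1
          rw [← pe10_YZ] at h2
          exact kh_k1 S C.revZ D.revZ ih'
            (mem_rv.2 (by rwa [List.reverse_reverse]) : P.reverse ∈ rv Ps) hb.reverse h1 h2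
    · intro t t' ht Q hQ u hu v hv
      rcases Nat.lt_or_ge (t + t') n with hn | hn
      · exact ih.k3 t t' hn Q hQ u hu v hv
      · have hn' : n = t + t' := by omega
        subst hn'
        exact hk3 t t' ih Q hQ u hu v hv
    · intro t t' ht P M P' N hr hm u hu h1 h2 v hv h3
      rcases Nat.lt_or_ge (t + t') n with hn | hn
      · exact ih.k2 t t' hn P M P' N hr hm u hu h1 h2 v hv h3
      · have hn' : n = t + t' := by omega
        subst hn'
        exact kh_k2 S hmin C D ih hr hm hu h1 h2 hv h3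
    · intro t t' ht P M P' N hr hm v hv h1 h2 u hu h3
      rcases Nat.lt_or_ge (t + t') n with hn | hn
      · exact ih.k2' t t' hn P M P' N hr hm v hv h1 h2 u hu h3
      · have hn' : n = t' + t := by omega
        subst hn'
        have e1 : LvX G y x Ps (rv Qs) (Ey.map List.reverse) = LvY G x y Ps Qs Ey := pe10_XR
        have e2 : LvY G y x Ps (rv Qs) (Ex.map List.reverse) = LvX G x y Ps Qs Ex := pe10_YR
        have hl : (rv Qs).length + 1 = Qs.length + 1 := by rw [pe10_len]
        have ih' : KH Ps (rv Qs) ((rv Qs).length + 1) (t' + t)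
            (LvX G y x Ps (rv Qs) (Ey.map List.reverse))
            (LvY G y x Ps (rv Qs) (Ex.map List.reverse)) := by
          rw [e1, e2, hl]
          exact ih.swap
        rw [← e1] at h1
        rw [← e2] at h3
        rw [← hl] at hmin hm
        exact kh_k2 S hmin C.revR D.swap ih' hr hm hv h1 h2 hu h3

/-- the slot structure -/
theorem kh_sl {c : ℕ} (C : LC G L x y Ps Qs) (hc1 : 1 ≤ c) (hc : c ≤ Ps.length)
    (h : ∀ n, KH Ps Qs c n (LvX G x y Ps Qs Ex) (LvY G x y Ps Qs Ey)) :
    SL Ps c (Xg G (OL Ps x y Qs) (Ps ++ Ex) x) (Xg G (OL Ps x y Qs) (Ps ++ Ey) y) := by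
  refine ⟨List.Nodup.of_append_left C.nd, C.twoP, hc1, hc, ?_, ?_, ?_⟩
  · rintro P hP u hu v hv ⟨t, h1⟩ ⟨t', h2⟩
    exact (h (t + t' + 1)).k1 t t' (by omega) P hP u hu v hv h1 h2
  · rintro P M P' N hr hm u hu ⟨t, h1⟩ h2 v hv ⟨t', h3⟩
    exact (h (t + t' + 1)).k2 t t' (by omega) P M P' N hr hm u hu h1 h2 v hv h3
  · rintro P M P' N hr hm v hv ⟨t', h1⟩ h2 u hu ⟨t, h3⟩
    exact (h (t + t' + 1)).k2' t t' (by omega) P M P' N hr hm v hv h1 h2 u hu h3

end Pool.Agent.LW
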