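import Pool.Agent.LW.PD2
import Pool.Agent.LW.PD3
import Pool.Agent.LW.PD6
import Pool.Agent.LW.HD2

set_option autoImplicit false

/-!
# The T-lemma (M6), Case II
-/

namespace Pool.Agent.LW

open SimpleGraph Classical

universe w

variable {V : Type w} {G H : SimpleGraph V} {L : Finset (Sym2 V)} {k : ℕ}
  {x y : V} {Ps Qs : List (List V)}

theorem pe8_con {O : Set V} {g u : V} {K : List V} (h : Ch G g u (g :: (K ++ [u])))
    (hO : ∀ v ∈ K, v ∈ O) : Con G O g u := by
  cases K with
  | nil =>
    left
    have := h.ch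
    simpa using this
  | cons p K =>
    right
    have h1 : Ch G g u (g :: p :: (K ++ [u])) := by simpa using h
    have h2 : Ch G p u (p :: (K ++ [u])) := h1.tail
    obtain ⟨q, hq⟩ : ∃ q, (p :: K).getLast? = some q := ⟨_, List.getLast?_eq_some_getLast (by simp)⟩
    obtain ⟨K', hK'⟩ : ∃ K', p :: K = K' ++ [q] :=
      ⟨(p :: K).dropLast, by rw [List.dropLast_append_getLast? _ (by rw [hq]; rfl)]⟩
    have h3 : Ch G p u (K' ++ q :: [u]) := by
      have e : p :: (K ++ [u]) = K' ++ q :: [u] := by
        rw [← List.cons_append, hK']; simp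
      rw [← e]; exact h2
    refine ⟨q, ⟨p, h1.snd, K' ++ [q], h3.left, ?_⟩, h3.adj⟩
    intro v hv
    apply hO
    rw [hK']; exact hv

/-- the first vertex of a list in a set -/
theorem pe8_first {F : List V} {B : Set V} (h : ∃ v ∈ F, v ∈ B) :
    ∃ F1 g F2, F = F1 ++ g :: F2 ∧ g ∈ B ∧ ∀ v ∈ F1, v ∉ B := by
  induction F with
  | nil => obtain ⟨v, hv, _⟩ := h; simp at hv
  | cons a F ih =>
    by_cases ha : a ∈ B
    · exact ⟨[], a, F, rfl, ha, by simp⟩
    · obtain ⟨v, hv, hB⟩ := h
      rcases List.mem_cons.1 hv with hv | hv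
      · rw [hv] at hB; exact absurd hB ha
      · obtain ⟨F1, g, F2, h1, h2, h3⟩ := ih ⟨v, hv, hB⟩
        refine ⟨a :: F1, g, F2, by rw [h1]; rfl, h2, ?_⟩
        intro z hz
        rcases List.mem_cons.1 hz with hz | hz
        · rw [hz]; exact ha
        · exact h3 z hz

/-- a source of the closure: the vertex itself or a vertex strictly between -/
def Src8 (G : SimpleGraph V) (O : Set V) (Hs : List (List V)) (x a : V) : Prop :=
  a = x ∨ Btw Hs Set.univ (Xg G O Hs x) a

theorem src8_step {O : Set V} {Hs : List (List V)} {a w : V} (h : Src8 G O Hs x a)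
    (hw : w ∈ Hs.flatten) (hc : Con G O a w) : w ∈ Xg G O Hs x := by
  rcases h with h | h
  · subst h
    exact ⟨0, hw, hc⟩
  · exact Xg_step h hw hc

theorem pe8_fx_one {X : Set V} {P : List V} {a : V} (hn : P.Nodup)
    (h : ∀ v ∈ P, v ∈ X → v = a) : fx X P ≤ 1 := by
  by_contra hcon
  have h2 : fx X P = 2 := by have := fx_le X P; omega
  obtain ⟨v, hv, v', hv', hne, hX, hX'⟩ := (fx_two hn).1 h2
  exact hne ((h v hv hX).trans (h v' hv' hX').symm)

theorem pe8_fx_zero {X : Set V} {P : List V} (h : ∀ v ∈ P, v ∉ X) : fx X P = 0 := by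
  unfold fx
  have : P.filter (fun v => v ∈ X) = [] := by
    rw [List.filter_eq_nil_iff]
    intro v hv
    simpa using h v hv
  rw [this]
  rfl

/-- two closures on one segment: `X` before `Y`, one of them only at one end -/
theorem pe8_two {X Y : Set V} {P : List V} {a : V} (hn : P.Nodup) (hXY : ∀ u ∈ X, ∀ v ∈ Y, ¬ Bf P v u)
    (h : (P.head? = some a ∧ ∀ v ∈ P, v ∈ Y → v = a) ∨
      (P.getLast? = some a ∧ ∀ v ∈ P, v ∈ X → v = a)) : fx X P + fx Y P ≤ 2 := by
  rcases h with ⟨ha, h⟩ | ⟨ha, h⟩
  · by_cases haY : a ∈ Y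
    · have h1 : fx X P ≤ 1 := by
        refine pe8_fx_one hn (a := a) ?_
        intro v hv hX
        by_contra hne
        obtain ⟨P', hP'⟩ : ∃ P', P = a :: P' := by
          cases P with
          | nil => simp at ha
          | cons p P => simp only [List.head?_cons, Option.some.injEq] at ha; exact ⟨P, by rw [ha]⟩
        apply hXY v hX a haY
        rw [hP'] at hv ⊢
        rcases List.mem_cons.1 hv with e | e
        · exact absurd e hne
        · exact Bf.of_right (A := []) e
      have h2 : fx Y P ≤ 1 := pe8_fx_one hn h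
      omega
    · have h2 : fx Y P = 0 := by
        apply pe8_fx_zero
        intro v hv hY
        exact haY (by rw [← h v hv hY]; exact hY)
      have := fx_le X P
      omega
  · by_cases haX : a ∈ X
    · have h1 : fx Y P ≤ 1 := by
        refine pe8_fx_one hn (a := a) ?_
        intro v hv hY
        by_contra hne
        obtain ⟨P', hP'⟩ : ∃ P', P = P' ++ [a] :=
          ⟨P.dropLast, by rw [List.dropLast_append_getLast? _ (by rw [ha]; rfl)]⟩
        apply hXY a haX v hY
        rw [hP'] at hv ⊢
        rcases List.mem_append.1 hv with e | e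
        · exact Bf.of_left e
        · rw [List.mem_singleton] at e; exact absurd e hne
      have h2 : fx X P ≤ 1 := pe8_fx_one hn h
      omega
    · have h2 : fx X P = 0 := by
        apply pe8_fx_zero
        intro v hv hX
        exact haX (by rw [← h v hv hX]; exact hX)
      have := fx_le Y P
      omega

/-- the path `T` and the closure of `x` for it -/
theorem pe8_tp {A' D K : List V} {ν u : V} {Ms : List (List V)}
    (C : LC G L x y (((ν :: A') ++ u :: D) :: Ms) Qs)
    (hK1 : Ch G y u (y :: (K ++ [u]))) (hK2 : K.Nodup)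
    (hK3 : ∀ v ∈ K, v ∈ OL (((ν :: A') ++ u :: D) :: Ms) x y Qs) :
    TP G L x ν (Qs ++ (y :: (K ++ u :: D)) :: Ms) := by
  have hch := C.ch
  have h2 := C.twoP
  obtain ⟨l, r, hP⟩ := Ch.ex (C.ch _ List.mem_cons_self) (by simp)
  have hl : l = ν := by have := hP.hd; simpa using this.symm
  subst hl
  have hlk : Lk G L r Ms l := by
    refine lk_of_isChain C.jn ?_ ?_ hP.lt hP.hd
    · intro R hR; exact C.ch R (List.mem_cons_of_mem _ hR)
    · intro R hR e
      have := C.twoP R (List.mem_cons_of_mem _ hR)
      rw [e] at this; simp at this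
  have hb : (((((l :: A') ++ u :: D) :: Ms).flatten ++ RL x y Qs) ++ K).Nodup := by
    rw [List.nodup_append']
    refine ⟨C.nd, hK2, ?_⟩
    intro v hv hv'
    have := hK3 v hv'
    rcases List.mem_append.1 hv with e | e
    · exact this.1 e
    · exact this.2 e
  have e2 : Ch G y r (y :: (K ++ u :: D)) := by
    have := Ch.glue (A := y :: K) (by simpa using hK1) hP.right
    simpa using this
  refine ⟨?_, ?_, C.lk.append e2 hlk, ?_⟩
  · unfold RL at hb ⊢
    exact nodup_of_count hb (by
      intro v; simp only [List.flatten_cons, List.flatten_append, List.flatten_nil,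
        List.count_append, List.count_cons, List.count_reverse, List.count_nil,
        List.append_nil]; omega)
  · rw [two_append, two_cons]
    rw [two_cons] at h2
    exact ⟨C.twoQ, by simp; omega, h2.2⟩
  · have := C.card
    simp only [List.length_append, List.length_cons] at this ⊢
    omega

/-- the closure of `x` for the path `T` is contained in its closure for the configuration -/
theorem pe8_sub {A' D K : List V} {ν u : V} {Ms : List (List V)}
    (C : LC G L x y (((ν :: A') ++ u :: D) :: Ms) Qs)
    (hy : y ∉ Xg G (OL (((ν :: A') ++ u :: D) :: Ms) x y Qs)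
      ((((ν :: A') ++ u :: D) :: Ms) ++ (Qs ++ [[y]])) x)
    (hX : ∀ R ∈ ((ν :: A') ++ u :: D) :: Ms, ∀ v ∈ R,
      v ∈ Xg G (OL (((ν :: A') ++ u :: D) :: Ms) x y Qs)
        ((((ν :: A') ++ u :: D) :: Ms) ++ (Qs ++ [[y]])) x → R.getLast? = some v)
    (hK3 : ∀ v ∈ K, v ∈ OL (((ν :: A') ++ u :: D) :: Ms) x y Qs)
    (hKy : ∀ v ∈ K, v ∈ Att G (OL (((ν :: A') ++ u :: D) :: Ms) x y Qs) y)
    (hsn : (y :: (K ++ u :: D)).Nodup) {w : V} (hw : w ∈ Xg G (OT x ν (Qs ++ (y :: (K ++ u :: D)) :: Ms))
      ((Qs ++ (y :: (K ++ u :: D)) :: Ms) ++ [[ν]]) x) :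
    w ∈ Xg G (OL (((ν :: A') ++ u :: D) :: Ms) x y Qs)
      ((((ν :: A') ++ u :: D) :: Ms) ++ (Qs ++ [[y]])) x := by
  set O := OL (((ν :: A') ++ u :: D) :: Ms) x y Qs with hO
  set Hs := (((ν :: A') ++ u :: D) :: Ms) ++ (Qs ++ [[y]]) with hHs
  set O' := OT x ν (Qs ++ (y :: (K ++ u :: D)) :: Ms) with hO'
  set Hs' := (Qs ++ (y :: (K ++ u :: D)) :: Ms) ++ [[ν]] with hHs'
  have hmemHs : ∀ v, v ∈ Hs.flatten ↔ v ∈ (ν :: A') ∨ v ∈ u :: D ∨ v ∈ Ms.flatten ∨
      v ∈ Qs.flatten ∨ v = y := by
    intro v
    rw [hHs]
    simp only [List.flatten_append, List.flatten_cons, List.flatten_nil, List.mem_append,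
      List.mem_cons, List.not_mem_nil, or_false]
    tauto
  have hOmem : ∀ v, v ∈ O ↔ v ∉ (ν :: A') ∧ v ∉ u :: D ∧ v ∉ Ms.flatten ∧ v ≠ x ∧
      v ∉ Qs.flatten ∧ v ≠ y := by
    intro v
    rw [hO]
    simp only [OL, RL, Set.mem_ofPred_eq, List.flatten_cons, List.mem_append,
      List.mem_cons, List.not_mem_nil, or_false, not_or]
    tauto
  have hO'mem : ∀ v, v ∈ O' ↔ v ≠ x ∧ v ∉ Qs.flatten ∧ v ≠ y ∧ v ∉ K ∧ v ∉ u :: D ∧
      v ∉ Ms.flatten ∧ v ≠ ν := by
    intro v
    rw [hO']
    simp only [OT, RL, Set.mem_ofPred_eq, List.flatten_append, List.flatten_cons,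
      List.mem_append, List.mem_cons, List.not_mem_nil, or_false, not_or]
    tauto
  have hHs'mem : ∀ v, v ∈ Hs'.flatten ↔ v ∈ Qs.flatten ∨ v = y ∨ v ∈ K ∨ v ∈ u :: D ∨
      v ∈ Ms.flatten ∨ v = ν := by
    intro v
    rw [hHs']
    simp only [List.flatten_append, List.flatten_cons, List.flatten_nil, List.mem_append,
      List.mem_cons, List.not_mem_nil, or_false]
    tauto
  have hnd : ((ν :: A') ++ u :: D).Nodup := by
    have := C.nd
    rw [List.nodup_append'] at this
    exact (List.nodup_flatten.1 this.1).1 _ List.mem_cons_self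
  -- no vertex of A' is in the closure
  have hA' : ∀ v ∈ A', v ∉ Xg G O Hs x := by
    intro v hv hvX
    have h1 := hX ((ν :: A') ++ u :: D) List.mem_cons_self v (by simp [hv]) hvX
    rw [List.getLast?_append_of_ne_nil _ (by simp)] at h1
    exact (List.nodup_append'.1 hnd).2.2 (show v ∈ ν :: A' by simp [hv]) (List.mem_of_getLast? h1)
  -- the key step
  have key : ∀ a w, Src8 G O Hs x a → w ∈ Hs'.flatten → Con G O' a w → w ∈ Xg G O Hs x := by
    intro a w ha hw hc
    obtain ⟨K1, h1, h2, h3⟩ := hc.link
    by_cases hall : ∃ v ∈ K1, v ∈ {v | v ∈ A'}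
    · exfalso
      obtain ⟨F1, m, F2, h4, h5, h6⟩ := pe8_first hall
      subst h4
      have h7 : Ch G a m (a :: (F1 ++ [m])) := by
        have : Ch G a w ((a :: F1) ++ m :: (F2 ++ [w])) := by simpa using h1
        simpa using this.left
      have h8 : Con G O a m := by
        refine pe8_con h7 ?_
        intro v hv
        have h9 := (hO'mem v).1 (h3 v (List.mem_append_left _ hv)).1
        rw [hOmem]
        refine ⟨?_, h9.2.2.2.2.1, h9.2.2.2.2.2.1, h9.1, h9.2.1, h9.2.2.1⟩
        intro h10
        rcases List.mem_cons.1 h10 with e | e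
        · exact h9.2.2.2.2.2.2 e
        · exact h6 v hv e
      have h9 : m ∈ A' := h5
      exact hA' m h9 (src8_step ha ((hmemHs m).2 (Or.inl (List.mem_cons_of_mem _ h9))) h8)
    · push Not at hall
      have hK1O : ∀ v ∈ K1, v ∈ O := by
        intro v hv
        have h9 := (hO'mem v).1 (h3 v hv).1
        rw [hOmem]
        refine ⟨?_, h9.2.2.2.2.1, h9.2.2.2.2.2.1, h9.1, h9.2.1, h9.2.2.1⟩
        intro h10
        rcases List.mem_cons.1 h10 with e | e
        · exact h9.2.2.2.2.2.2 e
        · exact hall v hv e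
      by_cases hwK : w ∈ K
      · -- then y is in the closure
        exfalso
        apply hy
        have hwA : w ∈ Att G O a := by
          cases K1 with
          | nil =>
            have : G.Adj a w := by have := h1.ch; simpa using this
            exact ⟨w, this, [w], Ch.single w, by
              intro z hz; simp at hz; rw [hz]; exact hK3 w hwK⟩
          | cons p K1 =>
            have h5 : Ch G a w (a :: p :: (K1 ++ [w])) := by simpa using h1
            refine ⟨p, h5.snd, p :: (K1 ++ [w]), h5.tail, ?_⟩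
            intro z hz
            rw [← List.cons_append] at hz
            rcases List.mem_append.1 hz with e | e
            · exact hK1O z e
            · rw [List.mem_singleton] at e; rw [e]; exact hK3 w hwK
        have hcy : Con G O a y := con_of_att hwA (hKy w hwK)
        exact src8_step ha ((hmemHs y).2 (by tauto)) hcy
      · have hwH : w ∈ Hs.flatten := by
          rw [hmemHs]
          have := (hHs'mem w).1 hw
          rcases this with e | e | e | e | e | e
          · tauto
          · tauto
          · exact absurd e hwK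
          · tauto
          · tauto
          · left; rw [e]; simp
        exact src8_step ha hwH (pe8_con h1 hK1O)
  obtain ⟨t, ht⟩ := hw
  have main : ∀ t, ∀ w, w ∈ Lg G O' Hs' x t → w ∈ Xg G O Hs x := by
    intro t
    induction t with
    | zero =>
      intro w hw
      exact key x w (Or.inl rfl) hw.1 hw.2
    | succ t ih =>
      intro w hw
      rcases hw with hw | ⟨hw, l, ⟨-, R, hR, s, hs, s', hs', b1, b2⟩, hc⟩
      · exact ih w hw
      · have hsX := ih s hs
        have hs'X := ih s' hs'
        -- which segment?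
        rw [hHs'] at hR
        simp only [List.mem_append, List.mem_cons, List.not_mem_nil, or_false] at hR
        have hnodupL : ∀ R' ∈ ((ν :: A') ++ u :: D) :: Ms, R'.Nodup := by
          intro R' hR'
          have := C.nd
          rw [List.nodup_append'] at this
          exact (List.nodup_flatten.1 this.1).1 _ hR'
        rcases hR with (hR | hR | hR) | hR
        · refine key l w (Or.inr ⟨trivial, R, ?_, s, hsX, s', hs'X, b1, b2⟩) hw hc
          rw [hHs]; simp [hR]
        · exfalso
          -- s, s' are the last vertex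
          have hlast : ∀ z ∈ R, z ∈ Xg G O Hs x → R.getLast? = some z := by
            intro z hz hzX
            have hzH : z ∈ Hs.flatten := by
              obtain ⟨t', ht'⟩ := hzX
              exact lvl_host (fun v hv => hv.1) t' ht'
            rw [hR] at hz
            have hzD : z ∈ u :: D := by
              rcases List.mem_cons.1 hz with e | e
              · rw [e] at hzX; exact absurd hzX hy
              · rcases List.mem_append.1 e with e | e
                · have h5 := (hOmem z).1 (hK3 z e)
                  have h6 := (hmemHs z).1 hzH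
                  rcases h6 with h6 | h6 | h6 | h6 | h6
                  · exact absurd h6 h5.1
                  · exact h6
                  · exact absurd h6 h5.2.2.1
                  · exact absurd h6 h5.2.2.2.2.1
                  · exact absurd h6 h5.2.2.2.2.2
                · exact e
            have h7 := hX ((ν :: A') ++ u :: D) List.mem_cons_self z
              (List.mem_append_right _ hzD) hzX
            rw [List.getLast?_append_of_ne_nil _ (by simp)] at h7
            rw [hR, ← List.cons_append, List.getLast?_append_of_ne_nil _ (by simp)]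
            exact h7
          have e1 := hlast s b1.memL hsX
          have e2 := hlast s' b2.memR hs'X
          have e3 : s = s' := Option.some.inj (e1.symm.trans e2)
          have hRn : R.Nodup := by rw [hR]; exact hsn
          exact ((b1.trans b2 hRn).ne hRn) e3
        · exfalso
          have hR' : R ∈ ((ν :: A') ++ u :: D) :: Ms := List.mem_cons_of_mem _ hR
          have e1 := hX R hR' s b1.memL hsX
          have e2 := hX R hR' s' b2.memR hs'X
          have e3 : s = s' := Option.some.inj (e1.symm.trans e2)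
          have hRn := hnodupL R hR'
          exact ((b1.trans b2 hRn).ne hRn) e3
        · exfalso
          rw [hR] at b1
          have e1 := b1.memL
          have e2 := b1.memR
          simp only [List.mem_singleton] at e1 e2
          exact (b1.ne (by simp)) (e1.trans e2.symm)
  exact main t w ht

/-- sum of two numbers of extreme vertices -/
theorem pe8_sum {X Y : Set V} {l : List (List V)} (h : ∀ P ∈ l, fx X P + fx Y P ≤ 2) :
    (l.map (fx X)).sum + (l.map (fx Y)).sum ≤ 2 * l.length := by
  induction l with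
  | nil => simp
  | cons P l ih =>
    have h1 := h P List.mem_cons_self
    have h2 := ih (fun Q hQ => h Q (List.mem_cons_of_mem _ hQ))
    simp only [List.map_cons, List.sum_cons, List.length_cons]
    omega

/-- the T-lemma, with the segment of `u` in front -/
theorem pe8_front [Fintype V] (S : Bs G L k) (hmin : MinC G L (Qs.length + 1)) {A' D : List V}
    {ν u : V} {Ms : List (List V)} (C : LC G L x y (((ν :: A') ++ u :: D) :: Ms) Qs)
    (hy : y ∉ Xg G (OL (((ν :: A') ++ u :: D) :: Ms) x y Qs)
      ((((ν :: A') ++ u :: D) :: Ms) ++ (Qs ++ [[y]])) x)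
    (hX : ∀ R ∈ ((ν :: A') ++ u :: D) :: Ms, ∀ v ∈ R,
      v ∈ Xg G (OL (((ν :: A') ++ u :: D) :: Ms) x y Qs)
        ((((ν :: A') ++ u :: D) :: Ms) ++ (Qs ++ [[y]])) x → R.getLast? = some v)
    (hc : Con G (OL (((ν :: A') ++ u :: D) :: Ms) x y Qs) y u) : False := by
  obtain ⟨K, hK1, hK2, hK3⟩ := hc.link
  have T := pe8_tp C hK1 hK2 (fun v hv => (hK3 v hv).1)
  have hnT : ∀ R ∈ Qs ++ (y :: (K ++ u :: D)) :: Ms, R.Nodup := by
    intro R hR
    have h1 := T.nd
    unfold RL at h1
    have h2 := (List.nodup_cons.1 h1).2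
    rw [List.nodup_append'] at h2
    exact (List.nodup_flatten.1 h2.1).1 R hR
  have hsub : ∀ w, w ∈ Xg G (OT x ν (Qs ++ (y :: (K ++ u :: D)) :: Ms))
      ((Qs ++ (y :: (K ++ u :: D)) :: Ms) ++ [[ν]]) x →
      w ∈ Xg G (OL (((ν :: A') ++ u :: D) :: Ms) x y Qs)
        ((((ν :: A') ++ u :: D) :: Ms) ++ (Qs ++ [[y]])) x := fun w hw =>
    pe8_sub C hy hX (fun v hv => (hK3 v hv).1) (fun v hv => (hK3 v hv).2.1)
      (hnT _ (by simp)) hw
  have hsum : ∀ R ∈ Qs ++ (y :: (K ++ u :: D)) :: Ms,
      fx (Xg G (OT x ν (Qs ++ (y :: (K ++ u :: D)) :: Ms))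
        ((Qs ++ (y :: (K ++ u :: D)) :: Ms) ++ [[ν]]) x) R +
      fx (Xg G (OT x ν (Qs ++ (y :: (K ++ u :: D)) :: Ms))
        ((Qs ++ (y :: (K ++ u :: D)) :: Ms) ++ [[x]]) ν) R ≤ 2 := by
    intro R hR
    have hRn := hnT R hR
    have hXY := fun u hu v hv => tp_K1 S T hR (u := u) (v := v) hu hv
    have hR' := hR
    simp only [List.mem_append, List.mem_cons] at hR'
    rcases hR' with e | e | e
    · -- a segment of the path
      obtain ⟨Q1, Q2, hQ⟩ := List.append_of_mem e
      have hT : TP G L x ν (Q1 ++ R :: (Q2 ++ (y :: (K ++ u :: D)) :: Ms)) := by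
        have := T
        rw [hQ] at this
        simpa using this
      obtain ⟨a, ha⟩ : ∃ a, R.head? = some a := by
        have := T.two R hR
        cases R with
        | nil => simp at this
        | cons p R => exact ⟨p, rfl⟩
      refine pe8_two hRn hXY (a := a) (Or.inl ⟨ha, ?_⟩)
      intro v hv hvY
      have hvY' : v ∈ Xg G (OT x ν (Q1 ++ R :: (Q2 ++ (y :: (K ++ u :: D)) :: Ms)))
          ((Q1 ++ R :: (Q2 ++ (y :: (K ++ u :: D)) :: Ms)) ++ [[x]]) ν := by
        rw [hQ] at hvY
        simpa using hvY
      have := tp_K2 S hmin hT (by rw [hQ]; simp) (by simp) hvY' hv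
      rw [ha] at this
      exact (Option.some.inj this).symm
    · -- the new segment
      have hlast : ∀ z ∈ R, z ∈ Xg G (OL (((ν :: A') ++ u :: D) :: Ms) x y Qs)
          ((((ν :: A') ++ u :: D) :: Ms) ++ (Qs ++ [[y]])) x → R.getLast? = some z := by
        intro z hz hzX
        have hzH : z ∈ ((((ν :: A') ++ u :: D) :: Ms) ++ (Qs ++ [[y]])).flatten := by
          obtain ⟨t', ht'⟩ := hzX
          exact lvl_host (fun v hv => hv.1) t' ht'
        have hzD : z ∈ u :: D := by
          rw [e] at hz
          rcases List.mem_cons.1 hz with e' | e'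
          · rw [e'] at hzX; exact absurd hzX hy
          · rcases List.mem_append.1 e' with e' | e'
            · exfalso
              have h5 := (hK3 z e').1
              have h6 : z ∉ (((ν :: A') ++ u :: D) :: Ms).flatten := h5.1
              have h7 : z ∉ RL x y Qs := h5.2
              rw [List.flatten_append, List.mem_append] at hzH
              rcases hzH with h8 | h8
              · exact h6 h8
              · apply h7
                simp only [List.flatten_append, List.flatten_cons, List.flatten_nil,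
                  List.append_nil, List.mem_append, List.mem_singleton] at h8
                simp only [RL, List.mem_cons, List.mem_append, List.not_mem_nil, or_false]
                tauto
            · exact e'
        have h7 := hX ((ν :: A') ++ u :: D) List.mem_cons_self z
          (List.mem_append_right _ hzD) hzX
        rw [List.getLast?_append_of_ne_nil _ (by simp)] at h7
        rw [e, ← List.cons_append, List.getLast?_append_of_ne_nil _ (by simp)]
        exact h7
      obtain ⟨a, ha⟩ : ∃ a, R.getLast? = some a := by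
        rw [e]; exact ⟨_, List.getLast?_eq_some_getLast (by simp)⟩
      refine pe8_two hRn hXY (a := a) (Or.inr ⟨ha, ?_⟩)
      intro v hv hvX
      have := hlast v hv (hsub v hvX)
      rw [ha] at this
      exact (Option.some.inj this).symm
    · -- a segment of the cycle
      obtain ⟨a, ha⟩ : ∃ a, R.getLast? = some a := by
        have := T.two R hR
        exact ⟨_, List.getLast?_eq_some_getLast (by intro h; rw [h] at this; simp at this)⟩
      refine pe8_two hRn hXY (a := a) (Or.inr ⟨ha, ?_⟩)
      intro v hv hvX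
      have := hX R (List.mem_cons_of_mem _ e) v hv (hsub v hvX)
      rw [ha] at this
      exact (Option.some.inj this).symm
  have k1 := tp_count S T
  have k2 := tp_count' S T
  have k3 := pe8_sum hsum
  have k4 := T.card
  rw [S.card] at k4
  omega

/-- the T-lemma -/
theorem t_lemma [Fintype V] (S : Bs G L k) (hmin : MinC G L (Qs.length + 1))
    (C : LC G L x y Ps Qs)
    (hy : y ∉ Xg G (OL Ps x y Qs) (Ps ++ (Qs ++ [[y]])) x)
    (hX : ∀ P ∈ Ps, ∀ v ∈ P, v ∈ Xg G (OL Ps x y Qs) (Ps ++ (Qs ++ [[y]])) x →
      P.getLast? = some v) {P : List V} (hP : P ∈ Ps) {u : V} (hu : u ∈ P)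
    (hh : P.head? ≠ some u) (hc : Con G (OL Ps x y Qs) y u) : False := by
  obtain ⟨Pa, Pb, hPs⟩ := List.append_of_mem hP
  obtain ⟨A, D, hA⟩ := List.append_of_mem hu
  obtain ⟨ν, A', hA'⟩ : ∃ ν A', A = ν :: A' := by
    cases A with
    | nil => rw [hA] at hh; simp at hh
    | cons p A => exact ⟨p, A, rfl⟩
  subst hPs
  rw [hA, hA'] at C hy hX hc
  have C' : LC G L x y ((((ν :: A') ++ u :: D) :: Pb) ++ Pa) Qs := LC.rot C
  have hOL : OL (Pa ++ ((ν :: A') ++ u :: D) :: Pb) x y Qs =
      OL (((ν :: A') ++ u :: D) :: (Pb ++ Pa)) x y Qs := by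
    rw [OL_rot]; rfl
  have hEq : Eqv ((Pa ++ ((ν :: A') ++ u :: D) :: Pb) ++ (Qs ++ [[y]]))
      ((((ν :: A') ++ u :: D) :: (Pb ++ Pa)) ++ (Qs ++ [[y]])) := by
    constructor
    · intro R hR
      left
      simp only [List.mem_append, List.mem_cons] at hR ⊢
      tauto
    · intro R hR
      left
      simp only [List.mem_append, List.mem_cons] at hR ⊢
      tauto
  rw [hOL, hEq.xg] at hy hX
  rw [hOL] at hc
  refine pe8_front S hmin (Ms := Pb ++ Pa) C' hy ?_ hc
  intro R hR
  apply hX R
  simp only [List.mem_append, List.mem_cons] at hR ⊢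
  tauto

/-- (M6) in Case II -/
theorem c2_M6 [Fintype V] (S : Bs G L k) (hmin : MinC G L (Qs.length + 1))
    (C : LC G L x y Ps Qs) (_hc : 2 * (Qs.length + 1) ≤ k) (_hQ : Qs ≠ [])
    (hy : y ∉ Xg G (OL Ps x y Qs) (Ps ++ (Qs ++ [[y]])) x)
    (hX : ∀ P ∈ Ps, ∀ v ∈ P, v ∈ Xg G (OL Ps x y Qs) (Ps ++ (Qs ++ [[y]])) x →
      P.getLast? = some v) :
    ∀ P ∈ Ps, ∀ u ∈ P, Con G (OL Ps x y Qs) y u → P.head? = some u := by
  intro P hP u hu hc
  by_contra hh
  exact t_lemma S hmin C hy hX hP hu hh hc

end Pool.Agent.LW
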