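import Pool.Agent.LW.PE7

set_option autoImplicit false

/-!
# Case II: (K3)
-/

namespace Pool.Agent.LW

open SimpleGraph Classical

universe w

variable {V : Type w} {G H : SimpleGraph V} {L : Finset (Sym2 V)} {k : ℕ}
  {x y : V} {Ps Qs Ex Ey : List (List V)}

private theorem pe9_app {F X Y : List V} {a b : V} (h : [a, b] <:+: F) :
    [a, b] <:+: X ++ (F ++ Y) := by
  obtain ⟨s, t, hst⟩ := h
  exact ⟨X ++ s, t ++ Y, by rw [← hst]; simp⟩

private theorem pe9_junc {P0 P1 Q0 Q1 A B : List V} {N : List (List V)} {c d : V}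
    (h0 : Q0.getLast? = P0.getLast?) (h1 : Q1.head? = P1.head?)
    (h : [A, B] <:+: P0 :: (N ++ [P1])) (hc : A.getLast? = some c) (hd : B.head? = some d) :
    [c, d] <:+: Q0 ++ (N.flatten ++ Q1) := by
  have key : ∀ {X Y : List V}, X.getLast? = some c → Y.head? = some d → [c, d] <:+: X ++ Y := by
    intro X Y hX hY
    rcases List.eq_nil_or_concat X with h2 | ⟨X', p, h2⟩
    · rw [h2] at hX; simp at hX
    · cases Y with
      | nil => simp at hY
      | cons q Y =>
        rw [h2] at hX
        simp only [List.concat_eq_append, List.getLast?_append, List.getLast?_singleton,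
          Option.some_or, Option.some.injEq] at hX
        simp only [List.head?_cons, Option.some.injEq] at hY
        exact ⟨X', Y, by rw [h2, hX, hY]; simp⟩
  induction N generalizing P0 Q0 with
  | nil =>
    obtain ⟨s, t, hst⟩ := h
    have hl := congrArg List.length hst
    simp only [List.length_append, List.length_cons, List.length_nil] at hl
    have hs : s = [] := List.length_eq_zero_iff.1 (by omega)
    have ht : t = [] := List.length_eq_zero_iff.1 (by omega)
    subst hs; subst ht
    simp only [List.nil_append, List.append_nil, List.cons.injEq, and_true] at hst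
    obtain ⟨e1, e2⟩ := hst
    subst e1; subst e2
    simpa using key (h0.trans hc) (h1.trans hd)
  | cons R N ih =>
    obtain ⟨s, t, hst⟩ := h
    cases s with
    | nil =>
      simp only [List.nil_append, List.cons_append, List.cons.injEq] at hst
      obtain ⟨e1, e2, -⟩ := hst
      subst e1; subst e2
      have h2 := key (h0.trans hc) hd
      have h3 := pe9_app (X := []) (Y := N.flatten ++ Q1) h2
      simpa using h3
    | cons S s =>
      simp only [List.cons_append, List.cons.injEq] at hst
      have h2 : [A, B] <:+: R :: (N ++ [P1]) := ⟨s, t, by simpa using hst.2⟩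
      have h3 := pe9_app (X := Q0) (Y := []) (ih (Q0 := R) rfl h2)
      simpa using h3

private theorem pe9_pair1 {z a b : V} : ¬ [a, b] <:+: [z] := by
  intro hh
  obtain ⟨U, W, hUW⟩ := hh
  have := congrArg List.length hUW
  simp only [List.length_append, List.length_cons, List.length_nil] at this
  omega

/-- a hull edge, with the ends of the hull in order -/
private theorem pe9_he {Hs : List (List V)} {S : Set V} {a b : V} (h : HE Hs S a b) :
    ∃ Q ∈ Hs, ∃ X M Y s s', s ∈ S ∧ s' ∈ S ∧ Q = X ++ (s :: (M ++ [s'])) ++ Y ∧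
      [a, b] <:+: s :: (M ++ [s']) := by
  obtain ⟨Q, hQ, s, hs, s', hs', X, M, Y, e1, e2, e3, e4⟩ := h
  cases M with
  | nil => simp at e2
  | cons p M =>
    simp only [List.head?_cons, Option.some.injEq] at e2
    subst e2
    rcases List.eq_nil_or_concat M with h5 | ⟨M', q, h5⟩
    · rw [h5] at e4
      exact absurd e4 pe9_pair1
    · rw [h5, show p :: M'.concat q = (p :: M') ++ [q] by simp,
        List.getLast?_append_of_ne_nil _ (by simp)] at e3
      simp only [List.getLast?_singleton, Option.some.injEq] at e3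
      subst e3
      refine ⟨Q, hQ, X, M', Y, p, q, hs, hs', ?_, ?_⟩
      · rw [e1, h5]; simp
      · rw [h5] at e4
        simpa using e4

/-- a hull which ends at or before `v` -/
private theorem pe9_left {A D X M Y : List V} {v s s' : V} (hn : (A ++ v :: D).Nodup)
    (h : A ++ v :: D = X ++ (s :: (M ++ [s'])) ++ Y) (h' : ¬ Bf (A ++ v :: D) v s') :
    s :: (M ++ [s']) <:+: A ++ [v] := by
  have hm : s' ∈ A ++ v :: D := by rw [h]; simp
  have hs : s' ∈ A ++ [v] := by
    rcases List.mem_append.1 hm with h1 | h1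
    · exact List.mem_append_left _ h1
    · rcases List.mem_cons.1 h1 with h2 | h2
      · rw [h2]; simp
      · exact absurd (Bf.of_right h2) h'
  obtain ⟨B1, B2, hB⟩ := List.append_of_mem hs
  have e : B1 ++ s' :: (B2 ++ D) = (X ++ (s :: M)) ++ s' :: Y := by
    have e1 : A ++ v :: D = (A ++ [v]) ++ D := by simp
    rw [e1, hB] at h
    simpa using h
  have hn' : (B1 ++ s' :: (B2 ++ D)).Nodup := by
    have e1 : B1 ++ s' :: (B2 ++ D) = A ++ v :: D := by
      rw [show A ++ v :: D = (A ++ [v]) ++ D by simp, hB]; simp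
    rw [e1]; exact hn
  have g1 : s' ∉ B1 := by
    intro hh
    exact (List.nodup_append'.1 hn').2.2 hh (by simp)
  have g2 : s' ∉ X ++ (s :: M) := by
    intro hh
    rw [e] at hn'
    exact (List.nodup_append'.1 hn').2.2 hh (by simp)
  obtain ⟨g3, -⟩ := split_unique e g1 g2
  refine ⟨X, B2, ?_⟩
  rw [hB, g3]; simp

/-- a hull which starts at or after `u` -/
private theorem pe9_right {A D X M Y : List V} {u s s' : V} (hn : (A ++ u :: D).Nodup)
    (h : A ++ u :: D = X ++ (s :: (M ++ [s'])) ++ Y) (h' : ¬ Bf (A ++ u :: D) s u) :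
    s :: (M ++ [s']) <:+: u :: D := by
  have hm : s ∈ A ++ u :: D := by rw [h]; simp
  have hs : s ∈ u :: D := by
    rcases List.mem_append.1 hm with h1 | h1
    · exact absurd (Bf.of_left h1) h'
    · exact h1
  obtain ⟨B1, B2, hB⟩ := List.append_of_mem hs
  have e : (A ++ B1) ++ s :: B2 = X ++ s :: (M ++ [s'] ++ Y) := by
    rw [hB] at h
    simpa using h
  have hn' : ((A ++ B1) ++ s :: B2).Nodup := by
    have e1 : (A ++ B1) ++ s :: B2 = A ++ u :: D := by rw [hB]; simp
    rw [e1]; exact hn
  have g1 : s ∉ A ++ B1 := by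
    intro hh
    exact (List.nodup_append'.1 hn').2.2 hh (by simp)
  have g2 : s ∉ X := by
    intro hh
    rw [e] at hn'
    exact (List.nodup_append'.1 hn').2.2 hh (by simp)
  obtain ⟨-, g3⟩ := split_unique e g1 g2
  refine ⟨B1, Y, ?_⟩
  rw [hB, g3]; simp

/-- the closed list of the cycle -/
private theorem pe9_cyc (hsub : ∀ e ∈ L, e ∈ G.edgeSet) (C : LC G L x y Ps Qs) :
    ∃ c1 c2, Ch G c1 c2 Ps.flatten ∧ G.Adj c2 c1 ∧
      ∀ X Y : List V, ∀ c d, [X, Y] <:+: Ps ++ Ps.head?.toList → X.getLast? = some c →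
        Y.head? = some d → EL Ps.flatten c d ∨ s(c, d) = s(c1, c2) := by
  have hne : ∀ R ∈ Ps, R ≠ [] := by
    intro R hR h1
    have := C.twoP R hR
    rw [h1] at this; simp at this
  have hjn := C.jn
  cases hPs : Ps with
  | nil => rw [hPs] at hjn; exact absurd hjn (by simp [CycR])
  | cons P0 Pr =>
    rw [hPs] at hjn
    have hj : (P0 :: (Pr ++ [P0])).IsChain (JL L) := hjn
    obtain ⟨Pr', Pl, hPl⟩ : ∃ Pr' Pl, P0 :: Pr = Pr' ++ [Pl] := by
      rcases List.eq_nil_or_concat (P0 :: Pr) with h1 | ⟨Pr', Pl, h1⟩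
      · simp at h1
      · exact ⟨Pr', Pl, by rw [h1]; simp⟩
    have hJ : JL L Pl P0 := by
      have h1 : [Pl, P0] <:+: P0 :: (Pr ++ [P0]) := by
        refine ⟨Pr', [], ?_⟩
        rw [← List.cons_append, hPl]; simp
      have h2 := chain_of_inf hj h1
      simpa using h2
    obtain ⟨r, l, hr, hl, hrl⟩ := hJ
    have hPlm : Pl ∈ Ps := by rw [hPs, hPl]; simp
    have hP0m : P0 ∈ Ps := by rw [hPs]; simp
    have hch : Ch G l r (P0 :: Pr).flatten := by
      refine flat_ch hsub (chain_of_inf hj ⟨[], [P0], by simp⟩) ?_ ?_ ?_ ?_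
      · intro P hP; exact C.ch P (by rw [hPs]; exact hP)
      · intro P hP; exact hne P (by rw [hPs]; exact hP)
      · rw [List.flatten_cons, List.head?_append_of_ne_nil _ (hne P0 hP0m)]
        exact hl
      · rw [hPl, List.flatten_append, List.flatten_cons, List.flatten_nil, List.append_nil,
          List.getLast?_append_of_ne_nil _ (hne Pl hPlm)]
        exact hr
    refine ⟨l, r, hch, ?_, ?_⟩
    · have := hsub _ hrl
      rwa [mem_edgeSet] at this
    · intro X Y c d hXY hc hd
      have h1 : [X, Y] <:+: P0 :: (Pr ++ [P0]) := by simpa using hXY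
      have h2 := pe9_junc (Q0 := P0) (Q1 := [l]) rfl (by rw [hl]; rfl) h1 hc hd
      obtain ⟨F0, hF0⟩ : ∃ F0, (P0 :: Pr).flatten = F0 ++ [r] := by
        rcases List.eq_nil_or_concat (P0 :: Pr).flatten with h3 | ⟨F0, q, h3⟩
        · rw [h3] at hch; exact absurd rfl hch.ne
        · have h4 := hch.lt
          rw [h3] at h4
          simp only [List.concat_eq_append, List.getLast?_append, List.getLast?_singleton,
            Option.some_or, Option.some.injEq] at h4
          exact ⟨F0, by rw [h3, h4]; simp⟩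
      have h5 : [c, d] <:+: F0 ++ r :: [l] := by
        have e : P0 ++ (Pr.flatten ++ [l]) = F0 ++ r :: [l] := by
          have : (P0 :: Pr).flatten ++ [l] = F0 ++ [r] ++ [l] := by rw [hF0]
          simpa using this
        rw [← e]; exact h2
      rcases infix_pair_split h5 with h6 | h6
      · left; left
        rw [hF0]; exact h6
      · right
        obtain ⟨s, t, hst⟩ := h6
        have hlen := congrArg List.length hst
        simp only [List.length_append, List.length_cons, List.length_nil] at hlen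
        have hs : s = [] := List.length_eq_zero_iff.1 (by omega)
        have ht : t = [] := List.length_eq_zero_iff.1 (by omega)
        subst hs; subst ht
        simp only [List.nil_append, List.append_nil, List.cons.injEq, and_true] at hst
        rw [hst.1, hst.2, Sym2.eq_swap]

/-- (K3), induction step -/
theorem c2_K3 [Fintype V] (S : Bs G L k) (C : LC G L x y Ps Qs) (hQ : Qs ≠ [])
    (hII : NoCyc G L x y Ps Qs) {c t t' : ℕ}
    (h : KH Ps Qs c (t + t') (CX G x y Ps Qs) (CY G x y Ps Qs))
    {Q : List V} (hQm : Q ∈ Qs) {u v : V} (hu : u ∈ CX G x y Ps Qs t)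
    (hv : v ∈ CY G x y Ps Qs t') : ¬ Bf Q v u := by
  intro hvu
  have D := c2_HD S C hQ hII
  obtain ⟨Q1, Q2, hQs⟩ := List.append_of_mem hQm
  obtain ⟨A, M, D2, hQe⟩ := hvu.split
  have hRn : (RL x y Qs).Nodup := (List.nodup_append'.1 C.nd).2.1
  have hZR : ∀ w ∈ Ps.flatten, w ∉ RL x y Qs := fun w hw hw' =>
    (List.nodup_append'.1 C.nd).2.2 hw hw'
  have hQin : ∀ R ∈ Qs, ∀ w ∈ R, w ∈ RL x y Qs := fun R hR w hw =>
    mem_RL.2 (Or.inr (Or.inl (List.mem_flatten.2 ⟨R, hR, hw⟩)))
  have hyQ : ∀ R ∈ Qs, y ∉ R := by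
    intro R hR hyR
    have h3 := hRn
    rw [RL, List.nodup_cons, List.nodup_append'] at h3
    exact h3.2.2.2 (List.mem_flatten.2 ⟨R, hR, hyR⟩) (by simp)
  have hyR : y ∈ RL x y Qs := mem_RL.2 (Or.inr (Or.inr rfl))
  have hyP : y ∉ Ps.flatten := fun hy => hZR y hy hyR
  have hvQ : v ∈ Q := hvu.memL
  have huQ : u ∈ Q := hvu.memR
  have hvy : v ≠ y := fun e => hyQ Q hQm (e ▸ hvQ)
  have hvR : v ∈ RL x y Qs := hQin Q hQm v hvQ
  have hQn : Q.Nodup := by
    have h3 := hRn
    rw [RL, List.nodup_cons, List.nodup_append'] at h3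
    exact flat_nodup h3.2.1 hQm
  -- the walk
  have hR1 : Ch G u y ((u :: D2) ++ (Q2.flatten ++ [y])) := by
    have h3 := C.lk
    rw [hQs, hQe] at h3
    refine lk_ch_right S.sub (Q1 := Q1) (A := A ++ v :: M) (x := x) ?_
    simpa using h3
  have hR2 : Ch G x v (x :: (Q1.flatten ++ (A ++ [v]))) := by
    have h3 := C.lk
    rw [hQs, hQe] at h3
    exact lk_ch_left S.sub h3
  set W1 := (u :: D2) ++ (Q2.flatten ++ [y]) with hW1
  set W2 := x :: (Q1.flatten ++ (A ++ [v])) with hW2
  set F := W1 ++ W2.reverse with hFdef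
  have hle : G ≤ G ⊔ SimpleGraph.edge v y := le_sup_left
  have hadj : (G ⊔ SimpleGraph.edge v y).Adj y v := by
    rw [SimpleGraph.sup_adj]
    right
    rw [SimpleGraph.edge_adj]
    exact ⟨Or.inr ⟨rfl, rfl⟩, hvy.symm⟩
  have hF : Ch (G ⊔ SimpleGraph.edge v y) u x F :=
    (hR1.mono hle).append (hR2.reverse.mono hle) hadj
  have hRe : RL x y Qs = (x :: (Q1.flatten ++ A)) ++ v :: ((M ++ u :: D2) ++ (Q2.flatten ++ [y])) := by
    rw [RL, hQs, hQe]; simp
  have hFn : F.Nodup := by
    refine nodup_of_count hRn ?_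
    intro w
    rw [hFdef, hW1, hW2, hRe]
    simp only [List.count_append, List.count_reverse, List.count_cons, List.count_nil]
    omega
  have hFm : ∀ w ∈ F, w ∈ RL x y Qs := by
    intro w hw
    rw [hFdef, hW1, hW2] at hw
    rw [hRe]
    simp only [List.mem_append, List.mem_reverse, List.mem_cons, List.not_mem_nil,
      or_false] at hw ⊢
    tauto
  have hFvy : EL F v y := by
    have e : F = ((u :: D2) ++ Q2.flatten) ++ y :: v :: (W2.reverse.tail) := by
      rw [hFdef, hW1, hW2]
      simp
    rw [e]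
    exact EL.intro.symm
  have hF1 : ∀ a b, EL W1 a b → EL F a b := by
    intro a b hab
    refine hab.mono ⟨[], W2.reverse, ?_⟩
    rw [hFdef]; simp
  have hF2 : ∀ a b, EL W2 a b → EL F a b := by
    intro a b hab
    refine hab.reverse.mono ⟨W1, [], ?_⟩
    rw [hFdef]; simp
  have hFQ : ∀ R ∈ Qs, R ≠ Q → ∀ a b, [a, b] <:+: R → EL F a b := by
    intro R hR hRQ a b hab
    rw [hQs] at hR
    rcases List.mem_append.1 hR with hR | hR
    · obtain ⟨N1, N2, hN⟩ := List.append_of_mem hR
      apply hF2
      left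
      have h4 := pe9_app (X := x :: N1.flatten) (Y := N2.flatten ++ (A ++ [v])) hab
      rw [hW2, hN]
      simpa using h4
    · rcases List.mem_cons.1 hR with hR | hR
      · exact absurd hR hRQ
      · obtain ⟨N1, N2, hN⟩ := List.append_of_mem hR
        apply hF1
        left
        have h4 := pe9_app (X := (u :: D2) ++ N1.flatten) (Y := N2.flatten ++ [y]) hab
        rw [hW1, hN]
        simpa using h4
  -- edges of `L` on the path
  have hLF : ∀ a b, s(a, b) ∈ L → EL (RL x y Qs) a b → EL F a b := by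
    intro a b hab h3
    rw [hRe] at h3
    rcases h3.split with h4 | h4
    · apply hF2
      rw [hW2]
      simpa using h4
    · have h5 : EL ((v :: M) ++ u :: (D2 ++ (Q2.flatten ++ [y]))) a b := by simpa using h4
      rcases h5.split with h6 | h6
      · exfalso
        refine C.noQ S.ind hQm hab (h6.mono ⟨A, D2, ?_⟩)
        rw [hQe]; simp
      · apply hF1
        rw [hW1]
        simpa using h6
  -- the cycle
  obtain ⟨c1, c2, hc1, hc2, hc3⟩ := pe9_cyc S.sub C
  have hZn : Ps.flatten.Nodup := (List.nodup_append'.1 C.nd).1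
  have hZel : ∀ P ∈ Ps, ∀ a b, [a, b] <:+: P → EL Ps.flatten a b := by
    intro P hP a b hab
    obtain ⟨N1, N2, hN⟩ := List.append_of_mem hP
    left
    have h4 := pe9_app (X := N1.flatten) (Y := N2.flatten) hab
    rw [hN]
    simpa using h4
  have hhx : ∀ τ < t, ∀ a b, HE (Ps ++ (Qs ++ [[y]]))
      (Lg G (OL Ps x y Qs) (Ps ++ (Qs ++ [[y]])) x τ) a b → EL F a b ∨ EL Ps.flatten a b := by
    intro τ hτ a b hab
    obtain ⟨R, hR, X, M', Y, s, s', hs, hs', e1, e2⟩ := pe9_he hab
    have hin : [a, b] <:+: R := by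
      rw [e1, List.append_assoc]
      exact pe9_app (X := X) (Y := Y) e2
    rcases List.mem_append.1 hR with hR | hR
    · exact Or.inr (hZel R hR a b hin)
    · rcases List.mem_append.1 hR with hR | hR
      · left
        by_cases hRQ : R = Q
        · subst hRQ
          have h3 : ¬ Bf R v s' := h.k3 τ t' (by omega) R hR s' hs' v hv
          rw [hQe] at h3 e1 hQn
          have h4 := pe9_left hQn e1 h3
          apply hF2
          left
          rw [hW2]
          have h5 := pe9_app (X := x :: Q1.flatten) (Y := []) (e2.trans h4)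
          simpa using h5
        · exact hFQ R hR hRQ a b hin
      · rw [List.mem_singleton.1 hR] at hin; exact absurd hin pe9_pair1
  have hhy : ∀ τ < t', ∀ a b, HE (Ps ++ (Qs ++ [[x]]))
      (Lg G (OL Ps x y Qs) (Ps ++ (Qs ++ [[x]])) y τ) a b → EL F a b ∨ EL Ps.flatten a b := by
    intro τ hτ a b hab
    obtain ⟨R, hR, X, M', Y, s, s', hs, hs', e1, e2⟩ := pe9_he hab
    have hin : [a, b] <:+: R := by
      rw [e1, List.append_assoc]
      exact pe9_app (X := X) (Y := Y) e2
    rcases List.mem_append.1 hR with hR | hR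
    · exact Or.inr (hZel R hR a b hin)
    · rcases List.mem_append.1 hR with hR | hR
      · left
        by_cases hRQ : R = Q
        · subst hRQ
          have h3 : ¬ Bf R s u := h.k3 t τ (by omega) R hR u hu s hs
          have e3 : R = (A ++ v :: M) ++ u :: D2 := by rw [hQe]; simp
          rw [e3] at h3 e1 hQn
          have h4 := pe9_right hQn e1 h3
          apply hF1
          left
          rw [hW1]
          have h5 := pe9_app (X := []) (Y := Q2.flatten ++ [y]) (e2.trans h4)
          simpa using h5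
        · exact hFQ R hR hRQ a b hin
      · rw [List.mem_singleton.1 hR] at hin; exact absurd hin pe9_pair1
  have hoff : ∀ w, w ∈ F ∨ w ∈ Ps.flatten → w ∉ OL Ps x y Qs := by
    intro w hw hO
    rcases hw with hw | hw
    · exact hO.2 (hFm w hw)
    · exact hO.1 hw
  -- edges of `L` are no hull edges
  have hLH : ∀ a b, s(a, b) ∈ L → ∀ z, ∀ T : Set V, ¬ HE (Ps ++ (Qs ++ [[z]])) T a b := by
    intro a b hab z T hh
    obtain ⟨R, hR, X, M', Y, s, s', -, -, e1, e2⟩ := pe9_he hh
    have hin : EL R a b := Or.inl (by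
      rw [e1, List.append_assoc]
      exact pe9_app (X := X) (Y := Y) e2)
    rcases List.mem_append.1 hR with hR | hR
    · exact C.noP S.ind hR hab hin
    · rcases List.mem_append.1 hR with hR | hR
      · exact C.noQ S.ind hR hab hin
      · rw [List.mem_singleton.1 hR] at hin
        rcases hin with hin | hin
        · exact pe9_pair1 hin
        · exact pe9_pair1 hin
  have hLx : ∀ a b, s(a, b) ∈ L →
      NH G (OL Ps x y Qs) (Ps ++ (Qs ++ [[y]])) x t a b := by
    intro a b hab τ _
    exact ⟨hLH a b hab _ _, hLH b a (by rw [Sym2.eq_swap]; exact hab) _ _⟩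
  have hLy : ∀ a b, s(a, b) ∈ L →
      NH G (OL Ps x y Qs) (Ps ++ (Qs ++ [[x]])) y t' a b := by
    intro a b hab τ _
    exact ⟨hLH a b hab _ _, hLH b a (by rw [Sym2.eq_swap]; exact hab) _ _⟩
  have hL2 : ∃ a b c d, s(a, b) ∈ L ∧ s(c, d) ∈ L ∧ s(a, b) ≠ s(c, d) ∧ EL F a b ∧ EL F c d := by
    have h3 := rp_card S.ind (⟨hRn, C.twoQ, C.lk⟩ : RP G L x y Qs)
      (fun Q hQ c d hcd => C.noQ S.ind hQ hcd)
    have h5 : Qs.length ≠ 0 := fun e => hQ (List.length_eq_zero_iff.1 e)
    have h4 := lt_of_lt_of_eq (show 1 < Qs.length + 1 by omega) h3.symm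
    rw [Finset.one_lt_card] at h4
    obtain ⟨e, he, f, hf, hef⟩ := h4
    simp only [Finset.mem_filter] at he hf
    obtain ⟨he, a, b, rfl, hab⟩ := he
    obtain ⟨hf, c, d, rfl, hcd⟩ := hf
    exact ⟨a, b, c, d, he, hf, hef, hLF _ _ he hab, hLF _ _ hf hcd⟩
  have hvyL : s(v, y) ∉ L := by
    intro hvL
    -- `v` is inside `RL` before `u`, so not next to `y`
    rcases C.cov S.ind hvL with h3 | ⟨X, Y, hXY, hor⟩
    · rw [hRe] at h3
      have hRn' := hRn
      rw [hRe] at hRn'
      rcases h3.split with h4 | h4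
      · have h5 := h4.memR
        have h6 : y ∉ (x :: (Q1.flatten ++ A)) ++ [v] := by
          intro h7
          rcases List.mem_append.1 h7 with h8 | h8
          · exact (List.nodup_append'.1 hRn').2.2 h8 (by simp)
          · exact hvy (List.mem_singleton.1 h8).symm
        exact h6 h5
      · have h5 : EL ((v :: M) ++ u :: (D2 ++ (Q2.flatten ++ [y]))) v y := by simpa using h4
        have hRn2 : ((v :: M) ++ u :: (D2 ++ (Q2.flatten ++ [y]))).Nodup := by
          have := (List.nodup_append'.1 hRn').2.1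
          simpa using this
        rcases h5.split with h6 | h6
        · have h7 : y ∉ (v :: M) ++ [u] := by
            intro h7
            rcases List.mem_append.1 h7 with h8 | h8
            · exact (List.nodup_append'.1 hRn2).2.2 h8 (by simp)
            · exact hyQ Q hQm ((List.mem_singleton.1 h8) ▸ huQ)
          exact h7 h6.memR
        · have h7 : v ∉ u :: (D2 ++ (Q2.flatten ++ [y])) := fun h8 =>
            (List.nodup_append'.1 hRn2).2.2 (show v ∈ v :: M by simp) h8
          exact h7 h6.memL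
    · have hXm : X ∈ Ps := by
        have := hXY.subset (show X ∈ [X, Y] by simp)
        rcases List.mem_append.1 this with h4 | h4
        · exact h4
        · rw [Option.mem_toList] at h4
          exact List.mem_of_head? h4
      have hYm : Y ∈ Ps := by
        have := hXY.subset (show Y ∈ [X, Y] by simp)
        rcases List.mem_append.1 this with h4 | h4
        · exact h4
        · rw [Option.mem_toList] at h4
          exact List.mem_of_head? h4
      rcases hor with ⟨g1, g2⟩ | ⟨g1, g2⟩
      · exact hyP (List.mem_flatten.2 ⟨Y, hYm, List.mem_of_head? g2⟩)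
      · exact hyP (List.mem_flatten.2 ⟨X, hXm, List.mem_of_getLast? g1⟩)
  obtain ⟨hx1, hx2⟩ := HD.hx C D
  obtain ⟨hy1, hy2⟩ := HD.hy C D
  have hxO : x ∉ OL Ps x y Qs := fun hh => hh.2 (mem_RL.2 (Or.inl rfl))
  have hyO : y ∉ OL Ps x y Qs := fun hh => hh.2 hyR
  obtain ⟨a, b, D', hCl, hDm, hED, hlast⟩ := hop2 (C := Ps.flatten) (c1 := c1) (c2 := c2)
    D.nx D.ny hx1 hxO hx2 hy1 hyO hy2 hu hv hvy hF hFn hFvy (Or.inr ⟨hc1, hc2, hZn⟩)
    (fun w hw hw' => hZR w hw' (hFm w hw))
    ⟨hhx, fun w hw hO => absurd hO (hoff w hw)⟩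
    ⟨hhy, fun w hw hO => absurd hO (hoff w hw)⟩
    (kh_cross D h) (kh_edge D h) (by
      intro τ _
      have key : ∀ R ∈ Ps ++ (Qs ++ [[y]]), y ∈ R → R = [y] := by
        intro R hR hyR'
        rcases List.mem_append.1 hR with hR | hR
        · exact absurd (List.mem_flatten.2 ⟨R, hR, hyR'⟩) hyP
        · rcases List.mem_append.1 hR with hR | hR
          · exact absurd hyR' (hyQ R hR)
          · exact List.mem_singleton.1 hR
      refine ⟨?_, ?_⟩
      · intro hh
        obtain ⟨R, hR, X, M', Y, s, s', -, -, e1, e2⟩ := pe9_he hh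
        have hin : [v, y] <:+: R := by
          rw [e1, List.append_assoc]
          exact pe9_app (X := X) (Y := Y) e2
        have h3 := key R hR (hin.subset (by simp))
        rw [h3] at hin
        exact pe9_pair1 hin
      · intro hh
        obtain ⟨R, hR, X, M', Y, s, s', -, -, e1, e2⟩ := pe9_he hh
        have hin : [y, v] <:+: R := by
          rw [e1, List.append_assoc]
          exact pe9_app (X := X) (Y := Y) e2
        have h3 := key R hR (hin.subset (by simp))
        rw [h3] at hin
        exact pe9_pair1 hin)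
    (by
      obtain ⟨a, b, c', d, h3, h4, h5, h6, h7⟩ := hL2
      exact ⟨a, b, c', d, h6, h7, h5, fun e => hvyL (e ▸ h3),
        fun e => hvyL (e ▸ h4), hLx a b h3, hLx c' d h4, hLy a b h3, hLy c' d h4⟩)
  have hEL : ∀ c d, s(c, d) ∈ L → EL (RL x y Qs) c d → EC a b D' c d := fun c d hcd h3 =>
    hED c d (hLF c d hcd h3) (fun e => hvyL (e ▸ hcd)) (hLx c d hcd) (hLy c d hcd)
  rcases hlast with hun | hab
  · obtain ⟨c', d', g1, g2, g3⟩ := hII a b D' hCl hun
    exact g3 (hEL c' d' g1 g2)
  · have hLne : L.Nonempty := by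
      obtain ⟨a, b, _, _, h3, -⟩ := hL2
      exact ⟨_, h3⟩
    obtain ⟨Rs, hRs⟩ := full_of_closed S.ind hLne hCl.ch hCl.nd hCl.cl hCl.len (by
      intro c' d' hcd
      rcases C.cov S.ind hcd with h3 | ⟨X, Y, hXY, hor⟩
      · exact hEL c' d' hcd h3
      · rcases hor with ⟨g1, g2⟩ | ⟨g1, g2⟩
        · exact hab c' d' (hc3 X Y c' d' hXY g1 g2) (hLx c' d' hcd) (hLy c' d' hcd)
        · have h4 := hc3 X Y d' c' hXY g1 g2
          have h5 : EL Ps.flatten c' d' ∨ s(c', d') = s(c1, c2) := by
            rcases h4 with h4 | h4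
            · exact Or.inl h4.symm
            · exact Or.inr (by rw [Sym2.eq_swap]; exact h4)
          exact hab c' d' h5 (hLx c' d' hcd) (hLy c' d' hcd))
    exact S.no Rs hRs

end Pool.Agent.LW
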