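import Pool.Agent.LW.PE3
import Pool.Agent.LW.PE8
import Pool.Agent.LW.PE9
import Pool.Agent.LW.PE10

set_option autoImplicit false

/-!
# Case II
-/

namespace Pool.Agent.LW

open SimpleGraph Classical

universe w

variable {V : Type w} {G H : SimpleGraph V} {L : Finset (Sym2 V)} {k : ℕ}
  {x y : V} {Ps Qs Ex Ey : List (List V)}

private theorem pe11_nodup (C : LC G L x y Ps Qs) : (Ps ++ (Qs ++ [[y]])).flatten.Nodup := by
  have h := C.nd
  have h1 : (Ps ++ (Qs ++ [[y]])).flatten = Ps.flatten ++ (Qs.flatten ++ [y]) := by simp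
  rw [h1]
  unfold RL at h
  refine h.sublist ?_
  exact List.Sublist.append (List.Sublist.refl _) (List.sublist_cons_self _ _)

private theorem pe11_x (C : LC G L x y Ps Qs) :
    x ∉ Ps.flatten ∧ x ∉ Qs.flatten ∧ x ≠ y ∧ y ∉ Ps.flatten ∧ y ∉ Qs.flatten := by
  have h := C.nd
  unfold RL at h
  rw [List.nodup_append] at h
  obtain ⟨h1, h2, h3⟩ := h
  rw [List.nodup_cons, List.mem_append, List.mem_singleton, List.nodup_append] at h2
  obtain ⟨h4, h5, h6, h7⟩ := h2
  refine ⟨fun h => h3 _ h _ List.mem_cons_self rfl, fun h => h4 (Or.inl h), fun h => h4 (Or.inr h),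
    fun h => h3 _ h y (by simp) rfl, fun h => h7 _ h y (by simp) rfl⟩

private theorem pe11_sum (X : Set V) (Qs : List (List V)) : (Qs.map (fx X)).sum ≤ 2 * Qs.length := by
  induction Qs with
  | nil => simp
  | cons Q Qs ih =>
    rw [List.map_cons, List.sum_cons, List.length_cons]
    have := fx_le X Q
    omega

private theorem pe11_two {x y : V} {P : List V} (h : P = [y]) : ¬ Bf P x y := by
  subst h
  intro h
  have := h.length_le
  simp at this

/-- the boundary of the closure of `x` in Case II -/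
theorem c2_count [Fintype V] (S : Bs G L k) (C : LC G L x y Ps Qs)
    (hy : y ∉ Xg G (OL Ps x y Qs) (Ps ++ (Qs ++ [[y]])) x) :
    k ≤ (Ps.map (fx (Xg G (OL Ps x y Qs) (Ps ++ (Qs ++ [[y]])) x))).sum + 2 * Qs.length := by
  obtain ⟨n1, n2, n3, n4, n5⟩ := pe11_x C
  have hnd := pe11_nodup C
  set O := OL Ps x y Qs with hO
  set Hs := Ps ++ (Qs ++ [[y]]) with hHs
  have hmem : ∀ v, v ∈ Hs.flatten ↔ v ∈ Ps.flatten ∨ v ∈ Qs.flatten ∨ v = y := by
    intro v
    rw [hHs]
    simp
  have hOm : ∀ v, v ∈ O ↔ v ∉ Ps.flatten ∧ v ≠ x ∧ v ∉ Qs.flatten ∧ v ≠ y := by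
    intro v
    rw [hO]
    simp only [OL, Set.mem_setOf_eq, mem_RL, not_or]
  have hxH : x ∉ Hs.flatten := by
    rw [hmem]
    rintro (h | h | h)
    · exact n1 h
    · exact n2 h
    · exact n3 h
  have hyO : y ∉ O := by
    rw [hOm]
    rintro ⟨-, -, -, h⟩
    exact h rfl
  have hyA : y ∉ Ag G O Hs x := by
    rintro (h | h | ⟨l, hl, h⟩)
    · exact n3 h.symm
    · exact hyO (att_mem h)
    · rcases h with rfl | h
      · obtain ⟨-, P, hP, s, hs, s', hs', hb, hb'⟩ := hl
        have hy1 : y ∈ [y] := List.mem_singleton.2 rfl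
        have hyH : [y] ∈ Hs := by
          rw [hHs]
          simp
        have hPy : P = [y] := flat_same hnd hP hyH hb.memR hy1
        exact pe11_two hPy hb
      · exact hyO (att_mem h)
  have hxE : x ∉ fs (Ex G O Hs x) := by
    rw [mem_fs]
    rintro ⟨h, -⟩
    exact hxH (Xg_host h)
  have hyE : y ∉ fs (Ex G O Hs x) := by
    rw [mem_fs]
    rintro ⟨h, -⟩
    exact hy h
  have h1 : k ≤ (fs (Ex G O Hs x)).card := by
    refine sep_card S (A := Ag G O Hs x) (a := x) (z := y) (Or.inl rfl) hxE ?_ hyA hyE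
    intro a ha v hv
    rcases gen_step ha hv with h | h | ⟨h, h', h''⟩
    · exact Or.inl h
    · exact Or.inr (mem_fs.2 h)
    · exfalso
      rw [hmem] at h
      apply h'
      rw [hOm]
      exact ⟨fun h0 => h (Or.inl h0), h'', fun h0 => h (Or.inr (Or.inl h0)), fun h0 => h (Or.inr (Or.inr h0))⟩
  have h2 := gen_card (G := G) (O := O) hnd (g := x)
  have h3 : (Hs.map (fx (Xg G O Hs x))).sum = (Ps.map (fx (Xg G O Hs x))).sum +
      ((Qs.map (fx (Xg G O Hs x))).sum + fx (Xg G O Hs x) [y]) := by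
    have e : ∀ f : List V → ℕ, (Hs.map f).sum = (Ps.map f).sum + ((Qs.map f).sum + f [y]) := by
      intro f
      rw [hHs]
      simp
    exact e _
  have h4 : fx (Xg G O Hs x) [y] = 0 := by
    unfold fx
    have : [y].filter (fun v => v ∈ Xg G O Hs x) = [] := by
      rw [List.filter_eq_nil_iff]
      intro a ha
      rw [List.mem_singleton] at ha
      subst ha
      simpa using hy
    rw [this]
    simp
  have h5 := pe11_sum (Xg G O Hs x) Qs
  omega

private theorem pe11_eqv1 : Eqv (Ps ++ (rv Qs ++ [[x]])) (Ps ++ (Qs ++ [[x]])) := by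
  constructor
  · intro P hP
    rw [List.mem_append, List.mem_append] at hP
    rcases hP with h | h | h
    · exact Or.inl (by simp [h])
    · exact Or.inr (by rw [mem_rv] at h; simp [h])
    · exact Or.inl (by simp only [List.mem_append]; exact Or.inr (Or.inr h))
  · intro P hP
    rw [List.mem_append, List.mem_append] at hP
    rcases hP with h | h | h
    · exact Or.inl (by simp [h])
    · refine Or.inr ?_
      rw [List.mem_append, List.mem_append, mem_rv, List.reverse_reverse]
      exact Or.inr (Or.inl h)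
    · exact Or.inl (by simp only [List.mem_append]; exact Or.inr (Or.inr h))

private theorem pe11_eqv2 {Rs : List (List V)} : Eqv (rv Ps ++ Rs) (Ps ++ Rs) := by
  constructor
  · intro P hP
    rw [List.mem_append] at hP
    rcases hP with h | h
    · exact Or.inr (by rw [mem_rv] at h; simp [h])
    · exact Or.inl (by simp [h])
  · intro P hP
    rw [List.mem_append] at hP
    rcases hP with h | h
    · refine Or.inr ?_
      rw [List.mem_append, mem_rv, List.reverse_reverse]
      exact Or.inl h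
    · exact Or.inl (by simp [h])

/-- Case II -/
theorem caseII [Fintype V] (S : Bs G L k) (hmin : MinC G L (Qs.length + 1))
    (C : LC G L x y Ps Qs) (hk : Lkd G x y Ps Qs) (hc : 2 * (Qs.length + 1) ≤ k)
    (hQ : Qs ≠ []) : ∃ a b D, Cl G a b D ∧ (∀ v ∈ D, v ∉ Ps.flatten) ∧
      ∀ c d, s(c, d) ∈ L → EL (RL x y Qs) c d → EC a b D c d := by
  by_contra hcon
  have hII : NoCyc G L x y Ps Qs := by
    intro a b D hD hZ
    by_contra h
    apply hcon
    refine ⟨a, b, D, hD, hZ, fun c d h1 h2 => ?_⟩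
    by_contra h3
    exact h ⟨c, d, h1, h2, h3⟩
  have hHD := c2_HD S C hQ hII
  have hall := kh_all S hmin C hHD (fun t t' h Q hQm u hu v hv => c2_K3 S C hQ hII h hQm hu hv)
  have hcard : Ps.length + (Qs.length + 1) = k := by
    rw [C.card, S.card]
  have hsl := kh_sl (c := Qs.length + 1) C (by omega) (by omega) hall
  have hy : y ∉ Xg G (OL Ps x y Qs) (Ps ++ (Qs ++ [[y]])) x := by
    rintro ⟨t, ht⟩
    exact c2_K0 S C hQ hII t ht
  have hx : x ∉ Xg G (OL Ps x y Qs) (Ps ++ (Qs ++ [[x]])) y := by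
    rintro ⟨t, ht⟩
    exact c2_K0' S C hQ hII t ht
  have fX := c2_count S C hy
  have e1 : Xg G (OL Ps y x (rv Qs)) (Ps ++ (rv Qs ++ [[x]])) y = Xg G (OL Ps x y Qs) (Ps ++ (Qs ++ [[x]])) y := by
    rw [OL_revR]
    exact pe11_eqv1.xg
  have fY := c2_count S C.revR (by rw [e1]; exact hx)
  rw [e1, length_rv] at fY
  obtain ⟨u0, hu0, hcu0⟩ := hk
  obtain ⟨P0, hP0, hu0P⟩ := List.mem_flatten.1 hu0
  have e2 : Xg G (OL (rv Ps) x y Qs) (rv Ps ++ (Qs ++ [[y]])) x = Xg G (OL Ps x y Qs) (Ps ++ (Qs ++ [[y]])) x := by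
    rw [OL_revZ]
    exact pe11_eqv2.xg
  have hfin := slot (Y0 := {u | u ∈ Ps.flatten ∧ Con G (OL Ps x y Qs) y u}) hsl
    (fun v hv => Xg_zero (by simp only [List.flatten_append, List.mem_append]; exact Or.inl hv.1) hv.2)
    ⟨P0, hP0, u0, hu0P, hu0, hcu0⟩ (by omega) (by omega)
    (fun hX P hP u hu hu' => c2_M6 S hmin C hc hQ hy hX P hP u hu hu'.2)
    (fun hX P hP u hu hu' => by
      have h1 := c2_M6 S hmin C.revZ hc hQ (by rw [e2]; exact hy) (by
        rw [e2]
        intro P' hP' v hv hvX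
        rw [mem_rv] at hP'
        have h2 := hX P'.reverse hP' v (List.mem_reverse.2 hv) hvX
        rwa [List.head?_reverse] at h2) P.reverse (by rw [mem_rv, List.reverse_reverse]; exact hP) u
          (List.mem_reverse.2 hu) (by rw [OL_revZ]; exact hu'.2)
      rwa [List.head?_reverse] at h1)
  omega

end Pool.Agent.LW
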