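import Pool.Agent.LW.PE1

set_option autoImplicit false

/-!
# Slots: generic and non-generic case
-/

namespace Pool.Agent.LW

open SimpleGraph Classical

universe w

variable {V : Type w} {G H : SimpleGraph V} {L : Finset (Sym2 V)} {k : ℕ}
  {x y : V} {Ps Qs Ex Ey : List (List V)}

/-- `X` meets `P` minus its last vertex -/
def La (X : Set V) (P : List V) : Prop := ∃ u ∈ P, u ∈ X ∧ P.getLast? ≠ some u

/-- `X` meets `P` minus its first vertex -/
def Pa (X : Set V) (P : List V) : Prop := ∃ u ∈ P, u ∈ X ∧ P.head? ≠ some u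

private theorem pe2_ends {P : List V} (hn : P.Nodup) (h2 : 2 ≤ P.length) {u : V}
    (h : P.head? = some u) (h' : P.getLast? = some u) : False := by
  cases P with
  | nil => simp at h2
  | cons a P =>
    cases P with
    | nil => simp at h2
    | cons b P =>
      simp only [List.head?_cons, Option.some.injEq] at h
      subst h
      rw [List.getLast?_cons_cons] at h'
      exact (List.nodup_cons.1 hn).1 (List.mem_of_getLast? h')

theorem fx_slot {X : Set V} {P : List V} (hn : P.Nodup) (h2 : 2 ≤ P.length) :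
    fx X P + (if (∃ u ∈ P, u ∈ X ∧ P.getLast? ≠ some u ∧ P.head? ≠ some u) ∧ fx X P = 1
      then 1 else 0) ≤ (if La X P then 1 else 0) + (if Pa X P then 1 else 0) := by
  have hle := fx_le X P
  rcases Nat.lt_or_ge (fx X P) 1 with h0 | h0
  · have h0' : fx X P = 0 := by omega
    rw [h0', if_neg (by rintro ⟨_, h⟩; omega)]
    exact Nat.zero_le _
  rcases Nat.lt_or_ge (fx X P) 2 with h1 | h1
  · have h1' : fx X P = 1 := by omega
    obtain ⟨c, hcP, hcX, huniq⟩ := fx_one h1' hn
    by_cases hl : P.getLast? = some c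
    · have hh : P.head? ≠ some c := fun h => pe2_ends hn h2 h hl
      have hPa : Pa X P := ⟨c, hcP, hcX, hh⟩
      rw [if_neg, if_pos hPa]
      · omega
      · rintro ⟨⟨u, hu, huX, h3, -⟩, -⟩
        rw [huniq u hu huX] at h3
        exact h3 hl
    · have hLa : La X P := ⟨c, hcP, hcX, hl⟩
      by_cases hh : P.head? = some c
      · rw [if_neg, if_pos hLa]
        · omega
        · rintro ⟨⟨u, hu, huX, -, h3⟩, -⟩
          rw [huniq u hu huX] at h3
          exact h3 hh
      · have hPa : Pa X P := ⟨c, hcP, hcX, hh⟩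
        rw [if_pos hLa, if_pos hPa]
        split_ifs <;> omega
  · have h2' : fx X P = 2 := by omega
    obtain ⟨v, hv, v', hv', hne, hX, hX'⟩ := (fx_two hn).1 h2'
    have hLa : La X P := by
      by_cases hl : P.getLast? = some v
      · exact ⟨v', hv', hX', fun h => hne (by simpa using hl.symm.trans h)⟩
      · exact ⟨v, hv, hX, hl⟩
    have hPa : Pa X P := by
      by_cases hl : P.head? = some v
      · exact ⟨v', hv', hX', fun h => hne (by simpa using hl.symm.trans h)⟩
      · exact ⟨v, hv, hX, hl⟩
    rw [if_pos hLa, if_pos hPa, if_neg (by rintro ⟨_, h⟩; omega)]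
    omega

private theorem pe2_sum {α : Type w} {f g : α → ℕ} {a b c d : α → Prop} {l : List α}
    (h : ∀ Q ∈ l, f Q + g Q + (if a Q ∧ d Q then 1 else 0) + (if c Q ∧ b Q then 1 else 0) ≤
      (if a Q then 1 else 0) + (if b Q then 1 else 0) + (if c Q then 1 else 0) +
        (if d Q then 1 else 0)) :
    (l.map f).sum + (l.map g).sum + (l.filter (fun P => a P ∧ d P)).length +
      (l.filter (fun P => c P ∧ b P)).length ≤
      (l.filter (fun P => a P)).length + (l.filter (fun P => b P)).length +
      (l.filter (fun P => c P)).length + (l.filter (fun P => d P)).length := by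
  induction l with
  | nil => simp
  | cons e l ih =>
    have h1 := h e (by simp)
    have h2 := ih (fun Q hQ => h Q (List.mem_cons_of_mem _ hQ))
    by_cases ha : a e <;> by_cases hb : b e <;> by_cases hc : c e <;> by_cases hd : d e <;>
      simp only [List.filter_cons, ha, hb, hc, hd, decide_true, decide_false,
        and_true, and_false, and_self, if_true, if_false,
        List.length_cons, Bool.false_eq_true, List.map_cons, List.sum_cons] at h1 h2 ⊢ <;> omega

/-- the four slots are nonempty -/
theorem slot_gen {c : ℕ} {X Y : Set V} (h : SL Ps c X Y) (h1 : ∃ P ∈ Ps, La X P)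
    (h2 : ∃ P ∈ Ps, Pa X P) (h3 : ∃ P ∈ Ps, La Y P) (h4 : ∃ P ∈ Ps, Pa Y P) :
    (Ps.map (fx X)).sum + (Ps.map (fx Y)).sum + 2 * c ≤ 2 * (Ps.length + 1) := by
  have e1 := slot_sum (La X) (Pa Y) h.hc (by
    intro P M P' N hR hp hq
    by_contra hcon
    obtain ⟨u, hu, huX, hul⟩ := hp
    obtain ⟨v, hv, hvY, hvh⟩ := hq
    exact hvh (h.k2 P M P' N hR (by omega) u hu huX hul v hv hvY)) h1 h4
  have e2 := slot_sum (La Y) (Pa X) h.hc (by
    intro P M P' N hR hp hq
    by_contra hcon
    obtain ⟨u, hu, huX, hul⟩ := hp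
    obtain ⟨v, hv, hvY, hvh⟩ := hq
    exact hvh (h.k2' P M P' N hR (by omega) u hu huX hul v hv hvY)) h3 h2
  have e3 := pe2_sum (f := fx X) (g := fx Y) (a := La X) (b := Pa X) (c := La Y) (d := Pa Y)
    (l := Ps) (by
      intro P hP
      have hn : P.Nodup := flat_nodup h.nd hP
      have ht := h.two P hP
      have s1 := fx_slot (X := X) hn ht
      have s2 := fx_slot (X := Y) hn ht
      have key1 : (if La X P ∧ Pa Y P then 1 else 0) ≤
          (if (∃ u ∈ P, u ∈ X ∧ P.getLast? ≠ some u ∧ P.head? ≠ some u) ∧ fx X P = 1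
            then 1 else 0) := by
        by_cases hb : La X P ∧ Pa Y P
        · obtain ⟨⟨u, hu, huX, hul⟩, ⟨v, hv, hvY, hvh⟩⟩ := id hb
          have huv := h.k1 P hP u hu v hv huX hvY
          subst huv
          have hf : fx X P = 1 := by
            have a1 := fx_le X P
            by_contra hne
            rcases Nat.lt_or_ge (fx X P) 1 with h0 | h0
            · exact fx_zero (by omega) u hu huX
            · obtain ⟨v1, hv1, v2, hv2, hne', hX1, hX2⟩ := (fx_two hn).1 (by omega : fx X P = 2)
              exact hne' ((h.k1 P hP v1 hv1 u hu hX1 hvY).trans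
                (h.k1 P hP v2 hv2 u hu hX2 hvY).symm)
          rw [if_pos hb, if_pos ⟨⟨u, hu, huX, hul, hvh⟩, hf⟩]
        · rw [if_neg hb]
          exact Nat.zero_le _
      have key2 : (if La Y P ∧ Pa X P then 1 else 0) ≤
          (if (∃ u ∈ P, u ∈ Y ∧ P.getLast? ≠ some u ∧ P.head? ≠ some u) ∧ fx Y P = 1
            then 1 else 0) := by
        by_cases hb : La Y P ∧ Pa X P
        · obtain ⟨⟨v, hv, hvY, hvl⟩, ⟨u, hu, huX, huh⟩⟩ := id hb
          have huv := h.k1 P hP u hu v hv huX hvY
          subst huv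
          have hf : fx Y P = 1 := by
            have a1 := fx_le Y P
            by_contra hne
            rcases Nat.lt_or_ge (fx Y P) 1 with h0 | h0
            · exact fx_zero (by omega) u hu hvY
            · obtain ⟨v1, hv1, v2, hv2, hne', hX1, hX2⟩ := (fx_two hn).1 (by omega : fx Y P = 2)
              exact hne' ((h.k1 P hP u hu v1 hv1 huX hX1).symm.trans
                (h.k1 P hP u hu v2 hv2 huX hX2))
          rw [if_pos hb, if_pos ⟨⟨u, hu, hvY, hvl, huh⟩, hf⟩]
        · rw [if_neg hb]
          exact Nat.zero_le _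
      omega)
  omega

end Pool.Agent.LW
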