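import Pool.Agent.LW.PE2

set_option autoImplicit false

/-!
# Slots: non-generic case
-/

namespace Pool.Agent.LW

open SimpleGraph Classical

universe w

variable {V : Type w} {G H : SimpleGraph V} {L : Finset (Sym2 V)} {k : ℕ}
  {x y : V} {Ps Qs Ex Ey : List (List V)}

private theorem pe3_rot {P M' P' N' : List V} {M N : List (List V)}
    (h : Rot (rv Ps) (P :: (M ++ P' :: N))) (hM : M' = P'.reverse) (hN : N' = P.reverse) :
    Rot Ps (M' :: (rv M ++ N' :: rv N)) := by
  obtain ⟨A, D, h1, h2⟩ := h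
  subst hM
  subst hN
  have h3 : Ps = rv D ++ rv A := by
    have := congrArg rv h1
    simpa using this
  have h4 : rv (P :: (M ++ P' :: N)) = rv A ++ rv D := by
    rw [h2, rv_append]
  have h5 : (rv N ++ ([P'.reverse] ++ rv M ++ [P.reverse])) = rv A ++ rv D := by
    rw [← h4]
    simp
  rcases List.append_eq_append_iff.1 h5 with ⟨a, h6, h7⟩ | ⟨a, h6, h7⟩
  · -- `rv A = rv N ++ a`, `[P'] ++ rv M ++ [P] = a ++ rv D`
    refine ⟨rv D ++ rv N, a, ?_, ?_⟩
    · rw [h3, h6]; simp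
    · have h8 : P'.reverse :: (rv M ++ P.reverse :: rv N) =
          ([P'.reverse] ++ rv M ++ [P.reverse]) ++ rv N := by simp
      rw [h8, h7]
      simp
  · -- `rv N = rv A ++ a`, `rv D = a ++ ([P'] ++ rv M ++ [P])`
    refine ⟨a, ([P'.reverse] ++ rv M ++ [P.reverse]) ++ rv A, ?_, ?_⟩
    · rw [h3, h7]; simp
    · have h8 : P'.reverse :: (rv M ++ P.reverse :: rv N) =
          ([P'.reverse] ++ rv M ++ [P.reverse]) ++ rv N := by simp
      rw [h8, h6]
      simp

theorem SL.rev {c : ℕ} {X Y : Set V} (h : SL Ps c X Y) : SL (rv Ps) c X Y := by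
  refine ⟨?_, ?_, h.hc1, ?_, ?_, ?_, ?_⟩
  · rw [flatten_rv]
    exact List.nodup_reverse.2 h.nd
  · exact two_rv.2 h.two
  · rw [length_rv]
    exact h.hc
  · intro P hP u hu v hv huX hvY
    exact h.k1 P.reverse (mem_rv.1 hP) u (List.mem_reverse.2 hu) v (List.mem_reverse.2 hv) huX hvY
  · intro P M P' N hR hM u hu huX hul v hv hvY
    by_contra hcon
    refine hul ?_
    have h1 := h.k2' _ _ _ _ (pe3_rot hR rfl rfl) (by rw [length_rv]; exact hM) v
      (List.mem_reverse.2 hv) hvY (by rw [List.getLast?_reverse]; exact hcon) u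
      (List.mem_reverse.2 hu) huX
    rwa [List.head?_reverse] at h1
  · intro P M P' N hR hM v hv hvY hvl u hu huX
    by_contra hcon
    refine hvl ?_
    have h1 := h.k2 _ _ _ _ (pe3_rot hR rfl rfl) (by rw [length_rv]; exact hM) u
      (List.mem_reverse.2 hu) huX (by rw [List.getLast?_reverse]; exact hcon) v
      (List.mem_reverse.2 hv) hvY
    rwa [List.head?_reverse] at h1

private theorem pe3_ends {P : List V} (hn : P.Nodup) (h2 : 2 ≤ P.length) {u : V}
    (h : P.head? = some u) (h' : P.getLast? = some u) : False := by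
  cases P with
  | nil => simp at h2
  | cons a P =>
    cases P with
    | nil => simp at h2
    | cons b P =>
      simp only [List.head?_cons, Option.some.injEq] at h
      subst h
      rw [List.getLast?_cons_cons] at h'
      exact (List.nodup_cons.1 hn).1 (List.mem_of_getLast? h')

/-- if the slot `La` is empty, the sum is at most the number of slots `Pa` -/
private theorem pe3_sumPa {X : Set V} {l : List (List V)} (hn : ∀ P ∈ l, P.Nodup)
    (h2 : ∀ P ∈ l, 2 ≤ P.length) (hLa : ∀ P ∈ l, ¬ La X P) :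
    (l.map (fx X)).sum ≤ (l.filter (fun P => Pa X P)).length := by
  induction l with
  | nil => simp
  | cons e l ih =>
    have h3 := ih (fun Q hQ => hn Q (List.mem_cons_of_mem _ hQ))
      (fun Q hQ => h2 Q (List.mem_cons_of_mem _ hQ)) (fun Q hQ => hLa Q (List.mem_cons_of_mem _ hQ))
    have h4 := fx_slot (X := X) (hn e (by simp)) (h2 e (by simp))
    rw [if_neg (hLa e (by simp))] at h4
    by_cases hp : Pa X e
    · simp only [List.filter_cons, hp, decide_true, if_true, List.length_cons, List.map_cons,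
        List.sum_cons] at h4 ⊢
      omega
    · simp only [List.filter_cons, hp, decide_false, if_false, List.map_cons,
        List.sum_cons, Bool.false_eq_true] at h4 ⊢
      omega

private theorem pe3_sumLa {X : Set V} {l : List (List V)} (hn : ∀ P ∈ l, P.Nodup)
    (h2 : ∀ P ∈ l, 2 ≤ P.length) (hPa : ∀ P ∈ l, ¬ Pa X P) :
    (l.map (fx X)).sum ≤ (l.filter (fun P => La X P)).length := by
  induction l with
  | nil => simp
  | cons e l ih =>
    have h3 := ih (fun Q hQ => hn Q (List.mem_cons_of_mem _ hQ))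
      (fun Q hQ => h2 Q (List.mem_cons_of_mem _ hQ)) (fun Q hQ => hPa Q (List.mem_cons_of_mem _ hQ))
    have h4 := fx_slot (X := X) (hn e (by simp)) (h2 e (by simp))
    rw [if_neg (hPa e (by simp))] at h4
    by_cases hp : La X e
    · simp only [List.filter_cons, hp, decide_true, if_true, List.length_cons, List.map_cons,
        List.sum_cons] at h4 ⊢
      omega
    · simp only [List.filter_cons, hp, decide_false, if_false, List.map_cons,
        List.sum_cons, Bool.false_eq_true] at h4 ⊢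
      omega

private theorem pe3_pos {α : Type w} {p : α → Prop} {l : List α} (h : ∃ P ∈ l, p P) :
    1 ≤ (l.filter (fun P => p P)).length := by
  obtain ⟨P, hP, hp⟩ := h
  have h1 : P ∈ l.filter (fun P => p P) := by
    rw [List.mem_filter]
    exact ⟨hP, by simpa using hp⟩
  exact List.length_pos_of_mem h1

private theorem pe3_none {α : Type w} {p q : α → Prop} {l : List α} (h : ∀ P ∈ l, p P → ¬ q P) :
    (l.filter (fun P => p P ∧ q P)).length = 0 := by
  rw [List.length_eq_zero_iff, List.filter_eq_nil_iff]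
  intro P hP h1
  have h2 : p P ∧ q P := by simpa using h1
  exact h P hP h2.1 h2.2

private theorem pe3_YX {c : ℕ} {X Y : Set V} (h : SL Ps c X Y) (h3 : ∃ P ∈ Ps, La Y P)
    (h2 : ∃ P ∈ Ps, Pa X P) :
    (Ps.filter (fun P => La Y P)).length + (Ps.filter (fun P => Pa X P)).length + c ≤
      Ps.length + 1 + (Ps.filter (fun P => La Y P ∧ Pa X P)).length :=
  slot_sum (La Y) (Pa X) h.hc (by
    intro P M P' N hR hp hq
    by_contra hcon
    obtain ⟨u, hu, huX, hul⟩ := hp
    obtain ⟨v, hv, hvY, hvh⟩ := hq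
    exact hvh (h.k2' P M P' N hR (by omega) u hu huX hul v hv hvY)) h3 h2

private theorem pe3_XY {c : ℕ} {X Y : Set V} (h : SL Ps c X Y) (h3 : ∃ P ∈ Ps, La X P)
    (h2 : ∃ P ∈ Ps, Pa Y P) :
    (Ps.filter (fun P => La X P)).length + (Ps.filter (fun P => Pa Y P)).length + c ≤
      Ps.length + 1 + (Ps.filter (fun P => La X P ∧ Pa Y P)).length :=
  slot_sum (La X) (Pa Y) h.hc (by
    intro P M P' N hR hp hq
    by_contra hcon
    obtain ⟨u, hu, huX, hul⟩ := hp
    obtain ⟨v, hv, hvY, hvh⟩ := hq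
    exact hvh (h.k2 P M P' N hR (by omega) u hu huX hul v hv hvY)) h3 h2

/-- `X` meets every segment only in its last vertex: then so many vertices of `Y0` -/
theorem slot_N1 {c : ℕ} {X Y Y0 : Set V} (h : SL Ps c X Y) (hY : Y0 ⊆ Y)
    (h0 : ∃ P ∈ Ps, ∃ u ∈ P, u ∈ Y0) (fX : Ps.length + 1 ≤ c + (Ps.map (fx X)).sum)
    (hX : ∀ P ∈ Ps, ∀ v ∈ P, v ∈ X → P.getLast? = some v)
    (hM : ∀ P ∈ Ps, ∀ u ∈ P, u ∈ Y0 → P.head? = some u) : False := by
  have hn : ∀ P ∈ Ps, P.Nodup := fun P hP => flat_nodup h.nd hP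
  have hLaX : ∀ P ∈ Ps, ¬ La X P := by
    rintro P hP ⟨u, hu, huX, hul⟩
    exact hul (hX P hP u hu huX)
  have s1 := pe3_sumPa hn h.two hLaX
  have hc := h.hc
  have hPaX : ∃ P ∈ Ps, Pa X P := by
    have h1 : 0 < (Ps.filter (fun P => Pa X P)).length := by omega
    obtain ⟨P, hP⟩ := List.exists_mem_of_length_pos h1
    rw [List.mem_filter] at hP
    exact ⟨P, hP.1, by simpa using hP.2⟩
  have hLaY : ∃ P ∈ Ps, La Y P := by
    obtain ⟨P, hP, u, hu, huY⟩ := h0
    exact ⟨P, hP, u, hu, hY huY, fun h' => pe3_ends (hn P hP) (h.two P hP) (hM P hP u hu huY) h'⟩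
  have e1 := pe3_YX h hLaY hPaX
  have e2 : (Ps.filter (fun P => La Y P ∧ Pa X P)).length = 0 := by
    refine pe3_none ?_
    rintro P hP ⟨v, hv, hvY, hvl⟩ ⟨u, hu, huX, -⟩
    have huv := h.k1 P hP u hu v hv huX hvY
    subst huv
    exact hvl (hX P hP u hu huX)
  have e3 := pe3_pos hLaY
  omega

/-- the slot theorem -/
theorem slot {c : ℕ} {X Y Y0 : Set V} (h : SL Ps c X Y) (hY : Y0 ⊆ Y)
    (h0 : ∃ P ∈ Ps, ∃ u ∈ P, u ∈ Y0) (fX : Ps.length + 1 ≤ c + (Ps.map (fx X)).sum)
    (fY : Ps.length + 1 ≤ c + (Ps.map (fx Y)).sum)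
    (Ma : (∀ P ∈ Ps, ∀ v ∈ P, v ∈ X → P.getLast? = some v) →
      ∀ P ∈ Ps, ∀ u ∈ P, u ∈ Y0 → P.head? = some u)
    (Mb : (∀ P ∈ Ps, ∀ v ∈ P, v ∈ X → P.head? = some v) →
      ∀ P ∈ Ps, ∀ u ∈ P, u ∈ Y0 → P.getLast? = some u) :
    (Ps.map (fx X)).sum + (Ps.map (fx Y)).sum + 2 * c ≤ 2 * (Ps.length + 1) := by
  have hn : ∀ P ∈ Ps, P.Nodup := fun P hP => flat_nodup h.nd hP
  have hc := h.hc
  by_cases h1 : ∃ P ∈ Ps, La X P
  swap
  · exfalso
    push Not at h1
    have hX : ∀ P ∈ Ps, ∀ v ∈ P, v ∈ X → P.getLast? = some v := by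
      intro P hP v hv hvX
      by_contra hcon
      exact h1 P hP ⟨v, hv, hvX, hcon⟩
    exact slot_N1 h hY h0 fX hX (Ma hX)
  by_cases h2 : ∃ P ∈ Ps, Pa X P
  swap
  · exfalso
    push Not at h2
    have hX : ∀ P ∈ Ps, ∀ v ∈ P, v ∈ X → P.head? = some v := by
      intro P hP v hv hvX
      by_contra hcon
      exact h2 P hP ⟨v, hv, hvX, hcon⟩
    have hM := Mb hX
    refine slot_N1 h.rev hY ?_ ?_ ?_ ?_
    · obtain ⟨P, hP, u, hu, huY⟩ := h0
      exact ⟨P.reverse, mem_rv.2 (by rw [List.reverse_reverse]; exact hP), u,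
        List.mem_reverse.2 hu, huY⟩
    · rw [length_rv, fx_rv]
      exact fX
    · intro P hP v hv hvX
      have := hX P.reverse (mem_rv.1 hP) v (List.mem_reverse.2 hv) hvX
      rwa [List.head?_reverse] at this
    · intro P hP v hv hvX
      have := hM P.reverse (mem_rv.1 hP) v (List.mem_reverse.2 hv) hvX
      rwa [List.getLast?_reverse] at this
  by_cases h4 : ∃ P ∈ Ps, Pa Y P
  swap
  · exfalso
    push Not at h4
    have hYh : ∀ P ∈ Ps, ∀ v ∈ P, v ∈ Y → P.head? = some v := by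
      intro P hP v hv hvX
      by_contra hcon
      exact h4 P hP ⟨v, hv, hvX, hcon⟩
    have hLaY : ∃ P ∈ Ps, La Y P := by
      obtain ⟨P, hP, u, hu, huY⟩ := h0
      exact ⟨P, hP, u, hu, hY huY, fun h' =>
        pe3_ends (hn P hP) (h.two P hP) (hYh P hP u hu (hY huY)) h'⟩
    have s1 := pe3_sumLa hn h.two h4
    have e1 := pe3_YX h hLaY h2
    have e2 : (Ps.filter (fun P => La Y P ∧ Pa X P)).length = 0 := by
      refine pe3_none ?_
      rintro P hP ⟨v, hv, hvY, -⟩ ⟨u, hu, huX, huh⟩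
      have huv := h.k1 P hP u hu v hv huX hvY
      subst huv
      exact huh (hYh P hP u hu hvY)
    have e3 := pe3_pos h2
    omega
  by_cases h3 : ∃ P ∈ Ps, La Y P
  swap
  · exfalso
    push Not at h3
    have hYl : ∀ P ∈ Ps, ∀ v ∈ P, v ∈ Y → P.getLast? = some v := by
      intro P hP v hv hvX
      by_contra hcon
      exact h3 P hP ⟨v, hv, hvX, hcon⟩
    have s1 := pe3_sumPa hn h.two h3
    have e1 := pe3_XY h h1 h4
    have e2 : (Ps.filter (fun P => La X P ∧ Pa Y P)).length = 0 := by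
      refine pe3_none ?_
      rintro P hP ⟨u, hu, huX, hul⟩ ⟨v, hv, hvY, -⟩
      have huv := h.k1 P hP u hu v hv huX hvY
      subst huv
      exact hul (hYl P hP u hu hvY)
    have e3 := pe3_pos h1
    omega
  exact slot_gen h h1 h2 h3 h4

end Pool.Agent.LW
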