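import Pool.Agent.LW.PE0
import Pool.Agent.LW.PC2
import Pool.Agent.LW.PC3

set_option autoImplicit false

/-!
# Facts from the induction hypothesis
-/

namespace Pool.Agent.LW

open SimpleGraph Classical

universe w

variable {V : Type w} {G H : SimpleGraph V} {L : Finset (Sym2 V)} {k : ℕ}
  {x y : V} {Ps Qs Ex Ey : List (List V)}

/-- the levels of `x` and of `y` -/
def LvX (G : SimpleGraph V) (x y : V) (Ps Qs Ex : List (List V)) (t : ℕ) : Set V :=
  Lg G (OL Ps x y Qs) (Ps ++ Ex) x t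

def LvY (G : SimpleGraph V) (x y : V) (Ps Qs Ey : List (List V)) (t : ℕ) : Set V :=
  Lg G (OL Ps x y Qs) (Ps ++ Ey) y t

private theorem pe4_bf_single {z u v : V} (h : Bf [z] u v) : False := by
  have h1 := h.length_le
  simp at h1

private theorem pe4_inf_single {z u v : V} (h : [u, v] <:+: [z]) : False := by
  have h1 := h.length_le
  simp at h1

/-- a host path of `y` carrying something inside is a host path of `x`, on `Ps` or on `Qs` -/
private theorem pe4_hostY (D : HD G x y Ps Qs Ex Ey) {P : List V} (hP : P ∈ Ps ++ Ey)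
    (h1 : P ≠ [x]) : P ∈ Ps ++ Ex ∧ (P ∈ Ps ∨ P ∈ Qs) := by
  rcases List.mem_append.1 hP with h | h
  · exact ⟨List.mem_append_left _ h, Or.inl h⟩
  · rcases D.ey P h with h2 | h2
    · exact ⟨List.mem_append_right _ ((D.xy P h2).2 h), Or.inr h2⟩
    · exact absurd h2 h1

private theorem pe4_hostX (D : HD G x y Ps Qs Ex Ey) {P : List V} (hP : P ∈ Ps ++ Ex)
    (h1 : P ≠ [y]) : P ∈ Ps ++ Ey ∧ (P ∈ Ps ∨ P ∈ Qs) := by
  rcases List.mem_append.1 hP with h | h
  · exact ⟨List.mem_append_left _ h, Or.inl h⟩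
  · rcases D.ex P h with h2 | h2
    · exact ⟨List.mem_append_right _ ((D.xy P h2).1 h), Or.inr h2⟩
    · exact absurd h2 h1

/-- a vertex inside a hull of `y` which would be in a level of `x` -/
private theorem pe4_inY (D : HD G x y Ps Qs Ex Ey) {c n τ τ' : ℕ}
    (h : KH Ps Qs c n (LvX G x y Ps Qs Ex) (LvY G x y Ps Qs Ey)) (hn : τ + τ' < n) {l : V}
    (hl : Btw (Ps ++ Ey) Set.univ (LvY G x y Ps Qs Ey τ') l)
    (hx : l ∈ (Ps ++ Ex).flatten → l ∈ LvX G x y Ps Qs Ex τ) : False := by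
  obtain ⟨_, P, hP, s, hs, s', hs', h1, h2⟩ := hl
  obtain ⟨hP', hP2⟩ := pe4_hostY D hP (by
    rintro rfl
    exact pe4_bf_single h1)
  have hlx := hx (hc1_mem hP' h1.memR)
  rcases hP2 with hP2 | hP2
  · have h3 := h.k1 τ τ' hn P hP2 l h1.memR s h1.memL hlx hs
    exact h1.ne (hc1_nodup D.ny hP) h3.symm
  · exact h.k3 τ τ' hn P hP2 l hlx s hs h1

private theorem pe4_inX (D : HD G x y Ps Qs Ex Ey) {c n τ τ' : ℕ}
    (h : KH Ps Qs c n (LvX G x y Ps Qs Ex) (LvY G x y Ps Qs Ey)) (hn : τ + τ' < n) {l : V}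
    (hl : Btw (Ps ++ Ex) Set.univ (LvX G x y Ps Qs Ex τ) l)
    (hy : l ∈ (Ps ++ Ey).flatten → l ∈ LvY G x y Ps Qs Ey τ') : False := by
  obtain ⟨_, P, hP, s, hs, s', hs', h1, h2⟩ := hl
  obtain ⟨hP', hP2⟩ := pe4_hostX D hP (by
    rintro rfl
    exact pe4_bf_single h1)
  have hly := hy (hc1_mem hP' h1.memR)
  rcases hP2 with hP2 | hP2
  · have h3 := h.k1 τ τ' hn P hP2 s h1.memL l h1.memR hs hly
    exact h1.ne (hc1_nodup D.nx hP) h3
  · exact h.k3 τ τ' hn P hP2 s' hs' l hly h2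

/-- no component is attached to both closures of small level -/
theorem kh_cross (D : HD G x y Ps Qs Ex Ey) {c t t' : ℕ}
    (h : KH Ps Qs c (t + t') (LvX G x y Ps Qs Ex) (LvY G x y Ps Qs Ey)) :
    ∀ o ∈ OL Ps x y Qs, AH G (OL Ps x y Qs) (Ps ++ Ex) x t o → o ∈ OL Ps x y Qs →
      ¬ AH G (OL Ps x y Qs) (Ps ++ Ey) y t' o := by
  intro o _ hX _ hY
  rcases hX with hX | ⟨τ, hτ, l, hl, hX⟩
  · rcases hY with hY | ⟨τ', hτ', l', hl', hY⟩
    · exact D.kap o hX hY
    · refine pe4_inY D h (τ := 0) (τ' := τ') (by omega) hl' ?_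
      intro hh
      exact ⟨hh, Con.of_att hX hY⟩
  · rcases hY with hY | ⟨τ', hτ', l', hl', hY⟩
    · refine pe4_inX D h (τ := τ) (τ' := 0) (by omega) hl ?_
      intro hh
      exact ⟨hh, Con.of_att hY hX⟩
    · refine pe4_inY D h (τ := τ + 1) (τ' := τ') (by omega) hl' ?_
      intro hh
      exact Or.inr ⟨hh, l, hl, Con.of_att hX hY⟩

private theorem pe4_head {M : List V} {s a b : V} (h : M.head? = some s) (hab : [a, b] <:+: M) :
    s = a ∨ Bf M s a := by
  obtain ⟨A, D, rfl⟩ := hab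
  cases A with
  | nil =>
    left
    simpa using h.symm
  | cons c A =>
    right
    have hc : c = s := by simpa using h
    subst hc
    have h1 := Bf.intro (A := ([] : List V)) (M := A) (D := b :: D) (a := c) (b := a)
    simpa using h1

private theorem pe4_last {M : List V} {s a b : V} (h : M.getLast? = some s)
    (hab : [a, b] <:+: M) : Bf M a s := by
  obtain ⟨A, D, rfl⟩ := hab
  rcases List.eq_nil_or_concat D with rfl | ⟨D', e, rfl⟩
  · have hs : b = s := by simpa using h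
    subst hs
    have h1 := Bf.intro (A := A) (M := ([] : List V)) (D := []) (a := a) (b := b)
    simpa using h1
  · rw [List.concat_eq_append, ← List.append_assoc, List.getLast?_concat] at h
    have hs : e = s := by simpa using h
    subst hs
    have h1 := Bf.intro (A := A) (M := b :: D') (D := []) (a := a) (b := e)
    simpa using h1

private theorem pe4_pair {P : List V} {a b : V} (h : [a, b] <:+: P) : Bf P a b := h.sublist

/-- the same pair in a hull of `x` and in a hull of `y` -/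
private theorem pe4_edge (D : HD G x y Ps Qs Ex Ey) {c n τ τ' : ℕ}
    (h : KH Ps Qs c n (LvX G x y Ps Qs Ex) (LvY G x y Ps Qs Ey)) (hn : τ + τ' < n) {a b a' b' : V}
    (hX : HE (Ps ++ Ex) (LvX G x y Ps Qs Ex τ) a b)
    (hY : HE (Ps ++ Ey) (LvY G x y Ps Qs Ey τ') a' b')
    (he : (a = a' ∧ b = b') ∨ (a = b' ∧ b = a')) : False := by
  obtain ⟨P0, hP0, _, u, hu, u', hu', huP0, huP0', hne⟩ := hX.two D.nx
  obtain ⟨P, hP, s, hs, s', hs', A, M, E, h1, h2, h3, h4⟩ := hX
  obtain ⟨P', hP', r, hr, r', hr', A', M', E', h1', h2', h3', h4'⟩ := hY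
  have hMP : M <:+: P := ⟨A, E, by rw [h1, List.append_assoc]⟩
  have hMP' : M' <:+: P' := ⟨A', E', by rw [h1', List.append_assoc]⟩
  have hab : [a, b] <:+: P := h4.trans hMP
  have hab' : [a', b'] <:+: P' := h4'.trans hMP'
  have haP : a ∈ P := hab.subset (by simp)
  have haP' : a ∈ P' := by
    rcases he with ⟨he, _⟩ | ⟨he, _⟩
    · rw [he]; exact hab'.subset (by simp)
    · rw [he]; exact hab'.subset (by simp)
  obtain ⟨hPX, _⟩ := pe4_hostY D hP' (by
    rintro rfl
    exact pe4_inf_single hab')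
  obtain ⟨_, hP2⟩ := pe4_hostX D hP (by
    rintro rfl
    exact pe4_inf_single hab)
  have hPP : P = P' := hc1_seg D.nx hP hPX haP haP'
  subst hPP
  have hPn : P.Nodup := hc1_nodup D.nx hP
  have he' : a = a' ∧ b = b' := by
    rcases he with he | ⟨he1, he2⟩
    · exact he
    · exfalso
      rw [← he1, ← he2] at hab'
      exact (pe4_pair hab).asymm hPn (pe4_pair hab')
  obtain ⟨rfl, rfl⟩ := he'
  rcases hP2 with hP2 | hP2
  · -- on the cycle
    have hrP : r ∈ P := hMP'.subset (List.mem_of_head? h2')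
    have hsP : s ∈ P := hMP.subset (List.mem_of_head? h2)
    have hsP' : s' ∈ P := hMP.subset (List.mem_of_getLast? h3)
    have e1 := h.k1 τ τ' hn P hP2 s hsP r hrP hs hr
    have e2 := h.k1 τ τ' hn P hP2 s' hsP' r hrP hs' hr
    have hss : s = s' := e1.trans e2.symm
    have hMn : M.Nodup := hPn.sublist hMP.sublist
    have b1 : Bf M a s' := pe4_last h3 h4
    rcases pe4_head h2 h4 with b2 | b2
    · rw [← hss, b2] at b1
      exact b1.ne hMn rfl
    · rw [← hss] at b1
      exact b2.asymm hMn b1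
  · -- on the path
    have b1 : Bf P a s' := (pe4_last h3 h4).mono hMP.sublist
    have b2 : Bf P r s' := by
      rcases pe4_head h2' h4' with b2 | b2
      · rw [b2]; exact b1
      · exact (b2.mono hMP'.sublist).trans b1 hPn
    exact h.k3 τ τ' hn P hP2 s' hs' r hr b2

/-- no pair is an edge of hulls of `x` and of `y` of small level -/
theorem kh_edge (D : HD G x y Ps Qs Ex Ey) {c t t' : ℕ}
    (h : KH Ps Qs c (t + t') (LvX G x y Ps Qs Ex) (LvY G x y Ps Qs Ey)) :
    ∀ a b, ¬ NH G (OL Ps x y Qs) (Ps ++ Ex) x t a b →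
      NH G (OL Ps x y Qs) (Ps ++ Ey) y t' a b := by
  intro a b hX τ' hτ'
  unfold NH at hX
  push Not at hX
  obtain ⟨τ, hτ, hX⟩ := hX
  have hX' : HE (Ps ++ Ex) (LvX G x y Ps Qs Ex τ) a b ∨
      HE (Ps ++ Ex) (LvX G x y Ps Qs Ex τ) b a := by
    by_cases h1 : HE (Ps ++ Ex) (LvX G x y Ps Qs Ex τ) a b
    · exact Or.inl h1
    · exact Or.inr (hX h1)
  rcases hX' with hX' | hX'
  · exact ⟨fun hY => pe4_edge D h (by omega) hX' hY (Or.inl ⟨rfl, rfl⟩),
      fun hY => pe4_edge D h (by omega) hX' hY (Or.inr ⟨rfl, rfl⟩)⟩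
  · exact ⟨fun hY => pe4_edge D h (by omega) hX' hY (Or.inr ⟨rfl, rfl⟩),
      fun hY => pe4_edge D h (by omega) hX' hY (Or.inl ⟨rfl, rfl⟩)⟩

end Pool.Agent.LW
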