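import Pool.Agent.LW.PE4

set_option autoImplicit false

/-!
# (K1)
-/

namespace Pool.Agent.LW

open SimpleGraph Classical

universe w

variable {V : Type w} {G H : SimpleGraph V} {L : Finset (Sym2 V)} {k : ℕ}
  {x y : V} {Ps Qs Ex Ey : List (List V)}

/-- the walk around `Z` from `v` forward to `u`, where `u` is on the first segment and `v` on the last
one (or on the same) -/
def Arc (A : List V) (u : V) (N : List (List V)) (v : V) (D : List V) : List V :=
  (v :: D) ++ (N.flatten ++ (A ++ [u]))

private theorem pe5_app {F X Y : List V} {a b : V} (h : [a, b] <:+: F) :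
    [a, b] <:+: X ++ (F ++ Y) := by
  obtain ⟨s, t, hst⟩ := h
  exact ⟨X ++ s, t ++ Y, by rw [← hst]; simp⟩

private theorem pe5_junc {P0 P1 Q0 Q1 A B : List V} {N : List (List V)} {c d : V}
    (h0 : Q0.getLast? = P0.getLast?) (h1 : Q1.head? = P1.head?)
    (h : [A, B] <:+: P0 :: (N ++ [P1])) (hc : A.getLast? = some c) (hd : B.head? = some d) :
    [c, d] <:+: Q0 ++ (N.flatten ++ Q1) := by
  have key : ∀ {X Y : List V}, X.getLast? = some c → Y.head? = some d → [c, d] <:+: X ++ Y := by
    intro X Y hX hY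
    rcases List.eq_nil_or_concat X with h2 | ⟨X', p, h2⟩
    · rw [h2] at hX; simp at hX
    · cases Y with
      | nil => simp at hY
      | cons q Y =>
        rw [h2] at hX
        simp only [List.concat_eq_append, List.getLast?_append, List.getLast?_singleton,
          Option.some_or, Option.some.injEq] at hX
        simp only [List.head?_cons, Option.some.injEq] at hY
        exact ⟨X', Y, by rw [h2, hX, hY]; simp⟩
  induction N generalizing P0 Q0 with
  | nil =>
    obtain ⟨s, t, hst⟩ := h
    have hl := congrArg List.length hst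
    simp only [List.length_append, List.length_cons, List.length_nil] at hl
    have hs : s = [] := List.length_eq_zero_iff.1 (by omega)
    have ht : t = [] := List.length_eq_zero_iff.1 (by omega)
    subst hs; subst ht
    simp only [List.nil_append, List.append_nil, List.cons.injEq, and_true] at hst
    obtain ⟨e1, e2⟩ := hst
    subst e1; subst e2
    simpa using key (h0.trans hc) (h1.trans hd)
  | cons R N ih =>
    obtain ⟨s, t, hst⟩ := h
    cases s with
    | nil =>
      simp only [List.nil_append, List.cons_append, List.cons.injEq] at hst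
      obtain ⟨e1, e2, -⟩ := hst
      subst e1; subst e2
      have h2 := key (h0.trans hc) hd
      have h3 := pe5_app (X := []) (Y := N.flatten ++ Q1) h2
      simpa using h3
    | cons S s =>
      simp only [List.cons_append, List.cons.injEq] at hst
      have h2 : [A, B] <:+: R :: (N ++ [P1]) := ⟨s, t, by simpa using hst.2⟩
      have h3 := pe5_app (X := Q0) (Y := []) (ih (Q0 := R) rfl h2)
      simpa using h3

/-- (K1), induction step, `u` before `v` -/
theorem kh_k1 [Fintype V] (S : Bs G L k) (C : LC G L x y Ps Qs) (D : HD G x y Ps Qs Ex Ey)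
    {c t t' : ℕ} (h : KH Ps Qs c (t + t') (LvX G x y Ps Qs Ex) (LvY G x y Ps Qs Ey))
    {P : List V} (hP : P ∈ Ps) {u v : V} (huv : Bf P u v)
    (hu : u ∈ LvX G x y Ps Qs Ex t) (hv : v ∈ LvY G x y Ps Qs Ey t') : False := by
  -- rotate `Z`
  obtain ⟨Pr, Po, hPs⟩ := List.append_of_mem hP
  have hrot : Rot Ps (P :: (Po ++ Pr)) := ⟨Pr, P :: Po, hPs, by simp⟩
  have C' := C.rotR hrot
  generalize Po ++ Pr = N at hrot C'
  obtain ⟨A, M, E, hPe⟩ := huv.split
  have hPn : P.Nodup := flat_nodup (List.nodup_append'.1 C.nd).1 hP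
  have huvn : u ≠ v := huv.ne hPn
  have hnd := C'.nd
  have hvP : v ∈ P := huv.memR
  have huP : u ∈ P := huv.memL
  have hyP : y ∉ Ps.flatten := by
    intro hy
    exact (List.nodup_append'.1 C.nd).2.2 hy (mem_RL.2 (Or.inr (Or.inr rfl)))
  have hPm : ∀ w ∈ P, w ∈ Ps.flatten := fun w hw => List.mem_flatten.2 ⟨P, hP, hw⟩
  have hvR : v ∉ RL x y Qs := fun hv' => (List.nodup_append'.1 C.nd).2.2 (hPm v hvP) hv'
  have hvy : v ≠ y := fun e => hyP (e ▸ hPm v hvP)
  -- the walk
  have hArc : Ch G v u (Arc A u N v E) := by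
    have hjn : (P :: (N ++ [P])).IsChain (JL L) := C'.jn
    have hP1 : (v :: E).getLast? = P.getLast? := by
      rw [hPe, show A ++ u :: (M ++ v :: E) = (A ++ u :: M) ++ v :: E by simp,
        List.getLast?_append_of_ne_nil _ (by simp)]
    have hP2 : (A ++ [u]).head? = P.head? := by
      rw [hPe]
      cases A with
      | nil => simp
      | cons p A => simp
    have h3 := chain_congr hjn hP1 hP2
    have hPc : P.IsChain G.Adj := C.ch P hP
    have h4 := flat_ch (G := G) S.sub h3 (a := v) (b := u) ?_ ?_ ?_ ?_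
    · simpa [Arc] using h4
    · intro Q hQ
      rcases List.mem_cons.1 hQ with hQ | hQ
      · rw [hQ]
        refine chain_of_inf hPc ⟨A ++ u :: M, [], ?_⟩
        rw [hPe]; simp
      · rcases List.mem_append.1 hQ with hQ | hQ
        · exact C'.ch Q (List.mem_cons_of_mem _ hQ)
        · rw [List.mem_singleton.1 hQ]
          refine chain_of_inf hPc ⟨[], M ++ v :: E, ?_⟩
          rw [hPe]; simp
    · intro Q hQ
      rcases List.mem_cons.1 hQ with hQ | hQ
      · rw [hQ]; simp
      · rcases List.mem_append.1 hQ with hQ | hQ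
        · intro h5
          have := C'.twoP Q (List.mem_cons_of_mem _ hQ)
          rw [h5] at this; simp at this
        · rw [List.mem_singleton.1 hQ]; simp
    · simp
    · rw [show ((v :: E) :: (N ++ [A ++ [u]])).flatten =
          ((v :: E) ++ (N.flatten ++ A)) ++ [u] by simp,
        List.getLast?_append_of_ne_nil _ (by simp)]
      rfl
  have hRL : Ch G x y (RL x y Qs) := lk_ch S.sub C.lk
  set F := (Arc A u N v E).reverse ++ (RL x y Qs).reverse with hFdef
  have hle : G ≤ G ⊔ SimpleGraph.edge v y := le_sup_left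
  have hadj : (G ⊔ SimpleGraph.edge v y).Adj v y := by
    rw [SimpleGraph.sup_adj]
    right
    rw [SimpleGraph.edge_adj]
    exact ⟨Or.inl ⟨rfl, rfl⟩, hvy⟩
  have hF : Ch (G ⊔ SimpleGraph.edge v y) u x F :=
    (hArc.reverse.mono hle).append (hRL.reverse.mono hle) hadj
  -- membership
  have hArcm : ∀ w ∈ Arc A u N v E, w ∈ Ps.flatten := by
    intro w hw
    have h3 : w ∈ (P :: N).flatten → w ∈ Ps.flatten := by
      intro h4
      obtain ⟨Q, hQ, hwQ⟩ := List.mem_flatten.1 h4
      exact List.mem_flatten.2 ⟨Q, hrot.mem.2 hQ, hwQ⟩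
    apply h3
    rw [hPe]
    simp only [Arc, List.mem_append, List.mem_cons, List.flatten_cons, List.not_mem_nil,
      or_false] at hw ⊢
    tauto
  have hFm : ∀ w ∈ F, w ∈ Ps.flatten ∨ w ∈ RL x y Qs := by
    intro w hw
    rw [hFdef, List.mem_append, List.mem_reverse, List.mem_reverse] at hw
    exact hw.imp (hArcm w) id
  have hFn : F.Nodup := by
    refine nodup_of_count hnd ?_
    intro w
    rw [hFdef, hPe]
    simp only [Arc, List.count_append, List.count_reverse, List.flatten_cons, List.count_cons,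
      List.count_nil]
    omega
  have hFvy : EL F v y := by
    have e : F = ((Arc A u N v E).tail.reverse) ++ v :: y :: (RL x y Qs).reverse.tail := by
      rw [hFdef]
      simp [Arc, RL]
    rw [e]
    exact EL.intro
  -- pairs on `F`
  have hFN : ∀ Q ∈ Ps, Q ≠ P → ∀ a b, [a, b] <:+: Q → EL F a b := by
    intro Q hQ hne a b hab
    have hQN : Q ∈ N := by
      rcases List.mem_cons.1 (hrot.mem.1 hQ) with h3 | h3
      · exact absurd h3 hne
      · exact h3
    obtain ⟨N1, N2, hN⟩ := List.append_of_mem hQN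
    have h3 : [a, b] <:+: Arc A u N v E := by
      have h4 := pe5_app (X := (v :: E) ++ N1.flatten)
        (Y := N2.flatten ++ (A ++ [u])) hab
      rw [Arc, hN]
      simpa using h4
    have h5 : EL (Arc A u N v E) a b := Or.inl h3
    refine h5.reverse.mono ⟨[], (RL x y Qs).reverse, ?_⟩
    rw [hFdef]; simp
  have hFR : ∀ a b, EL (RL x y Qs) a b → EL F a b := by
    intro a b hab
    refine hab.reverse.mono ⟨(Arc A u N v E).reverse, [], ?_⟩
    rw [hFdef]; simp
  have hFQ : ∀ Q ∈ Qs, ∀ a b, [a, b] <:+: Q → EL F a b := by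
    intro Q hQ a b hab
    obtain ⟨Q1, Q2, hQe⟩ := List.append_of_mem hQ
    apply hFR
    left
    have h4 := pe5_app (X := x :: Q1.flatten) (Y := Q2.flatten ++ [y]) hab
    rw [RL, hQe]
    simpa using h4
  -- no hulls on `P`
  have hnx : ∀ τ < t, ∀ a b, HE (Ps ++ Ex) (Lg G (OL Ps x y Qs) (Ps ++ Ex) x τ) a b →
      ∃ Q ∈ Ps ++ Ex, Q ≠ P ∧ [a, b] <:+: Q := by
    intro τ hτ a b hab
    obtain ⟨Q, hQ, s, hs, s', hs', X, M', Y, e1, e2, e3, e4⟩ := hab
    refine ⟨Q, hQ, ?_, ?_⟩
    · rintro rfl
      have hsM : s ∈ M' := List.mem_of_head? e2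
      have hsM' : s' ∈ M' := List.mem_of_getLast? e3
      have hsQ : s ∈ Q := by rw [e1]; simp [hsM]
      have hsQ' : s' ∈ Q := by rw [e1]; simp [hsM']
      have g1 := h.k1 τ t' (by omega) Q hP s hsQ v hvP hs hv
      have g2 := h.k1 τ t' (by omega) Q hP s' hsQ' v hvP hs' hv
      have hM'n : M'.Nodup := by
        rw [e1] at hPn
        exact (List.nodup_append'.1 (List.nodup_append'.1 hPn).2.1).1
      obtain ⟨U, W, hUW⟩ := e4
      cases M' with
      | nil => simp at e2
      | cons p M' =>
        simp only [List.head?_cons, Option.some.injEq] at e2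
        subst e2
        rcases List.eq_nil_or_concat M' with h5 | ⟨M'', q, h5⟩
        · rw [h5] at hUW
          have := congrArg List.length hUW
          simp only [List.length_append, List.length_cons, List.length_nil] at this
          omega
        · rw [h5] at e3 hM'n
          have e5 : (p :: M''.concat q).getLast? = some q := by
            rw [show p :: M''.concat q = (p :: M'') ++ [q] by simp,
              List.getLast?_append_of_ne_nil _ (by simp)]
            rfl
          rw [e5] at e3
          simp only [Option.some.injEq] at e3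
          rw [← e3] at g2
          have h6 : p = q := g1.trans g2.symm
          rw [h6] at hM'n
          simp at hM'n
    · rw [e1]
      exact pe5_app (X := X) (Y := Y) e4
  have hny : ∀ τ < t', ∀ a b, HE (Ps ++ Ey) (Lg G (OL Ps x y Qs) (Ps ++ Ey) y τ) a b →
      ∃ Q ∈ Ps ++ Ey, Q ≠ P ∧ [a, b] <:+: Q := by
    intro τ hτ a b hab
    obtain ⟨Q, hQ, s, hs, s', hs', X, M', Y, e1, e2, e3, e4⟩ := hab
    refine ⟨Q, hQ, ?_, ?_⟩
    · rintro rfl
      have hsM : s ∈ M' := List.mem_of_head? e2
      have hsM' : s' ∈ M' := List.mem_of_getLast? e3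
      have hsQ : s ∈ Q := by rw [e1]; simp [hsM]
      have hsQ' : s' ∈ Q := by rw [e1]; simp [hsM']
      have g1 := h.k1 t τ (by omega) Q hP u huP s hsQ hu hs
      have g2 := h.k1 t τ (by omega) Q hP u huP s' hsQ' hu hs'
      have hM'n : M'.Nodup := by
        rw [e1] at hPn
        exact (List.nodup_append'.1 (List.nodup_append'.1 hPn).2.1).1
      obtain ⟨U, W, hUW⟩ := e4
      cases M' with
      | nil => simp at e2
      | cons p M' =>
        simp only [List.head?_cons, Option.some.injEq] at e2
        subst e2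
        rcases List.eq_nil_or_concat M' with h5 | ⟨M'', q, h5⟩
        · rw [h5] at hUW
          have := congrArg List.length hUW
          simp only [List.length_append, List.length_cons, List.length_nil] at this
          omega
        · rw [h5] at e3 hM'n
          have e5 : (p :: M''.concat q).getLast? = some q := by
            rw [show p :: M''.concat q = (p :: M'') ++ [q] by simp,
              List.getLast?_append_of_ne_nil _ (by simp)]
            rfl
          rw [e5] at e3
          simp only [Option.some.injEq] at e3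
          rw [← e3] at g2
          have h6 : p = q := g1.symm.trans g2
          rw [h6] at hM'n
          simp at hM'n
    · rw [e1]
      exact pe5_app (X := X) (Y := Y) e4
  have hpair1 : ∀ {z a b : V}, ¬ [a, b] <:+: [z] := by
    intro z a b hh
    obtain ⟨U, W, hUW⟩ := hh
    have := congrArg List.length hUW
    simp only [List.length_append, List.length_cons, List.length_nil] at this
    omega
  have hhx : ∀ τ < t, ∀ a b, HE (Ps ++ Ex) (Lg G (OL Ps x y Qs) (Ps ++ Ex) x τ) a b →
      EL F a b := by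
    intro τ hτ a b hab
    obtain ⟨Q, hQ, hne, hin⟩ := hnx τ hτ a b hab
    rcases List.mem_append.1 hQ with hQ | hQ
    · exact hFN Q hQ hne a b hin
    · rcases D.ex Q hQ with hQ | hQ
      · exact hFQ Q hQ a b hin
      · rw [hQ] at hin; exact absurd hin hpair1
  have hhy : ∀ τ < t', ∀ a b, HE (Ps ++ Ey) (Lg G (OL Ps x y Qs) (Ps ++ Ey) y τ) a b →
      EL F a b := by
    intro τ hτ a b hab
    obtain ⟨Q, hQ, hne, hin⟩ := hny τ hτ a b hab
    rcases List.mem_append.1 hQ with hQ | hQ
    · exact hFN Q hQ hne a b hin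
    · rcases D.ey Q hQ with hQ | hQ
      · exact hFQ Q hQ a b hin
      · rw [hQ] at hin; exact absurd hin hpair1
  have hoff : ∀ w, w ∈ F ∨ w ∈ ([] : List V) → w ∉ OL Ps x y Qs := by
    intro w hw hO
    rcases hw with hw | hw
    · rcases hFm w hw with h3 | h3
      · exact hO.1 h3
      · exact hO.2 h3
    · simp at hw
  -- edges of `L`
  have hLHx : ∀ a b, s(a, b) ∈ L → ∀ τ, ¬ HE (Ps ++ Ex) (Lg G (OL Ps x y Qs) (Ps ++ Ex) x τ) a b := by
    intro a b hab τ hh
    obtain ⟨Q, hQ, s, -, s', -, X, M', Y, e1, -, -, e4⟩ := hh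
    have hin : EL Q a b := Or.inl (by rw [e1]; exact pe5_app (X := X) (Y := Y) e4)
    rcases List.mem_append.1 hQ with hQ | hQ
    · exact C.noP S.ind hQ hab hin
    · rcases D.ex Q hQ with hQ | hQ
      · exact C.noQ S.ind hQ hab hin
      · rw [hQ] at hin
        rcases hin with hin | hin
        · exact hpair1 hin
        · exact hpair1 hin
  have hLHy : ∀ a b, s(a, b) ∈ L → ∀ τ, ¬ HE (Ps ++ Ey) (Lg G (OL Ps x y Qs) (Ps ++ Ey) y τ) a b := by
    intro a b hab τ hh
    obtain ⟨Q, hQ, s, -, s', -, X, M', Y, e1, -, -, e4⟩ := hh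
    have hin : EL Q a b := Or.inl (by rw [e1]; exact pe5_app (X := X) (Y := Y) e4)
    rcases List.mem_append.1 hQ with hQ | hQ
    · exact C.noP S.ind hQ hab hin
    · rcases D.ey Q hQ with hQ | hQ
      · exact C.noQ S.ind hQ hab hin
      · rw [hQ] at hin
        rcases hin with hin | hin
        · exact hpair1 hin
        · exact hpair1 hin
  have hLx : ∀ a b, s(a, b) ∈ L → NH G (OL Ps x y Qs) (Ps ++ Ex) x t a b := by
    intro a b hab τ _
    exact ⟨hLHx a b hab τ, hLHx b a (by rw [Sym2.eq_swap]; exact hab) τ⟩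
  have hLy : ∀ a b, s(a, b) ∈ L → NH G (OL Ps x y Qs) (Ps ++ Ey) y t' a b := by
    intro a b hab τ _
    exact ⟨hLHy a b hab τ, hLHy b a (by rw [Sym2.eq_swap]; exact hab) τ⟩
  have hLF : ∀ a b, s(a, b) ∈ L → EL F a b := by
    intro a b hab
    rcases C'.cov S.ind hab with h3 | ⟨X, Y, hXY, hor⟩
    · exact hFR a b h3
    · have hXY' : [X, Y] <:+: P :: (N ++ [P]) := by simpa using hXY
      have hP1 : (v :: E).getLast? = P.getLast? := by
        rw [hPe, show A ++ u :: (M ++ v :: E) = (A ++ u :: M) ++ v :: E by simp,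
          List.getLast?_append_of_ne_nil _ (by simp)]
      have hP2 : (A ++ [u]).head? = P.head? := by
        rw [hPe]
        cases A with
        | nil => simp
        | cons p A => simp
      have h5 : EL (Arc A u N v E) a b := by
        rcases hor with ⟨g1, g2⟩ | ⟨g1, g2⟩
        · exact Or.inl (pe5_junc hP1 hP2 hXY' g1 g2)
        · exact Or.inr (pe5_junc hP1 hP2 hXY' g1 g2)
      refine h5.reverse.mono ⟨[], (RL x y Qs).reverse, ?_⟩
      rw [hFdef]; simp
  have hvyL : s(v, y) ∉ L := by
    intro hvL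
    rcases C.cov S.ind hvL with h3 | ⟨X, Y, hXY, hor⟩
    · exact hvR h3.memL
    · have hXm : X ∈ Ps := by
        have := hXY.subset (show X ∈ [X, Y] by simp)
        rcases List.mem_append.1 this with h4 | h4
        · exact h4
        · rw [Option.mem_toList] at h4
          exact List.mem_of_head? h4
      have hYm : Y ∈ Ps := by
        have := hXY.subset (show Y ∈ [X, Y] by simp)
        rcases List.mem_append.1 this with h4 | h4
        · exact h4
        · rw [Option.mem_toList] at h4
          exact List.mem_of_head? h4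
      rcases hor with ⟨g1, g2⟩ | ⟨g1, g2⟩
      · exact hyP (List.mem_flatten.2 ⟨Y, hYm, List.mem_of_head? g2⟩)
      · exact hyP (List.mem_flatten.2 ⟨X, hXm, List.mem_of_getLast? g1⟩)
  have hL2 : ∃ a b c d, s(a, b) ∈ L ∧ s(c, d) ∈ L ∧ s(a, b) ≠ s(c, d) := by
    have h3 : 1 < L.card := by have := S.k2; rw [S.card]; omega
    obtain ⟨e, he, f, hf, hef⟩ := Finset.one_lt_card.1 h3
    induction e using Sym2.inductionOn with
    | _ a b =>
      induction f using Sym2.inductionOn with
      | _ c d => exact ⟨a, b, c, d, he, hf, hef⟩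
  obtain ⟨hx1, hx2⟩ := HD.hx C D
  obtain ⟨hy1, hy2⟩ := HD.hy C D
  have hxO : x ∉ OL Ps x y Qs := fun hh => hh.2 (mem_RL.2 (Or.inl rfl))
  have hyO : y ∉ OL Ps x y Qs := fun hh => hh.2 (mem_RL.2 (Or.inr (Or.inr rfl)))
  obtain ⟨a, b, D', hCl, -, hE, -⟩ := hop2 (C := []) (c1 := x) (c2 := x) D.nx D.ny hx1 hxO hx2 hy1
    hyO hy2 hu hv hvy hF hFn hFvy (Or.inl rfl) (by simp)
    ⟨fun τ hτ a b hab => Or.inl (hhx τ hτ a b hab), fun w hw hO => absurd hO (hoff w hw)⟩
    ⟨fun τ hτ a b hab => Or.inl (hhy τ hτ a b hab), fun w hw hO => absurd hO (hoff w hw)⟩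
    (kh_cross D h) (kh_edge D h) (by
      intro τ _
      have key : ∀ Q ∈ Ps ++ Ex, y ∈ Q → Q = [y] := by
        intro Q hQ hyQ
        rcases List.mem_append.1 hQ with hQ | hQ
        · exact absurd (List.mem_flatten.2 ⟨Q, hQ, hyQ⟩) hyP
        · rcases D.ex Q hQ with hQ | hQ
          · exfalso
            have h3 := (List.nodup_append'.1 C.nd).2.1
            rw [RL, List.nodup_cons, List.nodup_append'] at h3
            exact h3.2.2.2 (List.mem_flatten.2 ⟨Q, hQ, hyQ⟩) (by simp)
          · exact hQ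
      refine ⟨?_, ?_⟩
      · intro hh
        obtain ⟨Q, hQ, s, -, s', -, X, M', Y, e1, -, -, e4⟩ := hh
        have hin : [v, y] <:+: Q := by rw [e1]; exact pe5_app (X := X) (Y := Y) e4
        have h3 := key Q hQ (hin.subset (by simp))
        rw [h3] at hin
        exact hpair1 hin
      · intro hh
        obtain ⟨Q, hQ, s, -, s', -, X, M', Y, e1, -, -, e4⟩ := hh
        have hin : [y, v] <:+: Q := by rw [e1]; exact pe5_app (X := X) (Y := Y) e4
        have h3 := key Q hQ (hin.subset (by simp))
        rw [h3] at hin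
        exact hpair1 hin)
    (by
      obtain ⟨a, b, c', d, h3, h4, h5⟩ := hL2
      exact ⟨a, b, c', d, hLF a b h3, hLF c' d h4, h5, fun e => hvyL (e ▸ h3),
        fun e => hvyL (e ▸ h4), hLx a b h3, hLx c' d h4, hLy a b h3, hLy c' d h4⟩)
  have hLne : L.Nonempty := by
    obtain ⟨a, b, _, _, h3, -, -⟩ := hL2
    exact ⟨_, h3⟩
  obtain ⟨Rs, hRs⟩ := full_of_closed S.ind hLne hCl.ch hCl.nd hCl.cl hCl.len (fun c' d hcd =>
    hE c' d (hLF c' d hcd) (fun e => hvyL (e ▸ hcd)) (hLx c' d hcd) (hLy c' d hcd))
  exact S.no Rs hRs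

end Pool.Agent.LW
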