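import Pool.Agent.LW.PE5
import Pool.Agent.LW.PE6

set_option autoImplicit false

/-!
# Case II: (K0), (K3), all levels
-/

namespace Pool.Agent.LW

open SimpleGraph Classical

universe w

variable {V : Type w} {G H : SimpleGraph V} {L : Finset (Sym2 V)} {k : ℕ}
  {x y : V} {Ps Qs Ex Ey : List (List V)}

/-- the levels in Case II -/
def CX (G : SimpleGraph V) (x y : V) (Ps Qs : List (List V)) (t : ℕ) : Set V :=
  LvX G x y Ps Qs (Qs ++ [[y]]) t

def CY (G : SimpleGraph V) (x y : V) (Ps Qs : List (List V)) (t : ℕ) : Set V :=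
  LvY G x y Ps Qs (Qs ++ [[x]]) t

private theorem pe7_last {α : Type w} (l : List α) : l = [] ∨ ∃ l' a, l = l' ++ [a] := by
  rcases List.eq_nil_or_concat l with h | ⟨l', a, h⟩
  · exact Or.inl h
  · exact Or.inr ⟨l', a, by rw [h]; simp⟩

private theorem pe7_flat {P : List V} {Hs : List (List V)} (h : P ∈ Hs) :
    P <:+: Hs.flatten := by
  obtain ⟨A, D, rfl⟩ := List.append_of_mem h
  exact ⟨A.flatten, D.flatten, by simp⟩

/-- junctions are pairs of the flattened list, or its last and first element -/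
private theorem pe7_junc {Ps : List (List V)} {A B : List V} {c d : V}
    (h : [A, B] <:+: Ps ++ Ps.head?.toList) (hA : A.getLast? = some c) (hB : B.head? = some d) :
    EL Ps.flatten c d ∨ (Ps.flatten.getLast? = some c ∧ Ps.flatten.head? = some d) := by
  cases Ps with
  | nil =>
    have h1 := h.length_le
    simp at h1
  | cons P M =>
    obtain ⟨s, t, hst⟩ := h
    have hst' : s ++ [A, B] ++ t = (P :: M) ++ [P] := by simpa using hst
    obtain ⟨A', rfl⟩ := List.getLast?_eq_some_iff.1 hA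
    obtain ⟨B', rfl⟩ := List.head?_eq_some_iff.1 hB
    rcases pe7_last t with ht | ⟨t', p, ht⟩
    · right
      rw [ht, List.append_nil] at hst'
      have e1 : (s ++ [A' ++ [c]]) ++ [d :: B'] = (P :: M) ++ [P] := by
        rw [← hst']
        simp
      obtain ⟨e2, e3⟩ := List.append_inj' e1 rfl
      constructor
      · rw [← e2, List.flatten_append, List.getLast?_append_of_ne_nil _ (by simp)]
        simp
      · have e4 : P = d :: B' := by
          have := List.singleton_inj.1 e3
          exact this.symm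
        rw [List.flatten_cons, e4]
        rfl
    · left
      have e1 : (s ++ [A' ++ [c], d :: B'] ++ t') ++ [p] = (P :: M) ++ [P] := by
        rw [← hst', ht]
        simp
      obtain ⟨e2, -⟩ := List.append_inj' e1 rfl
      have e3 : (P :: M).flatten = (s.flatten ++ A') ++ c :: d :: (B' ++ t'.flatten) := by
        rw [← e2]
        simp
      rw [e3]
      exact EL.intro

/-- the cycle as an extra cycle -/
private theorem pe7_xc (hsub : ∀ e ∈ L, e ∈ G.edgeSet) (C : LC G L x y Ps Qs) :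
    ∃ c1 c2, Ch G c1 c2 Ps.flatten ∧ G.Adj c2 c1 := by
  obtain ⟨P, M, rfl⟩ : ∃ P M, Ps = P :: M := by
    cases Ps with
    | nil =>
      have := C.len
      simp at this
    | cons P M => exact ⟨P, M, rfl⟩
  have hne : ∀ Q ∈ P :: M, Q ≠ [] := by
    intro Q hQ h
    have := C.twoP Q hQ
    rw [h] at this
    simp at this
  have hj : (P :: (M ++ [P])).IsChain (JL L) := C.jn
  have hj1 : (P :: M).IsChain (JL L) := by
    have : (P :: M) <+: (P :: (M ++ [P])) := ⟨[P], by simp⟩
    exact chain_of_inf hj this.isInfix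
  have hfl : (P :: M).flatten ≠ [] := by
    intro h
    have := C.len
    rw [h] at this
    simp at this
  obtain ⟨c1, hc1⟩ : ∃ c1, (P :: M).flatten.head? = some c1 := ⟨_, List.head?_eq_some_head hfl⟩
  obtain ⟨c2, hc2⟩ : ∃ c2, (P :: M).flatten.getLast? = some c2 :=
    ⟨_, List.getLast?_eq_some_getLast hfl⟩
  have hch := flat_ch hsub hj1 C.ch hne hc1 hc2
  refine ⟨c1, c2, hch, ?_⟩
  -- the closing pair
  rcases pe7_last M with hM | ⟨M', Q, hM⟩
  · subst hM
    simp only [List.nil_append, List.isChain_cons_cons, List.isChain_singleton, and_true] at hj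
    obtain ⟨r, l, h1, h2, h3⟩ := hj
    have h4 : [P].flatten = P := by simp
    have e1 := hch.hd
    have e2 := hch.lt
    rw [h4] at e1 e2
    have e3 := h1.symm.trans e2
    have e4 := h2.symm.trans e1
    simp only [Option.some.injEq] at e3 e4
    rw [← e3, ← e4]
    exact hsub _ h3
  · subst hM
    have hj2 : [Q, P] <:+: P :: (M' ++ [Q] ++ [P]) := ⟨P :: M', [], by simp⟩
    have hj3 := chain_of_inf hj (by simpa using hj2)
    simp only [List.isChain_cons_cons, List.isChain_singleton, and_true] at hj3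
    obtain ⟨r, l, h1, h2, h3⟩ := hj3
    have e1 := hch.hd
    have e2 := hch.lt
    have hPn : P ≠ [] := hne P (by simp)
    have hQn : Q ≠ [] := hne Q (by simp)
    rw [List.flatten_cons, List.head?_append_of_ne_nil _ hPn] at e1
    have e5 : (P :: (M' ++ [Q])).flatten = (P :: M').flatten ++ Q := by simp
    have e6 : (P :: (M' ++ [Q])).flatten.getLast? = Q.getLast? := by
      rw [e5, List.getLast?_append_of_ne_nil _ hQn]
    have e7 := h1.symm.trans (e6.symm.trans e2)
    have e8 := h2.symm.trans e1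
    have e7' : r = c2 := Option.some.inj e7
    have e8' : l = c1 := Option.some.inj e8
    have h4 : G.Adj r l := hsub _ h3
    rw [e7', e8'] at h4
    exact h4

/-- (K0) -/
theorem c2_K0 [Fintype V] (S : Bs G L k) (C : LC G L x y Ps Qs) (hQ : Qs ≠ [])
    (hII : NoCyc G L x y Ps Qs) (t : ℕ) : y ∉ CX G x y Ps Qs t := by
  intro hy
  have hy' : y ∈ Lg G (OL Ps x y Qs) (Ps ++ (Qs ++ [[y]])) x t := hy
  obtain ⟨c1, c2, hc, hcc⟩ := pe7_xc S.sub C
  have hnd := C.nd
  have hnd1 := List.nodup_append'.1 hnd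
  have hR : (x :: (Qs.flatten ++ [y])).Nodup := hnd1.2.1
  have hR1 := List.nodup_cons.1 hR
  have hHs : (Ps ++ (Qs ++ [[y]])).flatten = Ps.flatten ++ (Qs.flatten ++ [y]) := by simp
  have hsub1 : (Ps.flatten ++ (Qs.flatten ++ [y])).Sublist (Ps.flatten ++ RL x y Qs) :=
    (List.Sublist.refl _).append (List.sublist_cons_self _ _)
  have hmem : ∀ v ∈ (Ps ++ (Qs ++ [[y]])).flatten, v ∈ Ps.flatten ∨ v ∈ RL x y Qs := by
    intro v hv
    rw [hHs] at hv
    exact List.mem_append.1 (hsub1.subset hv)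
  -- pairs of segments
  have hel : ∀ (X : Set V) (a b : V), HE (Ps ++ (Qs ++ [[y]])) X a b →
      (∃ P ∈ Ps, [a, b] <:+: P) ∨ ∃ P ∈ Qs, [a, b] <:+: P := by
    intro X a b hab
    obtain ⟨P, hP, h1, -⟩ := HE.el hab
    rcases List.mem_append.1 hP with hP | hP
    · exact Or.inl ⟨P, hP, h1⟩
    · rcases List.mem_append.1 hP with hP | hP
      · exact Or.inr ⟨P, hP, h1⟩
      · exfalso
        rw [List.mem_singleton] at hP
        rw [hP] at h1
        have := h1.length_le
        simp at this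
  have hnh : ∀ a b, s(a, b) ∈ L → NH G (OL Ps x y Qs) (Ps ++ (Qs ++ [[y]])) x t a b := by
    have key : ∀ (X : Set V) (a b : V), s(a, b) ∈ L → ¬ HE (Ps ++ (Qs ++ [[y]])) X a b := by
      intro X a b hab h
      rcases hel X a b h with ⟨P, hP, h1⟩ | ⟨P, hP, h1⟩
      · exact C.noP S.ind hP hab (Or.inl h1)
      · exact C.noQ S.ind hP hab (Or.inl h1)
    intro a b hab τ _
    exact ⟨key _ a b hab, key _ b a (by rw [Sym2.eq_swap]; exact hab)⟩
  -- two edges of `L` on the path
  obtain ⟨Q0, Q1, hQ01⟩ : ∃ Q0 Q1, Qs = Q0 :: Q1 := by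
    cases Qs with
    | nil => exact absurd rfl hQ
    | cons Q0 Q1 => exact ⟨Q0, Q1, rfl⟩
  obtain ⟨Q2, Q3, hQ23⟩ : ∃ Q2 Q3, Qs = Q2 ++ [Q3] := by
    rcases pe7_last Qs with h | ⟨Q2, Q3, h⟩
    · exact absurd h hQ
    · exact ⟨Q2, Q3, h⟩
  have hlk := C.lk
  obtain ⟨p0, hp0, hp0L, hp0e⟩ : ∃ p0, p0 ∈ Qs.flatten ∧ s(x, p0) ∈ L ∧ EL (RL x y Qs) x p0 := by
    have h1 := hlk
    rw [hQ01] at h1
    obtain ⟨c, d, h2, h3, -⟩ := h1
    obtain ⟨T, hT⟩ := List.head?_eq_some_iff.1 h3.hd
    refine ⟨c, ?_, h2, ?_⟩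
    · rw [hQ01, List.flatten_cons]
      exact List.mem_append_left _ h3.memL
    · have h6 : RL x y Qs = [] ++ x :: c :: (T ++ (Q1.flatten ++ [y])) := by
        unfold RL
        rw [hQ01, hT]
        simp
      rw [h6]
      exact EL.intro
  obtain ⟨p1, hp1, hp1L, hp1e⟩ : ∃ p1, p1 ∈ Qs.flatten ∧ s(p1, y) ∈ L ∧ EL (RL x y Qs) p1 y := by
    have h1 := hlk
    rw [hQ23] at h1
    obtain ⟨c, d, h2, h3, h4⟩ := Lk.split h1
    have h4' : s(d, y) ∈ L := h4
    obtain ⟨T, hT⟩ := List.getLast?_eq_some_iff.1 h3.lt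
    refine ⟨d, ?_, h4', ?_⟩
    · rw [hQ23, List.flatten_append]
      exact List.mem_append_right _ (by simpa using h3.memR)
    · have h6 : RL x y Qs = (x :: (Q2.flatten ++ T)) ++ d :: y :: [] := by
        unfold RL
        rw [hQ23, hT]
        simp
      rw [h6]
      exact EL.intro
  have hxQ : x ∉ Qs.flatten := fun h => hR1.1 (List.mem_append_left _ h)
  have hxy : x ≠ y := by
    intro h
    apply hR1.1
    rw [h]
    simp
  have hne : s(x, p0) ≠ s(p1, y) := by
    intro h
    have h1 : x ∈ s(p1, y) := by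
      rw [← h]
      exact Sym2.mem_mk_left _ _
    rcases Sym2.mem_iff.1 h1 with h2 | h2
    · exact hxQ (h2 ▸ hp1)
    · exact hxy h2
  obtain ⟨a, b, D, hD, -, hD2, hD3⟩ := hop1 (G := G) (O := OL Ps x y Qs)
    (Hs := Ps ++ (Qs ++ [[y]])) (by rw [hHs]; exact hnd.sublist hsub1) (x := x) (u := y) (t := t)
    (by
      rw [hHs]
      intro h
      rcases List.mem_append.1 h with h | h
      · exact hnd1.2.2 h (List.mem_cons_self)
      · exact hR1.1 h)
    (fun h => h.2 (List.mem_cons_self))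
    (by
      intro v hv hvO
      rcases hmem v hv with h | h
      · exact hvO.1 h
      · exact hvO.2 h)
    hy' (F := (RL x y Qs).reverse) (C := Ps.flatten) (c1 := c1) (c2 := c2)
    (lk_ch S.sub C.lk).reverse (List.nodup_reverse.2 hnd1.2.1)
    (Or.inr ⟨hc, hcc, hnd1.1⟩)
    (fun v hv hv' => hnd1.2.2 hv' (List.mem_reverse.1 hv))
    ⟨by
      intro τ _ p q hpq
      rcases hel _ p q hpq with ⟨P, hP, h1⟩ | ⟨P, hP, h1⟩
      · right
        exact Or.inl (h1.trans (pe7_flat hP))
      · left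
        apply EL.reverse
        refine Or.inl (h1.trans ((pe7_flat hP).trans ?_))
        exact ⟨[x], [y], by simp [RL]⟩, by
      intro v hv hvO
      exfalso
      rcases hv with hv | hv
      · exact hvO.2 (List.mem_reverse.1 hv)
      · exact hvO.1 hv⟩
    ⟨x, p0, p1, y, hp0e.reverse, hp1e.reverse, hne, hnh _ _ hp0L, hnh _ _ hp1L⟩
  rcases hD3 with h | h
  · obtain ⟨c, d, h1, h2, h3⟩ := hII a b D hD h
    exact h3 (hD2 c d h2.reverse (hnh c d h1))
  · have hall : ∀ c d, s(c, d) ∈ L → EC a b D c d := by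
      intro c d hcd
      rcases C.cov S.ind hcd with h1 | ⟨A, B, h1, h2⟩
      · exact hD2 c d h1.reverse (hnh c d hcd)
      · refine h c d ?_ (hnh c d hcd)
        rcases h2 with ⟨h2, h3⟩ | ⟨h2, h3⟩
        · rcases pe7_junc h1 h2 h3 with h4 | ⟨h4, h5⟩
          · exact Or.inl h4
          · right
            have e1 := h4.symm.trans hc.lt
            have e2 := h5.symm.trans hc.hd
            simp only [Option.some.injEq] at e1 e2
            rw [e1, e2, Sym2.eq_swap]
        · rcases pe7_junc h1 h2 h3 with h4 | ⟨h4, h5⟩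
          · exact Or.inl h4.symm
          · right
            have e1 := h4.symm.trans hc.lt
            have e2 := h5.symm.trans hc.hd
            simp only [Option.some.injEq] at e1 e2
            rw [e1, e2]
    obtain ⟨Rs, hRs⟩ := full_of_closed S.ind ⟨_, hp0L⟩ hD.ch hD.nd hD.cl hD.len hall
    exact S.no Rs hRs

theorem NoCyc.rev (h : NoCyc G L x y Ps Qs) : NoCyc G L y x Ps (rv Qs) := by
  intro a b D hD hZ
  obtain ⟨c, d, h1, h2, h3⟩ := h a b D hD hZ
  exact ⟨c, d, h1, by rw [RL_rv]; exact h2.reverse, h3⟩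

theorem c2_K0' [Fintype V] (S : Bs G L k) (C : LC G L x y Ps Qs) (hQ : Qs ≠ [])
    (hII : NoCyc G L x y Ps Qs) (t : ℕ) : x ∉ CY G x y Ps Qs t := by
  have h := c2_K0 S C.revR (by
    intro h
    apply hQ
    have := congrArg rv h
    simpa using this) hII.rev t
  intro hx
  apply h
  have hx' : x ∈ Lg G (OL Ps x y Qs) (Ps ++ (Qs ++ [[x]])) y t := hx
  show x ∈ Lg G (OL Ps y x (rv Qs)) (Ps ++ (rv Qs ++ [[x]])) y t
  rw [OL_revR]
  have he : Eqv (Ps ++ (rv Qs ++ [[x]])) (Ps ++ (Qs ++ [[x]])) := by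
    constructor
    · intro P hP
      rcases List.mem_append.1 hP with hP | hP
      · exact Or.inl (List.mem_append_left _ hP)
      · rcases List.mem_append.1 hP with hP | hP
        · exact Or.inr (List.mem_append_right _ (List.mem_append_left _ (mem_rv.1 hP)))
        · exact Or.inl (List.mem_append_right _ (List.mem_append_right _ hP))
    · intro P hP
      rcases List.mem_append.1 hP with hP | hP
      · exact Or.inl (List.mem_append_left _ hP)
      · rcases List.mem_append.1 hP with hP | hP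
        · refine Or.inr (List.mem_append_right _ (List.mem_append_left _ (mem_rv.2 ?_)))
          rw [List.reverse_reverse]
          exact hP
        · exact Or.inl (List.mem_append_right _ (List.mem_append_right _ hP))
  rw [he.lg]
  exact hx'

theorem c2_HD [Fintype V] (S : Bs G L k) (C : LC G L x y Ps Qs) (hQ : Qs ≠ [])
    (hII : NoCyc G L x y Ps Qs) : HD G x y Ps Qs (Qs ++ [[y]]) (Qs ++ [[x]]) := by
  refine ⟨?_, ?_, ?_, ?_, ?_, ?_⟩
  · have h1 : (Ps ++ (Qs ++ [[y]])).flatten = Ps.flatten ++ (Qs.flatten ++ [y]) := by simp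
    rw [h1]
    exact C.nd.sublist ((List.Sublist.refl _).append (List.sublist_cons_self _ _))
  · have h1 : (Ps ++ (Qs ++ [[x]])).flatten = Ps.flatten ++ (Qs.flatten ++ [x]) := by simp
    rw [h1]
    have h2 : (Ps.flatten ++ (Qs.flatten ++ [x])).Perm (Ps.flatten ++ (x :: Qs.flatten)) :=
      (List.Perm.refl _).append (List.perm_append_singleton _ _)
    rw [h2.nodup_iff]
    refine C.nd.sublist ((List.Sublist.refl _).append ?_)
    unfold RL
    exact List.Sublist.cons_cons x (List.sublist_append_left _ _)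
  · intro Q hQ'
    rcases List.mem_append.1 hQ' with h | h
    · exact Or.inl h
    · exact Or.inr (List.mem_singleton.1 h)
  · intro Q hQ'
    rcases List.mem_append.1 hQ' with h | h
    · exact Or.inl h
    · exact Or.inr (List.mem_singleton.1 h)
  · intro Q hQ'
    exact ⟨fun _ => List.mem_append_left _ hQ', fun _ => List.mem_append_left _ hQ'⟩
  · intro o ho ho'
    apply c2_K0 S C hQ hII 0
    show y ∈ Lg G (OL Ps x y Qs) (Ps ++ (Qs ++ [[y]])) x 0
    exact ⟨by simp, Con.of_att ho ho'⟩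

end Pool.Agent.LW
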