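import Pool.Agent.LW.PE0

set_option autoImplicit false

/-!
# Case I: two disjoint cycles
-/

namespace Pool.Agent.LW

open SimpleGraph Classical

universe w

variable {V : Type w} {G H : SimpleGraph V} {L : Finset (Sym2 V)} {k : ℕ}
  {x y : V} {Ps Qs Rs : List (List V)}

/-- two disjoint cycles, together through all edges of `L` -/
structure CI (G : SimpleGraph V) (L : Finset (Sym2 V)) (Ps Rs : List (List V)) : Prop where
  nd : (Ps.flatten ++ Rs.flatten).Nodup
  chP : ∀ P ∈ Ps, P.IsChain G.Adj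
  chR : ∀ Q ∈ Rs, Q.IsChain G.Adj
  twoP : ∀ P ∈ Ps, 2 ≤ P.length
  twoR : ∀ Q ∈ Rs, 2 ≤ Q.length
  jnP : CycR (JL L) Ps
  jnR : CycR (JL L) Rs
  card : Ps.length + Rs.length = L.card
  lenP : 3 ≤ Ps.flatten.length
  lenR : 3 ≤ Rs.flatten.length

end Pool.Agent.LW
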