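import Pool.Agent.LW.PF0
import Pool.Agent.LW.PE10
import Pool.Agent.LW.PE3
import Pool.Agent.LW.PD3
import Pool.Agent.LW.PD2
import Pool.Agent.LW.HE6

set_option autoImplicit false

/-!
# Case I, second half: definitions
-/

namespace Pool.Agent.LW

open SimpleGraph Classical

universe w

variable {V : Type w} {G H : SimpleGraph V} {L : Finset (Sym2 V)} {k : ℕ}
  {x y : V} {Ps Qs Rs Rest : List (List V)} {c : ℕ}

/-- the vertices off both cycles -/
def OC (Ps Rs : List (List V)) : Set V := {v | v ∉ Ps.flatten ∧ v ∉ Rs.flatten}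

/-- the first vertices of the segments -/
def HR (Rs : List (List V)) : Set V := {v | ∃ Q ∈ Rs, Q.head? = some v}

/-- the last vertices of the segments -/
def LR (Rs : List (List V)) : Set V := {v | ∃ Q ∈ Rs, Q.getLast? = some v}

/-- two cycles; the second one consists of ends of edges of `L` only, and no component of the rest is
attached to a first and to a last vertex -/
structure CN (G : SimpleGraph V) (L : Finset (Sym2 V)) (Ps Rs : List (List V)) : Prop where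
  ci : CI G L Ps Rs
  two : ∀ Q ∈ Rs, Q.length = 2
  kap : ∀ h ∈ HR Rs, ∀ l ∈ LR Rs, ∀ o ∈ Att G (OC Ps Rs) h, o ∉ Att G (OC Ps Rs) l

/-- the closure of the vertex `t` of the second cycle -/
def XT (G : SimpleGraph V) (Ps Rs : List (List V)) (t : V) : Set V := Xg G (OC Ps Rs) Ps t

theorem CN.pair (N : CN G L Ps Rs) {Q : List V} (hQ : Q ∈ Rs) : ∃ y x, Q = [y, x] := by
  have := N.two Q hQ
  match Q, this with
  | [y, x], _ => exact ⟨y, x, rfl⟩

private theorem pf1_mem {Rs Rs' : List (List V)} (h : Rot Rs Rs') {v : V} :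
    v ∈ Rs.flatten ↔ v ∈ Rs'.flatten := by
  rw [List.mem_flatten, List.mem_flatten]
  constructor
  · rintro ⟨Q, hQ, hv⟩
    exact ⟨Q, h.mem.1 hQ, hv⟩
  · rintro ⟨Q, hQ, hv⟩
    exact ⟨Q, h.mem.2 hQ, hv⟩

private theorem pf1_perm {Rs Rs' : List (List V)} (h : Rot Rs Rs') :
    Rs.flatten.Perm Rs'.flatten := by
  obtain ⟨A, D, rfl, rfl⟩ := h
  exact flatten_append_comm_perm A D

private theorem pf1_len {Rs Rs' : List (List V)} (h : Rot Rs Rs') : Rs.length = Rs'.length := by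
  obtain ⟨A, D, rfl, rfl⟩ := h
  rw [List.length_append, List.length_append, Nat.add_comm]

private theorem pf1_OC {Rs' : List (List V)} (h : Rot Rs Rs') : OC Ps Rs = OC Ps Rs' := by
  ext v
  simp only [OC, Set.mem_setOf_eq, pf1_mem h]

private theorem pf1_HR {Rs' : List (List V)} (h : Rot Rs Rs') {v : V} : v ∈ HR Rs ↔ v ∈ HR Rs' := by
  constructor
  · rintro ⟨Q, hQ, hv⟩
    exact ⟨Q, h.mem.1 hQ, hv⟩
  · rintro ⟨Q, hQ, hv⟩
    exact ⟨Q, h.mem.2 hQ, hv⟩

private theorem pf1_LR {Rs' : List (List V)} (h : Rot Rs Rs') {v : V} : v ∈ LR Rs ↔ v ∈ LR Rs' := by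
  constructor
  · rintro ⟨Q, hQ, hv⟩
    exact ⟨Q, h.mem.1 hQ, hv⟩
  · rintro ⟨Q, hQ, hv⟩
    exact ⟨Q, h.mem.2 hQ, hv⟩

private theorem pf1_HRrv {v : V} : v ∈ HR (rv Rs) ↔ v ∈ LR Rs := by
  constructor
  · rintro ⟨Q, hQ, hv⟩
    refine ⟨Q.reverse, mem_rv.1 hQ, ?_⟩
    rw [List.getLast?_reverse]
    exact hv
  · rintro ⟨Q, hQ, hv⟩
    refine ⟨Q.reverse, mem_rv.2 (by rw [List.reverse_reverse]; exact hQ), ?_⟩
    rw [List.head?_reverse]
    exact hv

private theorem pf1_LRrv {v : V} : v ∈ LR (rv Rs) ↔ v ∈ HR Rs := by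
  constructor
  · rintro ⟨Q, hQ, hv⟩
    refine ⟨Q.reverse, mem_rv.1 hQ, ?_⟩
    rw [List.head?_reverse]
    exact hv
  · rintro ⟨Q, hQ, hv⟩
    refine ⟨Q.reverse, mem_rv.2 (by rw [List.reverse_reverse]; exact hQ), ?_⟩
    rw [List.getLast?_reverse]
    exact hv

private theorem pf1_ch {Ps : List (List V)} (h : ∀ P ∈ Ps, P.IsChain G.Adj) :
    ∀ P ∈ rv Ps, P.IsChain G.Adj := by
  intro P hP
  have h1 := h _ (mem_rv.1 hP)
  rw [List.isChain_reverse] at h1
  exact h1.imp (fun _ _ h => h.symm)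

private theorem pf1_two {Ms : List (List V)} (h : ∀ Q ∈ Ms, 2 ≤ Q.length) :
    ∀ Q ∈ rv Ms, 2 ≤ Q.length := by
  intro Q hQ
  have h1 := h _ (mem_rv.1 hQ)
  simpa using h1

/-- rotating the second cycle -/
theorem CN.rotR (N : CN G L Ps Rs) {Rs' : List (List V)} (h : Rot Rs Rs') : CN G L Ps Rs' := by
  refine ⟨⟨?_, N.ci.chP, fun Q hQ => N.ci.chR Q (h.mem.2 hQ), N.ci.twoP,
    fun Q hQ => N.ci.twoR Q (h.mem.2 hQ), N.ci.jnP, ?_, ?_, N.ci.lenP, ?_⟩,
    fun Q hQ => N.two Q (h.mem.2 hQ), ?_⟩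
  · exact ((pf1_perm h).append_left _).nodup_iff.1 N.ci.nd
  · have h1 := N.ci.jnR
    obtain ⟨A, D, rfl, rfl⟩ := h
    exact cycR_append_comm _ _ h1
  · rw [← pf1_len h]; exact N.ci.card
  · rw [← (pf1_perm h).length_eq]; exact N.ci.lenR
  · intro a ha l hl o ho
    rw [← pf1_OC h] at ho ⊢
    exact N.kap a ((pf1_HR h).2 ha) l ((pf1_LR h).2 hl) o ho

/-- reversing the second cycle -/
theorem CN.revR (N : CN G L Ps Rs) : CN G L Ps (rv Rs) := by
  refine ⟨⟨?_, N.ci.chP, pf1_ch N.ci.chR, N.ci.twoP, pf1_two N.ci.twoR, N.ci.jnP,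
    cycR_rv N.ci.jnR, ?_, N.ci.lenP, ?_⟩, ?_, ?_⟩
  · rw [flatten_rv]
    exact ((List.reverse_perm _).symm.append_left _).nodup_iff.1 N.ci.nd
  · rw [length_rv]; exact N.ci.card
  · rw [flatten_rv, List.length_reverse]; exact N.ci.lenR
  · intro Q hQ
    have h1 := N.two _ (mem_rv.1 hQ)
    simpa using h1
  · have h0 : OC Ps (rv Rs) = OC Ps Rs := by
      ext v
      simp only [OC, Set.mem_setOf_eq, flatten_rv, List.mem_reverse]
    intro a ha l hl o ho ho'
    rw [h0] at ho ho'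
    exact N.kap l (pf1_LRrv.1 hl) a (pf1_HRrv.1 ha) o ho' ho

/-- reversing the first cycle -/
theorem CN.revP (N : CN G L Ps Rs) : CN G L (rv Ps) Rs := by
  refine ⟨⟨?_, pf1_ch N.ci.chP, N.ci.chR, pf1_two N.ci.twoP, N.ci.twoR, cycR_rv N.ci.jnP,
    N.ci.jnR, ?_, ?_, N.ci.lenR⟩, N.two, ?_⟩
  · rw [flatten_rv]
    exact ((List.reverse_perm _).symm.append_right _).nodup_iff.1 N.ci.nd
  · rw [length_rv]; exact N.ci.card
  · rw [flatten_rv, List.length_reverse]; exact N.ci.lenP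
  · have h0 : OC (rv Ps) Rs = OC Ps Rs := by
      ext v
      simp only [OC, Set.mem_setOf_eq, flatten_rv, List.mem_reverse]
    intro a ha l hl o ho
    rw [h0] at ho ⊢
    exact N.kap a ha l hl o ho

theorem OC_rotR {Rs' : List (List V)} (h : Rot Rs Rs') : OC Ps Rs = OC Ps Rs' := by
  exact pf1_OC h

/-- a linked configuration for each segment `[y, x]` of the second cycle -/
theorem CN.lc (N : CN G L Ps Rs) (h : Rot Rs ([y, x] :: Rest)) : LC G L x y Ps Rest := by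
  have M := (N.rotR h).ci
  refine ⟨?_, M.chP, M.twoP, M.jnP, fun Q hQ => M.twoR Q (List.mem_cons_of_mem _ hQ), ?_, ?_,
    M.lenP⟩
  · have hp : (([y, x] :: Rest).flatten).Perm (RL x y Rest) := by
      rw [List.flatten_cons]
      unfold RL
      have h1 : ([y, x] ++ Rest.flatten).Perm (x :: (y :: Rest.flatten)) := List.Perm.swap x y _
      refine h1.trans (List.Perm.cons _ ?_)
      exact (List.perm_append_singleton y Rest.flatten).symm
    exact (hp.append_left _).nodup_iff.1 M.nd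
  · have h1 : ([y, x] :: (Rest ++ [[y, x]])).IsChain (JL L) := M.jnR
    refine lk_of_isChain h1 (fun R hR => M.chR R (List.mem_cons_of_mem _ hR)) ?_ rfl rfl
    intro R hR h2
    have h3 := M.twoR R (List.mem_cons_of_mem _ hR)
    rw [h2] at h3
    simp at h3
  · have h1 := M.card
    rw [List.length_cons] at h1
    exact h1

theorem CN.OL (N : CN G L Ps Rs) (h : Rot Rs ([y, x] :: Rest)) :
    OL Ps x y Rest = OC Ps Rs := by
  rw [pf1_OC h]
  ext v
  simp only [Pool.Agent.LW.OL, OC, Set.mem_setOf_eq, mem_RL, List.flatten_cons, List.mem_append,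
    List.mem_cons, List.not_mem_nil, or_false]
  tauto

theorem CN.HD (N : CN G L Ps Rs) (h : Rot Rs ([y, x] :: Rest)) : HD G x y Ps Rest [] [] := by
  have h0 : (Ps ++ []).flatten.Nodup := by
    rw [List.append_nil]
    exact (List.nodup_append'.1 N.ci.nd).1
  have hm : [y, x] ∈ Rs := h.mem.2 (by simp)
  refine ⟨h0, h0, by simp, by simp, by simp, ?_⟩
  rw [N.OL h]
  intro o ho ho'
  exact N.kap y ⟨_, hm, rfl⟩ x ⟨_, hm, rfl⟩ o ho' ho

/-- every vertex of the second cycle is in a segment -/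
theorem CN.ex (N : CN G L Ps Rs) {t : V} (ht : t ∈ Rs.flatten) :
    ∃ y x Rest, Rot Rs ([y, x] :: Rest) ∧ (t = x ∨ t = y) := by
  obtain ⟨Q, hQ, htQ⟩ := List.mem_flatten.1 ht
  obtain ⟨y, x, rfl⟩ := N.pair hQ
  obtain ⟨A, D, rfl⟩ := List.append_of_mem hQ
  refine ⟨y, x, D ++ A, ⟨A, [y, x] :: D, rfl, rfl⟩, ?_⟩
  simp only [List.mem_cons, List.not_mem_nil, or_false] at htQ
  exact htQ.symm

end Pool.Agent.LW
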