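import Pool.Agent.LW.PF1

set_option autoImplicit false

/-!
# Case I: slots
-/

namespace Pool.Agent.LW

open SimpleGraph Classical

universe w

variable {V : Type w} {G H : SimpleGraph V} {L : Finset (Sym2 V)} {k : ℕ}
  {x y : V} {Ps Qs Rs Rest : List (List V)} {c : ℕ}

/-- (K1), (K2) for the closures of `x` and `y` -/
theorem cn_sl [Fintype V] (S : Bs G L k) (hmin : MinC G L c) (hc2 : 2 ≤ c) (hc : 2 * c ≤ k)
    (N : CN G L Ps Rs) (hR : Rs.length = c) (h : Rot Rs ([y, x] :: Rest)) :
    SL Ps c (XT G Ps Rs x) (XT G Ps Rs y) := by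
  have C := N.lc h
  have D := N.HD h
  have hlen : Rest.length + 1 = c := by
    obtain ⟨A, E, h1, h2⟩ := h
    have h3 := congrArg List.length h2
    rw [← hR, h1]
    simp only [List.length_cons, List.length_append] at h3 ⊢
    omega
  have hcard : Ps.length + Rs.length = k := N.ci.card.trans S.card
  subst hlen
  have hall := kh_all S hmin C D (fun t t' _ Q hQ u hu v _ hb => by
    have h1 := Lg_host hu
    rw [List.append_nil] at h1
    have h2 : u ∈ Rest.flatten := List.mem_flatten.2 ⟨Q, hQ, hb.memR⟩
    have h3 := C.nd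
    rw [List.nodup_append'] at h3
    exact h3.2.2 h1 (mem_RL.2 (Or.inr (Or.inl h2))))
  have h4 := kh_sl (c := Rest.length + 1) C (by omega) (by omega) hall
  rw [List.append_nil, N.OL h] at h4
  exact h4

/-- the number of vertices of `Z` and of `L` -/
theorem CN.card (S : Bs G L k) (N : CN G L Ps Rs) : Ps.length + Rs.length = k :=
  N.ci.card.trans S.card

end Pool.Agent.LW
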