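import Pool.Agent.LW.PF1
import Pool.Agent.LW.PE8

set_option autoImplicit false

/-!
# Case I: (M6)
-/

namespace Pool.Agent.LW

open SimpleGraph Classical

universe w

variable {V : Type w} {G H : SimpleGraph V} {L : Finset (Sym2 V)} {k : ℕ}
  {x y : V} {Ps Qs Rs Rest : List (List V)} {c : ℕ}

/-- counting a set on disjoint lists -/
private theorem pf3_card [Fintype V] {U : Set V} {l : List (List V)}
    (h1 : ∀ w ∈ U, w ∈ l.flatten) (h2 : ∀ Q ∈ l, (Q.filter (fun v => v ∈ U)).length ≤ 2) :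
    (fs U).card ≤ (l.map (fx U)).sum := by
  have hsub : fs U ⊆ (l.flatMap (fun Q => Q.filter (fun v => v ∈ U))).toFinset := by
    intro v hv
    rw [mem_fs] at hv
    obtain ⟨P, hP, hvP⟩ := List.mem_flatten.1 (h1 v hv)
    rw [List.mem_toFinset, List.mem_flatMap]
    refine ⟨P, hP, ?_⟩
    simp only [List.mem_filter, decide_eq_true_eq]
    exact ⟨hvP, hv⟩
  refine (Finset.card_le_card hsub).trans ((List.toFinset_card_le _).trans ?_)
  rw [List.length_flatMap]
  refine List.sum_le_sum fun P hP => ?_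
  have h3 := h2 P hP
  unfold fx
  omega

private theorem pf3_len1 {U : Set V} {Q : List V} {a : V} (hn : Q.Nodup)
    (h : ∀ v ∈ Q, v ∈ U → v = a) : (Q.filter (fun v => v ∈ U)).length ≤ 1 := by
  have h1 := pe8_fx_one hn h
  unfold fx at h1
  omega

private theorem pf3_len2 {U : Set V} {Q : List V} {a b : V} (hn : Q.Nodup)
    (h : ∀ v ∈ Q, v ∈ U → v = a ∨ v = b) : (Q.filter (fun v => v ∈ U)).length ≤ 2 := by
  have h1 : (Q.filter (fun v => v ∈ U)).Nodup := hn.filter _
  have h2 : Q.filter (fun v => v ∈ U) ⊆ [a, b] := by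
    intro v hv
    simp only [List.mem_filter, decide_eq_true_eq] at hv
    rcases h v hv.1 hv.2 with h3 | h3
    · rw [h3]; simp
    · rw [h3]; simp
  have h3 := (h1.subperm h2).length_le
  simpa using h3

/-- on the new segment -/
private theorem pf3_sig {U Y : Set V} {P : List V} {a b : V} (hn : P.Nodup)
    (hXY : ∀ u ∈ U, ∀ v ∈ Y, ¬ Bf P v u) (hb : P.getLast? = some b)
    (h : ∀ v ∈ P, v ∈ U → v = a ∨ v = b) : fx U P + fx Y P ≤ 3 := by
  by_cases hbU : b ∈ U
  · have h1 : fx Y P ≤ 1 := by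
      refine pe8_fx_one hn (a := b) ?_
      intro v hv hY
      by_contra hne
      obtain ⟨P', hP'⟩ : ∃ P', P = P' ++ [b] :=
        ⟨P.dropLast, by rw [List.dropLast_append_getLast? _ (by rw [hb]; rfl)]⟩
      apply hXY b hbU v hY
      rw [hP'] at hv ⊢
      rcases List.mem_append.1 hv with e | e
      · exact Bf.of_left e
      · rw [List.mem_singleton] at e; exact absurd e hne
    have := fx_le U P
    omega
  · have h1 : fx U P ≤ 1 := by
      refine pe8_fx_one hn (a := a) ?_
      intro v hv hU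
      rcases h v hv hU with e | e
      · exact e
      · rw [e] at hU
        exact absurd hU hbU
    have := fx_le Y P
    omega

private theorem pf3_front [Fintype V] (S : Bs G L k) (hmin : MinC G L (Qs.length + 1)) {A' D : List V}
    {ν u : V} {Ms : List (List V)} (C : LC G L x y (((ν :: A') ++ u :: D) :: Ms) Qs)
    (h2 : ∀ Q ∈ Qs, Q.length = 2)
    (hkap : ∀ o ∈ Att G (OL (((ν :: A') ++ u :: D) :: Ms) x y Qs) x,
      o ∉ Att G (OL (((ν :: A') ++ u :: D) :: Ms) x y Qs) y)
    (hX : ∀ R ∈ ((ν :: A') ++ u :: D) :: Ms, ∀ v ∈ R,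
      Con G (OL (((ν :: A') ++ u :: D) :: Ms) x y Qs) x v → R.getLast? = some v)
    (hc : Con G (OL (((ν :: A') ++ u :: D) :: Ms) x y Qs) y u) : False := by
  obtain ⟨K, hK1, hK2, hK3⟩ := hc.link
  have T := pe8_tp C hK1 hK2 (fun v hv => (hK3 v hv).1)
  have hnT : ∀ R ∈ Qs ++ (y :: (K ++ u :: D)) :: Ms, R.Nodup := by
    intro R hR
    have h1 := T.nd
    unfold RL at h1
    have h2 := (List.nodup_cons.1 h1).2
    rw [List.nodup_append'] at h2
    exact (List.nodup_flatten.1 h2.1).1 R hR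
  have hnP : ((ν :: A') ++ u :: D).Nodup := by
    have := C.nd
    rw [List.nodup_append'] at this
    exact (List.nodup_flatten.1 this.1).1 _ List.mem_cons_self
  have hνx : ν ≠ x := by
    intro e
    have := C.nd
    rw [List.nodup_append'] at this
    have h1 : ν ∈ (((ν :: A') ++ u :: D) :: Ms).flatten := by simp
    exact this.2.2 h1 (mem_RL.2 (Or.inl e))
  set O := OL (((ν :: A') ++ u :: D) :: Ms) x y Qs with hO
  set O' := OT x ν (Qs ++ (y :: (K ++ u :: D)) :: Ms) with hO'
  have hOmem : ∀ v, v ∈ O ↔ v ∉ (ν :: A') ∧ v ∉ u :: D ∧ v ∉ Ms.flatten ∧ v ≠ x ∧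
      v ∉ Qs.flatten ∧ v ≠ y := by
    intro v
    rw [hO]
    simp only [OL, RL, Set.mem_ofPred_eq, List.flatten_cons, List.mem_append,
      List.mem_cons, List.not_mem_nil, or_false, not_or]
    tauto
  have hO'mem : ∀ v, v ∈ O' ↔ v ≠ x ∧ v ∉ Qs.flatten ∧ v ≠ y ∧ v ∉ K ∧ v ∉ u :: D ∧
      v ∉ Ms.flatten ∧ v ≠ ν := by
    intro v
    rw [hO']
    simp only [OT, RL, Set.mem_ofPred_eq, List.flatten_append, List.flatten_cons,
      List.mem_append, List.mem_cons, List.not_mem_nil, or_false, not_or]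
    tauto
  -- the neighbours of `x` and of its components
  set U : Set V := {w | w ≠ x ∧ w ∉ O ∧ Con G O x w} with hU
  have hUm : ∀ w, w ∈ U ↔ w ≠ x ∧ w ∉ O ∧ Con G O x w := by
    intro w
    rw [hU]
    exact Iff.rfl
  have hlast : ∀ R ∈ ((ν :: A') ++ u :: D) :: Ms, ∀ v ∈ R, v ∈ U → R.getLast? = some v :=
    fun R hR v hv hvU => hX R hR v hv ((hUm v).1 hvU).2.2
  have hAU : ∀ v ∈ ν :: A', v ∉ U := by
    intro v hv hvU
    have h1 := hlast _ List.mem_cons_self v (List.mem_append_left _ hv) hvU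
    rw [List.getLast?_append_of_ne_nil _ (by simp)] at h1
    exact (List.nodup_append'.1 hnP).2.2 hv (List.mem_of_getLast? h1)
  have hKU : ∀ v ∈ K, v ∉ U := fun v hv hvU => ((hUm v).1 hvU).2.1 (hK3 v hv).1
  have hUloc : ∀ w ∈ U, w ∈ Qs.flatten ∨ w = y ∨ w ∈ u :: D ∨ w ∈ Ms.flatten := by
    intro w hw
    have h1 := (hUm w).1 hw
    by_contra h3
    push Not at h3
    apply h1.2.1
    rw [hOmem]
    exact ⟨fun h4 => hAU w h4 hw, h3.2.2.1, h3.2.2.2, h1.1, h3.1, h3.2.1⟩
  have hUfl : ∀ w ∈ U, w ∈ (Qs ++ (y :: (K ++ u :: D)) :: Ms).flatten := by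
    intro w hw
    simp only [List.flatten_append, List.flatten_cons, List.mem_append, List.mem_cons]
    have h1 := hUloc w hw
    rw [List.mem_cons] at h1
    tauto
  -- they are in the closure for the path
  have hUX : ∀ w ∈ U, w ∈ Xg G O' ((Qs ++ (y :: (K ++ u :: D)) :: Ms) ++ [[ν]]) x := by
    intro w hw
    refine Xg_zero ?_ ?_
    · rw [List.flatten_append, List.mem_append]
      exact Or.inl (hUfl w hw)
    · obtain ⟨K1, k1, -, k3⟩ := ((hUm w).1 hw).2.2.link
      refine pe8_con k1 ?_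
      intro v hv
      have h3 := k3 v hv
      have h4 := (hOmem v).1 h3.1
      rw [hO'mem]
      refine ⟨h4.2.2.2.1, h4.2.2.2.2.1, h4.2.2.2.2.2, ?_, h4.2.1, h4.2.2.1, ?_⟩
      · intro h5
        exact hkap v h3.2.1 (hK3 v h5).2.1
      · intro h5
        apply h4.1
        rw [h5]
        exact List.mem_cons_self
  -- the separator
  have hνO : ν ∉ O := fun h => ((hOmem ν).1 h).1 List.mem_cons_self
  have hsep : k ≤ (fs U).card := by
    refine sep_card S (A := {v | v = x ∨ v ∈ Att G O x}) (U := fs U) (a := x) (z := ν) (Or.inl rfl)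
      ?_ ?_ ?_ ?_
    · rw [mem_fs, hUm]
      exact fun h => h.1 rfl
    · intro a ha v hv
      by_cases hvx : v = x
      · exact Or.inl (Or.inl hvx)
      by_cases hvO : v ∈ O
      · left
        right
        rcases ha with ha | ha
        · rw [ha] at hv
          exact att_of_adj hv hvO
        · exact att_step ha hv hvO
      · right
        rw [mem_fs, hUm]
        refine ⟨hvx, hvO, ?_⟩
        rcases ha with ha | ha
        · rw [ha] at hv
          exact Or.inl hv
        · exact Or.inr ⟨a, ha, hv⟩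
    · rintro (h | h)
      · exact hνx h
      · exact hνO (att_mem h)
    · rw [mem_fs]
      exact hAU ν List.mem_cons_self
  -- counting
  obtain ⟨b, hb⟩ : ∃ b, (u :: D).getLast? = some b := ⟨_, List.getLast?_eq_some_getLast (by simp)⟩
  have hsigb : (y :: (K ++ u :: D)).getLast? = some b := by
    rw [← List.cons_append, List.getLast?_append_of_ne_nil _ (by simp)]
    exact hb
  have hsig : ∀ v ∈ y :: (K ++ u :: D), v ∈ U → v = y ∨ v = b := by
    intro v hv hvU
    rcases List.mem_cons.1 hv with e | e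
    · exact Or.inl e
    rcases List.mem_append.1 e with e | e
    · exact absurd hvU (hKU v e)
    · right
      have h1 := hlast _ List.mem_cons_self v (List.mem_append_right _ e) hvU
      rw [List.getLast?_append_of_ne_nil _ (by simp), hb] at h1
      exact (Option.some.inj h1).symm
  have hcardU : (fs U).card ≤ ((Qs ++ (y :: (K ++ u :: D)) :: Ms).map (fx U)).sum := by
    refine pf3_card hUfl ?_
    intro Q hQ
    have hQ' := hQ
    simp only [List.mem_append, List.mem_cons] at hQ'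
    rcases hQ' with e | e | e
    · exact (List.length_filter_le _ _).trans (le_of_eq (h2 Q e))
    · rw [e]
      rw [e] at hQ
      exact pf3_len2 (hnT _ hQ) hsig
    · obtain ⟨a, ha⟩ : ∃ a, Q.getLast? = some a := by
        have := T.two Q hQ
        exact ⟨_, List.getLast?_eq_some_getLast (by intro h; rw [h] at this; simp at this)⟩
      refine (pf3_len1 (a := a) (hnT Q hQ) ?_).trans (by norm_num)
      intro v hv hvU
      have h1 := hlast Q (List.mem_cons_of_mem _ e) v hv hvU
      rw [ha] at h1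
      exact (Option.some.inj h1).symm
  have k2 := tp_count' S T
  set Y := Xg G O' ((Qs ++ (y :: (K ++ u :: D)) :: Ms) ++ [[x]]) ν with hY
  have hXY : ∀ R ∈ Qs ++ (y :: (K ++ u :: D)) :: Ms, ∀ u' ∈ U, ∀ v ∈ Y, ¬ Bf R v u' :=
    fun R hR u' hu' v hv => tp_K1 S T hR (hUX u' hu') hv
  have hs1 : (Qs.map (fx U)).sum + (Qs.map (fx Y)).sum ≤ 2 * Qs.length := by
    refine pe8_sum ?_
    intro R hR
    have hR' : R ∈ Qs ++ (y :: (K ++ u :: D)) :: Ms := List.mem_append_left _ hR
    obtain ⟨Q1, Q2, hQ⟩ := List.append_of_mem hR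
    have hT : TP G L x ν (Q1 ++ R :: (Q2 ++ (y :: (K ++ u :: D)) :: Ms)) := by
      have := T
      rw [hQ] at this
      simpa using this
    obtain ⟨a, ha⟩ : ∃ a, R.head? = some a := by
      have := T.two R hR'
      cases R with
      | nil => simp at this
      | cons p R => exact ⟨p, rfl⟩
    refine pe8_two (hnT R hR') (hXY R hR') (a := a) (Or.inl ⟨ha, ?_⟩)
    intro v hv hvY
    have hvY' : v ∈ Xg G (OT x ν (Q1 ++ R :: (Q2 ++ (y :: (K ++ u :: D)) :: Ms)))
        ((Q1 ++ R :: (Q2 ++ (y :: (K ++ u :: D)) :: Ms)) ++ [[x]]) ν := by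
      rw [hY, hO', hQ] at hvY
      simpa using hvY
    have := tp_K2 S hmin hT (by rw [hQ]; simp) (by simp) hvY' hv
    rw [ha] at this
    exact (Option.some.inj this).symm
  have hs2 : fx U (y :: (K ++ u :: D)) + fx Y (y :: (K ++ u :: D)) ≤ 3 :=
    pf3_sig (hnT _ (by simp)) (hXY _ (by simp)) hsigb hsig
  have hs3 : (Ms.map (fx U)).sum + (Ms.map (fx Y)).sum ≤ 2 * Ms.length := by
    refine pe8_sum ?_
    intro R hR
    have hR' : R ∈ Qs ++ (y :: (K ++ u :: D)) :: Ms :=
      List.mem_append_right _ (List.mem_cons_of_mem _ hR)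
    obtain ⟨a, ha⟩ : ∃ a, R.getLast? = some a := by
      have := T.two R hR'
      exact ⟨_, List.getLast?_eq_some_getLast (by intro h; rw [h] at this; simp at this)⟩
    refine pe8_two (hnT R hR') (hXY R hR') (a := a) (Or.inr ⟨ha, ?_⟩)
    intro v hv hvU
    have h1 := hlast R (List.mem_cons_of_mem _ hR) v hv hvU
    rw [ha] at h1
    exact (Option.some.inj h1).symm
  have k4 := T.card
  rw [S.card] at k4
  simp only [List.map_append, List.map_cons, List.sum_append, List.sum_cons, List.length_append,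
    List.length_cons] at hcardU k2 k4
  omega

/-- (M6) in Case I -/
theorem cn_M6 [Fintype V] (S : Bs G L k) (hmin : MinC G L c) (hc2 : 2 ≤ c) (hc : 2 * c ≤ k)
    (N : CN G L Ps Rs) (hR : Rs.length = c) (h : Rot Rs ([y, x] :: Rest))
    (hX : ∀ P ∈ Ps, ∀ v ∈ P, v ∈ XT G Ps Rs x → P.getLast? = some v) :
    ∀ P ∈ Ps, ∀ u ∈ P, Con G (OC Ps Rs) y u → P.head? = some u := by
  intro P hP u hu hcon
  by_contra hh
  have C := N.lc h
  have hlen : Rest.length + 1 = c := by
    obtain ⟨A, E, h1, h2⟩ := h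
    have h3 := congrArg List.length h2
    rw [← hR, h1]
    simp only [List.length_cons, List.length_append] at h3 ⊢
    omega
  subst hlen
  have h2 : ∀ Q ∈ Rest, Q.length = 2 := fun Q hQ => N.two Q (h.mem.2 (List.mem_cons_of_mem _ hQ))
  have hkap := (N.HD h).kap
  have hX' : ∀ P ∈ Ps, ∀ v ∈ P, Con G (OL Ps x y Rest) x v → P.getLast? = some v := by
    intro P hP v hv hxv
    rw [N.OL h] at hxv
    exact hX P hP v hv (Xg_zero (List.mem_flatten.2 ⟨P, hP, hv⟩) hxv)
  rw [← N.OL h] at hcon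
  clear hX
  obtain ⟨Pa, Pb, hPs⟩ := List.append_of_mem hP
  obtain ⟨A, D, hA⟩ := List.append_of_mem hu
  obtain ⟨ν, A', hA'⟩ : ∃ ν A', A = ν :: A' := by
    cases A with
    | nil => rw [hA] at hh; simp at hh
    | cons p A => exact ⟨p, A, rfl⟩
  rw [hPs, hA, hA'] at C hkap hX' hcon
  have C' : LC G L x y ((((ν :: A') ++ u :: D) :: Pb) ++ Pa) Rest := LC.rot C
  have hOL : OL (Pa ++ ((ν :: A') ++ u :: D) :: Pb) x y Rest =
      OL (((ν :: A') ++ u :: D) :: (Pb ++ Pa)) x y Rest := by
    rw [OL_rot]; rfl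
  rw [hOL] at hkap hX' hcon
  refine pf3_front S hmin (Ms := Pb ++ Pa) C' h2 hkap ?_ hcon
  intro R hR'
  apply hX' R
  simp only [List.mem_append, List.mem_cons] at hR' ⊢
  tauto

end Pool.Agent.LW
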