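import Pool.Agent.LW.PF2

set_option autoImplicit false

/-!
# Case I: the boundary of the closure of a vertex of the second cycle
-/

namespace Pool.Agent.LW

open SimpleGraph Classical

universe w

variable {V : Type w} {G H : SimpleGraph V} {L : Finset (Sym2 V)} {k : ℕ}
  {x y : V} {Ps Qs Rs Rest : List (List V)} {c : ℕ}

/-- the boundary: the other vertices of the second cycle, and the extreme vertices -/
noncomputable def UT [Fintype V] (G : SimpleGraph V) (Ps Rs : List (List V)) (t : V) : Finset V :=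
  (Rs.flatten.toFinset.erase t) ∪ fs (Ex G (OC Ps Rs) Ps t)

private theorem pf4_ndP (N : CN G L Ps Rs) : Ps.flatten.Nodup := (List.nodup_append'.1 N.ci.nd).1

private theorem pf4_ndR (N : CN G L Ps Rs) : Rs.flatten.Nodup := (List.nodup_append'.1 N.ci.nd).2.1

private theorem pf4_disj (N : CN G L Ps Rs) {v : V} (h : v ∈ Ps.flatten) (h' : v ∈ Rs.flatten) :
    False := (List.nodup_append'.1 N.ci.nd).2.2 h h'

private theorem pf4_len {M : List (List V)} (h : ∀ Q ∈ M, Q.length = 2) :
    M.flatten.length = 2 * M.length := by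
  induction M with
  | nil => rfl
  | cons Q M ih =>
    have h1 := h Q (by simp)
    have h2 := ih (fun Q hQ => h Q (List.mem_cons_of_mem _ hQ))
    rw [List.flatten_cons, List.length_append, h1, h2, List.length_cons]
    omega

private theorem pf4_erase (N : CN G L Ps Rs) {t : V} (ht : t ∈ Rs.flatten) :
    (Rs.flatten.toFinset.erase t).card + 1 = 2 * Rs.length := by
  have h1 : (Rs.flatten.toFinset.erase t).card + 1 = Rs.flatten.toFinset.card :=
    Finset.card_erase_add_one (List.mem_toFinset.2 ht)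
  rw [h1, List.toFinset_card_of_nodup (pf4_ndR N), pf4_len N.two]

theorem UT_card [Fintype V] (N : CN G L Ps Rs) {t : V} (ht : t ∈ Rs.flatten) :
    (UT G Ps Rs t).card + 1 ≤ 2 * Rs.length + (Ps.map (fx (XT G Ps Rs t))).sum := by
  have h1 := pf4_erase N ht
  have h2 : (fs (Ex G (OC Ps Rs) Ps t)).card ≤ (Ps.map (fx (XT G Ps Rs t))).sum :=
    gen_card (pf4_ndP N)
  have h3 : (UT G Ps Rs t).card ≤ (Rs.flatten.toFinset.erase t).card +
      (fs (Ex G (OC Ps Rs) Ps t)).card := Finset.card_union_le _ _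
  omega

theorem UT_step [Fintype V] (N : CN G L Ps Rs) {t a v : V} (ht : t ∈ Rs.flatten)
    (ha : a ∈ Ag G (OC Ps Rs) Ps t) (h : G.Adj a v) :
    v ∈ Ag G (OC Ps Rs) Ps t ∨ v ∈ UT G Ps Rs t := by
  rcases gen_step ha h with h1 | h1 | ⟨h1, h2, h3⟩
  · exact Or.inl h1
  · right
    exact Finset.mem_union_right _ (mem_fs.2 h1)
  · right
    refine Finset.mem_union_left _ (Finset.mem_erase.2 ⟨h3, List.mem_toFinset.2 ?_⟩)
    by_contra h4
    exact h2 ⟨h1, h4⟩

private theorem pf4_ag (N : CN G L Ps Rs) {t a : V} (ha : a ∈ Ag G (OC Ps Rs) Ps t) :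
    a = t ∨ a ∉ Rs.flatten := by
  rcases ha with h | h | ⟨l, ⟨-, P, hP, s, hs, s', hs', h1, h2⟩, h | h⟩
  · exact Or.inl h
  · exact Or.inr (att_mem h).2
  · right
    intro h3
    rw [h] at h3
    exact pf4_disj N (List.mem_flatten.2 ⟨P, hP, h2.memL⟩) h3
  · exact Or.inr (att_mem h).2

theorem UT_disj [Fintype V] (N : CN G L Ps Rs) {t a : V} (ht : t ∈ Rs.flatten)
    (ha : a ∈ Ag G (OC Ps Rs) Ps t) : a ∉ UT G Ps Rs t := by
  intro h
  rcases Finset.mem_union.1 h with h | h
  · obtain ⟨h1, h2⟩ := Finset.mem_erase.1 h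
    rcases pf4_ag N ha with h3 | h3
    · exact h1 h3
    · exact h3 (List.mem_toFinset.1 h2)
  · exact gen_disj (fun h1 => pf4_disj N h1 ht) (fun u hu hO => hO.1 hu) ha (mem_fs.1 h)

/-- every vertex of the second cycle is attached to `Z` -/
theorem cn_att [Fintype V] (S : Bs G L k) (hc : 2 * Rs.length ≤ k) (N : CN G L Ps Rs) {t : V}
    (ht : t ∈ Rs.flatten) : ∃ P ∈ Ps, ∃ u ∈ P, Con G (OC Ps Rs) t u := by
  by_contra hcon
  have hno : ∀ u ∈ Ps.flatten, ¬ Con G (OC Ps Rs) t u := by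
    intro u hu hC
    obtain ⟨P, hP, huP⟩ := List.mem_flatten.1 hu
    exact hcon ⟨P, hP, u, huP, hC⟩
  obtain ⟨z, hz⟩ : ∃ z, z ∈ Ps.flatten := by
    have h1 := N.ci.lenP
    obtain ⟨z, h2⟩ := List.exists_mem_of_ne_nil Ps.flatten (by
      intro h3
      rw [h3] at h1
      simp at h1)
    exact ⟨z, h2⟩
  have hzR : z ∉ Rs.flatten := fun h => pf4_disj N hz h
  have h1 : k ≤ (Rs.flatten.toFinset.erase t).card := by
    refine sep_card S (A := {v | v = t ∨ v ∈ Att G (OC Ps Rs) t}) (a := t) (z := z) (Or.inl rfl)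
      (by simp) ?_ ?_ ?_
    · intro a ha w haw
      by_cases hwt : w = t
      · exact Or.inl (Or.inl hwt)
      by_cases hwO : w ∈ OC Ps Rs
      · left
        right
        rcases ha with rfl | ha
        · exact att_of_adj haw hwO
        · exact att_step ha haw hwO
      · right
        have hwP : w ∉ Ps.flatten := by
          intro hw
          refine hno w hw ?_
          rcases ha with rfl | ha
          · exact Or.inl haw
          · exact Or.inr ⟨a, ha, haw⟩
        refine Finset.mem_erase.2 ⟨hwt, List.mem_toFinset.2 ?_⟩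
        by_contra h4
        exact hwO ⟨hwP, h4⟩
    · rintro (h | h)
      · rw [h] at hzR
        exact hzR ht
      · exact (att_mem h).1 hz
    · intro h
      exact hzR (List.mem_toFinset.1 (Finset.mem_of_mem_erase h))
  have h2 := pf4_erase N ht
  omega

private theorem pf4_nbh (hn : Ps.flatten.Nodup) {P : List V} (hP : P ∈ Ps) {p : V}
    (hp : P.head? = some p) {A X : Set V} : ¬ Btw Ps A X p := by
  rintro ⟨-, P', hP', s, hs, s', hs', h1, h2⟩
  have h3 : P' = P := flat_same hn hP' hP h2.memL (List.mem_of_head? hp)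
  subst h3
  match P', hp, h1, hP with
  | q :: T, hp, h1, hP =>
    have h4 : q = p := by simpa using hp
    subst h4
    have h5 : (([] : List V) ++ q :: T).Nodup := flat_nodup hn hP
    have h6 := Bf.mem_left (A := []) (D := T) h1 h5
    simp at h6

private theorem pf4_nbl (hn : Ps.flatten.Nodup) {P : List V} (hP : P ∈ Ps) {p : V}
    (hp : P.getLast? = some p) {A X : Set V} : ¬ Btw Ps A X p := by
  rintro ⟨-, P', hP', s, hs, s', hs', h1, h2⟩
  have h3 : P' = P := flat_same hn hP' hP h2.memL (List.mem_of_getLast? hp)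
  subst h3
  obtain ⟨T, hT⟩ : ∃ T, P' = T ++ [p] := by
    rcases List.eq_nil_or_concat P' with h4 | ⟨T, q, h4⟩
    · rw [h4] at hp
      simp at hp
    · rw [h4] at hp
      simp only [List.concat_eq_append, List.getLast?_append, List.getLast?_singleton,
        Option.some_or, Option.some.injEq] at hp
      exact ⟨T, by rw [h4, hp]; simp⟩
  subst hT
  have h5 : (T ++ p :: []).Nodup := flat_nodup hn hP
  have h6 := Bf.mem_right h2 h5
  simp at h6

private theorem pf4_ends [Fintype V] (N : CN G L Ps Rs) {t p : V} (ht : t ∈ Rs.flatten)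
    (hp : p ∈ Ps.flatten) (hb : ¬ Btw Ps Set.univ (XT G Ps Rs t) p)
    (h : p ∈ Ag G (OC Ps Rs) Ps t ∨ p ∈ UT G Ps Rs t) : p ∈ XT G Ps Rs t := by
  rcases h with h | h
  · exfalso
    rcases h with h | h | ⟨l, h1, h | h⟩
    · rw [h] at hp
      exact pf4_disj N hp ht
    · exact (att_mem h).1 hp
    · rw [h] at hb
      exact hb h1
    · exact (att_mem h).1 hp
  · rcases Finset.mem_union.1 h with h | h
    · exact (pf4_disj N hp (List.mem_toFinset.1 (Finset.mem_of_mem_erase h))).elim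
    · exact (mem_fs.1 h).1

private theorem pf4_ht {P : List V} (h2 : 2 ≤ P.length) (hn : P.Nodup) :
    ∃ p q, P.head? = some p ∧ P.getLast? = some q ∧ p ≠ q := by
  match P, h2, hn with
  | p :: r :: T, _, hn =>
    refine ⟨p, (r :: T).getLast (by simp), rfl, ?_, ?_⟩
    · rw [List.getLast?_cons_cons]
      exact List.getLast?_eq_getLast_of_ne_nil (by simp)
    · intro h
      refine (List.nodup_cons.1 hn).1 ?_
      rw [h]
      exact List.getLast_mem _

/-- something is outside -/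
theorem cn_out [Fintype V] (S : Bs G L k) (hmin : MinC G L c) (hc2 : 2 ≤ c) (hc : 2 * c ≤ k)
    (N : CN G L Ps Rs) (hR : Rs.length = c) {t : V} (ht : t ∈ Rs.flatten) :
    ∃ z, z ∉ Ag G (OC Ps Rs) Ps t ∧ z ∉ UT G Ps Rs t := by
  by_contra hcon
  have hall : ∀ z, z ∈ Ag G (OC Ps Rs) Ps t ∨ z ∈ UT G Ps Rs t := by
    intro z
    by_contra h
    exact hcon ⟨z, fun h1 => h (Or.inl h1), fun h1 => h (Or.inr h1)⟩
  obtain ⟨y, x, Rest, hrot, htxy⟩ := N.ex ht
  have hSL := cn_sl S hmin hc2 hc N hR hrot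
  have hmem : ∀ v, v = x ∨ v = y → v ∈ Rs.flatten := by
    intro v hv
    refine List.mem_flatten.2 ⟨[y, x], hrot.mem.2 (by simp), ?_⟩
    rcases hv with rfl | rfl <;> simp
  have key : ∀ t', (t' = x ∨ t' = y) → (∀ P ∈ Ps, ∀ u ∈ P, ∀ v ∈ P, u ∈ XT G Ps Rs t →
      v ∈ XT G Ps Rs t' → u = v) → False := by
    intro t' ht' hk
    obtain ⟨P, hP, u, hu, hC⟩ := cn_att S (by rw [hR]; exact hc) N (hmem t' ht')
    have huX : u ∈ XT G Ps Rs t' := Xg_zero (List.mem_flatten.2 ⟨P, hP, hu⟩) hC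
    obtain ⟨p, q, hp, hq, hpq⟩ := pf4_ht (N.ci.twoP P hP) (flat_nodup (pf4_ndP N) hP)
    have hpm := List.mem_of_head? hp
    have hqm := List.mem_of_getLast? hq
    have h1 := pf4_ends N ht (List.mem_flatten.2 ⟨P, hP, hpm⟩) (pf4_nbh (pf4_ndP N) hP hp) (hall p)
    have h2 := pf4_ends N ht (List.mem_flatten.2 ⟨P, hP, hqm⟩) (pf4_nbl (pf4_ndP N) hP hq) (hall q)
    have h3 := hk P hP p hpm u hu h1 huX
    have h4 := hk P hP q hqm u hu h2 huX
    exact hpq (h3.trans h4.symm)
  rcases htxy with h | h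
  · subst h
    exact key y (Or.inr rfl) hSL.k1
  · subst h
    refine key x (Or.inl rfl) ?_
    intro P hP u hu v hv h1 h2
    exact (hSL.k1 P hP v hv u hu h2 h1).symm

theorem cn_low [Fintype V] (S : Bs G L k) (hmin : MinC G L c) (hc2 : 2 ≤ c) (hc : 2 * c ≤ k)
    (N : CN G L Ps Rs) (hR : Rs.length = c) {t : V} (ht : t ∈ Rs.flatten) :
    Ps.length + 1 ≤ c + (Ps.map (fx (XT G Ps Rs t))).sum := by
  obtain ⟨z, hz1, hz2⟩ := cn_out S hmin hc2 hc N hR ht
  have htA : t ∈ Ag G (OC Ps Rs) Ps t := Or.inl rfl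
  have h1 : k ≤ (UT G Ps Rs t).card :=
    sep_card S htA (UT_disj N ht htA) (fun a ha w haw => UT_step N ht ha haw) hz1 hz2
  have h2 := UT_card N ht
  have h3 := N.card S
  omega

end Pool.Agent.LW
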