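import Pool.Agent.LW.PF3
import Pool.Agent.LW.PF4

set_option autoImplicit false

/-!
# Case I: tightness and adjacency
-/

namespace Pool.Agent.LW

open SimpleGraph Classical

universe w

variable {V : Type w} {G H : SimpleGraph V} {L : Finset (Sym2 V)} {k : ℕ}
  {x y : V} {Ps Qs Rs Rest : List (List V)} {c : ℕ}

private theorem pf5_ndP (N : CN G L Ps Rs) : Ps.flatten.Nodup := (List.nodup_append'.1 N.ci.nd).1

private theorem pf5_disj (N : CN G L Ps Rs) {v : V} (h : v ∈ Ps.flatten) (h' : v ∈ Rs.flatten) :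
    False := (List.nodup_append'.1 N.ci.nd).2.2 h h'

private theorem pf5_memrv {v : V} : v ∈ (rv Ps).flatten ↔ v ∈ Ps.flatten := by
  constructor
  · intro h
    obtain ⟨P, hP, hv⟩ := List.mem_flatten.1 h
    exact List.mem_flatten.2 ⟨P.reverse, mem_rv.1 hP, List.mem_reverse.2 hv⟩
  · intro h
    obtain ⟨P, hP, hv⟩ := List.mem_flatten.1 h
    exact List.mem_flatten.2 ⟨P.reverse, mem_rv.2 (by rw [List.reverse_reverse]; exact hP),
      List.mem_reverse.2 hv⟩

private theorem pf5_OC : OC (rv Ps) Rs = OC Ps Rs := by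
  ext v
  simp only [OC, Set.mem_setOf_eq, pf5_memrv]

private theorem pf5_eqv : Eqv (rv Ps) Ps := by
  refine ⟨fun P hP => Or.inr (mem_rv.1 hP), fun P hP => Or.inr (mem_rv.2 ?_)⟩
  rw [List.reverse_reverse]
  exact hP

private theorem pf5_XT {t : V} : XT G (rv Ps) Rs t = XT G Ps Rs t := by
  unfold XT
  rw [pf5_OC]
  exact pf5_eqv.xg

private theorem pf5_gate (N : CN G L Ps Rs) (h : Rot Rs ([y, x] :: Rest)) {v : V}
    (hv : v = x ∨ v = y) : v ∈ Rs.flatten := by
  refine List.mem_flatten.2 ⟨[y, x], h.mem.2 (by simp), ?_⟩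
  rcases hv with rfl | rfl <;> simp

private theorem pf5_slot [Fintype V] (S : Bs G L k) (hmin : MinC G L c) (hc2 : 2 ≤ c)
    (hc : 2 * c ≤ k) (N : CN G L Ps Rs) (hR : Rs.length = c) (h : Rot Rs ([y, x] :: Rest)) :
    (Ps.map (fx (XT G Ps Rs x))).sum + (Ps.map (fx (XT G Ps Rs y))).sum + 2 * c ≤
      2 * (Ps.length + 1) := by
  have hx := pf5_gate N h (v := x) (Or.inl rfl)
  have hy := pf5_gate N h (v := y) (Or.inr rfl)
  refine slot (Y0 := {u | u ∈ Ps.flatten ∧ Con G (OC Ps Rs) y u})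
    (cn_sl S hmin hc2 hc N hR h) ?_ ?_ (cn_low S hmin hc2 hc N hR hx)
    (cn_low S hmin hc2 hc N hR hy) ?_ ?_
  · rintro u ⟨h1, h2⟩
    exact Xg_zero h1 h2
  · obtain ⟨P, hP, u, hu, hC⟩ := cn_att S (by rw [hR]; exact hc) N hy
    exact ⟨P, hP, u, hu, List.mem_flatten.2 ⟨P, hP, hu⟩, hC⟩
  · intro hX P hP u hu hu0
    exact cn_M6 S hmin hc2 hc N hR h hX P hP u hu hu0.2
  · intro hX P hP u hu hu0
    have h1 : ∀ P ∈ rv Ps, ∀ v ∈ P, v ∈ XT G (rv Ps) Rs x → P.getLast? = some v := by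
      intro P hP v hv hvX
      rw [pf5_XT] at hvX
      have h2 := hX P.reverse (mem_rv.1 hP) v (List.mem_reverse.2 hv) hvX
      rwa [List.head?_reverse] at h2
    have h3 := cn_M6 S hmin hc2 hc N.revP hR h h1 P.reverse
      (mem_rv.2 (by rw [List.reverse_reverse]; exact hP)) u (List.mem_reverse.2 hu)
      (by rw [pf5_OC]; exact hu0.2)
    rwa [List.head?_reverse] at h3

theorem cn_eq [Fintype V] (S : Bs G L k) (hmin : MinC G L c) (hc2 : 2 ≤ c) (hc : 2 * c ≤ k)
    (N : CN G L Ps Rs) (hR : Rs.length = c) {t : V} (ht : t ∈ Rs.flatten) :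
    Ps.length + 1 = c + (Ps.map (fx (XT G Ps Rs t))).sum := by
  obtain ⟨y, x, Rest, hrot, htxy⟩ := N.ex ht
  have h1 := pf5_slot S hmin hc2 hc N hR hrot
  have h2 := cn_low S hmin hc2 hc N hR (pf5_gate N hrot (v := x) (Or.inl rfl))
  have h3 := cn_low S hmin hc2 hc N hR (pf5_gate N hrot (v := y) (Or.inr rfl))
  rcases htxy with h | h
  · rw [h]
    omega
  · rw [h]
    omega

private theorem pf5_nbh (hn : Ps.flatten.Nodup) {P : List V} (hP : P ∈ Ps) {p : V}
    (hp : P.head? = some p) {A X : Set V} : ¬ Btw Ps A X p := by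
  rintro ⟨-, P', hP', s, hs, s', hs', h1, h2⟩
  have h3 : P' = P := flat_same hn hP' hP h2.memL (List.mem_of_head? hp)
  subst h3
  match P', hp, h1, hP with
  | q :: T, hp, h1, hP =>
    have h4 : q = p := by simpa using hp
    subst h4
    have h5 : (([] : List V) ++ q :: T).Nodup := flat_nodup hn hP
    have h6 := Bf.mem_left (A := []) (D := T) h1 h5
    simp at h6

private theorem pf5_nbl (hn : Ps.flatten.Nodup) {P : List V} (hP : P ∈ Ps) {p : V}
    (hp : P.getLast? = some p) {A X : Set V} : ¬ Btw Ps A X p := by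
  rintro ⟨-, P', hP', s, hs, s', hs', h1, h2⟩
  have h3 : P' = P := flat_same hn hP' hP h2.memL (List.mem_of_getLast? hp)
  subst h3
  obtain ⟨T, hT⟩ : ∃ T, P' = T ++ [p] := by
    rcases List.eq_nil_or_concat P' with h4 | ⟨T, q, h4⟩
    · rw [h4] at hp
      simp at hp
    · rw [h4] at hp
      simp only [List.concat_eq_append, List.getLast?_append, List.getLast?_singleton,
        Option.some_or, Option.some.injEq] at hp
      exact ⟨T, by rw [h4, hp]; simp⟩
  subst hT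
  have h5 : (T ++ p :: []).Nodup := flat_nodup hn hP
  have h6 := Bf.mem_right h2 h5
  simp at h6

private theorem pf5_rl (h : Rot Rs ([y, x] :: Rest)) {v : V} (hv : v ∈ RL x y Rest) :
    v ∈ Rs.flatten := by
  obtain ⟨A, D, h1, h2⟩ := h
  have h3 : v ∈ ([y, x] :: Rest).flatten := by
    simp only [RL, List.mem_cons, List.mem_append, List.not_mem_nil, or_false, List.flatten_cons,
      List.cons_append, List.nil_append] at hv ⊢
    tauto
  rw [h2] at h3
  rw [h1]
  simp only [List.flatten_append, List.mem_append] at h3 ⊢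
  tauto

private theorem pf5_head {A B : List V} (h : [A, B] <:+: Ps ++ Ps.head?.toList) :
    A ∈ Ps ∧ B ∈ Ps := by
  have h1 : ∀ X ∈ Ps ++ Ps.head?.toList, X ∈ Ps := by
    intro X hX
    rcases List.mem_append.1 hX with hX | hX
    · exact hX
    · rw [Option.mem_toList] at hX
      exact List.mem_of_head? hX
  exact ⟨h1 A (h.subset (by simp)), h1 B (h.subset (by simp))⟩

/-- `t` is adjacent to the other vertices of the second cycle and to its extreme vertices -/
theorem cn_adj [Fintype V] (S : Bs G L k) (hmin : MinC G L c) (hc2 : 2 ≤ c) (hc : 2 * c ≤ k)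
    (N : CN G L Ps Rs) (hR : Rs.length = c) {t : V} (ht : t ∈ Rs.flatten) :
    ∀ v ∈ UT G Ps Rs t, G.Adj t v := by
  obtain ⟨z, hz1, hz2⟩ := cn_out S hmin hc2 hc N hR ht
  have htA : t ∈ Ag G (OC Ps Rs) Ps t := Or.inl rfl
  set A : Set V := Ag G (OC Ps Rs) Ps t with hA
  set M : Finset V := Finset.univ.filter (fun v => v ∉ A ∧ ∃ a ∈ A, G.Adj a v) with hM
  have hMm : ∀ v, v ∈ M ↔ v ∉ A ∧ ∃ a ∈ A, G.Adj a v := by
    intro v
    simp [hM]
  have hsub : M ⊆ UT G Ps Rs t := by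
    intro v hv
    obtain ⟨h1, a, ha, h2⟩ := (hMm v).1 hv
    rcases UT_step N ht ha h2 with h3 | h3
    · exact absurd h3 h1
    · exact h3
  have h1 : k ≤ M.card := by
    refine sep_card S htA (fun h => ((hMm t).1 h).1 htA) ?_ hz1 (fun h => hz2 (hsub h))
    intro a ha w haw
    by_cases hw : w ∈ A
    · exact Or.inl hw
    · exact Or.inr ((hMm w).2 ⟨hw, a, ha, haw⟩)
  have h2 := UT_card N ht
  have h3 := N.card S
  have h4 := cn_eq S hmin hc2 hc N hR ht
  have h5 : (UT G Ps Rs t).card ≤ k := by omega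
  have h6 : M = UT G Ps Rs t := Finset.eq_of_subset_of_card_le hsub (h5.trans h1)
  have h7 : M.card = k := le_antisymm (by rw [h6]; exact h5) h1
  obtain ⟨y, x, Rest, hrot, htxy⟩ := N.ex ht
  have ter : ∀ e ∈ L, ∀ v ∈ e, v ∈ A → v = t := by
    intro e he v hv hvA
    obtain ⟨w, rfl⟩ := Sym2.mem_iff_exists.1 hv
    have hcase : v ∈ Rs.flatten ∨ ∃ P ∈ Ps, P.head? = some v ∨ P.getLast? = some v := by
      rcases LC.cov S.ind (N.lc hrot) he with h8 | ⟨C, D, h8, ⟨h9, h10⟩ | ⟨h9, h10⟩⟩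
      · exact Or.inl (pf5_rl hrot h8.memL)
      · exact Or.inr ⟨C, (pf5_head h8).1, Or.inr h9⟩
      · exact Or.inr ⟨D, (pf5_head h8).2, Or.inl h10⟩
    rcases hvA with h8 | h8 | ⟨l, hl, h8 | h8⟩
    · exact h8
    · exfalso
      have h9 : v ∈ OC Ps Rs := att_mem h8
      rcases hcase with h10 | ⟨P, hP, h10 | h10⟩
      · exact h9.2 h10
      · exact h9.1 (List.mem_flatten.2 ⟨P, hP, List.mem_of_head? h10⟩)
      · exact h9.1 (List.mem_flatten.2 ⟨P, hP, List.mem_of_getLast? h10⟩)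
    · exfalso
      rw [← h8] at hl
      rcases hcase with h10 | ⟨P, hP, h10 | h10⟩
      · obtain ⟨-, P, hP, s, hs, s', hs', h11, h12⟩ := hl
        exact pf5_disj N (List.mem_flatten.2 ⟨P, hP, h12.memL⟩) h10
      · exact pf5_nbh (pf5_ndP N) hP h10 hl
      · exact pf5_nbl (pf5_ndP N) hP h10 hl
    · exfalso
      have h9 : v ∈ OC Ps Rs := att_mem h8
      rcases hcase with h10 | ⟨P, hP, h10 | h10⟩
      · exact h9.2 h10
      · exact h9.1 (List.mem_flatten.2 ⟨P, hP, List.mem_of_head? h10⟩)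
      · exact h9.1 (List.mem_flatten.2 ⟨P, hP, List.mem_of_getLast? h10⟩)
  intro v hv
  rw [← h6] at hv
  exact em_lemma S hMm h7 ⟨z, hz1, fun h => hz2 (hsub h)⟩ htA ter hv

end Pool.Agent.LW
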