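import Pool.Agent.LW.PF0
import Pool.Agent.LW.PB2
import Pool.Agent.LW.PB3

set_option autoImplicit false

/-!
# Case I, second half: paths through all edges of `L` in a clique
-/

namespace Pool.Agent.LW

open SimpleGraph Classical

universe w

variable {V : Type w} {G H : SimpleGraph V} {L : Finset (Sym2 V)} {k : ℕ}
  {x y : V} {Ps Qs Rs Rest : List (List V)} {c : ℕ}

/-- the vertices of a list of pairs -/
def pf6_fl (D : List (V × V)) : List V := D.flatMap (fun p => [p.1, p.2])

private theorem pf6_fl_cons (p : V × V) (D : List (V × V)) :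
    pf6_fl (p :: D) = p.1 :: p.2 :: pf6_fl D := rfl

private theorem pf6_fl_app (D D' : List (V × V)) :
    pf6_fl (D ++ D') = pf6_fl D ++ pf6_fl D' := by
  simp [pf6_fl]

private theorem pf6_mem {D : List (V × V)} {p : V × V} (h : p ∈ D) :
    p.1 ∈ pf6_fl D ∧ p.2 ∈ pf6_fl D := by
  constructor
  · exact List.mem_flatMap.2 ⟨p, h, by simp⟩
  · exact List.mem_flatMap.2 ⟨p, h, by simp⟩

/-- a list without repetitions in a clique is a chain -/
private theorem pf6_chain {K : V → Prop} (hcl : ∀ t, K t → ∀ t', K t' → t ≠ t' → G.Adj t t') :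
    ∀ F : List V, F.Nodup → (∀ v ∈ F, K v) → F.IsChain G.Adj := by
  intro F
  induction F with
  | nil => intro _ _; exact List.isChain_nil
  | cons a F ih =>
    intro hn hK
    cases F with
    | nil => exact List.isChain_singleton a
    | cons b F =>
      rw [List.isChain_cons_cons]
      refine ⟨hcl a (hK a (by simp)) b (hK b (by simp)) ?_, ih (List.nodup_cons.1 hn).2
        (fun v hv => hK v (List.mem_cons_of_mem _ hv))⟩
      rintro rfl
      exact (List.nodup_cons.1 hn).1 (by simp)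

/-- the junctions of a chain of segments, as pairs -/
private theorem pf6_jn : ∀ (M : List (List V)) (P Q : List V) (r l : V),
    (P :: (M ++ [Q])).IsChain (JL L) → (∀ R ∈ M, 2 ≤ R.length) → P.getLast? = some r →
    Q.head? = some l → ∃ D : List (V × V), D.length = M.length + 1 ∧
      (∀ p ∈ D, s(p.1, p.2) ∈ L) ∧ (pf6_fl D).Sublist (r :: (M.flatten ++ [l])) ∧
      ((∀ R ∈ M, R.length = 2) → pf6_fl D = r :: (M.flatten ++ [l])) := by
  intro M
  induction M with
  | nil =>
    intro P Q r l h _ hP hQ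
    simp only [List.nil_append, List.isChain_cons_cons, List.isChain_singleton, and_true] at h
    obtain ⟨r', l', h1, h2, h3⟩ := h
    have e1 : r' = r := by have := h1.symm.trans hP; simpa using this
    have e2 : l' = l := by have := h2.symm.trans hQ; simpa using this
    subst e1; subst e2
    exact ⟨[(r', l')], rfl, by simpa using h3, by simp [pf6_fl], fun _ => rfl⟩
  | cons M0 M ih =>
    intro P Q r l h h2 hP hQ
    rw [List.cons_append, List.isChain_cons_cons] at h
    obtain ⟨⟨r', l0, h3, h4, h5⟩, h6⟩ := h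
    have e1 : r' = r := by have := h3.symm.trans hP; simpa using this
    subst e1
    obtain ⟨M1, rfl⟩ := List.head?_eq_some_iff.1 h4
    have hlen := h2 (l0 :: M1) (by simp)
    obtain ⟨M2, r0, hM1⟩ : ∃ M2 r0, M1 = M2 ++ [r0] := by
      rcases List.eq_nil_or_concat M1 with e | ⟨M2, r0, e⟩
      · rw [e] at hlen; simp at hlen
      · exact ⟨M2, r0, by rw [e, List.concat_eq_append]⟩
    obtain ⟨D, d1, d2, d3, d4⟩ := ih (l0 :: M1) Q r0 l h6
      (fun R hR => h2 R (List.mem_cons_of_mem _ hR)) (by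
        rw [hM1]
        have : l0 :: (M2 ++ [r0]) = (l0 :: M2) ++ [r0] := rfl
        rw [this, List.getLast?_append]
        rfl) hQ
    refine ⟨(r', l0) :: D, by simp [d1], ?_, ?_, ?_⟩
    · intro p hp
      rcases List.mem_cons.1 hp with rfl | hp
      · exact h5
      · exact d2 p hp
    · rw [pf6_fl_cons, hM1]
      have e : r' :: (((l0 :: (M2 ++ [r0])) :: M).flatten ++ [l]) =
          r' :: l0 :: (M2 ++ (r0 :: (M.flatten ++ [l]))) := by simp
      rw [e]
      exact ((d3.trans (List.sublist_append_right M2 _)).cons_cons l0).cons_cons r'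
    · intro hall
      have hl2 := hall (l0 :: M1) (by simp)
      have hM2 : M2 = [] := by
        rw [hM1] at hl2
        simp at hl2
        exact hl2
      rw [pf6_fl_cons, d4 (fun R hR => hall R (List.mem_cons_of_mem _ hR)), hM1, hM2]
      simp

/-- different pairs of a list without repetitions are different edges -/
private theorem pf6_nodup {D : List (V × V)} (h : (pf6_fl D).Nodup) :
    (D.map (fun p => s(p.1, p.2))).Nodup := by
  induction D with
  | nil => simp
  | cons p D ih =>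
    rw [pf6_fl_cons] at h
    rw [List.map_cons, List.nodup_cons]
    have h1 := List.nodup_cons.1 h
    have h2 := List.nodup_cons.1 h1.2
    refine ⟨?_, ih h2.2⟩
    intro hp
    obtain ⟨q, hq, he⟩ := List.mem_map.1 hp
    rcases Sym2.eq_iff.1 he with ⟨h3, -⟩ | ⟨-, h3⟩
    · exact h1.1 (List.mem_cons_of_mem _ (h3 ▸ (pf6_mem hq).1))
    · exact h1.1 (List.mem_cons_of_mem _ (h3 ▸ (pf6_mem hq).2))

/-- the junctions of a cyclic list of segments -/
private theorem pf6_cyc (hj : CycR (JL L) Ps) (h2 : ∀ P ∈ Ps, 2 ≤ P.length)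
    (hn : Ps.flatten.Nodup) : ∃ D : List (V × V), D.length = Ps.length ∧
      (∀ p ∈ D, s(p.1, p.2) ∈ L) ∧ (pf6_fl D).Nodup ∧ (∀ v ∈ pf6_fl D, v ∈ Ps.flatten) ∧
      ((∀ R ∈ Ps, R.length = 2) → ∀ v ∈ Ps.flatten, v ∈ pf6_fl D) := by
  cases Ps with
  | nil => exact absurd hj (by simp [CycR])
  | cons P M =>
    have hlen := h2 P (by simp)
    obtain ⟨l, P1, rfl⟩ : ∃ l P1, P = l :: P1 := by
      cases P with
      | nil => simp at hlen
      | cons l P1 => exact ⟨l, P1, rfl⟩
    obtain ⟨P2, r, hP1⟩ : ∃ P2 r, P1 = P2 ++ [r] := by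
      rcases List.eq_nil_or_concat P1 with e | ⟨M2, r0, e⟩
      · rw [e] at hlen; simp at hlen
      · exact ⟨M2, r0, by rw [e, List.concat_eq_append]⟩
    obtain ⟨D, d1, d2, d3, d4⟩ := pf6_jn M (l :: P1) (l :: P1) r l hj
      (fun R hR => h2 R (List.mem_cons_of_mem _ hR)) (by
        rw [hP1]
        have : l :: (P2 ++ [r]) = (l :: P2) ++ [r] := rfl
        rw [this, List.getLast?_append]
        rfl) rfl
    have hN : (r :: (M.flatten ++ [l])).Nodup := by
      refine nodup_of_count hn ?_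
      rw [hP1]
      intro z
      simp only [List.flatten_cons, List.count_append, List.count_cons, List.count_nil]
      omega
    refine ⟨D, by simp [d1], d2, hN.sublist d3, ?_, ?_⟩
    · intro v hv
      have h3 := d3.subset hv
      rw [hP1]
      simp only [List.flatten_cons, List.mem_append, List.mem_cons, List.not_mem_nil,
        or_false] at h3 ⊢
      tauto
    · intro hall v hv
      rw [d4 (fun R hR => hall R (List.mem_cons_of_mem _ hR))]
      have hl2 := hall (l :: P1) (by simp)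
      have hP2 : P2 = [] := by
        rw [hP1] at hl2
        simp at hl2
        exact hl2
      rw [hP1, hP2] at hv
      simp only [List.flatten_cons, List.mem_append, List.mem_cons, List.not_mem_nil,
        or_false] at hv ⊢
      tauto

/-- the edges of `L` on the second cycle -/
private theorem pf6_cov (C : CI G L Ps Rs) (h2 : ∀ Q ∈ Rs, Q.length = 2) :
    ∃ D : List (V × V), D.length = Rs.length ∧ (∀ p ∈ D, s(p.1, p.2) ∈ L) ∧ (pf6_fl D).Nodup ∧
      (∀ v, v ∈ pf6_fl D ↔ v ∈ Rs.flatten) ∧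
      ∀ c d, s(c, d) ∈ L → c ∈ Rs.flatten → ∃ p ∈ D, s(c, d) = s(p.1, p.2) := by
  have hn := List.nodup_append'.1 C.nd
  obtain ⟨D, d1, d2, d3, d4, d5⟩ := pf6_cyc C.jnR C.twoR hn.2.1
  obtain ⟨E, e1, e2, e3, e4, -⟩ := pf6_cyc C.jnP C.twoP hn.1
  refine ⟨D, d1, d2, d3, fun v => ⟨d4 v, d5 h2 v⟩, ?_⟩
  intro c d hcd hc
  have hD := pf6_nodup d3
  have hE := pf6_nodup e3
  have hall : ((E.map (fun p => s(p.1, p.2))) ++ (D.map (fun p => s(p.1, p.2)))).toFinset = L := by
    apply Finset.eq_of_subset_of_card_le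
    · intro e he
      rw [List.mem_toFinset, List.mem_append, List.mem_map, List.mem_map] at he
      rcases he with ⟨p, hp, rfl⟩ | ⟨p, hp, rfl⟩
      · exact e2 p hp
      · exact d2 p hp
    · rw [List.toFinset_card_of_nodup, List.length_append, List.length_map, List.length_map, d1, e1,
        C.card]
      rw [List.nodup_append']
      refine ⟨hE, hD, ?_⟩
      intro e he he'
      obtain ⟨p, hp, rfl⟩ := List.mem_map.1 he
      obtain ⟨q, hq, h3⟩ := List.mem_map.1 he'
      have h4 := e4 _ (pf6_mem hp).1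
      rcases Sym2.eq_iff.1 h3 with ⟨h5, -⟩ | ⟨-, h5⟩
      · exact hn.2.2 h4 (d4 _ (h5 ▸ (pf6_mem hq).1))
      · exact hn.2.2 h4 (d4 _ (h5 ▸ (pf6_mem hq).2))
  rw [← hall, List.mem_toFinset, List.mem_append, List.mem_map, List.mem_map] at hcd
  rcases hcd with ⟨p, hp, he⟩ | ⟨p, hp, he⟩
  · exfalso
    have h4 := e4 _ (pf6_mem hp).1
    have h5 := e4 _ (pf6_mem hp).2
    rcases Sym2.eq_iff.1 he with ⟨h6, -⟩ | ⟨-, h6⟩
    · exact hn.2.2 (h6 ▸ h4) hc
    · exact hn.2.2 (h6 ▸ h5) hc
  · exact ⟨p, hp, he.symm⟩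

/-- bring the pair of `t` to the front -/
private theorem pf6_pull {D : List (V × V)} {t : V} (ht : t ∈ pf6_fl D) :
    ∃ m D1, (pf6_fl D).Perm (t :: m :: pf6_fl D1) ∧ D1.length + 1 = D.length ∧
      (∀ e, (∃ p ∈ D, e = s(p.1, p.2)) ↔ e = s(t, m) ∨ ∃ p ∈ D1, e = s(p.1, p.2)) := by
  obtain ⟨p, hp, htp⟩ := List.mem_flatMap.1 ht
  obtain ⟨X, Y, rfl⟩ := List.append_of_mem hp
  have hperm : (pf6_fl (X ++ p :: Y)).Perm (p.1 :: p.2 :: pf6_fl (X ++ Y)) := by
    rw [pf6_fl_app, pf6_fl_cons, pf6_fl_app]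
    have h1 : (pf6_fl X ++ p.1 :: p.2 :: pf6_fl Y).Perm
        ([p.1, p.2] ++ (pf6_fl X ++ pf6_fl Y)) := by
      have : pf6_fl X ++ p.1 :: p.2 :: pf6_fl Y = pf6_fl X ++ ([p.1, p.2] ++ pf6_fl Y) := rfl
      rw [this]
      exact List.perm_append_comm_assoc _ _ _
    exact h1
  have hiff : ∀ e, (∃ q ∈ X ++ p :: Y, e = s(q.1, q.2)) ↔
      e = s(p.1, p.2) ∨ ∃ q ∈ X ++ Y, e = s(q.1, q.2) := by
    intro e
    constructor
    · rintro ⟨q, hq, he⟩
      simp only [List.mem_append, List.mem_cons] at hq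
      rcases hq with hq | rfl | hq
      · exact Or.inr ⟨q, by simp [hq], he⟩
      · exact Or.inl he
      · exact Or.inr ⟨q, by simp [hq], he⟩
    · rintro (he | ⟨q, hq, he⟩)
      · exact ⟨p, by simp, he⟩
      · refine ⟨q, ?_, he⟩
        simp only [List.mem_append, List.mem_cons] at hq ⊢
        tauto
  simp only [List.mem_cons, List.not_mem_nil, or_false] at htp
  rcases htp with rfl | rfl
  · exact ⟨p.2, X ++ Y, hperm, by simp only [List.length_append, List.length_cons]; omega, hiff⟩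
  · refine ⟨p.1, X ++ Y, hperm.trans (List.Perm.swap _ _ _), by
      simp only [List.length_append, List.length_cons]; omega, ?_⟩
    intro e
    rw [hiff e]
    constructor
    · rintro (h | h)
      · exact Or.inl (h.trans Sym2.eq_swap)
      · exact Or.inr h
    · rintro (h | h)
      · exact Or.inl (h.trans Sym2.eq_swap)
      · exact Or.inr h

/-- a list of pairs in a clique as a path of segments -/
private theorem pf6_rp {K : V → Prop} (hcl : ∀ t, K t → ∀ t', K t' → t ≠ t' → G.Adj t t') :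
    ∀ (D : List (V × V)) (p : V × V), (pf6_fl (p :: D)).Nodup → (∀ v ∈ pf6_fl (p :: D), K v) →
      (∀ q ∈ p :: D, s(q.1, q.2) ∈ L) → ∃ b M, RL p.1 b M = pf6_fl (p :: D) ∧
        M.length = D.length ∧ Lk G L p.1 M b ∧ (∀ Q ∈ M, Q.length = 2) ∧
        ∀ Q ∈ M, ∀ c d, EL Q c d → ∀ q ∈ p :: D, s(c, d) ≠ s(q.1, q.2) := by
  intro D
  induction D with
  | nil =>
    intro p _ _ hL
    exact ⟨p.2, [], rfl, rfl, hL p (by simp), by simp, by simp⟩
  | cons p1 D ih =>
    intro p hn hK hL
    rw [pf6_fl_cons] at hn hK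
    have n1 := List.nodup_cons.1 hn
    have n2 := List.nodup_cons.1 n1.2
    obtain ⟨b, M, m1, m2, m3, m4, m5⟩ := ih p1 n2.2
      (fun v hv => hK v (List.mem_cons_of_mem _ (List.mem_cons_of_mem _ hv)))
      (fun q hq => hL q (List.mem_cons_of_mem _ hq))
    have hp1 : p1.1 ∈ pf6_fl (p1 :: D) := by rw [pf6_fl_cons]; simp
    have hadj : G.Adj p.2 p1.1 := by
      refine hcl _ (hK _ (by simp)) _ (hK _ (by simp [hp1])) ?_
      intro he
      exact n2.1 (he ▸ hp1)
    have hMsub : ∀ Q ∈ M, ∀ v ∈ Q, v ∈ pf6_fl (p1 :: D) := by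
      intro Q hQ v hv
      rw [← m1]
      exact mem_RL.2 (Or.inr (Or.inl (List.mem_flatten.2 ⟨Q, hQ, hv⟩)))
    refine ⟨b, [p.2, p1.1] :: M, ?_, by simp [m2], ?_, ?_, ?_⟩
    · rw [pf6_fl_cons, ← m1]
      simp [RL]
    · exact ⟨p.2, p1.1, hL p (by simp), Ch.edge hadj, m3⟩
    · intro Q hQ
      rcases List.mem_cons.1 hQ with rfl | hQ
      · rfl
      · exact m4 Q hQ
    · intro Q hQ c d hcd q hq he
      rcases List.mem_cons.1 hQ with rfl | hQM
      · have hpair : s(c, d) = s(p.2, p1.1) := by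
          have h2 : ∀ a b : V, [a, b] <:+: [p.2, p1.1] → a = p.2 ∧ b = p1.1 := by
            intro a b hab
            have h3 := hab.eq_of_length (by simp)
            simp only [List.cons.injEq, and_true] at h3
            exact h3
          rcases hcd with h1 | h1
          · obtain ⟨h3, h4⟩ := h2 _ _ h1
            rw [h3, h4]
          · obtain ⟨h3, h4⟩ := h2 _ _ h1
            rw [h3, h4, Sym2.eq_swap]
        rw [hpair] at he
        rcases List.mem_cons.1 hq with rfl | hq
        · rcases Sym2.eq_iff.1 he with ⟨h1, -⟩ | ⟨-, h1⟩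
          · exact n1.1 (by rw [h1]; simp)
          · exact n1.1 (by rw [← h1]; simp [hp1])
        · have h3 := pf6_mem hq
          rcases Sym2.eq_iff.1 he with ⟨h1, -⟩ | ⟨h1, -⟩
          · exact n2.1 (h1 ▸ h3.1)
          · exact n2.1 (h1 ▸ h3.2)
      · rcases List.mem_cons.1 hq with rfl | hq
        · have hc := hMsub Q hQM c hcd.memL
          have hd := hMsub Q hQM d hcd.memR
          rcases Sym2.eq_iff.1 he with ⟨h1, -⟩ | ⟨-, h1⟩
          · exact n1.1 (List.mem_cons_of_mem _ (h1 ▸ hc))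
          · exact n1.1 (List.mem_cons_of_mem _ (h1 ▸ hd))
        · exact m5 Q hQM c d hcd q hq he

private theorem pf6_el {D : List (V × V)} {p : V × V} (h : p ∈ D) :
    EL (pf6_fl D) p.1 p.2 := by
  obtain ⟨X, Y, rfl⟩ := List.append_of_mem h
  left
  rw [pf6_fl_app, pf6_fl_cons]
  exact ⟨pf6_fl X, pf6_fl Y, by simp⟩

/-- in a clique: a path from `t` to `t'` through all edges of `L` on the second cycle, or (if `tt'` is
an edge of `L`) a path of segments through the other ones -/
theorem cn_ham (C : CI G L Ps Rs) (h2 : ∀ Q ∈ Rs, Q.length = 2) (hc2 : 2 ≤ Rs.length)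
    (hcl : ∀ t ∈ Rs.flatten, ∀ t' ∈ Rs.flatten, t ≠ t' → G.Adj t t') {t t' : V}
    (ht : t ∈ Rs.flatten) (ht' : t' ∈ Rs.flatten) (hne : t ≠ t') :
    (∃ F, Ch G t t' F ∧ F.Nodup ∧ (∀ v, v ∈ F ↔ v ∈ Rs.flatten) ∧
      ∀ c d, s(c, d) ∈ L → c ∈ Rs.flatten → EL F c d) ∨
    (s(t, t') ∈ L ∧ ∃ a b M, RP G L a b M ∧ M.length + 2 = Rs.length ∧
      (∀ v, v ∈ RL a b M ↔ v ∈ Rs.flatten ∧ v ≠ t ∧ v ≠ t') ∧ (∀ Q ∈ M, ∀ c d, s(c, d) ∈ L → ¬ EL Q c d) ∧
      ∀ c d, s(c, d) ∈ L → c ∈ Rs.flatten → s(c, d) ≠ s(t, t') → EL (RL a b M) c d) := by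
  obtain ⟨D, d1, d2, d3, d4, d5⟩ := pf6_cov C h2
  obtain ⟨m, D1, p1, p2, p3⟩ := pf6_pull ((d4 t).2 ht)
  have hn1 := p1.nodup_iff.1 d3
  have ht'1 : t' = m ∨ t' ∈ pf6_fl D1 := by
    have := p1.mem_iff.1 ((d4 t').2 ht')
    simp only [List.mem_cons] at this
    rcases this with h | h | h
    · exact absurd h.symm hne
    · exact Or.inl h
    · exact Or.inr h
  rcases ht'1 with rfl | ht'1
  · right
    have htL : s(t, t') ∈ L := by
      obtain ⟨p, hp, he⟩ := (p3 s(t, t')).2 (Or.inl rfl)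
      rw [he]
      exact d2 p hp
    refine ⟨htL, ?_⟩
    cases D1 with
    | nil => simp at p2; omega
    | cons q D1 =>
      have n1 := List.nodup_cons.1 hn1
      have n2 := List.nodup_cons.1 n1.2
      obtain ⟨b, M, m1, m2, m3, m4, m5⟩ := pf6_rp (G := G) (L := L)
        (K := fun v => v ∈ Rs.flatten) (fun t ht t' ht' h => hcl t ht t' ht' h) D1 q n2.2
        (fun v hv => (d4 v).1 (p1.mem_iff.2 (by simp [hv])))
        (fun q' hq' => by
          obtain ⟨p, hp, he⟩ := (p3 s(q'.1, q'.2)).2 (Or.inr ⟨q', hq', rfl⟩)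
          rw [he]
          exact d2 p hp)
      refine ⟨q.1, b, M, ⟨by rw [m1]; exact n2.2, fun Q hQ => by rw [m4 Q hQ], m3⟩, ?_, ?_, ?_, ?_⟩
      · rw [← d1, ← p2, m2]
        simp
      · intro v
        rw [m1, ← d4 v, p1.mem_iff]
        constructor
        · intro hv
          refine ⟨by simp [hv], ?_, ?_⟩
          · rintro rfl
            exact n1.1 (List.mem_cons_of_mem _ hv)
          · rintro rfl
            exact n2.1 hv
        · rintro ⟨hv, h3, h4⟩
          simp only [List.mem_cons] at hv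
          rcases hv with h | h | h
          · exact absurd h h3
          · exact absurd h h4
          · exact h
      · intro Q hQ c d hcd hel
        have hc : c ∈ pf6_fl (q :: D1) := by
          rw [← m1]
          exact mem_RL.2 (Or.inr (Or.inl (List.mem_flatten.2 ⟨Q, hQ, hel.memL⟩)))
        have hcR : c ∈ Rs.flatten := (d4 c).1 (p1.mem_iff.2 (by simp [hc]))
        rcases (p3 s(c, d)).1 (d5 c d hcd hcR) with he | ⟨p, hp, he⟩
        · rcases Sym2.eq_iff.1 he with ⟨h3, -⟩ | ⟨h3, -⟩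
          · exact n1.1 (List.mem_cons_of_mem _ (h3 ▸ hc))
          · exact n2.1 (h3 ▸ hc)
        · exact m5 Q hQ c d hel p hp he
      · intro c d hcd hc hne'
        rcases (p3 s(c, d)).1 (d5 c d hcd hc) with he | ⟨p, hp, he⟩
        · exact absurd he hne'
        · rw [m1]
          have h3 := pf6_el hp
          rcases Sym2.eq_iff.1 he with ⟨h4, h5⟩ | ⟨h4, h5⟩
          · rw [h4, h5]; exact h3
          · rw [h4, h5]; exact h3.symm
  · left
    obtain ⟨m', D2, q1, q2, q3⟩ := pf6_pull ht'1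
    set F : List V := t :: m :: (pf6_fl D2 ++ [m', t']) with hF
    have hperm : F.Perm (t :: m :: (t' :: m' :: pf6_fl D2)) := by
      rw [hF]
      refine List.Perm.cons _ (List.Perm.cons _ ?_)
      have h3 : (pf6_fl D2 ++ [m', t']).Perm ([m', t'] ++ pf6_fl D2) := List.perm_append_comm
      exact h3.trans (List.Perm.swap _ _ _)
    have hperm2 : (pf6_fl D).Perm F := (p1.trans ((q1.cons _).cons _)).trans hperm.symm
    have hFn : F.Nodup := hperm2.nodup_iff.1 d3
    have hFm : ∀ v, v ∈ F ↔ v ∈ Rs.flatten := fun v => by rw [← hperm2.mem_iff]; exact d4 v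
    refine ⟨F, ⟨rfl, ?_, ?_⟩, hFn, hFm, ?_⟩
    · have e : F = (t :: m :: (pf6_fl D2 ++ [m'])) ++ [t'] := by rw [hF]; simp
      rw [e, List.getLast?_append]
      rfl
    · exact pf6_chain (K := fun v => v ∈ Rs.flatten) (fun t ht t' ht' h => hcl t ht t' ht' h) F hFn
        (fun v hv => (hFm v).1 hv)
    · intro c d hcd hc
      have key : EL F t m ∧ EL F m' t' ∧ ∀ p ∈ D2, EL F p.1 p.2 := by
        refine ⟨Or.inl ⟨[], pf6_fl D2 ++ [m', t'], by rw [hF]; simp⟩,
          Or.inl ⟨t :: m :: pf6_fl D2, [], by rw [hF]; simp⟩, ?_⟩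
        intro p hp
        exact (pf6_el hp).mono ⟨[t, m], [m', t'], by rw [hF]; simp⟩
      rcases (p3 s(c, d)).1 (d5 c d hcd hc) with he | hex
      · rcases Sym2.eq_iff.1 he with ⟨h4, h5⟩ | ⟨h4, h5⟩
        · rw [h4, h5]; exact key.1
        · rw [h4, h5]; exact key.1.symm
      · rcases (q3 s(c, d)).1 hex with he | ⟨p, hp, he⟩
        · rcases Sym2.eq_iff.1 he with ⟨h4, h5⟩ | ⟨h4, h5⟩
          · rw [h4, h5]; exact key.2.1.symm
          · rw [h4, h5]; exact key.2.1
        · rcases Sym2.eq_iff.1 he with ⟨h4, h5⟩ | ⟨h4, h5⟩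
          · rw [h4, h5]; exact key.2.2 p hp
          · rw [h4, h5]; exact (key.2.2 p hp).symm

end Pool.Agent.LW
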