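import Pool.Agent.LW.PF5
import Pool.Agent.LW.PF6

set_option autoImplicit false

/-!
# Case I: exclusivity with real edges
-/

namespace Pool.Agent.LW

open SimpleGraph Classical

universe w

variable {V : Type w} {G H : SimpleGraph V} {L : Finset (Sym2 V)} {k : ℕ}
  {x y : V} {Ps Qs Rs Rest : List (List V)} {c : ℕ}

/-- the cycle without an arc, and the position of the edges of `L` -/
private theorem pf7_zp (S : Bs G L k) {N : List (List V)} {A M D : List V} {u u' : V}
    (C : LC G L x y ((A ++ u :: (M ++ u' :: D)) :: N) Rest) :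
    Ch G u' u ((u' :: D) ++ (N.flatten ++ (A ++ [u]))) ∧
    ((u' :: D) ++ (N.flatten ++ (A ++ [u]))).Nodup ∧
    (∀ v ∈ (u' :: D) ++ (N.flatten ++ (A ++ [u])),
      v ∈ ((A ++ u :: (M ++ u' :: D)) :: N).flatten) ∧
    ∀ c d, s(c, d) ∈ L → EL ((u' :: D) ++ (N.flatten ++ (A ++ [u]))) c d ∨
      EL (RL x y Rest) c d := by
  have hndA := List.nodup_append'.1 C.nd
  have hne : ∀ Q ∈ N, Q ≠ [] := by
    intro Q hQ h
    have := C.twoP Q (List.mem_cons_of_mem _ hQ)
    rw [h] at this
    simp at this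
  have hch : ((u' :: D) :: (N ++ [A ++ [u]])).IsChain (JL L) := by
    have h1 : ((A ++ u :: (M ++ u' :: D)) :: (N ++ [A ++ u :: (M ++ u' :: D)])).IsChain (JL L) :=
      C.jn
    refine chain_congr h1 ?_ ?_
    · rw [List.getLast?_append_of_ne_nil _ (by simp), ← List.cons_append,
        List.getLast?_append_of_ne_nil _ (by simp)]
    · cases A with
      | nil => simp
      | cons a A => simp
  have hflat : ((u' :: D) :: (N ++ [A ++ [u]])).flatten =
      (u' :: D) ++ (N.flatten ++ (A ++ [u])) := by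
    simp
  have hne' : ∀ Q ∈ (u' :: D) :: (N ++ [A ++ [u]]), Q ≠ [] := by
    intro Q hQ
    rcases List.mem_cons.1 hQ with hQ | hQ
    · rw [hQ]; simp
    · rcases List.mem_append.1 hQ with hQ | hQ
      · exact hne Q hQ
      · rw [List.mem_singleton.1 hQ]; simp
  have hP : (A ++ u :: (M ++ u' :: D)).IsChain G.Adj := C.ch _ (List.mem_cons_self)
  have hcs : ∀ Q ∈ (u' :: D) :: (N ++ [A ++ [u]]), Q.IsChain G.Adj := by
    intro Q hQ
    rcases List.mem_cons.1 hQ with hQ | hQ
    · rw [hQ]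
      refine chain_of_inf hP ?_
      exact ⟨A ++ u :: M, [], by simp⟩
    · rcases List.mem_append.1 hQ with hQ | hQ
      · exact C.ch Q (List.mem_cons_of_mem _ hQ)
      · rw [List.mem_singleton.1 hQ]
        refine chain_of_inf hP ?_
        exact ⟨[], M ++ u' :: D, by simp⟩
  have hnd : ((u' :: D) ++ (N.flatten ++ (A ++ [u]))).Nodup := by
    refine nodup_of_count hndA.1 ?_
    intro v
    simp only [List.flatten_cons, List.count_append, List.count_cons, List.count_nil]
    omega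
  refine ⟨⟨rfl, ?_, ?_⟩, hnd, ?_, ?_⟩
  · rw [List.getLast?_append_of_ne_nil _ (by simp), List.getLast?_append_of_ne_nil _ (by simp),
      List.getLast?_append_of_ne_nil _ (by simp)]
    rfl
  · rw [← hflat]
    exact hb2_flat_chain S.sub hch hcs hne'
  · intro v hv
    simp only [List.flatten_cons, List.mem_append, List.mem_cons, List.not_mem_nil,
      or_false] at hv ⊢
    tauto
  · intro p q hpq
    rw [← hflat] at hnd
    obtain ⟨E1, a1, a2, a3⟩ := hb2_junctions (by simp) hch hne' hnd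
    rw [hflat] at a3
    have hRL : ([x] :: (Rest ++ [[y]])).flatten = RL x y Rest := by
      simp [RL]
    have hch2 : ([x] :: (Rest ++ [[y]])).IsChain (JL L) := isChain_of_lk C.lk rfl rfl
    have hne2 : ∀ Q ∈ [x] :: (Rest ++ [[y]]), Q ≠ [] := by
      intro Q hQ
      rcases List.mem_cons.1 hQ with hQ | hQ
      · rw [hQ]; simp
      · rcases List.mem_append.1 hQ with hQ | hQ
        · intro h
          have := C.twoQ Q hQ
          rw [h] at this
          simp at this
        · rw [List.mem_singleton.1 hQ]; simp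
    obtain ⟨E2, b1, b2, b3⟩ := hb2_junctions (by simp) hch2 hne2 (by rw [hRL]; exact hndA.2.1)
    rw [hRL] at b3
    have hsub : ∀ v ∈ (u' :: D) ++ (N.flatten ++ (A ++ [u])),
        v ∈ ((A ++ u :: (M ++ u' :: D)) :: N).flatten := by
      intro v hv
      simp only [List.flatten_cons, List.mem_append, List.mem_cons, List.not_mem_nil,
        or_false] at hv ⊢
      tauto
    have hEn : (E1 ++ E2).Nodup := by
      rw [List.nodup_append']
      refine ⟨a1, b1, ?_⟩
      intro e he he'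
      obtain ⟨-, c1, d1, h1, h2⟩ := a3 e he
      obtain ⟨-, c2, d2, h3, h4⟩ := b3 e he'
      have h5 : c1 ∈ s(c2, d2) := by rw [← h3, h1]; simp
      have h6 : c1 ∈ RL x y Rest := by
        rcases Sym2.mem_iff.1 h5 with h7 | h7
        · rw [h7]; exact h4.subset (by simp)
        · rw [h7]; exact h4.subset (by simp)
      exact hndA.2.2 (hsub c1 (h2.subset (by simp))) h6
    have hEl : (E1 ++ E2).length = L.card := by
      have h1 := C.card
      simp only [List.length_cons, List.length_append, List.length_nil] at h1 a2 b2 ⊢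
      omega
    have hmem := hb2_all hEn (by
      intro e he
      rcases List.mem_append.1 he with he | he
      · exact (a3 e he).1
      · exact (b3 e he).1) hEl hpq
    rcases List.mem_append.1 hmem with he | he
    · obtain ⟨-, c1, d1, h1, h2⟩ := a3 _ he
      exact Or.inl (hb2_el h1 h2)
    · obtain ⟨-, c1, d1, h1, h2⟩ := b3 _ he
      exact Or.inr (hb2_el h1 h2)

/-- (K1) for all pairs, oriented -/
private theorem pf7_core [Fintype V] (S : Bs G L k) (hmin : MinC G L c) (hc2 : 2 ≤ c)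
    (hc : 2 * c ≤ k) (N : CN G L Ps Rs) (hR : Rs.length = c) {t t' : V} (ht : t ∈ Rs.flatten)
    (ht' : t' ∈ Rs.flatten) (hne : t ≠ t') {P : List V} (hP : P ∈ Ps) {u u' : V}
    (h : u ∈ Ex G (OC Ps Rs) Ps t) (h' : u' ∈ Ex G (OC Ps Rs) Ps t') (hb : Bf P u u') :
    False := by
  have hadj := cn_adj S hmin hc2 hc N hR ht
  have hadj' := cn_adj S hmin hc2 hc N hR ht'
  have hcl : ∀ t ∈ Rs.flatten, ∀ t' ∈ Rs.flatten, t ≠ t' → G.Adj t t' := by
    intro a ha b hb hab
    refine cn_adj S hmin hc2 hc N hR ha b ?_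
    unfold UT
    rw [Finset.mem_union, Finset.mem_erase, List.mem_toFinset]
    exact Or.inl ⟨hab.symm, hb⟩
  have htu : G.Adj t u := by
    refine hadj u ?_
    unfold UT
    rw [Finset.mem_union, mem_fs]
    exact Or.inr h
  have htu' : G.Adj t' u' := by
    refine hadj' u' ?_
    unfold UT
    rw [Finset.mem_union, mem_fs]
    exact Or.inr h'
  obtain ⟨y, x, Rest, hrot, -⟩ := N.ex ht
  have C0 := N.lc hrot
  obtain ⟨A, M, D, hPe⟩ := hb.split
  obtain ⟨Pre, Post, hPs⟩ := List.append_of_mem hP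
  subst hPe
  have C1 : LC G L x y ((A ++ u :: (M ++ u' :: D)) :: (Post ++ Pre)) Rest :=
    C0.rotR ⟨Pre, (A ++ u :: (M ++ u' :: D)) :: Post, hPs, rfl⟩
  obtain ⟨z1, z2, z3, z4⟩ := pf7_zp S C1
  generalize hZ : (u' :: D) ++ ((Post ++ Pre).flatten ++ (A ++ [u])) = Z at z1 z2 z3 z4
  have hZP : ∀ v ∈ Z, v ∈ Ps.flatten := by
    intro v hv
    have h1 := z3 v hv
    rw [hPs]
    simp only [List.flatten_append, List.flatten_cons, List.mem_append] at h1 ⊢
    tauto
  have hdis := (List.nodup_append'.1 N.ci.nd).2.2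
  have hRLR : ∀ v ∈ RL x y Rest, v ∈ Rs.flatten := by
    intro v hv
    have h1 : v ∈ ([y, x] :: Rest).flatten := by
      unfold RL at hv
      simp only [List.flatten_cons, List.mem_append, List.mem_cons, List.not_mem_nil,
        or_false] at hv ⊢
      tauto
    obtain ⟨Q, hQ, hvQ⟩ := List.mem_flatten.1 h1
    exact List.mem_flatten.2 ⟨Q, hrot.mem.2 hQ, hvQ⟩
  have hZ2 : 2 ≤ Z.length := by
    rw [← hZ]
    simp only [List.length_append, List.length_cons, List.length_nil]
    omega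
  rcases cn_ham N.ci N.two (by omega) hcl ht ht' hne with ⟨F, f1, f2, f3, f4⟩ | ⟨htt, a, b, Ms, g1, g2, g3, g4, g5⟩
  · have h1 : Ch G u' t' (Z ++ F) := z1.append f1 htu.symm
    have h2 : (Z ++ F).Nodup := by
      rw [List.nodup_append']
      exact ⟨z2, f2, fun v hv hv' => hdis (hZP v hv) ((f3 v).1 hv')⟩
    have hFl : 1 ≤ F.length := List.length_pos_iff.2 f1.ne
    have hLn : L.Nonempty := Finset.card_pos.1 (by rw [S.card]; have := S.k2; omega)
    obtain ⟨Ts, hTs⟩ := full_of_closed S.ind hLn h1 h2 htu' (by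
      rw [List.length_append]
      omega) (by
      intro p q hpq
      left
      rcases z4 p q hpq with h3 | h3
      · exact h3.mono (List.prefix_append _ _).isInfix
      · exact (f4 p q hpq (hRLR p h3.memL)).mono (List.suffix_append _ _).isInfix)
    exact S.no Ts hTs
  · have htt' : G.Adj t t' := hcl t ht t' ht' hne
    have hC : Cl G u' t' (Z ++ [t, t']) := by
      refine ⟨z1.append (Ch.edge htt') htu.symm, ?_, htu', ?_⟩
      · rw [List.nodup_append']
        refine ⟨z2, by simpa using hne, ?_⟩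
        intro v hv hv'
        refine hdis (hZP v hv) ?_
        simp only [List.mem_cons, List.not_mem_nil, or_false] at hv'
        rcases hv' with hv' | hv'
        · rw [hv']; exact ht
        · rw [hv']; exact ht'
      · rw [List.length_append]
        simp only [List.length_cons, List.length_nil]
        omega
    have htC : EL (Z ++ [t, t']) t t' := Or.inl ⟨Z, [], by simp⟩
    obtain ⟨Ps', p1, p2⟩ := lc_of_closed S.ind hC g1 g4 (by
      intro v hv hv'
      obtain ⟨g6, g7, g8⟩ := (g3 v).1 hv'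
      rcases List.mem_append.1 hv with hv | hv
      · exact hdis (hZP v hv) g6
      · simp only [List.mem_cons, List.not_mem_nil, or_false] at hv
        rcases hv with hv | hv
        · exact g7 hv
        · exact g8 hv) htt (Or.inl htC) (by
      intro p q hpq
      rcases z4 p q hpq with h3 | h3
      · exact Or.inl (Or.inl (h3.mono (List.prefix_append _ _).isInfix))
      · by_cases hpt : s(p, q) = s(t, t')
        · left
          left
          rcases Sym2.eq_iff.1 hpt with ⟨h4, h5⟩ | ⟨h4, h5⟩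
          · rw [h4, h5]; exact htC
          · rw [h4, h5]; exact htC.symm
        · exact Or.inr (g5 p q hpq (hRLR p h3.memL) hpt))
    have hbR : b ∈ Rs.flatten ∧ b ≠ t ∧ b ≠ t' := (g3 b).1 (by simp [RL])
    have hlk : Lkd G a b Ps' Ms := by
      refine ⟨t, p1.mem_iff.2 (by simp), Con.adj ?_⟩
      exact hcl b hbR.1 t ht hbR.2.1
    have := hmin a b Ps' Ms p2 hlk
    omega

/-- (K1) for all pairs -/
theorem cn_excl [Fintype V] (S : Bs G L k) (hmin : MinC G L c) (hc2 : 2 ≤ c) (hc : 2 * c ≤ k)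
    (N : CN G L Ps Rs) (hR : Rs.length = c) {t t' : V} (ht : t ∈ Rs.flatten)
    (ht' : t' ∈ Rs.flatten) (hne : t ≠ t') {P : List V} (hP : P ∈ Ps) {u u' : V} (hu : u ∈ P)
    (hu' : u' ∈ P) (h : u ∈ Ex G (OC Ps Rs) Ps t) (h' : u' ∈ Ex G (OC Ps Rs) Ps t') :
    u = u' := by
  by_contra hcon
  rcases Bf.total hu hu' hcon with hb | hb
  · exact pf7_core S hmin hc2 hc N hR ht ht' hne hP h h' hb
  · exact pf7_core S hmin hc2 hc N hR ht' ht hne.symm hP h' h hb

private theorem pf7_first {X : Set V} {P : List V} (h : ∃ v ∈ P, v ∈ X) :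
    ∃ A a D, P = A ++ a :: D ∧ a ∈ X ∧ ∀ v ∈ A, v ∉ X := by
  induction P with
  | nil => obtain ⟨v, hv, -⟩ := h; simp at hv
  | cons p P ih =>
    by_cases hp : p ∈ X
    · exact ⟨[], p, P, rfl, hp, by simp⟩
    · obtain ⟨v, hv, hX⟩ := h
      have hvP : v ∈ P := by
        rcases List.mem_cons.1 hv with rfl | hv
        · exact absurd hX hp
        · exact hv
      obtain ⟨A, a, D, hP, ha, hA⟩ := ih ⟨v, hvP, hX⟩
      refine ⟨p :: A, a, D, by rw [hP]; simp, ha, ?_⟩
      intro u hu
      rcases List.mem_cons.1 hu with rfl | hu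
      · exact hp
      · exact hA u hu

private theorem pf7_last {X : Set V} {P : List V} (h : ∃ v ∈ P, v ∈ X) :
    ∃ A a D, P = A ++ a :: D ∧ a ∈ X ∧ ∀ v ∈ D, v ∉ X := by
  obtain ⟨v, hv, hX⟩ := h
  obtain ⟨A, a, D, hP, ha, hA⟩ := pf7_first (X := X) (P := P.reverse) ⟨v, by simpa using hv, hX⟩
  refine ⟨D.reverse, a, A.reverse, ?_, ha, fun v hv => hA v (by simpa using hv)⟩
  have := congrArg List.reverse hP
  simpa using this

/-- first and last vertex of the closure on a segment -/
private theorem pf7_ext {O : Set V} {t : V} {P : List V} (hnd : Ps.flatten.Nodup) (hP : P ∈ Ps)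
    (h : ∃ v ∈ P, v ∈ Xg G O Ps t) :
    ∃ A a D A' a' D', P = A ++ a :: D ∧ P = A' ++ a' :: D' ∧ a ∈ Ex G O Ps t ∧
      a' ∈ Ex G O Ps t ∧ (∀ v ∈ A, v ∉ Xg G O Ps t) ∧ ∀ v ∈ D', v ∉ Xg G O Ps t := by
  obtain ⟨A, a, D, h1, h2, h3⟩ := pf7_first h
  obtain ⟨A', a', D', h4, h5, h6⟩ := pf7_last h
  have hPn := flat_nodup hnd hP
  refine ⟨A, a, D, A', a', D', h1, h4, ⟨h2, ?_⟩, ⟨h5, ?_⟩, h3, h6⟩
  · rintro ⟨-, Q, hQ, s, hs, s', hs', hb, hb'⟩
    have hQP : Q = P := flat_same hnd hQ hP hb.memR (by rw [h1]; simp)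
    subst hQP
    rw [h1] at hb hPn
    exact h3 s (hb.mem_left hPn) hs
  · rintro ⟨-, Q, hQ, s, hs, s', hs', hb, hb'⟩
    have hQP : Q = P := flat_same hnd hQ hP hb.memR (by rw [h4]; simp)
    subst hQP
    rw [h4] at hb' hPn
    exact h6 s' (hb'.mem_right hPn) hs'

/-- (K1) for the closures -/
theorem cn_exclX [Fintype V] (S : Bs G L k) (hmin : MinC G L c) (hc2 : 2 ≤ c) (hc : 2 * c ≤ k)
    (N : CN G L Ps Rs) (hR : Rs.length = c) {t t' : V} (ht : t ∈ Rs.flatten)
    (ht' : t' ∈ Rs.flatten) (hne : t ≠ t') {P : List V} (hP : P ∈ Ps) {u u' : V} (hu : u ∈ P)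
    (hu' : u' ∈ P) (h : u ∈ XT G Ps Rs t) (h' : u' ∈ XT G Ps Rs t') : u = u' := by
  have hnd := (List.nodup_append'.1 N.ci.nd).1
  have hPn := flat_nodup hnd hP
  obtain ⟨A, a, D, A', a', D', h1, h2, h3, h4, h5, h6⟩ := pf7_ext hnd hP ⟨u, hu, h⟩
  obtain ⟨B, b, E, B', b', E', g1, g2, g3, g4, g5, g6⟩ := pf7_ext hnd hP ⟨u', hu', h'⟩
  have ma : a ∈ P := by rw [h1]; simp
  have ma' : a' ∈ P := by rw [h2]; simp
  have mb : b ∈ P := by rw [g1]; simp
  have mb' : b' ∈ P := by rw [g2]; simp
  have e1 : a = b := cn_excl S hmin hc2 hc N hR ht ht' hne hP ma mb h3 g3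
  have e2 : a = b' := cn_excl S hmin hc2 hc N hR ht ht' hne hP ma mb' h3 g4
  have e3 : a' = b := cn_excl S hmin hc2 hc N hR ht ht' hne hP ma' mb h4 g3
  have key : ∀ {A D A' D' : List V} {a a' : V} {X : Set V}, P = A ++ a :: D → P = A' ++ a' :: D' →
      a' = a → (∀ v ∈ A, v ∉ X) → (∀ v ∈ D', v ∉ X) → ∀ v ∈ P, v ∈ X → v = a := by
    intro A D A' D' a a' X q1 q2 q3 q4 q5 v hv hX
    subst q3
    have q6 : A ++ a' :: D = A' ++ a' :: D' := by rw [← q1, ← q2]
    have q7 : a' ∉ A := by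
      intro hh
      rw [q1] at hPn
      exact (List.nodup_append'.1 hPn).2.2 hh (by simp)
    have q8 : a' ∉ A' := by
      intro hh
      rw [q2] at hPn
      exact (List.nodup_append'.1 hPn).2.2 hh (by simp)
    obtain ⟨q9, q10⟩ := split_unique q6 q7 q8
    rw [q1] at hv
    rcases List.mem_append.1 hv with hv | hv
    · exact absurd hX (q4 v hv)
    · rcases List.mem_cons.1 hv with hv | hv
      · exact hv
      · rw [q10] at hv
        exact absurd hX (q5 v hv)
  have hu1 : u = a := key h1 h2 (e3.trans e1.symm) h5 h6 u hu h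
  have hu2 : u' = b := key g1 g2 (e2.symm.trans e1) g5 g6 u' hu' h'
  rw [hu1, hu2, e1]

end Pool.Agent.LW
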