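import Pool.Agent.LW.PE0

set_option autoImplicit false

/-!
# Case I: counting
-/

namespace Pool.Agent.LW

open SimpleGraph Classical

universe w

variable {V : Type w} {G H : SimpleGraph V} {L : Finset (Sym2 V)} {k : ℕ}
  {x y : V} {Ps Qs Rs Rest : List (List V)} {c : ℕ}

private theorem pf8_list {β : Type w} (T : Finset V) (f : V → β → ℕ) {c : ℕ}
    (hT : T.card = 2 * c) (l : List β) (h2 : ∀ t ∈ T, ∀ i ∈ l, f t i ≤ 2)
    (hex : ∀ t ∈ T, ∀ t' ∈ T, t ≠ t' → ∀ i ∈ l, f t i ≠ 0 → f t' i ≠ 0 → f t i = 1) :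
    ∑ t ∈ T, (l.map (f t)).sum +
        2 * c * (l.filter (fun i => ∃ t ∈ T, f t i ≠ 0 ∧ ∀ t' ∈ T, t' ≠ t → f t' i = 0)).length ≤
      2 * (l.filter (fun i => ∃ t ∈ T, f t i ≠ 0 ∧ ∀ t' ∈ T, t' ≠ t → f t' i = 0)).length +
        2 * c * l.length := by
  induction l with
  | nil => simp
  | cons a l ih =>
    have h3 := ih (fun t ht i hi => h2 t ht i (List.mem_cons_of_mem _ hi))
      (fun t ht t' ht' hne i hi => hex t ht t' ht' hne i (List.mem_cons_of_mem _ hi))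
    have hsum : ∑ t ∈ T, ((a :: l).map (f t)).sum =
        ∑ t ∈ T, f t a + ∑ t ∈ T, (l.map (f t)).sum := by
      rw [← Finset.sum_add_distrib]
      refine Finset.sum_congr rfl fun t _ => ?_
      rw [List.map_cons, List.sum_cons]
    rw [hsum]
    by_cases hP : ∃ t ∈ T, f t a ≠ 0 ∧ ∀ t' ∈ T, t' ≠ t → f t' a = 0
    · rw [List.filter_cons_of_pos (by exact decide_eq_true hP), List.length_cons, List.length_cons]
      obtain ⟨t, ht, -, h0⟩ := hP
      have h4 : ∑ t ∈ T, f t a ≤ 2 := by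
        rw [Finset.sum_eq_single_of_mem t ht h0]
        exact h2 t ht a List.mem_cons_self
      nlinarith [h3, h4]
    · rw [List.filter_cons_of_neg (by
        rw [decide_eq_true_eq]
        exact hP), List.length_cons]
      have h4 : ∑ t ∈ T, f t a ≤ 2 * c := by
        rw [← hT, Finset.card_eq_sum_ones]
        refine Finset.sum_le_sum fun t ht => ?_
        by_cases h0 : f t a = 0
        · omega
        · have h5 : ¬ ∀ t' ∈ T, t' ≠ t → f t' a = 0 := fun h => hP ⟨t, ht, h0, h⟩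
          push Not at h5
          obtain ⟨t', ht', hne, h6⟩ := h5
          exact (hex t ht t' ht' (Ne.symm hne) a List.mem_cons_self h0 h6).le
      nlinarith [h3, h4]

/-- the abstract count: `m = 2c` gates, `n` segments -/
theorem cn_abs {β : Type w} (T : Finset V) (Is : List β) (f : V → β → ℕ) {c : ℕ} (hc2 : 2 ≤ c)
    (hc : c ≤ Is.length) (hT : T.card = 2 * c) (h2 : ∀ t ∈ T, ∀ i ∈ Is, f t i ≤ 2)
    (hex : ∀ t ∈ T, ∀ t' ∈ T, t ≠ t' → ∀ i ∈ Is, f t i ≠ 0 → f t' i ≠ 0 → f t i = 1)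
    (hs : ∀ t ∈ T, Is.length + 1 = c + (Is.map (f t)).sum) :
    (Is.filter (fun i => ∃ t ∈ T, f t i ≠ 0 ∧ ∀ t' ∈ T, t' ≠ t → f t' i = 0)).length ≤ c := by
  have h := pf8_list T f hT Is h2 hex
  set p := (Is.filter (fun i => ∃ t ∈ T, f t i ≠ 0 ∧ ∀ t' ∈ T, t' ≠ t → f t' i = 0)).length with hp
  have hsum : ∑ t ∈ T, (Is.map (f t)).sum + 2 * c * c = 2 * c * (Is.length + 1) := by
    have h3 : ∑ t ∈ T, (Is.length + 1) = ∑ t ∈ T, (c + (Is.map (f t)).sum) :=
      Finset.sum_congr rfl hs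
    rw [Finset.sum_const, Finset.sum_add_distrib (f := fun _ => c), Finset.sum_const, hT,
      smul_eq_mul, smul_eq_mul] at h3
    linarith
  by_contra hcon
  push Not at hcon
  obtain ⟨e, he⟩ : ∃ e, c = e + 2 := ⟨c - 2, by omega⟩
  obtain ⟨r, hr⟩ : ∃ r, p = c + 1 + r := ⟨p - (c + 1), by omega⟩
  rw [hr, he] at h
  rw [he] at hsum
  nlinarith [h, hsum]

end Pool.Agent.LW
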