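import Pool.Agent.LW.PF7
import Pool.Agent.LW.PF8

set_option autoImplicit false

/-!
# Case I, second half: contradiction
-/

namespace Pool.Agent.LW

open SimpleGraph Classical

universe w

variable {V : Type w} {G H : SimpleGraph V} {L : Finset (Sym2 V)} {k : ℕ}
  {x y : V} {Ps Qs Rs Rest : List (List V)} {c : ℕ}

private theorem pf9_fx {X : Set V} {P : List V} {v : V} (hv : v ∈ P) (hX : v ∈ X) :
    fx X P ≠ 0 := fun h => fx_zero h v hv hX

private theorem pf9_ex {X : Set V} {P : List V} (h : fx X P ≠ 0) : ∃ v ∈ P, v ∈ X := by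
  by_contra hcon
  push Not at hcon
  apply h
  unfold fx
  have h1 : P.filter (fun v => v ∈ X) = [] := by
    rw [List.filter_eq_nil_iff]
    intro v hv
    simpa using hcon v hv
  rw [h1]
  rfl

private theorem pf9_one {X : Set V} {P : List V} {u : V} (hnd : P.Nodup)
    (h : ∀ v ∈ P, v ∈ X → v = u) : fx X P ≤ 1 := by
  unfold fx
  refine (min_le_right _ _).trans ?_
  have h1 : List.Subperm (P.filter (fun v => v ∈ X)) [u] := by
    refine List.subperm_of_subset (hnd.filter _) ?_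
    intro v hv
    rw [List.mem_filter] at hv
    rw [List.mem_singleton]
    exact h v hv.1 (by simpa using hv.2)
  simpa using h1.length_le

private theorem pf9_cnt {α : Type w} (p q : α → Prop) (l : List α)
    (h : ∀ a ∈ l, p a → ¬ q a) :
    (l.filter (fun a => p a)).length + (l.filter (fun a => q a)).length ≤ l.length := by
  induction l with
  | nil => simp
  | cons a l ih =>
    have ih' := ih fun b hb => h b (List.mem_cons_of_mem _ hb)
    have ha := h a List.mem_cons_self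
    by_cases hp : p a
    · have hq := ha hp
      rw [List.filter_cons_of_pos (by simpa using hp), List.filter_cons_of_neg (by simpa using hq),
        List.length_cons, List.length_cons]
      omega
    · by_cases hq : q a
      · rw [List.filter_cons_of_neg (by simpa using hp), List.filter_cons_of_pos (by simpa using hq),
          List.length_cons, List.length_cons]
        omega
      · rw [List.filter_cons_of_neg (by simpa using hp), List.filter_cons_of_neg (by simpa using hq),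
          List.length_cons]
        omega

private theorem pf9_len {l : List (List V)} (h : ∀ Q ∈ l, Q.length = 2) :
    l.flatten.length = 2 * l.length := by
  induction l with
  | nil => simp
  | cons a l ih =>
    rw [List.flatten_cons, List.length_append, List.length_cons, h a List.mem_cons_self,
      ih fun Q hQ => h Q (List.mem_cons_of_mem _ hQ)]
    ring

/-- there is no such pair of cycles -/
theorem cn_false [Fintype V] (S : Bs G L k) (hmin : MinC G L c) (hc2 : 2 ≤ c) (hc : 2 * c ≤ k)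
    (N : CN G L Ps Rs) (hR : Rs.length = c) : False := by
  have hcard := N.card S
  have hnd := List.nodup_append.1 N.ci.nd
  obtain ⟨ndP, ndR, hdis⟩ := hnd
  have hPR : ∀ v ∈ Ps.flatten, v ∉ Rs.flatten := fun v hv hv' => hdis v hv v hv' rfl
  set T : Finset V := Rs.flatten.toFinset with hT
  have memT : ∀ {t : V}, t ∈ T ↔ t ∈ Rs.flatten := by
    intro t
    rw [hT, List.mem_toFinset]
  have cardT : T.card = 2 * c := by
    rw [hT, List.toFinset_card_of_nodup ndR, pf9_len N.two, hR]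
  set f : V → List V → ℕ := fun t P => fx (XT G Ps Rs t) P with hf
  have hexX : ∀ t ∈ T, ∀ t' ∈ T, t ≠ t' → ∀ P ∈ Ps, ∀ u ∈ P, ∀ u' ∈ P, u ∈ XT G Ps Rs t →
      u' ∈ XT G Ps Rs t' → u = u' := fun t ht t' ht' hne P hP u hu u' hu' h h' =>
    cn_exclX S hmin hc2 hc N hR (memT.1 ht) (memT.1 ht') hne hP hu hu' h h'
  have hex : ∀ t ∈ T, ∀ t' ∈ T, t ≠ t' → ∀ P ∈ Ps, f t P ≠ 0 → f t' P ≠ 0 → f t P = 1 := by
    intro t ht t' ht' hne P hP h h'
    obtain ⟨u', hu', hX'⟩ := pf9_ex h'
    have h1 : f t P ≤ 1 := pf9_one (u := u') (flat_nodup ndP hP) fun v hv hX =>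
      hexX t ht t' ht' hne P hP v hv u' hu' hX hX'
    omega
  have habs := cn_abs T Ps f hc2 (by omega) cardT (fun t _ P _ => fx_le _ _) hex
    (fun t ht => cn_eq S hmin hc2 hc N hR (memT.1 ht))
  -- private and shared segments
  set pr : List V → Prop := fun P => ∃ t ∈ T, f t P ≠ 0 ∧ ∀ t' ∈ T, t' ≠ t → f t' P = 0 with hpr
  set sh : List V → Prop := fun P => ∃ t ∈ T, ∃ t' ∈ T, t ≠ t' ∧ f t P ≠ 0 ∧ f t' P ≠ 0 with hsh
  have hps : (Ps.filter (fun P => pr P)).length + (Ps.filter (fun P => sh P)).length ≤ Ps.length := by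
    have hq := pf9_cnt pr sh Ps ?_
    · convert hq
    rintro P - ⟨t, ht, h1, h2⟩ ⟨t1, ht1, t2, ht2, hne, h3, h4⟩
    by_cases h5 : t1 = t
    · exact h4 (h2 t2 ht2 fun h6 => hne (h5.trans h6.symm))
    · exact h3 (h2 t1 ht1 h5)
  have hprc : (Ps.filter (fun P => pr P)).length ≤ c := by convert habs
  -- the private gates
  set Pg : Finset V := T.filter (fun t => ∃ P ∈ Ps, f t P ≠ 0 ∧ ∀ t' ∈ T, t' ≠ t → f t' P = 0)
    with hPg
  have cardPg : Pg.card ≤ (Ps.filter (fun P => pr P)).length := by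
    have hch : ∀ t, ∃ P, t ∈ Pg → P ∈ Ps ∧ f t P ≠ 0 ∧ ∀ t' ∈ T, t' ≠ t → f t' P = 0 := by
      intro t
      by_cases h : t ∈ Pg
      · obtain ⟨P, hP⟩ := (Finset.mem_filter.1 h).2
        exact ⟨P, fun _ => hP⟩
      · exact ⟨[], fun h' => absurd h' h⟩
    choose φ hφ using hch
    refine le_trans ?_ (List.toFinset_card_le _)
    refine Finset.card_le_card_of_injOn φ ?_ ?_
    · intro t ht
      obtain ⟨h1, h2, h3⟩ := hφ t ht
      rw [Finset.mem_coe, List.mem_toFinset, List.mem_filter]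
      exact ⟨h1, by simpa using (⟨t, (Finset.mem_filter.1 ht).1, h2, h3⟩ : pr (φ t))⟩
    · intro t ht t' ht' he
      by_contra hne
      obtain ⟨h1, h2, h3⟩ := hφ t ht
      obtain ⟨h1', h2', h3'⟩ := hφ t' ht'
      apply h2'
      rw [← he]
      exact h3 t' (Finset.mem_filter.1 ht').1 (Ne.symm hne)
  -- the centres of the shared segments
  set U2 : Finset V := Finset.univ.filter (fun w => ∃ P ∈ Ps, w ∈ P ∧ ∃ t ∈ T, ∃ t' ∈ T, t ≠ t' ∧
    w ∈ XT G Ps Rs t ∧ f t' P ≠ 0) with hU2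
  have hcen : ∀ P ∈ Ps, ∀ w ∈ P, ∀ w' ∈ P, ∀ t ∈ T, ∀ t' ∈ T, t ≠ t' → w ∈ XT G Ps Rs t →
      f t' P ≠ 0 → ∀ t1 ∈ T, w' ∈ XT G Ps Rs t1 → w = w' := by
    intro P hP w hw w' hw' t ht t' ht' hne hX hf' t1 ht1 hX1
    obtain ⟨u', hu', hX'⟩ := pf9_ex hf'
    have h1 := hexX t ht t' ht' hne P hP w hw u' hu' hX hX'
    rw [← h1] at hX'
    by_cases h2 : t1 = t
    · exact hexX t' ht' t1 ht1 (fun h3 => hne (by rw [h3, h2])) P hP w hw w' hw' hX' hX1
    · exact hexX t ht t1 ht1 (Ne.symm h2) P hP w hw w' hw' hX hX1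
  have memU2 : ∀ {w : V}, w ∈ U2 → ∃ P ∈ Ps, w ∈ P ∧ ∃ t ∈ T, ∃ t' ∈ T, t ≠ t' ∧
      w ∈ XT G Ps Rs t ∧ f t' P ≠ 0 := fun hw => (Finset.mem_filter.1 hw).2
  have cardU2 : U2.card ≤ (Ps.filter (fun P => sh P)).length := by
    have hch : ∀ w, ∃ P, w ∈ U2 → P ∈ Ps ∧ w ∈ P ∧ ∃ t ∈ T, ∃ t' ∈ T, t ≠ t' ∧
        w ∈ XT G Ps Rs t ∧ f t' P ≠ 0 := by
      intro w
      by_cases h : w ∈ U2
      · obtain ⟨P, hP⟩ := memU2 h
        exact ⟨P, fun _ => hP⟩
      · exact ⟨[], fun h' => absurd h' h⟩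
    choose φ hφ using hch
    refine le_trans ?_ (List.toFinset_card_le _)
    refine Finset.card_le_card_of_injOn φ ?_ ?_
    · intro w hw
      obtain ⟨h1, h2, t, ht, t', ht', hne, hX, hf'⟩ := hφ w hw
      rw [Finset.mem_coe, List.mem_toFinset, List.mem_filter]
      exact ⟨h1, by simpa using (⟨t, ht, t', ht', hne, pf9_fx h2 hX, hf'⟩ : sh (φ w))⟩
    · intro w hw w' hw' he
      obtain ⟨h1, h2, t, ht, t', ht', hne, hX, hf'⟩ := hφ w hw
      obtain ⟨h1', h2', t1, ht1, t1', ht1', hne1, hX1, hf1'⟩ := hφ w' hw'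
      rw [← he] at h2'
      exact hcen (φ w) h1 w h2 w' h2' t ht t' ht' hne hX hf' t1 ht1 hX1
  -- a free gate
  obtain ⟨t0, ht0T, ht0P⟩ : ∃ t ∈ T, t ∉ Pg := by
    by_contra hcon
    push Not at hcon
    have := Finset.card_le_card (show T ⊆ Pg from fun t ht => hcon t ht)
    omega
  -- the separation
  have hOC : ∀ v, v ∈ OC Ps Rs → v ∉ Ps.flatten ∧ v ∉ Rs.flatten := fun v hv => hv
  set A : Set V := {v | ∃ t ∈ T, t ∉ Pg ∧ (v = t ∨ v ∈ Att G (OC Ps Rs) t)} with hA
  have hZU : ∃ z ∈ Ps.flatten, z ∉ U2 := by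
    have hne : Ps ≠ [] := N.ci.jnP.ne
    obtain ⟨P, hP⟩ := List.exists_mem_of_ne_nil _ hne
    have h2 := N.ci.twoP P hP
    have hndP := flat_nodup ndP hP
    by_contra hcon
    push Not at hcon
    obtain ⟨u, v, rest, rfl⟩ : ∃ u v rest, P = u :: v :: rest := by
      match P, h2 with
      | u :: v :: rest, _ => exact ⟨u, v, rest, rfl⟩
    have hu : u ∈ Ps.flatten := List.mem_flatten.2 ⟨_, hP, List.mem_cons_self⟩
    have hv : v ∈ Ps.flatten := List.mem_flatten.2
      ⟨_, hP, List.mem_cons_of_mem _ List.mem_cons_self⟩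
    obtain ⟨P1, hP1, hu1, t, ht, t', ht', hne, hX, hf'⟩ := memU2 (hcon u hu)
    obtain ⟨P2, hP2, hv2, t1, ht1, t1', ht1', hne1, hX1, hf1'⟩ := memU2 (hcon v hv)
    have e1 : P1 = u :: v :: rest := flat_same ndP hP1 hP hu1 List.mem_cons_self
    have e2 : P2 = u :: v :: rest := flat_same ndP hP2 hP hv2
      (List.mem_cons_of_mem _ List.mem_cons_self)
    subst e1
    have h3 := hcen _ hP1 u hu1 v (List.mem_cons_of_mem _ List.mem_cons_self) t ht t' ht' hne hX
      hf' t1 ht1 hX1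
    rw [h3] at hndP
    exact (List.nodup_cons.1 hndP).1 List.mem_cons_self
  obtain ⟨z, hzP, hzU⟩ := hZU
  have hk : k ≤ (Pg ∪ U2).card := by
    refine sep_card S (A := A) (a := t0) (z := z) ⟨t0, ht0T, ht0P, Or.inl rfl⟩ ?_ ?_ ?_ ?_
    · rw [Finset.mem_union, not_or]
      refine ⟨ht0P, fun h => ?_⟩
      obtain ⟨P, hP, hw, -⟩ := memU2 h
      exact hPR t0 (List.mem_flatten.2 ⟨P, hP, hw⟩) (memT.1 ht0T)
    · rintro a ⟨t, ht, htP, hat⟩ w haw
      by_cases hwO : w ∈ OC Ps Rs
      · left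
        refine ⟨t, ht, htP, Or.inr ?_⟩
        rcases hat with rfl | hat
        · exact att_of_adj haw hwO
        · exact att_step hat haw hwO
      by_cases hwR : w ∈ Rs.flatten
      · by_cases hwP : w ∈ Pg
        · right
          exact Finset.mem_union_left _ hwP
        · left
          exact ⟨w, memT.2 hwR, hwP, Or.inl rfl⟩
      · right
        have hwZ : w ∈ Ps.flatten := by
          by_contra hwZ
          exact hwO ⟨hwZ, hwR⟩
        obtain ⟨P, hP, hwP⟩ := List.mem_flatten.1 hwZ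
        have hcon : Con G (OC Ps Rs) t w := by
          rcases hat with rfl | hat
          · exact Or.inl haw
          · exact Or.inr ⟨a, hat, haw⟩
        have hX : w ∈ XT G Ps Rs t := Xg_zero hwZ hcon
        have hft : f t P ≠ 0 := pf9_fx hwP hX
        obtain ⟨t', ht', hne, hf'⟩ : ∃ t' ∈ T, t' ≠ t ∧ f t' P ≠ 0 := by
          by_contra hno
          push Not at hno
          exact htP (Finset.mem_filter.2 ⟨ht, P, hP, hft, hno⟩)
        refine Finset.mem_union_right _ (Finset.mem_filter.2 ⟨Finset.mem_univ _, P, hP, hwP, t, ht,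
          t', ht', Ne.symm hne, hX, hf'⟩)
    · rintro ⟨t, ht, -, hz⟩
      rcases hz with rfl | hz
      · exact hPR z hzP (memT.1 ht)
      · exact (hOC z (att_mem hz)).1 hzP
    · rw [Finset.mem_union, not_or]
      refine ⟨fun h => ?_, hzU⟩
      exact hPR z hzP (memT.1 (Finset.mem_filter.1 h).1)
  have h1 := Finset.card_union_le Pg U2
  omega

end Pool.Agent.LW
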