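import Pool.Agent.LW.PH20

set_option autoImplicit false

/-!
# Case I, first half
-/

namespace Pool.Agent.LW

open SimpleGraph Classical

universe w

variable {V : Type} {G H : SimpleGraph V} {L : Finset (Sym2 V)} {k : ℕ}
  {x y : V} {Ps Qs Rs Rest : List (List V)} {c : ℕ}

private theorem ph21_att {O O' : Set V} (h : O ⊆ O') {u o : V} (ho : o ∈ Att G O u) :
    o ∈ Att G O' u := by
  obtain ⟨a, h1, F, hF, hO⟩ := ho
  exact ⟨a, h1, F, hF, fun v hv => h (hO v hv)⟩

/-- the first half of Case I -/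
theorem exists_cn [Fintype V] (S : Bs G L k) (hmin : MinC G L c) (hc2 : 2 ≤ c) (hc : 2 * c ≤ k)
    (C : CI G L Ps Rs) (hR : Rs.length = c) : ∃ Ps' Rs', CN G L Ps' Rs' ∧ Rs'.length = c := by
  have hex : ∃ m, ∃ Ps' Rs' : List (List V), CI G L Ps' Rs' ∧ Rs'.length = c ∧
      (WR G Ps' Rs').ncard = m := ⟨_, Ps, Rs, C, hR, rfl⟩
  obtain ⟨Ps', Rs', C', hR', hm⟩ := Nat.find_spec hex
  have hW : MinW G L c Ps' Rs' := by
    intro Ps'' Rs'' C'' hR''
    rw [hm]
    exact Nat.find_min' hex ⟨Ps'', Rs'', C'', hR'', rfl⟩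
  have hno : ∀ d, ¬ Mx G Ps' Rs' d := fun d => ci_i5 S hmin hc2 hc C' hR' hW
  have hnd : Rs'.flatten.Nodup := (List.nodup_append'.1 C'.nd).2.1
  refine ⟨Ps', Rs', ⟨C', ?_, ?_⟩, hR'⟩
  · intro Q hQ
    have h2 := C'.twoR Q hQ
    by_contra hne
    match Q, hQ, h2, hne with
    | [], _, h2, _ => simp at h2
    | [a], _, h2, _ => simp at h2
    | [a, b], _, _, hne => exact hne rfl
    | a :: b :: e :: D, hQ, _, _ =>
      have hn : (a :: b :: e :: D).Nodup := flat_nodup hnd hQ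
      have hb : b ∈ Rs'.flatten := List.mem_flatten.2 ⟨_, hQ, by simp⟩
      refine hno b (r_mixed C' hb ?_)
      rintro (⟨Q', hQ', h3⟩ | ⟨Q', hQ', h3⟩)
      · have h4 : Q' = a :: b :: e :: D :=
          flat_same hnd hQ' hQ (List.mem_of_head? h3) (by simp)
        rw [h4] at h3
        simp only [List.head?_cons, Option.some.injEq] at h3
        rw [h3] at hn
        simp at hn
      · have h4 : Q' = a :: b :: e :: D :=
          flat_same hnd hQ' hQ (List.mem_of_getLast? h3) (by simp)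
        rw [h4, List.getLast?_cons_cons, List.getLast?_cons_cons] at h3
        have h5 := List.mem_of_getLast? h3
        have h6 := (List.nodup_cons.1 (List.nodup_cons.1 hn).2).1
        exact h6 h5
  · intro h hh l hl o ho ho'
    have hsub : OC Ps' Rs' ⊆ OM Ps' Rs' := fun v hv => ⟨hv.1, fun h => hv.2 (TR_sub h)⟩
    exact hno o ⟨⟨h, hh, ph21_att hsub ho⟩, ⟨l, hl, ph21_att hsub ho'⟩⟩

end Pool.Agent.LW
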