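import Pool.Agent.LW.PF9
import Pool.Agent.LW.PH21

set_option autoImplicit false

/-!
# Case I
-/

namespace Pool.Agent.LW

open SimpleGraph Classical

universe w

variable {V : Type} {G H : SimpleGraph V} {L : Finset (Sym2 V)} {k : ℕ}
  {x y : V} {Ps Qs Rs Rest : List (List V)} {c : ℕ}

/-- Case I -/
theorem caseI [Fintype V] (S : Bs G L k) {c : ℕ} (hmin : MinC G L c) (hc2 : 2 ≤ c)
    (hc : 2 * c ≤ k) (C : CI G L Ps Rs) (hR : Rs.length = c) : False := by
  obtain ⟨Ps', Rs', N, hR'⟩ := exists_cn S hmin hc2 hc C hR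
  exact cn_false S hmin hc2 hc N hR'

end Pool.Agent.LW
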