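import Pool.Agent.LW.PF99
import Pool.Agent.LW.PD5
import Pool.Agent.LW.PD4
import Pool.Agent.LW.PD7

set_option autoImplicit false

/-!
# Part 2: a configuration exists
-/

namespace Pool.Agent.LW

open SimpleGraph Classical

universe w

variable {V : Type} {G H : SimpleGraph V} {L : Finset (Sym2 V)} {k : ℕ}
  {x y : V} {Ps Qs Rs : List (List V)}

/-- Part 2: a configuration exists -/
theorem exists_cfg [Fintype V] (S : Bs G L k) : ∃ x y Ps, Cfg G L x y Ps := by
  obtain ⟨x0, y0, Q0, T⟩ := exists_tp S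
  obtain ⟨x1, y1, P1, Q1, C1, K1⟩ := exists_lc S T
  have hex : ∃ c, ∃ x y Ps Qs, LC G L x y Ps Qs ∧ Lkd G x y Ps Qs ∧ Qs.length + 1 = c :=
    ⟨_, x1, y1, P1, Q1, C1, K1, rfl⟩
  obtain ⟨x, y, Ps, Qs, C, hk, hc⟩ := Nat.find_spec hex
  have hmin : MinC G L (Nat.find hex) := by
    intro x' y' Ps' Qs' C' K'
    exact Nat.find_min' hex ⟨x', y', Ps', Qs', C', K', rfl⟩
  generalize Nat.find hex = c at hc hmin
  subst hc
  have hn : 1 ≤ Ps.length := by
    cases Ps with
    | nil => exact absurd C.jn (fun h => h)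
    | cons P Ps => simp
  have hcard := C.card
  have hLk := S.card
  cases Qs with
  | nil =>
    have hxy : s(x, y) ∈ L := C.lk
    refine ⟨x, y, Ps, (List.nodup_append'.1 C.nd).1, C.ch, C.twoP, C.jn, hxy, ?_, ?_, ?_, C.len⟩
    · intro h
      exact (List.nodup_append'.1 C.nd).2.2 h (by simp [RL])
    · intro h
      exact (List.nodup_append'.1 C.nd).2.2 h (by simp [RL])
    · simp only [List.length_nil] at hcard; omega
  | cons Q Qs =>
    exfalso
    have h2 := tp_half S hmin (by omega) T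
    obtain ⟨a, b, D, hD, hZ, hL⟩ := caseII S hmin C hk h2 (by simp)
    obtain ⟨Rs, CR, hR, -⟩ := ci_of_lc S.ind C hD hZ hL
    exact caseI S hmin (by simp) h2 CR hR

end Pool.Agent.LW
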