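import Pool.Agent.LW.PF1
import Pool.Agent.LW.PE5
import Pool.Agent.LW.PE11
import Pool.Agent.LW.PB2

set_option autoImplicit false

/-!
# Case I, first half: definitions
-/

namespace Pool.Agent.LW

open SimpleGraph Classical

universe w

variable {V : Type w} {G H : SimpleGraph V} {L : Finset (Sym2 V)} {k : ℕ}
  {x y : V} {Ps Qs Rs Rest : List (List V)} {c : ℕ}

/-- the vertices off the first cycle -/
def OZ (Ps : List (List V)) : Set V := {v | v ∉ Ps.flatten}

/-- the ends of the edges of `L` on the second cycle -/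
def TR (Rs : List (List V)) : Set V := {v | v ∈ HR Rs ∨ v ∈ LR Rs}

/-- the vertices off the first cycle that are no ends of edges of `L` on the second one -/
def OM (Ps Rs : List (List V)) : Set V := {v | v ∉ Ps.flatten ∧ v ∉ TR Rs}

/-- the component of the second cycle in the complement of the first one -/
def WR (G : SimpleGraph V) (Ps Rs : List (List V)) : Set V :=
  {v | ∃ r ∈ Rs.flatten, Rch G (OZ Ps) r v}

/-- `d` is mixed: its component off both cycles' ends is attached to a first and to a last vertex -/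
def Mx (G : SimpleGraph V) (Ps Rs : List (List V)) (d : V) : Prop :=
  (∃ h ∈ HR Rs, d ∈ Att G (OM Ps Rs) h) ∧ ∃ l ∈ LR Rs, d ∈ Att G (OM Ps Rs) l

/-- the component of the second cycle is as small as possible -/
def MinW (G : SimpleGraph V) (L : Finset (Sym2 V)) (c : ℕ) (Ps Rs : List (List V)) : Prop :=
  ∀ Ps' Rs', CI G L Ps' Rs' → Rs'.length = c → (WR G Ps Rs).ncard ≤ (WR G Ps' Rs').ncard

/-- `P` is attached to the component of `d` -/
def AtP (G : SimpleGraph V) (Ps Rs : List (List V)) (d : V) (P : List V) : Prop :=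
  ∃ z ∈ P, d ∈ Att G (OM Ps Rs) z

theorem TR_mem {v : V} : v ∈ TR Rs ↔ v ∈ HR Rs ∨ v ∈ LR Rs := Iff.rfl

end Pool.Agent.LW
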