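import Pool.Agent.LW.PH0

set_option autoImplicit false

/-!
# Case I, first half: basic facts
-/

namespace Pool.Agent.LW

open SimpleGraph Classical

universe w

variable {V : Type w} {G H : SimpleGraph V} {L : Finset (Sym2 V)} {k : ℕ}
  {x y : V} {Ps Qs Rs Rest : List (List V)} {c : ℕ}

/-! ## auxiliary facts -/

private theorem ph1_perm {Ps Rs : List (List V)} (h : Rot Ps Rs) :
    Ps.flatten.Perm Rs.flatten := by
  obtain ⟨A, D, h1, h2⟩ := h
  rw [h1, h2]
  exact flatten_append_comm_perm A D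

private theorem ph1_length {Ps Rs : List (List V)} (h : Rot Ps Rs) :
    Ps.length = Rs.length := by
  obtain ⟨A, D, h1, h2⟩ := h
  rw [h1, h2, List.length_append, List.length_append, add_comm]

private theorem ph1_cyc {Ps Rs : List (List V)} (h : Rot Ps Rs) (hc : CycR (JL L) Ps) :
    CycR (JL L) Rs := by
  obtain ⟨A, D, h1, h2⟩ := h
  rw [h2]
  rw [h1] at hc
  exact cycR_append_comm A D hc

private theorem ph1_two_rv {Ms : List (List V)} (h : ∀ Q ∈ Ms, 2 ≤ Q.length) :
    ∀ Q ∈ rv Ms, 2 ≤ Q.length := by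
  intro Q hQ
  have h1 := h _ (mem_rv.1 hQ)
  simpa using h1

private theorem ph1_ch_rv {Ms : List (List V)} (h : ∀ Q ∈ Ms, Q.IsChain G.Adj) :
    ∀ Q ∈ rv Ms, Q.IsChain G.Adj := by
  intro Q hQ
  have h1 := h _ (mem_rv.1 hQ)
  rw [List.isChain_reverse] at h1
  exact h1.imp (fun _ _ h => h.symm)

private theorem ph1_len {F : List V} {a b : V} (hn : F.Nodup) (ha : F.head? = some a)
    (hb : F.getLast? = some b) (h : EL F a b) : F.length ≤ 2 := by
  rcases h.ex with ⟨A, D, h1⟩ | ⟨A, D, h1⟩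
  · have hA : A = [] := by
      cases A with
      | nil => rfl
      | cons u A =>
        exfalso
        rw [h1] at ha hn
        have h2 : u = a := by simpa using ha
        rw [h2] at hn
        exact (List.nodup_cons.1 hn).1 (by simp)
    subst hA
    have hD : D = [] := by
      rcases List.eq_nil_or_concat' D with h2 | ⟨D', u, h2⟩
      · exact h2
      · exfalso
        rw [h1, h2] at hb hn
        have h3 : u = b := by
          have h4 : ([] ++ a :: b :: (D' ++ [u])).getLast? = some u := by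
            rw [show ([] ++ a :: b :: (D' ++ [u])) = (a :: b :: D') ++ [u] by simp]
            exact List.getLast?_concat
          rw [h4] at hb
          simpa using hb
        rw [h3] at hn
        have h5 := List.nodup_cons.1 hn
        have h6 := List.nodup_cons.1 h5.2
        exact h6.1 (by simp)
    subst hD
    rw [h1]
    simp
  · exfalso
    rw [h1] at ha hn
    cases A with
    | nil =>
      have h2 : b = a := by simpa using ha
      rw [h2] at hn
      exact (List.nodup_cons.1 hn).1 (by simp)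
    | cons u A =>
      have h2 : u = a := by simpa using ha
      rw [h2] at hn
      exact (List.nodup_cons.1 hn).1 (by simp)

private theorem ph1_pair {a b c d : V} (h : EL [a, b] c d) :
    (c = a ∧ d = b) ∨ (c = b ∧ d = a) := by
  rcases h with h | h
  · have h1 := h.eq_of_length (by simp)
    simp only [List.cons.injEq, and_true] at h1
    exact Or.inl ⟨h1.1, h1.2⟩
  · have h1 := h.eq_of_length (by simp)
    simp only [List.cons.injEq, and_true] at h1
    exact Or.inr ⟨h1.2, h1.1⟩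

/-- a pair of neighbours on a path of segments is inside a segment or consists of ends -/
private theorem ph1_end {x y : V} {Qs : List (List V)} (h : Lk G L x Qs y) {c d : V}
    (hcd : EL (RL x y Qs) c d) :
    (∃ Q ∈ Qs, EL Q c d) ∨
      ((c = x ∨ c = y ∨ ∃ Q ∈ Qs, Q.head? = some c ∨ Q.getLast? = some c) ∧
       (d = x ∨ d = y ∨ ∃ Q ∈ Qs, Q.head? = some d ∨ Q.getLast? = some d)) := by
  induction Qs generalizing x with
  | nil =>
    right
    rcases ph1_pair hcd with ⟨h1, h2⟩ | ⟨h1, h2⟩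
    · exact ⟨Or.inl h1, Or.inr (Or.inl h2)⟩
    · exact ⟨Or.inr (Or.inl h1), Or.inl h2⟩
  | cons Q M ih =>
    obtain ⟨c0, d0, h1, h2, h3⟩ := h
    obtain ⟨Q1, hQ1⟩ : ∃ Q1, Q = Q1 ++ [d0] := List.getLast?_eq_some_iff.1 h2.lt
    obtain ⟨Q2, hQ2⟩ : ∃ Q2, Q = c0 :: Q2 := List.head?_eq_some_iff.1 h2.hd
    have e1 : RL x y (Q :: M) = (x :: Q1) ++ RL d0 y M := by
      unfold RL
      rw [hQ1]
      simp
    have e2 : x :: Q = [x] ++ c0 :: Q2 := by
      rw [hQ2]
      rfl
    rw [e1] at hcd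
    have h7 : EL ((x :: Q1) ++ [d0]) c d ∨ EL (RL d0 y M) c d := EL.split hcd
    rcases h7 with h7 | h7
    · have h8 : (x :: Q1) ++ [d0] = [x] ++ c0 :: Q2 := by
        rw [← e2, hQ1]
        rfl
      rw [h8] at h7
      rcases EL.split h7 with h9 | h9
      · right
        have h10 : EL [x, c0] c d := h9
        have hc0 : ∃ R ∈ Q :: M, R.head? = some c0 ∨ R.getLast? = some c0 :=
          ⟨Q, by simp, Or.inl h2.hd⟩
        rcases ph1_pair h10 with ⟨h11, h12⟩ | ⟨h11, h12⟩
        · rw [h11, h12]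
          exact ⟨Or.inl rfl, Or.inr (Or.inr hc0)⟩
        · rw [h11, h12]
          exact ⟨Or.inr (Or.inr hc0), Or.inl rfl⟩
      · left
        rw [← hQ2] at h9
        exact ⟨Q, by simp, h9⟩
    · have key : ∀ v : V, (v = d0 ∨ v = y ∨ ∃ R ∈ M, R.head? = some v ∨ R.getLast? = some v) →
          (v = x ∨ v = y ∨ ∃ R ∈ Q :: M, R.head? = some v ∨ R.getLast? = some v) := by
        rintro v (h8 | h8 | ⟨R, hR, h8⟩)
        · rw [h8]
          exact Or.inr (Or.inr ⟨Q, by simp, Or.inr h2.lt⟩)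
        · exact Or.inr (Or.inl h8)
        · exact Or.inr (Or.inr ⟨R, List.mem_cons_of_mem _ hR, h8⟩)
      rcases ih h3 h7 with ⟨R, hR, h8⟩ | ⟨h8, h9⟩
      · exact Or.inl ⟨R, List.mem_cons_of_mem _ hR, h8⟩
      · exact Or.inr ⟨key c h8, key d h9⟩

theorem CI.rotR (C : CI G L Ps Rs) {Rs' : List (List V)} (h : Rot Rs Rs') : CI G L Ps Rs' := by
  have hp := ph1_perm h
  refine ⟨(hp.append_left _).nodup_iff.1 C.nd, C.chP, fun Q hQ => C.chR Q (h.mem.2 hQ), C.twoP,
    fun Q hQ => C.twoR Q (h.mem.2 hQ), C.jnP, ph1_cyc h C.jnR, ?_, C.lenP, ?_⟩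
  · rw [← ph1_length h]
    exact C.card
  · rw [← hp.length_eq]
    exact C.lenR

theorem CI.revR (C : CI G L Ps Rs) : CI G L Ps (rv Rs) := by
  refine ⟨?_, C.chP, ph1_ch_rv C.chR, C.twoP, ph1_two_rv C.twoR, C.jnP, cycR_rv C.jnR, ?_,
    C.lenP, ?_⟩
  · rw [flatten_rv]
    have h := C.nd
    rw [List.nodup_append'] at h ⊢
    refine ⟨h.1, List.nodup_reverse.2 h.2.1, ?_⟩
    intro v hv hv'
    exact h.2.2 hv (List.mem_reverse.1 hv')
  · rw [length_rv]
    exact C.card
  · rw [flatten_rv, List.length_reverse]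
    exact C.lenR

theorem CI.rotP (C : CI G L Ps Rs) {Ps' : List (List V)} (h : Rot Ps Ps') : CI G L Ps' Rs := by
  have hp := ph1_perm h
  refine ⟨(hp.append_right _).nodup_iff.1 C.nd, fun P hP => C.chP P (h.mem.2 hP), C.chR,
    fun P hP => C.twoP P (h.mem.2 hP), C.twoR, ph1_cyc h C.jnP, C.jnR, ?_, ?_, C.lenR⟩
  · rw [← ph1_length h]
    exact C.card
  · rw [← hp.length_eq]
    exact C.lenP

theorem HR_rv : HR (rv Rs) = LR Rs := by
  ext v
  constructor
  · rintro ⟨Q, hQ, h⟩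
    exact ⟨Q.reverse, mem_rv.1 hQ, by rw [List.getLast?_reverse]; exact h⟩
  · rintro ⟨Q, hQ, h⟩
    refine ⟨Q.reverse, mem_rv.2 (by rw [List.reverse_reverse]; exact hQ), ?_⟩
    rw [List.head?_reverse]
    exact h

theorem LR_rv : LR (rv Rs) = HR Rs := by
  ext v
  constructor
  · rintro ⟨Q, hQ, h⟩
    exact ⟨Q.reverse, mem_rv.1 hQ, by rw [List.head?_reverse]; exact h⟩
  · rintro ⟨Q, hQ, h⟩
    refine ⟨Q.reverse, mem_rv.2 (by rw [List.reverse_reverse]; exact hQ), ?_⟩
    rw [List.getLast?_reverse]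
    exact h

theorem TR_rv : TR (rv Rs) = TR Rs := by
  ext v
  simp only [TR, HR_rv, LR_rv, Set.mem_setOf_eq]
  tauto

theorem OM_rv : OM Ps (rv Rs) = OM Ps Rs := by
  simp only [OM, TR_rv]

theorem Mx_rv {d : V} : Mx G Ps (rv Rs) d ↔ Mx G Ps Rs d := by
  simp only [Mx, HR_rv, LR_rv, OM_rv]
  tauto

private theorem ph1_ndR (C : CI G L Ps Rs) : Rs.flatten.Nodup := (List.nodup_append'.1 C.nd).2.1

private theorem ph1_one {F : List V} (hn : F.Nodup) {l : V} (h1 : F.head? = some l)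
    (h2 : F.getLast? = some l) : F.length ≤ 1 := by
  obtain ⟨F', rfl⟩ := List.head?_eq_some_iff.1 h1
  cases F' with
  | nil => simp
  | cons c F =>
    exfalso
    rw [List.getLast?_cons_of_ne_nil (by simp)] at h2
    exact (List.nodup_cons.1 hn).1 (List.mem_of_getLast? h2)

/-- no vertex is a first and a last one -/
theorem CI.HL (C : CI G L Ps Rs) {v : V} (h : v ∈ HR Rs) : v ∉ LR Rs := by
  rintro ⟨Q', hQ', h1⟩
  obtain ⟨Q, hQ, h2⟩ := h
  have hn := ph1_ndR C
  have h3 : Q = Q' := flat_same hn hQ hQ' (List.mem_of_head? h2) (List.mem_of_getLast? h1)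
  subst h3
  have h4 := ph1_one (flat_nodup hn hQ) h2 h1
  have h5 := C.twoR Q hQ
  omega

theorem TR_sub {v : V} (h : v ∈ TR Rs) : v ∈ Rs.flatten := by
  rcases h with ⟨Q, hQ, h1⟩ | ⟨Q, hQ, h1⟩
  · exact List.mem_flatten.2 ⟨Q, hQ, List.mem_of_head? h1⟩
  · exact List.mem_flatten.2 ⟨Q, hQ, List.mem_of_getLast? h1⟩

/-- the linked configuration without one segment of the second cycle -/
theorem CI.lc (C : CI G L Ps Rs) {Q : List V} (h : Rot Rs (Q :: Rest)) (hx : Q.getLast? = some x)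
    (hy : Q.head? = some y) : LC G L x y Ps Rest := by
  have C' := C.rotR h
  have hQ2 := C'.twoR Q (by simp)
  obtain ⟨Q2, hQ⟩ := List.head?_eq_some_iff.1 hy
  have hQ2' : ∃ M, Q2 = M ++ [x] := by
    rw [hQ] at hx hQ2
    have hne : Q2 ≠ [] := by
      intro h'
      rw [h'] at hQ2
      simp at hQ2
    rw [List.getLast?_cons_of_ne_nil hne] at hx
    exact List.getLast?_eq_some_iff.1 hx
  obtain ⟨M, rfl⟩ := hQ2'
  refine ⟨?_, C'.chP, C'.twoP, C'.jnP, fun R hR => C'.twoR R (List.mem_cons_of_mem _ hR), ?_, ?_,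
    C'.lenP⟩
  · have h1 := C'.nd
    have h2 : (Ps.flatten ++ RL x y Rest).Perm (Ps.flatten ++ (y :: x :: Rest.flatten)) := by
      refine List.Perm.append_left _ ?_
      unfold RL
      have h3 : (x :: (Rest.flatten ++ [y])).Perm (x :: (y :: Rest.flatten)) :=
        (List.perm_append_comm (l₁ := Rest.flatten) (l₂ := [y])).cons x
      exact h3.trans (List.Perm.swap y x _)
    rw [h2.nodup_iff]
    refine h1.sublist ?_
    refine List.Sublist.append_left ?_ _
    rw [List.flatten_cons, hQ, List.cons_append, List.append_assoc]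
    refine List.Sublist.cons_cons y ?_
    exact List.sublist_append_right M (x :: Rest.flatten)
  · refine lk_of_isChain (P := Q) (Q := Q) C'.jnR
      (fun R hR => C'.chR R (List.mem_cons_of_mem _ hR)) ?_ hx hy
    intro R hR h'
    have h1 := C'.twoR R (List.mem_cons_of_mem _ hR)
    rw [h'] at h1
    simp at h1
  · have h1 := C'.card
    simpa using h1

private theorem ph1_rot {Q : List V} (hQ : Q ∈ Rs) : ∃ Rest, Rot Rs (Q :: Rest) := by
  obtain ⟨A, D, h⟩ := List.append_of_mem hQ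
  exact ⟨D ++ A, A, Q :: D, h, by simp⟩

private theorem ph1_ends {Q : List V} (h : 2 ≤ Q.length) :
    ∃ x y, Q.getLast? = some x ∧ Q.head? = some y := by
  have hne : Q ≠ [] := by
    intro h'
    rw [h'] at h
    simp at h
  exact ⟨Q.getLast hne, Q.head hne, List.getLast?_eq_some_getLast hne,
    List.head?_eq_some_head hne⟩

private theorem ph1_jn {Ps : List (List V)} {A B : List V}
    (h : [A, B] <:+: Ps ++ Ps.head?.toList) : A ∈ Ps ∧ B ∈ Ps := by
  have key : ∀ R : List V, R ∈ Ps ++ Ps.head?.toList → R ∈ Ps := by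
    intro R hR
    rcases List.mem_append.1 hR with h1 | h1
    · exact h1
    · rw [Option.mem_toList] at h1
      exact List.mem_of_head? h1
  exact ⟨key A (h.subset (by simp)), key B (h.subset (by simp))⟩

/-- both ends of an edge of `L` are on the same cycle -/
theorem CI.side (S : Bs G L k) (C : CI G L Ps Rs) {c d : V} (h : s(c, d) ∈ L) :
    (c ∈ Ps.flatten ∧ d ∈ Ps.flatten) ∨ (c ∈ TR Rs ∧ d ∈ TR Rs) := by
  obtain ⟨Q, hQ⟩ := List.exists_mem_of_ne_nil _ C.jnR.ne
  obtain ⟨Rest, hr⟩ := ph1_rot hQ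
  obtain ⟨x, y, hx, hy⟩ := ph1_ends (C.twoR Q hQ)
  have D := C.lc hr hx hy
  rcases D.cov S.ind h with h1 | ⟨A, B, h1, h2⟩
  · right
    have key : ∀ v : V, (v = x ∨ v = y ∨ ∃ R ∈ Rest, R.head? = some v ∨ R.getLast? = some v) →
        v ∈ TR Rs := by
      rintro v (h3 | h3 | ⟨R, hR, h3⟩)
      · rw [h3]; exact Or.inr ⟨Q, hQ, hx⟩
      · rw [h3]; exact Or.inl ⟨Q, hQ, hy⟩
      · have hR' : R ∈ Rs := hr.mem.2 (List.mem_cons_of_mem _ hR)
        rcases h3 with h3 | h3
        · exact Or.inl ⟨R, hR', h3⟩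
        · exact Or.inr ⟨R, hR', h3⟩
    rcases ph1_end D.lk h1 with ⟨R, hR, h2⟩ | ⟨h2, h3⟩
    · exact absurd h2 (D.noQ S.ind hR h)
    · exact ⟨key c h2, key d h3⟩
  · left
    obtain ⟨hA, hB⟩ := ph1_jn h1
    rcases h2 with ⟨h3, h4⟩ | ⟨h3, h4⟩
    · exact ⟨List.mem_flatten.2 ⟨A, hA, List.mem_of_getLast? h3⟩,
        List.mem_flatten.2 ⟨B, hB, List.mem_of_head? h4⟩⟩
    · exact ⟨List.mem_flatten.2 ⟨B, hB, List.mem_of_head? h4⟩,
        List.mem_flatten.2 ⟨A, hA, List.mem_of_getLast? h3⟩⟩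

/-- the edges of `L` on the second cycle -/
theorem CI.covR (S : Bs G L k) (C : CI G L Ps Rs) {Q : List V} (h : Rot Rs (Q :: Rest))
    (hx : Q.getLast? = some x) (hy : Q.head? = some y) {c d : V} (hcd : s(c, d) ∈ L)
    (hc : c ∈ Rs.flatten) : EL (RL x y Rest) c d := by
  have D := C.lc h hx hy
  rcases D.cov S.ind hcd with h1 | ⟨A, B, h1, h2⟩
  · exact h1
  · exfalso
    obtain ⟨hA, hB⟩ := ph1_jn h1
    have h3 := (List.nodup_append'.1 C.nd).2.2
    rcases h2 with ⟨h4, -⟩ | ⟨-, h4⟩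
    · exact h3 (List.mem_flatten.2 ⟨A, hA, List.mem_of_getLast? h4⟩) hc
    · exact h3 (List.mem_flatten.2 ⟨B, hB, List.mem_of_head? h4⟩) hc

/-- no edge of `L` is inside a segment -/
theorem CI.noR (S : Bs G L k) (C : CI G L Ps Rs) {Q : List V} (hQ : Q ∈ Rs) {c d : V}
    (h : s(c, d) ∈ L) : ¬ EL Q c d := by
  intro he
  obtain ⟨Rest, hr⟩ := ph1_rot hQ
  obtain ⟨x, y, hx, hy⟩ := ph1_ends (C.twoR Q hQ)
  have D := C.lc hr hx hy
  have C' := C.rotR hr
  have hn := ph1_ndR C'
  rw [List.flatten_cons, List.nodup_append'] at hn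
  have h1 := C.covR S hr hx hy h (List.mem_flatten.2 ⟨Q, hQ, he.memL⟩)
  have key : ∀ v : V, v ∈ Q → v ∈ RL x y Rest → v = x ∨ v = y := by
    intro v hv hv'
    rcases mem_RL.1 hv' with h2 | h2 | h2
    · exact Or.inl h2
    · exact absurd h2 (hn.2.2 hv)
    · exact Or.inr h2
  have hne : c ≠ d := by
    have h2 := S.sub _ h
    rw [mem_edgeSet] at h2
    exact h2.ne
  have h2 : EL (RL x y Rest) x y ∧ EL Q y x := by
    rcases key c he.memL h1.memL with h3 | h3
    · rcases key d he.memR h1.memR with h4 | h4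
      · exact absurd (h3.trans h4.symm) hne
      · rw [h3, h4] at h1 he
        exact ⟨h1, he.symm⟩
    · rcases key d he.memR h1.memR with h4 | h4
      · rw [h3, h4] at h1 he
        exact ⟨h1.symm, he⟩
      · exact absurd (h3.trans h4.symm) hne
  have h3 : (RL x y Rest).length ≤ 2 := by
    refine ph1_len (List.nodup_append'.1 D.nd).2.1 rfl ?_ h2.1
    unfold RL
    rw [← List.cons_append]
    exact List.getLast?_concat
  have h4 : Q.length ≤ 2 := ph1_len hn.1 hy hx h2.2
  have h5 := C'.lenR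
  rw [List.flatten_cons, List.length_append] at h5
  unfold RL at h3
  rw [List.length_cons, List.length_append, List.length_singleton] at h3
  omega

theorem CI.noP (S : Bs G L k) (C : CI G L Ps Rs) {P : List V} (hP : P ∈ Ps) {c d : V}
    (h : s(c, d) ∈ L) : ¬ EL P c d := by
  obtain ⟨Q, hQ⟩ := List.exists_mem_of_ne_nil _ C.jnR.ne
  obtain ⟨Rest, hr⟩ := ph1_rot hQ
  obtain ⟨x, y, hx, hy⟩ := ph1_ends (C.twoR Q hQ)
  exact (C.lc hr hx hy).noP S.ind hP h

end Pool.Agent.LW
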