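import Pool.Agent.LW.PH6

set_option autoImplicit false

/-!
# Case I, first half: cutting a linked configuration
-/

namespace Pool.Agent.LW

open SimpleGraph Classical

universe w

variable {V : Type w} {G H : SimpleGraph V} {L : Finset (Sym2 V)} {k : ℕ}
  {x y : V} {Ps Qs Rs Rest : List (List V)} {c : ℕ}

/-- two cycles from a linked configuration and a cycle off `Z` -/
theorem ci_of_lc (hind : ∀ e ∈ L, ∀ f ∈ L, e ≠ f → ∀ v, v ∈ e → v ∉ f)
    (C : LC G L x y Ps Qs) {a b : V} {D : List V} (hD : Cl G a b D)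
    (hZ : ∀ v ∈ D, v ∉ Ps.flatten)
    (hL : ∀ c d, s(c, d) ∈ L → EL (RL x y Qs) c d → EC a b D c d) :
    ∃ Rs, CI G L Ps Rs ∧ Rs.length = Qs.length + 1 ∧ Rs.flatten.Perm D := by
  have hR : RP G L x y Qs := ⟨(List.nodup_append'.1 C.nd).2.1, C.twoQ, C.lk⟩
  have hM : ∀ Q ∈ Qs, ∀ c d, s(c, d) ∈ L → ¬ EL Q c d :=
    fun Q hQ c d hcd => C.noQ hind hQ hcd
  have hcard := rp_card hind hR hM
  -- the edges of `L` on `D` are those of the path
  have hset : L.filter (fun e => ∃ c d, e = s(c, d) ∧ EC a b D c d) =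
      L.filter (fun e => ∃ c d, e = s(c, d) ∧ EL (RL x y Qs) c d) := by
    apply Finset.filter_congr
    intro e he
    constructor
    · rintro ⟨c, d, rfl, h⟩
      refine ⟨c, d, rfl, ?_⟩
      rcases C.cov hind he with h1 | ⟨A, B, h1, h2⟩
      · exact h1
      · exfalso
        have hcD : c ∈ D := by
          rcases h with h | h
          · exact h.memL
          · rw [Sym2.eq_iff] at h
            rcases h with ⟨h, -⟩ | ⟨h, -⟩
            · rw [h]; exact hD.ch.memL
            · rw [h]; exact hD.ch.memR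
        have hsub : ∀ X : List V, X ∈ [A, B] → X ∈ Ps := by
          intro X hX
          have h3 := h1.subset hX
          rcases List.mem_append.1 h3 with h3 | h3
          · exact h3
          · cases Ps with
            | nil => simp at h3
            | cons P Ps =>
              simp only [List.head?_cons, Option.toList_some, List.mem_singleton] at h3
              rw [h3]; simp
        rcases h2 with ⟨h2, -⟩ | ⟨-, h2⟩
        · exact hZ c hcD (List.mem_flatten.2 ⟨A, hsub A (by simp), List.mem_of_getLast? h2⟩)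
        · exact hZ c hcD (List.mem_flatten.2 ⟨B, hsub B (by simp), List.mem_of_head? h2⟩)
    · rintro ⟨c, d, rfl, h⟩
      exact ⟨c, d, rfl, hL c d he h⟩
  rw [← hset] at hcard
  have hne : (L.filter (fun e => ∃ c d, e = s(c, d) ∧ EC a b D c d)).Nonempty := by
    rw [← Finset.card_pos, hcard]; omega
  obtain ⟨e, he⟩ := hne
  rw [Finset.mem_filter] at he
  obtain ⟨heL, c, d, rfl, hcd⟩ := he
  obtain ⟨Rs, r1, r2, r3, r4, r5⟩ := cut_closed hind hD heL hcd
  refine ⟨Rs, ⟨?_, C.ch, r2, C.twoP, r3, C.jn, r4, ?_, C.len, ?_⟩, ?_, r1⟩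
  · rw [List.nodup_append']
    refine ⟨(List.nodup_append'.1 C.nd).1, r1.nodup_iff.2 hD.nd, ?_⟩
    intro v hv hv'
    exact hZ v (r1.mem_iff.1 hv') hv
  · rw [r5, hcard]; exact C.card
  · rw [r1.length_eq]; exact hD.len
  · rw [r5, hcard]

end Pool.Agent.LW
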