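import Pool.Agent.LW.PH6

set_option autoImplicit false

/-!
# Case I, first half: links
-/

namespace Pool.Agent.LW

open SimpleGraph Classical

universe w

variable {V : Type w} {G H : SimpleGraph V} {L : Finset (Sym2 V)} {k : ℕ}
  {x y : V} {Ps Qs Rs Rest : List (List V)} {c : ℕ}

/-- the first element of a list in a set -/
private theorem ph7_first {X : Set V} {F : List V} (h : ∃ v ∈ F, v ∈ X) :
    ∃ A a D, F = A ++ a :: D ∧ a ∈ X ∧ ∀ v ∈ A, v ∉ X := by
  induction F with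
  | nil => obtain ⟨v, hv, -⟩ := h; simp at hv
  | cons p F ih =>
    by_cases hp : p ∈ X
    · exact ⟨[], p, F, rfl, hp, by simp⟩
    · obtain ⟨v, hv, hX⟩ := h
      have hvF : v ∈ F := by
        rcases List.mem_cons.1 hv with rfl | hv
        · exact absurd hX hp
        · exact hv
      obtain ⟨A, a, D, hF, ha, hA⟩ := ih ⟨v, hvF, hX⟩
      refine ⟨p :: A, a, D, by rw [hF]; simp, ha, ?_⟩
      intro u hu
      rcases List.mem_cons.1 hu with rfl | hu
      · exact hp
      · exact hA u hu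

/-- a walk cut at its first vertex in a set, without repetitions -/
private theorem ph7_cut {X : Set V} {u t : V} {F : List V} (hF : Ch G u t F) (ht : t ∈ X) :
    ∃ p ∈ X, ∃ B, Ch G u p B ∧ B.Nodup ∧ (∀ v ∈ B, v ∈ X → v = p) ∧ ∀ v ∈ B, v ∈ F := by
  obtain ⟨A, p, D, hFe, hp, hA⟩ := ph7_first ⟨t, hF.memR, ht⟩
  rw [hFe] at hF
  obtain ⟨B, h1, h2, h3⟩ := hF.left.path
  refine ⟨p, hp, B, h1, h2, ?_, ?_⟩
  · intro v hv hvX
    rcases List.mem_append.1 (h3 v hv) with h4 | h4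
    · exact absurd hvX (hA v h4)
    · exact List.mem_singleton.1 h4
  · intro v hv
    rw [hFe]
    rcases List.mem_append.1 (h3 v hv) with h4 | h4
    · exact List.mem_append_left _ h4
    · rw [List.mem_singleton.1 h4]
      exact List.mem_append_right _ List.mem_cons_self

/-- the vertices of a walk inside a set are reachable from its first vertex -/
private theorem ph7_rch {X : Set V} {u t v : V} {F : List V} (hF : Ch G u t F)
    (hX : ∀ v ∈ F, v ∈ X) (hv : v ∈ F) : Rch G X u v := by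
  obtain ⟨A, D, hFe⟩ := List.append_of_mem hv
  rw [hFe] at hF
  refine ⟨A ++ [v], hF.left, ?_⟩
  intro w hw
  apply hX
  rw [hFe]
  rcases List.mem_append.1 hw with h4 | h4
  · exact List.mem_append_left _ h4
  · rw [List.mem_singleton.1 h4]
    exact List.mem_append_right _ List.mem_cons_self

/-- a path from `w` in the component to the second cycle -/
theorem wl_any (S : Bs G L k) (C : CI G L Ps Rs) {w : V} (h : w ∈ WR G Ps Rs) :
    ∃ p ∈ Rs.flatten, ∃ B, Ch G w p B ∧ B.Nodup ∧ (∀ v ∈ B, v ∈ Rs.flatten → v = p) ∧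
      ∀ v ∈ B, Rch G (OM Ps Rs) w v ∨ v = p ∧ p ∈ TR Rs := by
  rcases wr_cases S C h with ht | ⟨t, ht, a, hta, haw⟩
  · refine ⟨w, TR_sub ht, [w], Ch.single w, by simp, ?_, ?_⟩
    · intro v hv _
      exact List.mem_singleton.1 hv
    · intro v hv
      exact Or.inr ⟨List.mem_singleton.1 hv, ht⟩
  · obtain ⟨F0, hF0, hO⟩ := haw.symm
    have hF1 : Ch G w t (F0 ++ [t]) := hF0.concat hta.symm
    obtain ⟨p, hp, B, h1, h2, h3, h4⟩ := ph7_cut (X := {v | v ∈ Rs.flatten}) hF1 (TR_sub ht)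
    refine ⟨p, hp, B, h1, h2, h3, ?_⟩
    intro v hv
    rcases List.mem_append.1 (h4 v hv) with h5 | h5
    · exact Or.inl (ph7_rch hF0 hO h5)
    · right
      have h6 : v = t := List.mem_singleton.1 h5
      have h7 : v = p := h3 v hv (by rw [h6]; exact TR_sub ht)
      refine ⟨h7, ?_⟩
      rw [← h7, h6]
      exact ht

/-- a path from `z` through the component of `d` towards `t`, cut at the second cycle -/
theorem wl_to (C : CI G L Ps Rs) {d z t : V} (ht : t ∈ TR Rs) (hd : d ∈ Att G (OM Ps Rs) t)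
    (hz : z ∈ Ps.flatten) (hdz : d ∈ Att G (OM Ps Rs) z) :
    ∃ p ∈ Rs.flatten, ∃ B, Ch G z p (z :: B) ∧ B.Nodup ∧ (∀ v ∈ B, v ∈ Rs.flatten → v = p) ∧
      ∀ v ∈ B, Rch G (OM Ps Rs) d v ∨ v = p ∧ p = t := by
  obtain ⟨a, hta, had⟩ := hd
  obtain ⟨b, hzb, hbd⟩ := hdz
  obtain ⟨F0, hF0, hO⟩ := hbd.trans had.symm
  have hF1 : Ch G b t (F0 ++ [t]) := hF0.concat hta.symm
  obtain ⟨p, hp, B, h1, h2, h3, h4⟩ := ph7_cut (X := {v | v ∈ Rs.flatten}) hF1 (TR_sub ht)
  refine ⟨p, hp, B, h1.cons hzb, h2, h3, ?_⟩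
  intro v hv
  rcases List.mem_append.1 (h4 v hv) with h5 | h5
  · exact Or.inl (hbd.symm.trans (ph7_rch hF0 hO h5))
  · right
    have h6 : v = t := List.mem_singleton.1 h5
    have h7 : v = p := h3 v hv (by rw [h6]; exact TR_sub ht)
    exact ⟨h7, by rw [← h7, h6]⟩

end Pool.Agent.LW
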