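import Pool.Agent.LW.PH5
import Pool.Agent.LW.PH7

set_option autoImplicit false

/-!
# Case I, first half: rerouting
-/

namespace Pool.Agent.LW

open SimpleGraph Classical

universe w

variable {V : Type w} {G H : SimpleGraph V} {L : Finset (Sym2 V)} {k : ℕ}
  {x y : V} {Ps Qs Rs Rest : List (List V)} {c : ℕ}

/-- the first vertex with a property -/
private theorem ph9_first {p : V → Prop} : ∀ {l : List V}, (∃ v ∈ l, p v) →
    ∃ A v D, l = A ++ v :: D ∧ p v ∧ ∀ u ∈ A, ¬ p u := by
  intro l
  induction l with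
  | nil =>
    rintro ⟨v, hv, -⟩
    simp at hv
  | cons a l ih =>
    rintro ⟨v, hv, hp⟩
    by_cases ha : p a
    · exact ⟨[], a, l, rfl, ha, by simp⟩
    · have hv' : v ∈ l := by
        rcases List.mem_cons.1 hv with h | h
        · rw [h] at hp
          exact absurd hp ha
        · exact h
      obtain ⟨A, u, D, h1, h2, h3⟩ := ih ⟨v, hv', hp⟩
      refine ⟨a :: A, u, D, by rw [h1]; rfl, h2, ?_⟩
      intro x hx
      rcases List.mem_cons.1 hx with h | h
      · rw [h]; exact ha
      · exact h3 x h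

/-- a path through the component of `d` meets the second cycle at most once -/
theorem i2_path (S : Bs G L k) (hmin : MinC G L c) (C : CI G L Ps Rs) (hR : Rs.length = c)
    {d : V} {F : List V} {z z' : V} (hF : Ch G z' z F) (hFn : F.Nodup)
    (hFP : ∀ v ∈ F, v ∈ Ps.flatten)
    (hcov : ∀ c d, s(c, d) ∈ L → EL F c d ∨ c ∈ Rs.flatten)
    (hdz : d ∈ Att G (OM Ps Rs) z) (hdz' : d ∈ Att G (OM Ps Rs) z') :
    ∃ B, B ≠ [] ∧ B.Nodup ∧ Ch G z z' (z :: (B ++ [z'])) ∧ (∀ v ∈ B, Rch G (OM Ps Rs) d v) ∧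
      ∀ v ∈ B, ∀ v' ∈ B, v ∈ Rs.flatten → v' ∈ Rs.flatten → v = v' := by
  obtain ⟨a, hza, ha⟩ := hdz
  obtain ⟨b, hzb, hb⟩ := hdz'
  obtain ⟨B0, hB0, hB0O⟩ := ha.trans hb.symm
  obtain ⟨B, hB, hBn, hBs⟩ := hB0.path
  have hBO : ∀ v ∈ B, v ∈ OM Ps Rs := fun v hv => hB0O v (hBs v hv)
  have hBd : ∀ v ∈ B, Rch G (OM Ps Rs) d v := by
    intro v hv
    obtain ⟨A, D, hAD⟩ := List.append_of_mem hv
    subst hAD
    refine ha.symm.trans ⟨A ++ [v], hB.left, ?_⟩
    intro u hu
    rcases List.mem_append.1 hu with hu | hu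
    · exact hBO u (List.mem_append_left _ hu)
    · rw [List.mem_singleton] at hu
      rw [hu]
      exact hBO v hv
  refine ⟨B, hB.ne, hBn, Ch.cons hza (hB.concat hzb.symm), hBd, ?_⟩
  intro v hv v' hv' hvR hvR'
  by_contra hne
  -- the first vertex of the second cycle on `B`
  obtain ⟨A, p, D0, hAD, hp, hA⟩ := ph9_first (p := fun u => u ∈ Rs.flatten) ⟨v, hv, hvR⟩
  have hex : ∃ u ∈ D0, u ∈ Rs.flatten := by
    by_cases h : v = p
    · have h' : v' ≠ p := fun h' => hne (h.trans h'.symm)
      refine ⟨v', ?_, hvR'⟩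
      rw [hAD] at hv'
      rcases List.mem_append.1 hv' with h1 | h1
      · exact absurd hvR' (hA v' h1)
      · rcases List.mem_cons.1 h1 with h1 | h1
        · exact absurd h1 h'
        · exact h1
    · refine ⟨v, ?_, hvR⟩
      rw [hAD] at hv
      rcases List.mem_append.1 hv with h1 | h1
      · exact absurd hvR (hA v h1)
      · rcases List.mem_cons.1 h1 with h1 | h1
        · exact absurd h1 h
        · exact h1
  obtain ⟨u, hu, huR⟩ := hex
  obtain ⟨A', p', D', hAD', hp', hA'⟩ := ph9_first (p := fun u => u ∈ Rs.flatten)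
    (l := D0.reverse) ⟨u, List.mem_reverse.2 hu, huR⟩
  have hD0 : D0 = D'.reverse ++ p' :: A'.reverse := by
    have h1 := congrArg List.reverse hAD'
    simpa using h1
  subst hD0
  subst hAD
  have hpB : p ∈ A ++ p :: (D'.reverse ++ p' :: A'.reverse) := by simp
  have hpO := hBO p hpB
  -- nodup
  have hn1 := List.nodup_append'.1 hBn
  have hn2 := List.nodup_cons.1 hn1.2.1
  have hn3 := List.nodup_append'.1 hn2.2
  have hpp : p ≠ p' := by
    intro h
    apply hn2.1
    rw [h]
    simp
  have hFO : ∀ v ∈ F, v ∉ OM Ps Rs := fun v hv h => h.1 (hFP v hv)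
  -- the path
  have e1 : Ch G p a (p :: A.reverse) := by
    have h1 := (hB.left).reverse
    simpa using h1
  have e2 : Ch G b p' (A' ++ [p']) := by
    have h1 : Ch G p' b (p' :: A'.reverse) := by
      have h2 : Ch G a b ((A ++ p :: D'.reverse) ++ p' :: A'.reverse) := by
        simpa using hB
      exact h2.right
    have h3 := h1.reverse
    simpa using h3
  have e3 : Ch G z z' F.reverse := hF.reverse
  have e4 : Ch G p z' ((p :: A.reverse) ++ F.reverse) := e1.append e3 hza.symm
  have e5 : Ch G p p' (((p :: A.reverse) ++ F.reverse) ++ (A' ++ [p'])) := e4.append e2 hzb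
  have hd1 : ∀ v ∈ A' ++ [p'], v ∈ A ++ p :: (D'.reverse ++ p' :: A'.reverse) := by
    intro v hv
    simp only [List.mem_append, List.mem_cons, List.mem_reverse] at hv ⊢
    tauto
  have hd2 : ∀ v ∈ p :: A.reverse, v ∈ A ++ p :: (D'.reverse ++ p' :: A'.reverse) := by
    intro v hv
    simp only [List.mem_append, List.mem_cons, List.mem_reverse] at hv ⊢
    tauto
  have e6 : (((p :: A.reverse) ++ F.reverse) ++ (A' ++ [p'])).Nodup := by
    rw [List.nodup_append', List.nodup_append']
    refine ⟨⟨?_, List.nodup_reverse.2 hFn, ?_⟩, ?_, ?_⟩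
    · rw [List.nodup_cons]
      refine ⟨?_, List.nodup_reverse.2 hn1.1⟩
      intro h
      exact hn1.2.2 (List.mem_reverse.1 h) (by simp)
    · intro v hv hv'
      exact hFO v (List.mem_reverse.1 hv') (hBO v (hd2 v hv))
    · have h1 := List.nodup_cons.1 hn3.2.1
      rw [List.nodup_append']
      refine ⟨List.nodup_reverse.1 h1.2, by simp, ?_⟩
      intro v hv hv'
      rw [List.mem_singleton] at hv'
      rw [hv'] at hv
      exact h1.1 (List.mem_reverse.2 hv)
    · intro v hv hv'
      rcases List.mem_append.1 hv with hv | hv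
      · have h1 : v ∈ D'.reverse ++ p' :: A'.reverse := by
          simp only [List.mem_append, List.mem_cons, List.mem_reverse] at hv' ⊢
          tauto
        rcases List.mem_cons.1 hv with hv | hv
        · rw [hv] at h1
          exact hn2.1 h1
        · exact hn1.2.2 (List.mem_reverse.1 hv) (List.mem_cons_of_mem _ h1)
      · exact hFO v (List.mem_reverse.1 hv) (hBO v (hd1 v hv'))
  have hPR : ∀ v ∈ Ps.flatten, v ∉ Rs.flatten := fun v hv hv' =>
    (List.nodup_append'.1 C.nd).2.2 hv hv'
  have e7 : ∀ v ∈ ((p :: A.reverse) ++ F.reverse) ++ (A' ++ [p']), v ∈ Rs.flatten →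
      v = p ∨ v = p' := by
    intro v hv hvR
    rcases List.mem_append.1 hv with hv | hv
    · rcases List.mem_append.1 hv with hv | hv
      · rcases List.mem_cons.1 hv with hv | hv
        · exact Or.inl hv
        · exact absurd hvR (hA v (List.mem_reverse.1 hv))
      · exact absurd hvR (hPR v (hFP v (List.mem_reverse.1 hv)))
    · rcases List.mem_append.1 hv with hv | hv
      · exact absurd hvR (hA' v hv)
      · exact Or.inr (List.mem_singleton.1 hv)
  have e8 : ∀ c d, s(c, d) ∈ L →
      EL (((p :: A.reverse) ++ F.reverse) ++ (A' ++ [p'])) c d ∨ c ∈ Rs.flatten := by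
    intro c d hcd
    rcases hcov c d hcd with h | h
    · left
      exact h.reverse.mono ⟨p :: A.reverse, A' ++ [p'], rfl⟩
    · exact Or.inr h
  rcases ci_i1 S hmin C hR hpp hp hp' e5 e6 e7 e8 with h | h
  · exact hpO.2 (Or.inl h.1)
  · exact hpO.2 (Or.inr h.1)

end Pool.Agent.LW
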