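import Pool.Agent.LW.PH10
import Pool.Agent.LW.PH9

set_option autoImplicit false

/-!
# Case I, first half: the new pair of cycles
-/

namespace Pool.Agent.LW

open SimpleGraph Classical

universe w

variable {V : Type w} {G H : SimpleGraph V} {L : Finset (Sym2 V)} {k : ℕ}
  {x y : V} {Ps Qs Rs Rest : List (List V)} {c : ℕ}

private theorem ph11_ec {a b : V} {D : List V} (hD : Ch G a b D) {p q : V} (h : EC a b D p q) :
    p ∈ D ∧ q ∈ D := by
  rcases h with h | h
  · exact ⟨h.memL, h.memR⟩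
  · rcases Sym2.eq_iff.1 h with ⟨h1, h2⟩ | ⟨h1, h2⟩
    · rw [h1, h2]; exact ⟨hD.memL, hD.memR⟩
    · rw [h1, h2]; exact ⟨hD.memR, hD.memL⟩

/-- a segment of the second cycle with its ends -/
private theorem ph11_seg (C : CI G L Ps Rs) {Q : List V} (hQ : Q ∈ Rs) :
    ∃ x y Rest, Rot Rs (Q :: Rest) ∧ Q.getLast? = some x ∧ Q.head? = some y ∧
      Rest.length + 1 = Rs.length := by
  have h2 := C.twoR Q hQ
  have hne : Q ≠ [] := by
    intro h
    rw [h] at h2
    simp at h2
  obtain ⟨Pre, Post, h⟩ := List.append_of_mem hQ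
  refine ⟨Q.getLast hne, Q.head hne, Post ++ Pre, ⟨Pre, Q :: Post, h, rfl⟩,
    List.getLast?_eq_some_getLast hne, List.head?_eq_some_head hne, ?_⟩
  rw [h]
  simp only [List.length_append, List.length_cons]
  omega

private theorem ph11_rl (C : CI G L Ps Rs) {Q : List V} (h : Rot Rs (Q :: Rest))
    (hx : Q.getLast? = some x) (hy : Q.head? = some y) {v : V} (hv : v ∈ RL x y Rest) :
    v ∈ Rs.flatten := by
  have h1 : v ∈ (Q :: Rest).flatten := by
    rw [List.flatten_cons, List.mem_append]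
    rcases mem_RL.1 hv with h | h | h
    · left
      rw [h]
      exact List.mem_of_getLast? hx
    · exact Or.inr h
    · left
      rw [h]
      exact List.mem_of_head? hy
  obtain ⟨R, hR, hvR⟩ := List.mem_flatten.1 h1
  exact List.mem_flatten.2 ⟨R, h.mem.2 hR, hvR⟩

private theorem ph11_con {O : Set V} {w r : V} {D : List V} (h : Ch G w r (w :: (D ++ [r])))
    (hD : ∀ v ∈ D, v ∈ O) : Con G O w r := by
  rcases List.eq_nil_or_concat' D with rfl | ⟨E, o, rfl⟩
  · exact Or.inl h.snd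
  · have h1 : Ch G w r ((w :: E) ++ o :: r :: []) := by simpa using h
    have h2 : Ch G w o ((w :: E) ++ [o]) := h1.left
    refine Or.inr ⟨o, ?_, h1.adj⟩
    cases E with
    | nil => exact ⟨o, h2.snd, Rch.refl (hD o (by simp))⟩
    | cons e E =>
      exact ⟨e, Ch.snd h2, (e :: E) ++ [o], Ch.tail h2, hD⟩

/-- the closed list and an edge of `L` of the first cycle on it -/
private theorem ph11_cl (C : CI G L Ps Rs) {F B : List V} {z z' : V} (hF : Ch G z' z F)
    (hFn : F.Nodup) (hFP : ∀ v ∈ F, v ∈ Ps.flatten)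
    (hcov : ∀ c d, s(c, d) ∈ L → EL F c d ∨ c ∈ Rs.flatten) (hB0 : B ≠ []) (hBn : B.Nodup)
    (hB : Ch G z z' (z :: (B ++ [z']))) (hBO : ∀ v ∈ B, v ∈ OM Ps Rs) :
    (∃ b, Cl G z' b (F ++ B)) ∧ ∃ r l, s(r, l) ∈ L ∧ EL F r l := by
  have hdis := (List.nodup_append'.1 C.nd).2.2
  have hL : ∃ r l, s(r, l) ∈ L ∧ EL F r l := by
    obtain ⟨P, Ms, hPs⟩ := List.exists_cons_of_ne_nil C.jnP.ne
    have h1 : (P :: (Ms ++ [P])).IsChain (JL L) := by
      have := C.jnP
      rw [hPs] at this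
      exact this
    have h2 : ∃ R, JL L P R := by
      cases Ms with
      | nil =>
        simp only [List.nil_append, List.isChain_cons_cons] at h1
        exact ⟨P, h1.1⟩
      | cons R Ms =>
        rw [List.cons_append, List.isChain_cons_cons] at h1
        exact ⟨R, h1.1⟩
    obtain ⟨R, r, l, h3, h4, h5⟩ := h2
    refine ⟨r, l, h5, ?_⟩
    rcases hcov r l h5 with h6 | h6
    · exact h6
    · exact absurd h6 (hdis (List.mem_flatten.2 ⟨P, by rw [hPs]; simp, List.mem_of_getLast? h3⟩))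
  refine ⟨?_, hL⟩
  obtain ⟨r, l, hrl, hFrl⟩ := hL
  have hF2 : 2 ≤ F.length := by
    rcases hFrl with h | h
    · have := h.length_le
      simpa using this
    · have := h.length_le
      simpa using this
  obtain ⟨b0, B', hBe⟩ := List.exists_cons_of_ne_nil hB0
  rcases List.eq_nil_or_concat' B with h | ⟨B'', b, hBe'⟩
  · exact absurd h hB0
  have hB1 : G.Adj z b0 := by
    rw [hBe] at hB
    exact Ch.snd hB
  have hB2 : Ch G b0 z' (B ++ [z']) := by
    rw [hBe] at hB ⊢
    exact Ch.tail hB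
  have hB3 : Ch G b0 z' (B'' ++ b :: z' :: []) := by
    rw [hBe'] at hB2
    simpa using hB2
  have hB4 : Ch G b0 b B := by
    have := hB3.left
    rwa [← hBe'] at this
  refine ⟨b, hF.append hB4 hB1, ?_, hB3.adj, ?_⟩
  · rw [List.nodup_append']
    exact ⟨hFn, hBn, fun v hv hv' => (hBO v hv').1 (hFP v hv)⟩
  · rw [List.length_append]
    have := List.length_pos_iff.2 hB0
    omega

/-- the second cycle is kept -/
private theorem ph11_keep (S : Bs G L k) (C : CI G L Ps Rs) (hR : Rs.length = c ∧ Rs ≠ [])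
    {F B : List V} {z' : V} (hFP : ∀ v ∈ F, v ∈ Ps.flatten)
    (hcov : ∀ c d, s(c, d) ∈ L → EL F c d ∨ c ∈ Rs.flatten) (hCl' : ∃ b, Cl G z' b (F ++ B))
    (hrl' : ∃ r l, s(r, l) ∈ L ∧ EL F r l) (hBR : ∀ v ∈ B, v ∉ Rs.flatten) :
    ∃ Ps' Rs', CI G L Ps' Rs' ∧ Rs'.length = c ∧ (∀ v, v ∈ Ps'.flatten ↔ v ∈ F ∨ v ∈ B) ∧
      ∃ t ∈ TR Rs, t ∈ Rs'.flatten := by
  obtain ⟨b, hCl⟩ := hCl'
  obtain ⟨r, l, hrl, hFrl⟩ := hrl'
  obtain ⟨hR, hRne⟩ := hR
  have hnd := List.nodup_append'.1 C.nd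
  have hmono : ∀ {p q : V}, EL F p q → EC z' b (F ++ B) p q :=
    fun h => Or.inl (h.mono (List.prefix_append _ _).isInfix)
  obtain ⟨Q, Rs0, hRe⟩ := List.exists_cons_of_ne_nil hRne
  have hQ : Q ∈ Rs := by rw [hRe]; simp
  obtain ⟨x, y, Rest, hrot, hx, hy, hlen⟩ := ph11_seg C hQ
  have C1 := C.lc hrot hx hy
  have hRP : RP G L x y Rest := ⟨(List.nodup_append'.1 C1.nd).2.1, C1.twoQ, C1.lk⟩
  have hM : ∀ T ∈ Rest, ∀ c d, s(c, d) ∈ L → ¬ EL T c d :=
    fun T hT c d hcd => C1.noQ S.ind hT hcd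
  have hcard := rp_card S.ind hRP hM
  obtain ⟨Ps', r1, r2, r3, r4, r5⟩ := cut_closed S.ind hCl hrl (hmono hFrl)
  have hset : L.filter (fun e => ∃ c d, e = s(c, d) ∧ EC z' b (F ++ B) c d) =
      L.filter (fun e => ¬ ∃ c d, e = s(c, d) ∧ EL (RL x y Rest) c d) := by
    apply Finset.filter_congr
    intro e he
    constructor
    · rintro ⟨p, q, h1, h2⟩ ⟨p', q', h3, h4⟩
      have h5 := ph11_ec hCl.ch h2
      have h6 : p' ∈ F ++ B := by
        have h7 : p' ∈ s(p, q) := by
          rw [← h1, h3]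
          simp
        rcases Sym2.mem_iff.1 h7 with h8 | h8
        · rw [h8]; exact h5.1
        · rw [h8]; exact h5.2
      have h9 := ph11_rl C hrot hx hy h4.memL
      rcases List.mem_append.1 h6 with h10 | h10
      · exact hnd.2.2 (hFP p' h10) h9
      · exact hBR p' h10 h9
    · intro h1
      induction e using Sym2.inductionOn with
      | _ p q =>
        refine ⟨p, q, rfl, ?_⟩
        rcases hcov p q he with h2 | h2
        · exact hmono h2
        · exact absurd ⟨p, q, rfl, C.covR S hrot hx hy he h2⟩ h1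
  have hsum := Finset.card_filter_add_card_filter_not (s := L)
    (fun e => ∃ c d, e = s(c, d) ∧ EL (RL x y Rest) c d)
  rw [← hset, ← r5, hcard] at hsum
  have hPl : Ps'.length = Ps.length := by
    have := C.card
    omega
  refine ⟨Ps', Rs, ⟨?_, r2, C.chR, r3, C.twoR, r4, C.jnR, ?_, ?_, C.lenR⟩, hR, ?_, x, ?_, ?_⟩
  · rw [List.nodup_append']
    refine ⟨r1.nodup_iff.2 hCl.nd, hnd.2.1, ?_⟩
    intro v hv hvR
    rcases List.mem_append.1 (r1.mem_iff.1 hv) with h | h
    · exact hnd.2.2 (hFP v h) hvR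
    · exact hBR v h hvR
  · rw [hPl]
    exact C.card
  · rw [r1.length_eq]
    exact hCl.len
  · intro v
    rw [r1.mem_iff, List.mem_append]
  · right
    exact ⟨Q, hQ, hx⟩
  · exact List.mem_flatten.2 ⟨Q, hQ, List.mem_of_getLast? hx⟩

/-- the first cycle rerouted through the component of `d` -/
theorem i2_new [Fintype V] (S : Bs G L k) (hmin : MinC G L c) (hc2 : 2 ≤ c) (hc : 2 * c ≤ k)
    (C : CI G L Ps Rs) (hR : Rs.length = c) {F B : List V} {z z' : V} (hF : Ch G z' z F)
    (hFn : F.Nodup) (hFP : ∀ v ∈ F, v ∈ Ps.flatten)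
    (hcov : ∀ c d, s(c, d) ∈ L → EL F c d ∨ c ∈ Rs.flatten) (hB0 : B ≠ []) (hBn : B.Nodup)
    (hB : Ch G z z' (z :: (B ++ [z']))) (hBO : ∀ v ∈ B, v ∈ OM Ps Rs)
    (hB1 : ∀ v ∈ B, ∀ v' ∈ B, v ∈ Rs.flatten → v' ∈ Rs.flatten → v = v') :
    ∃ Ps' Rs', CI G L Ps' Rs' ∧ Rs'.length = c ∧ (∀ v, v ∈ Ps'.flatten ↔ v ∈ F ∨ v ∈ B) ∧
      ∃ t ∈ TR Rs, t ∈ Rs'.flatten := by
  obtain ⟨⟨b, hCl⟩, r, l, hrl, hFrl⟩ := ph11_cl C hF hFn hFP hcov hB0 hBn hB hBO
  have hnd := List.nodup_append'.1 C.nd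
  have hmono : ∀ {p q : V}, EL F p q → EC z' b (F ++ B) p q :=
    fun h => Or.inl (h.mono (List.prefix_append _ _).isInfix)
  have hcR : Rs.length = c ∧ Rs ≠ [] := by
    refine ⟨hR, ?_⟩
    intro h
    rw [h] at hR
    simp only [List.length_nil] at hR
    omega
  by_cases hp : ∃ p ∈ B, p ∈ Rs.flatten
  · -- one vertex of the second cycle
    obtain ⟨p, hpB, hpR⟩ := hp
    obtain ⟨Q, hQ, hpQ⟩ := List.mem_flatten.1 hpR
    obtain ⟨x, y, Rest, hrot, hx, hy, hlen⟩ := ph11_seg C hQ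
    have C1 := C.lc hrot hx hy
    have C2 := C.rotR hrot
    obtain ⟨A1, D1, hQe⟩ := List.append_of_mem hpQ
    have hpT := (hBO p hpB).2
    have hA1 : A1 ≠ [] := by
      intro h
      apply hpT
      left
      exact ⟨Q, hQ, by rw [hQe, h]; rfl⟩
    have hD1 : D1 ≠ [] := by
      intro h
      apply hpT
      right
      exact ⟨Q, hQ, by rw [hQe, h]; simp⟩
    obtain ⟨y', A2, hA2⟩ := List.exists_cons_of_ne_nil hA1
    have hy' : y' = y := by
      rw [hQe, hA2] at hy
      simpa using hy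
    subst hy'
    have hn2 := (List.nodup_append'.1 C2.nd).2.1
    rw [List.flatten_cons] at hn2
    obtain ⟨hn3, hn4, hn5⟩ := List.nodup_append'.1 hn2
    have hQx : ∃ Q0, Q = Q0 ++ [x] := List.getLast?_eq_some_iff.1 hx
    have hR : RP G L x y' Rest := ⟨(List.nodup_append'.1 C1.nd).2.1, C1.twoQ, C1.lk⟩
    have hM : ∀ T ∈ Rest, ∀ c d, s(c, d) ∈ L → ¬ EL T c d :=
      fun T hT c d hcd => C1.noQ S.ind hT hcd
    -- inner vertices of `Q` are not on the path
    have hin : ∀ v ∈ A2 ++ [p], v ∉ RL x y' Rest := by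
      intro v hv hvR
      have hvQ : v ∈ Q := by
        rw [hQe, hA2]
        simp only [List.cons_append, List.mem_cons, List.mem_append, List.not_mem_nil,
          or_false] at hv ⊢
        tauto
      rcases mem_RL.1 hvR with h | h | h
      · -- v = x, the last vertex, in D1
        subst h
        obtain ⟨D2, x', hD2⟩ : ∃ D2 x', D1 = D2 ++ [x'] :=
          ⟨_, _, (List.dropLast_append_getLast hD1).symm⟩
        have hx' : x' = v := by
          rw [hQe, hD2] at hx
          have h1 : (A1 ++ p :: (D2 ++ [x'])) = (A1 ++ p :: D2) ++ [x'] := by simp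
          rw [h1, List.getLast?_concat] at hx
          simpa using hx
        subst hx'
        rw [hQe, hA2, hD2] at hn3
        simp only [List.mem_append, List.mem_cons, List.not_mem_nil, or_false] at hv
        have h2 := (List.nodup_cons.1 hn3).2
        have h3 := List.nodup_append'.1 h2
        rcases hv with hv | hv
        · exact h3.2.2 hv (by simp)
        · rw [hv] at h3
          exact (List.nodup_cons.1 h3.2.1).1 (by simp)
      · exact hn5 hvQ h
      · subst h
        rw [hQe, hA2] at hn3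
        have h2 : v ∉ A2 ++ p :: D1 := (List.nodup_cons.1 hn3).1
        apply h2
        simp only [List.mem_append, List.mem_cons, List.not_mem_nil, or_false] at hv ⊢
        tauto
    have hcov' : ∀ c d, s(c, d) ∈ L → EC z' b (F ++ B) c d ∨ EL (RL x y' Rest) c d := by
      intro p q hpq
      rcases hcov p q hpq with h | h
      · exact Or.inl (hmono h)
      · exact Or.inr (C.covR S hrot hx hy hpq h)
    obtain ⟨Ps', p1, p2⟩ := lc_of_closed S.ind hCl hR hM (by
      intro v hv hvR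
      have hvRs := ph11_rl C hrot hx hy hvR
      rcases List.mem_append.1 hv with hv | hv
      · exact hnd.2.2 (hFP v hv) hvRs
      · have h1 := hB1 v hv p hpB hvRs hpR
        rw [h1] at hvR
        exact hin p (by simp) hvR) hrl (hmono hFrl) hcov'
    have hlk : Lkd G x y' Ps' Rest := by
      refine ⟨p, p1.mem_iff.2 (List.mem_append_right _ hpB), ?_⟩
      refine ph11_con (D := A2) ?_ ?_
      · have h1 : Ch G y' x (A1 ++ p :: D1) := by
          rw [← hQe]
          exact ⟨hy, hx, C.chR Q hQ⟩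
        have h2 := h1.left
        rwa [hA2] at h2
      · intro v hv
        have hvQ : v ∈ Q := by
          rw [hQe, hA2]
          simp [hv]
        have hvRs : v ∈ Rs.flatten := List.mem_flatten.2 ⟨Q, hQ, hvQ⟩
        refine ⟨?_, hin v (by simp [hv])⟩
        intro hvP
        rcases List.mem_append.1 (p1.mem_iff.1 hvP) with h | h
        · exact hnd.2.2 (hFP v h) hvRs
        · have h1 := hB1 v h p hpB hvRs hpR
          subst h1
          rw [hQe, hA2] at hn3
          have h2 := (List.nodup_cons.1 hn3).2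
          exact (List.nodup_append'.1 h2).2.2 hv (by simp)
    have hRne : Rest ≠ [] := by
      intro h
      rw [h] at hlen
      simp only [List.length_nil] at hlen
      omega
    obtain ⟨a', b', D', q1, q2, q3⟩ := caseII S (by rw [hlen, ‹Rs.length = c›]; exact hmin) p2 hlk
      (by omega) hRne
    obtain ⟨Rs', s1, s2, s3⟩ := ci_of_lc S.ind p2 q1 q2 q3
    refine ⟨Ps', Rs', s1, by omega, ?_, x, ?_, ?_⟩
    · intro v
      rw [p1.mem_iff, List.mem_append]
    · right
      exact ⟨Q, hQ, hx⟩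
    · obtain ⟨Q1, Rest', hRe⟩ := List.exists_cons_of_ne_nil hRne
      have hlk' := C1.lk
      rw [hRe] at hlk'
      obtain ⟨c1, d1, e1, e2, e3⟩ := hlk'
      obtain ⟨Q1', hQ1'⟩ := List.head?_eq_some_iff.1 e2.hd
      have h1 : EL (RL x y' Rest) x c1 := by
        refine Or.inl ⟨[], Q1' ++ (Rest'.flatten ++ [y']), ?_⟩
        rw [hRe, hQ1']
        simp [RL]
      exact s3.mem_iff.2 (ph11_ec q1.ch (q3 x c1 e1 h1)).1
  · exact ph11_keep S C hcR hFP hcov ⟨b, hCl⟩ ⟨r, l, hrl, hFrl⟩ (fun v hv h => hp ⟨v, hv, h⟩)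

end Pool.Agent.LW
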