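import Pool.Agent.LW.PH6

set_option autoImplicit false

/-!
# Case I, first half: the component gets smaller
-/

namespace Pool.Agent.LW

open SimpleGraph Classical

universe w

variable {V : Type w} {G H : SimpleGraph V} {L : Finset (Sym2 V)} {k : ℕ}
  {x y : V} {Ps Qs Rs Rest : List (List V)} {c : ℕ}

private theorem ph12_walk {Ps Rs Ps' : List (List V)} {F : List V}
    (hF : ∀ v ∈ F, v ∈ Ps'.flatten)
    (hno : ∀ v ∈ Ps.flatten, v ∉ F → ∀ w ∈ WR G Ps Rs, ¬ G.Adj v w) {E : List V} :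
    ∀ {a v : V}, Ch G a v E → (∀ u ∈ E, u ∈ OZ Ps') → a ∈ WR G Ps Rs → v ∈ WR G Ps Rs := by
  induction E with
  | nil => intro a v h; exact absurd rfl h.ne
  | cons c E ih =>
    intro a v h hO ha
    have hc : c = a := by have := h.hd; simpa using this
    subst hc
    cases E with
    | nil =>
      have : c = v := by have := h.lt; simpa using this
      rw [← this]
      exact ha
    | cons d E =>
      refine ih h.tail (fun u hu => hO u (List.mem_cons_of_mem _ hu)) ?_
      have hd' : d ∉ Ps'.flatten := hO d (by simp)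
      by_cases hd : d ∈ Ps.flatten
      · exact absurd h.snd.symm (hno d hd (fun hdF => hd' (hF d hdF)) c ha)
      · exact wr_step ha h.snd hd

/-- the component of the new second cycle is smaller -/
theorem i2_less [Fintype V] (S : Bs G L k) (C : CI G L Ps Rs) {Ps' Rs' : List (List V)}
    (C' : CI G L Ps' Rs') {F B : List V} (hP' : ∀ v, v ∈ Ps'.flatten ↔ v ∈ F ∨ v ∈ B)
    (hB0 : B ≠ []) (hB : ∀ v ∈ B, v ∈ WR G Ps Rs)
    (hno : ∀ v ∈ Ps.flatten, v ∉ F → ∀ w ∈ WR G Ps Rs, ¬ G.Adj v w) {t : V}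
    (ht : t ∈ TR Rs) (ht' : t ∈ Rs'.flatten) :
    (WR G Ps' Rs').ncard < (WR G Ps Rs).ncard := by
  apply Set.ncard_lt_ncard
  · have hsub : WR G Ps' Rs' ⊆ WR G Ps Rs := by
      intro v hv
      obtain ⟨E, hE, hEO⟩ := wr_conn S C' (wr_mem C' ht') hv
      exact ph12_walk (fun u hu => (hP' u).2 (Or.inl hu)) hno hE hEO (wr_mem C (TR_sub ht))
    refine ⟨hsub, fun h => ?_⟩
    obtain ⟨b, hb⟩ := List.exists_mem_of_ne_nil B hB0
    exact wr_off (h (hB b hb)) ((hP' b).2 (Or.inr hb))
  · exact Set.toFinite _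

end Pool.Agent.LW
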