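import Pool.Agent.LW.PH5
import Pool.Agent.LW.PH7

set_option autoImplicit false

/-!
# Case I, first half: (I2), first part
-/

namespace Pool.Agent.LW

open SimpleGraph Classical

universe w

variable {V : Type w} {G H : SimpleGraph V} {L : Finset (Sym2 V)} {k : ℕ}
  {x y : V} {Ps Qs Rs Rest : List (List V)} {c : ℕ}

private theorem ph8_wr {v u : V} (h : v ∈ WR G Ps Rs) (h' : Rch G (OM Ps Rs) v u) :
    u ∈ WR G Ps Rs := by
  obtain ⟨r, hr, hrv⟩ := h
  obtain ⟨F, hF, hFO⟩ := h'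
  exact ⟨r, hr, hrv.trans ⟨F, hF, fun a ha => (hFO a ha).1⟩⟩

/-- a walk off the component, from a neighbour of `w` to a vertex attached to another, mixed, part -/
theorem i2_link (S : Bs G L k) (hmin : MinC G L c) (C : CI G L Ps Rs) (hR : Rs.length = c)
    {d : V} (hd : Mx G Ps Rs d) {F : List V} {z z' w : V} (hF : Ch G z' z F) (hFn : F.Nodup)
    (hFW : ∀ v ∈ F, v ∉ WR G Ps Rs)
    (hcov : ∀ c d, s(c, d) ∈ L → EL F c d ∨ c ∈ Rs.flatten) (hz : z ∈ Ps.flatten)
    (hdz : d ∈ Att G (OM Ps Rs) z) (hw : w ∈ WR G Ps Rs) (ha : G.Adj z' w)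
    (hwd : ¬ Rch G (OM Ps Rs) d w) : False := by
  -- the path from `w` to the second cycle
  obtain ⟨p', hp', B', hB', hBn', hBR', hBO'⟩ := wl_any S C hw
  have hdW : d ∈ WR G Ps Rs := mx_wr C hd
  -- the target
  obtain ⟨t, htT, htd, htp, htH, htL⟩ : ∃ t, t ∈ TR Rs ∧ d ∈ Att G (OM Ps Rs) t ∧ p' ≠ t ∧
      ¬ (t ∈ HR Rs ∧ p' ∈ HR Rs) ∧ ¬ (t ∈ LR Rs ∧ p' ∈ LR Rs) := by
    obtain ⟨⟨h, hh, hdh⟩, ⟨l, hl, hdl⟩⟩ := hd
    by_cases hpH : p' ∈ HR Rs
    · refine ⟨l, Or.inr hl, hdl, ?_, ?_, ?_⟩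
      · rintro rfl
        exact C.HL hpH hl
      · rintro ⟨h1, -⟩
        exact C.HL h1 hl
      · rintro ⟨-, h1⟩
        exact C.HL hpH h1
    · refine ⟨h, Or.inl hh, hdh, ?_, ?_, ?_⟩
      · rintro rfl
        exact hpH hh
      · rintro ⟨-, h1⟩
        exact hpH h1
      · rintro ⟨h1, -⟩
        exact C.HL hh h1
  obtain ⟨p, hp, B, hB, hBn, hBR, hBO⟩ := wl_to C htT htd hz hdz
  have hdisj : ∀ v, v ∈ Ps.flatten → v ∉ Rs.flatten := fun v h1 h2 =>
    (List.nodup_append.1 C.nd).2.2 v h1 v h2 rfl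
  obtain ⟨b, B1, rfl⟩ : ∃ b B1, B = b :: B1 := by
    cases B with
    | nil =>
      exfalso
      have h1 := hB.lt
      simp only [List.getLast?_singleton, Option.some.injEq] at h1
      subst h1
      exact hdisj z hz hp
    | cons b B1 => exact ⟨b, B1, rfl⟩
  have hBt : Ch G b p (b :: B1) := hB.tail
  have hzb : G.Adj z b := hB.snd
  have hOM : ∀ v, v ∈ OM Ps Rs → v ∉ TR Rs := fun v h => h.2
  have hBW : ∀ v ∈ b :: B1, v ∈ WR G Ps Rs := by
    intro v hv
    rcases hBO v hv with h | ⟨h1, h2⟩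
    · exact ph8_wr hdW h
    · exact wr_mem C (h1 ▸ hp)
  have hBW' : ∀ v ∈ B', v ∈ WR G Ps Rs := by
    intro v hv
    rcases hBO' v hv with h | ⟨h1, h2⟩
    · exact ph8_wr hw h
    · exact wr_mem C (h1 ▸ hp')
  have hpp : ∀ v, v ∈ b :: B1 → v ∉ B' := by
    intro v h1 h2
    rcases hBO v h1 with h3 | ⟨h3, h4⟩
    · rcases hBO' v h2 with h5 | ⟨h5, h6⟩
      · exact hwd (h3.trans h5.symm)
      · exact hOM v h3.right (h5 ▸ h6)
    · rcases hBO' v h2 with h5 | ⟨h5, h6⟩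
      · refine hOM v h5.right ?_
        rw [h3, h4]
        exact htT
      · exact htp (by rw [← h5, h3, h4])
  have hne : p ≠ p' := by
    rintro rfl
    exact hpp p hBt.memR hB'.memR
  -- the path
  have hE : Ch G p p' ((b :: B1).reverse ++ (F.reverse ++ B')) :=
    hBt.reverse.append (hF.reverse.append hB' ha) hzb.symm
  have key := ci_i1 S hmin C hR hne hp hp' hE
    (by
      rw [List.nodup_append, List.nodup_append]
      refine ⟨List.nodup_reverse.2 hBn, ⟨List.nodup_reverse.2 hFn, hBn', ?_⟩, ?_⟩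
      · rintro a ha1 a' ha2 rfl
        exact hFW a (List.mem_reverse.1 ha1) (hBW' a ha2)
      · rintro a ha1 a' ha2 rfl
        rw [List.mem_reverse] at ha1
        rcases List.mem_append.1 ha2 with h1 | h1
        · exact hFW a (List.mem_reverse.1 h1) (hBW a ha1)
        · exact hpp a ha1 h1)
    (by
      intro v hv hvR
      rcases List.mem_append.1 hv with h1 | h1
      · exact Or.inl (hBR v (List.mem_reverse.1 h1) hvR)
      · rcases List.mem_append.1 h1 with h2 | h2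
        · exact absurd (wr_mem C hvR) (hFW v (List.mem_reverse.1 h2))
        · exact Or.inr (hBR' v h2 hvR))
    (by
      intro c d hcd
      rcases hcov c d hcd with h | h
      · exact Or.inl (h.reverse.mono ⟨(b :: B1).reverse, B', by simp⟩)
      · exact Or.inr h)
  have hpt : p ∈ TR Rs → p = t := by
    intro h
    rcases hBO p hBt.memR with h1 | h1
    · exact absurd h (hOM p h1.right)
    · exact h1.2
  rcases key with ⟨h1, h2⟩ | ⟨h1, h2⟩
  · have h3 := hpt (Or.inl h1)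
    exact htH ⟨h3 ▸ h1, h2⟩
  · have h3 := hpt (Or.inr h1)
    exact htL ⟨h3 ▸ h1, h2⟩

end Pool.Agent.LW
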