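import Pool.Agent.LW.PH2
import Pool.Agent.LW.PH8
import Pool.Agent.LW.PH11
import Pool.Agent.LW.PH12

set_option autoImplicit false

/-!
# Case I, first half: (I2)
-/

namespace Pool.Agent.LW

open SimpleGraph Classical

universe w

variable {V : Type w} {G H : SimpleGraph V} {L : Finset (Sym2 V)} {k : ℕ}
  {x y : V} {Ps Qs Rs Rest : List (List V)} {c : ℕ}

/-- two distinct members with a property, none in between -/
private theorem ph13_pair {P : List V} (hP : P.Nodup) (N : V → Prop) {a b : V} (ha : a ∈ P)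
    (hb : b ∈ P) (hab : a ≠ b) (hNa : N a) (hNb : N b) : ∃ u v, u ∈ P ∧ v ∈ P ∧ u ≠ v ∧ N u ∧ N v ∧
      ∀ w, N w → ¬ (Bf P u w ∧ Bf P w v ∨ Bf P v w ∧ Bf P w u) := by
  have hfn : (P.filter (fun v => decide (N v))).Nodup := hP.filter _
  have hfa : a ∈ P.filter (fun v => decide (N v)) := List.mem_filter.2 ⟨ha, by simpa using hNa⟩
  have hfb : b ∈ P.filter (fun v => decide (N v)) := List.mem_filter.2 ⟨hb, by simpa using hNb⟩
  have hmem : ∀ v ∈ P.filter (fun v => decide (N v)), v ∈ P ∧ N v := by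
    intro v hv
    have h := List.mem_filter.1 hv
    exact ⟨h.1, by simpa using h.2⟩
  have hsub : ∀ p q, N p → N q → Bf P p q → [p, q].Sublist (P.filter (fun v => decide (N v))) := by
    intro p q hp hq h
    have h1 := List.Sublist.filter (fun v => decide (N v)) h
    have h2 : [p, q].filter (fun v => decide (N v)) = [p, q] := by
      rw [List.filter_eq_self]
      intro v hv
      simp only [List.mem_cons, List.not_mem_nil, or_false] at hv
      rcases hv with rfl | rfl
      · simpa using hp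
      · simpa using hq
    rwa [h2] at h1
  obtain ⟨f, hf⟩ : ∃ f, f = P.filter (fun v => decide (N v)) := ⟨_, rfl⟩
  rw [← hf] at hfn hfa hfb hmem hsub
  clear hf
  match f, hfn, hfa, hfb, hmem, hsub with
  | [], _, hfa, _, _, _ => exact absurd hfa (by simp)
  | [u], _, hfa, hfb, _, _ =>
    exfalso
    rw [List.mem_singleton] at hfa hfb
    exact hab (hfa.trans hfb.symm)
  | u :: v :: T, hfn, _, _, hmem, hsub =>
    rw [List.nodup_cons] at hfn
    have hn2 := hfn.2
    rw [List.nodup_cons] at hn2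
    have hu := hmem u (by simp)
    have hv := hmem v (by simp)
    refine ⟨u, v, hu.1, hv.1, fun h => hfn.1 (by rw [h]; simp), hu.2, hv.2, ?_⟩
    -- nothing is before `u`
    have key : ∀ w, N w → ¬ Bf P w u := by
      intro w hw h
      have h1 := hsub w u hw hu.2 h
      rw [List.cons_sublist_cons'] at h1
      rcases h1 with h1 | ⟨-, h1⟩
      · exact hfn.1 (h1.subset (by simp))
      · exact hfn.1 (List.singleton_sublist.1 h1)
    rintro w hw (⟨h1, h2⟩ | ⟨-, h2⟩)
    · have h3 := hsub w v hw hv.2 h2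
      rw [List.cons_sublist_cons'] at h3
      rcases h3 with h3 | ⟨h3, -⟩
      · rw [List.cons_sublist_cons'] at h3
        rcases h3 with h3 | ⟨-, h3⟩
        · exact hn2.1 (h3.subset (by simp))
        · exact hn2.1 (List.singleton_sublist.1 h3)
      · subst h3
        exact key w hw h1
    · exact key w hw h2

/-- (I2): only one vertex of a segment attached to a mixed vertex has neighbours in the component -/
theorem ci_one [Fintype V] (S : Bs G L k) (hmin : MinC G L c) (hc2 : 2 ≤ c) (hc : 2 * c ≤ k)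
    (C : CI G L Ps Rs) (hR : Rs.length = c) (hW : MinW G L c Ps Rs) {d : V}
    (hd : Mx G Ps Rs d) {P : List V} (hP : P ∈ Ps) {z z' w : V} (hz : z ∈ P)
    (hdz : d ∈ Att G (OM Ps Rs) z) (hz' : z' ∈ P) (hw : w ∈ WR G Ps Rs) (ha : G.Adj z' w) :
    z' = z := by
  by_contra hne
  have hPf : ∀ v ∈ P, v ∈ Ps.flatten := fun v hv => List.mem_flatten.2 ⟨P, hP, hv⟩
  have hPn : P.Nodup := by
    have h1 := (List.nodup_append.1 C.nd).1
    exact (List.nodup_flatten.1 h1).1 P hP
  have hcovF : ∀ F : List V, (∀ c d, s(c, d) ∈ L → c ∈ Ps.flatten → EL F c d) →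
      ∀ c d, s(c, d) ∈ L → EL F c d ∨ c ∈ Rs.flatten := by
    intro F hF a b hab
    rcases C.side S hab with h | h
    · exact Or.inl (hF a b hab h.1)
    · exact Or.inr (TR_sub h.1)
  -- every vertex of `P` with a neighbour in the component is attached to `d`
  have hA : ∀ v ∈ P, (∃ w ∈ WR G Ps Rs, G.Adj v w) → d ∈ Att G (OM Ps Rs) v := by
    rintro v hv ⟨w, hw, ha⟩
    by_cases hvz : v = z
    · rw [hvz]
      exact hdz
    · obtain ⟨F, hF, hFn, hFP, -, hFL, -⟩ := ci_arc S C hP hv hz hvz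
      by_contra hcon
      refine i2_link S hmin C hR hd hF hFn (fun v hv hv' => wr_off hv' (hFP v hv)) (hcovF F hFL)
        (hPf z hz) hdz hw ha ?_
      intro hr
      exact hcon ⟨w, ha, hr.symm⟩
  have hdW := mx_wr C hd
  have hWd : ∀ a, Rch G (OM Ps Rs) d a → a ∈ WR G Ps Rs := by
    rintro a ⟨F, hF, hFO⟩
    obtain ⟨r, hr, hrd⟩ := hdW
    exact ⟨r, hr, hrd.trans ⟨F, hF, fun v hv => (hFO v hv).1⟩⟩
  have hzN : ∃ w ∈ WR G Ps Rs, G.Adj z w := by
    obtain ⟨a, ha, hr⟩ := hdz
    exact ⟨a, hWd a hr.symm, ha⟩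
  -- two consecutive ones
  obtain ⟨u, v, hu, hv, huv, hNu, hNv, hno⟩ := ph13_pair hPn
    (fun v => ∃ w ∈ WR G Ps Rs, G.Adj v w) hz' hz hne ⟨w, hw, ha⟩ hzN
  obtain ⟨F, hF, hFn, hFP, hFd, hFL, -⟩ := ci_arc S C hP hu hv huv
  obtain ⟨B, hB0, hBn, hB, hBd, hB1⟩ := i2_path S hmin C hR hF hFn hFP (hcovF F hFL)
    (hA v hv hNv) (hA u hu hNu)
  obtain ⟨Ps', Rs', C', hR', hmem, t, ht, ht'⟩ := i2_new S hmin hc2 hc C hR hF hFn hFP
    (hcovF F hFL) hB0 hBn hB (fun v hv => (hBd v hv).right) hB1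
  have hlt := i2_less S C C' hmem hB0 (fun v hv => hWd v (hBd v hv)) (by
    intro a ha haF w' hw' haw
    exact hno a ⟨w', hw', haw⟩ (hFd a ha haF).2) ht ht'
  have := hW Ps' Rs' C' hR'
  omega

end Pool.Agent.LW
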