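import Pool.Agent.LW.PH13
import Pool.Agent.LW.PF3

set_option autoImplicit false

/-!
# Case I, first half: (I3)
-/

namespace Pool.Agent.LW

open SimpleGraph Classical

universe w

variable {V : Type w} {G H : SimpleGraph V} {L : Finset (Sym2 V)} {k : ℕ}
  {x y : V} {Ps Qs Rs Rest : List (List V)} {c : ℕ}

/-- the host: the segments not attached to `d`, and the other vertices but the centres -/
private noncomputable def ph14_H (G : SimpleGraph V) (Ps Rs : List (List V)) (d : V) :
    List (List V) :=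
  Ps.filter (fun P => ¬ AtP G Ps Rs d P) ++
    ((Ps.filter (fun P => AtP G Ps Rs d P)).flatten.filter
      (fun v => d ∉ Att G (OM Ps Rs) v)).map (fun v => [v])

private theorem ph14_flat {d : V} : (ph14_H G Ps Rs d).flatten =
    (Ps.filter (fun P => ¬ AtP G Ps Rs d P)).flatten ++
    ((Ps.filter (fun P => AtP G Ps Rs d P)).flatten.filter
      (fun v => d ∉ Att G (OM Ps Rs) v)) := by
  unfold ph14_H
  rw [List.flatten_append]
  congr 1
  rw [← List.flatMap_def]
  exact List.flatMap_singleton' _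

private theorem ph14_mem {d v : V} : v ∈ (ph14_H G Ps Rs d).flatten ↔
    (∃ P ∈ Ps, ¬ AtP G Ps Rs d P ∧ v ∈ P) ∨
    (∃ P ∈ Ps, AtP G Ps Rs d P ∧ v ∈ P ∧ d ∉ Att G (OM Ps Rs) v) := by
  rw [ph14_flat, List.mem_append, List.mem_filter, List.mem_flatten, List.mem_flatten]
  constructor
  · rintro (⟨P, hP, hv⟩ | ⟨⟨P, hP, hv⟩, h⟩)
    · have h1 := List.mem_filter.1 hP
      exact Or.inl ⟨P, h1.1, by simpa using h1.2, hv⟩
    · have h1 := List.mem_filter.1 hP
      exact Or.inr ⟨P, h1.1, by simpa using h1.2, hv, by simpa using h⟩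
  · rintro (⟨P, hP, h, hv⟩ | ⟨P, hP, h, hv, h'⟩)
    · exact Or.inl ⟨P, List.mem_filter.2 ⟨hP, by simpa using h⟩, hv⟩
    · exact Or.inr ⟨⟨P, List.mem_filter.2 ⟨hP, by simpa using h⟩, hv⟩, by simpa using h'⟩

private theorem ph14_sub {d v : V} (h : v ∈ (ph14_H G Ps Rs d).flatten) : v ∈ Ps.flatten := by
  rcases ph14_mem.1 h with ⟨P, hP, -, hv⟩ | ⟨P, hP, -, hv, -⟩
  · exact List.mem_flatten.2 ⟨P, hP, hv⟩
  · exact List.mem_flatten.2 ⟨P, hP, hv⟩

private theorem ph14_nd {d : V} (hnd : Ps.flatten.Nodup) : (ph14_H G Ps Rs d).flatten.Nodup := by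
  rw [ph14_flat, List.nodup_append']
  refine ⟨hnd.sublist List.filter_sublist.flatten,
    (hnd.sublist List.filter_sublist.flatten).filter _, ?_⟩
  intro v h1 h2
  obtain ⟨P, hP, hv⟩ := List.mem_flatten.1 h1
  obtain ⟨P', hP', hv'⟩ := List.mem_flatten.1 (List.mem_filter.1 h2).1
  have h3 := List.mem_filter.1 hP
  have h4 := List.mem_filter.1 hP'
  have h5 := flat_same hnd h3.1 h4.1 hv hv'
  subst h5
  have h6 : ¬ AtP G Ps Rs d P := by simpa using h3.2
  exact h6 (by simpa using h4.2)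

/-- a segment of the host with two consecutive vertices is an unattached segment -/
private theorem ph14_seg {d a b : V} {P : List V} (hP : P ∈ ph14_H G Ps Rs d)
    (h : [a, b] <:+: P) : P ∈ Ps ∧ ¬ AtP G Ps Rs d P := by
  unfold ph14_H at hP
  rcases List.mem_append.1 hP with h1 | h1
  · have h2 := List.mem_filter.1 h1
    exact ⟨h2.1, by simpa using h2.2⟩
  · obtain ⟨v, -, rfl⟩ := List.mem_map.1 h1
    exact absurd h.length_le (by simp)

private theorem ph14_sing {d v : V} {P : List V} (hP : P ∈ Ps) (hat : AtP G Ps Rs d P)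
    (hv : v ∈ P) (h : d ∉ Att G (OM Ps Rs) v) : [v] ∈ ph14_H G Ps Rs d := by
  unfold ph14_H
  refine List.mem_append_right _ (List.mem_map.2 ⟨v, List.mem_filter.2 ⟨?_, by simpa using h⟩, rfl⟩)
  exact List.mem_flatten.2 ⟨P, List.mem_filter.2 ⟨hP, by simpa using hat⟩, hv⟩

/-- all vertices of the component but `r` are attached to `r` -/
private theorem ph14_att {r v : V} (h : Rch G (OZ Ps) r v) (hne : v ≠ r) :
    v ∈ Att G {v | v ∉ Ps.flatten ∧ v ≠ r} r := by
  obtain ⟨F, hF, hO⟩ := h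
  obtain ⟨F', h1, h2, h3⟩ := hF.path
  match F', h1, h2, h3 with
  | [], h1, _, _ => exact absurd rfl h1.ne
  | [p], h1, _, _ =>
    have e1 : p = r := by simpa using h1.hd
    have e2 : p = v := by simpa using h1.lt
    exact absurd (e2.symm.trans e1) hne
  | p :: q :: R, h1, h2, h3 =>
    have e1 : p = r := by simpa using h1.hd
    subst e1
    refine ⟨q, h1.snd, q :: R, h1.tail, ?_⟩
    intro w hw
    refine ⟨hO w (h3 w (List.mem_cons_of_mem _ hw)), ?_⟩
    rintro rfl
    exact (List.nodup_cons.1 h2).1 hw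

/-- no singleton of the host is reached -/
private theorem ph14_no [Fintype V] (S : Bs G L k) (hmin : MinC G L c) (hc2 : 2 ≤ c)
    (hc : 2 * c ≤ k) (C : CI G L Ps Rs) (hR : Rs.length = c) (hW : MinW G L c Ps Rs) {d : V}
    (hd : Mx G Ps Rs d) {r : V} (hr : r ∈ Rs.flatten) {P : List V} (hP : P ∈ Ps) {z v : V}
    (hz : z ∈ P) (hdz : d ∈ Att G (OM Ps Rs) z) (hv : v ∈ P) (hvz : v ≠ z) :
    v ∉ Xg G {v | v ∉ Ps.flatten ∧ v ≠ r} (ph14_H G Ps Rs d) r := by
  rintro ⟨t, ht⟩
  have hnd : Ps.flatten.Nodup := (List.nodup_append'.1 C.nd).1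
  obtain ⟨F, hF, hFn, hFP, -, hFL, hFE⟩ := ci_arc S C hP hv hz hvz
  have hHS : HS G {v | v ∉ Ps.flatten ∧ v ≠ r} (ph14_H G Ps Rs d) r t F [] := by
    refine ⟨?_, ?_⟩
    · intro τ _ a b hab
      obtain ⟨P', hP', hi, -⟩ := hab.el
      obtain ⟨h1, h2⟩ := ph14_seg hP' hi
      refine Or.inl (hFE P' h1 ?_ a b (Or.inl hi))
      rintro rfl
      exact h2 ⟨z, hz, hdz⟩
    · intro w hw hwO
      rcases hw with hw | hw
      · exact absurd (hFP w hw) hwO.1
      · exact absurd hw (List.not_mem_nil)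
  obtain ⟨w0, hw0, hcon, F', hF', hFn', hm, he, -⟩ :=
    hopX (c1 := r) (c2 := r) le_rfl (ph14_nd hnd) ht hF hFn (Or.inl rfl) (by simp) hHS
  have hrW : r ∈ WR G Ps Rs := wr_mem C hr
  have hFW : ∀ v ∈ F', v ∉ WR G Ps Rs := by
    intro w hw hwW
    rcases hm w hw with h | h | ⟨h1, h2, -⟩
    · exact wr_off hwW (hFP w h)
    · exact absurd h (List.not_mem_nil)
    · exact h2 (ph14_att (wr_conn S C hrW hwW) h1.2)
  -- a neighbour of `w0` in the component
  obtain ⟨w, hwW, haw⟩ : ∃ w ∈ WR G Ps Rs, G.Adj w0 w := by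
    rcases hcon with h | ⟨o, ho, h⟩
    · exact ⟨r, hrW, h.symm⟩
    · refine ⟨o, ?_, h.symm⟩
      obtain ⟨a, h1, Fo, hFo, h2⟩ := ho
      obtain ⟨r', hr', hrr⟩ := hrW
      refine ⟨r', hr', hrr.trans ?_⟩
      refine ⟨r :: Fo, hFo.cons h1, ?_⟩
      intro q hq
      rcases List.mem_cons.1 hq with hq | hq
      · rw [hq]
        exact wr_off (G := G) (Rs := Rs) (wr_mem C hr)
      · exact (h2 q hq).1
  have hcov : ∀ c d, s(c, d) ∈ L → EL F' c d ∨ c ∈ Rs.flatten := by
    intro c1 d1 hcd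
    rcases C.side S hcd with ⟨h1, h2⟩ | ⟨h1, -⟩
    · refine Or.inl (he c1 d1 (hFL c1 d1 hcd h1) ?_)
      intro τ _
      constructor
      · intro hh
        obtain ⟨P', hP', hi, -⟩ := hh.el
        exact C.noP S (ph14_seg hP' hi).1 hcd (Or.inl hi)
      · intro hh
        obtain ⟨P', hP', hi, -⟩ := hh.el
        exact C.noP S (ph14_seg hP' hi).1 hcd (Or.inr hi)
    · exact Or.inr (TR_sub h1)
  rcases ph14_mem.1 hw0 with ⟨P0, hP0, hna, hw0P⟩ | ⟨P0, hP0, ⟨z0, hz0, hdz0⟩, hw0P, hw0d⟩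
  · refine i2_link S hmin C hR hd hF' hFn' hFW hcov (List.mem_flatten.2 ⟨P, hP, hz⟩) hdz hwW haw ?_
    intro hrc
    exact hna ⟨w0, hw0P, w, haw, hrc.symm⟩
  · have h1 := ci_one S hmin hc2 hc C hR hW hd hP0 hz0 hdz0 hw0P hwW haw
    rw [h1] at hw0d
    exact hw0d hdz0

private theorem ph14_sum {X : Set V} {l : List (List V)} : (l.map (fx X)).sum ≤ 2 * l.length := by
  induction l with
  | nil => simp
  | cons a l ih =>
    have h1 := fx_le X a
    simp only [List.map_cons, List.sum_cons, List.length_cons]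
    omega

private theorem ph14_sum0 {X : Set V} {l : List V} (h : ∀ v ∈ l, v ∉ X) :
    ((l.map (fun v => [v])).map (fx X)).sum = 0 := by
  induction l with
  | nil => simp
  | cons a l ih =>
    have h1 : fx X [a] = 0 := by
      unfold fx
      rw [List.filter_cons_of_neg (by simpa using h a (by simp))]
      simp
    simp only [List.map_cons, List.sum_cons, h1, zero_add]
    exact ih (fun v hv => h v (List.mem_cons_of_mem _ hv))

private theorem ph14_len {α : Type w} {p : α → Prop} {l : List α} :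
    (l.filter (fun a => ¬ p a)).length + (l.filter (fun a => p a)).length = l.length := by
  induction l with
  | nil => simp
  | cons a l ih =>
    by_cases h : p a
    · simp only [List.filter_cons, h, not_true_eq_false, decide_false, decide_true, ite_true,
        List.length_cons] at ih ⊢
      simp at ih ⊢
      omega
    · simp only [List.filter_cons, h, not_false_eq_true, decide_false, decide_true, ite_true,
        List.length_cons] at ih ⊢
      simp at ih ⊢
      omega

/-- (I3): few segments are attached to a mixed vertex -/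
theorem ci_i3 [Fintype V] (S : Bs G L k) (hmin : MinC G L c) (hc2 : 2 ≤ c) (hc : 2 * c ≤ k)
    (C : CI G L Ps Rs) (hR : Rs.length = c) (hW : MinW G L c Ps Rs) {d : V}
    (hd : Mx G Ps Rs d) :
    (Ps.filter (fun P => AtP G Ps Rs d P)).length + c ≤ Ps.length := by
  have hcard : Ps.length + c = k := by
    rw [← S.card, ← C.card, hR]
  have hnd : Ps.flatten.Nodup := (List.nodup_append'.1 C.nd).1
  by_cases hs0 : (Ps.filter (fun P => AtP G Ps Rs d P)) = []
  · rw [hs0]
    simp only [List.length_nil]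
    omega
  obtain ⟨P, hPf⟩ := List.exists_mem_of_ne_nil _ hs0
  have hPP := List.mem_filter.1 hPf
  have hP : P ∈ Ps := hPP.1
  obtain ⟨z, hz, hdz⟩ : AtP G Ps Rs d P := by simpa using hPP.2
  -- a vertex of the second cycle
  obtain ⟨r, hr⟩ : ∃ r, r ∈ Rs.flatten := by
    have h3 := C.lenR
    cases hh : Rs.flatten with
    | nil => rw [hh] at h3; simp at h3
    | cons r R => exact ⟨r, by simp⟩
  have hrP : r ∉ Ps.flatten := wr_off (G := G) (Rs := Rs) (wr_mem C hr)
  -- centres are unique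
  have huniq : ∀ P ∈ Ps, ∀ z ∈ P, d ∈ Att G (OM Ps Rs) z → ∀ z' ∈ P,
      d ∈ Att G (OM Ps Rs) z' → z' = z := by
    intro P hP z hz hdz z' hz' hdz'
    obtain ⟨a, ha, hrc⟩ := hdz'
    refine ci_one S hmin hc2 hc C hR hW hd hP hz hdz hz' (w := a) ?_ ha
    have hdW : d ∈ WR G Ps Rs := mx_wr C hd
    obtain ⟨F, hF, hFO⟩ := hrc.symm
    obtain ⟨r', hr', hrr⟩ := hdW
    exact ⟨r', hr', hrr.trans ⟨F, hF, fun w hw => (hFO w hw).1⟩⟩
  set O : Set V := {v | v ∉ Ps.flatten ∧ v ≠ r} with hOdef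
  set Hs := ph14_H G Ps Rs d with hHs
  have hndH : Hs.flatten.Nodup := ph14_nd hnd
  have hrH : r ∉ Hs.flatten := fun h => hrP (ph14_sub h)
  have hOH : ∀ w ∈ Hs.flatten, w ∉ O := fun w hw h => h.1 (ph14_sub hw)
  have hno : ∀ P ∈ Ps, AtP G Ps Rs d P → ∀ v ∈ P, d ∉ Att G (OM Ps Rs) v →
      v ∉ Xg G O Hs r := by
    intro P hP hat v hv hdv
    obtain ⟨z, hz, hdz⟩ := hat
    refine ph14_no S hmin hc2 hc C hR hW hd hr hP hz hdz hv ?_
    rintro rfl
    exact hdv hdz
  -- a vertex of `P` which is no centre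
  obtain ⟨v1, hv1, hv1z⟩ : ∃ v ∈ P, v ≠ z := by
    by_contra hcon
    push Not at hcon
    have h2 := C.twoP P hP
    match P, h2, hcon, flat_nodup hnd hP with
    | [], h2, _, _ => simp at h2
    | [_], h2, _, _ => simp at h2
    | a :: b :: R, _, hcon, hn =>
      have e1 := hcon a (by simp)
      have e2 := hcon b (by simp)
      rw [e1, e2] at hn
      simp at hn
  have hv1d : d ∉ Att G (OM Ps Rs) v1 := fun h => hv1z (huniq P hP z hz hdz v1 hv1 h)
  have hv1P : v1 ∈ Ps.flatten := List.mem_flatten.2 ⟨P, hP, hv1⟩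
  have hv1H : [v1] ∈ Hs := ph14_sing hP ⟨z, hz, hdz⟩ hv1 hv1d
  have hv1X : v1 ∉ Xg G O Hs r := hno P hP ⟨z, hz, hdz⟩ v1 hv1 hv1d
  have hv1O : v1 ∉ O := fun h => h.1 hv1P
  have hv1A : v1 ∉ Ag G O Hs r := by
    rintro (h | h | ⟨l, hl, h | h⟩)
    · rw [h] at hv1P
      exact hrP hv1P
    · exact hv1O (att_mem h)
    · subst h
      obtain ⟨-, P', hP', s, hs, s', hs', h1, h2⟩ := hl
      have h3 : P' = [v1] := flat_same hndH hP' hv1H h2.memL (by simp)
      subst h3
      have h4 : s = v1 := by simpa using h1.memL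
      exact h1.ne (by simp) h4
    · exact hv1O (att_mem h)
  have hrA : r ∈ Ag G O Hs r := Or.inl rfl
  set Z : Set V := {v | v ∈ Ps.flatten ∧ d ∈ Att G (OM Ps Rs) v} with hZ
  have hZc : (fs Z).card ≤ (Ps.filter (fun P => AtP G Ps Rs d P)).length := by
    -- one centre on each attached segment
    have hch : ∀ P : List V, ∃ z, AtP G Ps Rs d P → z ∈ P ∧ d ∈ Att G (OM Ps Rs) z := by
      intro P
      by_cases h : AtP G Ps Rs d P
      · obtain ⟨z, h1, h2⟩ := h
        exact ⟨z, fun _ => ⟨h1, h2⟩⟩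
      · exact ⟨r, fun h' => absurd h' h⟩
    choose zc hzc using hch
    have hsub : fs Z ⊆ ((Ps.filter (fun P => AtP G Ps Rs d P)).map zc).toFinset := by
      intro v hv
      rw [mem_fs] at hv
      obtain ⟨h1, h2⟩ := hv
      obtain ⟨P', hP', hvP'⟩ := List.mem_flatten.1 h1
      have hat : AtP G Ps Rs d P' := ⟨v, hvP', h2⟩
      rw [List.mem_toFinset, List.mem_map]
      refine ⟨P', List.mem_filter.2 ⟨hP', by simpa using hat⟩, ?_⟩
      exact huniq P' hP' v hvP' h2 _ (hzc P' hat).1 (hzc P' hat).2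
    refine (Finset.card_le_card hsub).trans ((List.toFinset_card_le _).trans ?_)
    rw [List.length_map]
  have hE : (fs (Ex G O Hs r)).card ≤ 2 * (Ps.filter (fun P => ¬ AtP G Ps Rs d P)).length := by
    refine (gen_card hndH).trans ?_
    rw [hHs]
    unfold ph14_H
    rw [List.map_append, List.sum_append]
    have h0 : ((((Ps.filter (fun P => AtP G Ps Rs d P)).flatten.filter
      (fun v => d ∉ Att G (OM Ps Rs) v)).map (fun v => [v])).map (fx (Xg G O Hs r))).sum = 0 := by
      apply ph14_sum0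
      intro v hv
      obtain ⟨h1, h2⟩ := List.mem_filter.1 hv
      obtain ⟨P', hP', hvP'⟩ := List.mem_flatten.1 h1
      have h3 := List.mem_filter.1 hP'
      exact hno P' h3.1 (by simpa using h3.2) v hvP' (by simpa using h2)
    have h1 := ph14_sum (X := Xg G O Hs r) (l := Ps.filter (fun P => ¬ AtP G Ps Rs d P))
    rw [hHs] at h0 h1
    unfold ph14_H at h0 h1
    omega
  have hk : k ≤ (fs (Ex G O Hs r) ∪ fs Z).card := by
    refine sep_card S hrA ?_ ?_ hv1A ?_
    · rw [Finset.mem_union, mem_fs, mem_fs]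
      rintro (h | h)
      · exact gen_disj hrH hOH hrA h
      · exact hrP h.1
    · intro a ha w haw
      rcases gen_step ha haw with h | h | ⟨h2, h3, h4⟩
      · exact Or.inl h
      · right
        rw [Finset.mem_union, mem_fs]
        exact Or.inl h
      · right
        rw [Finset.mem_union, mem_fs, mem_fs]
        right
        have hwP : w ∈ Ps.flatten := by
          by_contra hcon
          exact h3 ⟨hcon, h4⟩
        refine ⟨hwP, ?_⟩
        by_contra hcon
        obtain ⟨P', hP', hwP'⟩ := List.mem_flatten.1 hwP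
        apply h2
        apply ph14_mem.2
        by_cases hat : AtP G Ps Rs d P'
        · exact Or.inr ⟨P', hP', hat, hwP', hcon⟩
        · exact Or.inl ⟨P', hP', hat, hwP'⟩
    · rw [Finset.mem_union, mem_fs, mem_fs]
      rintro (h | h)
      · exact hv1X h.1
      · exact hv1d h.2
  have hu := Finset.card_union_le (fs (Ex G O Hs r)) (fs Z)
  have hl := ph14_len (p := fun P => AtP G Ps Rs d P) (l := Ps)
  omega

end Pool.Agent.LW
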