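import Pool.Agent.LW.PH14

set_option autoImplicit false

/-!
# Case I, first half: (I4)
-/

namespace Pool.Agent.LW

open SimpleGraph Classical

universe w

variable {V : Type w} {G H : SimpleGraph V} {L : Finset (Sym2 V)} {k : ℕ}
  {x y : V} {Ps Qs Rs Rest : List (List V)} {c : ℕ}

/-- the ends of the edges of `L` on the second cycle are few -/
private theorem ph15_tr [Fintype V] (Rs : List (List V)) :
    (fs (TR Rs)).card ≤ 2 * Rs.length := by
  have h1 : fs (TR Rs) ⊆ (Rs.map (fun Q => Q.head?)).toFinset.biUnion (fun o => o.toFinset) ∪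
      (Rs.map (fun Q => Q.getLast?)).toFinset.biUnion (fun o => o.toFinset) := by
    intro v hv
    rw [mem_fs] at hv
    rw [Finset.mem_union, Finset.mem_biUnion, Finset.mem_biUnion]
    rcases hv with ⟨Q, hQ, h⟩ | ⟨Q, hQ, h⟩
    · left
      exact ⟨Q.head?, List.mem_toFinset.2 (List.mem_map.2 ⟨Q, hQ, rfl⟩), by rw [h]; simp⟩
    · right
      exact ⟨Q.getLast?, List.mem_toFinset.2 (List.mem_map.2 ⟨Q, hQ, rfl⟩), by rw [h]; simp⟩
  have hb : ∀ l : List (Option V),
      (l.toFinset.biUnion (fun o => o.toFinset)).card ≤ l.length := by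
    intro l
    refine (Finset.card_biUnion_le_card_mul _ _ 1 ?_).trans ?_
    · intro o _
      cases o <;> simp
    · rw [mul_one]
      exact List.toFinset_card_le l
  refine (Finset.card_le_card h1).trans ((Finset.card_union_le _ _).trans ?_)
  have h2 := hb (Rs.map (fun Q => Q.head?))
  have h3 := hb (Rs.map (fun Q => Q.getLast?))
  rw [List.length_map] at h2 h3
  omega

/-- (I4): a mixed vertex is adjacent to all ends of edges of `L` on the second cycle -/
theorem ci_i4 [Fintype V] (S : Bs G L k) (hmin : MinC G L c) (hc2 : 2 ≤ c) (hc : 2 * c ≤ k)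
    (C : CI G L Ps Rs) (hR : Rs.length = c) (hW : MinW G L c Ps Rs) {d : V}
    (hd : Mx G Ps Rs d) {t : V} (ht : t ∈ TR Rs) : G.Adj d t := by
  have hdO : d ∈ OM Ps Rs := Att.mem hd.1.choose_spec.2
  have hdd : Rch G (OM Ps Rs) d d := Rch.refl hdO
  set A : Set V := {v | Rch G (OM Ps Rs) d v} with hA
  set N : Finset V := fs {v | v ∉ A ∧ ∃ a ∈ A, G.Adj a v} with hN
  have hmem : ∀ v, v ∈ N ↔ v ∉ A ∧ ∃ a ∈ A, G.Adj a v := fun v => mem_fs
  -- the vertices of `A` are in the component of the second cycle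
  have hAW : ∀ a ∈ A, a ∈ WR G Ps Rs := fun a ha => mx_wr C (mx_step hd ha)
  -- the neighbours off the component
  have hNc : ∀ v ∈ N, v ∈ TR Rs ∨ v ∈ Ps.flatten ∧ d ∈ Att G (OM Ps Rs) v := by
    intro v hv
    obtain ⟨h1, a, ha, h2⟩ := (hmem v).1 hv
    by_cases hT : v ∈ TR Rs
    · exact Or.inl hT
    · right
      refine ⟨?_, a, h2.symm, Rch.symm ha⟩
      by_contra hP
      apply h1
      exact Rch.trans ha ⟨[a, v], Ch.cons h2 (Ch.single v), by
        intro u hu
        simp only [List.mem_cons, List.not_mem_nil, or_false] at hu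
        rcases hu with hu | hu
        · rw [hu]; exact Rch.right ha
        · rw [hu]; exact ⟨hP, hT⟩⟩
  -- the centres
  set As : List (List V) := Ps.filter (fun P => AtP G Ps Rs d P) with hAs
  set f : List V → V := fun P => if h : AtP G Ps Rs d P then h.choose else d with hf
  have hfz : ∀ P, ∀ h : AtP G Ps Rs d P, f P ∈ P ∧ d ∈ Att G (OM Ps Rs) (f P) := by
    intro P h
    have h1 : f P = h.choose := by simp only [hf, h, dite_true]
    rw [h1]
    exact h.choose_spec
  have hfu : ∀ P ∈ Ps, ∀ h : AtP G Ps Rs d P, ∀ v ∈ P, v ∈ N → v = f P := by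
    intro P hP h v hv hvN
    obtain ⟨h1, a, ha, h2⟩ := (hmem v).1 hvN
    exact ci_one S hmin hc2 hc C hR hW hd hP (hfz P h).1 (hfz P h).2 hv (hAW a ha) h2.symm
  set M : Finset V := fs (TR Rs) ∪ (As.map f).toFinset with hM
  have hNM : N ⊆ M := by
    intro v hv
    rw [hM, Finset.mem_union]
    rcases hNc v hv with h | ⟨h, h'⟩
    · exact Or.inl (mem_fs.2 h)
    · right
      obtain ⟨P, hP, hvP⟩ := List.mem_flatten.1 h
      have hAt : AtP G Ps Rs d P := ⟨v, hvP, h'⟩
      rw [List.mem_toFinset, List.mem_map]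
      exact ⟨P, List.mem_filter.2 ⟨hP, by simpa using hAt⟩, (hfu P hP hAt v hvP hv).symm⟩
  have hMc : M.card ≤ k := by
    have h1 := ci_i3 S hmin hc2 hc C hR hW hd
    have h2 := ph15_tr Rs
    have h3 : (As.map f).toFinset.card ≤ As.length := by
      have := List.toFinset_card_le (As.map f)
      rwa [List.length_map] at this
    have h4 := Finset.card_union_le (fs (TR Rs)) (As.map f).toFinset
    have h5 := C.card
    rw [S.card] at h5
    rw [← hM] at h4
    rw [← hAs] at h1
    omega
  -- a vertex off the closure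
  obtain ⟨z, hzA, hzN⟩ : ∃ z, z ∉ A ∧ z ∉ N := by
    have hne : Ps ≠ [] := C.jnP.ne
    obtain ⟨P, hP⟩ := List.exists_mem_of_ne_nil _ hne
    have h2 := C.twoP P hP
    have hPn : P.Nodup := flat_nodup (List.nodup_append'.1 C.nd).1 hP
    match P, hP, h2, hPn with
    | p :: q :: P, hP, _, hPn =>
      have hpq : p ≠ q := by
        intro h
        rw [h] at hPn
        simp at hPn
      have hoff : ∀ v ∈ p :: q :: P, v ∉ A := by
        intro v hv hvA
        exact (Rch.right hvA).1 (List.mem_flatten.2 ⟨_, hP, hv⟩)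
      have hone : ∀ v ∈ p :: q :: P, ∀ v' ∈ p :: q :: P, v ∈ N → v' ∈ N → v = v' := by
        intro v hv v' hv' hN1 hN2
        have hAt : AtP G Ps Rs d (p :: q :: P) := by
          rcases hNc v hN1 with h | ⟨h, h'⟩
          · exact absurd (TR_sub h) (fun h3 =>
              (List.nodup_append'.1 C.nd).2.2 (List.mem_flatten.2 ⟨_, hP, hv⟩) h3)
          · exact ⟨v, hv, h'⟩
        exact (hfu _ hP hAt v hv hN1).trans (hfu _ hP hAt v' hv' hN2).symm
      by_cases hpN : p ∈ N
      · refine ⟨q, hoff q (by simp), ?_⟩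
        intro hqN
        exact hpq (hone p (by simp) q (by simp) hpN hqN)
      · exact ⟨p, hoff p (by simp), hpN⟩
  have hk : k ≤ N.card := by
    refine sep_card S (A := A) (a := d) (z := z) hdd ?_ ?_ hzA hzN
    · intro h
      exact ((hmem d).1 h).1 hdd
    · intro a ha v hv
      by_cases h : v ∈ A
      · exact Or.inl h
      · exact Or.inr ((hmem v).2 ⟨h, a, ha, hv⟩)
  have hle := Finset.card_le_card hNM
  have hNM' : N = M := Finset.eq_of_subset_of_card_le hNM (by omega)
  have ter : ∀ e ∈ L, ∀ v ∈ e, v ∈ A → v = d := by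
    intro e he v hv hvA
    exfalso
    obtain ⟨w, rfl⟩ := Sym2.mem_iff_exists.1 hv
    rcases C.side S he with ⟨h, -⟩ | ⟨h, -⟩
    · exact (Rch.right hvA).1 h
    · exact (Rch.right hvA).2 h
  refine em_lemma S hmem (by omega) ⟨z, hzA, hzN⟩ hdd ter ?_
  rw [hNM', hM, Finset.mem_union]
  exact Or.inl (mem_fs.2 ht)

end Pool.Agent.LW
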