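import Pool.Agent.LW.PA
import Pool.Agent.BND.MG1a

set_option autoImplicit false

/-!
# two disjoint paths
-/

namespace Pool.Agent.LW

open SimpleGraph Classical

variable {V : Type} {G : SimpleGraph V}

/-- Menger: one vertex on all paths from `A` to `B` inside `S`, or two disjoint such paths -/
theorem menger2 [Fintype V] (h0 : V) (S A B : Set V) :
    (∃ h, ∀ a ∈ A, ∀ b ∈ B, ∀ F, Ch G a b F → (∀ v ∈ F, v ∈ S) → h ∈ F) ∨
    ∃ a ∈ A, ∃ b ∈ B, ∃ a' ∈ A, ∃ b' ∈ B, ∃ F F', Ch G a b F ∧ Ch G a' b' F' ∧ F.Nodup ∧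
      F'.Nodup ∧ (∀ v ∈ F, v ∈ S) ∧ (∀ v ∈ F', v ∈ S) ∧ ∀ v ∈ F, v ∉ F' := by
  by_cases hx : ∃ h, ∀ a ∈ A, ∀ b ∈ B, ∀ F, Ch G a b F → (∀ v ∈ F, v ∈ S) → h ∈ F
  · exact Or.inl hx
  right
  push Not at hx
  have key : ∀ x, ∃ a ∈ Finset.univ.filter (fun v => v ∈ A ∧ v ∈ S),
      ∃ b ∈ Finset.univ.filter (fun v => v ∈ B ∧ v ∈ S),
      ∃ l, BND.Pth G ((Finset.univ.filter (fun v => v ∈ S)).erase x) a b l := by
    intro x
    obtain ⟨a, ha, b, hb, F, hF, hS, hxF⟩ := hx x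
    obtain ⟨F', hF', hn, hsub⟩ := hF.path
    have haS : a ∈ S := hS a hF.memL
    have hbS : b ∈ S := hS b hF.memR
    refine ⟨a, by simp [ha, haS], b, by simp [hb, hbS], F', hF'.hd, hF'.lt, hn, hF'.ch, ?_⟩
    intro z hz
    have hzF : z ∈ F := hsub z hz
    rw [Finset.mem_erase]
    refine ⟨?_, by simp [hS z hzF]⟩
    rintro rfl
    exact hxF hzF
  have hne : (Finset.univ.filter (fun v => v ∈ A ∧ v ∈ S)).Nonempty := by
    obtain ⟨a, ha, _⟩ := key h0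
    exact ⟨a, ha⟩
  obtain ⟨a, ha, a', ha', b, hb, b', hb', F, F', h1, h2, h3⟩ :=
    BND.menger2_weak (G := G) (Finset.univ.filter (fun v => v ∈ S))
      (Finset.univ.filter (fun v => v ∈ A ∧ v ∈ S)) (Finset.univ.filter (fun v => v ∈ B ∧ v ∈ S))
      (fun v hv => by simp only [Finset.mem_filter, Finset.mem_univ, true_and] at hv ⊢; exact hv.2)
      (fun v hv => by simp only [Finset.mem_filter, Finset.mem_univ, true_and] at hv ⊢; exact hv.2)
      hne key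
  simp only [Finset.mem_filter, Finset.mem_univ, true_and] at ha ha' hb hb'
  have hs : ∀ (l : List V) (u v : V), BND.Pth G (Finset.univ.filter (fun v => v ∈ S)) u v l →
      ∀ z ∈ l, z ∈ S := by
    intro l u v h z hz
    have := h.sub z hz
    simpa using this
  exact ⟨a, ha.1, b, hb.1, a', ha'.1, b', hb'.1, F, F', ⟨h1.head, h1.last, h1.chain⟩,
    ⟨h2.head, h2.last, h2.chain⟩, h1.nodup, h2.nodup, hs _ _ _ h1, hs _ _ _ h2, h3⟩

end Pool.Agent.LW
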