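import Pool.Agent.LW.PH5

set_option autoImplicit false

/-!
# Case I, first half: closing inside the second cycle
-/

namespace Pool.Agent.LW

open SimpleGraph Classical

universe w

variable {V : Type w} {G H : SimpleGraph V} {L : Finset (Sym2 V)} {k : ℕ}
  {x y : V} {Ps Qs Rs Rest : List (List V)} {c : ℕ}

/-- the closed list `d h1 A t .. t' B h` -/
theorem ph17_cl {E A B : List V} {t t' h h1 d : V} (hA : Ch G h1 t (h1 :: (A ++ [t])))
    (hE : Ch G t t' E) (hB : Ch G t' h (t' :: (B ++ [h]))) (h1d : G.Adj d h1) (hd : G.Adj d h)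
    (hn : (d :: h1 :: (A ++ (E ++ (B ++ [h])))).Nodup) :
    Cl G d h (d :: h1 :: (A ++ (E ++ (B ++ [h])))) ∧
    (∀ a b, EL (h1 :: (A ++ [t])) a b → EL (d :: h1 :: (A ++ (E ++ (B ++ [h])))) a b) ∧
    (∀ a b, EL E a b → EL (d :: h1 :: (A ++ (E ++ (B ++ [h])))) a b) ∧
    (∀ a b, EL (t' :: (B ++ [h])) a b → EL (d :: h1 :: (A ++ (E ++ (B ++ [h])))) a b) := by
  obtain ⟨E1, rfl⟩ : ∃ E1, E = t :: E1 := by
    obtain ⟨hh, hl, hc⟩ := hE
    cases E with
    | nil => simp at hh
    | cons e E1 =>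
      simp only [List.head?_cons, Option.some.injEq] at hh
      exact ⟨E1, by rw [hh]⟩
  obtain ⟨E2, hE2⟩ : ∃ E2, t :: E1 = E2 ++ [t'] := by
    obtain ⟨hh, hl, hc⟩ := hE
    exact ⟨_, (List.dropLast_append_getLast? t' (by simpa using hl)).symm⟩
  have c1 : Ch G h1 t' ((h1 :: A) ++ t :: E1) := Ch.glue hA hE
  have c2 : Ch G h1 h (((h1 :: A) ++ E2) ++ t' :: (B ++ [h])) := by
    refine Ch.glue ?_ hB
    have : (h1 :: A ++ E2) ++ [t'] = (h1 :: A) ++ t :: E1 := by rw [hE2]; simp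
    rw [this]; exact c1
  have e2 : ((h1 :: A) ++ E2) ++ t' :: (B ++ [h]) = h1 :: (A ++ (t :: E1 ++ (B ++ [h]))) := by
    rw [hE2]; simp
  rw [e2] at c2
  refine ⟨⟨Ch.cons h1d c2, hn, hd.symm, by simp; omega⟩, ?_, ?_, ?_⟩
  · intro a b hab
    exact hab.mono ⟨[d], E1 ++ (B ++ [h]), by simp⟩
  · intro a b hab
    exact hab.mono ⟨d :: h1 :: A, B ++ [h], by simp⟩
  · intro a b hab
    exact hab.mono ⟨d :: h1 :: (A ++ E2), [], by rw [hE2]; simp⟩

theorem ph17_form {Q : List V} {t : V} (h2 : 2 ≤ Q.length) (ht : Q.getLast? = some t) :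
    ∃ h K, Q = h :: (K ++ [t]) := by
  cases Q with
  | nil => simp at h2
  | cons a Q =>
    have hne : Q ≠ [] := by rintro rfl; simp at h2
    refine ⟨a, Q.dropLast, ?_⟩
    have h3 : Q.getLast? = some t := by
      rw [List.getLast?_cons] at ht
      rw [List.getLast?_eq_some_getLast hne] at ht ⊢
      simpa using ht
    rw [List.dropLast_append_getLast? t (by simpa using h3)]

/-- the first edge of a linked path -/
theorem ph17_first {M : List (List V)} (h : Lk G L x M y) :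
    ∃ a, s(x, a) ∈ L ∧ EL (RL x y M) x a := by
  cases M with
  | nil => exact ⟨y, h, EL.intro (A := []) (D := [])⟩
  | cons P M =>
    obtain ⟨c, e, h1, h2, -⟩ := h
    obtain ⟨P', rfl⟩ : ∃ P', P = c :: P' := by
      have := h2.hd
      cases P with
      | nil => simp at this
      | cons a P' => simp at this; exact ⟨P', by rw [this]⟩
    refine ⟨c, h1, ?_⟩
    have : RL x y ((c :: P') :: M) = [] ++ x :: c :: (P' ++ M.flatten ++ [y]) := by
      simp [RL]
    rw [this]
    exact EL.intro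

theorem ph17_nd {E X Y : List V} {d : V} (R : (X ++ Y).Nodup) (hE : E.Nodup)
    (hEA : ∀ v ∈ E, v ∉ X ++ Y) (hd : d ∉ E) (hd' : d ∉ X ++ Y) :
    (d :: (X ++ (E ++ Y))).Nodup := by
  have hp : (d :: (X ++ (E ++ Y))).Perm (d :: (E ++ (X ++ Y))) := by
    refine List.Perm.cons _ ?_
    rw [← List.append_assoc, ← List.append_assoc]
    exact List.Perm.append_right _ List.perm_append_comm
  rw [hp.nodup_iff, List.nodup_cons, List.nodup_append']
  refine ⟨?_, hE, R, fun v hv hv' => hEA v hv hv'⟩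
  rw [List.mem_append, not_or]
  exact ⟨hd, hd'⟩

theorem ph17_core (S : Bs G L k) (hmin : MinC G L c) {Q Q' : List V} {N1 N2 : List (List V)}
    (C : CI G L Ps (Q :: (N1 ++ Q' :: N2))) (hR : (Q :: (N1 ++ Q' :: N2)).length = c) {d : V}
    (hdT : d ∉ TR (Q :: (N1 ++ Q' :: N2)))
    (hadj : ∀ t ∈ TR (Q :: (N1 ++ Q' :: N2)), G.Adj d t)
    {E : List V} {t t' : V} (hQ : Q.getLast? = some t) (hQ' : Q'.getLast? = some t')
    (hE : Ch G t t' E) (hEn : E.Nodup)
    (hER : ∀ v ∈ E, v ∈ (Q :: (N1 ++ Q' :: N2)).flatten → v = t ∨ v = t')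
    (hcov : ∀ c d, s(c, d) ∈ L → EL E c d ∨ c ∈ (Q :: (N1 ++ Q' :: N2)).flatten) (hdE : d ∉ E)
    (hd2 : d ∉ N2.flatten) : False := by
  obtain ⟨h, K, rfl⟩ := ph17_form (C.twoR Q (by simp)) hQ
  obtain ⟨h', K', rfl⟩ := ph17_form (C.twoR Q' (by simp)) hQ'
  have hbase : ((h :: (K ++ [t])) ++ (N1.flatten ++ ((h' :: (K' ++ [t'])) ++ N2.flatten))).Nodup := by
    have := (List.nodup_append'.1 C.nd).2.1
    simpa using this
  have j := C.jnR
  have hch := C.chR
  have htwo := C.twoR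
  have j1 : ((h :: (K ++ [t])) :: (N1 ++ [h' :: (K' ++ [t'])])).IsChain (JL L) := by
    refine chain_of_inf j ⟨[], N2 ++ [h :: (K ++ [t])], by simp⟩
  have j2 : ((h' :: (K' ++ [t'])) :: (N2 ++ [h :: (K ++ [t])])).IsChain (JL L) := by
    refine chain_of_inf j ⟨(h :: (K ++ [t])) :: N1, [], by simp⟩
  have hne : ∀ R ∈ (h :: (K ++ [t])) :: (N1 ++ (h' :: (K' ++ [t'])) :: N2), R ≠ [] := by
    intro R hR1 hR2
    have := htwo R hR1
    rw [hR2] at this
    simp at this
  have l1 : Lk G L t N1 h' := lk_of_isChain j1 (fun R hR1 => hch R (by simp [hR1]))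
    (fun R hR1 => hne R (by simp [hR1])) hQ (by simp)
  have l2 : Lk G L t' N2 h := lk_of_isChain j2 (fun R hR1 => hch R (by simp [hR1]))
    (fun R hR1 => hne R (by simp [hR1])) hQ' (by simp)
  -- the edges of `L`
  have hTh : h ∈ TR ((h :: (K ++ [t])) :: (N1 ++ (h' :: (K' ++ [t'])) :: N2)) :=
    Or.inl ⟨h :: (K ++ [t]), by simp, rfl⟩
  have hTh' : h' ∈ TR ((h :: (K ++ [t])) :: (N1 ++ (h' :: (K' ++ [t'])) :: N2)) :=
    Or.inl ⟨h' :: (K' ++ [t']), by simp, rfl⟩
  have hTt' : t' ∈ TR ((h :: (K ++ [t])) :: (N1 ++ (h' :: (K' ++ [t'])) :: N2)) :=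
    Or.inr ⟨h' :: (K' ++ [t']), by simp, hQ'⟩
  have hTt : t ∈ TR ((h :: (K ++ [t])) :: (N1 ++ (h' :: (K' ++ [t'])) :: N2)) :=
    Or.inr ⟨h :: (K ++ [t]), by simp, hQ⟩
  have cov : ∀ a b, s(a, b) ∈ L → EL E a b ∨ EL (RL t h' N1) a b ∨ EL (RL t' h N2) a b := by
    intro a b hab
    rcases hcov a b hab with h1 | h1
    · exact Or.inl h1
    · right
      have h2 := C.covR S (Rest := N1 ++ (h' :: (K' ++ [t'])) :: N2) ⟨[], _, rfl, by simp⟩ hQ
        (y := h) (by simp) hab h1
      have e1 : RL t h (N1 ++ (h' :: (K' ++ [t'])) :: N2) =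
          (t :: N1.flatten) ++ h' :: (K' ++ t' :: (N2.flatten ++ [h])) := by simp [RL]
      rw [e1] at h2
      rcases EL.split h2 with h3 | h3
      · left
        simpa [RL] using h3
      · have e2 : h' :: (K' ++ t' :: (N2.flatten ++ [h])) =
            (h' :: K') ++ t' :: (N2.flatten ++ [h]) := by simp
        rw [e2] at h3
        rcases EL.split h3 with h4 | h4
        · exact absurd h4 (by simpa using C.noR S (Q := h' :: (K' ++ [t'])) (by simp) hab)
        · exact Or.inr h4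
  have hsubR : ∀ v, v ∈ ((h :: (K ++ [t])) :: (N1 ++ (h' :: (K' ++ [t'])) :: N2)).flatten ↔
      v ∈ ((h :: (K ++ [t])) ++ (N1.flatten ++ ((h' :: (K' ++ [t'])) ++ N2.flatten))) := by
    intro v; simp
  have hcne : ∀ v ∈ TR ((h :: (K ++ [t])) :: (N1 ++ (h' :: (K' ++ [t'])) :: N2)), d ≠ v := by
    rintro v hv rfl
    exact hdT hv
  by_cases hd1 : d ∈ N1.flatten
  · obtain ⟨Q1, hQ1, hdQ1⟩ := List.mem_flatten.1 hd1
    obtain ⟨N1a, N1b, rfl⟩ := List.append_of_mem hQ1
    obtain ⟨h1, t1, l3, q1, l4⟩ := l1.split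
    have hQ1t := q1.lt
    obtain ⟨h1', K1, rfl⟩ := ph17_form (C.twoR Q1 (by simp)) hQ1t
    have hh1 : h1' = h1 := by simpa using q1.hd
    subst hh1
    have hTh1 : h1' ∈ TR ((h :: (K ++ [t])) :: ((N1a ++ (h1' :: (K1 ++ [t1])) :: N1b) ++
        (h' :: (K' ++ [t'])) :: N2)) := Or.inl ⟨h1' :: (K1 ++ [t1]), by simp, rfl⟩
    have hTt1 : t1 ∈ TR ((h :: (K ++ [t])) :: ((N1a ++ (h1' :: (K1 ++ [t1])) :: N1b) ++
        (h' :: (K' ++ [t'])) :: N2)) := Or.inr ⟨h1' :: (K1 ++ [t1]), by simp, hQ1t⟩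
    have hdK1 : d ∈ K1 := by
      have e1 := hcne _ hTh1
      have e2 := hcne _ hTt1
      simpa [e1, e2] using hdQ1
    have nd2 : ((RL t1 h' N1b ++ (t :: t' :: [d])) ++ ((h1' :: N1a.flatten.reverse) ++
        (N2.flatten ++ [h]))).Nodup := by
      obtain ⟨K2, K3, rfl⟩ := List.append_of_mem hdK1
      refine nodup_of_count hbase ?_
      intro v
      simp only [RL, List.flatten_append, List.flatten_cons, List.count_append, List.count_cons,
        List.count_nil, List.count_reverse, List.cons_append]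
      omega
    obtain ⟨nd3, nd4, nd5⟩ := List.nodup_append'.1 nd2
    obtain ⟨nd6, nd7, nd8⟩ := List.nodup_append'.1 nd3
    have hEin : ∀ v ∈ E, v ∈ RL t1 h' N1b ∨ v ∈ (h1' :: N1a.flatten.reverse) ++
        (N2.flatten ++ [h]) → False := by
      intro v hv hv2
      have hv3 : v = t ∨ v = t' := by
        apply hER v hv
        rw [hsubR]
        simp only [RL, List.mem_append, List.mem_cons, List.mem_reverse, List.flatten_append,
          List.flatten_cons, List.not_mem_nil, or_false] at hv2 ⊢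
        tauto
      rcases hv2 with hv2 | hv2
      · refine nd8 hv2 ?_
        simp only [List.mem_cons]
        tauto
      · refine nd5 (a := v) ?_ hv2
        rw [List.mem_append]
        right
        simp only [List.mem_cons]
        tauto
    have hdX : d ∉ (h1' :: N1a.flatten.reverse) ++ (N2.flatten ++ [h]) := by
      intro hd3
      exact nd5 (a := d) (by simp) hd3
    have hnd := ph17_nd nd4 hEn (fun v hv hv2 => hEin v hv (Or.inr hv2)) hdE hdX
    have hA : Ch G h1' t (h1' :: (N1a.flatten.reverse ++ [t])) := by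
      have := (lk_ch S.sub l3).reverse
      simpa [RL] using this
    have hB : Ch G t' h (t' :: (N2.flatten ++ [h])) := lk_ch S.sub l2
    obtain ⟨p1, p2, p3, p4⟩ := ph17_cl hA hE hB (hadj _ hTh1) (hadj _ hTh) hnd
    obtain ⟨a, ha, ha'⟩ := ph17_first l2
    have g1 : ∀ v ∈ d :: ((h1' :: N1a.flatten.reverse) ++ (E ++ (N2.flatten ++ [h]))),
        v ∉ RL t1 h' N1b := by
      intro v hv hv2
      have hv3 : v = d ∨ v ∈ E ∨ v ∈ (h1' :: N1a.flatten.reverse) ++ (N2.flatten ++ [h]) := by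
        rcases List.mem_cons.1 hv with hv | hv
        · exact Or.inl hv
        · rcases List.mem_append.1 hv with hv | hv
          · exact Or.inr (Or.inr (List.mem_append_left _ hv))
          · rcases List.mem_append.1 hv with hv | hv
            · exact Or.inr (Or.inl hv)
            · exact Or.inr (Or.inr (List.mem_append_right _ hv))
      rcases hv3 with rfl | hv3 | hv3
      · exact nd8 hv2 (by simp)
      · exact hEin v hv3 (Or.inl hv2)
      · exact nd5 (List.mem_append_left _ hv2) hv3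
    have g2 : ∀ a b, s(a, b) ∈ L →
        EC d h (d :: ((h1' :: N1a.flatten.reverse) ++ (E ++ (N2.flatten ++ [h])))) a b ∨
          EL (RL t1 h' N1b) a b := by
      intro a b hab
      rcases cov a b hab with h2 | h2 | h2
      · exact Or.inl (Or.inl (p3 _ _ h2))
      · have e1 : RL t h' (N1a ++ (h1' :: (K1 ++ [t1])) :: N1b) =
            (t :: N1a.flatten) ++ h1' :: (K1 ++ t1 :: (N1b.flatten ++ [h'])) := by simp [RL]
        rw [e1] at h2
        rcases EL.split h2 with h3 | h3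
        · left; left
          refine p2 _ _ ?_
          have := h3.reverse
          simpa using this
        · have e2 : h1' :: (K1 ++ t1 :: (N1b.flatten ++ [h'])) =
              (h1' :: K1) ++ t1 :: (N1b.flatten ++ [h']) := by simp
          rw [e2] at h3
          rcases EL.split h3 with h4 | h4
          · exact absurd h4 (by simpa using C.noR S (Q := h1' :: (K1 ++ [t1])) (by simp) hab)
          · exact Or.inr h4
      · exact Or.inl (Or.inl (p4 _ _ h2))
    obtain ⟨Ps'', r1, r2⟩ := lc_of_closed S.ind p1 (x := t1) (y := h') (M := N1b)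
      ⟨nd6, fun R hR1 => C.twoR R (by simp [hR1]), l4⟩
      (fun R hR1 a b hab => C.noR S (Q := R) (by simp [hR1]) hab) g1 ha (Or.inl (p4 _ _ ha')) g2
    have hlk : Lkd G t1 h' Ps'' N1b :=
      ⟨d, r1.mem_iff.2 (by simp), Or.inl (hadj _ hTh').symm⟩
    have := hmin _ _ _ _ r2 hlk
    simp at hR
    omega
  · have nd2 : ((t :: t' :: []) ++ ((h' :: N1.flatten.reverse) ++ (N2.flatten ++ [h]))).Nodup := by
      refine nodup_of_count hbase ?_
      intro v
      simp only [List.count_append, List.count_cons,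
        List.count_nil, List.count_reverse, List.cons_append]
      omega
    obtain ⟨nd3, nd4, nd5⟩ := List.nodup_append'.1 nd2
    have hEin : ∀ v ∈ E, v ∈ (h' :: N1.flatten.reverse) ++ (N2.flatten ++ [h]) → False := by
      intro v hv hv2
      have hv3 : v = t ∨ v = t' := by
        apply hER v hv
        rw [hsubR]
        simp only [List.mem_append, List.mem_cons, List.mem_reverse,
          List.not_mem_nil, or_false] at hv2 ⊢
        rcases hv2 with (h3 | h3) | h3 | h3 <;> simp [h3]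
      refine nd5 (a := v) ?_ hv2
      simp only [List.mem_cons]
      tauto
    have hdX : d ∉ (h' :: N1.flatten.reverse) ++ (N2.flatten ++ [h]) := by
      have e1 := hcne _ hTh'
      have e2 := hcne _ hTh
      simp only [List.mem_append, List.mem_cons, List.mem_reverse, List.not_mem_nil, or_false]
      tauto
    have hnd := ph17_nd nd4 hEn hEin hdE hdX
    have hA : Ch G h' t (h' :: (N1.flatten.reverse ++ [t])) := by
      have := (lk_ch S.sub l1).reverse
      simpa [RL] using this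
    have hB : Ch G t' h (t' :: (N2.flatten ++ [h])) := lk_ch S.sub l2
    obtain ⟨p1, p2, p3, p4⟩ := ph17_cl hA hE hB (hadj _ hTh') (hadj _ hTh) hnd
    obtain ⟨a, ha, ha'⟩ := ph17_first l2
    obtain ⟨Zs, hZs⟩ := full_of_closed S.ind ⟨_, ha⟩ p1.ch p1.nd p1.cl p1.len (fun a b hab => by
      rcases cov a b hab with h2 | h2 | h2
      · exact Or.inl (p3 _ _ h2)
      · refine Or.inl (p2 _ _ ?_)
        have := h2.reverse
        simpa [RL] using this
      · exact Or.inl (p4 _ _ h2))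
    exact S.no Zs hZs

theorem ph17_TR {Rs' : List (List V)} (h : Rot Rs Rs') {v : V} : v ∈ TR Rs ↔ v ∈ TR Rs' := by
  constructor
  · rintro (⟨Q, hQ, h1⟩ | ⟨Q, hQ, h1⟩)
    · exact Or.inl ⟨Q, h.mem.1 hQ, h1⟩
    · exact Or.inr ⟨Q, h.mem.1 hQ, h1⟩
  · rintro (⟨Q, hQ, h1⟩ | ⟨Q, hQ, h1⟩)
    · exact Or.inl ⟨Q, h.mem.2 hQ, h1⟩
    · exact Or.inr ⟨Q, h.mem.2 hQ, h1⟩

theorem ph17_fl {Rs' : List (List V)} (h : Rot Rs Rs') {v : V} :
    v ∈ Rs.flatten ↔ v ∈ Rs'.flatten := by
  simp only [List.mem_flatten]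
  constructor
  · rintro ⟨Q, hQ, h1⟩
    exact ⟨Q, h.mem.1 hQ, h1⟩
  · rintro ⟨Q, hQ, h1⟩
    exact ⟨Q, h.mem.2 hQ, h1⟩

theorem ph17_len {Rs' : List (List V)} (h : Rot Rs Rs') : Rs'.length = Rs.length := by
  obtain ⟨A, D, rfl, rfl⟩ := h
  simp; omega

/-- a path between two last vertices, closed through a vertex `d` adjacent to all ends -/
theorem i5_in (S : Bs G L k) (hmin : MinC G L c) (C : CI G L Ps Rs) (hR : Rs.length = c)
    {d : V} (hdP : d ∉ Ps.flatten) (hdT : d ∉ TR Rs) (hadj : ∀ t ∈ TR Rs, G.Adj d t)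
    {E : List V} {t t' : V} (hne : t ≠ t') (ht : t ∈ LR Rs) (ht' : t' ∈ LR Rs)
    (hE : Ch G t t' E) (hEn : E.Nodup) (hER : ∀ v ∈ E, v ∈ Rs.flatten → v = t ∨ v = t')
    (hcov : ∀ c d, s(c, d) ∈ L → EL E c d ∨ c ∈ Rs.flatten) (hdE : d ∉ E) : False := by
  obtain ⟨Q, hQ, h1⟩ := ht
  obtain ⟨Q', hQ', h2⟩ := ht'
  obtain ⟨A, D, rfl⟩ := List.append_of_mem hQ
  have hQ2 : Q' ∈ D ++ A := by
    rcases List.mem_append.1 hQ' with h3 | h3
    · exact List.mem_append_right _ h3
    · rcases List.mem_cons.1 h3 with h3 | h3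
      · exfalso
        rw [h3, h1] at h2
        exact hne (Option.some.inj h2)
      · exact List.mem_append_left _ h3
  obtain ⟨N1, N2, hN⟩ := List.append_of_mem hQ2
  have hrot : Rot (A ++ Q :: D) (Q :: (N1 ++ Q' :: N2)) := by
    rw [← hN]
    exact ⟨A, Q :: D, rfl, by simp⟩
  have hrot2 : Rot (Q :: (N1 ++ Q' :: N2)) (Q' :: (N2 ++ Q :: N1)) :=
    ⟨Q :: N1, Q' :: N2, by simp, by simp⟩
  by_cases hd2 : d ∈ N2.flatten
  · refine ph17_core S hmin (d := d) ((C.rotR hrot).rotR hrot2) ?_ ?_ ?_ h2 h1 hE.reverse (List.nodup_reverse.2 hEn)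
      ?_ ?_ ?_ ?_
    · rw [ph17_len hrot2, ph17_len hrot]; exact hR
    · rw [← ph17_TR hrot2, ← ph17_TR hrot]; exact hdT
    · intro t ht
      exact hadj t ((ph17_TR hrot).2 ((ph17_TR hrot2).2 ht))
    · intro v hv hv2
      exact (hER v (List.mem_reverse.1 hv) ((ph17_fl hrot).2 ((ph17_fl hrot2).2 hv2))).symm
    · intro a b hab
      rw [← ph17_fl hrot2, ← ph17_fl hrot]
      exact (hcov a b hab).imp_left (fun h => h.reverse)
    · simpa using hdE
    · intro hd1
      have hnd : (Q :: (N1 ++ Q' :: N2)).flatten.Nodup :=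
        (List.nodup_append'.1 (C.rotR hrot).nd).2.1
      obtain ⟨X, hX, hX1⟩ := List.mem_flatten.1 hd1
      obtain ⟨Y, hY, hY1⟩ := List.mem_flatten.1 hd2
      simp only [List.flatten_cons, List.flatten_append] at hnd
      have h5 := (List.nodup_append'.1 hnd).2.1
      exact (List.nodup_append'.1 h5).2.2 hd1 (List.mem_append_right _ hd2)
  · refine ph17_core S hmin (d := d) (C.rotR hrot) ?_ ?_ ?_ h1 h2 hE hEn
      ?_ ?_ hdE hd2
    · rw [ph17_len hrot]; exact hR
    · rw [← ph17_TR hrot]; exact hdT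
    · intro t ht
      exact hadj t ((ph17_TR hrot).2 ht)
    · intro v hv hv2
      exact hER v hv ((ph17_fl hrot).2 hv2)
    · intro a b hab
      rw [← ph17_fl hrot]
      exact hcov a b hab

end Pool.Agent.LW
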