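import Pool.Agent.LW.PH1

set_option autoImplicit false

/-!
# Case I, first half: arcs of the first cycle
-/

namespace Pool.Agent.LW

open SimpleGraph Classical

universe w

variable {V : Type w} {G H : SimpleGraph V} {L : Finset (Sym2 V)} {k : ℕ}
  {x y : V} {Ps Qs Rs Rest : List (List V)} {c : ℕ}

private theorem ph2_app {F X Y : List V} {a b : V} (h : [a, b] <:+: F) :
    [a, b] <:+: X ++ (F ++ Y) := by
  obtain ⟨s, t, hst⟩ := h
  exact ⟨X ++ s, t ++ Y, by rw [← hst]; simp⟩

private theorem ph2_junc {P0 P1 Q0 Q1 A B : List V} {N : List (List V)} {c d : V}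
    (h0 : Q0.getLast? = P0.getLast?) (h1 : Q1.head? = P1.head?)
    (h : [A, B] <:+: P0 :: (N ++ [P1])) (hc : A.getLast? = some c) (hd : B.head? = some d) :
    [c, d] <:+: Q0 ++ (N.flatten ++ Q1) := by
  have key : ∀ {X Y : List V}, X.getLast? = some c → Y.head? = some d → [c, d] <:+: X ++ Y := by
    intro X Y hX hY
    rcases List.eq_nil_or_concat X with h2 | ⟨X', p, h2⟩
    · rw [h2] at hX; simp at hX
    · cases Y with
      | nil => simp at hY
      | cons q Y =>
        rw [h2] at hX
        simp only [List.concat_eq_append, List.getLast?_append, List.getLast?_singleton,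
          Option.some_or, Option.some.injEq] at hX
        simp only [List.head?_cons, Option.some.injEq] at hY
        exact ⟨X', Y, by rw [h2, hX, hY]; simp⟩
  induction N generalizing P0 Q0 with
  | nil =>
    obtain ⟨s, t, hst⟩ := h
    have hl := congrArg List.length hst
    simp only [List.length_append, List.length_cons, List.length_nil] at hl
    have hs : s = [] := List.length_eq_zero_iff.1 (by omega)
    have ht : t = [] := List.length_eq_zero_iff.1 (by omega)
    subst hs; subst ht
    simp only [List.nil_append, List.append_nil, List.cons.injEq, and_true] at hst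
    obtain ⟨e1, e2⟩ := hst
    subst e1; subst e2
    simpa using key (h0.trans hc) (h1.trans hd)
  | cons R N ih =>
    obtain ⟨s, t, hst⟩ := h
    cases s with
    | nil =>
      simp only [List.nil_append, List.cons_append, List.cons.injEq] at hst
      obtain ⟨e1, e2, -⟩ := hst
      subst e1; subst e2
      have h2 := key (h0.trans hc) hd
      have h3 := ph2_app (X := []) (Y := N.flatten ++ Q1) h2
      simpa using h3
    | cons S s =>
      simp only [List.cons_append, List.cons.injEq] at hst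
      have h2 : [A, B] <:+: R :: (N ++ [P1]) := ⟨s, t, by simpa using hst.2⟩
      have h3 := ph2_app (X := Q0) (Y := []) (ih (Q0 := R) rfl h2)
      simpa using h3

private theorem ph2_core (S : Bs G L k) (C : CI G L Ps Rs) {P : List V} (hP : P ∈ Ps) {u v : V}
    (huv : Bf P u v) : ∃ F, Ch G v u F ∧ F.Nodup ∧
      (∀ w ∈ F, w ∈ Ps.flatten) ∧
      (∀ w ∈ Ps.flatten, w ∉ F → w ∈ P ∧ (Bf P u w ∧ Bf P w v)) ∧
      (∀ c d, s(c, d) ∈ L → c ∈ Ps.flatten → EL F c d) ∧
      ∀ P' ∈ Ps, P' ≠ P → ∀ c d, EL P' c d → EL F c d := by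
  -- rotate `Z`
  obtain ⟨Pr, Po, hPs⟩ := List.append_of_mem hP
  have hrot : Rot Ps (P :: (Po ++ Pr)) := ⟨Pr, P :: Po, hPs, by simp⟩
  have C' := C.rotP hrot
  generalize Po ++ Pr = N at hrot C'
  obtain ⟨A, M, E, hPe⟩ := huv.split
  have hndA := (List.nodup_append'.1 C.nd).1
  have hndN := (List.nodup_append'.1 C'.nd).1
  have hPn : P.Nodup := flat_nodup hndA hP
  have hPc : P.IsChain G.Adj := C.chP P hP
  have hP1 : (v :: E).getLast? = P.getLast? := by
    rw [hPe, show A ++ u :: (M ++ v :: E) = (A ++ u :: M) ++ v :: E by simp,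
      List.getLast?_append_of_ne_nil _ (by simp)]
  have hP2 : (A ++ [u]).head? = P.head? := by
    rw [hPe]
    cases A with
    | nil => simp
    | cons p A => simp
  have hflat : ∀ w, w ∈ (P :: N).flatten ↔ w ∈ Ps.flatten := by
    intro w
    constructor
    · intro h4
      obtain ⟨Q, hQ, hwQ⟩ := List.mem_flatten.1 h4
      exact List.mem_flatten.2 ⟨Q, hrot.mem.2 hQ, hwQ⟩
    · intro h4
      obtain ⟨Q, hQ, hwQ⟩ := List.mem_flatten.1 h4
      exact List.mem_flatten.2 ⟨Q, hrot.mem.1 hQ, hwQ⟩
  refine ⟨Arc A u N v E, ?_, ?_, ?_, ?_, ?_, ?_⟩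
  · -- the walk
    have hjn : (P :: (N ++ [P])).IsChain (JL L) := C'.jnP
    have h3 := chain_congr hjn hP1 hP2
    have h4 := flat_ch (G := G) S.sub h3 (a := v) (b := u) ?_ ?_ ?_ ?_
    · simpa [Arc] using h4
    · intro Q hQ
      rcases List.mem_cons.1 hQ with hQ | hQ
      · rw [hQ]
        refine chain_of_inf hPc ⟨A ++ u :: M, [], ?_⟩
        rw [hPe]; simp
      · rcases List.mem_append.1 hQ with hQ | hQ
        · exact C'.chP Q (List.mem_cons_of_mem _ hQ)
        · rw [List.mem_singleton.1 hQ]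
          refine chain_of_inf hPc ⟨[], M ++ v :: E, ?_⟩
          rw [hPe]; simp
    · intro Q hQ
      rcases List.mem_cons.1 hQ with hQ | hQ
      · rw [hQ]; simp
      · rcases List.mem_append.1 hQ with hQ | hQ
        · intro h5
          have := C'.twoP Q (List.mem_cons_of_mem _ hQ)
          rw [h5] at this; simp at this
        · rw [List.mem_singleton.1 hQ]; simp
    · simp
    · rw [show ((v :: E) :: (N ++ [A ++ [u]])).flatten =
          ((v :: E) ++ (N.flatten ++ A)) ++ [u] by simp,
        List.getLast?_append_of_ne_nil _ (by simp)]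
      rfl
  · -- no repetition
    refine nodup_of_count hndN ?_
    intro w
    rw [hPe]
    simp only [Arc, List.count_append, List.flatten_cons, List.count_cons, List.count_nil]
    omega
  · -- on `Z`
    intro w hw
    rw [← hflat, hPe]
    simp only [Arc, List.mem_append, List.mem_cons, List.flatten_cons, List.not_mem_nil,
      or_false] at hw ⊢
    tauto
  · -- the vertices off the walk
    intro w hw hwF
    rw [← hflat, List.flatten_cons, List.mem_append] at hw
    simp only [Arc, List.mem_append, List.mem_cons, List.not_mem_nil, or_false] at hwF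
    push Not at hwF
    obtain ⟨⟨h1, h2⟩, h3, h4, h5⟩ := hwF
    have hwP : w ∈ P := hw.resolve_right h3
    have hwM : w ∈ M := by
      have h6 := hwP
      rw [hPe] at h6
      simp only [List.mem_append, List.mem_cons] at h6
      tauto
    obtain ⟨M1, M2, hM⟩ := List.append_of_mem hwM
    refine ⟨hwP, ?_, ?_⟩
    · rw [hPe, hM]
      have := Bf.intro (A := A) (M := M1) (D := M2 ++ v :: E) (a := u) (b := w)
      simpa using this
    · rw [hPe, hM]
      have := Bf.intro (A := A ++ u :: M1) (M := M2) (D := E) (a := w) (b := v)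
      simpa using this
  · -- the edges of `L`
    intro c d hcd hc
    obtain ⟨Q, Rest, hRs⟩ : ∃ Q Rest, Rs = Q :: Rest :=
      List.exists_cons_of_ne_nil C.jnR.ne
    have hQ2 : 2 ≤ Q.length := C.twoR Q (by rw [hRs]; simp)
    have hQn : Q ≠ [] := by
      rintro rfl
      simp at hQ2
    have hR : Rot Rs (Q :: Rest) := ⟨[], Q :: Rest, by rw [hRs]; rfl, by simp⟩
    have hlc := C'.lc hR (List.getLast?_eq_some_getLast hQn) (List.head?_eq_some_head hQn)
    rcases LC.cov S.ind hlc hcd with h | h
    · exfalso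
      have h1 : c ∈ (P :: N).flatten := (hflat c).2 hc
      exact (List.nodup_append'.1 hlc.nd).2.2 h1 h.memL
    · obtain ⟨A0, B0, h1, h2⟩ := h
      have h3 : [A0, B0] <:+: P :: (N ++ [P]) := by
        have h4 : (P :: N) ++ (P :: N).head?.toList = P :: (N ++ [P]) := by simp
        rwa [h4] at h1
      rcases h2 with ⟨h5, h6⟩ | ⟨h5, h6⟩
      · exact Or.inl (ph2_junc hP1 hP2 h3 h5 h6)
      · exact Or.inr (ph2_junc hP1 hP2 h3 h5 h6)
  · -- the other segments
    intro P' hP' hne c d hcd
    have hQN : P' ∈ N := by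
      rcases List.mem_cons.1 (hrot.mem.1 hP') with h3 | h3
      · exact absurd h3 hne
      · exact h3
    obtain ⟨N1, N2, hN⟩ := List.append_of_mem hQN
    refine hcd.mono ⟨(v :: E) ++ N1.flatten, N2.flatten ++ (A ++ [u]), ?_⟩
    rw [Arc, hN]
    simp

/-- the walk around `Z` from `u` to `v` on the same segment `P`, avoiding the vertices in between -/
theorem ci_arc (S : Bs G L k) (C : CI G L Ps Rs) {P : List V} (hP : P ∈ Ps) {u v : V}
    (hu : u ∈ P) (hv : v ∈ P) (hne : u ≠ v) : ∃ F, Ch G u v F ∧ F.Nodup ∧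
      (∀ w ∈ F, w ∈ Ps.flatten) ∧
      (∀ w ∈ Ps.flatten, w ∉ F → w ∈ P ∧ (Bf P u w ∧ Bf P w v ∨ Bf P v w ∧ Bf P w u)) ∧
      (∀ c d, s(c, d) ∈ L → c ∈ Ps.flatten → EL F c d) ∧
      ∀ P' ∈ Ps, P' ≠ P → ∀ c d, EL P' c d → EL F c d := by
  rcases Bf.total hu hv hne with h | h
  · obtain ⟨F, h1, h2, h3, h4, h5, h6⟩ := ph2_core S C hP h
    refine ⟨F.reverse, h1.reverse, List.nodup_reverse.2 h2, ?_, ?_, ?_, ?_⟩
    · intro w hw
      exact h3 w (List.mem_reverse.1 hw)
    · intro w hw hwF
      obtain ⟨h7, h8⟩ := h4 w hw (fun h => hwF (List.mem_reverse.2 h))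
      exact ⟨h7, Or.inl h8⟩
    · intro c d hcd hc
      exact (h5 c d hcd hc).reverse
    · intro P' hP' hne' c d hcd
      exact (h6 P' hP' hne' c d hcd).reverse
  · obtain ⟨F, h1, h2, h3, h4, h5, h6⟩ := ph2_core S C hP h
    refine ⟨F, h1, h2, h3, ?_, h5, h6⟩
    intro w hw hwF
    obtain ⟨h7, h8⟩ := h4 w hw hwF
    exact ⟨h7, Or.inr h8⟩

end Pool.Agent.LW
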