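import Pool.Agent.LW.PH13
import Pool.Agent.LW.PH2

set_option autoImplicit false

/-!
# Case I, first half: trimming
-/

namespace Pool.Agent.LW

open SimpleGraph Classical

universe w

variable {V : Type w} {G H : SimpleGraph V} {L : Finset (Sym2 V)} {k : ℕ}
  {x y : V} {Ps Qs Rs Rest : List (List V)} {c : ℕ}

private theorem ph18_first {p : V → Prop} : ∀ {F : List V}, (∃ v ∈ F, p v) →
    ∃ A x D, F = A ++ x :: D ∧ p x ∧ ∀ y ∈ A, ¬ p y := by
  intro F
  induction F with
  | nil => rintro ⟨v, hv, -⟩; simp at hv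
  | cons q F ih =>
    intro h
    by_cases hq : p q
    · exact ⟨[], q, F, rfl, hq, by simp⟩
    · obtain ⟨A, x, D, h1, h2, h3⟩ := ih (by
        obtain ⟨v, hv, hp⟩ := h
        rcases List.mem_cons.1 hv with h4 | h4
        · rw [h4] at hp; exact absurd hp hq
        · exact ⟨v, h4, hp⟩)
      refine ⟨q :: A, x, D, by rw [h1]; rfl, h2, ?_⟩
      intro y hy
      rcases List.mem_cons.1 hy with h4 | h4
      · rw [h4]; exact hq
      · exact h3 y h4

private theorem ph18_last {p : V → Prop} {F : List V} (h : ∃ v ∈ F, p v) :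
    ∃ A x D, F = A ++ x :: D ∧ p x ∧ ∀ y ∈ D, ¬ p y := by
  obtain ⟨A, x, D, h1, h2, h3⟩ := ph18_first (p := p) (F := F.reverse) (by simpa using h)
  refine ⟨D.reverse, x, A.reverse, ?_, h2, ?_⟩
  · have := congrArg List.reverse h1
    simpa using this
  · intro y hy
    exact h3 y (by simpa using hy)

/-- the piece from the last vertex of `T` to the first vertex of `P` -/
private theorem ph18_cut {T : Set V} {P F : List V} {t u : V} (hTP : ∀ v ∈ T, v ∉ P)
    (ht : t ∈ T) (hu : u ∈ P) (hF : Ch G t u F) (hFn : F.Nodup) :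
    ∃ a K u1, a ∈ T ∧ u1 ∈ P ∧ Ch G a u1 (a :: (K ++ [u1])) ∧ (a :: (K ++ [u1])).Nodup ∧
      (∀ v ∈ a :: (K ++ [u1]), v ∈ F) ∧ ∀ v ∈ K, v ∉ T ∧ v ∉ P := by
  obtain ⟨A, u1, D, h1, h2, h3⟩ := ph18_first (p := fun v => v ∈ P) ⟨u, hF.memR, hu⟩
  have htA : t ∈ A := by
    have h4 := hF.hd
    rw [h1] at h4
    cases A with
    | nil =>
      simp only [List.nil_append, List.head?_cons, Option.some.injEq] at h4
      rw [h4] at h2
      exact absurd h2 (hTP t ht)
    | cons p A =>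
      simp only [List.cons_append, List.head?_cons, Option.some.injEq] at h4
      rw [h4]; simp
  obtain ⟨B, a, K, h4, h5, h6⟩ := ph18_last (p := fun v => v ∈ T) ⟨t, htA, ht⟩
  have h7 : F = B ++ a :: (K ++ u1 :: D) := by rw [h1, h4]; simp
  rw [h7] at hF hFn
  refine ⟨a, K, u1, h5, h2, hF.mid, ?_, ?_, ?_⟩
  · refine hFn.sublist ?_
    refine List.Sublist.trans ?_ (List.sublist_append_right B _)
    refine List.Sublist.cons_cons a ?_
    refine List.Sublist.append (List.Sublist.refl _) ?_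
    simp
  · intro v hv
    rw [h7]
    simp only [List.mem_cons, List.mem_append, List.not_mem_nil, or_false] at hv ⊢
    tauto
  · intro v hv
    exact ⟨h6 v hv, h3 v (by rw [h4]; simp [hv])⟩

/-- inner vertices of the piece are attached to its end -/
private theorem ph18_att {O : Set V} {a u1 d : V} {K : List V} (h : Ch G a u1 (a :: (K ++ [u1])))
    (hK : ∀ v ∈ K, v ∈ O) (hd : d ∈ K) : d ∈ Att G O u1 := by
  obtain ⟨K1, K2, hK12⟩ := List.append_of_mem hd
  have hX : ∃ X q, d :: K2 = X ++ [q] := by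
    rcases List.eq_nil_or_concat (d :: K2) with h1 | ⟨X, q, h1⟩
    · simp at h1
    · exact ⟨X, q, by rw [h1]; simp⟩
  obtain ⟨X, q, hX⟩ := hX
  have h1 : a :: (K ++ [u1]) = (a :: K1) ++ d :: (K2 ++ [u1]) := by rw [hK12]; simp
  rw [h1] at h
  have h2 : Ch G d u1 (d :: (K2 ++ [u1])) := h.right
  have h3 : d :: (K2 ++ [u1]) = X ++ q :: u1 :: [] := by
    rw [← List.cons_append, hX]; simp
  rw [h3] at h2
  have h4 : G.Adj q u1 := h2.adj
  have h5 : Ch G d q (X ++ [q]) := h2.left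
  refine ⟨q, h4.symm, (X ++ [q]).reverse, h5.reverse, ?_⟩
  intro v hv
  have h6 : v ∈ d :: K2 := by
    rw [hX]
    exact List.mem_reverse.1 hv
  apply hK
  rw [hK12]
  exact List.mem_append_right _ h6

/-- the end of the piece has a neighbour on the piece -/
private theorem ph18_pre {a u1 : V} {K : List V} (h : Ch G a u1 (a :: (K ++ [u1]))) :
    ∃ w ∈ a :: K, G.Adj u1 w := by
  have hX : ∃ X q, a :: K = X ++ [q] := by
    rcases List.eq_nil_or_concat (a :: K) with h1 | ⟨X, q, h1⟩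
    · simp at h1
    · exact ⟨X, q, by rw [h1]; simp⟩
  obtain ⟨X, q, hX⟩ := hX
  have h3 : a :: (K ++ [u1]) = X ++ q :: u1 :: [] := by
    rw [← List.cons_append, hX]; simp
  rw [h3] at h
  have h4 : G.Adj q u1 := h.adj
  exact ⟨q, by rw [hX]; simp, h4.symm⟩

/-- two disjoint paths from the second cycle to a segment give a path around the first cycle -/
theorem i5_out [Fintype V] (S : Bs G L k) (hmin : MinC G L c) (hc2 : 2 ≤ c) (hc : 2 * c ≤ k)
    (C : CI G L Ps Rs) (hR : Rs.length = c) (hW : MinW G L c Ps Rs) {P : List V} (hP : P ∈ Ps)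
    {t t' u u' : V} (ht : t ∈ TR Rs) (ht' : t' ∈ TR Rs) (hu : u ∈ P) (hu' : u' ∈ P)
    {F F' : List V} (hF : Ch G t u F) (hF' : Ch G t' u' F') (hFn : F.Nodup) (hFn' : F'.Nodup)
    (hFS : ∀ v ∈ F, v ∈ WR G Ps Rs ∨ v ∈ P) (hFS' : ∀ v ∈ F', v ∈ WR G Ps Rs ∨ v ∈ P)
    (hd : ∀ v ∈ F, v ∉ F') :
    ∃ E a b, a ∈ TR Rs ∧ b ∈ TR Rs ∧ a ≠ b ∧ Ch G a b E ∧ E.Nodup ∧
      (∀ v ∈ E, v ∈ Rs.flatten → v = a ∨ v = b) ∧
      (∀ c d, s(c, d) ∈ L → EL E c d ∨ c ∈ Rs.flatten) ∧ ∀ d, Mx G Ps Rs d → d ∉ E := by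
  have hPs : ∀ v ∈ P, v ∈ Ps.flatten := fun v hv => List.mem_flatten.2 ⟨P, hP, hv⟩
  have hdis : ∀ v ∈ Ps.flatten, v ∉ Rs.flatten := fun v hv hv' =>
    (List.nodup_append'.1 C.nd).2.2 hv hv'
  have hTP : ∀ v ∈ TR Rs, v ∉ P := fun v hv hv' => hdis v (hPs v hv') (TR_sub hv)
  obtain ⟨a, K, u1, ha, hu1, hc1, hn1, hs1, hk1⟩ := ph18_cut hTP ht hu hF hFn
  obtain ⟨b, K', u1', hb, hu1', hc1', hn1', hs1', hk1'⟩ := ph18_cut hTP ht' hu' hF' hFn'
  -- the vertices of the pieces are in the component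
  have hwr : ∀ v ∈ a :: K, v ∈ WR G Ps Rs := by
    intro v hv
    rcases hFS v (hs1 v (by
      rw [← List.cons_append]; exact List.mem_append_left _ hv)) with h | h
    · exact h
    · exfalso
      rcases List.mem_cons.1 hv with h' | h'
      · exact hTP a ha (h' ▸ h)
      · exact (hk1 v h').2 h
  have hwr' : ∀ v ∈ b :: K', v ∈ WR G Ps Rs := by
    intro v hv
    rcases hFS' v (hs1' v (by
      rw [← List.cons_append]; exact List.mem_append_left _ hv)) with h | h
    · exact h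
    · exfalso
      rcases List.mem_cons.1 hv with h' | h'
      · exact hTP b hb (h' ▸ h)
      · exact (hk1' v h').2 h
  have hOM : ∀ v ∈ K, v ∈ OM Ps Rs := fun v hv =>
    ⟨wr_off (hwr v (List.mem_cons_of_mem _ hv)), (hk1 v hv).1⟩
  have hOM' : ∀ v ∈ K', v ∈ OM Ps Rs := fun v hv =>
    ⟨wr_off (hwr' v (List.mem_cons_of_mem _ hv)), (hk1' v hv).1⟩
  have hu1F : u1 ∈ F := hs1 u1 (by simp)
  have hu1F' : u1' ∈ F' := hs1' u1' (by simp)
  have hne : u1 ≠ u1' := fun h => hd u1 hu1F (h ▸ hu1F')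
  have hab : a ≠ b := fun h => hd a (hs1 a (by simp)) (h ▸ hs1' b (by simp))
  -- no vertex of the pieces is mixed
  have hmx : ∀ v ∈ K, ¬ Mx G Ps Rs v := by
    intro v hv hm
    obtain ⟨w, hw, hadj⟩ := ph18_pre hc1'
    exact hne (ci_one S hmin hc2 hc C hR hW hm hP hu1 (ph18_att hc1 hOM hv) hu1'
      (hwr' w hw) hadj).symm
  have hmx' : ∀ v ∈ K', ¬ Mx G Ps Rs v := by
    intro v hv hm
    obtain ⟨w, hw, hadj⟩ := ph18_pre hc1
    exact hne (ci_one S hmin hc2 hc C hR hW hm hP hu1' (ph18_att hc1' hOM' hv) hu1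
      (hwr w hw) hadj)
  -- the arc
  obtain ⟨A, hA1, hA2, hA3, -, hA5, -⟩ := ci_arc S C hP hu1 hu1' hne
  obtain ⟨A', hA'⟩ : ∃ A', A = u1 :: A' := List.head?_eq_some_iff.1 hA1.hd
  obtain ⟨A'', hA''⟩ : ∃ A'', A = A'' ++ [u1'] := List.getLast?_eq_some_iff.1 hA1.lt
  have hc2' : Ch G u1' b (u1' :: (K'.reverse ++ [b])) := by
    have := hc1'.reverse
    simpa using this
  have hE1 : Ch G u1 b (A ++ (K'.reverse ++ [b])) := by
    have h1 : Ch G u1 u1' (A'' ++ [u1']) := hA'' ▸ hA1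
    have h2 := h1.glue hc2'
    rw [hA'']
    simpa using h2
  have hE2 : Ch G a b ((a :: K) ++ (A ++ (K'.reverse ++ [b]))) := by
    have h1 : Ch G u1 b (u1 :: (A' ++ (K'.reverse ++ [b]))) := by
      have h2 := hE1
      rw [hA'] at h2
      simpa using h2
    have h3 : Ch G a u1 ((a :: K) ++ [u1]) := by simpa using hc1
    have h4 := h3.glue h1
    rw [hA']
    simpa using h4
  have hmem : ∀ v, v ∈ (a :: K) ++ (A ++ (K'.reverse ++ [b])) →
      (v = a ∨ v ∈ K) ∨ v ∈ A ∨ (v = b ∨ v ∈ K') := by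
    intro v hv
    simp only [List.mem_cons, List.mem_append, List.mem_reverse, List.not_mem_nil,
      or_false] at hv
    tauto
  refine ⟨(a :: K) ++ (A ++ (K'.reverse ++ [b])), a, b, ha, hb, hab, hE2, ?_, ?_, ?_, ?_⟩
  · -- nodup
    have h1 : (a :: K).Nodup := by
      refine hn1.sublist ?_
      rw [← List.cons_append]
      exact List.sublist_append_left _ _
    have h2 : (K'.reverse ++ [b]).Nodup := by
      have h3 : (b :: K').Nodup := by
        refine hn1'.sublist ?_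
        rw [← List.cons_append]
        exact List.sublist_append_left _ _
      have h4 := List.nodup_reverse.2 h3
      simpa using h4
    rw [List.nodup_append', List.nodup_append']
    refine ⟨h1, ⟨hA2, h2, ?_⟩, ?_⟩
    · intro v hv hv'
      have h3 : v ∈ b :: K' := by
        simp only [List.mem_cons, List.mem_append, List.mem_reverse, List.not_mem_nil,
          or_false] at hv' ⊢
        tauto
      exact wr_off (hwr' v h3) (hA3 v hv)
    · intro v hv hv'
      rcases List.mem_append.1 hv' with h3 | h3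
      · exact wr_off (hwr v hv) (hA3 v h3)
      · have h4 : v ∈ b :: K' := by
          simp only [List.mem_cons, List.mem_append, List.mem_reverse, List.not_mem_nil,
            or_false] at h3 ⊢
          tauto
        refine hd v (hs1 v ?_) (hs1' v ?_)
        · rw [← List.cons_append]; exact List.mem_append_left _ hv
        · rw [← List.cons_append]; exact List.mem_append_left _ h4
  · intro v hv hvR
    rcases hmem v hv with (h1 | h1) | h1 | (h1 | h1)
    · exact Or.inl h1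
    · exact absurd (r_mixed C hvR (hk1 v h1).1) (hmx v h1)
    · exact absurd hvR (hdis v (hA3 v h1))
    · exact Or.inr h1
    · exact absurd (r_mixed C hvR (hk1' v h1).1) (hmx' v h1)
  · intro p q hpq
    rcases CI.side S C hpq with ⟨h1, -⟩ | ⟨h1, -⟩
    · left
      exact (hA5 p q hpq h1).mono ⟨a :: K, K'.reverse ++ [b], by simp⟩
    · exact Or.inr (TR_sub h1)
  · intro d hdm hdE
    have hdOM : d ∈ OM Ps Rs := by
      obtain ⟨⟨h, -, h1⟩, -⟩ := hdm
      exact Att.mem h1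
    rcases hmem d hdE with (h1 | h1) | h1 | (h1 | h1)
    · exact hdOM.2 (h1 ▸ ha)
    · exact hmx d h1 hdm
    · exact hdOM.1 (hA3 d h1)
    · exact hdOM.2 (h1 ▸ hb)
    · exact hmx' d h1 hdm

end Pool.Agent.LW
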