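import Pool.Agent.LW.PH15
import Pool.Agent.LW.PH16
import Pool.Agent.LW.PH17
import Pool.Agent.LW.PH18

set_option autoImplicit false

/-!
# Case I, first half: (I5), one segment
-/

namespace Pool.Agent.LW

open SimpleGraph Classical

universe w

variable {V : Type} {G H : SimpleGraph V} {L : Finset (Sym2 V)} {k : ℕ}
  {x y : V} {Ps Qs Rs Rest : List (List V)} {c : ℕ}

private theorem ph19_first {p : V → Prop} {F : List V} (h : ∃ v ∈ F, p v) :
    ∃ A v D, F = A ++ v :: D ∧ p v ∧ ∀ w ∈ A, ¬ p w := by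
  induction F with
  | nil => simp at h
  | cons a F ih =>
    by_cases ha : p a
    · exact ⟨[], a, F, rfl, ha, by simp⟩
    · obtain ⟨v, hv, hp⟩ := h
      have h1 : ∃ v ∈ F, p v := by
        rcases List.mem_cons.1 hv with h1 | h1
        · exact absurd (h1 ▸ hp) ha
        · exact ⟨v, h1, hp⟩
      obtain ⟨A, w, D, h2, h3, h4⟩ := ih h1
      refine ⟨a :: A, w, D, by rw [h2]; simp, h3, ?_⟩
      intro u hu
      rcases List.mem_cons.1 hu with h5 | h5
      · rw [h5]; exact ha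
      · exact h4 u h5

private theorem ph19_last {p : V → Prop} {F : List V} (h : ∃ v ∈ F, p v) :
    ∃ A v D, F = A ++ v :: D ∧ p v ∧ ∀ w ∈ D, ¬ p w := by
  obtain ⟨v, hv, hp⟩ := h
  obtain ⟨A, w, D, h1, h2, h3⟩ := ph19_first (p := p) (F := F.reverse)
    ⟨v, List.mem_reverse.2 hv, hp⟩
  refine ⟨D.reverse, w, A.reverse, ?_, h2, fun u hu => h3 u (List.mem_reverse.1 hu)⟩
  have := congrArg List.reverse h1
  simpa using this

/-- the part of a path from its last vertex in `T` before its first vertex in `P` -/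
private theorem ph19_cut {T P : Set V} {F : List V} {t u : V} (hF : Ch G t u F) (ht : t ∈ T)
    (hu : u ∈ P) (hTP : ∀ v ∈ T, v ∉ P) : ∃ t' u' K, t' ∈ T ∧ u' ∈ P ∧
      (t' :: (K ++ [u'])) <:+: F ∧ ∀ v ∈ K, v ∉ T ∧ v ∉ P := by
  obtain ⟨A, u', D, h1, h2, h3⟩ := ph19_first (p := fun v => v ∈ P) ⟨u, hF.memR, hu⟩
  have hA : ∃ v ∈ A, v ∈ T := by
    refine ⟨t, ?_, ht⟩
    have h4 := hF.hd
    rw [h1] at h4
    cases A with
    | nil =>
      simp only [List.nil_append, List.head?_cons, Option.some.injEq] at h4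
      exact absurd (h4 ▸ h2) (hTP t ht)
    | cons a A =>
      simp only [List.cons_append, List.head?_cons, Option.some.injEq] at h4
      rw [h4]; simp
  obtain ⟨A1, t', K, h4, h5, h6⟩ := ph19_last (p := fun v => v ∈ T) hA
  refine ⟨t', u', K, h5, h2, ⟨A1, D, ?_⟩, fun v hv => ⟨h6 v hv, h3 v ?_⟩⟩
  · rw [h1, h4]; simp
  · rw [h4]; simp [hv]

private theorem ph19_att {O : Set V} {K : List V} {h u : V}
    (hch : (h :: (K ++ [u])).IsChain G.Adj) (hO : ∀ v ∈ h :: K, v ∈ O) : h ∈ Att G O u := by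
  have hch' : ((h :: K) ++ [u]).IsChain G.Adj := by simpa using hch
  rw [List.isChain_append] at hch'
  obtain ⟨a, b, hab⟩ := Ch.ex (H := G) hch'.1 (by simp)
  have ha : a = h := by
    have := hab.hd
    simpa using this.symm
  subst ha
  have h1 : G.Adj b u := hch'.2.2 b hab.lt u (by simp)
  exact ⟨b, h1.symm, Rch.symm ⟨_, hab, hO⟩⟩

private theorem ph19_pred {K : List V} {t u : V} (hch : (t :: (K ++ [u])).IsChain G.Adj) :
    ∃ b ∈ t :: K, G.Adj b u := by
  have hch' : ((t :: K) ++ [u]).IsChain G.Adj := by simpa using hch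
  rw [List.isChain_append] at hch'
  obtain ⟨a, b, hab⟩ := Ch.ex (H := G) hch'.1 (by simp)
  exact ⟨b, hab.memR, hch'.2.2 b hab.lt u (by simp)⟩

private theorem ph19_wr {v w : V} (h : v ∈ WR G Ps Rs) (h' : Rch G (OM Ps Rs) v w) :
    w ∈ WR G Ps Rs := by
  obtain ⟨r, hr, h1⟩ := h
  refine ⟨r, hr, h1.trans ?_⟩
  obtain ⟨F, hF, hO⟩ := h'
  exact ⟨F, hF, fun v hv => (hO v hv).1⟩

/-- (I5): one vertex separates a segment from the second cycle -/
theorem i5_sep [Fintype V] (S : Bs G L k) (hmin : MinC G L c) (hc2 : 2 ≤ c) (hc : 2 * c ≤ k)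
    (C : CI G L Ps Rs) (hR : Rs.length = c) (hW : MinW G L c Ps Rs) {d : V}
    (hd : Mx G Ps Rs d) {P : List V} (hP : P ∈ Ps) :
    ∃ h, (h ∈ WR G Ps Rs ∨ h ∈ P) ∧ ¬ Rch G (OM Ps Rs) d h ∧
      (∀ z ∈ P, d ∈ Att G (OM Ps Rs) z → z = h) ∧
      ∀ t ∈ TR Rs, ∀ u ∈ P, ∀ F, Ch G t u F → (∀ v ∈ F, v ∈ WR G Ps Rs ∨ v ∈ P) → h ∈ F := by
  have hPf : ∀ v ∈ P, v ∈ Ps.flatten := fun v hv => List.mem_flatten.2 ⟨P, hP, hv⟩
  have hTW : ∀ t ∈ TR Rs, t ∈ WR G Ps Rs := fun t ht => wr_mem C (TR_sub ht)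
  have hTP : ∀ t ∈ TR Rs, t ∉ {v | v ∈ P} := fun t ht h => wr_off (hTW t ht) (hPf t h)
  have hdO : d ∈ OM Ps Rs := by
    obtain ⟨⟨h, _, h1⟩, _⟩ := hd
    exact att_mem h1
  by_cases hat : ∃ z ∈ P, d ∈ Att G (OM Ps Rs) z
  · obtain ⟨z, hz, hdz⟩ := hat
    refine ⟨z, Or.inr hz, ?_, ?_, ?_⟩
    · intro h
      exact h.memR.1 (hPf z hz)
    · intro z' hz' hdz'
      obtain ⟨a, h1, h2⟩ := hdz'
      exact ci_one S hmin hc2 hc C hR hW hd hP hz hdz hz' (ph19_wr (mx_wr C hd) h2.symm) h1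
    · intro t ht u hu F hF hS
      obtain ⟨t', u', K, h1, h2, h3, h4⟩ := ph19_cut (T := TR Rs) (P := {v | v ∈ P}) hF ht hu hTP
      obtain ⟨b, hb, hbu⟩ := ph19_pred (chain_of_inf hF.ch h3)
      have hbF : b ∈ F := h3.subset (by
        rcases List.mem_cons.1 hb with h5 | h5
        · rw [h5]; simp
        · simp [h5])
      have hbP : b ∉ P := by
        rcases List.mem_cons.1 hb with h5 | h5
        · rw [h5]; exact hTP t' h1
        · exact (h4 b h5).2
      have hbW : b ∈ WR G Ps Rs := (hS b hbF).resolve_right hbP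
      have h6 := ci_one S hmin hc2 hc C hR hW hd hP hz hdz h2 hbW hbu.symm
      rw [← h6]
      exact h3.subset (by simp)
  · have hnat : ∀ z ∈ P, d ∉ Att G (OM Ps Rs) z := fun z hz h => hat ⟨z, hz, h⟩
    rcases menger2 (G := G) d {v | v ∈ WR G Ps Rs ∨ v ∈ P} (TR Rs) {v | v ∈ P} with hm | hm
    · obtain ⟨h, hh⟩ := hm
      by_cases hex : ∃ t ∈ TR Rs, ∃ u ∈ P, ∃ F, Ch G t u F ∧ ∀ v ∈ F, v ∈ WR G Ps Rs ∨ v ∈ P
      · obtain ⟨t, ht, u, hu, F, hF, hS⟩ := hex
        refine ⟨h, hS h (hh t ht u hu F hF hS), ?_, fun z hz hdz => absurd hdz (hnat z hz),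
          fun t ht u hu F hF hS => hh t ht u hu F hF hS⟩
        intro hdh
        obtain ⟨t', u', K, h1, h2, h3, h4⟩ := ph19_cut (T := TR Rs) (P := {v | v ∈ P}) hF ht hu hTP
        have hch := chain_of_inf hF.ch h3
        have hF' : Ch G t' u' (t' :: (K ++ [u'])) := ⟨rfl, by
          rw [← List.cons_append, List.getLast?_append_of_ne_nil _ (by simp)]; rfl, hch⟩
        have hKO : ∀ v ∈ K, v ∈ OM Ps Rs := by
          intro v hv
          have h5 := h4 v hv
          have h6 : v ∈ F := h3.subset (by simp [hv])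
          exact ⟨wr_off ((hS v h6).resolve_right h5.2), h5.1⟩
        have h5 := hh t' h1 u' h2 _ hF' (fun v hv => hS v (h3.subset hv))
        have hhO := hdh.memR
        have hhK : h ∈ K := by
          rcases List.mem_cons.1 h5 with h6 | h6
          · exact absurd (h6 ▸ h1) hhO.2
          · rcases List.mem_append.1 h6 with h7 | h7
            · exact h7
            · have h8 : h = u' := by simpa using h7
              exact absurd (hPf u' h2) (h8 ▸ hhO.1)
        obtain ⟨K1, K2, hK⟩ := List.append_of_mem hhK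
        have h9 : h ∈ Att G (OM Ps Rs) u' := by
          refine ph19_att (K := K2) (chain_of_inf hch ⟨t' :: K1, [], ?_⟩) ?_
          · rw [hK]; simp
          · intro v hv
            apply hKO
            rw [hK]
            exact List.mem_append_right _ hv
        exact hnat u' h2 (att_trans h9 hdh.symm)
      · -- no path at all
        have hPne : P ≠ [] := by
          rintro rfl
          have := C.twoP [] hP
          simp at this
        obtain ⟨p, P', rfl⟩ : ∃ p P', P = p :: P' := by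
          cases P with
          | nil => exact absurd rfl hPne
          | cons p P' => exact ⟨p, P', rfl⟩
        refine ⟨p, Or.inr (by simp), ?_, fun z hz hdz => absurd hdz (hnat z hz), ?_⟩
        · intro h1
          exact h1.memR.1 (hPf p (by simp))
        · intro t ht u hu F hF hS
          exact absurd ⟨t, ht, u, hu, F, hF, hS⟩ hex
    · exfalso
      obtain ⟨a, ha, b, hb, a', ha', b', hb', F, F', hF, hF', hFn, hFn', hS, hS', hdis⟩ := hm
      obtain ⟨E, a1, b1, hEa, hEb, hne, hE, hEn, hER, hcov, hEd⟩ :=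
        i5_out S hmin hc2 hc C hR hW hP ha ha' hb hb' hF hF' hFn hFn' hS hS' hdis
      have hadj : ∀ t ∈ TR Rs, G.Adj d t := fun t ht => ci_i4 S hmin hc2 hc C hR hW hd ht
      rcases ci_i1 S hmin C hR hne (TR_sub hEa) (TR_sub hEb) hE hEn hER hcov with ⟨h1, h2⟩ | ⟨h1, h2⟩
      · refine i5_in S hmin C.revR (d := d) (by rw [length_rv]; exact hR) hdO.1
          (by rw [TR_rv]; exact hdO.2) (by rw [TR_rv]; exact hadj) hne (by rw [LR_rv]; exact h1)
          (by rw [LR_rv]; exact h2) hE hEn ?_ ?_ (hEd d hd)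
        · intro v hv hv'
          rw [flatten_rv, List.mem_reverse] at hv'
          exact hER v hv hv'
        · intro c d hcd
          rw [flatten_rv, List.mem_reverse]
          exact hcov c d hcd
      · exact i5_in S hmin C hR hdO.1 hdO.2 hadj hne h1 h2 hE hEn hER hcov (hEd d hd)

end Pool.Agent.LW
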