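import Pool.Agent.LW.PH19

set_option autoImplicit false

/-!
# Case I, first half: (I5)
-/

namespace Pool.Agent.LW

open SimpleGraph Classical

universe w

variable {V : Type} {G H : SimpleGraph V} {L : Finset (Sym2 V)} {k : ℕ}
  {x y : V} {Ps Qs Rs Rest : List (List V)} {c : ℕ}

private theorem ph20_first {p : V → Prop} : ∀ F : List V, (∃ v ∈ F, p v) →
    ∃ A u D, F = A ++ u :: D ∧ p u ∧ ∀ v ∈ A, ¬ p v := by
  intro F
  induction F with
  | nil =>
    rintro ⟨v, hv, -⟩
    exact absurd hv List.not_mem_nil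
  | cons a F ih =>
    rintro ⟨v, hv, hpv⟩
    by_cases ha : p a
    · exact ⟨[], a, F, rfl, ha, fun v hv => absurd hv List.not_mem_nil⟩
    · rcases List.mem_cons.1 hv with rfl | hv
      · exact absurd hpv ha
      · obtain ⟨A, u, D, e, hu, hA⟩ := ih ⟨v, hv, hpv⟩
        refine ⟨a :: A, u, D, by rw [e]; rfl, hu, fun v hv => ?_⟩
        rcases List.mem_cons.1 hv with rfl | hv
        · exact ha
        · exact hA v hv

private theorem ph20_wr {u : V} : ∀ (B : List V) (t : V), Ch G t u (t :: (B ++ [u])) →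
    t ∈ WR G Ps Rs → (∀ v ∈ B, v ∉ Ps.flatten) → ∀ v ∈ B, v ∈ WR G Ps Rs := by
  intro B
  induction B with
  | nil =>
    intro t _ _ _ v hv
    exact absurd hv List.not_mem_nil
  | cons b B ih =>
    intro t hch ht hB v hv
    have h1 : Ch G t u (t :: b :: (B ++ [u])) := hch
    have hb : b ∈ WR G Ps Rs := wr_step ht h1.snd (hB b List.mem_cons_self)
    rcases List.mem_cons.1 hv with rfl | hv
    · exact hb
    · exact ih b h1.tail hb (fun w hw => hB w (List.mem_cons_of_mem _ hw)) v hv

private theorem ph20_pw : ∀ {l : List (List V)}, l.Pairwise List.Disjoint → ∀ {P P' : List V},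
    P ∈ l → P' ∈ l → P ≠ P' → List.Disjoint P P' := by
  intro l
  induction l with
  | nil =>
    intro _ P P' hP
    exact absurd hP List.not_mem_nil
  | cons a l ih =>
    intro h P P' hP hP' hne
    rw [List.pairwise_cons] at h
    rcases List.mem_cons.1 hP with e | hP2
    · rcases List.mem_cons.1 hP' with e' | hP2'
      · exact absurd (e.trans e'.symm) hne
      · rw [e]
        exact h.1 P' hP2'
    · rcases List.mem_cons.1 hP' with e' | hP2'
      · rw [e']
        exact (h.1 P hP2).symm
      · exact ih h.2 hP2 hP2' hne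

/-- (I5): there is no mixed vertex -/
theorem ci_i5 [Fintype V] (S : Bs G L k) (hmin : MinC G L c) (hc2 : 2 ≤ c) (hc : 2 * c ≤ k)
    (C : CI G L Ps Rs) (hR : Rs.length = c) (hW : MinW G L c Ps Rs) {d : V} :
    ¬ Mx G Ps Rs d := by
  intro hd
  have hsep := fun (P : List V) (hP : P ∈ Ps) => i5_sep S hmin hc2 hc C hR hW hd hP
  have hne0 : Nonempty V := ⟨d⟩
  choose! f hf using hsep
  have hdO : d ∈ OM Ps Rs := by
    obtain ⟨⟨t, -, ht⟩, -⟩ := hd
    exact att_mem ht
  have hdZ : d ∉ Ps.flatten := hdO.1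
  set U : Finset V := (Ps.map f).toFinset with hU
  have hUmem : ∀ v, v ∈ U ↔ ∃ P ∈ Ps, f P = v := by
    intro v
    rw [hU, List.mem_toFinset, List.mem_map]
  have hUc : U.card ≤ Ps.length := by
    have h1 := List.toFinset_card_le (Ps.map f)
    rwa [List.length_map] at h1
  have hlt : U.card < k := by
    have h1 := C.card
    rw [S.card, hR] at h1
    omega
  have hdU : d ∉ U := by
    intro h
    obtain ⟨P, hP, e⟩ := (hUmem d).1 h
    have h1 := (hf P hP).2.1
    rw [e] at h1
    exact h1 (Rch.refl hdO)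
  have hflat : Ps.flatten.Nodup := (List.nodup_append.1 C.nd).1
  obtain ⟨hnd, hdis⟩ := List.nodup_flatten.1 hflat
  have hdis' : ∀ P ∈ Ps, ∀ P' ∈ Ps, P ≠ P' → ∀ v ∈ P, v ∉ P' := by
    intro P hP P' hP' hne v hv hv'
    have h1 : List.Disjoint P P' := ph20_pw hdis hP hP' hne
    exact h1 hv hv'
  -- the vertex on the other side
  obtain ⟨P0, hP0, z, hz, hzU⟩ : ∃ P0 ∈ Ps, ∃ z ∈ P0, z ∉ U := by
    have hne : Ps ≠ [] := by
      rintro rfl
      have := C.lenP
      simp at this
    obtain ⟨P0, hP0⟩ := List.exists_mem_of_ne_nil Ps hne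
    have h2 := C.twoP P0 hP0
    have hz : ∃ z ∈ P0, z ≠ f P0 := by
      match P0, h2, hnd P0 hP0 with
      | p :: q :: K, _, hn =>
        by_cases hp : p = f (p :: q :: K)
        · refine ⟨q, List.mem_cons_of_mem _ List.mem_cons_self, ?_⟩
          rw [← hp]
          rintro rfl
          exact (List.nodup_cons.1 hn).1 List.mem_cons_self
        · exact ⟨p, List.mem_cons_self, hp⟩
    obtain ⟨z, hz, hzf⟩ := hz
    refine ⟨P0, hP0, z, hz, fun h => ?_⟩
    obtain ⟨P, hP, e⟩ := (hUmem z).1 h
    by_cases hPP : P = P0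
    · subst hPP
      exact hzf e.symm
    · rcases (hf P hP).1 with h3 | h3
      · rw [e] at h3
        exact wr_off h3 (List.mem_flatten.2 ⟨P0, hP0, hz⟩)
      · rw [e] at h3
        exact hdis' P hP P0 hP0 hPP z h3 hz
  have hzA : z ∉ {v | Rch G {v | v ∉ U} d v} := by
    rintro ⟨F, hF, hFU⟩
    obtain ⟨F1, u, F2, e, hu, hF1⟩ := ph20_first (p := fun v => v ∈ Ps.flatten) F
      ⟨z, hF.memR, List.mem_flatten.2 ⟨P0, hP0, hz⟩⟩
    obtain ⟨P, hP, huP⟩ := List.mem_flatten.1 hu
    have hch : Ch G d u (F1 ++ [u]) := by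
      rw [e] at hF
      exact hF.left
    have hFU1 : ∀ v ∈ F1 ++ [u], v ∉ U := by
      intro v hv
      apply hFU
      rw [e]
      rcases List.mem_append.1 hv with h | h
      · exact List.mem_append_left _ h
      · rw [List.mem_singleton.1 h]
        exact List.mem_append_right _ List.mem_cons_self
    by_cases hT : ∃ t ∈ F1, t ∈ TR Rs
    · obtain ⟨t, htF, htT⟩ := hT
      obtain ⟨A, B, e2⟩ := List.append_of_mem htF
      have hch2 : Ch G t u (t :: (B ++ [u])) := by
        have h3 : Ch G d u (A ++ t :: (B ++ [u])) := by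
          rw [e2] at hch
          simpa using hch
        exact h3.right
      have htW : t ∈ WR G Ps Rs := wr_mem C (TR_sub htT)
      have hBW := ph20_wr (Ps := Ps) (Rs := Rs) B t hch2 htW (fun v hv => hF1 v (by
        rw [e2]
        exact List.mem_append_right _ (List.mem_cons_of_mem _ hv)))
      have h4 := (hf P hP).2.2.2 t htT u huP (t :: (B ++ [u])) hch2 (by
        intro v hv
        rcases List.mem_cons.1 hv with rfl | hv
        · exact Or.inl htW
        · rcases List.mem_append.1 hv with h | h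
          · exact Or.inl (hBW v h)
          · rw [List.mem_singleton.1 h]
            exact Or.inr huP)
      refine hFU1 (f P) ?_ ((hUmem _).2 ⟨P, hP, rfl⟩)
      rw [e2]
      simp only [List.mem_cons, List.mem_append] at h4 ⊢
      tauto
    · have hOM : ∀ v ∈ F1, v ∈ OM Ps Rs := fun v hv => ⟨hF1 v hv, fun h => hT ⟨v, hv, h⟩⟩
      have hatt : d ∈ Att G (OM Ps Rs) u := by
        have h3 : Ch G u d (u :: F1.reverse) := by
          have h4 := hch.reverse
          simpa using h4
        rcases hrev : F1.reverse with _ | ⟨a, K⟩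
        · rw [hrev] at h3
          have h5 := h3.lt
          simp only [List.getLast?_singleton, Option.some.injEq] at h5
          exact absurd (h5 ▸ hu) hdZ
        · rw [hrev] at h3
          refine ⟨a, h3.snd, a :: K, h3.tail, fun v hv => hOM v ?_⟩
          rw [← hrev, List.mem_reverse] at hv
          exact hv
      have h6 := (hf P hP).2.2.1 u huP hatt
      refine hFU1 u (List.mem_append_right _ (List.mem_singleton_self u)) ((hUmem _).2 ⟨P, hP, h6.symm⟩)
  have hk := sep_card S (A := {v | Rch G {v | v ∉ U} d v}) (U := U) (a := d) (z := z)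
    (Rch.refl hdU) hdU (by
      intro a ha w haw
      by_cases hw : w ∈ U
      · exact Or.inr hw
      · exact Or.inl (Rch.step ha haw hw)) hzA hzU
  omega

end Pool.Agent.LW
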