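import Pool.Agent.LW.PH1

set_option autoImplicit false

/-!
# Case I, first half: (I1)
-/

namespace Pool.Agent.LW

open SimpleGraph Classical

universe w

variable {V : Type w} {G H : SimpleGraph V} {L : Finset (Sym2 V)} {k : ℕ}
  {x y : V} {Ps Qs Rs Rest : List (List V)} {c : ℕ}

/-! ## auxiliary facts -/

private theorem ph3_nodup {old ext new : List V} (ho : old.Nodup) (he : ext.Nodup)
    (hd : ∀ z ∈ ext, z ∉ old) (hc : ∀ z, new.count z ≤ old.count z + ext.count z) :
    new.Nodup := by
  have h : (old ++ ext).Nodup := by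
    rw [List.nodup_append']
    exact ⟨ho, he, fun z hz hz' => hd z hz' hz⟩
  rw [List.nodup_iff_count_le_one] at h ⊢
  intro z
  have h1 := h z
  rw [List.count_append] at h1
  exact (hc z).trans h1

private theorem ph3_ch2 {A B D : List V} {a b : V}
    (h : (A ++ a :: (B ++ b :: D)).IsChain G.Adj) :
    (A ++ [a]).IsChain G.Adj ∧ (a :: (B ++ [b])).IsChain G.Adj ∧ (b :: D).IsChain G.Adj := by
  obtain ⟨h1, h2⟩ := List.isChain_split.1 h
  have h3 : ((a :: B) ++ b :: D).IsChain G.Adj := by simpa using h2
  obtain ⟨h4, h5⟩ := List.isChain_split.1 h3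
  exact ⟨h1, by simpa using h4, h5⟩

private theorem ph3_glue {A B : List V} {a b : V} (h : (a :: (A ++ [b])).IsChain G.Adj)
    (h' : (b :: B).IsChain G.Adj) : (a :: (A ++ b :: B)).IsChain G.Adj := by
  have h1 : ((a :: A) ++ b :: B).IsChain G.Adj :=
    List.isChain_split.2 ⟨by simpa using h, h'⟩
  simpa using h1

/-- a closed walk through all edges of `L` does not exist -/
private theorem ph3_wrap (S : Bs G L k) {u : V} {X : List V}
    (h : (u :: (X ++ [u])).IsChain G.Adj) (hn : (u :: X).Nodup) (h3 : 2 ≤ X.length)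
    (cov : ∀ c d, s(c, d) ∈ L → EL (u :: (X ++ [u])) c d) : False := by
  have hne : L.Nonempty := by
    rw [← Finset.card_pos]
    have h1 := S.card
    have h2 := S.k2
    omega
  rcases X.eq_nil_or_concat with h0 | ⟨X', b, h0⟩
  · rw [h0] at h3
    simp at h3
  · have e : u :: (X ++ [u]) = (u :: X') ++ b :: [u] := by rw [h0]; simp
    have e' : (u :: X') ++ [b] = u :: X := by rw [h0]; simp
    rw [e] at h
    obtain ⟨h1, h2⟩ := List.isChain_split.1 h
    rw [e'] at h1
    obtain ⟨Qs, hQ⟩ := full_of_closed S.ind hne (a := u) (b := b) (F := u :: X)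
      ⟨rfl, by rw [← e', List.getLast?_append]; rfl, h1⟩ hn (by simpa using h2)
      (by simp only [List.length_cons]; omega) (by
        intro c d hcd
        have h4 := cov c d hcd
        rw [e] at h4
        rcases h4.split with h5 | h5
        · rw [e'] at h5
          exact Or.inl h5
        · right
          rcases h5 with h6 | h6
          · have h7 := List.IsInfix.eq_of_length h6 (by simp)
            simp only [List.cons.injEq, and_true] at h7
            rw [h7.1, h7.2, Sym2.eq_swap]
          · have h7 := List.IsInfix.eq_of_length h6 (by simp)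
            simp only [List.cons.injEq, and_true] at h7
            rw [h7.1, h7.2])
    exact S.no Qs hQ

/-- the rest of the second cycle, from `p'` over the other segments to `p` -/
private theorem ph3_arc (S : Bs G L k) {A M D : List V} {p p' : V} {N : List (List V)}
    (C : CI G L Ps ((A ++ p :: (M ++ p' :: D)) :: N)) :
    Ch G p' p (p' :: (D ++ (N.flatten ++ A) ++ [p])) := by
  have hj : ((p' :: D) :: (N ++ [A ++ [p]])).IsChain (JL L) := by
    have h0 : ((A ++ p :: (M ++ p' :: D)) :: (N ++ [A ++ p :: (M ++ p' :: D)])).IsChain (JL L) :=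
      C.jnR
    refine chain_congr h0 ?_ ?_
    · simp [List.getLast?_append, List.getLast?_cons]
    · cases A with
      | nil => rfl
      | cons a A => rfl
  have hc0 := C.chR (A ++ p :: (M ++ p' :: D)) (by simp)
  obtain ⟨c1, c2, c3⟩ := ph3_ch2 hc0
  have e : ((p' :: D) :: (N ++ [A ++ [p]])).flatten = p' :: (D ++ (N.flatten ++ A) ++ [p]) := by
    simp
  rw [← e]
  refine flat_ch S.sub hj ?_ ?_ ?_ ?_
  · intro P hP
    simp only [List.mem_cons, List.mem_append, List.not_mem_nil, or_false] at hP
    rcases hP with hP | hP | hP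
    · rw [hP]; exact c3
    · exact C.chR P (by simp [hP])
    · rw [hP]; exact c1
  · intro P hP
    simp only [List.mem_cons, List.mem_append, List.not_mem_nil, or_false] at hP
    rcases hP with hP | hP | hP
    · rw [hP]; simp
    · intro h'
      have := C.twoR P (by simp [hP])
      rw [h'] at this; simp at this
    · rw [hP]; simp
  · rw [e]; rfl
  · rw [e]; simp [List.getLast?_append, List.getLast?_cons]

/-- `p` before `p'` -/
private theorem ph3_ord (S : Bs G L k) {E A M D : List V} {p p' : V} {N : List (List V)}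
    (hne : p ≠ p') (C : CI G L Ps ((A ++ p :: (M ++ p' :: D)) :: N)) (hE : Ch G p p' E)
    (hEn : E.Nodup)
    (hER : ∀ v ∈ E, v ∈ ((A ++ p :: (M ++ p' :: D)) :: N).flatten → v = p ∨ v = p')
    (hcov : ∀ c d, s(c, d) ∈ L →
      EL E c d ∨ c ∈ ((A ++ p :: (M ++ p' :: D)) :: N).flatten) : False := by
  obtain ⟨E1, hE1⟩ : ∃ E1, E = E1 ++ [p'] := List.getLast?_eq_some_iff.1 hE.lt
  obtain ⟨K, hK⟩ : ∃ K, E = p :: (K ++ [p']) := by
    cases E1 with
    | nil =>
      exfalso
      have h1 := hE.hd
      rw [hE1] at h1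
      have h2 : p' = p := by simpa using h1
      exact hne h2.symm
    | cons a K =>
      have h1 := hE.hd
      rw [hE1] at h1
      have h2 : a = p := by simpa using h1
      exact ⟨K, by rw [hE1, h2]; rfl⟩
  have hB := ph3_arc S C
  have hkn : K.Nodup ∧ p ∉ K ∧ p' ∉ K := by
    rw [hK] at hEn
    have h1 := List.nodup_cons.1 hEn
    have h2 := List.nodup_append'.1 h1.2
    refine ⟨h2.1, fun h => h1.1 (by simp [h]), fun h => h2.2.2 h (by simp)⟩
  have hR : ((A ++ p :: (M ++ p' :: D)) :: N).flatten.Nodup := (List.nodup_append'.1 C.nd).2.1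
  have eX : p :: ((K ++ p' :: (D ++ (N.flatten ++ A))) ++ [p]) =
      p :: (K ++ p' :: (D ++ (N.flatten ++ A) ++ [p])) := by simp
  -- the end of the segment and its start
  obtain ⟨D0, l, hD0⟩ : ∃ D0 l, p' :: D = D0 ++ [l] := by
    rcases List.eq_nil_or_concat' (p' :: D) with h | ⟨D0, l, h⟩
    · cases h
    · exact ⟨D0, l, h⟩
  obtain ⟨r, A0, hA0⟩ : ∃ r A0, A ++ [p] = r :: A0 := by
    cases A with
    | nil => exact ⟨p, [], rfl⟩
    | cons a A => exact ⟨a, A ++ [p], rfl⟩
  have hlast : (A ++ p :: (M ++ p' :: D)).getLast? = some l := by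
    have h1 : A ++ p :: (M ++ p' :: D) = (A ++ p :: M ++ D0) ++ [l] := by
      rw [hD0]; simp
    rw [h1]
    exact List.getLast?_concat
  have hhead : (A ++ p :: (M ++ p' :: D)).head? = some r := by
    have h1 : A ++ p :: (M ++ p' :: D) = (A ++ [p]) ++ (M ++ p' :: D) := by simp
    rw [h1, hA0]
    rfl
  have hrot : Rot ((A ++ p :: (M ++ p' :: D)) :: N) ((A ++ p :: (M ++ p' :: D)) :: N) :=
    ⟨(A ++ p :: (M ++ p' :: D)) :: N, [], by simp, by simp⟩
  have hcovR : ∀ c d, s(c, d) ∈ L → EL E c d ∨ EL (RL l r N) c d := by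
    intro a b hab
    rcases hcov a b hab with h | h
    · exact Or.inl h
    · exact Or.inr (C.covR S hrot hlast hhead hab h)
  refine ph3_wrap S (u := p) (X := K ++ p' :: (D ++ (N.flatten ++ A))) ?_ ?_ ?_ ?_
  · rw [eX]
    refine ph3_glue ?_ hB.ch
    rw [← hK]
    exact hE.ch
  · refine ph3_nodup hR hkn.1 ?_ ?_
    · intro z hz hz'
      rcases hER z (by rw [hK]; simp [hz]) hz' with h | h
      · exact hkn.2.1 (h ▸ hz)
      · exact hkn.2.2 (h ▸ hz)
    · intro v
      simp only [List.flatten_cons, List.count_append, List.count_cons]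
      omega
  · by_contra hlt
    simp only [List.length_append, List.length_cons] at hlt
    have k1 : K = [] := List.length_eq_zero_iff.1 (by omega)
    have k2 : D = [] := List.length_eq_zero_iff.1 (by omega)
    have k3 : N.flatten = [] := List.length_eq_zero_iff.1 (by omega)
    have k4 : A = [] := List.length_eq_zero_iff.1 (by omega)
    have k5 : l = p' := by
      have h1 : [p'] = D0 ++ [l] := by rw [← hD0, k2]
      have h2 := congrArg List.getLast? h1
      rw [List.getLast?_concat] at h2
      have h3 : some p' = some l := h2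
      exact (Option.some.inj h3).symm
    have k6 : r = p := by
      rw [k4] at hA0
      have h1 := congrArg List.head? hA0
      have h3 : some p = some r := h1
      exact (Option.some.inj h3).symm
    have hall : ∀ e ∈ L, e = s(p, p') := by
      intro e he
      induction e using Sym2.inductionOn with
      | _ a b =>
        have hab : EL [p, p'] a b → s(a, b) = s(p, p') := by
          rintro (h | h)
          · have h1 := h.eq_of_length (by simp)
            simp only [List.cons.injEq, and_true] at h1
            rw [h1.1, h1.2]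
          · have h1 := h.eq_of_length (by simp)
            simp only [List.cons.injEq, and_true] at h1
            rw [h1.1, h1.2, Sym2.eq_swap]
        rcases hcovR a b he with h | h
        · rw [hK, k1] at h
          exact hab h
        · have h1 : RL l r N = [p', p] := by
            unfold RL
            rw [k5, k6, k3]
            rfl
          rw [h1] at h
          have h2 : EL [p, p'] a b := by
            have := h.reverse
            simpa using this
          exact hab h2
    have h1 : L.card ≤ 1 := by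
      rw [Finset.card_le_one]
      intro e he f hf
      rw [hall e he, hall f hf]
    have h2 := S.card
    have h3 := S.k2
    omega
  · intro a b hab
    rcases hcovR a b hab with h | h
    · refine h.mono ?_
      rw [eX, hK]
      exact ⟨[], D ++ (N.flatten ++ A) ++ [p], by simp⟩
    · refine h.mono ?_
      rw [eX]
      have h1 : p :: (K ++ p' :: (D ++ (N.flatten ++ A) ++ [p])) =
          p :: K ++ (p' :: D) ++ N.flatten ++ (A ++ [p]) := by simp
      rw [h1, hD0, hA0]
      refine ⟨p :: K ++ D0, A0, ?_⟩
      unfold RL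
      simp

/-- (I1), both vertices on one segment -/
theorem ci_i1_same (S : Bs G L k) (C : CI G L Ps Rs) {E : List V} {p p' : V} (hne : p ≠ p')
    {Q : List V} (hQ : Q ∈ Rs) (hp : p ∈ Q) (hp' : p' ∈ Q) (hE : Ch G p p' E)
    (hEn : E.Nodup) (hER : ∀ v ∈ E, v ∈ Rs.flatten → v = p ∨ v = p')
    (hcov : ∀ c d, s(c, d) ∈ L → EL E c d ∨ c ∈ Rs.flatten) : False := by
  obtain ⟨R1, R2, hR⟩ := List.append_of_mem hQ
  have hrot : Rot Rs (Q :: (R2 ++ R1)) := ⟨R1, Q :: R2, hR, rfl⟩
  have C' := C.rotR hrot
  have hmem : ∀ v, v ∈ (Q :: (R2 ++ R1)).flatten ↔ v ∈ Rs.flatten := by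
    intro v
    simp only [hR, List.flatten_append, List.flatten_cons, List.mem_append]
    tauto
  have hER' : ∀ v ∈ E, v ∈ (Q :: (R2 ++ R1)).flatten → v = p ∨ v = p' :=
    fun v hv hv' => hER v hv ((hmem v).1 hv')
  have hcov' : ∀ c d, s(c, d) ∈ L → EL E c d ∨ c ∈ (Q :: (R2 ++ R1)).flatten :=
    fun c d hcd => (hcov c d hcd).imp_right (hmem c).2
  obtain ⟨A, B, hAB⟩ := List.append_of_mem hp
  have h1 : p' ∈ A ∨ p' ∈ B := by
    rw [hAB] at hp'
    simp only [List.mem_append, List.mem_cons] at hp'
    rcases hp' with h | h | h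
    · exact Or.inl h
    · exact absurd h.symm hne
    · exact Or.inr h
  rcases h1 with h1 | h1
  · obtain ⟨A', M, hA⟩ := List.append_of_mem h1
    have e : Q = A' ++ p' :: (M ++ p :: B) := by rw [hAB, hA]; simp
    rw [e] at C' hER' hcov'
    refine ph3_ord S hne.symm C' hE.reverse (List.nodup_reverse.2 hEn) ?_ ?_
    · intro v hv hv'
      exact (hER' v (List.mem_reverse.1 hv) hv').symm
    · intro c d hcd
      exact (hcov' c d hcd).imp_left EL.reverse
  · obtain ⟨M, D, hB⟩ := List.append_of_mem h1
    have e : Q = A ++ p :: (M ++ p' :: D) := by rw [hAB, hB]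
    rw [e] at C' hER' hcov'
    exact ph3_ord S hne C' hE hEn hER' hcov'

end Pool.Agent.LW
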