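import Pool.Agent.LW.R3

set_option autoImplicit false

/-!
# Configurations with two gates and their types
-/

namespace Pool.Agent.LW

open SimpleGraph Classical

universe w

variable {V : Type w} {G H : SimpleGraph V} {L : Finset (Sym2 V)} {k : ℕ} {x y : V}

/-- all configurations are tight -/
structure Ctx (G : SimpleGraph V) (L : Finset (Sym2 V)) (k : ℕ) : Prop where
  S : Bs G L k
  gt : ∀ x y Ps, Cfg G L x y Ps → ∃ B O, Gt G x y (VS Ps) B O
  tight : ∀ x y Ps B O, Cfg G L x y Ps → Gt G x y (VS Ps) B O → Tight G x y B O Ps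

/-- a configuration with exactly two gates -/
structure C2 (G : SimpleGraph V) (L : Finset (Sym2 V)) (x y : V) (Ps : List (List V)) : Prop where
  C : Cfg G L x y Ps
  T : Gt G x y (VS Ps) {x, y} (OV x y Ps)

/-- `P` is a segment with centre `c`, the only vertex attached to `x`, `y` -/
structure Sg (G : SimpleGraph V) (x y : V) (Ps : List (List V)) (P : List V) (c : V) : Prop where
  mem : c ∈ P
  ax : G.Adj x c
  ay : G.Adj y c
  ux : ∀ v ∈ P, Con G (OV x y Ps) x v → v = c
  uy : ∀ v ∈ P, Con G (OV x y Ps) y v → v = c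

theorem con_of_path {O : Set V} {g u : V} {K : List V} (h : Ch G g u (g :: (K ++ [u])))
    (hO : ∀ v ∈ K, v ∈ O) : Con G O g u := by
  rcases List.eq_nil_or_concat K with hK | ⟨K', z, hK⟩
  · subst hK
    left
    have := h.ch
    simpa using this
  · rw [List.concat_eq_append] at hK
    subst hK
    right
    refine ⟨z, att_of_path h hO z (by simp), ?_⟩
    have h1 : Ch G g u ((g :: K') ++ z :: u :: []) := by simpa using h
    exact h1.adj

theorem Con.of_adj {O : Set V} {u w : V} (h : G.Adj u w) : Con G O u w := Or.inl h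

theorem Cfg.seg_nodup {Ps : List (List V)} (h : Cfg G L x y Ps) {P : List V} (hP : P ∈ Ps) :
    P.Nodup := (List.nodup_flatten.1 h.nd).1 P hP

theorem one_of_filter {α : Type w} {l : List α} {p : α → Prop}
    (h : (l.filter (fun a => p a)).length = 1) {a b : α} (ha : a ∈ l) (hb : b ∈ l)
    (hpa : p a) (hpb : p b) : a = b := by
  obtain ⟨c, hc⟩ := List.length_eq_one_iff.1 h
  have h1 : a ∈ l.filter (fun a => p a) := by simp [ha, hpa]
  have h2 : b ∈ l.filter (fun a => p a) := by simp [hb, hpb]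
  rw [hc] at h1 h2
  simp at h1 h2
  rw [h1, h2]

theorem excl_ty {Ps : List (List V)} {P : List V} (hxy : x ≠ y) :
    Excl G {x, y} (OV x y Ps) P x ↔ Ty G x y Ps P := by
  constructor
  · rintro ⟨-, ⟨A, a, M, a', D, h1, h2, h3, h4⟩, h5⟩
    exact ⟨⟨A, a, M, a', D, h1, h2, h3, h4⟩, h5 y (by simp) (Ne.symm hxy)⟩
  · rintro ⟨⟨A, a, M, a', D, h1, h2, h3, h4⟩, h5⟩
    refine ⟨by simp, ⟨A, a, M, a', D, h1, h2, h3, h4⟩, ?_⟩
    intro g hg hgx
    rcases hg with hg | hg
    · exact absurd hg hgx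
    · rw [Set.mem_singleton_iff] at hg
      rw [hg]; exact h5

theorem OVs (x y : V) (Ps : List (List V)) : OV x y Ps = OV y x Ps := by
  ext v
  simp only [OV, Set.mem_ofPred_eq]
  tauto

theorem excl_ty' {Ps : List (List V)} {P : List V} (hxy : x ≠ y) :
    Excl G {x, y} (OV x y Ps) P y ↔ Ty G y x Ps P := by
  rw [Set.pair_comm, OVs x y, excl_ty hxy.symm]

theorem C2.ne {Ps : List (List V)} (h : C2 G L x y Ps) (hL : ∀ e ∈ L, e ∈ G.edgeSet) : x ≠ y :=
  h.C.xy_ne hL

theorem C2.types (X : Ctx G L k) {Ps : List (List V)} (h : C2 G L x y Ps) :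
    ∀ P ∈ Ps, Ty G x y Ps P ∨ Ty G y x Ps P ∨ ∃ c, Sg G x y Ps P c := by
  intro P hP
  have hxy := h.ne X.S.sub
  have T := X.tight x y Ps _ _ h.C h.T
  rcases T.typ P hP with ⟨c, hc⟩ | ⟨g, hg⟩
  · right; right
    have h1 := hc.2 x (by simp)
    have h2 := hc.2 y (by simp)
    exact ⟨c, hc.1, h1.1, h2.1, h1.2, h2.2⟩
  · have hgB := hg.1
    rcases hgB with h1 | h1
    · subst h1
      left; exact (excl_ty hxy).1 hg
    · rw [Set.mem_singleton_iff] at h1
      subst h1
      right; left; exact (excl_ty' hxy).1 hg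

theorem C2.count (X : Ctx G L k) {Ps : List (List V)} (h : C2 G L x y Ps) :
    (Ps.filter (fun P => Ty G x y Ps P)).length = (Ps.filter (fun P => Ty G y x Ps P)).length := by
  have hxy := h.ne X.S.sub
  have T := X.tight x y Ps _ _ h.C h.T
  have := T.two (by intro g hg; simpa using hg)
  simpa only [excl_ty hxy, excl_ty' hxy] using this

theorem C2.exX (X : Ctx G L k) {Ps : List (List V)} (h : C2 G L x y Ps) :
    ∃ P ∈ Ps, Ty G x y Ps P := by
  have hxy := h.ne X.S.sub
  have T := X.tight x y Ps _ _ h.C h.T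
  obtain ⟨P, h1, h2⟩ := T.ex x (by simp)
  exact ⟨P, h1, (excl_ty hxy).1 h2⟩

theorem Gt.swap {Z B O : Set V} (h : Gt G x y Z B O) : Gt G y x Z B O := by
  refine ⟨h.yB, h.xB, h.BZ, h.OO, ?_, h.att⟩
  intro g hg g' hg' hne
  obtain ⟨F, h1, h2, h3, h4⟩ := h.thr g hg g' hg' hne
  exact ⟨F, h1, h2, h3, h4.symm⟩

theorem C2.swap {Ps : List (List V)} (h : C2 G L x y Ps) : C2 G L y x Ps := by
  refine ⟨h.C.swap, ?_⟩
  rw [Set.pair_comm, OVs y x]
  exact h.T.swap

theorem C2.exY (X : Ctx G L k) {Ps : List (List V)} (h : C2 G L x y Ps) :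
    ∃ P ∈ Ps, Ty G y x Ps P := h.swap.exX X

/-- attachment through a walk in `O` -/
theorem Sg.swap {Ps : List (List V)} {P : List V} {c : V} (h : Sg G x y Ps P c) :
    Sg G y x Ps P c := by
  refine ⟨h.mem, h.ay, h.ax, ?_, ?_⟩
  · rw [OVs y x]; exact h.uy
  · rw [OVs y x]; exact h.ux

theorem Ty.not_Sg {Ps : List (List V)} {P : List V} {c : V} (h : Ty G x y Ps P)
    (h' : Sg G x y Ps P c) : False := h.no c h'.mem (Or.inl h'.ay)

theorem Ty.not_Ty {Ps : List (List V)} {P : List V} (h : Ty G x y Ps P)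
    (h' : Ty G y x Ps P) : False := by
  obtain ⟨A, a, M, b, D, h1, h2, -⟩ := h'.nb
  exact h.no a (by rw [h1]; simp) (Or.inl h2)

/-- two neighbours -/
theorem Ty.nbs {Ps : List (List V)} {P : List V} (h : Ty G x y Ps P) :
    ∃ a b, Bf P a b ∧ G.Adj x a ∧ G.Adj x b := by
  obtain ⟨A, a, M, b, D, h1, h2, h3, -⟩ := h.nb
  exact ⟨a, b, by rw [h1]; exact Bf.intro, h2, h3⟩

theorem Excl.nbs {B O : Set V} {P : List V} {g : V} (h : Excl G B O P g) :
    ∃ a b, Bf P a b ∧ G.Adj g a ∧ G.Adj g b := by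
  obtain ⟨-, ⟨A, a, M, b, D, h1, h2, h3, -⟩, -⟩ := h
  exact ⟨a, b, by rw [h1]; exact Bf.intro, h2, h3⟩

/-- on a typed segment with two attached vertices of `g`, the segment is exclusive for `g` -/
theorem Tight.excl {B O : Set V} {Ps : List (List V)} (T : Tight G x y B O Ps) {P : List V}
    (hP : P ∈ Ps) {g u v : V} (hg : g ∈ B) (hu : u ∈ P) (hv : v ∈ P) (huv : u ≠ v)
    (h1 : Con G O g u) (h2 : Con G O g v) : Excl G B O P g := by
  rcases T.typ P hP with ⟨c, hc⟩ | ⟨h, hh⟩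
  · have h3 := (hc.2 g hg).2
    exact absurd ((h3 u hu h1).trans (h3 v hv h2).symm) huv
  · by_cases hgh : g = h
    · rw [hgh]; exact hh
    · exact absurd h1 (hh.2.2 g hg hgh u hu)

/-- two different attached vertices on a segment belong to the same gate -/
theorem Tight.same {B O : Set V} {Ps : List (List V)} (T : Tight G x y B O Ps) {P : List V}
    (hP : P ∈ Ps) {g g' u v : V} (hg : g ∈ B) (hg' : g' ∈ B) (hu : u ∈ P) (hv : v ∈ P)
    (huv : u ≠ v) (h1 : Con G O g u) (h2 : Con G O g' v) : g = g' := by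
  rcases T.typ P hP with ⟨c, hc⟩ | ⟨h, hh⟩
  · exact absurd (((hc.2 g hg).2 u hu h1).trans ((hc.2 g' hg').2 v hv h2).symm) huv
  · by_contra hne
    by_cases hgh : g = h
    · exact hh.2.2 g' hg' (fun h3 => hne (hgh.trans h3.symm)) v hv h2
    · exact hh.2.2 g hg hgh u hu h1

end Pool.Agent.LW
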