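import Pool.Agent.LW.PH1
import Pool.Agent.LW.R4

set_option autoImplicit false

/-!
# Case I, first half: (I1)
-/

namespace Pool.Agent.LW

open SimpleGraph Classical

universe w

variable {V : Type w} {G H : SimpleGraph V} {L : Finset (Sym2 V)} {k : ℕ}
  {x y : V} {Ps Qs Rs Rest : List (List V)} {c : ℕ}

/-- two paths with the same ends form a closed list -/
theorem ph4_cl {E I : List V} {p p' : V} (hE : Ch G p p' E) (hW : Ch G p p' (p :: (I ++ [p'])))
    (h3 : 3 ≤ E.length) (hn : (E ++ I).Nodup) :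
    ∃ b C, Cl G p b C ∧ C.Perm (E ++ I) ∧ (∀ c d, EL E c d → EC p b C c d) ∧
      ∀ c d, EL (p :: (I ++ [p'])) c d → EC p b C c d := by
  cases I with
  | nil =>
    refine ⟨p', E, ⟨hE, by simpa using hn, ?_, h3⟩, by simp, fun c d h => Or.inl h, ?_⟩
    · exact (Ch.snd (by simpa using hW : Ch G p p' (p :: p' :: []))).symm
    · intro c d h
      right
      rcases h with h | h
      · have := List.IsInfix.eq_of_length h (by simp)
        simp at this
        rw [this.1, this.2]
      · have := List.IsInfix.eq_of_length h (by simp)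
        simp at this
        rw [this.1, this.2, Sym2.eq_swap]
  | cons i I =>
    obtain ⟨E2, rfl⟩ : ∃ E2, E = E2 ++ [p'] :=
      ⟨_, (List.dropLast_append_getLast? p' (by simpa using hE.lt)).symm⟩
    have hW' : Ch G i p' (i :: (I ++ [p'])) := Ch.tail hW
    have hr : Ch G p' i (p' :: (I.reverse ++ [i])) := by
      have := hW'.reverse
      simpa using this
    have hc := Ch.glue hE hr
    have hp : (E2 ++ p' :: (I.reverse ++ [i])).Perm ((E2 ++ [p']) ++ i :: I) := by
      have e : E2 ++ p' :: (I.reverse ++ [i]) = (E2 ++ [p']) ++ (i :: I).reverse := by simp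
      rw [e]
      exact List.Perm.append_left _ (List.reverse_perm _)
    refine ⟨i, E2 ++ p' :: (I.reverse ++ [i]), ⟨hc, hp.nodup_iff.2 hn, (Ch.snd hW).symm, ?_⟩,
      hp, ?_, ?_⟩
    · simp at h3 ⊢; omega
    · intro c d h
      exact Or.inl (h.mono ⟨[], I.reverse ++ [i], by simp⟩)
    · intro c d h
      have e : p :: (i :: I ++ [p']) = [p] ++ i :: (I ++ [p']) := by simp
      rw [e] at h
      rcases EL.split h with h1 | h1
      · right
        rcases h1 with h | h
        · have := List.IsInfix.eq_of_length h (by simp)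
          simp at this
          rw [this.1, this.2]
        · have := List.IsInfix.eq_of_length h (by simp)
          simp at this
          rw [this.1, this.2, Sym2.eq_swap]
      · left
        have h2 := h1.reverse
        refine h2.mono ⟨E2, [], by simp⟩

/-- an edge of `L` on the first cycle -/
theorem ph4_edge (C : CI G L Ps Rs) : ∃ a b, s(a, b) ∈ L ∧ a ∉ Rs.flatten := by
  have h1 := C.jnP
  cases Ps with
  | nil => exact absurd rfl h1.ne
  | cons P M =>
    have h2 : (P :: (M ++ [P])).IsChain (JL L) := h1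
    obtain ⟨Q, M', h3⟩ : ∃ Q M', M ++ [P] = Q :: M' := by
      cases M with
      | nil => exact ⟨P, [], rfl⟩
      | cons Q M => exact ⟨Q, M ++ [P], rfl⟩
    rw [h3, List.isChain_cons_cons] at h2
    obtain ⟨a, b, h4, h5, h6⟩ := h2.1
    refine ⟨a, b, h6, fun h7 => ?_⟩
    have h8 : a ∈ (P :: M).flatten := by
      simp only [List.flatten_cons, List.mem_append]
      exact Or.inl (List.mem_of_getLast? h4)
    exact (List.nodup_append'.1 C.nd).2.2 h8 h7

theorem ph4_core (S : Bs G L k) (hmin : MinC G L c) {A D A' D' : List V} {p p' h t : V}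
    {N1 N2 : List (List V)}
    (C : CI G L Ps (((h :: A) ++ p :: D) :: (N1 ++ (A' ++ p' :: (D' ++ [t])) :: N2)))
    (hR : (((h :: A) ++ p :: D) :: (N1 ++ (A' ++ p' :: (D' ++ [t])) :: N2)).length = c)
    {E : List V} (hE : Ch G p p' E) (hEn : E.Nodup)
    (hER : ∀ v ∈ E, v ∈ (((h :: A) ++ p :: D) :: (N1 ++ (A' ++ p' :: (D' ++ [t])) :: N2)).flatten →
      v = p ∨ v = p')
    (hcov : ∀ c d, s(c, d) ∈ L → EL E c d ∨
      c ∈ (((h :: A) ++ p :: D) :: (N1 ++ (A' ++ p' :: (D' ++ [t])) :: N2)).flatten) : False := by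
  have hbase : (((h :: A) ++ p :: D) ++ (N1.flatten ++ ((A' ++ p' :: (D' ++ [t])) ++
      N2.flatten))).Nodup := by
    have := (List.nodup_append'.1 C.nd).2.1
    simpa using this
  have hsubR : ∀ v, v ∈ (((h :: A) ++ p :: D) :: (N1 ++ (A' ++ p' :: (D' ++ [t])) :: N2)).flatten ↔
      v ∈ (((h :: A) ++ p :: D) ++ (N1.flatten ++ ((A' ++ p' :: (D' ++ [t])) ++
      N2.flatten))) := by
    intro v; simp
  have j := C.jnR
  have hch := C.chR
  have htwo := C.twoR
  obtain ⟨q, hq⟩ : ∃ q, (p :: D).getLast? = some q :=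
    ⟨_, List.getLast?_eq_some_getLast (by simp)⟩
  obtain ⟨q', hq'⟩ : ∃ q', (A' ++ [p']).head? = some q' :=
    ⟨_, List.head?_eq_some_head (by simp)⟩
  have hQl : ((h :: A) ++ p :: D).getLast? = some q := by
    rw [List.getLast?_append]; simp [hq]
  have hQh' : (A' ++ p' :: (D' ++ [t])).head? = some q' := by
    have : A' ++ p' :: (D' ++ [t]) = (A' ++ [p']) ++ (D' ++ [t]) := by simp
    rw [this, List.head?_append, hq']; rfl
  have hQl' : (A' ++ p' :: (D' ++ [t])).getLast? = some t := by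
    have : A' ++ p' :: (D' ++ [t]) = (A' ++ p' :: D') ++ [t] := by simp
    rw [this, List.getLast?_append]; rfl
  have j1 : (((h :: A) ++ p :: D) :: (N1 ++ [A' ++ p' :: (D' ++ [t])])).IsChain (JL L) := by
    refine chain_of_inf j ⟨[], N2 ++ [(h :: A) ++ p :: D], by simp⟩
  have j2 : ((A' ++ p' :: (D' ++ [t])) :: (N2 ++ [(h :: A) ++ p :: D])).IsChain (JL L) := by
    refine chain_of_inf j ⟨((h :: A) ++ p :: D) :: N1, [], by simp⟩
  have hne : ∀ R ∈ ((h :: A) ++ p :: D) :: (N1 ++ (A' ++ p' :: (D' ++ [t])) :: N2), R ≠ [] := by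
    intro R hR1 hR2
    have := htwo R hR1
    rw [hR2] at this
    simp at this
  have l1 : Lk G L q N1 q' := lk_of_isChain j1 (fun R hR1 => hch R (by simp [hR1]))
    (fun R hR1 => hne R (by simp [hR1])) hQl hQh'
  have l2 : Lk G L t N2 h := lk_of_isChain j2 (fun R hR1 => hch R (by simp [hR1]))
    (fun R hR1 => hne R (by simp [hR1])) hQl' (by simp)
  -- the way from `p` to `p'`
  have w1 : Ch G p q (p :: D) := by
    refine ⟨rfl, hq, ?_⟩
    exact chain_of_inf (hch ((h :: A) ++ p :: D) (by simp)) ⟨h :: A, [], by simp⟩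
  have w2 : Ch G q' p' (A' ++ [p']) := by
    refine ⟨hq', by simp, ?_⟩
    exact chain_of_inf (hch (A' ++ p' :: (D' ++ [t])) (by simp)) ⟨[], D' ++ [t], by simp⟩
  obtain ⟨D1, hD1⟩ : ∃ D1, p :: D = D1 ++ [q] :=
    ⟨_, (List.dropLast_append_getLast? q (by simpa using hq)).symm⟩
  obtain ⟨A1, hA1⟩ : ∃ A1, A' ++ [p'] = q' :: A1 := by
    cases hA : A' ++ [p'] with
    | nil => simp at hA
    | cons a A1 =>
      rw [hA] at hq'
      simp at hq'
      exact ⟨A1, by rw [hq']⟩
  have w3 : Ch G p p' (p :: ((D ++ (N1.flatten ++ A')) ++ [p'])) := by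
    have e1 : p :: ((D ++ (N1.flatten ++ A')) ++ [p']) = D1 ++ q :: (N1.flatten ++ q' :: A1) := by
      have : D1 ++ q :: (N1.flatten ++ q' :: A1) = (D1 ++ [q]) ++ (N1.flatten ++ (q' :: A1)) := by
        simp
      rw [this, ← hD1, ← hA1]; simp
    rw [e1]
    refine Ch.thru (by rw [← hD1]; exact w1) (lk_ch S.sub l1) (by rw [← hA1]; exact w2)
  have w4 : ∀ a b, EL (RL q q' N1) a b → EL (p :: ((D ++ (N1.flatten ++ A')) ++ [p'])) a b := by
    intro a b hab
    refine hab.mono ⟨D1, A1, ?_⟩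
    have : D1 ++ RL q q' N1 ++ A1 = (D1 ++ [q]) ++ (N1.flatten ++ (q' :: A1)) := by
      simp [RL]
    rw [this, ← hD1, ← hA1]; simp
  have cov : ∀ a b, s(a, b) ∈ L → EL E a b ∨ EL (RL q q' N1) a b ∨ EL (RL t h N2) a b := by
    intro a b hab
    rcases hcov a b hab with h1 | h1
    · exact Or.inl h1
    · right
      have h2 := C.covR S (Rest := N1 ++ (A' ++ p' :: (D' ++ [t])) :: N2) ⟨[], _, rfl, by simp⟩ hQl
        (y := h) (by simp) hab h1
      have e1 : RL q h (N1 ++ (A' ++ p' :: (D' ++ [t])) :: N2) =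
          (q :: N1.flatten) ++ q' :: (A1 ++ (D' ++ t :: (N2.flatten ++ [h]))) := by
        have : (q :: N1.flatten) ++ q' :: (A1 ++ (D' ++ t :: (N2.flatten ++ [h]))) =
          (q :: N1.flatten) ++ ((q' :: A1) ++ (D' ++ t :: (N2.flatten ++ [h]))) := by simp
        rw [this, ← hA1]; simp [RL]
      rw [e1] at h2
      rcases EL.split h2 with h3 | h3
      · left
        simpa [RL] using h3
      · have e2 : q' :: (A1 ++ (D' ++ t :: (N2.flatten ++ [h]))) =
            (q' :: (A1 ++ D')) ++ t :: (N2.flatten ++ [h]) := by simp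
        rw [e2] at h3
        rcases EL.split h3 with h4 | h4
        · exfalso
          refine C.noR S (Q := A' ++ p' :: (D' ++ [t])) (by simp) hab ?_
          have e3 : A' ++ p' :: (D' ++ [t]) = q' :: (A1 ++ D') ++ [t] := by
            have : q' :: (A1 ++ D') ++ [t] = (q' :: A1) ++ (D' ++ [t]) := by simp
            rw [this, ← hA1]; simp
          rw [e3]; exact h4
        · exact Or.inr h4
  have nd2 : ((RL t h N2 ++ A) ++ (p :: p' :: (D ++ (N1.flatten ++ A')))).Nodup := by
    refine nodup_of_count hbase ?_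
    intro v
    simp only [RL, List.count_append, List.count_cons,
      List.count_nil, List.cons_append]
    omega
  obtain ⟨nd3, nd4, nd5⟩ := List.nodup_append'.1 nd2
  obtain ⟨nd6, nd7, nd8⟩ := List.nodup_append'.1 nd3
  rw [List.nodup_cons, List.nodup_cons] at nd4
  obtain ⟨nd9, nd10, nd11⟩ := nd4
  have hpp : p ≠ p' := fun h => nd9 (by rw [h]; simp)
  have hEI : ∀ v ∈ E, v ∉ D ++ (N1.flatten ++ A') := by
    intro v hv hv2
    have hin : v ∈ (((h :: A) ++ p :: D) :: (N1 ++ (A' ++ p' :: (D' ++ [t])) :: N2)).flatten := by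
      rw [hsubR]
      rcases List.mem_append.1 hv2 with h3 | h3
      · simp [h3]
      · rcases List.mem_append.1 h3 with h3 | h3
        · exact List.mem_append_right _ (List.mem_append_left _ h3)
        · simp [h3]
    rcases hER v hv hin with rfl | rfl
    · exact nd9 (List.mem_cons_of_mem _ hv2)
    · exact nd10 hv2
  have hER2 : ∀ v ∈ E, v ∉ RL t h N2 ++ A := by
    intro v hv hv2
    have hin : v ∈ (((h :: A) ++ p :: D) :: (N1 ++ (A' ++ p' :: (D' ++ [t])) :: N2)).flatten := by
      rw [hsubR]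
      rcases List.mem_append.1 hv2 with h3 | h3
      · rcases mem_RL.1 h3 with h3 | h3 | h3
        · simp [h3]
        · exact List.mem_append_right _ (List.mem_append_right _ (List.mem_append_right _ h3))
        · simp [h3]
      · simp [h3]
    rcases hER v hv hin with rfl | rfl
    · exact nd5 hv2 (by simp)
    · exact nd5 hv2 (by simp)
  have hndE : (E ++ (D ++ (N1.flatten ++ A'))).Nodup :=
    List.nodup_append'.2 ⟨hEn, nd11, fun v hv hv2 => hEI v hv hv2⟩
  have hlen : 3 ≤ E.length := by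
    obtain ⟨a, b, hab, ha⟩ := ph4_edge C
    have haE : a ∈ E := by
      rcases hcov a b hab with h1 | h1
      · exact h1.memL
      · exact absurd h1 ha
    have hap : a ≠ p := by
      rintro rfl
      exact ha ((hsubR _).2 (by simp))
    have hap' : a ≠ p' := by
      rintro rfl
      exact ha ((hsubR _).2 (by simp))
    have h5 : [p, p', a].Nodup := by simp [hpp, hap.symm, hap'.symm]
    have h6 : [p, p', a] ⊆ E := by
      intro v hv
      simp only [List.mem_cons, List.not_mem_nil, or_false] at hv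
      rcases hv with rfl | rfl | rfl
      · exact hE.memL
      · exact hE.memR
      · exact haE
    exact (List.subperm_of_subset h5 h6).length_le
  obtain ⟨b, Cc, p1, p2, p3, p4⟩ := ph4_cl hE w3 hlen hndE
  have g1 : ∀ v ∈ Cc, v ∉ RL t h N2 ++ A := by
    intro v hv hv2
    rcases List.mem_append.1 (p2.mem_iff.1 hv) with h3 | h3
    · exact hER2 v h3 hv2
    · exact nd5 hv2 (List.mem_cons_of_mem _ (List.mem_cons_of_mem _ h3))
  obtain ⟨a, a', ha, ha'⟩ : ∃ a a', s(a, a') ∈ L ∧ EL E a a' := by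
    obtain ⟨a, b, hab, ha⟩ := ph4_edge C
    rcases hcov a b hab with h1 | h1
    · exact ⟨a, b, hab, h1⟩
    · exact absurd h1 ha
  obtain ⟨Ps'', r1, r2⟩ := lc_of_closed S.ind p1 (x := t) (y := h) (M := N2)
    ⟨nd6, fun R hR1 => C.twoR R (by simp [hR1]), l2⟩
    (fun R hR1 a b hab => C.noR S (Q := R) (by simp [hR1]) hab)
    (fun v hv hv2 => g1 v hv (List.mem_append_left _ hv2)) ha (p3 _ _ ha') (fun a b hab => by
      rcases cov a b hab with h2 | h2 | h2
      · exact Or.inl (p3 _ _ h2)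
      · exact Or.inl (p4 _ _ (w4 _ _ h2))
      · exact Or.inr h2)
  have hlk : Lkd G t h Ps'' N2 := by
    refine ⟨p, r1.mem_iff.2 (p2.mem_iff.2 (List.mem_append_left _ hE.memL)), ?_⟩
    refine con_of_path (K := A) ⟨rfl, ?_, ?_⟩ ?_
    · rw [← List.cons_append, List.getLast?_append]; rfl
    · exact chain_of_inf (hch ((h :: A) ++ p :: D) (by simp)) ⟨[], D, by simp⟩
    · intro v hv
      refine ⟨fun h3 => g1 v (r1.mem_iff.1 h3) (List.mem_append_right _ hv), fun h3 => nd8 h3 hv⟩
  have := hmin _ _ _ _ r2 hlk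
  simp at hR
  omega

theorem ci_i1_diff (S : Bs G L k) (hmin : MinC G L c) (C : CI G L Ps Rs) (hR : Rs.length = c)
    {E : List V} {p p' : V} {Q Q' : List V} {N1 N2 : List (List V)}
    (hr : Rot Rs (Q :: (N1 ++ Q' :: N2))) (hp : p ∈ Q) (hp' : p' ∈ Q')
    (hh : Q.head? ≠ some p) (hl : Q'.getLast? ≠ some p') (hE : Ch G p p' E)
    (hEn : E.Nodup) (hER : ∀ v ∈ E, v ∈ Rs.flatten → v = p ∨ v = p')
    (hcov : ∀ c d, s(c, d) ∈ L → EL E c d ∨ c ∈ Rs.flatten) : False := by
  have C' := C.rotR hr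
  have hlen : (Q :: (N1 ++ Q' :: N2)).length = c := by
    rw [← hR]
    obtain ⟨A, D, h1, h2⟩ := hr
    rw [h1, h2]; simp; omega
  have hfl : ∀ v, v ∈ Rs.flatten ↔ v ∈ (Q :: (N1 ++ Q' :: N2)).flatten := by
    intro v
    simp only [List.mem_flatten]
    constructor
    · rintro ⟨Q, hQ, h1⟩
      exact ⟨Q, hr.mem.1 hQ, h1⟩
    · rintro ⟨Q, hQ, h1⟩
      exact ⟨Q, hr.mem.2 hQ, h1⟩
  obtain ⟨A, D, rfl⟩ := List.append_of_mem hp
  obtain ⟨A', D', rfl⟩ := List.append_of_mem hp'
  cases A with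
  | nil => exact hh rfl
  | cons h A =>
    have hD' : D' ≠ [] := by
      rintro rfl
      exact hl (by simp)
    obtain ⟨D1, t, rfl⟩ : ∃ D1 t, D' = D1 ++ [t] :=
      ⟨_, _, (List.dropLast_append_getLast hD').symm⟩
    exact ph4_core S hmin C' hlen hE hEn (fun v hv hv2 => hER v hv ((hfl v).2 hv2))
      (fun a b hab => (hcov a b hab).imp_right (fun h => (hfl a).1 h))

end Pool.Agent.LW
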