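import Pool.Agent.LW.PH3
import Pool.Agent.LW.PH4

set_option autoImplicit false

/-!
# Case I, first half: (I1)
-/

namespace Pool.Agent.LW

open SimpleGraph Classical

universe w

variable {V : Type w} {G H : SimpleGraph V} {L : Finset (Sym2 V)} {k : ℕ}
  {x y : V} {Ps Qs Rs Rest : List (List V)} {c : ℕ}

private theorem ph5_flat {Rs' : List (List V)} (h : Rot Rs Rs') {v : V} :
    v ∈ Rs.flatten ↔ v ∈ Rs'.flatten := by
  simp only [List.mem_flatten, h.mem]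

private theorem ph5_len {Rs' : List (List V)} (h : Rot Rs Rs') : Rs.length = Rs'.length := by
  obtain ⟨A, D, rfl, rfl⟩ := h
  simp only [List.length_append]
  omega

/-- (I1): a path that meets the second cycle in its ends and contains the other edges of `L` -/
theorem ci_i1 (S : Bs G L k) (hmin : MinC G L c) (C : CI G L Ps Rs) (hR : Rs.length = c)
    {E : List V} {p p' : V} (hne : p ≠ p') (hp : p ∈ Rs.flatten) (hp' : p' ∈ Rs.flatten)
    (hE : Ch G p p' E) (hEn : E.Nodup) (hER : ∀ v ∈ E, v ∈ Rs.flatten → v = p ∨ v = p')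
    (hcov : ∀ c d, s(c, d) ∈ L → EL E c d ∨ c ∈ Rs.flatten) :
    (p ∈ HR Rs ∧ p' ∈ HR Rs) ∨ (p ∈ LR Rs ∧ p' ∈ LR Rs) := by
  obtain ⟨Q, hQ, hpQ⟩ := List.mem_flatten.1 hp
  obtain ⟨Q', hQ', hpQ'⟩ := List.mem_flatten.1 hp'
  have h1 : p' ∉ Q := fun h => ci_i1_same S C hne hQ hpQ h hE hEn hER hcov
  have hQQ : Q' ≠ Q := fun h => h1 (h ▸ hpQ')
  obtain ⟨A, D, hAD⟩ := List.append_of_mem hQ
  have hQ2 : Q' ∈ D ++ A := by
    rw [hAD] at hQ'
    simp only [List.mem_append, List.mem_cons] at hQ' ⊢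
    tauto
  obtain ⟨N1, N2, hN⟩ := List.append_of_mem hQ2
  have hr : Rot Rs (Q :: (N1 ++ Q' :: N2)) := ⟨A, Q :: D, hAD, by rw [← hN]; rfl⟩
  have hr2 : Rot (Q :: (N1 ++ Q' :: N2)) (Q' :: (N2 ++ Q :: N1)) :=
    ⟨Q :: N1, Q' :: N2, by simp, by simp⟩
  have k1 : Q.head? = some p ∨ Q'.getLast? = some p' := by
    by_contra hcon
    push Not at hcon
    exact ci_i1_diff S hmin C hR hr hpQ hpQ' hcon.1 hcon.2 hE hEn hER hcov
  have k2 : Q'.head? = some p' ∨ Q.getLast? = some p := by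
    by_contra hcon
    push Not at hcon
    refine ci_i1_diff S hmin (C.rotR hr) ((ph5_len hr).symm.trans hR) hr2 hpQ' hpQ hcon.1 hcon.2
      hE.reverse (List.nodup_reverse.2 hEn) ?_ ?_
    · intro v hv hv'
      exact (hER v (List.mem_reverse.1 hv) ((ph5_flat hr).2 hv')).symm
    · intro a b hab
      rcases hcov a b hab with h | h
      · exact Or.inl h.reverse
      · exact Or.inr ((ph5_flat hr).1 h)
  rcases k1 with a | b
  · rcases k2 with d | e
    · exact Or.inl ⟨⟨Q, hQ, a⟩, ⟨Q', hQ', d⟩⟩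
    · exact absurd ⟨Q, hQ, e⟩ (C.HL ⟨Q, hQ, a⟩)
  · rcases k2 with d | e
    · exact absurd ⟨Q', hQ', b⟩ (C.HL ⟨Q', hQ', d⟩)
    · exact Or.inr ⟨⟨Q, hQ, e⟩, ⟨Q', hQ', b⟩⟩

end Pool.Agent.LW
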