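import Pool.Agent.LW.PH1

set_option autoImplicit false

/-!
# Case I, first half: the component of the second cycle
-/

namespace Pool.Agent.LW

open SimpleGraph Classical

universe w

variable {V : Type w} {G H : SimpleGraph V} {L : Finset (Sym2 V)} {k : ℕ}
  {x y : V} {Ps Qs Rs Rest : List (List V)} {c : ℕ}

private theorem ph6_mono {O O' : Set V} {a b : V} (h : Rch G O a b) (hO : ∀ v ∈ O, v ∈ O') :
    Rch G O' a b := by
  obtain ⟨F, hF, h⟩ := h
  exact ⟨F, hF, fun v hv => hO v (h v hv)⟩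

private theorem ph6_seg {O : Set V} {Q : List V} (hc : Q.IsChain G.Adj) (hO : ∀ v ∈ Q, v ∈ O)
    {v w : V} (hv : v ∈ Q) (hw : w ∈ Q) : Rch G O v w := by
  obtain ⟨a, b, hab⟩ := Ch.ex hc (List.ne_nil_of_mem hv)
  have key : ∀ z ∈ Q, Rch G O a z := by
    intro z hz
    obtain ⟨A, D, hAD⟩ := List.append_of_mem hz
    rw [hAD] at hab
    refine ⟨A ++ [z], hab.left, ?_⟩
    intro u hu
    apply hO u
    rw [hAD]
    rcases List.mem_append.1 hu with hu | hu
    · exact List.mem_append_left _ hu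
    · rw [List.mem_singleton.1 hu]
      simp
  exact (key v hv).symm.trans (key w hw)

private theorem ph6_chain (hL : ∀ a b, s(a, b) ∈ L → G.Adj a b) {O : Set V} :
    ∀ (M : List (List V)) (P : List V), (P :: M).IsChain (JL L) →
      (∀ Q ∈ P :: M, Q.IsChain G.Adj) → (∀ v ∈ (P :: M).flatten, v ∈ O) →
      ∀ p ∈ P, ∀ v ∈ (P :: M).flatten, Rch G O p v := by
  intro M
  induction M with
  | nil =>
    intro P _ hc hO p hp v hv
    refine ph6_seg (hc P (by simp)) ?_ hp (by simpa using hv)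
    intro z hz
    exact hO z (by simpa using hz)
  | cons Q M ih =>
    intro P hj hc hO p hp v hv
    have hOP : ∀ z ∈ P, z ∈ O := fun z hz => hO z (by
      rw [List.flatten_cons, List.mem_append]; exact Or.inl hz)
    rw [List.flatten_cons, List.mem_append] at hv
    rcases hv with hv | hv
    · exact ph6_seg (hc P (by simp)) hOP hp hv
    · rw [List.isChain_cons_cons] at hj
      obtain ⟨⟨r, l, h1, h2, h3⟩, hj⟩ := hj
      have hl : l ∈ Q := List.mem_of_head? h2
      have hr : r ∈ P := List.mem_of_getLast? h1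
      have hO' : ∀ z ∈ (Q :: M).flatten, z ∈ O := fun z hz => hO z (by
        rw [List.flatten_cons, List.mem_append]; exact Or.inr hz)
      have h4 : Rch G O p r := ph6_seg (hc P (by simp)) hOP hp hr
      have h5 : Rch G O p l := h4.step (hL r l h3) (hO' l (by
        rw [List.flatten_cons, List.mem_append]; exact Or.inl hl))
      exact h5.trans (ih Q hj (fun R hR => hc R (List.mem_cons_of_mem _ hR)) hO' l hl v hv)

theorem wr_off {v : V} (h : v ∈ WR G Ps Rs) : v ∉ Ps.flatten := by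
  obtain ⟨r, _, h⟩ := h
  exact h.right

private theorem ph6_off (C : CI G L Ps Rs) {v : V} (h : v ∈ Rs.flatten) : v ∉ Ps.flatten :=
  fun h' => (List.nodup_append'.1 C.nd).2.2 h' h

theorem wr_mem (C : CI G L Ps Rs) {v : V} (h : v ∈ Rs.flatten) : v ∈ WR G Ps Rs :=
  ⟨v, h, Rch.refl (ph6_off C h)⟩

theorem wr_step {v w : V} (h : v ∈ WR G Ps Rs) (ha : G.Adj v w) (hw : w ∉ Ps.flatten) :
    w ∈ WR G Ps Rs := by
  obtain ⟨r, hr, h⟩ := h
  exact ⟨r, hr, h.step ha hw⟩

/-- the second cycle is connected -/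
theorem wr_conn (S : Bs G L k) (C : CI G L Ps Rs) {v w : V} (h : v ∈ WR G Ps Rs)
    (h' : w ∈ WR G Ps Rs) : Rch G (OZ Ps) v w := by
  obtain ⟨r, hr, h⟩ := h
  obtain ⟨r', hr', h'⟩ := h'
  have hL : ∀ a b, s(a, b) ∈ L → G.Adj a b := fun a b hab => by
    have := S.sub _ hab
    rwa [SimpleGraph.mem_edgeSet] at this
  match Rs, C, hr, hr' with
  | [], _, hr, _ => simp at hr
  | P :: M, C, hr, hr' =>
    have hj : (P :: (M ++ [P])).IsChain (JL L) := C.jnR
    have hj' : (P :: M).IsChain (JL L) :=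
      chain_of_inf hj ⟨[], [P], by simp⟩
    have h2 := C.twoR P (by simp)
    obtain ⟨p, hp⟩ : ∃ p, p ∈ P := by
      cases P with
      | nil => simp at h2
      | cons p P => exact ⟨p, by simp⟩
    have key := ph6_chain hL (O := OZ Ps) M P hj' C.chR (fun v hv => ph6_off C hv) p hp
    exact h.symm.trans ((key r hr).symm.trans ((key r' hr').trans h'))

theorem att_wr (C : CI G L Ps Rs) {t o : V} (ht : t ∈ TR Rs) (h : o ∈ Att G (OM Ps Rs) t) :
    o ∈ WR G Ps Rs := by
  obtain ⟨a, ha, h⟩ := h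
  obtain ⟨r, hr, h1⟩ := wr_step (wr_mem C (TR_sub ht)) ha h.left.1
  exact ⟨r, hr, h1.trans (ph6_mono h (fun v hv => hv.1))⟩

private theorem ph6_hd (C : CI G L Ps Rs) {v : V} (h : v ∈ Rs.flatten) (ht : v ∉ TR Rs) :
    ∃ u ∈ HR Rs, v ∈ Att G (OM Ps Rs) u := by
  have hn : Rs.flatten.Nodup := (List.nodup_append'.1 C.nd).2.1
  obtain ⟨Q, hQ, hv⟩ := List.mem_flatten.1 h
  obtain ⟨A, D, hAD⟩ := List.append_of_mem hv
  have hQn : Q.Nodup := List.Nodup.sublist (List.sublist_flatten_of_mem hQ) hn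
  cases A with
  | nil => exact absurd (Or.inl ⟨Q, hQ, by rw [hAD]; rfl⟩) ht
  | cons u A =>
    have hu : Q.head? = some u := by rw [hAD]; rfl
    refine ⟨u, ⟨Q, hQ, hu⟩, ?_⟩
    have hQc := C.chR Q hQ
    rw [hAD] at hQn
    have hOM : ∀ z ∈ A ++ [v], z ∈ OM Ps Rs := by
      intro z hz
      have hzQ : z ∈ Q := by
        rw [hAD]
        rcases List.mem_append.1 hz with hz | hz
        · exact List.mem_append_left _ (List.mem_cons_of_mem _ hz)
        · rw [List.mem_singleton.1 hz]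
          simp
      refine ⟨ph6_off C (List.mem_flatten.2 ⟨Q, hQ, hzQ⟩), ?_⟩
      rcases List.mem_append.1 hz with hz | hz
      · rintro (⟨Q', hQ', hz'⟩ | ⟨Q', hQ', hz'⟩)
        · have hE : Q' = Q := flat_same hn hQ' hQ (List.mem_of_head? hz') hzQ
          rw [hE, hu] at hz'
          have hz2 : u = z := by simpa using hz'
          rw [hz2, List.cons_append, List.nodup_cons] at hQn
          exact hQn.1 (List.mem_append_left _ hz)
        · have hE : Q' = Q := flat_same hn hQ' hQ (List.mem_of_getLast? hz') hzQ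
          rw [hE, hAD] at hz'
          have hz2 : z ∈ v :: D := by
            rw [List.getLast?_append_of_ne_nil _ (List.cons_ne_nil v D)] at hz'
            exact List.mem_of_getLast? hz'
          exact (List.nodup_append'.1 hQn).2.2 (List.mem_cons_of_mem _ hz) hz2
      · rw [List.mem_singleton.1 hz]
        exact ht
    have hch : Ch G u v (u :: (A ++ [v])) := by
      have hl : ((u :: A) ++ [v]).getLast? = some v := by
        rw [List.getLast?_append_of_ne_nil _ (List.cons_ne_nil v [])]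
        rfl
      refine ⟨rfl, hl, ?_⟩
      rw [hAD] at hQc
      exact chain_of_inf hQc ⟨[], D, by simp⟩
    cases hB : A ++ [v] with
    | nil => simp at hB
    | cons b B =>
      rw [hB] at hch hOM
      exact ⟨b, hch.snd, b :: B, hch.tail, hOM⟩

/-- the inner vertices of the segments of the second cycle are mixed -/
theorem r_mixed (C : CI G L Ps Rs) {v : V} (h : v ∈ Rs.flatten) (ht : v ∉ TR Rs) :
    Mx G Ps Rs v := by
  refine ⟨ph6_hd C h ht, ?_⟩
  have h1 : v ∈ (rv Rs).flatten := by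
    obtain ⟨Q, hQ, hv⟩ := List.mem_flatten.1 h
    refine List.mem_flatten.2 ⟨Q.reverse, ?_, by simpa using hv⟩
    unfold rv
    rw [List.mem_reverse, List.mem_map]
    exact ⟨Q, hQ, rfl⟩
  have h2 := ph6_hd C.revR h1 (by rw [TR_rv]; exact ht)
  rw [HR_rv, OM_rv] at h2
  exact h2

/-- every vertex of the component is an end of an edge of `L` or attached to one -/
theorem wr_cases (S : Bs G L k) (C : CI G L Ps Rs) {v : V} (h : v ∈ WR G Ps Rs) :
    v ∈ TR Rs ∨ ∃ t ∈ TR Rs, v ∈ Att G (OM Ps Rs) t := by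
  obtain ⟨r, hr, F, hF, hO⟩ := h
  have key : ∀ (F : List V) (r : V), Ch G r v F → (∀ z ∈ F, z ∈ OZ Ps) →
      (∃ t ∈ TR Rs, t = v ∨ v ∈ Att G (OM Ps Rs) t) ∨ Rch G (OM Ps Rs) r v := by
    intro F
    induction F with
    | nil => intro r hF _; exact absurd rfl hF.ne
    | cons a F ih =>
      intro r hF hO
      have ha : a = r := by simpa using hF.hd
      subst ha
      cases F with
      | nil =>
        have hv : a = v := by simpa using hF.lt
        subst hv
        by_cases hT : a ∈ TR Rs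
        · exact Or.inl ⟨a, hT, Or.inl rfl⟩
        · exact Or.inr (Rch.refl ⟨hO a (by simp), hT⟩)
      | cons b F =>
        rcases ih b hF.tail (fun z hz => hO z (List.mem_cons_of_mem _ hz)) with h1 | h1
        · exact Or.inl h1
        · by_cases hT : a ∈ TR Rs
          · exact Or.inl ⟨a, hT, Or.inr ⟨b, hF.snd, h1⟩⟩
          · right
            have haO : a ∈ OM Ps Rs := ⟨hO a (by simp), hT⟩
            have h2 : Rch G (OM Ps Rs) a b := (Rch.refl haO).step hF.snd h1.left
            exact h2.trans h1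
  rcases key F r hF hO with ⟨t, ht, h1 | h1⟩ | h1
  · left; rw [← h1]; exact ht
  · exact Or.inr ⟨t, ht, h1⟩
  · obtain ⟨t, ht, h2⟩ := ph6_hd C hr h1.left.2
    exact Or.inr ⟨t, Or.inl ht, att_trans h2 h1⟩

theorem mx_step {d d' : V} (h : Mx G Ps Rs d) (h' : Rch G (OM Ps Rs) d d') : Mx G Ps Rs d' :=
  ⟨⟨h.1.choose, h.1.choose_spec.1, att_trans h.1.choose_spec.2 h'⟩,
    ⟨h.2.choose, h.2.choose_spec.1, att_trans h.2.choose_spec.2 h'⟩⟩

theorem mx_wr (C : CI G L Ps Rs) {d : V} (h : Mx G Ps Rs d) : d ∈ WR G Ps Rs := by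
  obtain ⟨⟨t, ht, h1⟩, _⟩ := h
  exact att_wr C (Or.inl ht) h1

end Pool.Agent.LW
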