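import Pool.Agent.LW.Calc

set_option autoImplicit false

/-!
# Reroutings: the rules PP and MM, off-ing, shortcuts
-/

namespace Pool.Agent.LW

open SimpleGraph Classical

universe w

variable {V : Type w} {G H : SimpleGraph V} {L : Finset (Sym2 V)} {k : ℕ} {x y : V}

/-- (++): `p < v` on `P_i`, `x ~ p`, `q < w` on `P_m`, `y ~ q`: no connection between `v`, `w` -/
theorem rule_pp (S : Bs G L k) {A A' A'' D D' D'' K : List V} {p v q w : V}
    {Ms Ns : List (List V)}
    (C : Cfg G L x y ((A ++ p :: (A' ++ v :: A'')) :: (Ms ++ (D ++ q :: (D' ++ w :: D'')) :: Ns)))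
    (hp : G.Adj x p) (hq : G.Adj y q) (hK : Ch G v w (v :: (K ++ [w]))) (hn : K.Nodup)
    (hO : ∀ u ∈ K, u ≠ x ∧ u ≠ y ∧ u ∉
      ((A ++ p :: (A' ++ v :: A'')) :: (Ms ++ (D ++ q :: (D' ++ w :: D'')) :: Ns)).flatten) :
    False := by
  have hxy := C.xy_ne S.sub
  have hb := C.baseK hxy hn hO
  obtain ⟨li, ri, h1, h2⟩ := C.lk
  obtain ⟨lm, rm, h3, h4, h5⟩ := h2.split
  have hyx : s(y, x) ∈ L := C.swap.xy
  have e1 : Ch G x li (x :: (A ++ [p]).reverse) := h1.left.reverse.cons hp
  have e2 : Ch G rm ri (D''.reverse ++ w :: (K.reverse ++ v :: A'')) := by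
    have f1 : Ch G rm w (D''.reverse ++ [w]) := by
      have f : Ch G lm rm ((D ++ q :: D') ++ w :: D'') := by simpa using h4
      simpa using f.right.reverse
    have f2 : Ch G w v (w :: (K.reverse ++ [v])) := by simpa using hK.reverse
    have f3 : Ch G v ri (v :: A'') := by
      have f : Ch G li ri ((A ++ p :: A') ++ v :: A'') := by simpa using h1
      exact f.right
    exact f1.thru f2 f3
  have e3 : Ch G lm y ((D ++ [q]) ++ [y]) := h4.left.concat hq.symm
  refine S.no _ (Full.mk' e1 (h5.rev.append e2 (h3.append e3 (Lk.nil hyx))) ?_ ?_ ?_)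
  · exact nodup_of_count hb (by
      intro v; simp only [List.flatten_cons, List.flatten_append, List.flatten_nil, flatten_rv,
      List.count_append, List.count_cons, List.count_reverse, List.count_nil, List.reverse_cons,
      List.reverse_append, List.append_nil, List.nil_append]; omega)
  · have htwo := C.two
    simp only [two_cons, two_append, two_rv, two_nil, List.length_append, List.length_cons,
      List.length_nil, List.length_reverse, and_true, true_and] at htwo ⊢
    repeat' apply And.intro
    all_goals first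
      | omega
      | exact htwo.1 | exact htwo.2 | exact htwo.1.1 | exact htwo.1.2
      | exact htwo.2.1 | exact htwo.2.2 | exact htwo.2.1.1 | exact htwo.2.1.2
      | exact htwo.2.2.1 | exact htwo.2.2.2 | exact htwo.2.2.2.1 | exact htwo.2.2.2.2
      | exact htwo.2.2.2.2.1 | exact htwo.2.2.2.2.2 | exact htwo.2.2.2.2.2.1
      | exact htwo.2.2.2.2.2.2 | tauto
  · have hlen := C.card
    simp only [List.length_append, List.length_cons, List.length_nil, length_rv] at hlen ⊢
    omega

theorem mem_rot {P : List V} {Ms : List (List V)} (h : (P :: Ms).flatten.Nodup)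
    (hP : P ≠ []) : P ∉ Ms := by
  intro hP'
  obtain ⟨v, hv⟩ := List.exists_mem_of_ne_nil P hP
  rw [List.flatten_cons, List.nodup_append'] at h
  exact h.2.2 hv (List.mem_flatten.2 ⟨P, hP', hv⟩)

/-- two different segments of a configuration, the first one rotated to the front -/
theorem Cfg.rot_two {Ps : List (List V)} {P Q : List V} (h : Cfg G L x y Ps)
    (hP : P ∈ Ps) (hQ : Q ∈ Ps) (hPQ : P ≠ Q) :
    ∃ Ms Ns, Cfg G L x y (P :: (Ms ++ Q :: Ns)) ∧ (P :: (Ms ++ Q :: Ns)).Perm Ps := by
  obtain ⟨Ms, h1, h2⟩ := h.rot_to hP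
  have h3 := h2.mem_iff.2 hQ
  rcases List.mem_cons.1 h3 with h3 | h3
  · exact absurd h3.symm hPQ
  · obtain ⟨As, Ds, h4⟩ := List.append_of_mem h3
    subst h4
    exact ⟨As, Ds, h1, h2⟩

theorem Perm.flatten_mem {Ps Qs : List (List V)} (h : Ps.Perm Qs) (v : V) :
    v ∈ Ps.flatten ↔ v ∈ Qs.flatten := h.flatten.mem_iff

/-- (++) in terms of the order on the segments -/
theorem rpp (S : Bs G L k) {Ps : List (List V)} (C : Cfg G L x y Ps) {P Q : List V} {p v q w : V}
    {O : Set V} (hP : P ∈ Ps) (hQ : Q ∈ Ps) (hPQ : P ≠ Q) (h1 : Bf P p v) (hp : G.Adj x p)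
    (h2 : Bf Q q w) (hq : G.Adj y q) (hc : Con G O v w)
    (hO : ∀ u ∈ O, u ≠ x ∧ u ≠ y ∧ u ∉ Ps.flatten) : False := by
  obtain ⟨Ms, Ns, h3, h4⟩ := C.rot_two hP hQ hPQ
  obtain ⟨A, A', A'', hP'⟩ := h1.split
  obtain ⟨D, D', D'', hQ'⟩ := h2.split
  obtain ⟨K, hK1, hK2, hK3⟩ := hc.list
  subst hP'; subst hQ'
  refine rule_pp S h3 hp hq hK1 hK2 ?_
  intro u hu
  have := hO u (hK3 u hu)
  rw [h4.flatten.mem_iff]
  exact this

/-- MM in terms of the order on the segments -/
theorem rmm (S : Bs G L k) {Ps : List (List V)} (C : Cfg G L x y Ps) {P Q : List V} {p v q w : V}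
    {O : Set V} (hP : P ∈ Ps) (hQ : Q ∈ Ps) (hPQ : P ≠ Q) (h1 : Bf P v p) (hp : G.Adj x p)
    (h2 : Bf Q w q) (hq : G.Adj y q) (hc : Con G O v w)
    (hO : ∀ u ∈ O, u ≠ x ∧ u ≠ y ∧ u ∉ Ps.flatten) : False := by
  refine rpp S C.rev (P := P.reverse) (Q := Q.reverse) (O := O) ?_ ?_ ?_ h1.reverse hp
    h2.reverse hq hc ?_
  · rw [mem_rv, List.reverse_reverse]; exact hP
  · rw [mem_rv, List.reverse_reverse]; exact hQ
  · intro h; exact hPQ (List.reverse_injective h)
  · intro u hu
    rw [flatten_rv, List.mem_reverse]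
    exact hO u hu

/-- off-ing the edge of `L` between two consecutive segments -/
theorem Cfg.off {A E A' D : List V} {c a r l : V} {Ms : List (List V)}
    (C : Cfg G L x y ((A ++ c :: E) :: (A' ++ a :: D) :: Ms)) (hL : ∀ e ∈ L, e ∈ G.edgeSet)
    (hc : G.Adj c y) (ha : G.Adj x a) (hr : E.getLast? = some r) (hl : A'.head? = some l) :
    Cfg G L r l ((A ++ [c, y]) :: (x :: a :: D) :: Ms) := by
  have hb := C.base (C.xy_ne hL)
  obtain ⟨lj, rj, h1, c', d', h2, h3, h4⟩ := C.lk
  have hr' : rj = r := by
    have := h1.right.lt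
    cases E with
    | nil => simp at hr
    | cons e E => rw [List.getLast?_cons_cons] at this; exact Option.some.inj (this.symm.trans hr)
  have hl' : c' = l := by
    have := h3.hd
    cases A' with
    | nil => simp at hl
    | cons e E =>
      simp only [List.cons_append, List.head?_cons, Option.some.injEq] at this hl
      exact this.symm.trans hl
  subst hr' hl'
  have hrE := List.mem_of_getLast? hr
  have hlA := List.mem_of_head? hl
  obtain ⟨E1, E2, hE⟩ := List.append_of_mem hrE
  obtain ⟨A1, A2, hA⟩ := List.append_of_mem hlA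
  have e1 : Ch G lj y ((A ++ [c]) ++ [y]) := h1.left.concat hc
  have e2 : Ch G x d' (x :: a :: D) := h3.right.cons ha
  have e3 : Ch G lj y (A ++ [c, y]) := by simpa using e1
  have h5 := C.two
  refine Cfg.mk' e3 (Lk.cons C.swap.xy e2 h4) h2 ?_ ?_ ?_ ?_
  · rw [hE, hA] at hb
    exact nodup_of_count hb (by
      intro v; simp only [List.flatten_cons, List.flatten_append, List.flatten_nil, flatten_rv,
      List.count_append, List.count_cons, List.count_reverse, List.count_nil, List.reverse_cons,
      List.reverse_append, List.append_nil, List.nil_append]; omega)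
  · have htwo := C.two
    simp only [two_cons, two_append, two_rv, two_nil, List.length_append, List.length_cons,
      List.length_nil, List.length_reverse, and_true, true_and] at htwo ⊢
    repeat' apply And.intro
    all_goals first
      | omega
      | exact htwo.1 | exact htwo.2 | exact htwo.1.1 | exact htwo.1.2
      | exact htwo.2.1 | exact htwo.2.2 | exact htwo.2.1.1 | exact htwo.2.1.2
      | exact htwo.2.2.1 | exact htwo.2.2.2 | exact htwo.2.2.2.1 | exact htwo.2.2.2.2
      | exact htwo.2.2.2.2.1 | exact htwo.2.2.2.2.2 | exact htwo.2.2.2.2.2.1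
      | exact htwo.2.2.2.2.2.2 | tauto
  · have hlen := C.card
    simp only [List.length_append, List.length_cons, List.length_nil, length_rv] at hlen ⊢
    omega
  · refine len_of_two ?_ (by simp)
    have htwo := C.two
    simp only [two_cons, two_append, two_rv, two_nil, List.length_append, List.length_cons,
      List.length_nil, List.length_reverse, and_true, true_and] at htwo ⊢
    repeat' apply And.intro
    all_goals first
      | omega
      | exact htwo.1 | exact htwo.2 | exact htwo.1.1 | exact htwo.1.2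
      | exact htwo.2.1 | exact htwo.2.2 | exact htwo.2.1.1 | exact htwo.2.1.2
      | exact htwo.2.2.1 | exact htwo.2.2.2 | exact htwo.2.2.2.1 | exact htwo.2.2.2.2
      | exact htwo.2.2.2.2.1 | exact htwo.2.2.2.2.2 | exact htwo.2.2.2.2.2.1
      | exact htwo.2.2.2.2.2.2 | tauto

/-- replacing a part of a segment by a connection -/
theorem Cfg.cut {A M D K : List V} {z w : V} {Ms : List (List V)}
    (C : Cfg G L x y ((A ++ z :: (M ++ w :: D)) :: Ms)) (hL : ∀ e ∈ L, e ∈ G.edgeSet)
    (hK : Ch G z w (z :: (K ++ [w]))) (hn : K.Nodup)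
    (hO : ∀ u ∈ K, u ≠ x ∧ u ≠ y ∧ u ∉ ((A ++ z :: (M ++ w :: D)) :: Ms).flatten)
    (hk : Ms ≠ []) :
    Cfg G L x y ((A ++ z :: (K ++ w :: D)) :: Ms) := by
  have hb := C.baseK (C.xy_ne hL) hn hO
  obtain ⟨lj, rj, h1, h2⟩ := C.lk
  have f1 : Ch G lj rj ((A ++ z :: M) ++ w :: D) := by simpa using h1
  refine Cfg.mk' (h1.left.thru hK f1.right) h2 C.xy ?_ ?_ ?_ ?_
  · exact nodup_of_count hb (by
      intro v; simp only [List.flatten_cons, List.flatten_append, List.flatten_nil, flatten_rv,
      List.count_append, List.count_cons, List.count_reverse, List.count_nil, List.reverse_cons,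
      List.reverse_append, List.append_nil, List.nil_append]; omega)
  · have htwo := C.two
    simp only [two_cons, two_append, two_rv, two_nil, List.length_append, List.length_cons,
      List.length_nil, List.length_reverse, and_true, true_and] at htwo ⊢
    repeat' apply And.intro
    all_goals first
      | omega
      | exact htwo.1 | exact htwo.2 | exact htwo.1.1 | exact htwo.1.2
      | exact htwo.2.1 | exact htwo.2.2 | exact htwo.2.1.1 | exact htwo.2.1.2
      | exact htwo.2.2.1 | exact htwo.2.2.2 | exact htwo.2.2.2.1 | exact htwo.2.2.2.2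
      | exact htwo.2.2.2.2.1 | exact htwo.2.2.2.2.2 | exact htwo.2.2.2.2.2.1
      | exact htwo.2.2.2.2.2.2 | tauto
  · have hlen := C.card
    simp only [List.length_append, List.length_cons, List.length_nil, length_rv] at hlen ⊢
    omega
  · refine len_of_two ?_ ?_
    · have htwo := C.two
      simp only [two_cons, two_append, two_rv, two_nil, List.length_append, List.length_cons,
        List.length_nil, List.length_reverse, and_true, true_and] at htwo ⊢
      repeat' apply And.intro
      all_goals first
        | omega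
        | exact htwo.1 | exact htwo.2 | exact htwo.1.1 | exact htwo.1.2
        | exact htwo.2.1 | exact htwo.2.2 | exact htwo.2.1.1 | exact htwo.2.1.2
        | exact htwo.2.2.1 | exact htwo.2.2.2 | exact htwo.2.2.2.1 | exact htwo.2.2.2.2
        | exact htwo.2.2.2.2.1 | exact htwo.2.2.2.2.2 | exact htwo.2.2.2.2.2.1
        | exact htwo.2.2.2.2.2.2 | tauto
    · cases Ms with
      | nil => exact absurd rfl hk
      | cons M Ms => simp

end Pool.Agent.LW
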