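import Pool.Agent.LW.R9

set_option autoImplicit false

/-!
# L10: `s = 1` and `s' ≥ 2`, conclusion
-/

namespace Pool.Agent.LW

open SimpleGraph Classical

universe w

variable {V : Type w} {G H : SimpleGraph V} {L : Finset (Sym2 V)} {k : ℕ} {x y : V}

theorem exists_concat_of_getLast? {F : List V} {r : V} (h : F.getLast? = some r) :
    ∃ F', F = F' ++ [r] := by
  refine ⟨F.dropLast, ?_⟩
  rw [List.dropLast_append_getLast? _ (by rw [h]; rfl)]

/-- adjacent vertices outside the cycle are both gates -/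
theorem gate_of_adj {Z B O : Set V} (T : Gt G x y Z B O) (hxy : x ≠ y) {c : V} (hc : c ∉ Z)
    (hx : G.Adj x c) (hy : G.Adj y c) : c ∈ B := by
  by_contra hB
  have hO : c ∈ O := (T.OO c).2 ⟨hc, hB⟩
  have h1 : c ∈ Att G O x := ⟨c, hx, [c], Ch.single c, by intro z hz; simp at hz; rw [hz]; exact hO⟩
  have h2 : c ∈ Att G O y := ⟨c, hy, [c], Ch.single c, by intro z hz; simp at hz; rw [hz]; exact hO⟩
  exact T.att x T.xB y T.yB hxy c h1 h2

theorem Bt.r_y {A E A' D : List V} {c a r l : V} {Ms : List (List V)}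
    (h : Bt G L x y A E A' D c a r l Ms) : ¬ G.Adj r y ∧ ¬ G.Adj r x := by
  have hrE := List.mem_of_getLast? h.bd.hr
  have hn : (A ++ c :: E).Nodup := h.bd.C.seg_nodup (by simp)
  have hrc : r ≠ c := by
    intro e
    have := (List.nodup_append'.1 hn).2.1
    rw [List.nodup_cons] at this
    exact this.1 (by rw [← e]; exact hrE)
  constructor
  · intro e
    exact hrc (h.sg.uy r (by simp [hrE]) (Or.inl e.symm))
  · intro e
    exact hrc (h.sg.ux r (by simp [hrE]) (Or.inl e.symm))

/-- the neighbours of `r` on `P'_j` -/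
theorem Bt.nbsL {A E A' D : List V} {c a r l : V} {Ms : List (List V)}
    (X : Ctx G L k) (h : Bt G L x y A E A' D c a r l Ms)
    (hT : Ty G r l (Off x y A D c a Ms) (A ++ [c, y])) : ∃ z ∈ A, G.Adj r z := by
  have C' := h.bd.off X.S.sub
  have hn : (A ++ c :: [y]).Nodup := C'.seg_nodup (by unfold Off; simp)
  obtain ⟨z, z', h1, h2, h3⟩ := hT.nbs
  have hz' : z' ≠ y := by intro e; rw [e] at h3; exact h.r_y.1 h3
  refine ⟨z, ?_, h2⟩
  have hz : z ∈ A ++ [c, y] := h1.memL
  simp only [List.mem_append, List.mem_cons, List.not_mem_nil, or_false] at hz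
  rcases hz with e | e | e
  · exact e
  · subst e
    have := Bf.mem_right h1 hn
    simp at this
    exact absurd this hz'
  · subst e
    have h4 : Bf ((A ++ [c]) ++ z :: []) z z' := by simpa using h1
    have := Bf.mem_right h4 (by simpa using hn)
    simp at this

/-- L10: `s ≤ 1` -/
theorem Bt.s1 (X : Ctx G L k) {A E A' D : List V} {c a r l : V} {Ms : List (List V)}
    (h : Bt G L x y A E A' D c a r l Ms)
    (hT : Ty G r l (Off x y A D c a Ms) (A ++ [c, y])) :
    nT G x y ((A ++ c :: E) :: (A' ++ a :: D) :: Ms) ≤ 1 := by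
  have hL := X.S.sub
  obtain ⟨z, hz, hrz⟩ := h.nbsL X hT
  obtain ⟨A3, A4, hA⟩ := List.append_of_mem hz
  obtain ⟨E', hE⟩ := exists_concat_of_getLast? h.bd.hr
  have hxy := h.bd.C.xy_ne hL
  have C := h.bd.C
  have hb := C.base hxy
  have e0 : A ++ c :: E = A3 ++ z :: ((A4 ++ c :: E') ++ r :: []) := by
    rw [hA, hE]; simp
  have C3 : Cfg G L x y ((A3 ++ z :: ([] ++ r :: [])) :: (A' ++ a :: D) :: Ms) := by
    rw [e0] at C
    refine C.cut hL (Ch.edge hrz.symm) (by simp) (by simp) (by simp)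
  have hc : c ∉ VS ((A3 ++ z :: ([] ++ r :: [])) :: (A' ++ a :: D) :: Ms) := by
    show ¬ (c ∈ ((A3 ++ z :: ([] ++ r :: [])) :: (A' ++ a :: D) :: Ms).flatten)
    have h8 : (c :: ((A3 ++ z :: ([] ++ r :: [])) :: (A' ++ a :: D) :: Ms).flatten).Nodup := by
      rw [e0] at hb
      exact nodup_of_count hb (by
      intro v; simp only [List.flatten_cons, List.flatten_append, List.flatten_nil, flatten_rv,
      List.count_append, List.count_cons, List.count_reverse, List.count_nil, List.reverse_cons,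
      List.reverse_append, List.append_nil, List.nil_append]; omega)
    exact (List.nodup_cons.1 h8).1
  obtain ⟨B3, O3, T3⟩ := X.gt _ _ _ C3
  have T3' := X.tight _ _ _ _ _ C3 T3
  have hcB := gate_of_adj T3 hxy hc h.bd.cx h.bd.cy
  have h1 := T3'.three c hcB h.bd.cx.ne' h.bd.cy.ne' x T3.xB
  have h2 : ∀ P ∈ (A' ++ a :: D) :: Ms, Ty G x y ((A ++ c :: E) :: (A' ++ a :: D) :: Ms) P →
      Excl G B3 O3 P x := by
    intro P hP hPX
    have hPn : P.Nodup := C.seg_nodup (List.mem_cons_of_mem _ hP)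
    obtain ⟨p, p', i1, i2, i3⟩ := hPX.nbs
    exact T3'.excl (List.mem_cons_of_mem _ hP) T3.xB i1.memL i1.memR (i1.ne hPn)
      (Or.inl i2) (Or.inl i3)
  have k1 := filter_mono h2
  have k2 := filter_cons_le (fun P => Excl G B3 O3 P x) (A3 ++ z :: ([] ++ r :: []))
    ((A' ++ a :: D) :: Ms)
  have k7 : ¬ Ty G x y ((A ++ c :: E) :: (A' ++ a :: D) :: Ms) (A ++ c :: E) :=
    fun h' => h'.not_Sg h.sg
  unfold nT
  rw [List.filter_cons]
  simp only [k7, decide_false, Bool.false_eq_true, if_false]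
  omega

/-- a segment of `Ms` with two neighbours of `y1` has a type -/
theorem Bt.typed (X : Ctx G L k) {A E A' D : List V} {c a r l x1 y1 : V} {Ms : List (List V)}
    (h : Bt G L x y A E A' D c a r l Ms)
    (hxy : (x1 = x ∧ y1 = y) ∨ (x1 = y ∧ y1 = x)) (ha : G.Adj x1 a) {P : List V} (hP : P ∈ Ms)
    {b b' : V} (hbb : Bf P b b') (hb : G.Adj y1 b) (hb' : G.Adj y1 b') :
    Ty G r l (Off x y A D c a Ms) P ∨ Ty G l r (Off x y A D c a Ms) P := by
  have h3 := h.nine X
  have hPn : P.Nodup := h3.C.seg_nodup (by unfold Off; simp [hP])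
  rcases h3.types X P (by unfold Off; simp [hP]) with i | i | ⟨w, i⟩
  · exact Or.inl i
  · exact Or.inr i
  · exfalso
    have e1 : y1 = y ∨ y1 = x := by
      rcases hxy with ⟨-, e⟩ | ⟨-, e⟩
      · exact Or.inl e
      · exact Or.inr e
    have j1 : ¬ Bf P b w := fun e => h.bd.Rr X.S hP i.ax e e1 hb
    have j2 : ¬ Bf P w b' := fun e => h.bd.Lr X.S hP i.ay e hxy ha hb'
    by_cases e2 : b = w
    · rw [e2] at hbb; exact j2 hbb
    · rcases Bf.total hbb.memL i.mem e2 with e3 | e3
      · exact j1 e3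
      · exact j2 (e3.trans hbb hPn)

theorem filter_or {α : Type w} {p q s : α → Prop} {l : List α} (h : ∀ a ∈ l, s a → p a ∨ q a) :
    (l.filter (fun b => s b)).length ≤
      (l.filter (fun b => p b)).length + (l.filter (fun b => q b)).length := by
  induction l with
  | nil => simp
  | cons a l ih =>
    have ih' := ih (fun b hb => h b (List.mem_cons_of_mem _ hb))
    have h' := h a (by simp)
    by_cases h1 : p a <;> by_cases h2 : q a <;> by_cases h3 : s a <;>
      simp only [List.filter_cons, h1, h2, h3, or_self, or_true, true_or, decide_true,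
        decide_false, if_true, Bool.false_eq_true, if_false, List.length_cons,
        imp_false, not_true_eq_false] at h' ⊢ <;> omega

theorem filter_two {α : Type w} {p : α → Prop} {l : List α} {a b : α} (ha : a ∈ l) (hb : b ∈ l)
    (hab : a ≠ b) (hpa : p a) (hpb : p b) : 2 ≤ (l.filter (fun b => p b)).length := by
  have h1 : a ∈ l.filter (fun b => p b) := by simp [ha, hpa]
  have h2 : b ∈ l.filter (fun b => p b) := by simp [hb, hpb]
  match h : l.filter (fun b => p b), h1, h2 with
  | [], h1, _ => simp at h1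
  | [c], h1, h2 =>
    simp at h1 h2
    exact absurd (h1.trans h2.symm) hab
  | c :: d :: t, _, _ => simp

theorem sum_one {α : Type w} {p q : α → Prop} {l : List α} {a : α} (ha : a ∈ l)
    (hpa : p a ∨ q a) :
    1 ≤ (l.filter (fun b => p b)).length + (l.filter (fun b => q b)).length := by
  rcases hpa with h | h
  · have : 0 < (l.filter (fun b => p b)).length :=
      List.length_pos_of_mem (a := a) (by simp [ha, h])
    omega
  · have : 0 < (l.filter (fun b => q b)).length :=
      List.length_pos_of_mem (a := a) (by simp [ha, h])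
    omega

theorem sum_two {α : Type w} {p q : α → Prop} {l : List α} {a b : α} (ha : a ∈ l) (hb : b ∈ l)
    (hab : a ≠ b) (hpa : p a ∨ q a) (hpb : p b ∨ q b) :
    2 ≤ (l.filter (fun b => p b)).length + (l.filter (fun b => q b)).length :=
  (filter_two (p := fun b => p b ∨ q b) ha hb hab hpa hpb).trans (filter_or (fun _ _ h => h))

/-- L10: `s' ≥ 2` -/
theorem Bt.s2 (X : Ctx G L k) {A E A' D : List V} {c a r l : V} {Ms : List (List V)}
    (h : Bt G L x y A E A' D c a r l Ms)
    (hT : Ty G r l (Off x y A D c a Ms) (A ++ [c, y])) :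
    2 ≤ nT G r l (Off x y A D c a Ms) := by
  have h3 := h.nine X
  obtain ⟨h4, h5, h6⟩ := h.att X
  obtain ⟨P, hP, hPY⟩ := h.c2.exY X
  have k7 : ¬ Ty G y x ((A ++ c :: E) :: (A' ++ a :: D) :: Ms) (A ++ c :: E) :=
    fun h' => h'.not_Sg h.sg.swap
  have k8 : ¬ Ty G x y ((A ++ c :: E) :: (A' ++ a :: D) :: Ms) (A ++ c :: E) :=
    fun h' => h'.not_Sg h.sg
  have k9 : ¬ Ty G y x ((A ++ c :: E) :: (A' ++ a :: D) :: Ms) (A' ++ a :: D) := by
    intro h'
    rcases h.or with ⟨e, -⟩ | e
    · exact h'.not_Ty e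
    · exact h'.not_Sg e.swap
  have hPM : P ∈ Ms := by
    simp only [List.mem_cons] at hP
    rcases hP with e | e | e
    · rw [e] at hPY; exact (k7 hPY).elim
    · rw [e] at hPY; exact (k9 hPY).elim
    · exact e
  obtain ⟨b, b', i1, i2, i3⟩ := hPY.nbs
  have hPt := h.typed X (Or.inl ⟨rfl, rfl⟩) h.bd.xa hPM i1 i2 i3
  have k1 := h3.count X
  unfold nT
  have k10 : ¬ Ty G l r (Off x y A D c a Ms) (A ++ [c, y]) := fun h' => h'.not_Ty hT
  have k11 : Off x y A D c a Ms = (A ++ [c, y]) :: (x :: a :: D) :: Ms := rfl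
  have k12 : ∀ p : List V → Prop, ((Off x y A D c a Ms).filter (fun P => p P)).length =
      (if p (A ++ [c, y]) then 1 else 0) + ((if p (x :: a :: D) then 1 else 0) +
        (Ms.filter (fun P => p P)).length) := by
    intro p
    rw [k11]
    by_cases i1 : p (A ++ [c, y]) <;> by_cases i2 : p (x :: a :: D) <;> simp [i1, i2] <;> omega
  rw [k12, k12] at k1
  rw [k12]
  rw [if_pos hT, if_neg k10] at k1
  rw [if_pos hT]
  rcases h.or with ⟨e, e'⟩ | e
  · -- case (A)
    have e1 : Ty G l r (Off x y A D c a Ms) (x :: a :: D) := by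
      rcases h.segR X with e | e
      · exact e
      · exact absurd (e.uy x (by simp) (h6 e')) h.bd.xa.ne
    have e2 : ¬ Ty G r l (Off x y A D c a Ms) (x :: a :: D) := fun h' => h'.not_Ty e1
    rw [if_neg e2, if_pos e1] at k1
    rw [if_neg e2]
    have e3 := sum_one (p := fun P => Ty G r l (Off x y A D c a Ms) P)
      (q := fun P => Ty G l r (Off x y A D c a Ms) P) hPM hPt
    omega
  · -- case (B)
    obtain ⟨Q, hQ, hQX⟩ := h.c2.exX X
    have hQM : Q ∈ Ms := by
      simp only [List.mem_cons] at hQ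
      rcases hQ with e' | e' | e'
      · rw [e'] at hQX; exact (k8 hQX).elim
      · rw [e'] at hQX; exact (hQX.not_Sg e).elim
      · exact e'
    obtain ⟨q, q', j1, j2, j3⟩ := hQX.nbs
    have hQt := h.typed X (Or.inr ⟨rfl, rfl⟩) e.ay hQM j1 j2 j3
    have hPQ : P ≠ Q := by intro e'; rw [e'] at hPY; exact hPY.not_Ty hQX
    have e3 := sum_two (p := fun P => Ty G r l (Off x y A D c a Ms) P)
      (q := fun P => Ty G l r (Off x y A D c a Ms) P) hPM hQM hPQ hPt hQt
    split_ifs at k1 ⊢ <;> omega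

end Pool.Agent.LW
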