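import Pool.Agent.LW.R10

set_option autoImplicit false

/-!
# L10 in final form; existence of an off-able boundary (L8)
-/

namespace Pool.Agent.LW

open SimpleGraph Classical

universe w

variable {V : Type w} {G H : SimpleGraph V} {L : Finset (Sym2 V)} {k : ℕ} {x y : V}

/-! ## reversal of a configuration at its first two segments -/

theorem rev2_eq {P Q : List V} {Ms : List (List V)} :
    rv (P :: Q :: Ms) = rv Ms ++ [Q.reverse, P.reverse] := by simp

theorem rev2_flatten {P Q : List V} {Ms : List (List V)} (v : V) :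
    v ∈ (P :: Q :: Ms).flatten ↔ v ∈ (Q.reverse :: P.reverse :: rv Ms).flatten := by
  rw [← mem_flatten_rv, rev2_eq]
  have := mem_flatten_rot (A := rv Ms) (D := [Q.reverse, P.reverse]) v
  rw [this]
  simp

theorem C2.rev2 {P Q : List V} {Ms : List (List V)} (h : C2 G L x y (P :: Q :: Ms)) :
    C2 G L x y (Q.reverse :: P.reverse :: rv Ms) := by
  have := h.rev
  rw [rev2_eq] at this
  have := this.rot
  simpa using this

theorem nT_rev2 {P Q : List V} {Ms : List (List V)} :
    nT G x y (Q.reverse :: P.reverse :: rv Ms) = nT G x y (P :: Q :: Ms) := by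
  rw [← nT_rv (Ps := P :: Q :: Ms), rev2_eq]
  exact nT_rot (A := rv Ms) (D := [Q.reverse, P.reverse])

theorem Ty.rev2 {P Q R : List V} {Ms : List (List V)} (h : Ty G x y (P :: Q :: Ms) R) :
    Ty G x y (Q.reverse :: P.reverse :: rv Ms) R.reverse := h.rRev.rCongr rev2_flatten

theorem Sg.rev2 {P Q R : List V} {Ms : List (List V)} {c : V} (h : Sg G x y (P :: Q :: Ms) R c) :
    Sg G x y (Q.reverse :: P.reverse :: rv Ms) R.reverse c := h.rev.congr rev2_flatten

theorem Off_rev {A D : List V} {c a : V} {Ms : List (List V)} :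
    Off y x D.reverse A.reverse a c (rv Ms) =
      (x :: a :: D).reverse :: (A ++ [c, y]).reverse :: rv Ms := by
  unfold Off; simp

/-- the mirror image of a boundary of kind (B) -/
theorem Bt.rev {A E A' D : List V} {c a r l : V} {Ms : List (List V)}
    (h : Bt G L x y A E A' D c a r l Ms)
    (hB : Sg G x y ((A ++ c :: E) :: (A' ++ a :: D) :: Ms) (A' ++ a :: D) a) :
    Bt G L y x D.reverse A'.reverse E.reverse A.reverse a c l r (rv Ms) := by
  have e1 : D.reverse ++ a :: A'.reverse = (A' ++ a :: D).reverse := by simp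
  have e2 : E.reverse ++ c :: A.reverse = (A ++ c :: E).reverse := by simp
  have h1 := h.c2.rev2.swap
  refine ⟨⟨?_, hB.ay, hB.ax, h.bd.cy, ?_, ?_⟩, ?_, ?_, Or.inr ?_⟩
  · rw [e1, e2]; exact h1.C
  · rw [List.getLast?_reverse]; exact h.bd.hl
  · rw [List.head?_reverse]; exact h.bd.hr
  · rw [e1, e2]; exact h1
  · rw [e1, e2]; exact hB.rev2.swap
  · rw [e1, e2]; exact h.sg.rev2.swap

/-- L10 -/
theorem Bt.ten (X : Ctx G L k) {A E A' D : List V} {c a r l : V} {Ms : List (List V)}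
    (h : Bt G L x y A E A' D c a r l Ms) :
    nT G x y ((A ++ c :: E) :: (A' ++ a :: D) :: Ms) = 1 ∧
      2 ≤ nT G r l (Off x y A D c a Ms) := by
  have h1 : 1 ≤ nT G x y ((A ++ c :: E) :: (A' ++ a :: D) :: Ms) := by
    obtain ⟨P, hP, hPX⟩ := h.c2.exX X
    unfold nT
    exact List.length_pos_of_mem (a := P) (by simp only [List.mem_filter]; exact ⟨hP, by simpa using hPX⟩)
  rcases h.segL X with h2 | h2
  · have h3 := h.s1 X h2
    exact ⟨by omega, h.s2 X h2⟩
  · rcases h.or with ⟨h3, h4⟩ | h3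
    · exact absurd h2 (h.tenA X h3 h4)
    · rcases h.segR X with h4 | h4
      · have h5 := h.rev h3
        have h6 : Ty G l r (Off y x D.reverse A.reverse a c (rv Ms)) (D.reverse ++ [a, x]) := by
          rw [Off_rev]
          have := h4.rev2 (P := A ++ [c, y]) (Q := x :: a :: D)
          simpa using this
        have h7 := h5.s1 X h6
        have h8 := h5.s2 X h6
        rw [Off_rev, nT_rev2] at h8
        have e1 : D.reverse ++ a :: A'.reverse = (A' ++ a :: D).reverse := by simp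
        have e2 : E.reverse ++ c :: A.reverse = (A ++ c :: E).reverse := by simp
        rw [e1, e2, nT_rev2] at h7
        have h9 := h.c2.nT_eq X
        have h10 := (h.nine X).nT_eq X
        refine ⟨by omega, ?_⟩
        rw [h10]
        exact h8
      · exact (h.tenB X h3 h2 h4).elim

/-! ## existence of a boundary -/

theorem adj_change {α : Type w} {p : α → Prop} {a b : α} {l : List α} (ha : p a)
    (hb : b ∈ l) (hpb : ¬ p b) :
    ∃ T1 P Q T2, a :: l = T1 ++ P :: Q :: T2 ∧ p P ∧ ¬ p Q := by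
  induction l generalizing a with
  | nil => simp at hb
  | cons c l ih =>
    by_cases hc : p c
    · have hb' : b ∈ l := by
        rcases List.mem_cons.1 hb with h | h
        · rw [h] at hpb; exact absurd hc hpb
        · exact h
      obtain ⟨T1, P, Q, T2, h1, h2, h3⟩ := ih hc hb'
      exact ⟨a :: T1, P, Q, T2, by rw [h1]; rfl, h2, h3⟩
    · exact ⟨[], a, c, l, rfl, ha, hc⟩

/-- an off-able boundary from two consecutive segments -/
theorem mk_bt (X : Ctx G L k) {P Q : List V} {Ms : List (List V)} {c : V}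
    (h : C2 G L x y (P :: Q :: Ms)) (hP : Sg G x y (P :: Q :: Ms) P c)
    (hc : P.getLast? ≠ some c)
    (hQ : ∀ c', Sg G x y (P :: Q :: Ms) Q c' → Q.head? ≠ some c') :
    ∃ x1 y1 A E A' D a r l, Bt G L x1 y1 A E A' D c a r l Ms ∧ P = A ++ c :: E ∧
      Q = A' ++ a :: D ∧ ((x1 = x ∧ y1 = y) ∨ (x1 = y ∧ y1 = x)) := by
  obtain ⟨A, E, hP'⟩ := List.append_of_mem hP.mem
  obtain ⟨r, hr⟩ : ∃ r, E.getLast? = some r := by
    cases E with
    | nil => rw [hP'] at hc; simp at hc
    | cons e E => exact ⟨_, List.getLast?_eq_some_getLast (by simp)⟩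
  rcases h.types X Q (by simp) with i | i | ⟨a, i⟩
  · obtain ⟨A0, a0, M, b, D, j1, j2, j3, -⟩ := i.nb
    have e : Q = (A0 ++ a0 :: M) ++ b :: D := by rw [j1]; simp
    obtain ⟨l, hl⟩ : ∃ l, (A0 ++ a0 :: M).head? = some l :=
      ⟨_, List.head?_eq_some_head (by simp)⟩
    refine ⟨x, y, A, E, A0 ++ a0 :: M, D, b, r, l, ⟨⟨?_, hP.ax, hP.ay, j3, hr, hl⟩, ?_, ?_,
      Or.inl ⟨?_, a0, by simp, j2⟩⟩, hP', e, Or.inl ⟨rfl, rfl⟩⟩
    · rw [← hP', ← e]; exact h.C
    · rw [← hP', ← e]; exact h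
    · rw [← hP', ← e]; exact hP
    · rw [← hP', ← e]; exact i
  · obtain ⟨A0, a0, M, b, D, j1, j2, j3, -⟩ := i.nb
    have e : Q = (A0 ++ a0 :: M) ++ b :: D := by rw [j1]; simp
    obtain ⟨l, hl⟩ : ∃ l, (A0 ++ a0 :: M).head? = some l :=
      ⟨_, List.head?_eq_some_head (by simp)⟩
    refine ⟨y, x, A, E, A0 ++ a0 :: M, D, b, r, l, ⟨⟨?_, hP.ay, hP.ax, j3, hr, hl⟩, ?_, ?_,
      Or.inl ⟨?_, a0, by simp, j2⟩⟩, hP', e, Or.inr ⟨rfl, rfl⟩⟩
    · rw [← hP', ← e]; exact h.C.swap
    · rw [← hP', ← e]; exact h.swap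
    · rw [← hP', ← e]; exact hP.swap
    · rw [← hP', ← e]; exact i
  · have h1 := hQ a i
    obtain ⟨A', D, hQ'⟩ := List.append_of_mem i.mem
    obtain ⟨l, hl⟩ : ∃ l, A'.head? = some l := by
      cases A' with
      | nil => rw [hQ'] at h1; simp at h1
      | cons e E => exact ⟨_, rfl⟩
    refine ⟨x, y, A, E, A', D, a, r, l, ⟨⟨?_, hP.ax, hP.ay, i.ax, hr, hl⟩, ?_, ?_,
      Or.inr ?_⟩, hP', hQ', Or.inl ⟨rfl, rfl⟩⟩
    · rw [← hP', ← hQ']; exact h.C
    · rw [← hP', ← hQ']; exact h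
    · rw [← hP', ← hQ']; exact hP
    · rw [← hP', ← hQ']; exact i

end Pool.Agent.LW
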