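import Pool.Agent.LW.R11

set_option autoImplicit false

/-!
# L8: existence of an off-able boundary; the result for two gates and a segment with a centre
-/

namespace Pool.Agent.LW

open SimpleGraph Classical

universe w

variable {V : Type w} {G H : SimpleGraph V} {L : Finset (Sym2 V)} {k : ℕ} {x y : V}

theorem isRot_cut {α : Type w} {l l' : List α} (h : l ~r l') :
    ∃ A D, l = A ++ D ∧ l' = D ++ A := by
  obtain ⟨n, hn⟩ := h
  refine ⟨l.take (n % l.length), l.drop (n % l.length), by simp, ?_⟩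
  rw [← hn, List.rotate_eq_drop_append_take_mod]

theorem C2.isRot {Ps Qs : List (List V)} (h : C2 G L x y Ps) (hr : Ps ~r Qs) :
    C2 G L x y Qs := by
  obtain ⟨A, D, h1, h2⟩ := isRot_cut hr
  rw [h1] at h
  rw [h2]
  exact h.rot

theorem nT_isRot {Ps Qs : List (List V)} (hr : Ps ~r Qs) : nT G x y Qs = nT G x y Ps := by
  obtain ⟨A, D, h1, h2⟩ := isRot_cut hr
  rw [h1, h2]
  exact nT_rot

theorem isRot_mem {Ps Qs : List (List V)} (hr : Ps ~r Qs) (v : V) :
    v ∈ Ps.flatten ↔ v ∈ Qs.flatten := hr.perm.flatten.mem_iff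

theorem Ty.isRot {Ps Qs : List (List V)} {P : List V} (h : Ty G x y Ps P) (hr : Ps ~r Qs) :
    Ty G x y Qs P := h.rCongr (isRot_mem hr)

theorem Sg.isRot {Ps Qs : List (List V)} {P : List V} {c : V} (h : Sg G x y Ps P c)
    (hr : Ps ~r Qs) : Sg G x y Qs P c := h.congr (isRot_mem hr)

/-- L8 -/
theorem C2.exists_bt (X : Ctx G L k) {Ps : List (List V)} (h : C2 G L x y Ps)
    (hS : ∃ P ∈ Ps, ∃ c, Sg G x y Ps P c) :
    ∃ x1 y1 A E A' D c a r l Ms, Bt G L x1 y1 A E A' D c a r l Ms ∧
      nT G x1 y1 ((A ++ c :: E) :: (A' ++ a :: D) :: Ms) = nT G x y Ps := by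
  -- it is enough to find two consecutive segments in some rotation
  have key : ∀ Qs, C2 G L x y Qs → nT G x y Qs = nT G x y Ps → ∀ P Q Ms c,
      Qs = P :: Q :: Ms → Sg G x y Qs P c → P.getLast? ≠ some c →
      (∀ c', Sg G x y Qs Q c' → Q.head? ≠ some c') →
      ∃ x1 y1 A E A' D c a r l Ms, Bt G L x1 y1 A E A' D c a r l Ms ∧
        nT G x1 y1 ((A ++ c :: E) :: (A' ++ a :: D) :: Ms) = nT G x y Ps := by
    intro Qs hQs hn P Q Ms c e h1 h2 h3
    subst e
    obtain ⟨x1, y1, A, E, A', D, a, r, l, h4, h5, h6, h7⟩ := mk_bt X hQs h1 h2 h3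
    refine ⟨x1, y1, A, E, A', D, c, a, r, l, Ms, h4, ?_⟩
    rw [← h5, ← h6]
    rcases h7 with ⟨e1, e2⟩ | ⟨e1, e2⟩
    · rw [e1, e2]; exact hn
    · rw [e1, e2, ← hQs.nT_eq X]; exact hn
  obtain ⟨N0, hN0, hN0X⟩ := h.exX X
  obtain ⟨P0, hP0, c0, hc0⟩ := hS
  obtain ⟨U, W, hU⟩ := List.append_of_mem hN0
  have hr0 : Ps ~r (N0 :: (W ++ U)) := by
    rw [hU]
    exact List.isRotated_append
  have hP0' : P0 ∈ W ++ U := by
    have : P0 ∈ N0 :: (W ++ U) := hr0.perm.mem_iff.1 hP0
    rcases List.mem_cons.1 this with e | e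
    · rw [e] at hc0; exact (hN0X.not_Sg hc0).elim
    · exact e
  obtain ⟨T1, N, Sp, T2, h1, h2, h3⟩ := adj_change (p := fun P => ¬ ∃ c, Sg G x y Ps P c)
    (a := N0) (b := P0) (l := W ++ U) (by rintro ⟨c, hc⟩; exact hN0X.not_Sg hc) hP0'
    (by rw [not_not]; exact ⟨c0, hc0⟩)
  rw [not_not] at h3
  have hr1 : Ps ~r (N :: Sp :: (T2 ++ T1)) := by
    rw [h1] at hr0
    exact hr0.trans (List.isRotated_append (l := T1) (l' := N :: Sp :: T2))
  have c1 := h.isRot hr1
  obtain ⟨c, hc⟩ := h3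
  by_cases hcl : Sp.head? = some c
  · -- follow the run of segments whose centre is their first vertex
    have h4 : ¬ ∃ c, Sg G x y Ps N c ∧ N.head? = some c := by
      rintro ⟨c', hc', -⟩; exact h2 ⟨c', hc'⟩
    obtain ⟨T3, P, Q, T4, h5, ⟨c', hc', h6⟩, h7⟩ :=
      adj_change (p := fun P => ∃ c, Sg G x y Ps P c ∧ P.head? = some c)
      (a := Sp) (b := N) (l := T2 ++ T1 ++ [N]) ⟨c, hc, hcl⟩ (by simp) h4
    have hr2 : Ps ~r (P :: Q :: (T4 ++ T3)) := by
      have e1 : (N :: Sp :: (T2 ++ T1)) ~r (Sp :: (T2 ++ T1 ++ [N])) := by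
        have := List.isRotated_append (l := [N]) (l' := Sp :: (T2 ++ T1))
        simpa using this
      rw [h5] at e1
      exact (hr1.trans e1).trans (List.isRotated_append (l := T3) (l' := P :: Q :: T4))
    have c2 := h.isRot hr2
    refine key _ c2 (nT_isRot hr2) P Q (T4 ++ T3) c' rfl (hc'.isRot hr2) ?_ ?_
    · intro e
      have e1 := c2.C.two P (by simp)
      have e2 := c2.C.seg_nodup (P := P) (by simp)
      match P, h6, e, e1, e2 with
      | p :: q :: P', h6, e, _, e2 =>
        simp only [List.head?_cons, Option.some.injEq] at h6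
        rw [List.getLast?_cons_cons] at e
        have := List.mem_of_getLast? e
        rw [List.nodup_cons] at e2
        rw [← h6] at this
        exact e2.1 this
    · intro c'' hc'' e
      exact h7 ⟨c'', hc''.isRot hr2.symm, e⟩
  · -- the mirror image
    have c2 := c1.rev2
    refine key _ c2 ?_ Sp.reverse N.reverse (rv (T2 ++ T1)) c rfl ?_ ?_ ?_
    · rw [nT_rev2]; exact nT_isRot hr1
    · exact (hc.isRot hr1).rev2
    · rw [List.getLast?_reverse]; exact hcl
    · intro c' hc' _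
      apply h2
      refine ⟨c', ?_⟩
      have e1 := hc'.rev
      rw [List.reverse_reverse] at e1
      exact (e1.congr (fun v => (rev2_flatten v).symm)).isRot hr1.symm

/-- the conclusion of L8 - L10 -/
theorem C2.ten (X : Ctx G L k) {Ps : List (List V)} (h : C2 G L x y Ps)
    (hS : ∃ P ∈ Ps, ∃ c, Sg G x y Ps P c) :
    nT G x y Ps = 1 ∧ ∃ r l Qs, C2 G L r l Qs ∧ 2 ≤ nT G r l Qs := by
  obtain ⟨x1, y1, A, E, A', D, c, a, r, l, Ms, h1, h2⟩ := h.exists_bt X hS
  have h3 := h1.ten X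
  rw [h2] at h3
  exact ⟨h3.1, r, l, _, h1.nine X, h3.2⟩

/-- without a segment with a centre there are `2 s` segments -/
theorem C2.len (X : Ctx G L k) {Ps : List (List V)} (h : C2 G L x y Ps)
    (hS : ¬ ∃ P ∈ Ps, ∃ c, Sg G x y Ps P c) : Ps.length = 2 * nT G x y Ps := by
  have h1 := h.nT_eq X
  have h2 : ∀ P ∈ Ps, Ty G x y Ps P ∨ Ty G y x Ps P := by
    intro P hP
    rcases h.types X P hP with e | e | ⟨c, e⟩
    · exact Or.inl e
    · exact Or.inr e
    · exact absurd ⟨P, hP, c, e⟩ hS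
  have h3 : ∀ l : List (List V), (∀ P ∈ l, Ty G x y Ps P ∨ Ty G y x Ps P) →
      l.length = (l.filter (fun P => Ty G x y Ps P)).length +
        (l.filter (fun P => Ty G y x Ps P)).length := by
    intro l hl
    induction l with
    | nil => rfl
    | cons P l ih =>
      have ih' := ih (fun Q hQ => hl Q (List.mem_cons_of_mem _ hQ))
      rcases hl P (by simp) with e | e
      · have e' : ¬ Ty G y x Ps P := fun e' => e.not_Ty e'
        simp only [List.filter_cons, e, e', decide_true, decide_false, if_true,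
          Bool.false_eq_true, if_false, List.length_cons]
        omega
      · have e' : ¬ Ty G x y Ps P := fun e' => e'.not_Ty e
        simp only [List.filter_cons, e, e', decide_true, decide_false, if_true,
          Bool.false_eq_true, if_false, List.length_cons]
        omega
  have h4 := h3 Ps h2
  unfold nT at h1 ⊢
  omega

/-- Theorem A, even `k`: there is no configuration with two gates -/
theorem C2.odd (X : Ctx G L k) {Ps : List (List V)} (h : C2 G L x y Ps) : Odd k := by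
  by_contra hk
  rw [Nat.not_odd_iff_even] at hk
  have h0 : ∀ x y Ps, C2 G L x y Ps → ∃ P ∈ Ps, ∃ c, Sg G x y Ps P c := by
    intro x y Ps h
    by_contra hS
    have h1 := h.len X hS
    have h2 := h.C.card
    rw [X.S.card] at h2
    obtain ⟨m, hm⟩ := hk
    omega
  obtain ⟨h1, r, l, Qs, h2, h3⟩ := h.ten X (h0 _ _ _ h)
  have h4 := (h2.ten X (h0 _ _ _ h2)).1
  omega

end Pool.Agent.LW
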