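import Pool.Agent.LW.R12

set_option autoImplicit false

/-!
# L11: absorbing gates; Theorem A
-/

namespace Pool.Agent.LW

open SimpleGraph Classical

universe w

variable {V : Type w} {G H : SimpleGraph V} {L : Finset (Sym2 V)} {k : ℕ} {x y : V}

/-- a clique containing `x`, `y` has the property `Thr` -/
theorem thr_of_clique {B : Set V} (hx : x ∈ B) (hy : y ∈ B) (hxy : G.Adj x y)
    (hc : ∀ g ∈ B, ∀ g' ∈ B, g ≠ g' → G.Adj g g') : Thr G x y B := by
  have key : ∀ g ∈ B, ∀ g' ∈ B, g ≠ g' → g ≠ y → g' ≠ x →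
      ∃ F, Ch G g g' F ∧ F.Nodup ∧ (∀ v ∈ F, v ∈ B) ∧ EL F x y := by
    intro g hg g' hg' hne h1 h2
    by_cases h3 : g = x
    · by_cases h4 : g' = y
      · rw [h3, h4]
        refine ⟨[x, y], Ch.edge hxy, by simp [hxy.ne], ?_, Or.inl List.infix_rfl⟩
        intro v hv; simp at hv; rcases hv with e | e <;> rw [e] <;> assumption
      · rw [h3]
        refine ⟨[x, y, g'], (Ch.edge (hc y hy g' hg' (Ne.symm h4))).cons hxy, ?_, ?_, ?_⟩
        · simp [hxy.ne, Ne.symm h2, Ne.symm h4]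
        · intro v hv; simp at hv; rcases hv with e | e | e <;> rw [e] <;> assumption
        · exact Or.inl ⟨[], [g'], rfl⟩
    · by_cases h4 : g' = y
      · rw [h4]
        refine ⟨[g, x, y], (Ch.edge hxy).cons (hc g hg x hx h3), ?_, ?_, ?_⟩
        · simp [hxy.ne, h1, h3]
        · intro v hv; simp at hv; rcases hv with e | e | e <;> rw [e] <;> assumption
        · exact Or.inl ⟨[g], [], rfl⟩
      · refine ⟨[g, x, y, g'], ((Ch.edge (hc y hy g' hg' (Ne.symm h4))).cons hxy).cons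
          (hc g hg x hx h3), ?_, ?_, ?_⟩
        · simp [hxy.ne, h1, h3, hne, Ne.symm h2, Ne.symm h4]
        · intro v hv; simp at hv; rcases hv with e | e | e | e <;> rw [e] <;> assumption
        · exact Or.inl ⟨[g], [g'], rfl⟩
  intro g hg g' hg' hne
  by_cases h1 : g = y
  · -- reverse a path from g' to y
    by_cases h2 : g' = x
    · rw [h1, h2]
      refine ⟨[y, x], Ch.edge hxy.symm, by simp [hxy.ne'], ?_, Or.inr List.infix_rfl⟩
      intro v hv; simp at hv; rcases hv with e | e <;> rw [e] <;> assumption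
    · obtain ⟨F, i1, i2, i3, i4⟩ := key g' hg' g hg hne.symm
        (by rw [← h1]; exact hne.symm) (by rw [h1]; exact hxy.ne')
      exact ⟨F.reverse, i1.reverse, List.nodup_reverse.2 i2,
        fun v hv => i3 v (List.mem_reverse.1 hv), i4.reverse⟩
  · by_cases h2 : g' = x
    · obtain ⟨F, i1, i2, i3, i4⟩ := key g' hg' g hg hne.symm (by rw [h2]; exact hxy.ne)
        (by rw [← h2]; exact hne)
      exact ⟨F.reverse, i1.reverse, List.nodup_reverse.2 i2,
        fun v hv => i3 v (List.mem_reverse.1 hv), i4.reverse⟩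
    · exact key g hg g' hg' hne h1 h2

/-- one step of absorption -/
theorem absorb_step (X : Ctx G L k) {Ps : List (List V)} {B O : Set V} (C : Cfg G L x y Ps)
    (T : Gt G x y (VS Ps) B O) {g : V} (hg : g ∈ B) (hgx : g ≠ x) (hgy : g ≠ y) :
    ∃ Qs O', Cfg G L x y Qs ∧ Gt G x y (VS Qs) (B \ {g}) O' ∧ ∃ P ∈ Qs, g ∈ P := by
  have hL := X.S.sub
  have T' := X.tight _ _ _ _ _ C T
  obtain ⟨P, hP, hPe⟩ := T'.ex g hg
  obtain ⟨Ms, C1, hperm⟩ := C.rot_to hP
  have hmem : ∀ v, v ∈ (P :: Ms).flatten ↔ v ∈ Ps.flatten := fun v => hperm.flatten.mem_iff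
  obtain ⟨-, ⟨A, a, M, a', D, hP', ha, ha', -⟩, hno⟩ := hPe
  have hxyA : G.Adj x y := by have := hL _ C.xy; rwa [mem_edgeSet] at this
  have hgZ : g ∉ (P :: Ms).flatten := by
    intro h
    exact T.BZ g hg ((hmem g).1 h)
  have hMs : Ms ≠ [] := by
    intro e
    obtain ⟨Q, hQ, hQe⟩ := T'.ex x T.xB
    have h1 : Q = P := by
      have := hperm.mem_iff.2 hQ
      rw [e] at this
      simpa using this
    rw [h1] at hQe
    obtain ⟨u, u', i1, i2, -⟩ := hQe.nbs
    exact hno x T.xB hgx.symm u i1.memL (Or.inl i2)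
  subst hP'
  have C2' : Cfg G L x y ((A ++ a :: ([g] ++ a' :: D)) :: Ms) := by
    refine C1.cut hL ((Ch.edge ha').cons ha.symm) (by simp) ?_ hMs
    intro u hu
    simp only [List.mem_singleton] at hu
    rw [hu]
    exact ⟨hgx, hgy, hgZ⟩
  have hn := C1.nd
  refine ⟨_, {v | v ∉ VS ((A ++ a :: ([g] ++ a' :: D)) :: Ms) ∧ v ∉ B \ {g}}, C2', ?_,
    A ++ a :: ([g] ++ a' :: D), by simp, by simp⟩
  have hsub : ∀ v, v ∈ ((A ++ a :: ([g] ++ a' :: D)) :: Ms).flatten → v = g ∨
      v ∈ Ps.flatten := by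
    intro v hv
    rw [← hmem v]
    simp only [List.flatten_cons, List.mem_append, List.mem_cons, List.not_mem_nil,
      or_false, List.cons_append, List.nil_append] at hv ⊢
    tauto
  have hOM : ∀ v, v ∉ VS ((A ++ a :: ([g] ++ a' :: D)) :: Ms) → v ∉ B \ {g} →
      v ∈ O ∨ v ∈ M := by
    intro v h1 h2
    by_cases h3 : v ∈ M
    · exact Or.inr h3
    · left
      rw [T.OO]
      have h4 : v ≠ g := by
        intro e
        apply h1
        show v ∈ ((A ++ a :: ([g] ++ a' :: D)) :: Ms).flatten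
        rw [e]; simp
      refine ⟨?_, fun h5 => h2 ⟨h5, h4⟩⟩
      intro h5
      have h6 := (hmem v).2 h5
      apply h1
      show v ∈ ((A ++ a :: ([g] ++ a' :: D)) :: Ms).flatten
      simp only [List.flatten_cons, List.mem_append, List.mem_cons, List.not_mem_nil,
        or_false, List.cons_append, List.nil_append] at h6 ⊢
      tauto
  have hatt : ∀ g1 ∈ B \ {g}, ∀ o ∈ Att G
      {v | v ∉ VS ((A ++ a :: ([g] ++ a' :: D)) :: Ms) ∧ v ∉ B \ {g}} g1, o ∈ Att G O g1 := by
    rintro g1 ⟨hg1, hg1g⟩ o ⟨p, hp, F, hF, hFO⟩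
    have hg1g' : g1 ≠ g := fun e => hg1g (by rw [e]; rfl)
    -- no vertex of F is in M
    have hM : ∀ v ∈ F, v ∉ M := by
      by_contra hcon
      push Not at hcon
      obtain ⟨F1, m, F2, h1, h2, h3⟩ := first_mem (F := F) (B := {v | v ∈ M}) hcon
      have h4 : Ch G g1 o ((g1 :: F1) ++ m :: F2) := by
        have := hF.cons hp
        rw [h1] at this
        simpa using this
      have h5 : Con G O g1 m := by
        refine con_of_path (K := F1) (by simpa using h4.left) ?_
        intro v hv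
        have h6 := hFO v (by rw [h1]; simp [hv])
        rcases hOM v h6.1 h6.2 with h7 | h7
        · exact h7
        · exact absurd h7 (h3 v hv)
      have h6 : m ∈ M := h2
      exact hno g1 hg1 hg1g' m (by simp [h6]) h5
    refine ⟨p, hp, F, hF, ?_⟩
    intro v hv
    have h6 := hFO v hv
    rcases hOM v h6.1 h6.2 with h7 | h7
    · exact h7
    · exact absurd h7 (hM v hv)
  refine ⟨⟨T.xB, ?_⟩, ⟨T.yB, ?_⟩, ?_, fun v => Iff.rfl, ?_, ?_⟩
  · intro e; exact hgx (by rw [Set.mem_singleton_iff] at e; exact e.symm)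
  · intro e; exact hgy (by rw [Set.mem_singleton_iff] at e; exact e.symm)
  · rintro b ⟨hb, hbg⟩ hv
    rcases hsub b hv with e | e
    · exact hbg (by rw [e]; rfl)
    · exact T.BZ b hb e
  · refine thr_of_clique ⟨T.xB, ?_⟩ ⟨T.yB, ?_⟩ hxyA ?_
    · intro e; exact hgx (by rw [Set.mem_singleton_iff] at e; exact e.symm)
    · intro e; exact hgy (by rw [Set.mem_singleton_iff] at e; exact e.symm)
    · rintro g1 ⟨h1, -⟩ g2 ⟨h2, -⟩ hne
      exact T'.clq g1 h1 g2 h2 hne
  · intro g1 hg1 g2 hg2 hne o ho ho'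
    exact T.att g1 hg1.1 g2 hg2.1 hne o (hatt g1 hg1 o ho) (hatt g2 hg2 o ho')

/-- with a third gate there is a configuration with two gates and a segment with a centre -/
theorem absorb [Finite V] (X : Ctx G L k) {Ps : List (List V)} {B O : Set V}
    (C : Cfg G L x y Ps) (T : Gt G x y (VS Ps) B O) {g : V} (hg : g ∈ B) (hgx : g ≠ x)
    (hgy : g ≠ y) : ∃ Qs, C2 G L x y Qs ∧ ∃ P ∈ Qs, ∃ c, Sg G x y Qs P c := by
  have key : ∀ n, ∀ (Ps : List (List V)) (B O : Set V) (g : V), B.ncard = n →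
      Cfg G L x y Ps → Gt G x y (VS Ps) B O → g ∈ B → g ≠ x → g ≠ y →
      ∃ Qs, C2 G L x y Qs ∧ ∃ P ∈ Qs, ∃ c, Sg G x y Qs P c := by
    intro n
    induction n with
    | zero =>
      intro Ps B O g hn _ _ hg _ _
      rw [Set.ncard_eq_zero] at hn
      rw [hn] at hg
      exact absurd hg (by simp)
    | succ n ih =>
      intro Ps B O g hn C T hg hgx hgy
      have T' := X.tight _ _ _ _ _ C T
      obtain ⟨Qs, O', h1, h2, P, h3, h4⟩ := absorb_step X C T hg hgx hgy
      by_cases h5 : ∃ g' ∈ B \ {g}, g' ≠ x ∧ g' ≠ y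
      · obtain ⟨g', h6, h7, h8⟩ := h5
        refine ih Qs (B \ {g}) O' g' ?_ h1 h2 h6 h7 h8
        rw [Set.ncard_sdiff_singleton_of_mem hg, hn]
        rfl
      · push Not at h5
        have h6 : C2 G L x y Qs := by
          refine ⟨h1, gt_two h2 ?_⟩
          intro g' hg'
          by_contra hcon
          push Not at hcon
          exact hcon.2 (h5 g' hg' hcon.1)
        refine ⟨Qs, h6, P, h3, ?_⟩
        have h7 : G.Adj x g := T'.clq x T.xB g hg hgx.symm
        have h8 : G.Adj y g := T'.clq y T.yB g hg hgy.symm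
        rcases h6.types X P h3 with e | e | e
        · exact absurd (Or.inl h8) (e.no g h4)
        · exact absurd (Or.inl h7) (e.no g h4)
        · exact e
  exact key _ Ps B O g rfl C T hg hgx hgy

/-- L11 -/
theorem Cfg.exists_c2 [Finite V] (X : Ctx G L k) {Ps : List (List V)} (C : Cfg G L x y Ps) :
    ∃ Qs, C2 G L x y Qs := by
  obtain ⟨B, O, T⟩ := X.gt _ _ _ C
  by_cases h : ∃ g ∈ B, g ≠ x ∧ g ≠ y
  · obtain ⟨g, h1, h2, h3⟩ := h
    obtain ⟨Qs, h4, -⟩ := absorb X C T h1 h2 h3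
    exact ⟨Qs, h4⟩
  · push Not at h
    refine ⟨Ps, C, gt_two T ?_⟩
    intro g hg
    by_contra hcon
    push Not at hcon
    exact hcon.2 (h g hg hcon.1)

/-- Theorem A: a configuration exists only if `k` is odd -/
theorem theoremA [Finite V] (X : Ctx G L k) {Ps : List (List V)} (C : Cfg G L x y Ps) :
    Odd k := by
  obtain ⟨Qs, h⟩ := C.exists_c2 X
  exact h.odd X

end Pool.Agent.LW
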