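import Pool.Agent.LW.Types

set_option autoImplicit false

/-!
# Reroutings: the full cycles V1, V2
-/

namespace Pool.Agent.LW

open SimpleGraph Classical

universe w

variable {V : Type w} {G H : SimpleGraph V} {L : Finset (Sym2 V)} {k : ℕ} {x y : V}

/-- the full cycle V1: `y q → .. → c .. g0 (through rl) g' u ← .. ← a x y` -/
theorem rawV1 (S : Bs G L k) {A D E F1 F2 K P1 P2 P3 : List V} {Ms Ns : List (List V)}
    {lj c a r' l' rj g0 g' u q lm rm : V}
    (h1 : Ch G lj c (A ++ [c])) (h2 : Ch G a rj (a :: D)) (h3 : Lk G L rj Ms lm)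
    (h4 : Ch G lm rm (P1 ++ u :: (P2 ++ q :: P3))) (h5 : Lk G L rm Ns lj)
    (hyx : s(x, y) ∈ L) (hq : G.Adj y q) (ha : G.Adj x a)
    (hE : Ch G c g0 (c :: (E ++ [g0]))) (hF : Ch G g0 g' (F1 ++ r' :: l' :: F2))
    (he : s(r', l') ∈ L) (hK : Ch G g' u (g' :: (K ++ [u])))
    (hnd : (x :: y :: (A ++ c :: (a :: D ++ (P1 ++ u :: (P2 ++ q :: P3)) ++ Ms.flatten ++
      Ns.flatten ++ E ++ (F1 ++ r' :: l' :: F2) ++ K))).Nodup)
    (hMs : ∀ Q ∈ Ms, 2 ≤ Q.length) (hNs : ∀ Q ∈ Ns, 2 ≤ Q.length)
    (hcard : Ms.length + Ns.length + 4 = L.card) : False := by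
  have f0 : Ch G lm rm ((P1 ++ u :: P2) ++ q :: P3) := by simpa using h4
  have e1 : Ch G y rm (y :: q :: P3) := f0.right.cons hq
  have e2 : Ch G lj r' (A ++ c :: (E ++ (F1 ++ [r']))) := by
    have f1 : Ch G g0 r' (F1 ++ [r']) := hF.left
    have f2 : Ch G c r' (c :: (E ++ (F1 ++ [r']))) := by
      cases F1 with
      | nil =>
        have : g0 = r' := by have := f1.hd; simpa using this.symm
        subst this
        simpa using hE
      | cons z F1 =>
        have : z = g0 := by have := f1.hd; simpa using this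
        subst this
        have : Ch G c r' ((c :: E) ++ z :: (F1 ++ [r'])) :=
          Ch.glue (by simpa using hE) (by simpa using f1)
        simpa using this
    exact h1.glue f2
  have e3 : Ch G l' lm ((l' :: F2) ++ (K ++ (P1 ++ [u]).reverse)) := by
    have f3 : Ch G l' g' (l' :: F2) := by
      have : Ch G g0 g' ((F1 ++ [r']) ++ l' :: F2) := by simpa using hF
      exact this.right
    have f4 : Ch G u lm (P1 ++ [u]).reverse := h4.left.reverse
    have f5 : Ch G g' lm (g' :: (K ++ (P1 ++ [u]).reverse)) := by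
      have : Ch G u lm (u :: P1.reverse) := by simpa using f4
      have : Ch G g' lm ((g' :: K) ++ u :: P1.reverse) := Ch.glue (by simpa using hK) this
      simpa using this
    obtain ⟨F3, hF3⟩ : ∃ F3, l' :: F2 = F3 ++ [g'] := by
      have h := f3.lt
      exact ⟨(l' :: F2).dropLast, by
        rw [List.dropLast_append_getLast? _ (by rw [h]; rfl)]⟩
    rw [hF3] at f3 ⊢
    have : Ch G l' lm (F3 ++ g' :: (K ++ (P1 ++ [u]).reverse)) := f3.glue f5
    simpa using this
  have e4 : Ch G rj x ((a :: D).reverse ++ [x]) := h2.reverse.concat ha.symm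
  have hr'l' : s(r', l') ∈ L := he
  refine S.no _ (Full.mk' e1 (h5.append e2 (Lk.cons hr'l' e3 (h3.rev.append e4 (Lk.nil hyx))))
    ?_ ?_ ?_)
  · exact nodup_of_count hnd (by
      intro v; simp only [List.flatten_cons, List.flatten_append, List.flatten_nil, flatten_rv,
      List.count_append, List.count_cons, List.count_reverse, List.count_nil, List.reverse_cons,
      List.reverse_append, List.append_nil, List.nil_append]; omega)
  · have h6 : ∀ Q ∈ Ms ++ Ns, 2 ≤ Q.length := two_append.2 ⟨hMs, hNs⟩
    have h7 : 1 ≤ (F1 ++ [r']).length := by simp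
    have h8 : 1 ≤ (P1 ++ [u]).length := by simp
    have htwo := h6
    simp only [two_cons, two_append, two_rv, two_nil, List.length_append, List.length_cons,
      List.length_nil, List.length_reverse, and_true, true_and] at htwo ⊢
    repeat' apply And.intro
    all_goals first
      | omega
      | exact htwo.1 | exact htwo.2 | exact htwo.1.1 | exact htwo.1.2
      | exact htwo.2.1 | exact htwo.2.2 | exact htwo.2.1.1 | exact htwo.2.1.2
      | exact htwo.2.2.1 | exact htwo.2.2.2 | exact htwo.2.2.2.1 | exact htwo.2.2.2.2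
      | exact htwo.2.2.2.2.1 | exact htwo.2.2.2.2.2 | exact htwo.2.2.2.2.2.1
      | exact htwo.2.2.2.2.2.2 | tauto
  · have hlen := hcard
    simp only [List.length_append, List.length_cons, List.length_nil, length_rv] at hlen ⊢
    omega

end Pool.Agent.LW
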