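import Pool.Agent.LW.R2

set_option autoImplicit false

/-!
# The full cycles V1, V2 at an off-able boundary
-/

namespace Pool.Agent.LW

open SimpleGraph Classical

universe w

variable {V : Type w} {G H : SimpleGraph V} {L : Finset (Sym2 V)} {k : ℕ} {x y : V}

/-- the vertices on a path which starts at `g` and runs inside `O` are attached to `g` -/
theorem att_of_path {O : Set V} {g b : V} {K D : List V} (h : Ch G g b (g :: (K ++ D)))
    (hO : ∀ v ∈ K, v ∈ O) : ∀ v ∈ K, v ∈ Att G O g := by
  intro v hv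
  obtain ⟨K1, K2, hK⟩ := List.append_of_mem hv
  subst hK
  have h1 : Ch G g b ((g :: K1) ++ v :: (K2 ++ D)) := by simpa using h
  have h2 := h1.left
  cases K1 with
  | nil =>
    have h3 : G.Adj g v := by
      have := h2.ch
      simpa using this
    exact ⟨v, h3, [v], Ch.single v, by intro z hz; simp at hz; rw [hz]; exact hO v hv⟩
  | cons p K1 =>
    have h3 : Ch G g v (g :: p :: (K1 ++ [v])) := by simpa using h2
    refine ⟨p, h3.snd, p :: (K1 ++ [v]), h3.tail, ?_⟩
    intro z hz
    apply hO
    simp only [List.mem_cons, List.mem_append, List.not_mem_nil, or_false] at hz ⊢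
    tauto

/-- the first vertex of a list in a set -/
theorem first_mem {F : List V} {B : Set V} (h : ∃ v ∈ F, v ∈ B) :
    ∃ F1 g F2, F = F1 ++ g :: F2 ∧ g ∈ B ∧ ∀ v ∈ F1, v ∉ B := by
  induction F with
  | nil => obtain ⟨v, hv, _⟩ := h; simp at hv
  | cons a F ih =>
    by_cases ha : a ∈ B
    · exact ⟨[], a, F, rfl, ha, by simp⟩
    · obtain ⟨v, hv, hB⟩ := h
      rcases List.mem_cons.1 hv with hv | hv
      · rw [hv] at hB; exact absurd hB ha
      · obtain ⟨F1, g, F2, h1, h2, h3⟩ := ih ⟨v, hv, hB⟩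
        refine ⟨a :: F1, g, F2, by rw [h1]; rfl, h2, ?_⟩
        intro z hz
        rcases List.mem_cons.1 hz with hz | hz
        · rw [hz]; exact ha
        · exact h3 z hz

/-- the last vertex of a list in a set -/
theorem last_mem {F : List V} {B : Set V} (h : ∃ v ∈ F, v ∈ B) :
    ∃ F1 g F2, F = F1 ++ g :: F2 ∧ g ∈ B ∧ ∀ v ∈ F2, v ∉ B := by
  obtain ⟨v, hv, hB⟩ := h
  obtain ⟨F1, g, F2, h1, h2, h3⟩ :=
    first_mem (F := F.reverse) (B := B) ⟨v, List.mem_reverse.2 hv, hB⟩
  refine ⟨F2.reverse, g, F1.reverse, ?_, h2, ?_⟩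
  · have := congrArg List.reverse h1
    simpa using this
  · intro z hz
    exact h3 z (List.mem_reverse.1 hz)

/-- an off-able boundary: `P_j = A c E`, `P_{j+1} = A' a D`, `c ~ x, y`, `a ~ x`, and the edge
between the last vertex `r` of `E` and the first vertex `l` of `A'` -/
structure Bd (G : SimpleGraph V) (L : Finset (Sym2 V)) (x y : V) (A E A' D : List V)
    (c a r l : V) (Ms : List (List V)) : Prop where
  C : Cfg G L x y ((A ++ c :: E) :: (A' ++ a :: D) :: Ms)
  cx : G.Adj x c
  cy : G.Adj y c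
  xa : G.Adj x a
  hr : E.getLast? = some r
  hl : A'.head? = some l

/-- the configuration obtained at an off-able boundary -/
def Off (x y : V) (A D : List V) (c a : V) (Ms : List (List V)) : List (List V) :=
  (A ++ [c, y]) :: (x :: a :: D) :: Ms

theorem Bd.off {A E A' D : List V} {c a r l : V} {Ms : List (List V)}
    (h : Bd G L x y A E A' D c a r l Ms) (hL : ∀ e ∈ L, e ∈ G.edgeSet) :
    Cfg G L r l (Off x y A D c a Ms) :=
  h.C.off hL h.cy.symm h.xa h.hr h.hl

/-- nodup of the base list for V1 and V2 -/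
theorem base_aux {B O : Set V} {Z E1 F K : List V} {g0 g' : V}
    (hZ : Z.Nodup) (hBZ : ∀ b ∈ B, b ∉ Z) (hOO : ∀ v, v ∈ O ↔ v ∉ Z ∧ v ∉ B)
    (hE : E1.Nodup) (hEO : ∀ v ∈ E1, v ∈ O) (hEa : ∀ v ∈ E1, v ∈ Att G O g0)
    (hF : F.Nodup) (hFB : ∀ v ∈ F, v ∈ B) (hK : K.Nodup) (hKO : ∀ v ∈ K, v ∈ O)
    (hKa : ∀ v ∈ K, v ∈ Att G O g') (hatt : ∀ o ∈ Att G O g0, o ∉ Att G O g') :
    (Z ++ (E1 ++ (F ++ K))).Nodup := by
  rw [List.nodup_append', List.nodup_append', List.nodup_append']
  refine ⟨hZ, ⟨hE, ⟨hF, hK, ?_⟩, ?_⟩, ?_⟩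
  · intro v hv hv'
    exact ((hOO v).1 (hKO v hv')).2 (hFB v hv)
  · intro v hv hv'
    rcases List.mem_append.1 hv' with h | h
    · exact ((hOO v).1 (hEO v hv)).2 (hFB v h)
    · exact hatt v (hEa v hv) (hKa v h)
  · intro v hv hv'
    simp only [List.mem_append] at hv'
    rcases hv' with h | h | h
    · exact ((hOO v).1 (hEO v h)).1 hv
    · exact hBZ v (hFB v h) hv
    · exact ((hOO v).1 (hKO v h)).1 hv

theorem EL.cut {F : List V} {r l : V} (h : EL F r l) :
    ∃ F1 r' l' F2, F = F1 ++ r' :: l' :: F2 ∧ s(r', l') = s(r, l) := by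
  rcases h.ex with ⟨A, D, h⟩ | ⟨A, D, h⟩
  · exact ⟨A, r, l, D, h, rfl⟩
  · exact ⟨A, l, r, D, h, Sym2.eq_swap⟩

/-- V1 at an off-able boundary -/
theorem Bd.V1 (S : Bs G L k) {A E1 E2 A' D : List V} {c a r l g0 g' u q x1 y1 : V}
    {Ms : List (List V)} {B O : Set V} {P : List V}
    (h : Bd G L x y A (E1 ++ g0 :: E2) A' D c a r l Ms)
    (T : Gt G r l (VS (Off x y A D c a Ms)) B O)
    (hE1 : ∀ v ∈ E1, v ∉ B) (hg0 : g0 ∈ B) (hg' : g' ∈ B) (hne : g' ≠ g0)
    (hxy : (x1 = x ∧ y1 = y) ∨ (x1 = y ∧ y1 = x)) (ha : G.Adj x1 a)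
    (hP : P ∈ Ms) (hu : Con G O g' u) (huq : Bf P u q) (hq : G.Adj y1 q) : False := by
  obtain ⟨Ms1, Ms2, hMs⟩ := List.append_of_mem hP
  subst hMs
  obtain ⟨P1, P2, P3, hP'⟩ := huq.split
  subst hP'
  have hL := S.sub
  have C := h.C
  have C' := h.off hL
  have hb := C.base (C.xy_ne hL)
  obtain ⟨lj, rj, h1, lj1, rj1, h2, h3, h4⟩ := C.lk
  obtain ⟨lm, rm, h5, h6, h7⟩ := h4.split
  obtain ⟨K, hK1, hK2, hK3⟩ := hu.list
  obtain ⟨F, hF1, hF2, hF3, hF4⟩ := T.thr g0 hg0 g' hg' hne.symm
  obtain ⟨F1, r', l', F2, hF, he⟩ := hF4.cut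
  subst hF
  have hrl : s(r', l') ∈ L := by rw [he]; exact C'.xy
  have hZ := C'.nd
  have hE : Ch G c g0 (c :: (E1 ++ [g0])) := h1.mid
  have hE1O : ∀ v ∈ E1, v ∈ O := by
    intro v hv
    rw [T.OO]
    refine ⟨?_, hE1 v hv⟩
    intro hv'
    have h8 : (v :: (Off x y A D c a (Ms1 ++ (P1 ++ u :: (P2 ++ q :: P3)) :: Ms2)).flatten).Nodup := by
      obtain ⟨E3, E4, hE3⟩ := List.append_of_mem hv
      rw [hE3] at hb
      unfold Off
      exact nodup_of_count hb (by
      intro v; simp only [List.flatten_cons, List.flatten_append, List.flatten_nil, flatten_rv,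
      List.count_append, List.count_cons, List.count_reverse, List.count_nil, List.reverse_cons,
      List.reverse_append, List.append_nil, List.nil_append]; omega)
    exact (List.nodup_cons.1 h8).1 hv'
  have hE1n : E1.Nodup := by
    have : (E1 ++ []).Nodup := nodup_of_count hb (by
      intro v; simp only [List.flatten_cons, List.flatten_append, List.flatten_nil, flatten_rv,
      List.count_append, List.count_cons, List.count_reverse, List.count_nil, List.reverse_cons,
      List.reverse_append, List.append_nil, List.nil_append]; omega)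
    simpa using this
  have hEa : ∀ v ∈ E1, v ∈ Att G O g0 := by
    have h8 : Ch G g0 c (g0 :: (E1.reverse ++ [c])) := by simpa using hE.reverse
    intro v hv
    exact att_of_path h8 (fun z hz => hE1O z (List.mem_reverse.1 hz)) v (List.mem_reverse.2 hv)
  have hbase := base_aux (G := G) hZ T.BZ T.OO hE1n hE1O hEa hF2 hF3 hK2 hK3
    (att_of_path hK1 hK3) (T.att g0 hg0 g' hg' hne.symm)
  have hx1 : s(x1, y1) ∈ L := by
    rcases hxy with ⟨h8, h9⟩ | ⟨h8, h9⟩
    · rw [h8, h9]; exact C.xy
    · rw [h8, h9]; exact C.swap.xy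
  refine rawV1 S h1.left h3.right h5 h6 h7 hx1 hq ha hE hF1 hrl hK1 ?_ ?_ ?_ ?_
  · unfold Off at hbase
    rcases hxy with ⟨h8, h9⟩ | ⟨h8, h9⟩
    · subst h8; subst h9
      exact nodup_of_count hbase (by
      intro v; simp only [List.flatten_cons, List.flatten_append, List.flatten_nil, flatten_rv,
      List.count_append, List.count_cons, List.count_reverse, List.count_nil, List.reverse_cons,
      List.reverse_append, List.append_nil, List.nil_append]; omega)
    · subst h8; subst h9
      exact nodup_of_count hbase (by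
      intro v; simp only [List.flatten_cons, List.flatten_append, List.flatten_nil, flatten_rv,
      List.count_append, List.count_cons, List.count_reverse, List.count_nil, List.reverse_cons,
      List.reverse_append, List.append_nil, List.nil_append]; omega)
  · have := C.two
    simp only [two_cons, two_append] at this
    exact this.2.2.1
  · have := C.two
    simp only [two_cons, two_append] at this
    exact this.2.2.2.2
  · have hlen := C.card
    simp only [List.length_append, List.length_cons, List.length_nil, length_rv] at hlen ⊢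
    omega

/-- V2 at an off-able boundary -/
theorem Bd.V2 (S : Bs G L k) {A E A1 A2 D : List V} {c a r l g1 g' u q x1 y1 : V}
    {Ms : List (List V)} {B O : Set V} {P : List V}
    (h : Bd G L x y A E (A1 ++ g1 :: A2) D c a r l Ms)
    (T : Gt G r l (VS (Off x y A D c a Ms)) B O)
    (hA2 : ∀ v ∈ A2, v ∉ B) (hg1 : g1 ∈ B) (hg' : g' ∈ B) (hne : g' ≠ g1)
    (hxy : (x1 = x ∧ y1 = y) ∨ (x1 = y ∧ y1 = x))
    (hP : P ∈ Ms) (hu : Con G O g' u) (hqu : Bf P q u) (hq : G.Adj y1 q) : False := by
  obtain ⟨Ms1, Ms2, hMs⟩ := List.append_of_mem hP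
  subst hMs
  obtain ⟨P1, P2, P3, hP'⟩ := hqu.split
  subst hP'
  have hL := S.sub
  have C := h.C
  have C' := h.off hL
  have hb := C.base (C.xy_ne hL)
  obtain ⟨lj, rj, h1, lj1, rj1, h2, h3, h4⟩ := C.lk
  obtain ⟨lm, rm, h5, h6, h7⟩ := h4.split
  obtain ⟨K, hK1, hK2, hK3⟩ := hu.list
  obtain ⟨F, hF1, hF2, hF3, hF4⟩ := T.thr g1 hg1 g' hg' hne.symm
  obtain ⟨F1, r', l', F2, hF, he⟩ := hF4.cut
  subst hF
  have hrl : s(r', l') ∈ L := by rw [he]; exact C'.xy
  have hZ := C'.nd
  have h3' : Ch G lj1 rj1 (A1 ++ g1 :: (A2 ++ a :: D)) := by simpa using h3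
  have hE : Ch G a g1 (a :: (A2.reverse ++ [g1])) := by simpa using h3'.mid.reverse
  have hE1O : ∀ v ∈ A2.reverse, v ∈ O := by
    intro v hv
    rw [List.mem_reverse] at hv
    rw [T.OO]
    refine ⟨?_, hA2 v hv⟩
    intro hv'
    have h8 : (v :: (Off x y A D c a
        (Ms1 ++ (P1 ++ q :: (P2 ++ u :: P3)) :: Ms2)).flatten).Nodup := by
      obtain ⟨E3, E4, hE3⟩ := List.append_of_mem hv
      rw [hE3] at hb
      unfold Off
      exact nodup_of_count hb (by
      intro v; simp only [List.flatten_cons, List.flatten_append, List.flatten_nil, flatten_rv,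
      List.count_append, List.count_cons, List.count_reverse, List.count_nil, List.reverse_cons,
      List.reverse_append, List.append_nil, List.nil_append]; omega)
    exact (List.nodup_cons.1 h8).1 hv'
  have hE1n : A2.reverse.Nodup := by
    have : (A2.reverse ++ []).Nodup := nodup_of_count hb (by
      intro v; simp only [List.flatten_cons, List.flatten_append, List.flatten_nil, flatten_rv,
      List.count_append, List.count_cons, List.count_reverse, List.count_nil, List.reverse_cons,
      List.reverse_append, List.append_nil, List.nil_append]; omega)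
    simpa using this
  have hEa : ∀ v ∈ A2.reverse, v ∈ Att G O g1 := by
    intro v hv
    exact att_of_path h3'.mid (fun z hz => hE1O z (List.mem_reverse.2 hz)) v
      (List.mem_reverse.1 hv)
  have hbase := base_aux (G := G) hZ T.BZ T.OO hE1n hE1O hEa hF2 hF3 hK2 hK3
    (att_of_path hK1 hK3) (T.att g1 hg1 g' hg' hne.symm)
  have hx1 : s(x1, y1) ∈ L := by
    rcases hxy with ⟨h8, h9⟩ | ⟨h8, h9⟩
    · rw [h8, h9]; exact C.xy
    · rw [h8, h9]; exact C.swap.xy
  have hac : G.Adj x1 c := by
    rcases hxy with ⟨h8, h9⟩ | ⟨h8, h9⟩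
    · rw [h8]; exact h.cx
    · rw [h8]; exact h.cy
  have i1 : Ch G rj1 a (D.reverse ++ [a]) := by simpa using h3.right.reverse
  have i2 : Ch G c lj (c :: A.reverse) := by simpa using h1.left.reverse
  have i3 : Ch G rm lm (P3.reverse ++ u :: (P2.reverse ++ q :: P1.reverse)) := by
    simpa using h6.reverse
  refine rawV1 S i1 i2 h7.rev i3 h5.rev hx1 hq hac hE hF1 hrl hK1 ?_ ?_ ?_ ?_
  · unfold Off at hbase
    rcases hxy with ⟨h8, h9⟩ | ⟨h8, h9⟩
    · subst h8; subst h9
      exact nodup_of_count hbase (by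
      intro v; simp only [List.flatten_cons, List.flatten_append, List.flatten_nil, flatten_rv,
      List.count_append, List.count_cons, List.count_reverse, List.count_nil, List.reverse_cons,
      List.reverse_append, List.append_nil, List.nil_append]; omega)
    · subst h8; subst h9
      exact nodup_of_count hbase (by
      intro v; simp only [List.flatten_cons, List.flatten_append, List.flatten_nil, flatten_rv,
      List.count_append, List.count_cons, List.count_reverse, List.count_nil, List.reverse_cons,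
      List.reverse_append, List.append_nil, List.nil_append]; omega)
  · have := C.two
    simp only [two_cons, two_append] at this
    exact two_rv.2 this.2.2.2.2
  · have := C.two
    simp only [two_cons, two_append] at this
    exact two_rv.2 this.2.2.1
  · have hlen := C.card
    simp only [List.length_append, List.length_cons, List.length_nil, length_rv] at hlen ⊢
    omega

end Pool.Agent.LW
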