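import Pool.Agent.LW.R4

set_option autoImplicit false

/-!
# L9: the configuration at an off-able boundary has two gates
-/

namespace Pool.Agent.LW

open SimpleGraph Classical

universe w

variable {V : Type w} {G H : SimpleGraph V} {L : Finset (Sym2 V)} {k : ℕ} {x y : V}

/-- the first gate `g0` after `c` and the last gate `g1` before `a`, with their attachments -/
structure Gs (G : SimpleGraph V) (x y : V) (A E A' D : List V) (c a r l : V)
    (Ms : List (List V)) (B O : Set V) (E1 E2 A1 A2 : List V) (g0 g1 : V) : Prop where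
  hE : E = E1 ++ g0 :: E2
  hE1 : ∀ v ∈ E1, v ∉ B
  hg0 : g0 ∈ B
  hA : A' = A1 ++ g1 :: A2
  hA2 : ∀ v ∈ A2, v ∉ B
  hg1 : g1 ∈ B
  ne : g0 ≠ g1
  rg1 : r ≠ g1
  lg0 : l ≠ g0
  c0 : Con G O g0 c
  a1 : Con G O g1 a
  E1O : ∀ v ∈ E1, v ∈ O
  A2O : ∀ v ∈ A2, v ∈ O

theorem Bd.gs (hL : ∀ e ∈ L, e ∈ G.edgeSet) {A E A' D : List V} {c a r l : V}
    {Ms : List (List V)} {B O : Set V} (h : Bd G L x y A E A' D c a r l Ms)
    (T : Gt G r l (VS (Off x y A D c a Ms)) B O) :
    ∃ E1 E2 A1 A2 g0 g1, Gs G x y A E A' D c a r l Ms B O E1 E2 A1 A2 g0 g1 := by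
  have hrE := List.mem_of_getLast? h.hr
  have hlA := List.mem_of_head? h.hl
  obtain ⟨E1, g0, E2, h1, h2, h3⟩ := first_mem (F := E) (B := B) ⟨r, hrE, T.xB⟩
  obtain ⟨A1, g1, A2, h4, h5, h6⟩ := last_mem (F := A') (B := B) ⟨l, hlA, T.yB⟩
  have C := h.C
  have hb := C.base (C.xy_ne hL)
  have hdis : ∀ v ∈ E, ∀ w ∈ A', v ≠ w := by
    intro v hv w hw hvw
    subst hvw
    have h7 : (E ++ A').Nodup := nodup_of_count hb (by
      intro v; simp only [List.flatten_cons, List.flatten_append, List.flatten_nil, flatten_rv,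
      List.count_append, List.count_cons, List.count_reverse, List.count_nil, List.reverse_cons,
      List.reverse_append, List.append_nil, List.nil_append]; omega)
    exact (List.nodup_append'.1 h7).2.2 hv hw
  subst h1; subst h4
  obtain ⟨lj, rj, i1, lj1, rj1, i2, i3, i4⟩ := C.lk
  have i3' : Ch G lj1 rj1 (A1 ++ g1 :: (A2 ++ a :: D)) := by simpa using i3
  have hE1O : ∀ v ∈ E1, v ∈ O := by
    intro v hv
    rw [T.OO]
    refine ⟨?_, h3 v hv⟩
    intro hv'
    have h8 : (v :: (Off x y A D c a Ms).flatten).Nodup := by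
      obtain ⟨E3, E4, hE3⟩ := List.append_of_mem hv
      rw [hE3] at hb
      unfold Off
      exact nodup_of_count hb (by
      intro v; simp only [List.flatten_cons, List.flatten_append, List.flatten_nil, flatten_rv,
      List.count_append, List.count_cons, List.count_reverse, List.count_nil, List.reverse_cons,
      List.reverse_append, List.append_nil, List.nil_append]; omega)
    exact (List.nodup_cons.1 h8).1 hv'
  have hA2O : ∀ v ∈ A2, v ∈ O := by
    intro v hv
    rw [T.OO]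
    refine ⟨?_, h6 v hv⟩
    intro hv'
    have h8 : (v :: (Off x y A D c a Ms).flatten).Nodup := by
      obtain ⟨E3, E4, hE3⟩ := List.append_of_mem hv
      rw [hE3] at hb
      unfold Off
      exact nodup_of_count hb (by
      intro v; simp only [List.flatten_cons, List.flatten_append, List.flatten_nil, flatten_rv,
      List.count_append, List.count_cons, List.count_reverse, List.count_nil, List.reverse_cons,
      List.reverse_append, List.append_nil, List.nil_append]; omega)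
    exact (List.nodup_cons.1 h8).1 hv'
  refine ⟨E1, E2, A1, A2, g0, g1, rfl, h3, h2, rfl, h6, h5, ?_, ?_, ?_, ?_, ?_, hE1O, hA2O⟩
  · exact hdis g0 (by simp) g1 (by simp)
  · exact hdis r hrE g1 (by simp)
  · exact (hdis g0 (by simp) l hlA).symm
  · have h8 : Ch G g0 c (g0 :: (E1.reverse ++ [c])) := by simpa using i1.mid.reverse
    exact con_of_path h8 (fun v hv => hE1O v (List.mem_reverse.1 hv))
  · exact con_of_path i3'.mid hA2O

/-- V1 in short form -/
theorem Gs.V1 (S : Bs G L k) {A E A' D : List V} {c a r l : V}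
    {Ms : List (List V)} {B O : Set V} (h : Bd G L x y A E A' D c a r l Ms)
    (T : Gt G r l (VS (Off x y A D c a Ms)) B O) {E1 E2 A1 A2 : List V} {g0 g1 : V}
    (hG : Gs G x y A E A' D c a r l Ms B O E1 E2 A1 A2 g0 g1) {g' u q x1 y1 : V} {P : List V}
    (hg' : g' ∈ B) (hne : g' ≠ g0)
    (hxy : (x1 = x ∧ y1 = y) ∨ (x1 = y ∧ y1 = x)) (ha : G.Adj x1 a)
    (hP : P ∈ Ms) (hu : Con G O g' u) (huq : Bf P u q) (hq : G.Adj y1 q) : False := by
  have hE := hG.hE
  subst hE
  exact h.V1 S T hG.hE1 hG.hg0 hg' hne hxy ha hP hu huq hq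

/-- V2 in short form -/
theorem Gs.V2 (S : Bs G L k) {A E A' D : List V} {c a r l : V}
    {Ms : List (List V)} {B O : Set V} (h : Bd G L x y A E A' D c a r l Ms)
    (T : Gt G r l (VS (Off x y A D c a Ms)) B O) {E1 E2 A1 A2 : List V} {g0 g1 : V}
    (hG : Gs G x y A E A' D c a r l Ms B O E1 E2 A1 A2 g0 g1) {g' u q y1 : V} {P : List V}
    (hg' : g' ∈ B) (hne : g' ≠ g1) (hxy : y1 = y ∨ y1 = x)
    (hP : P ∈ Ms) (hu : Con G O g' u) (hqu : Bf P q u) (hq : G.Adj y1 q) : False := by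
  have hA := hG.hA
  subst hA
  rcases hxy with h1 | h1
  · exact h.V2 S T hG.hA2 hG.hg1 hg' hne (x1 := x) (Or.inl ⟨rfl, h1⟩) hP hu hqu hq
  · exact h.V2 S T hG.hA2 hG.hg1 hg' hne (x1 := y) (Or.inr ⟨rfl, h1⟩) hP hu hqu hq

/-- a third gate `g'` is exclusive on some segment of `Ms` -/
theorem Gs.third {A E A' D : List V} {c a r l : V}
    {Ms : List (List V)} {B O : Set V}
    (T' : Tight G r l B O (Off x y A D c a Ms)) {E1 E2 A1 A2 : List V} {g0 g1 : V}
    (hG : Gs G x y A E A' D c a r l Ms B O E1 E2 A1 A2 g0 g1) {g' : V}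
    (hg' : g' ∈ B) (h0 : g' ≠ g0) (h1 : g' ≠ g1) : ∃ P ∈ Ms, Excl G B O P g' := by
  obtain ⟨P, hP, hE⟩ := T'.ex g' hg'
  unfold Off at hP
  simp only [List.mem_cons] at hP
  rcases hP with hP | hP | hP
  · subst hP
    exact absurd hG.c0 (hE.2.2 g0 hG.hg0 h0.symm c (by simp))
  · subst hP
    exact absurd hG.a1 (hE.2.2 g1 hG.hg1 h1.symm a (by simp))
  · exact ⟨P, hP, hE⟩

/-- L9, case (B): also `y ~ a` -/
theorem Bd.twoB (X : Ctx G L k) {A E A' D : List V} {c a r l : V}
    {Ms : List (List V)} {B O : Set V} (h : Bd G L x y A E A' D c a r l Ms)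
    (h2 : C2 G L x y ((A ++ c :: E) :: (A' ++ a :: D) :: Ms)) (hya : G.Adj y a)
    (T : Gt G r l (VS (Off x y A D c a Ms)) B O) {g : V} (hg : g ∈ B) (hgr : g ≠ r)
    (hgl : g ≠ l) : False := by
  have S := X.S
  have C' := h.off S.sub
  have T' := X.tight _ _ _ _ _ C' T
  obtain ⟨E1, E2, A1, A2, g0, g1, hG⟩ := h.gs S.sub T
  have hrl : r ≠ l := C'.xy_ne S.sub
  obtain ⟨g', hg', h0, h1⟩ : ∃ g' ∈ B, g' ≠ g0 ∧ g' ≠ g1 := by
    by_contra hcon
    push Not at hcon
    have i1 := hcon g hg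
    have i2 := hcon r T.xB
    have i3 := hcon l T.yB
    have h3 := hG.rg1
    have h4 := hG.lg0
    have h5 : r = g0 := by by_contra h6; exact h3 (i2 h6)
    have h6 : l = g1 := i3 h4
    have h7 : g ≠ g0 := by rw [← h5]; exact hgr
    exact hgl ((i1 h7).trans h6.symm)
  obtain ⟨P, hP, hE⟩ := hG.third T' hg' h0 h1
  obtain ⟨u1, u2, hu, hu1, hu2⟩ := hE.nbs
  have hPn : P.Nodup := C'.seg_nodup (by unfold Off; simp [hP])
  -- no neighbour of x or y on P
  have key : ∀ q ∈ P, ∀ y1, (y1 = y ∨ y1 = x) → ¬ G.Adj y1 q := by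
    intro q hq y1 hy1 hadj
    have V1 : ¬ Bf P u1 q := by
      intro hb
      rcases hy1 with e | e
      · exact hG.V1 S h T hg' h0 (x1 := x) (Or.inl ⟨rfl, e⟩) h.xa hP (Or.inl hu1) hb hadj
      · exact hG.V1 S h T hg' h0 (x1 := y) (Or.inr ⟨rfl, e⟩) hya hP (Or.inl hu1) hb hadj
    have V2 : ¬ Bf P q u2 := by
      intro hb
      exact hG.V2 S h T hg' h1 hy1 hP (Or.inl hu2) hb hadj
    by_cases h3 : q = u1
    · rw [h3] at V2; exact V2 hu
    · rcases Bf.total hq hu.memL h3 with h4 | h4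
      · exact V2 (h4.trans hu hPn)
      · exact V1 h4
  rcases h2.types X P (by simp [hP]) with h3 | h3 | ⟨c', h3⟩
  · obtain ⟨p, p', h4, h5, -⟩ := h3.nbs
    exact key p h4.memL x (Or.inr rfl) h5
  · obtain ⟨p, p', h4, h5, -⟩ := h3.nbs
    exact key p h4.memL y (Or.inl rfl) h5
  · exact key c' h3.mem x (Or.inr rfl) h3.ax

end Pool.Agent.LW
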