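import Pool.Agent.LW.R5

set_option autoImplicit false

/-!
# L9, case (A)
-/

namespace Pool.Agent.LW

open SimpleGraph Classical

universe w

variable {V : Type w} {G H : SimpleGraph V} {L : Finset (Sym2 V)} {k : ℕ} {x y : V}

theorem Bd.AO (hL : ∀ e ∈ L, e ∈ G.edgeSet) {A E A' D : List V} {c a r l : V}
    {Ms : List (List V)} {B O : Set V} (h : Bd G L x y A E A' D c a r l Ms)
    (T : Gt G r l (VS (Off x y A D c a Ms)) B O) {v : V} (hv : v ∈ A') (hB : v ∉ B) :
    v ∈ O := by
  have hb := h.C.base (h.C.xy_ne hL)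
  rw [T.OO]
  refine ⟨?_, hB⟩
  intro hv'
  have h8 : (v :: (Off x y A D c a Ms).flatten).Nodup := by
    obtain ⟨E3, E4, hE3⟩ := List.append_of_mem hv
    rw [hE3] at hb
    unfold Off
    exact nodup_of_count hb (by
      intro v; simp only [List.flatten_cons, List.flatten_append, List.flatten_nil, flatten_rv,
      List.count_append, List.count_cons, List.count_reverse, List.count_nil, List.reverse_cons,
      List.reverse_append, List.append_nil, List.nil_append]; omega)
  exact (List.nodup_cons.1 h8).1 hv'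

theorem Bd.EO (hL : ∀ e ∈ L, e ∈ G.edgeSet) {A E A' D : List V} {c a r l : V}
    {Ms : List (List V)} {B O : Set V} (h : Bd G L x y A E A' D c a r l Ms)
    (T : Gt G r l (VS (Off x y A D c a Ms)) B O) {v : V} (hv : v ∈ E) (hB : v ∉ B) :
    v ∈ O := by
  have hb := h.C.base (h.C.xy_ne hL)
  rw [T.OO]
  refine ⟨?_, hB⟩
  intro hv'
  have h8 : (v :: (Off x y A D c a Ms).flatten).Nodup := by
    obtain ⟨E3, E4, hE3⟩ := List.append_of_mem hv
    rw [hE3] at hb
    unfold Off
    exact nodup_of_count hb (by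
      intro v; simp only [List.flatten_cons, List.flatten_append, List.flatten_nil, flatten_rv,
      List.count_append, List.count_cons, List.count_reverse, List.count_nil, List.reverse_cons,
      List.reverse_append, List.append_nil, List.nil_append]; omega)
  exact (List.nodup_cons.1 h8).1 hv'

/-- `x` is attached to the gate `g1` -/
theorem Bd.x_att (X : Ctx G L k) {A E A' D : List V} {c a r l : V}
    {Ms : List (List V)} {B O : Set V} (h : Bd G L x y A E A' D c a r l Ms)
    (T : Gt G r l (VS (Off x y A D c a Ms)) B O) {E1 E2 A1 A2 : List V} {g0 g1 : V}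
    (hG : Gs G x y A E A' D c a r l Ms B O E1 E2 A1 A2 g0 g1) {a1 : V} (ha1 : a1 ∈ A')
    (hxa : G.Adj x a1) : Con G O g1 x := by
  have S := X.S
  have C' := h.off S.sub
  have T' := X.tight _ _ _ _ _ C' T
  obtain ⟨lj, rj, i1, lj1, rj1, i2, i3, i4⟩ := h.C.lk
  have hA := hG.hA
  have hxB : ∀ v ∈ A', v ∉ B → v ∈ O := fun v hv hB => h.AO S.sub T hv hB
  subst hA
  have i3' : Ch G lj1 rj1 (A1 ++ g1 :: (A2 ++ a :: D)) := by simpa using i3
  simp only [List.mem_append, List.mem_cons] at ha1
  rcases ha1 with ha1 | ha1 | ha1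
  · obtain ⟨B1, B2, hB⟩ := List.append_of_mem ha1
    subst hB
    obtain ⟨F1, g2, F2, j1, j2, j3⟩ := first_mem (F := a1 :: (B2 ++ [g1])) (B := B)
      ⟨g1, by simp, hG.hg1⟩
    have j4 : Ch G lj1 g1 (B1 ++ a1 :: (B2 ++ [g1])) := by simpa using i3'.left
    have j5 : Ch G a1 g1 (F1 ++ g2 :: F2) := by rw [← j1]; exact j4.right
    have j6 : Con G O x g2 := by
      refine con_of_path (K := F1) (j5.left.cons hxa) ?_
      intro v hv
      apply hxB v _ (j3 v hv)
      have : v ∈ a1 :: (B2 ++ [g1]) := by rw [j1]; simp [hv]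
      simp only [List.mem_cons, List.mem_append, List.not_mem_nil, or_false] at this ⊢
      tauto
    have j7 : g2 = g1 := T'.same (P := x :: a :: D) (by unfold Off; simp) j2 hG.hg1
      (u := x) (v := a) (by simp) (by simp) h.xa.ne j6.symm hG.a1
    rw [← j7]; exact j6.symm
  · subst ha1
    exact Or.inl hxa.symm
  · obtain ⟨B1, B2, hB⟩ := List.append_of_mem ha1
    subst hB
    have j4 : Ch G g1 a1 (g1 :: (B1 ++ [a1])) := by
      have : Ch G lj1 rj1 (A1 ++ g1 :: (B1 ++ a1 :: (B2 ++ a :: D))) := by simpa using i3'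
      exact this.mid
    refine con_of_path (K := B1 ++ [a1]) (j4.concat hxa.symm) ?_
    intro v hv
    apply hG.A2O
    simp only [List.mem_append, List.mem_cons, List.not_mem_nil, or_false] at hv ⊢
    tauto

theorem filter_cons_le {α : Type w} (p : α → Prop) (a : α) (l : List α) :
    (l.filter (fun b => p b)).length ≤ ((a :: l).filter (fun b => p b)).length := by
  by_cases h : p a <;> simp [h]

theorem filter_mono {α : Type w} {p q : α → Prop} {l : List α} (h : ∀ a ∈ l, p a → q a) :
    (l.filter (fun b => p b)).length ≤ (l.filter (fun b => q b)).length := by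
  rw [← List.countP_eq_length_filter, ← List.countP_eq_length_filter]
  apply List.countP_mono_left
  intro a ha hp
  simp only [decide_eq_true_eq] at hp ⊢
  exact h a ha hp

/-- L9, case (A): `P_{j+1}` has the type of `x` -/
theorem Bd.twoA (X : Ctx G L k) {A E A' D : List V} {c a r l : V}
    {Ms : List (List V)} {B O : Set V} (h : Bd G L x y A E A' D c a r l Ms)
    (h2 : C2 G L x y ((A ++ c :: E) :: (A' ++ a :: D) :: Ms))
    (hS : Sg G x y ((A ++ c :: E) :: (A' ++ a :: D) :: Ms) (A ++ c :: E) c)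
    (hX : Ty G x y ((A ++ c :: E) :: (A' ++ a :: D) :: Ms) (A' ++ a :: D))
    {a1 : V} (ha1 : a1 ∈ A') (hxa : G.Adj x a1)
    (T : Gt G r l (VS (Off x y A D c a Ms)) B O) {g : V} (hg : g ∈ B) (hgr : g ≠ r)
    (hgl : g ≠ l) : False := by
  have S := X.S
  have C' := h.off S.sub
  have T' := X.tight _ _ _ _ _ C' T
  obtain ⟨E1, E2, A1, A2, g0, g1, hG⟩ := h.gs S.sub T
  have hrl : r ≠ l := C'.xy_ne S.sub
  have hxatt := h.x_att X T hG ha1 hxa
  have hex1 : Excl G B O (x :: a :: D) g1 :=
    T'.excl (by unfold Off; simp) hG.hg1 (u := x) (v := a) (by simp) (by simp) h.xa.ne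
      hxatt hG.a1
  obtain ⟨g', hg', h0, h1⟩ : ∃ g' ∈ B, g' ≠ g0 ∧ g' ≠ g1 := by
    by_contra hcon
    push Not at hcon
    have i1 := hcon g hg
    have i2 := hcon r T.xB
    have i3 := hcon l T.yB
    have h3 := hG.rg1
    have h4 := hG.lg0
    have h5 : r = g0 := by by_contra h6; exact h3 (i2 h6)
    have h6 : l = g1 := i3 h4
    have h7 : g ≠ g0 := by rw [← h5]; exact hgr
    exact hgl ((i1 h7).trans h6.symm)
  obtain ⟨P, hP, hE⟩ := hG.third T' hg' h0 h1
  obtain ⟨u1, u2, hu, hu1, hu2⟩ := hE.nbs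
  have hnd : ∀ Q ∈ Ms, Q.Nodup := fun Q hQ => C'.seg_nodup (by unfold Off; simp [hQ])
  have hone : ∀ g' ∈ B, ((Off x y A D c a Ms).filter (fun P => Excl G B O P g')).length = 1 :=
    T'.three g hg hgr hgl
  -- V1 and V2 for neighbours of y
  have V1 : ∀ g' ∈ B, g' ≠ g0 → ∀ Q ∈ Ms, ∀ u, Con G O g' u → ∀ q, G.Adj y q → ¬ Bf Q u q := by
    intro g' hg' hne Q hQ u hu q hq hb
    exact hG.V1 S h T hg' hne (x1 := x) (Or.inl ⟨rfl, rfl⟩) h.xa hQ hu hb hq
  have V2 : ∀ g' ∈ B, g' ≠ g1 → ∀ Q ∈ Ms, ∀ u, Con G O g' u → ∀ q, G.Adj y q → ¬ Bf Q q u := by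
    intro g' hg' hne Q hQ u hu q hq hb
    exact hG.V2 S h T hg' hne (Or.inl rfl) hQ hu hb hq
  have hPy : ∀ q ∈ P, ¬ G.Adj y q := by
    intro q hq hadj
    have V1' := V1 g' hg' h0 P hP u1 (Or.inl hu1) q hadj
    have V2' := V2 g' hg' h1 P hP u2 (Or.inl hu2) q hadj
    by_cases h3 : q = u1
    · rw [h3] at V2'; exact V2' hu
    · rcases Bf.total hq hu.memL h3 with h4 | h4
      · exact V2' (h4.trans hu (hnd P hP))
      · exact V1' h4
  have hPX : Ty G x y ((A ++ c :: E) :: (A' ++ a :: D) :: Ms) P := by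
    rcases h2.types X P (by simp [hP]) with h3 | h3 | ⟨c', h3⟩
    · exact h3
    · obtain ⟨p, p', h4, h5, -⟩ := h3.nbs
      exact absurd h5 (hPy p h4.memL)
    · exact absurd h3.ay (hPy c' h3.mem)
  -- all segments of the type of y are exclusive for g0
  have hY : ∀ Q ∈ Ms, Ty G y x ((A ++ c :: E) :: (A' ++ a :: D) :: Ms) Q → Excl G B O Q g0 := by
    intro Q hQ hQY
    obtain ⟨b, b', hbb, hb, hb'⟩ := hQY.nbs
    have hQn := hnd Q hQ
    rcases T'.typ Q (by unfold Off; simp [hQ]) with ⟨c', hc'⟩ | ⟨g'', hg''⟩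
    · exfalso
      have hr := (hc'.2 r T.xB).1
      have hl := (hc'.2 l T.yB).1
      have e1 : ∀ q ∈ Q, G.Adj y q → q = c' := by
        intro q hq hadj
        by_contra hne
        rcases Bf.total hq hc'.1 hne with h4 | h4
        · exact V2 r T.xB hG.rg1 Q hQ c' (Or.inl hr) q hadj h4
        · exact V1 l T.yB hG.lg0 Q hQ c' (Or.inl hl) q hadj h4
      exact hbb.ne hQn ((e1 b hbb.memL hb).trans (e1 b' hbb.memR hb').symm)
    · by_cases hgg : g'' = g0
      · rw [← hgg]; exact hg''
      · exfalso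
        obtain ⟨w1, w2, hw, hw1, hw2⟩ := hg''.nbs
        have e1 : ¬ Bf Q w1 b' := V1 g'' hg''.1 hgg Q hQ w1 (Or.inl hw1) b' hb'
        have e2 : Bf Q b w2 := by
          by_cases h4 : b' = w1
          · exact hbb.trans (by rw [h4]; exact hw) hQn
          · rcases Bf.total hbb.memR hw.memL h4 with h5 | h5
            · exact (hbb.trans h5 hQn).trans hw hQn
            · exact absurd h5 e1
        by_cases hgg1 : g'' = g1
        · subst hgg1
          have e3 : Q = x :: a :: D := by
            refine one_of_filter (hone g'' hG.hg1) ?_ ?_ hg'' hex1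
            · unfold Off; simp [hQ]
            · unfold Off; simp
          have e4 := (C'.nd)
          unfold Off at e4
          have e5 : (x :: a :: D) ∉ Ms := by
            intro e6
            obtain ⟨M1, M2, hM⟩ := List.append_of_mem e6
            rw [hM] at e4
            have : ([x] ++ [x]).Nodup := nodup_of_count e4 (by
      intro v; simp only [List.flatten_cons, List.flatten_append, List.flatten_nil, flatten_rv,
      List.count_append, List.count_cons, List.count_reverse, List.count_nil, List.reverse_cons,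
      List.reverse_append, List.append_nil, List.nil_append]; omega)
            simp at this
          rw [e3] at hQ
          exact e5 hQ
        · exact V2 g'' hg''.1 hgg1 Q hQ w2 (Or.inl hw2) b hb e2
  -- counting
  have k1 := h2.count X
  have k2 : (Ms.filter (fun Q => Ty G y x ((A ++ c :: E) :: (A' ++ a :: D) :: Ms) Q)).length ≤
      (Ms.filter (fun Q => Excl G B O Q g0)).length := filter_mono hY
  have k3 : (Ms.filter (fun Q => Excl G B O Q g0)).length ≤ 1 := by
    rw [← hone g0 hG.hg0]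
    exact (filter_cons_le _ _ _).trans (filter_cons_le _ _ _)
  have k4 : 1 ≤ (Ms.filter
      (fun Q => Ty G x y ((A ++ c :: E) :: (A' ++ a :: D) :: Ms) Q)).length := by
    apply List.length_pos_of_mem (a := P)
    simp [hP, hPX]
  have k5 : ¬ Ty G y x ((A ++ c :: E) :: (A' ++ a :: D) :: Ms) (A ++ c :: E) :=
    fun h' => h'.not_Sg hS.swap
  have k6 : ¬ Ty G y x ((A ++ c :: E) :: (A' ++ a :: D) :: Ms) (A' ++ a :: D) :=
    fun h' => hX.not_Ty h'
  have k7 : ¬ Ty G x y ((A ++ c :: E) :: (A' ++ a :: D) :: Ms) (A ++ c :: E) :=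
    fun h' => h'.not_Sg hS
  simp only [List.filter_cons, k5, k6, k7, hX, decide_false, decide_true, if_false, if_true,
    Bool.false_eq_true, List.length_cons] at k1
  omega

end Pool.Agent.LW
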