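import Pool.Agent.LW.R6

set_option autoImplicit false

/-!
# Symmetries of configurations with two gates; L9 in final form
-/

namespace Pool.Agent.LW

open SimpleGraph Classical

universe w

variable {V : Type w} {G H : SimpleGraph V} {L : Finset (Sym2 V)} {k : ℕ} {x y : V}

theorem OV_congr {Ps Qs : List (List V)} (h : ∀ v, v ∈ Ps.flatten ↔ v ∈ Qs.flatten) :
    OV x y Ps = OV x y Qs := by
  ext v
  simp only [OV, Set.mem_ofPred_eq, h]

theorem VS_congr {Ps Qs : List (List V)} (h : ∀ v, v ∈ Ps.flatten ↔ v ∈ Qs.flatten) :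
    VS Ps = VS Qs := by
  ext v
  simp only [VS, Set.mem_ofPred_eq, h]

theorem Ty.rCongr {Ps Qs : List (List V)} {P : List V} (h : Ty G x y Ps P)
    (hv : ∀ v, v ∈ Ps.flatten ↔ v ∈ Qs.flatten) : Ty G x y Qs P := by
  have e := OV_congr (x := x) (y := y) hv
  refine ⟨?_, ?_⟩
  · rw [← e]; exact h.nb
  · rw [← e]; exact h.no

theorem Ty.rRev {Ps : List (List V)} {P : List V} (h : Ty G x y Ps P) :
    Ty G x y Ps P.reverse := by
  obtain ⟨A, a, M, b, D, h1, h2, h3, h4⟩ := h.nb
  refine ⟨⟨D.reverse, b, M.reverse, a, A.reverse, by rw [h1]; simp, h3, h2, ?_⟩, ?_⟩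
  · intro v hv hc
    have := h4 v (List.mem_reverse.1 hv) hc
    simp only [List.mem_cons, List.mem_append, List.mem_reverse, List.not_mem_nil,
      or_false] at this ⊢
    tauto
  · intro v hv
    exact h.no v (List.mem_reverse.1 hv)

theorem Sg.congr {Ps Qs : List (List V)} {P : List V} {c : V} (h : Sg G x y Ps P c)
    (hv : ∀ v, v ∈ Ps.flatten ↔ v ∈ Qs.flatten) : Sg G x y Qs P c := by
  have e := OV_congr (x := x) (y := y) hv
  refine ⟨h.mem, h.ax, h.ay, ?_, ?_⟩
  · rw [← e]; exact h.ux
  · rw [← e]; exact h.uy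

theorem Sg.rev {Ps : List (List V)} {P : List V} {c : V} (h : Sg G x y Ps P c) :
    Sg G x y Ps P.reverse c :=
  ⟨List.mem_reverse.2 h.mem, h.ax, h.ay, fun v hv => h.ux v (List.mem_reverse.1 hv),
    fun v hv => h.uy v (List.mem_reverse.1 hv)⟩

theorem Ty.rRev_iff {Ps : List (List V)} {P : List V} :
    Ty G x y Ps P.reverse ↔ Ty G x y Ps P := by
  constructor
  · intro h
    have := h.rRev
    rwa [List.reverse_reverse] at this
  · exact Ty.rRev

theorem mem_flatten_rv {Ps : List (List V)} (v : V) : v ∈ (rv Ps).flatten ↔ v ∈ Ps.flatten := by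
  rw [flatten_rv, List.mem_reverse]

theorem mem_flatten_rot {A D : List (List V)} (v : V) :
    v ∈ (A ++ D).flatten ↔ v ∈ (D ++ A).flatten := (flatten_append_comm_perm A D).mem_iff

theorem C2.rot {A D : List (List V)} (h : C2 G L x y (A ++ D)) : C2 G L x y (D ++ A) := by
  refine ⟨h.C.rot, ?_⟩
  rw [VS_congr (mem_flatten_rot (A := D) (D := A)), OV_congr (mem_flatten_rot (A := D) (D := A))]
  exact h.T

theorem C2.rev {Ps : List (List V)} (h : C2 G L x y Ps) : C2 G L x y (rv Ps) := by
  refine ⟨h.C.rev, ?_⟩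
  rw [VS_congr mem_flatten_rv, OV_congr mem_flatten_rv]
  exact h.T

/-- number of segments with the type of `x` -/
noncomputable def nT (G : SimpleGraph V) (x y : V) (Ps : List (List V)) : ℕ :=
  (Ps.filter (fun P => Ty G x y Ps P)).length

theorem nT_rot {A D : List (List V)} : nT G x y (D ++ A) = nT G x y (A ++ D) := by
  unfold nT
  have h1 : (fun P => decide (Ty G x y (D ++ A) P)) = (fun P => decide (Ty G x y (A ++ D) P)) := by
    funext P
    congr 1
    exact propext ⟨fun h => h.rCongr mem_flatten_rot, fun h => h.rCongr mem_flatten_rot⟩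
  rw [h1]
  simp only [List.filter_append, List.length_append]
  omega

theorem nT_rv {Ps : List (List V)} : nT G x y (rv Ps) = nT G x y Ps := by
  unfold nT
  have h1 : (fun P => decide (Ty G x y (rv Ps) P)) = (fun P => decide (Ty G x y Ps P)) := by
    funext P
    congr 1
    exact propext ⟨fun h => h.rCongr mem_flatten_rv, fun h => h.rCongr (fun v => (mem_flatten_rv v).symm)⟩
  rw [h1]
  unfold rv
  rw [List.filter_reverse, List.length_reverse, List.filter_map, List.length_map]
  congr 2
  funext P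
  simp only [Function.comp_apply]
  congr 1
  exact propext Ty.rRev_iff

theorem C2.nT_eq (X : Ctx G L k) {Ps : List (List V)} (h : C2 G L x y Ps) :
    nT G x y Ps = nT G y x Ps := h.count X

theorem gt_two {Ps : List (List V)} {B O : Set V} (T : Gt G x y (VS Ps) B O)
    (hB : ∀ g ∈ B, g = x ∨ g = y) : Gt G x y (VS Ps) {x, y} (OV x y Ps) := by
  have h1 : B = {x, y} := by
    ext g
    constructor
    · intro hg
      have := hB g hg
      simpa using this
    · intro hg
      rcases hg with hg | hg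
      · rw [hg]; exact T.xB
      · rw [Set.mem_singleton_iff] at hg
        rw [hg]; exact T.yB
  have h2 : O = OV x y Ps := by
    ext v
    rw [T.OO, h1]
    simp only [VS, OV, Set.mem_ofPred_eq, Set.mem_insert_iff, Set.mem_singleton_iff, not_or]
  rw [← h1, ← h2]
  exact T

/-- the boundary data together with the types of the two segments -/
structure Bt (G : SimpleGraph V) (L : Finset (Sym2 V)) (x y : V) (A E A' D : List V)
    (c a r l : V) (Ms : List (List V)) : Prop where
  bd : Bd G L x y A E A' D c a r l Ms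
  c2 : C2 G L x y ((A ++ c :: E) :: (A' ++ a :: D) :: Ms)
  sg : Sg G x y ((A ++ c :: E) :: (A' ++ a :: D) :: Ms) (A ++ c :: E) c
  or : (Ty G x y ((A ++ c :: E) :: (A' ++ a :: D) :: Ms) (A' ++ a :: D) ∧
      ∃ a1 ∈ A', G.Adj x a1) ∨
    Sg G x y ((A ++ c :: E) :: (A' ++ a :: D) :: Ms) (A' ++ a :: D) a

/-- L9 -/
theorem Bt.nine (X : Ctx G L k) {A E A' D : List V} {c a r l : V} {Ms : List (List V)}
    (h : Bt G L x y A E A' D c a r l Ms) : C2 G L r l (Off x y A D c a Ms) := by
  have C' := h.bd.off X.S.sub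
  obtain ⟨B, O, T⟩ := X.gt _ _ _ C'
  refine ⟨C', gt_two T ?_⟩
  intro g hg
  by_contra hcon
  push Not at hcon
  rcases h.or with ⟨h1, a1, h2, h3⟩ | h1
  · exact h.bd.twoA X h.c2 h.sg h1 h2 h3 T hg hcon.1 hcon.2
  · exact h.bd.twoB X h.c2 h1.ay T hg hcon.1 hcon.2

end Pool.Agent.LW
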