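import Pool.Agent.LW.R7

set_option autoImplicit false

/-!
# L10: rules at an off-able boundary
-/

namespace Pool.Agent.LW

open SimpleGraph Classical

universe w

variable {V : Type w} {G H : SimpleGraph V} {L : Finset (Sym2 V)} {k : ℕ} {x y : V}

theorem not_mem_of_count {F B : List V} (hB : B.Nodup) {v : V}
    (h : F.count v + 1 ≤ B.count v) : v ∉ F := by
  intro hv
  have h1 := List.count_pos_iff.2 hv
  have h2 := List.nodup_iff_count_le_one.1 hB v
  omega

theorem Bd.seg_ne {A E A' D : List V} {c a r l : V} {Ms : List (List V)}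
    (h : Bd G L x y A E A' D c a r l Ms) {P : List V} (hP : P ∈ Ms) :
    A ++ c :: E ≠ P ∧ A' ++ a :: D ≠ P := by
  obtain ⟨Ms1, Ms2, hMs⟩ := List.append_of_mem hP
  have hn := h.C.nd
  constructor
  · intro hP'
    rw [hMs, ← hP'] at hn
    have : ([c] ++ [c]).Nodup := nodup_of_count hn (by
      intro v; simp only [List.flatten_cons, List.flatten_append, List.flatten_nil, flatten_rv,
      List.count_append, List.count_cons, List.count_reverse, List.count_nil, List.reverse_cons,
      List.reverse_append, List.append_nil, List.nil_append]; omega)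
    simp at this
  · intro hP'
    rw [hMs, ← hP'] at hn
    have : ([a] ++ [a]).Nodup := nodup_of_count hn (by
      intro v; simp only [List.flatten_cons, List.flatten_append, List.flatten_nil, flatten_rv,
      List.count_append, List.count_cons, List.count_reverse, List.count_nil, List.reverse_cons,
      List.reverse_append, List.append_nil, List.nil_append]; omega)
    simp at this

/-- (R): no neighbour of `x` or `y` before a neighbour of `r` -/
theorem Bd.Rr (S : Bs G L k) {A E A' D : List V} {c a r l w q y1 : V} {Ms : List (List V)}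
    {P : List V} (h : Bd G L x y A E A' D c a r l Ms) (hP : P ∈ Ms) (hw : G.Adj r w)
    (hb : Bf P q w) (hy1 : y1 = y ∨ y1 = x) (hq : G.Adj y1 q) : False := by
  have h1 := (h.seg_ne hP).1
  have h2 : Bf (A ++ c :: E) c r := Bf.of_right (List.mem_of_getLast? h.hr)
  rcases hy1 with e | e
  · subst e
    exact rpp S h.C (O := ∅) (by simp) (by simp [hP]) h1 h2 h.cx hb hq (Or.inl hw) (by simp)
  · subst e
    exact rpp S h.C.swap (O := ∅) (by simp) (by simp [hP]) h1 h2 h.cy hb hq (Or.inl hw) (by simp)

/-- (L): no neighbour of `y1` after a neighbour of `l` -/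
theorem Bd.Lr (S : Bs G L k) {A E A' D : List V} {c a r l w q x1 y1 : V} {Ms : List (List V)}
    {P : List V} (h : Bd G L x y A E A' D c a r l Ms) (hP : P ∈ Ms) (hw : G.Adj l w)
    (hb : Bf P w q) (hxy : (x1 = x ∧ y1 = y) ∨ (x1 = y ∧ y1 = x)) (ha : G.Adj x1 a)
    (hq : G.Adj y1 q) : False := by
  have h1 := (h.seg_ne hP).2
  have h2 : Bf (A' ++ a :: D) l a := Bf.of_left (List.mem_of_head? h.hl)
  rcases hxy with ⟨e1, e2⟩ | ⟨e1, e2⟩
  · subst e1; subst e2
    exact rmm S h.C (O := ∅) (by simp) (by simp [hP]) h1 h2 ha hb hq (Or.inl hw) (by simp)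
  · subst e1; subst e2
    exact rmm S h.C.swap (O := ∅) (by simp) (by simp [hP]) h1 h2 ha hb hq (Or.inl hw) (by simp)

/-- the full cycle ALPHA: `y q → .. → c l r u ← .. ← a x y` -/
theorem Bd.alpha (S : Bs G L k) {A E A' D : List V} {c a r l u q x1 y1 : V}
    {Ms : List (List V)} {P : List V} (h : Bd G L x y A E A' D c a r l Ms) (hP : P ∈ Ms)
    (hlc : G.Adj l c) (hu : G.Adj r u) (hb : Bf P u q)
    (hxy : (x1 = x ∧ y1 = y) ∨ (x1 = y ∧ y1 = x)) (ha : G.Adj x1 a) (hq : G.Adj y1 q) :
    False := by
  obtain ⟨Ms1, Ms2, hMs⟩ := List.append_of_mem hP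
  subst hMs
  obtain ⟨P1, P2, P3, hP'⟩ := hb.split
  subst hP'
  have hL := S.sub
  have C := h.C
  have C' := h.off hL
  have hb := C'.base (C'.xy_ne hL)
  obtain ⟨lj, rj, h1, lj1, rj1, h2, h3, h4⟩ := C.lk
  obtain ⟨lm, rm, h5, h6, h7⟩ := h4.split
  have hx1 : s(x1, y1) ∈ L := by
    rcases hxy with ⟨h8, h9⟩ | ⟨h8, h9⟩
    · rw [h8, h9]; exact C.xy
    · rw [h8, h9]; exact C.swap.xy
  have hlr : s(l, r) ∈ L := C'.swap.xy
  have hlr' : G.Adj l r := by have := hL _ hlr; rwa [mem_edgeSet] at this
  refine rawV1 S h1.left h3.right h5 h6 h7 hx1 hq ha (E := []) (g0 := l) (g' := r) (K := [])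
    (F1 := []) (F2 := []) (Ch.edge hlc.symm) (Ch.edge hlr') hlr (Ch.edge hu) ?_ ?_ ?_ ?_
  · unfold Off at hb
    rcases hxy with ⟨h8, h9⟩ | ⟨h8, h9⟩
    · subst h8; subst h9
      exact nodup_of_count hb (by
      intro v; simp only [List.flatten_cons, List.flatten_append, List.flatten_nil, flatten_rv,
      List.count_append, List.count_cons, List.count_reverse, List.count_nil, List.reverse_cons,
      List.reverse_append, List.append_nil, List.nil_append]; omega)
    · subst h8; subst h9
      exact nodup_of_count hb (by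
      intro v; simp only [List.flatten_cons, List.flatten_append, List.flatten_nil, flatten_rv,
      List.count_append, List.count_cons, List.count_reverse, List.count_nil, List.reverse_cons,
      List.reverse_append, List.append_nil, List.nil_append]; omega)
  · have := C.two
    simp only [two_cons, two_append] at this
    exact this.2.2.1
  · have := C.two
    simp only [two_cons, two_append] at this
    exact this.2.2.2.2
  · have hlen := C.card
    simp only [List.length_append, List.length_cons, List.length_nil, length_rv] at hlen ⊢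
    omega

/-- the mirror image of ALPHA: `y q ← .. ← a r l u → .. → c x y` -/
theorem Bd.alpha' (S : Bs G L k) {A E A' D : List V} {c a r l u q x1 y1 : V}
    {Ms : List (List V)} {P : List V} (h : Bd G L x y A E A' D c a r l Ms) (hP : P ∈ Ms)
    (hra : G.Adj r a) (hu : G.Adj l u) (hb : Bf P q u)
    (hxy : (x1 = x ∧ y1 = y) ∨ (x1 = y ∧ y1 = x)) (hq : G.Adj y1 q) : False := by
  obtain ⟨Ms1, Ms2, hMs⟩ := List.append_of_mem hP
  subst hMs
  obtain ⟨P1, P2, P3, hP'⟩ := hb.split
  subst hP'
  have hL := S.sub
  have C := h.C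
  have C' := h.off hL
  have hb := C'.base (C'.xy_ne hL)
  obtain ⟨lj, rj, h1, lj1, rj1, h2, h3, h4⟩ := C.lk
  obtain ⟨lm, rm, h5, h6, h7⟩ := h4.split
  have hx1 : s(x1, y1) ∈ L := by
    rcases hxy with ⟨h8, h9⟩ | ⟨h8, h9⟩
    · rw [h8, h9]; exact C.xy
    · rw [h8, h9]; exact C.swap.xy
  have hxc : G.Adj x1 c := by
    rcases hxy with ⟨h8, h9⟩ | ⟨h8, h9⟩
    · rw [h8]; exact h.cx
    · rw [h8]; exact h.cy
  have hrl : s(r, l) ∈ L := C'.xy
  have hrl' : G.Adj r l := by have := hL _ hrl; rwa [mem_edgeSet] at this
  have i1 : Ch G rj1 a (D.reverse ++ [a]) := by simpa using h3.right.reverse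
  have i2 : Ch G c lj (c :: A.reverse) := by simpa using h1.left.reverse
  have i3 : Ch G rm lm (P3.reverse ++ u :: (P2.reverse ++ q :: P1.reverse)) := by
    simpa using h6.reverse
  refine rawV1 S i1 i2 h7.rev i3 h5.rev hx1 hq hxc (E := []) (g0 := r) (g' := l) (K := [])
    (F1 := []) (F2 := []) (Ch.edge hra.symm) (Ch.edge hrl') hrl (Ch.edge hu) ?_ ?_ ?_ ?_
  · unfold Off at hb
    rcases hxy with ⟨h8, h9⟩ | ⟨h8, h9⟩
    · subst h8; subst h9
      exact nodup_of_count hb (by
      intro v; simp only [List.flatten_cons, List.flatten_append, List.flatten_nil, flatten_rv,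
      List.count_append, List.count_cons, List.count_reverse, List.count_nil, List.reverse_cons,
      List.reverse_append, List.append_nil, List.nil_append]; omega)
    · subst h8; subst h9
      exact nodup_of_count hb (by
      intro v; simp only [List.flatten_cons, List.flatten_append, List.flatten_nil, flatten_rv,
      List.count_append, List.count_cons, List.count_reverse, List.count_nil, List.reverse_cons,
      List.reverse_append, List.append_nil, List.nil_append]; omega)
  · have := C.two
    simp only [two_cons, two_append] at this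
    exact two_rv.2 this.2.2.2.2
  · have := C.two
    simp only [two_cons, two_append] at this
    exact two_rv.2 this.2.2.1
  · have hlen := C.card
    simp only [List.length_append, List.length_cons, List.length_nil, length_rv] at hlen ⊢
    omega

/-- the attachments of `r`, `l`, `x` on the new configuration -/
theorem Bt.att (X : Ctx G L k) {A E A' D : List V} {c a r l : V} {Ms : List (List V)}
    (h : Bt G L x y A E A' D c a r l Ms) :
    Con G (OV r l (Off x y A D c a Ms)) r c ∧ Con G (OV r l (Off x y A D c a Ms)) l a ∧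
      ((∃ a1 ∈ A', G.Adj x a1) → Con G (OV r l (Off x y A D c a Ms)) l x) := by
  have h3 := h.nine X
  obtain ⟨E1, E2, A1, A2, g0, g1, hG⟩ := h.bd.gs X.S.sub h3.T
  have e0 : g0 = r := by
    rcases hG.hg0 with e | e
    · exact e
    · rw [Set.mem_singleton_iff] at e
      exact absurd e.symm hG.lg0
  have e1 : g1 = l := by
    rcases hG.hg1 with e | e
    · exact absurd e.symm hG.rg1
    · rwa [Set.mem_singleton_iff] at e
  refine ⟨by have := hG.c0; rwa [e0] at this, by have := hG.a1; rwa [e1] at this, ?_⟩
  rintro ⟨a1, h4, h5⟩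
  have := h.bd.x_att X h3.T hG h4 h5
  rwa [e1] at this

end Pool.Agent.LW
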