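import Pool.Agent.LW.R8

set_option autoImplicit false

/-!
# L10: `s = 1` and `s' ≥ 2`
-/

namespace Pool.Agent.LW

open SimpleGraph Classical

universe w

variable {V : Type w} {G H : SimpleGraph V} {L : Finset (Sym2 V)} {k : ℕ} {x y : V}

theorem Bt.segL (X : Ctx G L k) {A E A' D : List V} {c a r l : V} {Ms : List (List V)}
    (h : Bt G L x y A E A' D c a r l Ms) :
    Ty G r l (Off x y A D c a Ms) (A ++ [c, y]) ∨
      Sg G r l (Off x y A D c a Ms) (A ++ [c, y]) c := by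
  have h3 := h.nine X
  have h4 := (h.att X).1
  rcases h3.types X (A ++ [c, y]) (by unfold Off; simp) with h5 | h5 | ⟨c', h5⟩
  · exact Or.inl h5
  · refine absurd ?_ (h5.no c (by simp))
    rw [OVs l r]; exact h4
  · right
    have : c = c' := h5.ux c (by simp) h4
    rw [← this] at h5
    exact h5

theorem Bt.segR (X : Ctx G L k) {A E A' D : List V} {c a r l : V} {Ms : List (List V)}
    (h : Bt G L x y A E A' D c a r l Ms) :
    Ty G l r (Off x y A D c a Ms) (x :: a :: D) ∨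
      Sg G r l (Off x y A D c a Ms) (x :: a :: D) a := by
  have h3 := h.nine X
  have h4 := (h.att X).2.1
  rcases h3.types X (x :: a :: D) (by unfold Off; simp) with h5 | h5 | ⟨c', h5⟩
  · exact absurd h4 (h5.no a (by simp))
  · exact Or.inl h5
  · right
    have : a = c' := h5.uy a (by simp) h4
    rw [← this] at h5
    exact h5

/-- a segment with a neighbour `y1`-pair `b < b'` has no neighbour of `r` if `l ~ c` -/
theorem Bt.noR (X : Ctx G L k) {A E A' D : List V} {c a r l x1 y1 : V} {Ms : List (List V)}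
    (h : Bt G L x y A E A' D c a r l Ms) (hlc : G.Adj l c)
    (hxy : (x1 = x ∧ y1 = y) ∨ (x1 = y ∧ y1 = x)) (ha : G.Adj x1 a) {P : List V} (hP : P ∈ Ms)
    {w q : V} (hw : w ∈ P) (hrw : G.Adj r w) (hq : q ∈ P) (hyq : G.Adj y1 q) : w = q := by
  by_contra hne
  rcases Bf.total hw hq hne with h1 | h1
  · exact h.bd.alpha X.S hP hlc hrw h1 hxy ha hyq
  · refine h.bd.Rr X.S hP hrw h1 ?_ hyq
    rcases hxy with ⟨-, e⟩ | ⟨-, e⟩
    · exact Or.inl e
    · exact Or.inr e

/-- the mirror image: no neighbour of `l` if `r ~ a` -/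
theorem Bt.noL (X : Ctx G L k) {A E A' D : List V} {c a r l x1 y1 : V} {Ms : List (List V)}
    (h : Bt G L x y A E A' D c a r l Ms) (hra : G.Adj r a)
    (hxy : (x1 = x ∧ y1 = y) ∨ (x1 = y ∧ y1 = x)) (ha : G.Adj x1 a) {P : List V} (hP : P ∈ Ms)
    {w q : V} (hw : w ∈ P) (hlw : G.Adj l w) (hq : q ∈ P) (hyq : G.Adj y1 q) : w = q := by
  by_contra hne
  rcases Bf.total hw hq hne with h1 | h1
  · exact h.bd.Lr X.S hP hlw h1 hxy ha hyq
  · exact h.bd.alpha' X.S hP hra hlw h1 hxy hyq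

/-- L10, case (A): `P'_j` is no segment with a centre -/
theorem Bt.tenA (X : Ctx G L k) {A E A' D : List V} {c a r l : V} {Ms : List (List V)}
    (h : Bt G L x y A E A' D c a r l Ms)
    (hX : Ty G x y ((A ++ c :: E) :: (A' ++ a :: D) :: Ms) (A' ++ a :: D))
    (ha1 : ∃ a1 ∈ A', G.Adj x a1) :
    ¬ Sg G r l (Off x y A D c a Ms) (A ++ [c, y]) c := by
  intro hSg
  have h3 := h.nine X
  obtain ⟨h4, h5, h6⟩ := h.att X
  have hlx := h6 ha1
  have hlc := hSg.ay
  -- P'_{j+1} has the type of l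
  have e1 : Ty G l r (Off x y A D c a Ms) (x :: a :: D) := by
    rcases h.segR X with e | e
    · exact e
    · exact absurd (e.uy x (by simp) hlx) h.bd.xa.ne
  -- Y-segments have the type of l
  have e2 : ∀ P ∈ Ms, Ty G y x ((A ++ c :: E) :: (A' ++ a :: D) :: Ms) P →
      Ty G l r (Off x y A D c a Ms) P := by
    intro P hP hPY
    obtain ⟨b, b', hbb, hb, hb'⟩ := hPY.nbs
    have hPn : P.Nodup := h3.C.seg_nodup (by unfold Off; simp [hP])
    have e3 : ∀ w ∈ P, ¬ G.Adj r w := by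
      intro w hw hrw
      have i1 := h.noR X hlc (Or.inl ⟨rfl, rfl⟩) h.bd.xa hP hw hrw hbb.memL hb
      have i2 := h.noR X hlc (Or.inl ⟨rfl, rfl⟩) h.bd.xa hP hw hrw hbb.memR hb'
      exact hbb.ne hPn (i1.symm.trans i2)
    rcases h3.types X P (by unfold Off; simp [hP]) with i | i | ⟨c', i⟩
    · obtain ⟨w, w', i1, i2, -⟩ := i.nbs
      exact absurd i2 (e3 w i1.memL)
    · exact i
    · exact absurd i.ax (e3 c' i.mem)
  -- segments with the type of r have the type of x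
  have e3 : ∀ P ∈ Ms, Ty G r l (Off x y A D c a Ms) P →
      Ty G x y ((A ++ c :: E) :: (A' ++ a :: D) :: Ms) P := by
    intro P hP hPr
    have hPn : P.Nodup := h3.C.seg_nodup (by unfold Off; simp [hP])
    obtain ⟨w, w', i1, i2, i3⟩ := hPr.nbs
    rcases h.c2.types X P (by simp [hP]) with i | i | ⟨c', i⟩
    · exact i
    · exact (hPr.not_Ty (e2 P hP i)).elim
    · exfalso
      have j1 := h.noR X hlc (Or.inl ⟨rfl, rfl⟩) h.bd.xa hP i1.memL i2 i.mem i.ay
      have j2 := h.noR X hlc (Or.inl ⟨rfl, rfl⟩) h.bd.xa hP i1.memR i3 i.mem i.ay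
      exact i1.ne hPn (j1.trans j2.symm)
  have k1 := h.c2.count X
  have k2 := h3.count X
  have k3 := filter_mono e2
  have k4 := filter_mono e3
  have k5 : ¬ Ty G y x ((A ++ c :: E) :: (A' ++ a :: D) :: Ms) (A ++ c :: E) :=
    fun h' => h'.not_Sg h.sg.swap
  have k6 : ¬ Ty G y x ((A ++ c :: E) :: (A' ++ a :: D) :: Ms) (A' ++ a :: D) :=
    fun h' => hX.not_Ty h'
  have k7 : ¬ Ty G x y ((A ++ c :: E) :: (A' ++ a :: D) :: Ms) (A ++ c :: E) :=
    fun h' => h'.not_Sg h.sg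
  have k8 : ¬ Ty G r l (Off x y A D c a Ms) (A ++ [c, y]) := fun h' => h'.not_Sg hSg
  have k9 : ¬ Ty G l r (Off x y A D c a Ms) (A ++ [c, y]) := fun h' => h'.not_Sg hSg.swap
  have k10 : ¬ Ty G r l (Off x y A D c a Ms) (x :: a :: D) := fun h' => h'.not_Ty e1
  simp only [List.filter_cons, k5, k6, k7, hX, decide_false, decide_true, if_false, if_true,
    Bool.false_eq_true, List.length_cons] at k1
  have k11 : Off x y A D c a Ms = (A ++ [c, y]) :: (x :: a :: D) :: Ms := rfl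
  rw [k11] at k2 k8 k9 k10 e1 k3 k4
  simp only [List.filter_cons, k8, k9, k10, e1, decide_false, decide_true, if_false, if_true,
    Bool.false_eq_true, List.length_cons] at k2
  omega

/-- L10, case (B): not both `P'_j` and `P'_{j+1}` have a centre -/
theorem Bt.tenB (X : Ctx G L k) {A E A' D : List V} {c a r l : V} {Ms : List (List V)}
    (h : Bt G L x y A E A' D c a r l Ms)
    (hX : Sg G x y ((A ++ c :: E) :: (A' ++ a :: D) :: Ms) (A' ++ a :: D) a)
    (h1 : Sg G r l (Off x y A D c a Ms) (A ++ [c, y]) c)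
    (h2 : Sg G r l (Off x y A D c a Ms) (x :: a :: D) a) : False := by
  have h3 := h.nine X
  obtain ⟨P, hP, hPX⟩ := h.c2.exX X
  have hPM : P ∈ Ms := by
    simp only [List.mem_cons] at hP
    rcases hP with e | e | e
    · rw [e] at hPX; exact (hPX.not_Sg h.sg).elim
    · rw [e] at hPX; exact (hPX.not_Sg hX).elim
    · exact e
  have hPn : P.Nodup := h3.C.seg_nodup (by unfold Off; simp [hPM])
  obtain ⟨q, q', hqq, hq, hq'⟩ := hPX.nbs
  have e1 : ∀ w ∈ P, ¬ G.Adj r w := by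
    intro w hw hrw
    have i1 := h.noR X h1.ay (Or.inr ⟨rfl, rfl⟩) hX.ay hPM hw hrw hqq.memL hq
    have i2 := h.noR X h1.ay (Or.inr ⟨rfl, rfl⟩) hX.ay hPM hw hrw hqq.memR hq'
    exact hqq.ne hPn (i1.symm.trans i2)
  have e2 : ∀ w ∈ P, ¬ G.Adj l w := by
    intro w hw hrw
    have i1 := h.noL X h2.ax (Or.inr ⟨rfl, rfl⟩) hX.ay hPM hw hrw hqq.memL hq
    have i2 := h.noL X h2.ax (Or.inr ⟨rfl, rfl⟩) hX.ay hPM hw hrw hqq.memR hq'
    exact hqq.ne hPn (i1.symm.trans i2)
  rcases h3.types X P (by unfold Off; simp [hPM]) with i | i | ⟨c', i⟩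
  · obtain ⟨w, w', i1, i2, -⟩ := i.nbs
    exact e1 w i1.memL i2
  · obtain ⟨w, w', i1, i2, -⟩ := i.nbs
    exact e2 w i1.memL i2
  · exact e1 c' i.mem i.ax

end Pool.Agent.LW
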