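import Pool.Agent.LW.R13

set_option autoImplicit false

/-!
# Theorem H, claims 1 - 3
-/

namespace Pool.Agent.LW

open SimpleGraph Classical

universe w

variable {V : Type w} {G H : SimpleGraph V} {L : Finset (Sym2 V)} {k : ℕ} {x y : V}

theorem Bt.noSg (X : Ctx G L k) {A E A' D : List V} {c a r l : V} {Ms : List (List V)}
    (h : Bt G L x y A E A' D c a r l Ms) :
    ¬ ∃ P ∈ Off x y A D c a Ms, ∃ c', Sg G r l (Off x y A D c a Ms) P c' := by
  intro hS
  have h1 := ((h.nine X).ten X hS).1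
  have h2 := (h.ten X).2
  omega

theorem Bt.tyL (X : Ctx G L k) {A E A' D : List V} {c a r l : V} {Ms : List (List V)}
    (h : Bt G L x y A E A' D c a r l Ms) : Ty G r l (Off x y A D c a Ms) (A ++ [c, y]) := by
  rcases h.segL X with e | e
  · exact e
  · exact absurd ⟨A ++ [c, y], by unfold Off; simp, c, e⟩ (h.noSg X)

theorem Bt.tyR (X : Ctx G L k) {A E A' D : List V} {c a r l : V} {Ms : List (List V)}
    (h : Bt G L x y A E A' D c a r l Ms) : Ty G l r (Off x y A D c a Ms) (x :: a :: D) := by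
  rcases h.segR X with e | e
  · exact e
  · exact absurd ⟨x :: a :: D, by unfold Off; simp, a, e⟩ (h.noSg X)

/-- claim 1 (a): `r ~ c` and `r ~ z` for some `z` before `c` -/
theorem Bt.rc (X : Ctx G L k) {A E A' D : List V} {c a r l : V} {Ms : List (List V)}
    (h : Bt G L x y A E A' D c a r l Ms) : G.Adj r c ∧ ∃ z ∈ A, G.Adj r z := by
  refine ⟨?_, h.nbsL X (h.tyL X)⟩
  have C' := h.bd.off X.S.sub
  have hn : (A ++ [c, y]).Nodup := C'.seg_nodup (by unfold Off; simp)
  obtain ⟨A1, a1, M, b, D1, h1, h2, h3, h4⟩ := (h.tyL X).nb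
  have h5 := h4 c (by simp) (h.att X).1
  have h6 : b ≠ y := by intro e; rw [e] at h3; exact h.r_y.1 h3
  by_cases h7 : b = c
  · rw [← h7]; exact h3
  · exfalso
    have h8 : c ∈ a1 :: M := by
      simp only [List.mem_cons, List.mem_append, List.not_mem_nil, or_false] at h5 ⊢
      rcases h5 with e | e | e
      · exact Or.inl e
      · exact Or.inr e
      · exact absurd e.symm h7
    -- b comes after c on A ++ [c, y]
    have h9 : Bf (A ++ c :: [y]) c b := by
      have e : A ++ c :: [y] = (A1 ++ a1 :: M) ++ b :: D1 := by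
        rw [h1]; simp
      rw [e]
      refine Bf.of_left ?_
      simp only [List.mem_append, List.mem_cons] at h8 ⊢
      tauto
    have h10 := h9.mem_right hn
    simp at h10
    exact h6 h10

/-- claim 1 (b): in case (A), `l ~ x` -/
theorem Bt.lx (X : Ctx G L k) {A E A' D : List V} {c a r l : V} {Ms : List (List V)}
    (h : Bt G L x y A E A' D c a r l Ms) (hA : ∃ a1 ∈ A', G.Adj x a1) : G.Adj l x := by
  have C' := h.bd.off X.S.sub
  have hn : (x :: a :: D).Nodup := C'.seg_nodup (by unfold Off; simp)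
  obtain ⟨A1, a1, M, b, D1, h1, h2, h3, h4⟩ := (h.tyR X).nb
  have h5 := h4 x (by simp) (by rw [OVs l r]; exact (h.att X).2.2 hA)
  cases A1 with
  | nil =>
    simp only [List.nil_append, List.cons.injEq] at h1
    rw [h1.1]; exact h2
  | cons p A1 =>
    exfalso
    simp only [List.cons_append, List.cons.injEq] at h1
    rw [List.nodup_cons, h1.2] at hn
    apply hn.1
    simp only [List.mem_append, List.mem_cons, List.not_mem_nil, or_false] at h5 ⊢
    tauto

/-- an off-able boundary in case (A) -/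
theorem mk_btA (X : Ctx G L k) {P Q : List V} {Ms : List (List V)} {c : V}
    (h : C2 G L x y (P :: Q :: Ms)) (hP : Sg G x y (P :: Q :: Ms) P c)
    (hc : P.getLast? ≠ some c) (hQ : Ty G x y (P :: Q :: Ms) Q) :
    ∃ A E A' D a r l, Bt G L x y A E A' D c a r l Ms ∧ P = A ++ c :: E ∧
      Q = A' ++ a :: D ∧ (∃ a1 ∈ A', G.Adj x a1) ∧ Q.head? = some l ∧ P.getLast? = some r := by
  obtain ⟨x1, y1, A, E, A', D, a, r, l, h1, h2, h3, h4⟩ := mk_bt X h hP hc
    (fun c' hc' => (hQ.not_Sg hc').elim)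
  have e1 : x1 = x ∧ y1 = y := by
    rcases h4 with e | ⟨e1, e2⟩
    · exact e
    · exfalso
      subst e1; subst e2
      rw [h2, h3] at hQ
      rcases h1.or with ⟨e, -⟩ | e
      · exact e.not_Ty hQ
      · exact hQ.not_Sg e.swap
  obtain ⟨e1, e2⟩ := e1
  subst e1; subst e2
  refine ⟨A, E, A', D, a, r, l, h1, h2, h3, ?_, ?_, ?_⟩
  · rcases h1.or with ⟨-, e⟩ | e
    · exact e
    · rw [h2, h3] at hQ
      exact (hQ.not_Sg e).elim
  · rw [h3]
    cases A' with
    | nil => have := h1.bd.hl; simp at this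
    | cons p A' => exact h1.bd.hl
  · rw [h2]
    cases E with
    | nil => have := h1.bd.hr; simp at this
    | cons p E =>
      rw [List.getLast?_append_of_ne_nil _ (by simp), List.getLast?_cons_cons]
      exact h1.bd.hr

/-- claim 2: the centre is not the first vertex -/
theorem C2.centre_head (X : Ctx G L k) {Ps : List (List V)} (h : C2 G L x y Ps) {P : List V}
    {c : V} (hP : P ∈ Ps) (hc : Sg G x y Ps P c) : P.head? ≠ some c := by
  intro hcl
  obtain ⟨N0, hN0, hN0X⟩ := h.exX X
  obtain ⟨U, W, hU⟩ := List.append_of_mem hP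
  have hr0 : Ps ~r (P :: (W ++ U)) := by
    rw [hU]
    exact List.isRotated_append
  have hN0' : N0 ∈ W ++ U := by
    have : N0 ∈ P :: (W ++ U) := hr0.perm.mem_iff.1 hN0
    rcases List.mem_cons.1 this with e | e
    · rw [e] at hN0X; exact (hN0X.not_Sg hc).elim
    · exact e
  obtain ⟨T1, P1, Q, T2, h1, ⟨c', h2, h3⟩, h4⟩ :=
    adj_change (p := fun P => ∃ c, Sg G x y Ps P c ∧ P.head? = some c)
      (a := P) (b := N0) (l := W ++ U) ⟨c, hc, hcl⟩ hN0'
      (by rintro ⟨c', h5, -⟩; exact hN0X.not_Sg h5)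
  have hr1 : Ps ~r (P1 :: Q :: (T2 ++ T1)) := by
    rw [h1] at hr0
    exact hr0.trans (List.isRotated_append (l := T1) (l' := P1 :: Q :: T2))
  have c1 := h.isRot hr1
  have hn := c1.C.seg_nodup (P := P1) (by simp)
  have hlast : P1.getLast? ≠ some c' := by
    intro e
    have e1 := c1.C.two P1 (by simp)
    match P1, h3, e, e1, hn with
    | p :: q :: P', h6, e, _, e2 =>
      simp only [List.head?_cons, Option.some.injEq] at h6
      rw [List.getLast?_cons_cons] at e
      have := List.mem_of_getLast? e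
      rw [List.nodup_cons] at e2
      rw [← h6] at this
      exact e2.1 this
  obtain ⟨x1, y1, A, E, A', D, a, r, l, i1, i2, i3, i4⟩ := mk_bt X c1 (h2.isRot hr1) hlast
    (fun c'' hc'' e => h4 ⟨c'', hc''.isRot hr1.symm, e⟩)
  obtain ⟨-, z, hz, -⟩ := i1.rc X
  -- A = []
  rw [i2] at h3 hn
  cases A with
  | nil => simp at hz
  | cons p A =>
    simp only [List.cons_append, List.head?_cons, Option.some.injEq] at h3
    rw [List.cons_append, List.nodup_cons] at hn
    apply hn.1
    rw [h3]; simp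

/-- claim 2, mirror image -/
theorem C2.centre_last (X : Ctx G L k) {Ps : List (List V)} (h : C2 G L x y Ps) {P : List V}
    {c : V} (hP : P ∈ Ps) (hc : Sg G x y Ps P c) : P.getLast? ≠ some c := by
  have h1 := h.rev
  have h2 : Sg G x y (rv Ps) P.reverse c := hc.rev.congr (fun v => (mem_flatten_rv v).symm)
  have h3 := h1.centre_head X (P := P.reverse) (by rw [mem_rv, List.reverse_reverse]; exact hP) h2
  rwa [List.head?_reverse] at h3

/-- claim 3: the first vertex of a segment of type `x` after a segment with a centre -/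
theorem C2.first_adj (X : Ctx G L k) {P Q : List V} {Ms : List (List V)} {c : V}
    (h : C2 G L x y (P :: Q :: Ms)) (hP : Sg G x y (P :: Q :: Ms) P c)
    (hQ : Ty G x y (P :: Q :: Ms) Q) : ∃ l, Q.head? = some l ∧ G.Adj x l := by
  obtain ⟨A, E, A', D, a, r, l, h1, h2, h3, h4, h5, -⟩ := mk_btA X h hP
    (h.centre_last X (by simp) hP) hQ
  exact ⟨l, h5, (h1.lx X h4).symm⟩

/-- claim 3, mirror image -/
theorem C2.last_adj (X : Ctx G L k) {P Q : List V} {Ms : List (List V)} {c : V}
    (h : C2 G L x y (P :: Q :: Ms)) (hP : Ty G x y (P :: Q :: Ms) P)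
    (hQ : Sg G x y (P :: Q :: Ms) Q c) : ∃ l, P.getLast? = some l ∧ G.Adj x l := by
  obtain ⟨l, h1, h2⟩ := h.rev2.first_adj X hQ.rev2 hP.rev2
  rw [List.head?_reverse] at h1
  exact ⟨l, h1, h2⟩

end Pool.Agent.LW
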