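import Pool.Agent.LW.RH1

set_option autoImplicit false

/-!
# Theorem H, claims 4 - 7
-/

namespace Pool.Agent.LW

open SimpleGraph Classical

universe w

variable {V : Type w} {G H : SimpleGraph V} {L : Finset (Sym2 V)} {k : ℕ} {x y : V}

theorem bf_head {F : List V} {a b : V} (h : F.head? = some a) (hb : b ∈ F) (hne : b ≠ a) :
    Bf F a b := by
  cases F with
  | nil => simp at h
  | cons p F =>
    simp only [List.head?_cons, Option.some.injEq] at h
    subst h
    rcases List.mem_cons.1 hb with e | e
    · exact absurd e hne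
    · exact Bf.of_right (A := []) e

theorem bf_last {F : List V} {a b : V} (h : F.getLast? = some a) (hb : b ∈ F) (hne : b ≠ a) :
    Bf F b a := by
  have h1 : F.reverse.head? = some a := by rw [List.head?_reverse]; exact h
  exact (bf_head h1 (List.mem_reverse.2 hb) hne).reverse'

/-- claim 4 -/
theorem C2.claim4 (X : Ctx G L k) {P Q R : List V} {M1 M2 : List (List V)} {c : V}
    (h : C2 G L x y (P :: Q :: (M1 ++ R :: M2)))
    (hP : Sg G x y (P :: Q :: (M1 ++ R :: M2)) P c)
    (hQ : Ty G y x (P :: Q :: (M1 ++ R :: M2)) Q)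
    (hR : Ty G x y (P :: Q :: (M1 ++ R :: M2)) R)
    (h1 : ∀ T ∈ M1, ∃ c, Sg G x y (P :: Q :: (M1 ++ R :: M2)) T c)
    (h2 : ∀ T ∈ M2, ∃ c, Sg G x y (P :: Q :: (M1 ++ R :: M2)) T c) (hM1 : M1 ≠ []) : False := by
  -- the first vertex of R
  obtain ⟨l', hl', hxl'⟩ : ∃ l', R.head? = some l' ∧ G.Adj x l' := by
    rcases List.eq_nil_or_concat M1 with e | ⟨M1', T, e⟩
    · exact absurd e hM1
    · rw [List.concat_eq_append] at e
      obtain ⟨c', hc'⟩ := h1 T (by rw [e]; simp)
      have hr : (P :: Q :: (M1 ++ R :: M2)) ~r (T :: R :: (M2 ++ (P :: Q :: M1'))) := by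
        have := List.isRotated_append (l := P :: Q :: M1') (l' := T :: R :: M2)
        rw [e]
        simpa using this
      exact (h.isRot hr).first_adj X (hc'.isRot hr) (hR.isRot hr)
  obtain ⟨r', hr', hxr'⟩ : ∃ r', R.getLast? = some r' ∧ G.Adj x r' := by
    cases M2 with
    | nil =>
      have hr : (P :: Q :: (M1 ++ [R])) ~r (R :: P :: (Q :: M1)) := by
        have := List.isRotated_append (l := P :: Q :: M1) (l' := [R])
        simpa using this
      exact (h.isRot hr).last_adj X (hR.isRot hr) (hP.isRot hr)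
    | cons T M2 =>
      obtain ⟨c', hc'⟩ := h2 T (by simp)
      have hr : (P :: Q :: (M1 ++ R :: T :: M2)) ~r (R :: T :: (M2 ++ (P :: Q :: M1))) := by
        have := List.isRotated_append (l := P :: Q :: M1) (l' := R :: T :: M2)
        simpa using this
      exact (h.isRot hr).last_adj X (hR.isRot hr) (hc'.isRot hr)
  obtain ⟨A, E, A', D, a, r, l, i1, i2, i3, i4, -, -⟩ := mk_btA X h.swap hP.swap
    (h.centre_last X (by simp) hP) hQ
  have hRm : R ∈ M1 ++ R :: M2 := by simp
  rcases (i1.nine X).types X R (by unfold Off; simp) with e | e | ⟨c', e⟩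
  · obtain ⟨w, w', j1, j2, j3⟩ := e.nbs
    have hn : R.Nodup := h.C.seg_nodup (P := R) (by simp)
    have j4 : w' ≠ l' := by
      intro e'
      rw [e'] at j1
      have hw : w ≠ l' := j1.ne hn
      exact (bf_head hl' j1.memL hw).asymm hn j1
    exact i1.bd.Rr X.S hRm j3 (bf_head hl' j1.memR j4) (Or.inl rfl) hxl'
  · obtain ⟨w, w', j1, j2, j3⟩ := e.nbs
    have hn : R.Nodup := h.C.seg_nodup (P := R) (by simp)
    have j4 : w ≠ r' := by
      intro e'
      rw [e'] at j1
      have hw : w' ≠ r' := (j1.ne hn).symm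
      exact (bf_last hr' j1.memR hw).asymm hn j1
    exact i1.bd.Lr X.S hRm j2 (bf_last hr' j1.memL j4) (Or.inl ⟨rfl, rfl⟩) i1.bd.xa hxr'
  · exact i1.noSg X ⟨R, by unfold Off; simp, c', e⟩

/-- claim 7: the full cycle -/
theorem raw7 (S : Bs G L k) {A E' A'' D P21 P22 Q1 Q2 Q3 : List V} {c r l a v r2 cm w' : V}
    {Ns Ns' : List (List V)}
    (C : Cfg G L x y ((A ++ c :: (E' ++ [r])) :: ((l :: A'') ++ a :: D) ::
      (P21 ++ v :: (P22 ++ [r2])) :: (Ns ++ (Q1 ++ cm :: (Q2 ++ w' :: Q3)) :: Ns')))
    (h1 : G.Adj y r2) (h2 : G.Adj cm c) (h3 : G.Adj w' l) (h4 : G.Adj r v) (h5 : G.Adj x a) :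
    False := by
  have hb := C.base (C.xy_ne S.sub)
  obtain ⟨lj, rj, i1, l1, r1, i2, i3, l2, r2', i4, i5, i6⟩ := C.lk
  obtain ⟨lm, rm, i7, i8, i9⟩ := i6.split
  have e1 : rj = r := by
    have := i1.lt
    rw [List.getLast?_append_of_ne_nil _ (by simp)] at this
    have h6 : (c :: (E' ++ [r])).getLast? = some r := by
      rw [← List.cons_append, List.getLast?_append_of_ne_nil _ (by simp)]; rfl
    exact Option.some.inj (this.symm.trans h6)
  have e2 : l1 = l := by
    have := i3.hd
    simpa using this.symm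
  have e3 : r2' = r2 := by
    have := i5.lt
    rw [List.getLast?_append_of_ne_nil _ (by simp)] at this
    have h6 : (v :: (P22 ++ [r2])).getLast? = some r2 := by
      rw [← List.cons_append, List.getLast?_append_of_ne_nil _ (by simp)]; rfl
    exact Option.some.inj (this.symm.trans h6)
  subst e1; subst e2; subst e3
  have f1 : Ch G y r2' [y, r2'] := Ch.edge h1
  have f2 : Ch G lm lj (Q1 ++ cm :: c :: A.reverse) := by
    have g1 : Ch G lm cm (Q1 ++ [cm]) := i8.left
    have g2 : Ch G c lj (c :: A.reverse) := by simpa using i1.left.reverse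
    have := g1.append g2 h2
    simpa using this
  have f3 : Ch G rm l1 (Q3.reverse ++ [w', l1]) := by
    have g1 : Ch G lm rm ((Q1 ++ cm :: Q2) ++ w' :: Q3) := by simpa using i8
    have g2 : Ch G rm w' (Q3.reverse ++ [w']) := by simpa using g1.right.reverse
    have := g2.concat h3
    simpa using this
  have f4 : Ch G rj l2 (rj :: v :: P21.reverse) := by
    have g1 : Ch G v l2 (v :: P21.reverse) := by simpa using i5.left.reverse
    exact g1.cons h4
  have f5 : Ch G r1 x (D.reverse ++ [a, x]) := by
    have g1 : Ch G r1 a (D.reverse ++ [a]) := by simpa using i3.right.reverse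
    have := g1.concat h5.symm
    simpa using this
  have s1 : s(l1, rj) ∈ L := by rw [Sym2.eq_swap]; exact i2
  have s2 : s(l2, r1) ∈ L := by rw [Sym2.eq_swap]; exact i4
  refine S.no _ (Full.mk' f1 (i7.append f2 (i9.rev.append f3 (Lk.cons s1 f4 (Lk.cons s2 f5
    (Lk.nil C.xy))))) ?_ ?_ ?_)
  · exact nodup_of_count hb (by
      intro v; simp only [List.flatten_cons, List.flatten_append, List.flatten_nil, flatten_rv,
      List.count_append, List.count_cons, List.count_reverse, List.count_nil, List.reverse_cons,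
      List.reverse_append, List.append_nil, List.nil_append]; omega)
  · have htwo := C.two
    simp only [two_cons, two_append, two_rv, two_nil, List.length_append, List.length_cons,
      List.length_nil, List.length_reverse, and_true, true_and] at htwo ⊢
    repeat' apply And.intro
    all_goals first
      | omega
      | exact htwo.1 | exact htwo.2 | exact htwo.1.1 | exact htwo.1.2
      | exact htwo.2.1 | exact htwo.2.2 | exact htwo.2.1.1 | exact htwo.2.1.2
      | exact htwo.2.2.1 | exact htwo.2.2.2 | exact htwo.2.2.2.1 | exact htwo.2.2.2.2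
      | exact htwo.2.2.2.2.1 | exact htwo.2.2.2.2.2 | exact htwo.2.2.2.2.2.1
      | exact htwo.2.2.2.2.2.2 | tauto
  · have hlen := C.card
    simp only [List.length_append, List.length_cons, List.length_nil, length_rv] at hlen ⊢
    omega

end Pool.Agent.LW
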