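import Pool.Agent.LW.RH2

set_option autoImplicit false

/-!
# Theorem H: for odd `k` every configuration has two gates and no segment with a centre
-/

namespace Pool.Agent.LW

open SimpleGraph Classical

universe w

variable {V : Type w} {G H : SimpleGraph V} {L : Finset (Sym2 V)} {k : ℕ} {x y : V}

theorem C2.tail_ne {P : List V} {W : List (List V)} (h : C2 G L x y (P :: W)) : P ∉ W :=
  mem_rot h.C.nd (h.C.ne P (by simp))

/-- the cyclic order of the types -/
theorem C2.shape (X : Ctx G L k) {Ps : List (List V)} (h : C2 G L x y Ps)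
    (hS : ∃ P ∈ Ps, ∃ c, Sg G x y Ps P c) :
    ∃ x1 y1 P1 P2 Ms, C2 G L x1 y1 (P1 :: P2 :: Ms) ∧ Ty G x1 y1 (P1 :: P2 :: Ms) P1 ∧
      Ty G y1 x1 (P1 :: P2 :: Ms) P2 ∧ (∀ T ∈ Ms, ∃ c, Sg G x1 y1 (P1 :: P2 :: Ms) T c) ∧
      2 ≤ Ms.length := by
  have hodd := h.odd X
  have hone := (h.ten X hS).1
  obtain ⟨N0, hN0, hN0X⟩ := h.exX X
  obtain ⟨U, W, hU⟩ := List.append_of_mem hN0
  have hr0 : Ps ~r (N0 :: (W ++ U)) := by
    rw [hU]
    exact List.isRotated_append
  have c0 := h.isRot hr0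
  have hone1 : nT G x y (N0 :: (W ++ U)) = 1 := by rw [nT_isRot hr0]; exact hone
  have hone2 : nT G y x (N0 :: (W ++ U)) = 1 := by rw [← c0.nT_eq X]; exact hone1
  have hN0X' := hN0X.isRot hr0
  obtain ⟨Q, hQ, hQY⟩ := c0.exY X
  have hQm : Q ∈ W ++ U := by
    rcases List.mem_cons.1 hQ with e | e
    · rw [e] at hQY; exact (hQY.not_Ty hN0X').elim
    · exact e
  -- all others have a centre
  have hoth : ∀ T ∈ N0 :: (W ++ U), T ≠ N0 → T ≠ Q →
      ∃ c, Sg G x y (N0 :: (W ++ U)) T c := by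
    intro T hT h1 h2
    rcases c0.types X T hT with e | e | e
    · exact absurd (one_of_filter hone1 hT (by simp) e hN0X') h1
    · exact absurd (one_of_filter hone2 hT hQ e hQY) h2
    · exact e
  obtain ⟨W1, W2, hW⟩ := List.append_of_mem hQm
  rw [hW] at hr0 c0 hoth hN0X' hQY
  clear hone1 hone2 hQ hQm hW
  have hcard : (W1.length + W2.length) + 3 = k := by
    have h1 := c0.C.card
    rw [X.S.card] at h1
    simp only [List.length_cons, List.length_append] at h1
    omega
  -- at least two segments have a centre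
  have hlen : 2 ≤ W1.length + W2.length := by
    obtain ⟨P, hP, c, hc⟩ := hS
    have hP' : P ∈ N0 :: (W1 ++ Q :: W2) := hr0.perm.mem_iff.1 hP
    have hc' := hc.isRot hr0
    have : 1 ≤ W1.length + W2.length := by
      by_contra hcon
      have e1 : W1 = [] := List.eq_nil_of_length_eq_zero (by omega)
      have e2 : W2 = [] := List.eq_nil_of_length_eq_zero (by omega)
      subst e1; subst e2
      simp only [List.nil_append, List.mem_cons, List.not_mem_nil, or_false] at hP'
      rcases hP' with e | e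
      · rw [e] at hc'; exact hN0X'.not_Sg hc'
      · rw [e] at hc'; exact hQY.not_Sg hc'.swap
    obtain ⟨m, hm⟩ := hodd
    omega
  have hNQ : N0 ≠ Q := by intro e; subst e; exact hN0X'.not_Ty hQY
  have hnd : (N0 :: (W1 ++ Q :: W2)).Nodup := by
    rw [List.nodup_iff_injective_get]
    by_contra hcon
    have h1 := c0.C.nd
    have h2 := (List.nodup_flatten.1 h1).2
    apply hcon
    rw [← List.nodup_iff_injective_get]
    refine List.Pairwise.imp_of_mem ?_ h2
    intro A B hA _ hAB e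
    subst e
    obtain ⟨v, hv⟩ := List.exists_mem_of_ne_nil A (c0.C.ne A hA)
    exact hAB hv hv
  have hW1 : ∀ T ∈ W1, T ≠ N0 ∧ T ≠ Q := by
    intro T hT
    refine ⟨?_, ?_⟩
    · intro e
      rw [List.nodup_cons] at hnd
      exact hnd.1 (by rw [← e]; simp [hT])
    · intro e
      rw [List.nodup_cons, List.nodup_append'] at hnd
      exact hnd.2.2.2 hT (by rw [e]; simp)
  have hW2 : ∀ T ∈ W2, T ≠ N0 ∧ T ≠ Q := by
    intro T hT
    refine ⟨?_, ?_⟩
    · intro e
      rw [List.nodup_cons] at hnd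
      exact hnd.1 (by rw [← e]; simp [hT])
    · intro e
      rw [List.nodup_cons, List.nodup_append', List.nodup_cons] at hnd
      exact hnd.2.2.1.1 (by rw [← e]; exact hT)
  rcases List.eq_nil_or_concat W1 with e | ⟨W1', T, e⟩
  · -- x-segment, then y-segment
    subst e
    refine ⟨x, y, N0, Q, W2, c0, hN0X', hQY, ?_, by simpa using hlen⟩
    intro T hT
    exact hoth T (by simp [hT]) (hW2 T hT).1 (hW2 T hT).2
  · rw [List.concat_eq_append] at e
    by_cases e2 : W2 = []
    · subst e2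
      have hr : (N0 :: (W1 ++ [Q])) ~r (Q :: N0 :: W1) := by
        have := List.isRotated_append (l := N0 :: W1) (l' := [Q])
        simpa using this
      refine ⟨y, x, Q, N0, W1, (c0.isRot hr).swap, hQY.isRot hr, hN0X'.isRot hr, ?_,
        by simpa using hlen⟩
      intro T hT
      obtain ⟨c, hc⟩ := hoth T (by simp [hT]) (hW1 T hT).1 (hW1 T hT).2
      exact ⟨c, (hc.isRot hr).swap⟩
    · exfalso
      subst e
      have hr : (N0 :: (W1' ++ [T] ++ Q :: W2)) ~r (T :: Q :: (W2 ++ N0 :: W1')) := by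
        have := List.isRotated_append (l := N0 :: W1') (l' := T :: Q :: W2)
        simpa using this
      obtain ⟨c, hc⟩ := hoth T (by simp) (hW1 T (by simp)).1 (hW1 T (by simp)).2
      refine (c0.isRot hr).claim4 X (hc.isRot hr) (hQY.isRot hr) (hN0X'.isRot hr) ?_ ?_ e2
      · intro T' hT'
        obtain ⟨c', hc'⟩ := hoth T' (by simp [hT']) (hW2 T' hT').1 (hW2 T' hT').2
        exact ⟨c', hc'.isRot hr⟩
      · intro T' hT'
        have hT'' : T' ∈ W1' ++ [T] := by simp [hT']
        obtain ⟨c', hc'⟩ := hoth T' (by simp [hT']) (hW1 T' hT'').1 (hW1 T' hT'').2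
        exact ⟨c', hc'.isRot hr⟩

/-- claims 5 - 7: the contradiction -/
theorem C2.claim7 (X : Ctx G L k) {P1 P2 : List V} {Ms : List (List V)}
    (h : C2 G L x y (P1 :: P2 :: Ms)) (hP1 : Ty G x y (P1 :: P2 :: Ms) P1)
    (hP2 : Ty G y x (P1 :: P2 :: Ms) P2)
    (hMs : ∀ T ∈ Ms, ∃ c, Sg G x y (P1 :: P2 :: Ms) T c) (hlen : 2 ≤ Ms.length) : False := by
  have S := X.S
  -- the last vertex of P2
  obtain ⟨r2, hr2, hyr2⟩ : ∃ r2, P2.getLast? = some r2 ∧ G.Adj y r2 := by
    match Ms, hMs, hlen with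
    | T :: Ms, hMs, _ =>
      obtain ⟨c, hc⟩ := hMs T (by simp)
      have hr : (P1 :: P2 :: T :: Ms) ~r (P2 :: T :: (Ms ++ [P1])) := by
        have := List.isRotated_append (l := [P1]) (l' := P2 :: T :: Ms)
        simpa using this
      exact ((h.isRot hr).swap).last_adj X (hP2.isRot hr) (hc.isRot hr).swap
  obtain ⟨P22, hP22⟩ := exists_concat_of_getLast? hr2
  rcases List.eq_nil_or_concat Ms with e | ⟨Ms', Pj, e⟩
  · rw [e] at hlen; simp at hlen
  rw [List.concat_eq_append] at e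
  subst e
  have hr : (P1 :: P2 :: (Ms' ++ [Pj])) ~r (Pj :: P1 :: P2 :: Ms') := by
    have := List.isRotated_append (l := P1 :: P2 :: Ms') (l' := [Pj])
    simpa using this
  have h' := h.isRot hr
  obtain ⟨c, hc⟩ := hMs Pj (by simp)
  obtain ⟨A, E, A', D, a, r, l, i1, i2, i3, i4, i5, i6⟩ := mk_btA X h' (hc.isRot hr)
    (h'.centre_last X (by simp) (hc.isRot hr)) (hP1.isRot hr)
  have C' := i1.bd.off S.sub
  have hnd : ∀ T ∈ P2 :: Ms', T.Nodup := fun T hT => C'.seg_nodup (by unfold Off; simp at hT ⊢; tauto)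
  -- the type of P2
  have hP2r : Ty G r l (Off x y A D c a (P2 :: Ms')) P2 := by
    rcases (i1.nine X).types X P2 (by unfold Off; simp) with e | e | ⟨c', e⟩
    · exact e
    · exfalso
      obtain ⟨w, w', j1, j2, j3⟩ := e.nbs
      have hn := hnd P2 (by simp)
      have j4 : w ≠ r2 := by
        intro e'
        rw [e'] at j1
        exact (bf_last hr2 j1.memR (j1.ne hn).symm).asymm hn j1
      exact i1.bd.Lr X.S (by simp) j2 (bf_last hr2 j1.memL j4) (Or.inl ⟨rfl, rfl⟩) i1.bd.xa hyr2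
    · exact absurd ⟨P2, by unfold Off; simp, c', e⟩ (i1.noSg X)
  obtain ⟨v, v', v1, v2, v3⟩ := hP2r.nbs
  -- v is not the last vertex
  have hv : v ≠ r2 := by
    intro e'
    rw [e'] at v1
    exact (bf_last hr2 v1.memR (v1.ne (hnd P2 (by simp))).symm).asymm (hnd P2 (by simp)) v1
  have hvP : v ∈ P22 := by
    have := v1.memL
    rw [hP22] at this
    simp only [List.mem_append, List.mem_singleton] at this
    rcases this with e | e
    · exact e
    · exact absurd e hv
  -- another segment of the type of l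
  obtain ⟨Pm, hPm, hPml⟩ : ∃ Pm ∈ Ms', Ty G l r (Off x y A D c a (P2 :: Ms')) Pm := by
    by_contra hcon
    push Not at hcon
    have j1 := (i1.ten X).2
    rw [(i1.nine X).nT_eq X] at j1
    unfold nT at j1
    have k1 : ¬ Ty G l r (Off x y A D c a (P2 :: Ms')) (A ++ [c, y]) :=
      fun e => e.not_Ty (i1.tyL X)
    have k2 : ¬ Ty G l r (Off x y A D c a (P2 :: Ms')) P2 := fun e => e.not_Ty hP2r
    have k3 : Ty G l r (Off x y A D c a (P2 :: Ms')) (x :: a :: D) := i1.tyR X
    have k4 : Off x y A D c a (P2 :: Ms') = (A ++ [c, y]) :: (x :: a :: D) :: P2 :: Ms' := rfl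
    have k5 : Ms'.filter (fun P => decide (Ty G l r (Off x y A D c a (P2 :: Ms')) P)) = [] := by
      rw [List.filter_eq_nil_iff]
      intro T hT
      simpa using hcon T hT
    rw [k4] at j1 k1 k2 k3 k5
    simp only [List.filter_cons, k1, k2, k3, k5, decide_false, decide_true, if_false, if_true,
      Bool.false_eq_true, List.length_cons, List.length_nil] at j1
    omega
  obtain ⟨w, w', w1, w2, w3⟩ := hPml.nbs
  obtain ⟨cm, hcm⟩ := hMs Pm (by simp [hPm])
  have hnm := hnd Pm (by simp [hPm])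
  have hcw : Bf Pm cm w' := by
    have j1 : ¬ Bf Pm w cm := fun e =>
      i1.bd.Lr X.S (by simp [hPm]) w2 e (Or.inl ⟨rfl, rfl⟩) i1.bd.xa hcm.ay
    by_cases e : cm = w
    · rw [e]; exact w1
    · rcases Bf.total hcm.mem w1.memL e with e' | e'
      · exact e'.trans w1 hnm
      · exact absurd e' j1
  -- claim 6
  have hccm : G.Adj cm c := by
    obtain ⟨z, hz, hrz⟩ := (i1.rc X).2
    obtain ⟨A3, A4, hA⟩ := List.append_of_mem hz
    obtain ⟨E', hE⟩ := exists_concat_of_getLast? i1.bd.hr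
    have hxy := h.ne S.sub
    have C := i1.bd.C
    have hb := C.base hxy
    have e0 : A ++ c :: E = A3 ++ z :: ((A4 ++ c :: E') ++ r :: []) := by
      rw [hA, hE]; simp
    have C3 : Cfg G L x y ((A3 ++ z :: ([] ++ r :: [])) :: (A' ++ a :: D) :: P2 :: Ms') := by
      rw [e0] at C
      refine C.cut S.sub (Ch.edge hrz.symm) (by simp) (by simp) (by simp)
    have hcV : c ∉ VS ((A3 ++ z :: ([] ++ r :: [])) :: (A' ++ a :: D) :: P2 :: Ms') := by
      show ¬ (c ∈ ((A3 ++ z :: ([] ++ r :: [])) :: (A' ++ a :: D) :: P2 :: Ms').flatten)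
      have h8 : (c :: ((A3 ++ z :: ([] ++ r :: [])) :: (A' ++ a :: D) :: P2 :: Ms').flatten).Nodup := by
        rw [e0] at hb
        exact nodup_of_count hb (by
      intro v; simp only [List.flatten_cons, List.flatten_append, List.flatten_nil, flatten_rv,
      List.count_append, List.count_cons, List.count_reverse, List.count_nil, List.reverse_cons,
      List.reverse_append, List.append_nil, List.nil_append]; omega)
      exact (List.nodup_cons.1 h8).1
    obtain ⟨B3, O3, T3⟩ := X.gt _ _ _ C3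
    have T3' := X.tight _ _ _ _ _ C3 T3
    have hcB := gate_of_adj T3 hxy hcV i1.bd.cx i1.bd.cy
    rcases T3'.typ Pm (by simp [hPm]) with ⟨c'', hc''⟩ | ⟨g, hg⟩
    · have j1 : cm = c'' := (hc''.2 x T3.xB).2 cm hcm.mem (Or.inl hcm.ax)
      rw [j1]
      exact (hc''.2 c hcB).1.symm
    · exfalso
      by_cases e : x = g
      · exact hg.2.2 y T3.yB (by rw [← e]; exact hxy.symm) cm hcm.mem (Or.inl hcm.ay)
      · exact hg.2.2 x T3.xB e cm hcm.mem (Or.inl hcm.ax)
  -- claim 7
  obtain ⟨E', hE⟩ := exists_concat_of_getLast? i1.bd.hr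
  obtain ⟨A'', hA''⟩ : ∃ A'', A' = l :: A'' := by
    have := i1.bd.hl
    cases A' with
    | nil => simp at this
    | cons p A' =>
      simp only [List.head?_cons, Option.some.injEq] at this
      exact ⟨A', by rw [this]⟩
  obtain ⟨P23, P24, hP23⟩ := List.append_of_mem hvP
  obtain ⟨Q1, Q2, Q3, hQ⟩ := hcw.split
  obtain ⟨Ns, Ns', hNs⟩ := List.append_of_mem hPm
  have C := i1.bd.C
  have e1 : P2 = P23 ++ v :: (P24 ++ [r2]) := by rw [hP22, hP23]; simp
  rw [hE, hA'', hNs, hQ, e1] at C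
  exact raw7 S C hyr2 hccm w3.symm v2 i1.bd.xa

/-- Theorem H, for configurations with two gates -/
theorem C2.noS (X : Ctx G L k) {Ps : List (List V)} (h : C2 G L x y Ps) :
    ¬ ∃ P ∈ Ps, ∃ c, Sg G x y Ps P c := by
  intro hS
  obtain ⟨x1, y1, P1, P2, Ms, h1, h2, h3, h4, h5⟩ := h.shape X hS
  exact h1.claim7 X h2 h3 h4 h5

/-- Theorem H -/
theorem theoremH [Finite V] (X : Ctx G L k) {Ps : List (List V)} (C : Cfg G L x y Ps) :
    C2 G L x y Ps ∧ ¬ ∃ P ∈ Ps, ∃ c, Sg G x y Ps P c := by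
  obtain ⟨B, O, T⟩ := X.gt _ _ _ C
  by_cases h : ∃ g ∈ B, g ≠ x ∧ g ≠ y
  · obtain ⟨g, h1, h2, h3⟩ := h
    obtain ⟨Qs, h4, h5⟩ := absorb X C T h1 h2 h3
    exact absurd h5 (h4.noS X)
  · push Not at h
    have h1 : C2 G L x y Ps := by
      refine ⟨C, gt_two T ?_⟩
      intro g hg
      by_contra hcon
      push Not at hcon
      exact hcon.2 (h g hg hcon.1)
    exact ⟨h1, h1.noS X⟩

/-- every configuration satisfies `F0` -/
theorem f0_of_ctx [Finite V] (X : Ctx G L k) {Ps : List (List V)} (C : Cfg G L x y Ps) :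
    F0 G x y Ps := by
  obtain ⟨h1, h2⟩ := theoremH X C
  refine ⟨?_, h1.count X, ?_⟩
  · intro P hP
    rcases h1.types X P hP with e | e | e
    · exact Or.inl e
    · exact Or.inr e
    · exact absurd ⟨P, hP, e⟩ h2
  · exact h1.T.att x (by simp) y (by simp) (h1.ne X.S.sub)

end Pool.Agent.LW
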