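import Pool.Agent.LW.RH3
import Pool.Agent.LW.OJ

set_option autoImplicit false

/-!
# The conclusion from the existence of one configuration
-/

namespace Pool.Agent.LW

open SimpleGraph Classical

universe w

variable {V : Type w} {G H : SimpleGraph V} {L : Finset (Sym2 V)} {k : ℕ} {x y : V}

theorem od_of_ctx [Finite V] (X : Ctx G L k) {Ps : List (List V)} (C : Cfg G L x y Ps) :
    Od G L := by
  refine ⟨X.S.sub, X.S.ind, X.S.no, ?_, fun x y Ps C => f0_of_ctx X C⟩
  obtain ⟨h1, h2⟩ := theoremH X C
  have h3 := h1.len X h2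
  obtain ⟨P, hP, hPX⟩ := h1.exX X
  have h4 : 1 ≤ nT G x y Ps := by
    unfold nT
    exact List.length_pos_of_mem (a := P)
      (by simp only [List.mem_filter]; exact ⟨hP, by simpa using hPX⟩)
  have h5 := C.card
  omega

/-- a configuration exists only if `k` is odd and `G - L` is disconnected -/
theorem main_of_cfg [Finite V] (X : Ctx G L k) {Ps : List (List V)} (C : Cfg G L x y Ps) :
    Odd k ∧ ¬ (G.deleteEdges (↑L : Set (Sym2 V))).Connected :=
  ⟨theoremA X C, disconnected (od_of_ctx X C) C⟩

end Pool.Agent.LW
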