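import Pool.Agent.LW.Lists

set_option autoImplicit false

/-!
# Reachability inside a set, connections, pieces of a path
-/

namespace Pool.Agent.LW

open SimpleGraph Classical

universe w

variable {V : Type w} {G H : SimpleGraph V} {L : Finset (Sym2 V)}

theorem Rch.left {O : Set V} {a b : V} (h : Rch G O a b) : a ∈ O := by
  obtain ⟨F, hF, h⟩ := h
  exact h _ hF.memL

theorem Rch.right {O : Set V} {a b : V} (h : Rch G O a b) : b ∈ O := by
  obtain ⟨F, hF, h⟩ := h
  exact h _ hF.memR

theorem Rch.symm {O : Set V} {a b : V} (h : Rch G O a b) : Rch G O b a := by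
  obtain ⟨F, hF, h⟩ := h
  exact ⟨F.reverse, hF.reverse, by simpa using h⟩

theorem Rch.refl {O : Set V} {a : V} (h : a ∈ O) : Rch G O a a :=
  ⟨[a], Ch.single a, by simpa using h⟩

theorem Rch.trans {O : Set V} {a b c : V} (h : Rch G O a b) (h' : Rch G O b c) :
    Rch G O a c := by
  obtain ⟨F, hF, h⟩ := h
  obtain ⟨F', hF', h'⟩ := h'
  cases F' with
  | nil => exact absurd rfl hF'.ne
  | cons p F' =>
    have hp : p = b := by simpa using hF'.hd
    subst hp
    obtain ⟨A, hA⟩ : ∃ A, F = A ++ [p] := by
      rcases List.eq_nil_or_concat F with h1 | ⟨A, q, h1⟩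
      · exact absurd h1 hF.ne
      · have h2 := hF.lt
        rw [h1] at h2
        simp only [List.concat_eq_append, List.getLast?_append, List.getLast?_singleton,
          Option.some_or, Option.some.injEq] at h2
        exact ⟨A, by rw [h1, h2]; simp⟩
    subst hA
    refine ⟨A ++ p :: F', hF.glue hF', ?_⟩
    intro v hv
    rcases List.mem_append.1 hv with hv | hv
    · exact h v (List.mem_append_left _ hv)
    · exact h' v hv

/-- a walk contains a path -/
theorem Ch.path {a b : V} : ∀ {F : List V}, Ch H a b F →
    ∃ F', Ch H a b F' ∧ F'.Nodup ∧ ∀ v ∈ F', v ∈ F := by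
  intro F
  induction F generalizing a with
  | nil => intro h; exact absurd rfl h.ne
  | cons p F ih =>
    intro h
    have hp : p = a := by simpa using h.hd
    subst hp
    cases F with
    | nil =>
      have : p = b := by simpa using h.lt
      subst this
      exact ⟨[p], Ch.single p, by simp, by simp⟩
    | cons q F =>
      have hq : Ch H q b (q :: F) := by
        have : Ch H p b ([p] ++ q :: F) := h
        exact this.right
      have hpq : H.Adj p q := by
        have : Ch H p b ([] ++ p :: q :: F) := h
        exact this.adj
      obtain ⟨F', h1, h2, h3⟩ := ih hq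
      by_cases hpF : p ∈ F'
      · obtain ⟨A, D, hAD⟩ := List.append_of_mem hpF
        subst hAD
        refine ⟨p :: D, h1.right, ?_, ?_⟩
        · exact (List.nodup_append'.1 h2).2.1
        · intro v hv
          exact List.mem_cons_of_mem _ (h3 v (List.mem_append_right _ hv))
      · refine ⟨p :: F', Ch.cons hpq h1, List.nodup_cons.2 ⟨hpF, h2⟩, ?_⟩
        intro v hv
        rcases List.mem_cons.1 hv with hv | hv
        · rw [hv]; simp
        · exact List.mem_cons_of_mem _ (h3 v hv)

theorem Att.mem {O : Set V} {u o : V} (h : o ∈ Att G O u) : o ∈ O := by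
  obtain ⟨a, -, h⟩ := h
  exact h.right

theorem Att.rch {O : Set V} {u o o' : V} (h : o ∈ Att G O u) (ho : Rch G O o o') :
    o' ∈ Att G O u := by
  obtain ⟨a, h1, h2⟩ := h
  exact ⟨a, h1, h2.trans ho⟩

theorem Att.adj {O : Set V} {u o o' : V} (h : o ∈ Att G O u) (ho : G.Adj o o') (ho' : o' ∈ O) :
    o' ∈ Att G O u :=
  Att.rch h ⟨[o, o'], Ch.cons ho (Ch.single o'), by
    intro v hv
    simp only [List.mem_cons, List.not_mem_nil, or_false] at hv
    rcases hv with hv | hv
    · rw [hv]; exact Att.mem h
    · rw [hv]; exact ho'⟩

theorem con_of_att {O : Set V} {u w o : V} (h : o ∈ Att G O u) (h' : o ∈ Att G O w) :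
    Con G O u w := by
  obtain ⟨b, h3, h4⟩ := h'
  exact Or.inr ⟨b, Att.rch h h4.symm, h3.symm⟩

theorem Con.symm {O : Set V} {u w : V} (h : Con G O u w) : Con G O w u := by
  rcases h with h | ⟨o, ⟨a, h1, h2⟩, h3⟩
  · exact Or.inl h.symm
  · exact Or.inr ⟨a, ⟨o, h3.symm, h2.symm⟩, h1.symm⟩

theorem Con.adj {O : Set V} {u w : V} (h : G.Adj u w) : Con G O u w := Or.inl h

/-- a connection realised by a path -/
theorem Con.link {O : Set V} {u w : V} (h : Con G O u w) :
    ∃ K : List V, Ch G u w (u :: (K ++ [w])) ∧ K.Nodup ∧
      ∀ v ∈ K, v ∈ O ∧ v ∈ Att G O u ∧ v ∈ Att G O w := by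
  rcases h with h | ⟨o, ⟨a, h1, F, hF, h2⟩, h3⟩
  · exact ⟨[], Ch.cons h (Ch.single w), by simp, by simp⟩
  · obtain ⟨K, hK1, hK2, hK3⟩ := hF.path
    refine ⟨K, Ch.cons h1 (hK1.concat h3), hK2, ?_⟩
    intro v hv
    have hvO := h2 v (hK3 v hv)
    obtain ⟨A, D, hAD⟩ := List.append_of_mem hv
    subst hAD
    refine ⟨hvO, ⟨a, h1, A ++ [v], hK1.left, ?_⟩, ⟨o, h3.symm, Rch.symm ⟨v :: D, hK1.right, ?_⟩⟩⟩
    · intro z hz
      apply h2 z (hK3 z _)
      rcases List.mem_append.1 hz with hz | hz
      · exact List.mem_append_left _ hz
      · rw [List.mem_singleton] at hz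
        rw [hz]
        simp
    · intro z hz
      exact h2 z (hK3 z (List.mem_append_right _ hz))

/-- a list whose consecutive vertices are consecutive on a path is a piece of it -/
theorem infix_of_EL {F : List V} (hF : F.Nodup) : ∀ {I : List V}, I.Nodup → I ≠ [] →
    (∀ v ∈ I, v ∈ F) → (∀ a b, [a, b] <:+: I → EL F a b) → I <:+: F ∨ I.reverse <:+: F := by
  intro I
  induction I with
  | nil => intro _ h; exact absurd rfl h
  | cons a I ih =>
    intro hI _ hm hE
    cases I with
    | nil =>
      left
      obtain ⟨A, D, h⟩ := List.append_of_mem (hm a (by simp))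
      exact ⟨A, D, by rw [h]; simp⟩
    | cons b I =>
      have hI' := List.nodup_cons.1 hI
      have h1 : EL F a b := hE a b ⟨[], I, by simp⟩
      have h2 := ih hI'.2 (by simp) (fun v hv => hm v (List.mem_cons_of_mem _ hv))
        (fun c d hcd => hE c d (hcd.trans (List.infix_cons List.infix_rfl)))
      -- positions of `b` in `F`
      rcases h2 with ⟨A, D, h2⟩ | ⟨A, D, h2⟩
      · -- `F = A ++ b :: I ++ D`
        have h3 : F = A ++ b :: (I ++ D) := by rw [← h2]; simp
        have hbA : b ∉ A := by
          intro hb
          rw [h3] at hF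
          exact (List.nodup_append'.1 hF).2.2 hb (by simp)
        have hbD : b ∉ I ++ D := by
          intro hb
          rw [h3] at hF
          exact (List.nodup_cons.1 (List.nodup_append'.1 hF).2.1).1 hb
        rcases h1.ex with ⟨A', D', h4⟩ | ⟨A', D', h4⟩
        · left
          have h5 : A ++ b :: (I ++ D) = (A' ++ [a]) ++ b :: D' := by rw [← h3, h4]; simp
          have h6 : b ∉ A' ++ [a] := by
            intro hb
            rw [h3, h5] at hF
            exact (List.nodup_append'.1 hF).2.2 hb (by simp)
          obtain ⟨h7, h8⟩ := split_unique h5 hbA h6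
          refine ⟨A', D, ?_⟩
          rw [h3, h7]
          simp
        · have h5 : A ++ b :: (I ++ D) = A' ++ b :: (a :: D') := by rw [← h3, h4]
          have h6 : b ∉ A' := by
            intro hb
            rw [h3, h5] at hF
            exact (List.nodup_append'.1 hF).2.2 hb (by simp)
          obtain ⟨h7, h8⟩ := split_unique h5 hbA h6
          cases I with
          | nil =>
            right
            refine ⟨A, D', ?_⟩
            rw [h3]
            simp only [List.nil_append] at h8
            rw [h8]
            simp
          | cons c I =>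
            exfalso
            simp only [List.cons_append, List.cons.injEq] at h8
            apply hI'.1
            rw [← h8.1]
            simp
      · -- `F = A ++ (b :: I).reverse ++ D`
        have h3 : F = (A ++ I.reverse) ++ b :: D := by rw [← h2]; simp
        have hbA : b ∉ A ++ I.reverse := by
          intro hb
          rw [h3] at hF
          exact (List.nodup_append'.1 hF).2.2 hb (by simp)
        rcases h1.ex with ⟨A', D', h4⟩ | ⟨A', D', h4⟩
        · have h5 : (A ++ I.reverse) ++ b :: D = (A' ++ [a]) ++ b :: D' := by
            rw [← h3, h4]; simp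
          have h6 : b ∉ A' ++ [a] := by
            intro hb
            rw [h3, h5] at hF
            exact (List.nodup_append'.1 hF).2.2 hb (by simp)
          obtain ⟨h7, h8⟩ := split_unique h5 hbA h6
          rcases List.eq_nil_or_concat I.reverse with h9 | ⟨J, q, h9⟩
          · left
            have h10 : I = [] := by simpa using h9
            refine ⟨A', D, ?_⟩
            rw [h3, h10]
            rw [h10] at h7
            simp only [List.reverse_nil, List.append_nil] at h7
            rw [h7]
            simp
          · exfalso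
            rw [h9, List.concat_eq_append, ← List.append_assoc] at h7
            have h10 := List.append_inj' h7 rfl
            have h11 : q = a := by simpa using h10.2
            apply hI'.1
            have h12 : q ∈ I.reverse := by rw [h9]; simp
            rw [h11] at h12
            exact List.mem_cons_of_mem _ (by simpa using h12)
        · right
          have h5 : (A ++ I.reverse) ++ b :: D = A' ++ b :: (a :: D') := by rw [← h3, h4]
          have h6 : b ∉ A' := by
            intro hb
            rw [h3, h5] at hF
            exact (List.nodup_append'.1 hF).2.2 hb (by simp)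
          obtain ⟨h7, h8⟩ := split_unique h5 hbA h6
          refine ⟨A, D', ?_⟩
          rw [h3, h8]
          simp

end Pool.Agent.LW
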