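import Pool.Agent.LWF.D1
import Pool.Agent.LW.Calc

set_option autoImplicit false

/-!
# The reduction: from a counterexample to an edge-maximal one in list form
-/

namespace Pool.Agent.LW

open SimpleGraph Classical Pool.Agent.LWC

universe w

variable {V : Type w} {G H : SimpleGraph V} {L : Finset (Sym2 V)} {k : ℕ}

/-- a list of consecutively adjacent vertices as a walk -/
theorem red_walk {a b : V} {F : List V} (h : Ch G a b F) : ∃ p : G.Walk a b, p.support = F := by
  induction F generalizing a with
  | nil => exact absurd rfl h.ne
  | cons c F ih =>
    have hc : c = a := by have := h.hd; simpa using this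
    subst hc
    cases F with
    | nil =>
      have : c = b := by have := h.lt; simpa using this
      subst this
      exact ⟨.nil, rfl⟩
    | cons d F =>
      obtain ⟨p, hp⟩ := ih h.tail
      exact ⟨.cons h.snd p, by simp [hp]⟩

/-- a walk as a list of consecutively adjacent vertices -/
theorem red_ch {a b : V} (p : G.Walk a b) : Ch G a b p.support := by
  induction p with
  | nil => exact Ch.single _
  | cons h p ih =>
    rw [Walk.support_cons]
    exact ih.cons h

/-- a block of segments as a walk -/
theorem red_lk (hL : ∀ e ∈ L, e ∈ G.edgeSet) {r l : V} {Ms : List (List V)}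
    (h : Lk G L r Ms l) : ∃ q : G.Walk r l, q.support = r :: (Ms.flatten ++ [l]) ∧
      Ms.length + 1 ≤ (q.edges.filter (fun e => e ∈ L)).length := by
  induction Ms generalizing r with
  | nil =>
    have h1 : s(r, l) ∈ L := h
    have h2 : G.Adj r l := by have := hL _ h1; rwa [mem_edgeSet] at this
    exact ⟨.cons h2 .nil, by simp, by simp [h1]⟩
  | cons M Ms ih =>
    obtain ⟨c, d, h1, h2, h3⟩ := h
    have h4 : G.Adj r c := by have := hL _ h1; rwa [mem_edgeSet] at this
    obtain ⟨q, hq1, hq2⟩ := ih h3
    obtain ⟨p, hp⟩ := red_walk h2
    refine ⟨.cons h4 (p.append q), ?_, ?_⟩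
    · rw [Walk.support_cons, Walk.support_append, hp, hq1]
      simp
    · rw [Walk.edges_cons, Walk.edges_append, List.filter_cons]
      simp only [h1, decide_true, if_true, List.filter_append, List.length_cons,
        List.length_append]
      omega

/-- a full cycle in list form gives a cycle -/
theorem red_cyc (hL : ∀ e ∈ L, e ∈ G.edgeSet) {Ps : List (List V)} (h : Full G L Ps)
    (h2 : 2 ≤ Ps.length) : HasCyc G L := by
  match Ps, h, h2 with
  | P :: Ms, h, h2 =>
    obtain ⟨l, r, hP, hM⟩ := h.lk
    obtain ⟨q, hq1, hq2⟩ := red_lk hL hM
    obtain ⟨M, Ms', hMs⟩ : ∃ M Ms', Ms = M :: Ms' := by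
      cases Ms with
      | nil => simp at h2
      | cons M Ms' => exact ⟨M, Ms', rfl⟩
    have htwo := h.two
    have hPtwo := htwo P (by simp)
    have hMtwo := htwo M (by rw [hMs]; simp)
    match P, hP, hPtwo, h with
    | p1 :: p2 :: P', hP, _, h =>
      have hp1 : p1 = l := by have := hP.hd; simpa using this
      subst hp1
      obtain ⟨p, hp⟩ := red_walk hP.tail
      have hadj : G.Adj p1 p2 := hP.snd
      have hnd := h.nd
      -- the path from p2 to p1
      have hsup : (p.append q).support = (p2 :: P') ++ (Ms.flatten ++ [p1]) := by
        rw [Walk.support_append, hp, hq1]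
        simp
      have hpath : (p.append q).IsPath := by
        rw [Walk.isPath_def, hsup]
        exact nodup_of_count hnd (by
          intro v; simp only [List.flatten_cons, List.count_append, List.count_cons,
            List.count_nil, List.cons_append, List.append_nil]; omega)
      have hlen : 2 ≤ (p.append q).length := by
        have h5 : (p.append q).support.length = (p.append q).length + 1 :=
          Walk.length_support _
        rw [hsup, hMs] at h5
        simp only [List.length_append, List.length_cons, List.length_nil,
          List.flatten_cons] at h5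
        omega
      have hcyc := close (p.append q) hpath hadj hlen
      refine ⟨p1, _, hcyc, ?_⟩
      -- counting
      set c : G.Walk p1 p1 := Walk.cons hadj (p.append q) with hc
      have hnodup : (c.edges.filter (fun e => e ∈ L)).Nodup :=
        (hcyc.isTrail.edges_nodup).filter _
      have hcard : L.card ≤ (c.edges.filter (fun e => e ∈ L)).toFinset.card := by
        rw [List.toFinset_card_of_nodup hnodup, hc, Walk.edges_cons, Walk.edges_append,
          ← h.card]
        simp only [List.filter_cons, List.filter_append, List.length_cons]
        split_ifs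
        · simp only [List.length_cons, List.length_append]; omega
        · simp only [List.length_append]; omega
      have hsub : (c.edges.filter (fun e => e ∈ L)).toFinset ⊆ L := by
        intro e he
        rw [List.mem_toFinset, List.mem_filter] at he
        simpa using he.2
      have heq := Finset.eq_of_subset_of_card_le hsub hcard
      intro e he
      rw [← heq, List.mem_toFinset, List.mem_filter] at he
      exact he.1

/-- cutting a path at the edges of `L` -/
theorem red_cut {a b : V} (p : G.Walk a b) :
    ∃ R Rs, (R :: Rs).flatten = p.support ∧ (∀ P ∈ R :: Rs, P.IsChain G.Adj ∧ P ≠ []) ∧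
      (R :: Rs).IsChain (JL L) ∧
      (R :: Rs).length = (p.edges.filter (fun e => e ∈ L)).length + 1 := by
  induction p with
  | @nil a => exact ⟨[a], [], by simp, by simp, by simp, by simp⟩
  | @cons a c b h p ih =>
    obtain ⟨R, Rs, h1, h2, h3, h4⟩ := ih
    have hR := h2 R (by simp)
    obtain ⟨R', hR'⟩ : ∃ R', R = c :: R' := by
      cases R with
      | nil => exact absurd rfl hR.2
      | cons d R' =>
        have h5 := (red_ch p).hd
        rw [← h1] at h5
        simp only [List.flatten_cons, List.cons_append, List.head?_cons,
          Option.some.injEq] at h5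
        exact ⟨R', by rw [h5]⟩
    by_cases hac : s(a, c) ∈ L
    · refine ⟨[a], R :: Rs, ?_, ?_, ?_, ?_⟩
      · rw [Walk.support_cons, ← h1]; rfl
      · intro P hP
        rcases List.mem_cons.1 hP with e | e
        · rw [e]; simp
        · exact h2 P e
      · rw [List.isChain_cons_cons]
        exact ⟨⟨a, c, by simp, by rw [hR']; rfl, hac⟩, h3⟩
      · rw [Walk.edges_cons]
        simp only [List.filter_cons, hac, decide_true, if_true, List.length_cons] at h4 ⊢
        omega
    · refine ⟨a :: R, Rs, ?_, ?_, ?_, ?_⟩
      · rw [Walk.support_cons, ← h1]; rfl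
      · intro P hP
        rcases List.mem_cons.1 hP with e | e
        · rw [e, hR']
          refine ⟨?_, by simp⟩
          rw [List.isChain_cons_cons]
          exact ⟨h, by rw [← hR']; exact hR.1⟩
        · exact h2 P (List.mem_cons_of_mem _ e)
      · cases Rs with
        | nil => simp
        | cons S Rs =>
          rw [List.isChain_cons_cons] at h3 ⊢
          refine ⟨h3.1.congr ?_ rfl, h3.2⟩
          rw [hR', List.getLast?_cons_cons]
      · rw [Walk.edges_cons]
        simp only [List.filter_cons, hac, decide_false, Bool.false_eq_true, if_false,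
          List.length_cons] at h4 ⊢
        omega

/-- a path through all edges of `L` in list form -/
theorem red_lp {u v : V} (p : G.Walk u v) (hp : p.IsPath) (hL : ∀ e ∈ L, e ∈ p.edges) :
    ∃ Rs, LP G L u v Rs ∧ Rs.length = L.card + 1 := by
  obtain ⟨R, Rs, h1, h2, h3, h4⟩ := red_cut (L := L) p
  refine ⟨R :: Rs, ⟨?_, fun P hP => (h2 P hP).1, fun P hP => (h2 P hP).2, h3, ?_, ?_⟩, ?_⟩
  · rw [h1]; exact hp.support_nodup
  · rw [h1]; exact (red_ch p).hd
  · rw [h1]; exact (red_ch p).lt
  · rw [h4]
    congr 1
    have hnodup : (p.edges.filter (fun e => e ∈ L)).Nodup :=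
      (hp.isTrail.edges_nodup).filter _
    rw [← List.toFinset_card_of_nodup hnodup]
    congr 1
    ext e
    rw [List.mem_toFinset, List.mem_filter]
    constructor
    · intro he; simpa using he.2
    · intro he; exact ⟨hL e he, by simpa using he⟩

end Pool.Agent.LW
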