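import Pool.Agent.LW.Red

set_option autoImplicit false

/-!
# The reduction: an edge-maximal counterexample, the case `k = 1`, the final form
-/

namespace Pool.Agent.LW

open SimpleGraph Classical Pool.Agent.LWC

universe w

variable {V : Type w} {G H : SimpleGraph V} {L : Finset (Sym2 V)} {k : ℕ}

/-- every counterexample is contained in an edge-maximal one -/
theorem red_bs [Fintype V] (h2 : 2 ≤ k)
    (hconn : ∀ S : Finset V, S.card < k → (G.induce ((↑S : Set V)ᶜ)).Connected)
    (hL : ∀ e ∈ L, e ∈ G.edgeSet) (hcard : L.card = k)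
    (hind : ∀ e ∈ L, ∀ f ∈ L, e ≠ f → ∀ v, v ∈ e → v ∉ f)
    (hno : ¬ HasCyc G L) : ∃ H, G ≤ H ∧ Bs H L k := by
  obtain ⟨H, hGH, hH⟩ := (Set.toFinite {H : SimpleGraph V | ¬ HasCyc H L}).exists_le_maximal
    (a := G) hno
  have hHno : ¬ HasCyc H L := hH.prop
  have hHL : ∀ e ∈ L, e ∈ H.edgeSet := fun e he => SimpleGraph.edgeSet_mono hGH (hL e he)
  refine ⟨H, hGH, ?_, hHL, hcard, hind, h2, ?_, ?_⟩
  · intro S hS
    exact (hconn S hS).mono (SimpleGraph.comap_monotone _ hGH)
  · intro Ps hPs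
    exact hHno (red_cyc hHL hPs (by rw [hPs.card, hcard]; exact h2))
  · intro u v huv hadj
    have hnot : s(u, v) ∉ L := fun he => hadj (by
      have := hHL _ he
      rwa [mem_edgeSet] at this)
    have hcyc : HasCyc (H ⊔ SimpleGraph.edge u v) L := by
      by_contra hc
      have h3 : H ⊔ SimpleGraph.edge u v ≤ H := hH.le_of_ge (y := H ⊔ SimpleGraph.edge u v)
        hc le_sup_left
      exact hadj (h3 (Or.inr ((SimpleGraph.edge_adj u v u v).2 ⟨Or.inl ⟨rfl, rfl⟩, huv⟩)))
    have hsub : ∀ e ∈ (H ⊔ SimpleGraph.edge u v).edgeSet, e ∈ H.edgeSet ∨ e = s(u, v) := by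
      intro e he
      induction e with
      | h a b =>
        rw [mem_edgeSet, SimpleGraph.sup_adj, SimpleGraph.edge_adj] at he
        rcases he with he | ⟨he, -⟩
        · exact Or.inl he
        · right
          rcases he with ⟨rfl, rfl⟩ | ⟨rfl, rfl⟩
          · rfl
          · exact Sym2.eq_swap
    obtain ⟨c, p, hp, hpL⟩ := hcyc
    by_cases huvp : s(u, v) ∈ p.edges
    · have h4 : Pool.Agent.LWF.CycIn (H ⊔ SimpleGraph.edge u v) Set.univ
          (insert s(u, v) (L : Set (Sym2 V))) := by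
        refine ⟨c, p, hp, fun v _ => Set.mem_univ v, ?_⟩
        rintro e (he | he)
        · rw [he]; exact huvp
        · exact hpL e he
      obtain ⟨q, hq1, -, hq3⟩ := h4.open_virtual hsub (Or.inl rfl)
      obtain ⟨Rs, hR1, hR2⟩ := red_lp (L := L) q hq1 (fun e he => hq3 e
        ⟨Or.inr he, fun h => hnot (by rw [← h]; exact he)⟩)
      exact ⟨Rs, hR1, by rw [hR2, hcard]⟩
    · exfalso
      have h5 : ∀ e ∈ p.edges, e ∈ H.edgeSet := by
        intro e he
        rcases hsub e (p.edges_subset_edgeSet he) with h | h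
        · exact h
        · exact absurd (h ▸ he) huvp
      exact hHno ⟨c, p.transfer H h5, hp.transfer h5, fun e he => by
        rw [Walk.edges_transfer]; exact hpL e he⟩

/-- the case of one edge -/
theorem red_one (hL : ∀ e ∈ L, e ∈ G.edgeSet) (hcard : L.card = 1) (hno : ¬ HasCyc G L) :
    ¬ (G.deleteEdges (↑L : Set (Sym2 V))).Connected := by
  obtain ⟨e, rfl⟩ := Finset.card_eq_one.1 hcard
  have he : e ∈ G.edgeSet := hL e (by simp)
  have hb : G.IsBridge e := by
    rw [isBridge_iff_forall_cycle_notMem he]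
    intro u p hp hmem
    exact hno ⟨u, p, hp, by simpa using hmem⟩
  induction e with
  | h a b =>
    intro hc
    rw [isBridge_iff] at hb
    apply hb
    simpa using hc.preconnected a b

/-- from the theorem on edge-maximal graphs to the statement of the problem -/
theorem red_main {V : Type} [Fintype V] {G : SimpleGraph V} {L : Finset (Sym2 V)} {k : ℕ}
    (main : ∀ H : SimpleGraph V, Bs H L k → Odd k ∧
      ¬ (H.deleteEdges (↑L : Set (Sym2 V))).Connected)
    (h1 : 1 ≤ k)
    (hconn : ∀ S : Finset V, S.card < k → (G.induce ((↑S : Set V)ᶜ)).Connected)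
    (hL : ∀ e ∈ L, e ∈ G.edgeSet) (hcard : L.card = k)
    (hind : ∀ e ∈ L, ∀ f ∈ L, e ≠ f → ∀ v, v ∈ e → v ∉ f)
    (hno : ¬ ∃ (u : V) (p : G.Walk u u), p.IsCycle ∧ ∀ e ∈ L, e ∈ p.edges) :
    Odd k ∧ ¬ (G.deleteEdges (↑L : Set (Sym2 V))).Connected := by
  rcases Nat.lt_or_ge k 2 with hk | hk
  · have hk1 : k = 1 := by omega
    subst hk1
    exact ⟨odd_one, red_one hL hcard hno⟩
  · obtain ⟨H, hGH, hH⟩ := red_bs hk hconn hL hcard hind hno
    obtain ⟨h3, h4⟩ := main H hH
    refine ⟨h3, fun h5 => h4 (h5.mono ?_)⟩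
    intro a b hab
    rw [SimpleGraph.deleteEdges_adj] at hab ⊢
    exact ⟨hGH hab.1, hab.2⟩

end Pool.Agent.LW
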