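import Pool.Agent.LW.R1

set_option autoImplicit false

/-!
# Types of segments
-/

namespace Pool.Agent.LW

open SimpleGraph Classical

universe w

variable {V : Type w} {G : SimpleGraph V} {L : Finset (Sym2 V)}

/-- the vertices off the configuration -/
def OV (x y : V) (Ps : List (List V)) : Set V := {v | v ∉ Ps.flatten ∧ v ≠ x ∧ v ≠ y}

/-- `P` has the type of the gate `x`, the other gate is `y` -/
structure Ty (G : SimpleGraph V) (x y : V) (Ps : List (List V)) (P : List V) : Prop where
  nb : ∃ A a M b D, P = A ++ a :: (M ++ b :: D) ∧ G.Adj x a ∧ G.Adj x b ∧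
    ∀ v ∈ P, Con G (OV x y Ps) x v → v ∈ a :: (M ++ [b])
  no : ∀ v ∈ P, ¬ Con G (OV x y Ps) y v

/-- every segment has the type of one of the two gates, equally many of both types -/
structure F0 (G : SimpleGraph V) (x y : V) (Ps : List (List V)) : Prop where
  typ : ∀ P ∈ Ps, Ty G x y Ps P ∨ Ty G y x Ps P
  cnt : (Ps.filter (fun P => Ty G x y Ps P)).length = (Ps.filter (fun P => Ty G y x Ps P)).length
  sep : ∀ o ∈ Att G (OV x y Ps) x, o ∉ Att G (OV x y Ps) y

end Pool.Agent.LW
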