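import Pool.Agent.LW.HF5
import Pool.Agent.LW.HG1
import Pool.Agent.LW.RZ

set_option autoImplicit false

/-!
# Blocks H, R, O together
-/

namespace Pool.Agent.LW

open SimpleGraph Classical

universe w

variable {V : Type w} {G : SimpleGraph V} {L : Finset (Sym2 V)} {k : ℕ}

/-- the hypotheses of the second part are always satisfied -/
theorem ctx [Fintype V] (S : Bs G L k) : Ctx G L k where
  S := S
  gt := by
    intro x y Ps C
    have hxy : x ≠ y := C.xy_ne S.sub
    have hadj : G.Adj x y := by
      have := S.sub _ C.xy
      rwa [mem_edgeSet] at this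
    obtain ⟨B, O, -, h⟩ := exists_gt (G := G) (Z := VS Ps) (B0 := {x, y}) (x := x) (y := y)
      (by simp) (by simp) (thr_pair hadj) (by
        intro v hv
        simp only [Set.mem_insert_iff, Set.mem_singleton_iff] at hv
        rcases hv with rfl | rfl
        · exact C.hx
        · exact C.hy)
    exact ⟨B, O, h⟩
  tight := fun _ _ _ _ _ C D => tight S C D

/-- an edge-maximal counterexample with a configuration -/
theorem main_of_bs [Fintype V] (S : Bs G L k) {x y : V} {Ps : List (List V)}
    (C : Cfg G L x y Ps) : Odd k ∧ ¬ (G.deleteEdges (↑L : Set (Sym2 V))).Connected :=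
  main_of_cfg (ctx S) C

end Pool.Agent.LW
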