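import Pool.Agent.LW.ZA
import Pool.Agent.LW.RedB
import Pool.Agent.LW.PG

set_option autoImplicit false

/-!
# The theorem on cycles through independent edges
-/

namespace Pool.Agent.LW

open SimpleGraph

/-- if no cycle of a `k`-connected graph passes through all edges of a set of `k` independent edges, then
`k` is odd and deleting these edges disconnects the graph -/
theorem lovasz_woodall {V : Type} [Fintype V] {G : SimpleGraph V} {L : Finset (Sym2 V)} {k : ℕ}
    (h1 : 1 ≤ k)
    (hconn : ∀ S : Finset V, S.card < k → (G.induce ((↑S : Set V)ᶜ)).Connected)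
    (hL : ∀ e ∈ L, e ∈ G.edgeSet) (hcard : L.card = k)
    (hind : ∀ e ∈ L, ∀ f ∈ L, e ≠ f → ∀ v, v ∈ e → v ∉ f)
    (hno : ¬ ∃ (u : V) (p : G.Walk u u), p.IsCycle ∧ ∀ e ∈ L, e ∈ p.edges) :
    Odd k ∧ ¬ (G.deleteEdges (↑L : Set (Sym2 V))).Connected := by
  refine red_main ?_ h1 hconn hL hcard hind hno
  intro H S
  obtain ⟨x, y, Ps, C⟩ := exists_cfg S
  exact main_of_bs S C

end Pool.Agent.LW
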